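import Mathlib

/-!
# MP_b197b4_nt, project K1, part A: A1, units of finite algebras are torsion (helper77)
-/

set_option autoImplicit false

namespace Pool.Agent.Lib.MP_b197b4_ntK

/-- A1. Units of finite algebras are torsion. -/
theorem unit_torsion (p : ℕ) [Fact p.Prime] {k : Type} [Field k] [CharP k p] [IsAlgClosed k]
    (htor : ∀ a : k, a ≠ 0 → ∃ N : ℕ, 0 < N ∧ a ^ N = 1) {E : Type} [CommRing E] [Algebra k E]
    [Module.Finite k E] {v : E} (hv : IsUnit v) : ∃ N : ℕ, 0 < N ∧ v ^ N = 1 := by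
  letI a1 : Algebra (ZMod p) k := ZMod.algebra k p
  letI a2 : Algebra (ZMod p) E := ((algebraMap k E).comp (algebraMap (ZMod p) k)).toAlgebra
  have t1 : IsScalarTower (ZMod p) k E := IsScalarTower.of_algebraMap_eq fun _ => rfl
  have i1 : Algebra.IsIntegral (ZMod p) k := by
    refine ⟨fun a => ?_⟩
    rcases eq_or_ne a 0 with rfl | ha
    · exact isIntegral_zero
    · obtain ⟨N, hN, h⟩ := htor a ha
      exact IsIntegral.of_pow hN (h ▸ isIntegral_one)
  have h1 : IsIntegral (ZMod p) v := isIntegral_trans (R := ZMod p) (A := k) v (Algebra.IsIntegral.isIntegral v)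
  have h2 : (Subalgebra.toSubmodule (Algebra.adjoin (ZMod p) {v})).FG := h1.fg_adjoin_singleton
  have h3 : Module.Finite (ZMod p) (Algebra.adjoin (ZMod p) {v}) := ⟨(Submodule.fg_top _).2 h2⟩
  have h4 : Finite (Algebra.adjoin (ZMod p) {v}) := Module.finite_of_finite (ZMod p)
  have hmem : v ∈ Algebra.adjoin (ZMod p) {v} := Algebra.subset_adjoin rfl
  obtain ⟨m, n, hne, hmn⟩ := Finite.exists_ne_map_eq_of_infinite fun n : ℕ => (⟨v, hmem⟩ : Algebra.adjoin (ZMod p) {v}) ^ n
  have h5 : v ^ m = v ^ n := congrArg Subtype.val hmn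
  have key : ∀ m n : ℕ, m < n → v ^ m = v ^ n → ∃ N : ℕ, 0 < N ∧ v ^ N = 1 := by
    intro m n hlt h
    refine ⟨n - m, Nat.sub_pos_of_lt hlt, ?_⟩
    have h6 : v ^ m * v ^ (n - m) = v ^ m * 1 := by
      rw [← pow_add, Nat.add_sub_cancel' hlt.le, mul_one, h]
    exact (hv.pow m).mul_left_cancel h6
  rcases lt_or_gt_of_ne hne with h | h
  · exact key m n h h5
  · exact key n m h h5.symm

end Pool.Agent.Lib.MP_b197b4_ntK
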