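import Pool.Agent.Lib.MP_b197b4_ntA.AApi

/-!
# MP_b197b4_nt, project K1, part A: leaves A10, A11
-/

set_option autoImplicit false

namespace Pool.Agent.Lib.MP_b197b4_ntK

open IsLocalRing

variable {k : Type} {F : Type} [Field k] [Field F] [Algebra k F] {n : ℕ}
  {x : Fin (n + 1) → F}

/-- A11. The order of a form on a curve does not depend on the generator. -/
theorem ord_div_genA (hS : SurfN k x) {V : ValuationSubring F} (hV : V ∈ Curves (charts k x))
    {w : F} (hw : Gen k x V.toSubring w) (d : ℕ) {f : F} (hf : f ≠ 0) :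
    ord V (f / w ^ d) = vh x V d f := by
  have hD := SurfN.dvr hV
  have hk : Over k V := curve_over hV
  have h1 : ord V w ≤ ord V (x (idx x V)) := by
    have h : x (idx x V) / w ∈ V := hw.le (idx x V)
    rw [← ord_nonneg_iff hD (div_ne_zero (hS.ne _) hw.ne), ord_div hD (hS.ne _) hw.ne] at h
    omega
  have h2 : ord V (x (idx x V)) ≤ ord V w := by
    have h3 : ∀ j, x j / x (idx x V) ∈ V.toSubring := by
      intro j
      show x j / x (idx x V) ∈ V
      rw [← ord_nonneg_iff hD (div_ne_zero (hS.ne _) (hS.ne _)), ord_div hD (hS.ne _) (hS.ne _)]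
      have := idx_le x V j
      omega
    have h : w / x (idx x V) ∈ V := lin_of_le (O := V.toSubring) hk h3 hw.mem
    rw [← ord_nonneg_iff hD (div_ne_zero hw.ne (hS.ne _)), ord_div hD hw.ne (hS.ne _)] at h
    omega
  unfold vh
  rw [ord_div hD hf (pow_ne_zero _ hw.ne), ord_pow hD hw.ne, le_antisymm h1 h2]

/-- A10. A prime form generates the ideal of its curve at all good points of the surface. -/
theorem PrimeForm.genAt (hS : SurfN k x) {a : ℕ} {t : F} {V : ValuationSubring F}
    (ht : PrimeForm k x a t V) {O : Subring F} (hO : O ∈ Points (charts k x)) (hOg : Loc2 O)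
    (hOV : (O : Set F) ⊆ V) {w : F} (hw : Gen k x O w) : GenAt O {V} (t / w ^ a) := by
  have hk : ∀ c : k, algebraMap k F c ∈ O := point_over hO
  have hmem : t / w ^ a ∈ O := hw.div_mem hk ht.mem
  have hV : V ∈ CurvesAt O := (hS.curvesAt hO).1 ⟨ht.curve, hOV⟩
  have hgen : ∀ V' : ValuationSubring F, (O : Set F) ⊆ V' → Gen k x V'.toSubring w :=
    fun V' h => ⟨hw.mem, hw.ne, fun j => h (hw.le j)⟩
  have hy0 : t / w ^ a ≠ 0 := div_ne_zero ht.ne (pow_ne_zero _ hw.ne)
  have hord : ord V (t / w ^ a) = 1 := by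
    rw [ord_div_genA hS ht.curve (hgen V hOV) a ht.ne, ht.one]
  have hlt : V.valuation (t / w ^ a) < 1 := by
    rw [← ord_pos_iff hV.1 hy0, hord]
    exact one_pos
  refine ⟨hmem, fun V' hV' _ => ?_, fun z hz hzV => ?_⟩
  · rw [Set.mem_singleton_iff.1 hV']
    exact hlt
  have := hOg.ufd
  obtain ⟨p, hp, hpV⟩ := CurvesAt.exists_prime hOg hV
  have hp0 : (p : F) ≠ 0 := fun h => hp.ne_zero (Subtype.ext h)
  obtain ⟨y', hy'⟩ : p ∣ (⟨t / w ^ a, hmem⟩ : O) := (CurvesAt.dvd_iff hV hp hpV _).1 hlt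
  have hyF : t / w ^ a = (p : F) * (y' : F) := congrArg Subtype.val hy'
  have hy'0 : (y' : F) ≠ 0 := by
    intro h
    rw [h, mul_zero] at hyF
    exact hy0 hyF
  have hunit : IsUnit y' := by
    by_contra hnu
    obtain ⟨q, hq, hqy⟩ := WfDvdMonoid.exists_irreducible_factor hnu
      (fun h => hy'0 (congrArg Subtype.val h))
    have hqp : Prime q := UniqueFactorizationMonoid.irreducible_iff_prime.1 hq
    have hV' := locPrime_mem hOg hqp
    have hq1 : (locPrime hOg hqp).valuation (q : F) < 1 := locPrime_val_lt hOg hqp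
    obtain ⟨hc, hOV'⟩ := (hS.curvesAt hO).2 hV'
    have hlt' : (locPrime hOg hqp).valuation (t / w ^ a) < 1 := by
      have h := CurvesAt.lt_of_dvd hV' hq1 (hqy.trans (Dvd.intro_left p rfl))
      rw [hyF]
      exact_mod_cast h
    have hpos : 0 < ord (locPrime hOg hqp) (t / w ^ a) := (ord_pos_iff hV'.1 hy0).2 hlt'
    by_cases hVV : locPrime hOg hqp = V
    · rw [hVV] at hq1
      have h1 : V.valuation (y' : F) < 1 := CurvesAt.lt_of_dvd hV hq1 hqy
      have h2 := (ord_pos_iff hV.1 hy'0).2 h1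
      have h3 := (ord_pos_iff hV.1 hp0).2 hpV
      rw [hyF, ord_mul hV.1 hp0 hy'0] at hord
      omega
    · rw [ord_div_genA hS hc (hgen _ hOV') a ht.ne, ht.other _ hc hVV] at hpos
      exact lt_irrefl _ hpos
  obtain ⟨u, hu⟩ := hunit.exists_right_inv
  have hzlt : V.valuation ((⟨z, hz⟩ : O) : F) < 1 := hzV V rfl hOV
  obtain ⟨c, hc⟩ := (CurvesAt.dvd_iff hV hp hpV _).1 hzlt
  refine ⟨((c * u : O) : F), (c * u).2, ?_⟩
  have h1 : z = (p : F) * (c : F) := congrArg Subtype.val hc
  have h2 : (y' : F) * (u : F) = 1 := congrArg Subtype.val hu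
  rw [hyF, h1]
  push_cast
  calc (p : F) * (c : F) = (c : F) * (p : F) * 1 := by ring
    _ = (c : F) * (p : F) * ((y' : F) * (u : F)) := by rw [h2]
    _ = (c : F) * (u : F) * ((p : F) * (y' : F)) := by ring

end Pool.Agent.Lib.MP_b197b4_ntK
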