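import Pool.Agent.Lib.MP_b197b4_ntA.AApi

/-!
# MP_b197b4_nt, project K1, leaf A2: a form which generates the ideal of finitely many curves
-/

set_option autoImplicit false

namespace Pool.Agent.Lib.MP_b197b4_ntK

open IsLocalRing

section Local

variable {F : Type} [Field F] {O : Subring F}

/-- The ideal of finitely many curves through a factorial point is principal. -/
theorem a2_gen (hO : Loc2 O) (S : Finset (ValuationSubring F)) (hS : ∀ V ∈ S, V ∈ CurvesAt O) :
    ∃ y : O, y ≠ 0 ∧ (∀ V ∈ S, V.valuation (y : F) < 1) ∧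
      ∀ z : O, (∀ V ∈ S, V.valuation (z : F) < 1) → y ∣ z := by
  classical
  induction S using Finset.induction_on with
  | empty => exact ⟨1, one_ne_zero, by simp, fun z _ => one_dvd z⟩
  | insert V S hVS ih =>
    obtain ⟨y, hy0, hy1, hy2⟩ := ih (fun V' h => hS V' (Finset.mem_insert_of_mem h))
    have hV := hS V (Finset.mem_insert_self _ _)
    obtain ⟨p, hp, hpV⟩ := CurvesAt.exists_prime hO hV
    -- `p` does not divide `y`
    have hpy : ¬ p ∣ y := by
      rintro ⟨y', rfl⟩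
      have h1 : p * y' ∣ y' := hy2 y' fun V' hV' => by
        have hV'O := hS V' (Finset.mem_insert_of_mem hV')
        have h2 := hy1 V' hV'
        rcases CurvesAt.lt_or_eq hV'O p with h3 | h3
        · exact absurd (CurvesAt.unique hV hV'O hp hpV h3) fun h => hVS (h ▸ hV')
        · push_cast at h2
          rwa [map_mul, h3, one_mul] at h2
      obtain ⟨c, hc⟩ := h1
      have hy' : y' ≠ 0 := right_ne_zero_of_mul hy0
      apply hp.not_isUnit
      refine IsUnit.of_mul_eq_one c ?_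
      apply mul_left_cancel₀ hy'
      rw [mul_one]
      calc y' * (p * c) = p * y' * c := by ring
        _ = y' := hc.symm
    refine ⟨p * y, mul_ne_zero hp.ne_zero hy0, ?_, ?_⟩
    · intro V' hV'
      rcases Finset.mem_insert.1 hV' with rfl | h
      · exact CurvesAt.lt_of_dvd hV hpV (dvd_mul_right _ _)
      · exact CurvesAt.lt_of_dvd (hS _ hV') (hy1 V' h) (dvd_mul_left _ _)
    · intro z hz
      obtain ⟨c, rfl⟩ := hy2 z (fun V' h => hz V' (Finset.mem_insert_of_mem h))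
      have h1 : p ∣ y * c := (CurvesAt.dvd_iff hV hp hpV _).1
        (hz V (Finset.mem_insert_self _ _))
      obtain ⟨d, rfl⟩ := (hp.dvd_or_dvd h1).resolve_left hpy
      exact ⟨d, by ring⟩

/-- A nonzero element is not in all powers of the maximal ideal. -/
theorem a2_krull [IsLocalRing O] (hO : Loc2 O) {y : O} (hy : y ≠ 0) :
    ∃ N : ℕ, ∀ M ≥ N, y ∉ maximalIdeal O ^ M := by
  have := hO.noeth
  have h := Ideal.iInf_pow_eq_bot_of_isLocalRing (maximalIdeal O) (maximalIdeal.isMaximal O).ne_top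
  have h1 : y ∉ ⨅ i : ℕ, maximalIdeal O ^ i := by
    rw [h, Ideal.mem_bot]
    exact hy
  rw [Ideal.mem_iInf, not_forall] at h1
  obtain ⟨N, hN⟩ := h1
  exact ⟨N, fun M hM hyM => hN (Ideal.pow_le_pow_right hM hyM)⟩

theorem a2_mx [IsLocalRing O] : mx O = maximalIdeal O := by
  unfold mx
  apply le_antisymm
  · rw [Ideal.span_le]
    intro a ha
    exact (mem_maximalIdeal a).2 ha
  · intro a ha
    exact Ideal.subset_span ((mem_maximalIdeal a).1 ha)

/-- `GenAt` for a unit multiple. -/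
theorem a2_unit {C : Set (ValuationSubring F)} {y u : F} (h : GenAt O C y) (hu : u ∈ O)
    (hu' : u⁻¹ ∈ O) (hu0 : u ≠ 0) : GenAt O C (u * y) where
  mem := O.mul_mem hu h.mem
  lt V hV hOV := by
    rw [map_mul, mul_comm]
    exact mul_lt_one_of_lt_of_le (h.lt V hV hOV) ((V.valuation_le_one_iff _).2 (hOV hu))
  gen z hz hzV := by
    obtain ⟨c, hc, rfl⟩ := h.gen z hz hzV
    refine ⟨c * u⁻¹, O.mul_mem hc hu', ?_⟩
    rw [mul_assoc, ← mul_assoc u⁻¹ u y, inv_mul_cancel₀ hu0, one_mul]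

end Local

variable {k : Type} {F : Type} [Field k] [Field F] [Algebra k F] {n : ℕ}
  {x : Fin (n + 1) → F}

/-- The order of a form on a curve does not depend on the generator. -/
theorem a2_ord (hx : ∀ i, x i ≠ 0) {V : ValuationSubring F} (hV : V ∈ Curves (charts k x))
    {w : F} (hw : Gen k x V.toSubring w) (d : ℕ) {f : F} (hf : f ≠ 0) :
    ord V (f / w ^ d) = vh x V d f := by
  have hD := SurfN.dvr hV
  have hk := curve_over hV
  have h1 : 0 ≤ ord V (x (idx x V) / w) :=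
    (ord_nonneg_iff hD (div_ne_zero (hx _) hw.ne)).2 (hw.le _)
  have h2 : 0 ≤ ord V (w / x (idx x V)) := by
    refine (ord_nonneg_iff hD (div_ne_zero hw.ne (hx _))).2 ?_
    refine lin_of_le (O := V.toSubring) hk (fun j => ?_) hw.mem
    change x j / x (idx x V) ∈ V
    rw [← ord_nonneg_iff hD (div_ne_zero (hx _) (hx _)), ord_div hD (hx _) (hx _)]
    have := idx_le x V j
    omega
  rw [ord_div hD (hx _) hw.ne] at h1
  rw [ord_div hD hw.ne (hx _)] at h2
  have h3 : ord V w = ord V (x (idx x V)) := by omega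
  rw [ord_div hD hf (pow_ne_zero _ hw.ne), ord_pow hD hw.ne, h3]
  rfl

/-- A2. A form which generates the ideal of the curves in `C` at the points of `T`. -/
theorem exists_gen_form [IsAlgClosed k] (hS : SurfN k x) {C : Set (ValuationSubring F)}
    (hC : C.Finite) (hCC : ∀ V ∈ C, V ∈ Curves (charts k x)) {T : Set (Subring F)} (hT : T.Finite)
    (hTP : ∀ O ∈ T, O ∈ Points (charts k x)) (hTg : ∀ O ∈ T, Loc2 O) (hne : T.Nonempty) :
    ∃ m : ℕ, ∃ s ∈ hom k x m, s ≠ 0 ∧ (∀ V ∈ C, 0 < vh x V m s) ∧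
      ∀ O ∈ T, ∀ w, Gen k x O w → GenAt O C (s / w ^ m) := by
  classical
  have : Infinite k := IsAlgClosed.instInfinite
  -- the generators of the ideals at the points
  have key : ∀ O ∈ T, ∃ y : F, y ≠ 0 ∧ GenAt O C y ∧
      ∃ N : ℕ, ∀ M ≥ N, ∀ z : O, (z : F) = y → z ∉ (mx O) ^ M := by
    intro O hO
    have := hS.local (hTP O hO)
    obtain ⟨y, hy0, hy1, hy2⟩ := a2_gen (hTg O hO)
      (hC.toFinset.filter fun V => (O : Set F) ⊆ V) (fun V hV => by
        rw [Finset.mem_filter, Set.Finite.mem_toFinset] at hV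
        exact (hS.curvesAt (hTP O hO)).1 ⟨hCC V hV.1, hV.2⟩)
    obtain ⟨N, hN⟩ := a2_krull (hTg O hO) hy0
    refine ⟨y, fun h => hy0 (Subtype.ext h), ⟨y.2, fun V hV hOV => hy1 V ?_, fun z hz hzV => ?_⟩,
      N, fun M hM z hz => ?_⟩
    · rw [Finset.mem_filter, Set.Finite.mem_toFinset]
      exact ⟨hV, hOV⟩
    · obtain ⟨c, hc⟩ := hy2 ⟨z, hz⟩ fun V hV => by
        rw [Finset.mem_filter, Set.Finite.mem_toFinset] at hV
        exact hzV V hV.1 hV.2
      refine ⟨c, c.2, ?_⟩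
      have h1 : z = (y : F) * (c : F) := congrArg Subtype.val hc
      rw [h1, mul_comm]
    · rw [a2_mx, show z = y from Subtype.ext hz]
      exact hN M hM
  choose! y hy0 hyG N hN using key
  -- a common exponent
  obtain ⟨N₀, hN₀⟩ : ∃ N₀, ∀ O ∈ T, N O ≤ N₀ := by
    refine ⟨hT.toFinset.sup N, fun O hO => Finset.le_sup (f := N) ?_⟩
    rwa [Set.Finite.mem_toFinset]
  obtain ⟨w, hw, hw0, _, hwT⟩ := hS.gen (C := ∅) Set.finite_empty
    (fun V hV => absurd hV (Set.notMem_empty V)) hT hTP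
  obtain ⟨M₀, hM₀⟩ := hS.interp hC hCC hT hTP hw hw0 hwT N₀
  obtain ⟨q, hq, hqV, hqO⟩ := hM₀ M₀ le_rfl y
    (fun O hO => ⟨(hyG O hO).mem, fun V hV hOV => (hyG O hO).lt V hV hOV⟩)
  have hq0 : q ≠ 0 := by
    rintro rfl
    obtain ⟨O, hO⟩ := hne
    obtain ⟨z, hz, hz'⟩ := hqO O hO
    refine hN O hO N₀ (hN₀ O hO) (-z) ?_ ((mx O ^ N₀).neg_mem hz)
    push_cast
    rw [hz', zero_div, zero_sub, neg_neg]
  refine ⟨M₀, q, hq, hq0, fun V hV => hqV V hV hq0, fun O hO w' hw' => ?_⟩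
  have hloc := hS.local (hTP O hO)
  have hk := point_over (hTP O hO)
  obtain ⟨z, hz, hz'⟩ := hqO O hO
  have hg := hyG O hO
  -- `q / w ^ M₀` is in the ideal of the curves
  have hqm : q / w ^ M₀ ∈ O := (hwT O hO).div_mem hk hq
  obtain ⟨c, hc, hc'⟩ := hg.gen (q / w ^ M₀) hqm fun V hV hOV => by
    have hVc := hCC V hV
    have hD := SurfN.dvr hVc
    have hgV : Gen k x V.toSubring w := ⟨hw, hw0, fun j => hOV ((hwT O hO).le j)⟩
    rw [← ord_pos_iff hD (div_ne_zero hq0 (pow_ne_zero _ hw0)), a2_ord hS.ne hVc hgV M₀ hq0]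
    exact hqV V hV hq0
  -- `c` is a unit
  have hcu : IsUnit (⟨c, hc⟩ : O) := by
    by_contra hcu
    have h1 : IsUnit ((⟨c, hc⟩ : O) - 1) := by
      have h2 : IsUnit (1 - (⟨c, hc⟩ : O)) := by
        have h3 : IsUnit ((⟨c, hc⟩ : O) + (1 - ⟨c, hc⟩)) := by
          rw [add_sub_cancel]
          exact isUnit_one
        exact (IsLocalRing.isUnit_or_isUnit_of_isUnit_add h3).resolve_left hcu
      rw [← neg_sub]
      exact h2.neg
    obtain ⟨v, hv⟩ := h1.exists_left_inv
    refine hN O hO N₀ (hN₀ O hO) (v * z) ?_ ((mx O ^ N₀).mul_mem_left v hz)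
    have h4 : (v : F) * (c - 1) = 1 := by
      have := congrArg Subtype.val hv
      simpa using this
    push_cast
    rw [hz', hc']
    calc (v : F) * (c * y O - y O) = ((v : F) * (c - 1)) * y O := by ring
      _ = y O := by rw [h4, one_mul]
  obtain ⟨hc0, hci⟩ := (isUnit_iff_inv _).1 hcu
  change c ≠ 0 at hc0
  change c⁻¹ ∈ O at hci
  have hG : GenAt O C (q / w ^ M₀) := by
    rw [hc']
    exact a2_unit hg hc hci hc0
  -- another generator
  have h5 : w / w' ∈ O := hw'.lin hk hw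
  have h6 : w' / w ∈ O := (hwT O hO).lin hk hw'.mem
  have h7 : q / w' ^ M₀ = (w / w') ^ M₀ * (q / w ^ M₀) := by
    rw [div_pow]
    field_simp [hw0, hw'.ne]
  rw [h7]
  refine a2_unit hG (O.pow_mem h5 _) ?_ (pow_ne_zero _ (div_ne_zero hw0 hw'.ne))
  rw [← inv_pow, inv_div]
  exact O.pow_mem h6 _

end Pool.Agent.Lib.MP_b197b4_ntK
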