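import Pool.Agent.Lib.MP_b197b4_ntA.A1
import Pool.Agent.Lib.MP_b197b4_ntK.DefsN

/-!
# MP_b197b4_nt, project K1, part A: A4, a power of `a` is `1` modulo other curves (helper62)
-/

set_option autoImplicit false

namespace Pool.Agent.Lib.MP_b197b4_ntK

theorem A4_core (p : ℕ) [Fact p.Prime] {k : Type} [Field k] [CharP k p] [IsAlgClosed k]
    (htor : ∀ a : k, a ≠ 0 → ∃ N : ℕ, 0 < N ∧ a ^ N = 1)
    {A : Type} [CommRing A] [Algebra k A] [Algebra.FiniteType k A]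
    (hh : ∀ m : Ideal A, m.IsMaximal → m.height = 2)
    {P : Ideal A} (hP : P.IsPrime) (hPh : P.height = 1)
    {C : Set (Ideal A)} (hC : C.Finite) (hCp : ∀ Q ∈ C, Q.IsPrime ∧ Q.height = 1 ∧ Q ≠ P) {a : A}
    (ha : ∀ m : Ideal A, m.IsMaximal → P ≤ m → (∃ Q ∈ C, Q ≤ m) → a ∉ m) :
    ∃ N : ℕ, 0 < N ∧ ∃ G : A, G - a ^ N ∈ P ∧ ∀ Q ∈ C, G - 1 ∈ Q := by
  classical
  have key : ∀ q : Ideal A, q.IsPrime → P ⊔ sInf C ≤ q → P ≤ q ∧ ∃ Q ∈ C, Q ≤ q := by
    intro q hq h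
    refine ⟨le_sup_left.trans h, ?_⟩
    have h1 : sInf C ≤ q := le_sup_right.trans h
    have h2 : hC.toFinset.inf id ≤ q := by
      rw [Finset.inf_id_eq_sInf, hC.coe_toFinset]
      exact h1
    obtain ⟨Q, hQ, hQq⟩ := hq.inf_le'.1 h2
    exact ⟨Q, hC.mem_toFinset.1 hQ, hQq⟩
  have hmax : ∀ q : Ideal A, q.IsPrime → P ⊔ sInf C ≤ q → q.IsMaximal := by
    intro q hq h
    obtain ⟨h1, Q, hQ, hQq⟩ := key q hq h
    obtain ⟨hQp, hQh, hQne⟩ := hCp Q hQ
    have h2 : P ≠ q := by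
      rintro rfl
      have h3 : Q < P := lt_of_le_of_ne hQq hQne
      have h4 := Ideal.height_add_one_le_of_lt_of_isPrime h3
      rw [hQh, hPh] at h4
      exact absurd h4 (by norm_num)
    have h5 : P < q := lt_of_le_of_ne h1 h2
    obtain ⟨m, hm, hqm⟩ := q.exists_le_maximal hq.ne_top
    by_cases h6 : q = m
    · rw [h6]
      exact hm
    · have h7 : q < m := lt_of_le_of_ne hqm h6
      have := hm.isPrime
      have h8 := Ideal.height_add_one_le_of_lt_of_isPrime h5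
      have h9 := Ideal.height_add_one_le_of_lt_of_isPrime h7
      rw [hPh] at h8
      rw [hh m hm] at h9
      have h10 : (1 + 1 + 1 : ℕ∞) ≤ 2 := (add_le_add_left h8 1).trans h9
      exact absurd h10 (by norm_num)
  have hft : Algebra.FiniteType k (A ⧸ (P ⊔ sInf C)) := inferInstance
  have hdim : Ring.KrullDimLE 0 (A ⧸ (P ⊔ sInf C)) := by
    rw [Ideal.krullDimLE_zero_quotient_iff_forall_minimalPrimes_isMaximal]
    exact fun q hq => hmax q hq.1.1 hq.1.2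
  have hfin : Module.Finite k (A ⧸ (P ⊔ sInf C)) := (Module.finite_iff_krullDimLE_zero (R := k) (A := A ⧸ (P ⊔ sInf C))).2 hdim
  have hu : IsUnit (Ideal.Quotient.mk (P ⊔ sInf C) a) := by
    by_contra hn
    obtain ⟨m', hm', hmem⟩ := exists_max_ideal_of_mem_nonunits hn
    have hmm : (m'.comap (Ideal.Quotient.mk (P ⊔ sInf C))).IsMaximal := Ideal.comap_isMaximal_of_surjective _ Ideal.Quotient.mk_surjective
    have hle : P ⊔ sInf C ≤ m'.comap (Ideal.Quotient.mk (P ⊔ sInf C)) := by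
      intro z hz
      rw [Ideal.mem_comap, Ideal.Quotient.eq_zero_iff_mem.2 hz]
      exact m'.zero_mem
    obtain ⟨h1, h2⟩ := key _ hmm.isPrime hle
    exact ha _ hmm h1 h2 hmem
  obtain ⟨N, hN, h⟩ := unit_torsion p htor hu
  rw [← map_pow, ← map_one (Ideal.Quotient.mk (P ⊔ sInf C)), Ideal.Quotient.eq] at h
  obtain ⟨y, hy, z, hz, hyz⟩ := Submodule.mem_sup.1 h
  refine ⟨N, hN, 1 + z, ?_, fun Q hQ => ?_⟩
  · have : 1 + z - a ^ N = -y := by
      linear_combination (exp := 1) hyz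
    rw [this]
    exact P.neg_mem hy
  · rw [add_sub_cancel_left]
    exact (sInf_le hQ : sInf C ≤ Q) hz

variable {k : Type} {F : Type} [Field k] [Field F] [Algebra k F]

/-- A4. A power of `a` is `1` modulo other curves, if `a` has no zero on them which is on the first
curve. -/
theorem exists_lift (p : ℕ) [Fact p.Prime] [CharP k p] [IsAlgClosed k]
    (htor : ∀ a : k, a ≠ 0 → ∃ N : ℕ, 0 < N ∧ a ^ N = 1)
    {A : Subalgebra k F} (hA : ChartN A) {P : Ideal A} (hP : P.IsPrime) (hPh : P.height = 1)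
    {C : Set (Ideal A)} (hC : C.Finite) (hCp : ∀ Q ∈ C, Q.IsPrime ∧ Q.height = 1 ∧ Q ≠ P) {a : A}
    (ha : ∀ m : Ideal A, m.IsMaximal → P ≤ m → (∃ Q ∈ C, Q ≤ m) → a ∉ m) :
    ∃ N : ℕ, 0 < N ∧ ∃ G : A, G - a ^ N ∈ P ∧ ∀ Q ∈ C, G - 1 ∈ Q := by
  have : Algebra.FiniteType k A := A.fg_iff_finiteType.1 hA.fg
  exact A4_core p htor hA.height hP hPh hC hCp ha

end Pool.Agent.Lib.MP_b197b4_ntK
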