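import Pool.Agent.Lib.MP_b197b4_ntA.ALeaf

/-!
# MP_b197b4_nt, project K1, part A: leaf A5 (Lemma Q)

Prime forms of large degree with given values on finitely many curves.
-/

set_option autoImplicit false
set_option linter.style.haveILetI false

namespace Pool.Agent.Lib.MP_b197b4_ntK

open IsLocalRing

variable {k : Type} {F : Type} [Field k] [Field F] [Algebra k F] {n : ℕ}
  {x : Fin (n + 1) → F}

namespace A5

section Vals

variable {V : ValuationSubring F}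

/-- The value of the form `f` of degree `d` on the curve `V`. -/
noncomputable def rh (x : Fin (n + 1) → F) (V : ValuationSubring F) (d : ℕ) (f : F) :
    ResidueField V :=
  res V (hat x V d f)

theorem rh_add (hS : SurfN k x) (hV : V ∈ Curves (charts k x)) {d : ℕ} {f g : F}
    (hf : f ∈ hom k x d) (hg : g ∈ hom k x d) :
    rh x V d (f + g) = rh x V d f + rh x V d g := by
  have h1 : hat x V d (f + g) = hat x V d f + hat x V d g := by
    unfold hat
    rw [add_div]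
  unfold rh
  rw [h1, res_add (hat_mem (SurfN.dvr hV) (curve_over hV) hS.ne hf)
    (hat_mem (SurfN.dvr hV) (curve_over hV) hS.ne hg)]

theorem rh_mul (hS : SurfN k x) (hV : V ∈ Curves (charts k x)) {a b : ℕ} {f g : F}
    (hf : f ∈ hom k x a) (hg : g ∈ hom k x b) :
    rh x V (a + b) (f * g) = rh x V a f * rh x V b g := by
  unfold rh
  rw [Nat.cast_add, hat_mul hS.ne, res_mul (hat_mem (SurfN.dvr hV) (curve_over hV) hS.ne hf)
    (hat_mem (SurfN.dvr hV) (curve_over hV) hS.ne hg)]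

theorem rh_ne_iff (hS : SurfN k x) (hV : V ∈ Curves (charts k x)) {d : ℕ} {f : F}
    (hf : f ∈ hom k x d) : rh x V d f ≠ 0 ↔ f ≠ 0 ∧ vh x V d f = 0 := by
  have hd := SurfN.dvr hV
  have hm := hat_mem hd (curve_over hV) hS.ne hf
  constructor
  · intro h
    have h0 : f ≠ 0 := by
      rintro rfl
      apply h
      unfold rh hat
      rw [zero_div, res_of_mem (zero_mem V)]
      exact map_zero _
    refine ⟨h0, ?_⟩
    rw [← ord_hat hS.ne hd d h0, ord_eq_zero_iff hd (hat_ne hS.ne V d h0)]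
    exact (res_ne_zero_iff hm).1 h
  · rintro ⟨h0, h1⟩
    rw [← ord_hat hS.ne hd d h0, ord_eq_zero_iff hd (hat_ne hS.ne V d h0)] at h1
    exact (res_ne_zero_iff hm).2 h1

theorem rh_eq_zero (hS : SurfN k x) (hV : V ∈ Curves (charts k x)) {d : ℕ} {f : F}
    (hf : f ∈ hom k x d) (h : vh x V d f ≠ 0) : rh x V d f = 0 := by
  by_contra h1
  exact h ((rh_ne_iff hS hV hf).1 h1).2

end Vals

section Points

variable {V : ValuationSubring F} {O : Subring F} {w s : F} {m : ℕ}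

/-- A form which does not vanish on the curves through a point does not vanish at the point. -/
theorem inv_mem_of_curves (hS : SurfN k x) (hO : O ∈ Points (charts k x)) (hw : Gen k x O w)
    (hs : s ∈ hom k x m) (hs0 : s ≠ 0)
    (h : ∀ V ∈ Curves (charts k x), (O : Set F) ⊆ V → vh x V m s = 0) : (s / w ^ m)⁻¹ ∈ O := by
  have hne : s / w ^ m ≠ 0 := div_ne_zero hs0 (pow_ne_zero _ hw.ne)
  by_contra hu
  obtain ⟨V, hV, hOV, hlt⟩ := hS.exists_through hO (hw.div_mem (point_over hO) hs) hne hu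
  have h1 := h V hV hOV
  rw [← ord_div_genA hS hV (Gen.curve hOV hw) m hs0] at h1
  rw [← ord_pos_iff (SurfN.dvr hV) hne, h1] at hlt
  exact lt_irrefl _ hlt

/-- A form which does not vanish at a point does not vanish on the curves through the point. -/
theorem vh_of_inv_mem (hS : SurfN k x) (hV : V ∈ Curves (charts k x))
    (hOV : (O : Set F) ⊆ V) (hw : Gen k x O w) (hs0 : s ≠ 0) (h0 : s / w ^ m ∈ O)
    (hu : (s / w ^ m)⁻¹ ∈ O) : vh x V m s = 0 := by
  have hd := SurfN.dvr hV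
  have hne : s / w ^ m ≠ 0 := div_ne_zero hs0 (pow_ne_zero _ hw.ne)
  rw [← ord_div_genA hS hV (Gen.curve hOV hw) m hs0]
  have h1 := (ord_nonneg_iff hd hne).2 (hOV h0)
  have h2 := (ord_nonneg_iff hd (inv_ne_zero hne)).2 (hOV hu)
  rw [ord_inv hd hne] at h2
  omega

/-- A good point of a curve outside of finitely many other curves and points. -/
theorem exists_pt [IsAlgClosed k] (hS : SurfN k x) (hV : V ∈ Curves (charts k x))
    {E : Set (ValuationSubring F)} (hE : E.Finite) (hEC : ∀ V' ∈ E, V' ∈ Curves (charts k x))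
    (hVE : V ∉ E) {T : Set (Subring F)} (hT : T.Finite) :
    ∃ O ∈ Points (charts k x), (O : Set F) ⊆ V ∧ GoodAt O V ∧ (∀ V' ∈ E, ¬ (O : Set F) ⊆ V') ∧
      O ∉ T := by
  have h1 := hS.infinite_points hV
  have h2 : ({O : Subring F | O ∈ Points (charts k x) ∧ (O : Set F) ⊆ V ∧ ¬ GoodAt O V} ∪
      (⋃ V' ∈ E, {O : Subring F | O ∈ Points (charts k x) ∧ (O : Set F) ⊆ V ∧
        (O : Set F) ⊆ V'}) ∪ T).Finite := by
    refine ((hS.finite_bad hV).union (hE.biUnion fun V' hV' => ?_)).union hT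
    refine hS.finite_common hV (hEC V' hV') ?_
    rintro rfl
    exact hVE hV'
  obtain ⟨O, ⟨hO, hOV⟩, hnot⟩ := (h1.sdiff h2).nonempty
  simp only [Set.mem_union, Set.mem_iUnion, Set.mem_ofPred_eq, not_or, not_and, not_exists,
    not_not] at hnot
  exact ⟨O, hO, hOV, hnot.1.1 hO hOV, fun V' hV' h => hnot.1.2 V' hV' hO hOV h, hnot.2⟩

end Points

section Loc

variable {O : Subring F}

/-- Congruence modulo a power of the maximal ideal. -/
def Cg (O : Subring F) (N : ℕ) (y z : F) : Prop := ∃ a : O, a ∈ (mx O) ^ N ∧ (a : F) = y - z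

theorem mx_eq (O : Subring F) [IsLocalRing O] : mx O = maximalIdeal O := by
  unfold mx
  apply le_antisymm
  · rw [Ideal.span_le]
    exact fun a ha => (mem_maximalIdeal a).2 ha
  · exact fun a ha => Ideal.subset_span ((mem_maximalIdeal a).1 ha)

theorem Cg.mem {N : ℕ} {y z : F} (h : Cg O N y z) (hz : z ∈ O) : y ∈ O := by
  obtain ⟨a, -, ha⟩ := h
  have h1 : y = a + z := by
    rw [ha]
    ring
  rw [h1]
  exact add_mem a.2 hz

theorem Cg.mul_left {N : ℕ} {y z c : F} (h : Cg O N y z) (hc : c ∈ O) :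
    Cg O N (c * y) (c * z) := by
  obtain ⟨a, ha, h1⟩ := h
  refine ⟨⟨c, hc⟩ * a, Ideal.mul_mem_left _ _ ha, ?_⟩
  push_cast
  rw [h1]
  ring

/-- An element which is congruent to `1` is a unit. -/
theorem Cg.unit [IsLocalRing O] {y : F} (h : Cg O 2 y 1) : y ≠ 0 ∧ y ∈ O ∧ y⁻¹ ∈ O := by
  have hy : y ∈ O := h.mem (one_mem O)
  obtain ⟨a, ha, h1⟩ := h
  rw [mx_eq] at ha
  have ha' : a ∈ maximalIdeal O := Ideal.pow_le_self two_ne_zero ha
  have h2 : IsUnit (⟨y, hy⟩ : O) := by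
    by_contra hcon
    have h3 : (⟨y, hy⟩ : O) ∈ maximalIdeal O := (mem_maximalIdeal _).2 hcon
    have h4 : (1 : O) = ⟨y, hy⟩ - a := by
      apply Subtype.ext
      push_cast
      rw [h1]
      ring
    have h5 : (1 : O) ∈ maximalIdeal O := by
      rw [h4]
      exact sub_mem h3 ha'
    exact (Ideal.ne_top_iff_one _).1 (maximalIdeal.isMaximal O).ne_top h5
  have h3 := (isUnit_iff_inv _).1 h2
  exact ⟨h3.1, hy, h3.2⟩

/-- The maximal ideal is generated by two parameters. -/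
theorem IsParam.max [IsLocalRing O] {α β : F} (h : IsParam O α β) :
    maximalIdeal O = Ideal.span {(⟨α, h.choose⟩ : O), ⟨β, h.choose_spec.choose⟩} := by
  ext y
  rw [h.choose_spec.choose_spec y]
  exact mem_maximalIdeal y

/-- Parameters are determined modulo the square of the maximal ideal, up to units. -/
theorem isParam_congr [IsLocalRing O] (hN : IsNoetherianRing O) {α β : F} (h : IsParam O α β)
    {a b u : F} (hu : u ∈ O) (hu' : u⁻¹ ∈ O) (hu0 : u ≠ 0) (ha : Cg O 2 a α)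
    (hb : Cg O 2 b (u * β)) : IsParam O a b := by
  have hα := h.choose
  have hβ := h.choose_spec.choose
  have hmax := IsParam.max h
  have ha' : a ∈ O := ha.mem hα
  have hb' : b ∈ O := hb.mem (mul_mem hu hβ)
  refine ⟨ha', hb', fun y => ?_⟩
  have hα' : (⟨α, hα⟩ : O) ∈ maximalIdeal O := by
    rw [hmax]
    exact Ideal.subset_span (Set.mem_insert _ _)
  have hβ' : (⟨β, hβ⟩ : O) ∈ maximalIdeal O := by
    rw [hmax]
    exact Ideal.subset_span (Set.mem_insert_of_mem _ rfl)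
  obtain ⟨a1, ha1, ha2⟩ := ha
  obtain ⟨b1, hb1, hb2⟩ := hb
  rw [mx_eq] at ha1 hb1
  have ea : (⟨a, ha'⟩ : O) = ⟨α, hα⟩ + a1 := by
    apply Subtype.ext
    push_cast
    rw [ha2]
    ring
  have eb : (⟨b, hb'⟩ : O) = ⟨u, hu⟩ * ⟨β, hβ⟩ + b1 := by
    apply Subtype.ext
    push_cast
    rw [hb2]
    ring
  have hle : Ideal.span {(⟨a, ha'⟩ : O), ⟨b, hb'⟩} ≤ maximalIdeal O := by
    rw [Ideal.span_le]
    rintro z (rfl | rfl)
    · rw [ea]
      exact add_mem hα' (Ideal.pow_le_self two_ne_zero ha1)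
    · rw [eb]
      exact add_mem (Ideal.mul_mem_left _ _ hβ') (Ideal.pow_le_self two_ne_zero hb1)
  have hge : maximalIdeal O ≤ Ideal.span {(⟨a, ha'⟩ : O), ⟨b, hb'⟩} := by
    refine Submodule.le_of_le_smul_of_le_jacobson_bot (I := maximalIdeal O)
      (IsNoetherian.noetherian _) (IsLocalRing.maximalIdeal_le_jacobson _) ?_
    have hsq : (maximalIdeal O) • (maximalIdeal O) = (maximalIdeal O) ^ 2 := by
      rw [pow_two]
      rfl
    rw [hsq]
    conv_lhs => rw [hmax]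
    rw [Ideal.span_le]
    rintro z (rfl | rfl)
    · have e1 : (⟨α, hα⟩ : O) = ⟨a, ha'⟩ - a1 := by
        rw [ea]
        ring
      change (⟨α, hα⟩ : O) ∈ _
      rw [e1]
      exact sub_mem (Ideal.mem_sup_left (Ideal.subset_span (Set.mem_insert _ _)))
        (Ideal.mem_sup_right ha1)
    · have e1 : (⟨β, hβ⟩ : O) = ⟨u⁻¹, hu'⟩ * ⟨b, hb'⟩ - ⟨u⁻¹, hu'⟩ * b1 := by
        rw [eb]
        have e2 : (⟨u⁻¹, hu'⟩ : O) * ⟨u, hu⟩ = 1 := Subtype.ext (inv_mul_cancel₀ hu0)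
        calc (⟨β, hβ⟩ : O) = 1 * ⟨β, hβ⟩ := (one_mul _).symm
          _ = _ := by
            rw [← e2]
            ring
      change (⟨β, hβ⟩ : O) ∈ _
      rw [e1]
      exact sub_mem (Ideal.mem_sup_left (Ideal.mul_mem_left _ _
        (Ideal.subset_span (Set.mem_insert_of_mem _ rfl))))
        (Ideal.mem_sup_right (Ideal.mul_mem_left _ _ hb1))
  constructor
  · intro hy
    exact (mem_maximalIdeal y).1 (hle hy)
  · intro hy
    exact hge ((mem_maximalIdeal y).2 hy)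

/-- Parameters are not zero. -/
theorem isParam_ne [IsLocalRing O] (hN : IsNoetherianRing O) (hd : ringKrullDim O = 2) {α β : F}
    (h : IsParam O α β) : α ≠ 0 ∧ β ≠ 0 := by
  have hα := h.choose
  have hβ := h.choose_spec.choose
  have hmax := IsParam.max h
  have hα' : (⟨α, hα⟩ : O) ∈ maximalIdeal O := by
    rw [hmax]
    exact Ideal.subset_span (Set.mem_insert _ _)
  have hβ' : (⟨β, hβ⟩ : O) ∈ maximalIdeal O := by
    rw [hmax]
    exact Ideal.subset_span (Set.mem_insert_of_mem _ rfl)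
  constructor
  · intro h0
    refine not_pow_le hd _ hβ' 1 ?_
    rw [pow_one]
    conv_lhs => rw [hmax]
    rw [Ideal.span_le]
    rintro z (rfl | rfl)
    · have e1 : (⟨α, hα⟩ : O) = 0 := Subtype.ext h0
      change (⟨α, hα⟩ : O) ∈ _
      rw [e1]
      exact zero_mem _
    · exact Ideal.mem_span_singleton_self _
  · intro h0
    refine not_pow_le hd _ hα' 1 ?_
    rw [pow_one]
    conv_lhs => rw [hmax]
    rw [Ideal.span_le]
    rintro z (rfl | rfl)
    · exact Ideal.mem_span_singleton_self _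
    · have e1 : (⟨β, hβ⟩ : O) = 0 := Subtype.ext h0
      change (⟨β, hβ⟩ : O) ∈ _
      rw [e1]
      exact zero_mem _

end Loc

section Steps

variable {C C' : Set (ValuationSubring F)} {Z : Set (Subring F)}

/-- Q1. -/
theorem step1 [IsAlgClosed k] (hS : SurfN k x)
    (hC : C.Finite) (hCC : ∀ V ∈ C, V ∈ Curves (charts k x))
    (hC' : C'.Finite) (hCC' : ∀ V ∈ C', V ∈ Curves (charts k x))
    (hZ : Z.Finite) (hZP : ∀ O ∈ Z, O ∈ Points (charts k x)) (hZs : ∀ O ∈ Z, SmoothAt O C) :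
    ∃ m : ℕ, ∃ s ∈ hom k x m, s ≠ 0 ∧ (∀ V ∈ C, 0 < vh x V m s) ∧
      (∀ V ∈ C', V ∉ C → vh x V m s = 0) ∧
      ∀ O ∈ Z, ∀ w, Gen k x O w → GenAt O C (s / w ^ m) := by
  have hex : ∀ V, V ∈ C' ∧ V ∉ C → ∃ O ∈ Points (charts k x), (O : Set F) ⊆ V ∧ GoodAt O V ∧
      ∀ V' ∈ C, ¬ (O : Set F) ⊆ V' := by
    rintro V ⟨hV, hVC⟩
    obtain ⟨O, h1, h2, h3, h4, -⟩ := exists_pt hS (hCC' V hV) hC hCC hVC Set.finite_empty
    exact ⟨O, h1, h2, h3, h4⟩
  choose! o ho1 ho2 ho3 ho4 using hex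
  obtain ⟨O₂, hO₂, hO₂g, -, -⟩ := hS.exists_outside (C := ∅) Set.finite_empty
    fun V h => h.elim
  have hT : (Z ∪ o '' (C' \ C) ∪ {O₂}).Finite :=
    (hZ.union ((hC'.subset Set.sdiff_subset).image o)).union (Set.finite_singleton _)
  have hTP : ∀ O ∈ Z ∪ o '' (C' \ C) ∪ {O₂}, O ∈ Points (charts k x) := by
    rintro O ((h | ⟨V, hV, rfl⟩) | h)
    · exact hZP O h
    · exact ho1 V ⟨hV.1, hV.2⟩
    · rw [Set.mem_singleton_iff] at h
      rw [h]
      exact hO₂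
  have hTg : ∀ O ∈ Z ∪ o '' (C' \ C) ∪ {O₂}, Loc2 O := by
    rintro O ((h | ⟨V, hV, rfl⟩) | h)
    · obtain ⟨V, -, -, -, h1⟩ := hZs O h
      exact h1.1
    · exact (ho3 V ⟨hV.1, hV.2⟩).1
    · rw [Set.mem_singleton_iff] at h
      rw [h]
      exact hO₂g
  obtain ⟨m, s, hs, hs0, h1, h2⟩ := exists_gen_form hS hC hCC hT hTP hTg ⟨O₂, Or.inr rfl⟩
  refine ⟨m, s, hs, hs0, h1, fun V hV hVC => ?_, fun O hO => h2 O (Or.inl (Or.inl hO))⟩
  have hp := ho1 V ⟨hV, hVC⟩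
  obtain ⟨i, hw⟩ := gen_of_point (k := k) hS.ne hp
  have h3 := h2 (o V) (Or.inl (Or.inr ⟨V, ⟨hV, hVC⟩, rfl⟩)) _ hw
  obtain ⟨c, hc, h4⟩ := h3.gen 1 (one_mem _) fun V' hV' h => absurd h (ho4 V ⟨hV, hVC⟩ V' hV')
  have h5 : (s / x i ^ m)⁻¹ ∈ o V := by
    have h6 : s / x i ^ m ≠ 0 := div_ne_zero hs0 (pow_ne_zero _ hw.ne)
    have h7 : (s / x i ^ m)⁻¹ = c := by
      rw [inv_eq_one_div, div_eq_iff h6]
      exact h4
    rw [h7]
    exact hc
  exact vh_of_inv_mem hS (hCC' V hV) (ho2 V ⟨hV, hVC⟩) hw hs0 h3.mem h5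

/-- Q2, Q3. -/
theorem step2 [IsAlgClosed k] (hS : SurfN k x) {m : ℕ} {s : F} (hs : s ∈ hom k x m) (hs0 : s ≠ 0)
    (hZ : Z.Finite) (hZP : ∀ O ∈ Z, O ∈ Points (charts k x))
    (hZs : ∀ O ∈ Z, ∃ V ∈ Curves (charts k x), (O : Set F) ⊆ V ∧ vh x V m s ≠ 0) :
    ∃ (O₁ : Subring F) (α β w : F) (j : ℕ) (r : F), O₁ ∈ Points (charts k x) ∧ Loc2 O₁ ∧
      IsParam O₁ α β ∧ (∀ V ∈ Curves (charts k x), (O₁ : Set F) ⊆ V → vh x V m s = 0) ∧
      Gen k x O₁ w ∧ (∀ O ∈ Z, Gen k x O w) ∧ r ∈ hom k x j ∧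
      Cg O₁ 2 (s / w ^ m * (r / w ^ j)) β ∧ ∀ O ∈ Z, Cg O 2 (r / w ^ j) 1 := by
  classical
  have hE : {V | V ∈ Curves (charts k x) ∧ vh x V m s ≠ 0}.Finite :=
    vh_finite (D := Curves (charts k x)) (fun f hf => hS.fin hf) hS.ne m hs0
  obtain ⟨O₁, hO₁, hO₁g, ⟨α, β, hαβ⟩, hO₁E⟩ := hS.exists_outside hE fun V hV => hV.1
  have hout : ∀ V ∈ Curves (charts k x), (O₁ : Set F) ⊆ V → vh x V m s = 0 := by
    intro V hV hOV
    by_contra h
    exact hO₁E V ⟨hV, h⟩ hOV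
  have hT : (Z ∪ {O₁}).Finite := hZ.union (Set.finite_singleton _)
  have hTP : ∀ O ∈ Z ∪ {O₁}, O ∈ Points (charts k x) := by
    rintro O (h | h)
    · exact hZP O h
    · rw [Set.mem_singleton_iff] at h
      rw [h]
      exact hO₁
  haveI : Infinite k := IsAlgClosed.instInfinite
  obtain ⟨w, hw, hw0, -, hwT⟩ := hS.gen (C := ∅) Set.finite_empty (fun V h => h.elim) hT hTP
  have hw₁ : Gen k x O₁ w := hwT O₁ (Or.inr rfl)
  have hu := inv_mem_of_curves hS hO₁ hw₁ hs hs0 hout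
  obtain ⟨M₀, hM₀⟩ := hS.interp (C := ∅) Set.finite_empty (fun V h => h.elim) hT hTP hw hw0 hwT 2
  obtain ⟨r, hr, -, hr2⟩ := hM₀ M₀ le_rfl
    (fun O => if O = O₁ then (s / w ^ m)⁻¹ * β else 1) (by
      intro O hO
      refine ⟨?_, fun V h => h.elim⟩
      split_ifs with h
      · rw [h]
        exact mul_mem hu hαβ.choose_spec.choose
      · exact one_mem O)
  have hne : s / w ^ m ≠ 0 := div_ne_zero hs0 (pow_ne_zero _ hw0)
  refine ⟨O₁, α, β, w, M₀, r, hO₁, hO₁g, hαβ, hout, hw₁, fun O hO => hwT O (Or.inl hO), hr, ?_,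
    fun O hO => ?_⟩
  · have h1 := hr2 O₁ (Or.inr rfl)
    rw [if_pos rfl] at h1
    have h2 : Cg O₁ 2 (r / w ^ M₀) ((s / w ^ m)⁻¹ * β) := h1
    have h3 := h2.mul_left (hw₁.div_mem (point_over hO₁) hs)
    rwa [mul_inv_cancel_left₀ hne] at h3
  · have h1 := hr2 O (Or.inl hO)
    rw [if_neg] at h1
    · exact h1
    · rintro rfl
      obtain ⟨V, hV, hOV, hv⟩ := hZs _ hO
      exact hv (hout V hV hOV)

/-- Q4. -/
theorem step3 [IsAlgClosed k] (hS : SurfN k x) {m : ℕ} {s : F} (hs : s ∈ hom k x m) (hs0 : s ≠ 0)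
    {O₁ : Subring F} (hO₁ : O₁ ∈ Points (charts k x))
    (hout : ∀ V ∈ Curves (charts k x), (O₁ : Set F) ⊆ V → vh x V m s = 0)
    {α : F} (hα : α ∈ O₁) {E : Set (ValuationSubring F)} (hE : E.Finite)
    (hEC : ∀ V ∈ E, V ∈ Curves (charts k x)) :
    ∃ (w : F) (M₀ : ℕ), Gen k x O₁ w ∧ ∀ M ≥ M₀, m ≤ M ∧ ∀ g ∈ hom k x M,
      ∃ r ∈ hom k x (M - m), Cg O₁ 2 ((g + s * r) / w ^ M) α ∧
        ∀ V ∈ E, vh x V m s = 0 → vh x V M (g + s * r) = 0 := by
  classical
  have hfin : {V | V ∈ Curves (charts k x) ∧ vh x V m s ≠ 0}.Finite :=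
    vh_finite (D := Curves (charts k x)) (fun f hf => hS.fin hf) hS.ne m hs0
  have hex : ∀ V, V ∈ E ∧ vh x V m s = 0 → ∃ O ∈ Points (charts k x), (O : Set F) ⊆ V ∧
      (∀ V' ∈ Curves (charts k x), (O : Set F) ⊆ V' → vh x V' m s = 0) ∧ O ≠ O₁ := by
    rintro V ⟨hV, hv⟩
    obtain ⟨O, h1, h2, -, h4, h5⟩ := exists_pt hS (hEC V hV) hfin (fun V' h => h.1)
      (fun h => h.2 hv) (Set.finite_singleton O₁)
    refine ⟨O, h1, h2, fun V' hV' hOV' => ?_, h5⟩
    by_contra h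
    exact h4 V' ⟨hV', h⟩ hOV'
  choose! o ho1 ho2 ho3 ho4 using hex
  have hT : (o '' {V | V ∈ E ∧ vh x V m s = 0} ∪ {O₁}).Finite :=
    ((hE.subset fun V h => h.1).image o).union (Set.finite_singleton _)
  have hTP : ∀ O ∈ o '' {V | V ∈ E ∧ vh x V m s = 0} ∪ {O₁}, O ∈ Points (charts k x) := by
    rintro O (⟨V, hV, rfl⟩ | h)
    · exact ho1 V hV
    · rw [Set.mem_singleton_iff] at h
      rw [h]
      exact hO₁
  have hTo : ∀ O ∈ o '' {V | V ∈ E ∧ vh x V m s = 0} ∪ {O₁}, ∀ V ∈ Curves (charts k x),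
      (O : Set F) ⊆ V → vh x V m s = 0 := by
    rintro O (⟨V, hV, rfl⟩ | h)
    · exact ho3 V hV
    · rw [Set.mem_singleton_iff] at h
      rw [h]
      exact hout
  haveI : Infinite k := IsAlgClosed.instInfinite
  obtain ⟨w, hw, hw0, -, hwT⟩ := hS.gen (C := ∅) Set.finite_empty (fun V h => h.elim) hT hTP
  obtain ⟨M₀, hM₀⟩ := hS.interp (C := ∅) Set.finite_empty (fun V h => h.elim) hT hTP hw hw0 hwT 2
  have hne : s / w ^ m ≠ 0 := div_ne_zero hs0 (pow_ne_zero _ hw0)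
  refine ⟨w, M₀ + m, hwT O₁ (Or.inr rfl), fun M hM => ⟨by omega, fun g hg => ?_⟩⟩
  obtain ⟨r, hr, -, hr2⟩ := hM₀ (M - m) (by omega)
    (fun O => (s / w ^ m)⁻¹ * ((if O = O₁ then α else 1) - g / w ^ M)) (by
      intro O hO
      refine ⟨?_, fun V h => h.elim⟩
      refine mul_mem (inv_mem_of_curves hS (hTP O hO) (hwT O hO) hs hs0 (hTo O hO))
        (sub_mem ?_ ((hwT O hO).div_mem (point_over (hTP O hO)) hg))
      split_ifs with h
      · rw [h]
        exact hα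
      · exact one_mem O)
  have key : ∀ O ∈ o '' {V | V ∈ E ∧ vh x V m s = 0} ∪ {O₁},
      Cg O 2 ((g + s * r) / w ^ M) (if O = O₁ then α else 1) := by
    intro O hO
    have h1 : Cg O 2 (r / w ^ (M - m)) ((s / w ^ m)⁻¹ * ((if O = O₁ then α else 1) - g / w ^ M)) :=
      hr2 O hO
    have h3 := h1.mul_left ((hwT O hO).div_mem (point_over (hTP O hO)) hs)
    rw [mul_inv_cancel_left₀ hne] at h3
    obtain ⟨a, ha, h4⟩ := h3
    refine ⟨a, ha, ?_⟩
    rw [h4]
    have h5 : s / w ^ m * (r / w ^ (M - m)) = s * r / w ^ M := by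
      rw [div_mul_div_comm, ← pow_add, Nat.add_sub_cancel' (by omega)]
    rw [h5, add_div]
    ring
  refine ⟨r, hr, ?_, fun V hV hv => ?_⟩
  · have h1 := key O₁ (Or.inr rfl)
    rwa [if_pos rfl] at h1
  · have h1 := key (o V) (Or.inl ⟨V, ⟨hV, hv⟩, rfl⟩)
    rw [if_neg (ho4 V ⟨hV, hv⟩)] at h1
    haveI := hS.local (ho1 V ⟨hV, hv⟩)
    obtain ⟨h2, h3, h4⟩ := h1.unit
    have h5 : g + s * r ≠ 0 := by
      intro h0
      rw [h0, zero_div] at h2
      exact h2 rfl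
    exact vh_of_inv_mem hS (hEC V hV) (ho2 V ⟨hV, hv⟩)
      (hwT (o V) (Or.inl ⟨V, ⟨hV, hv⟩, rfl⟩)) h5 h3 h4

end Steps

end A5

open A5 in
/-- A5. LEMMA Q: prime forms with given values on the curves of `C`. -/
theorem prime_lift_A5 [IsAlgClosed k] (hS : SurfN k x) (hP : Pencil k x)
    {C : Set (ValuationSubring F)} (hC : C.Finite) (hCC : ∀ V ∈ C, V ∈ Curves (charts k x))
    {C' : Set (ValuationSubring F)} (hC' : C'.Finite) (hCC' : ∀ V ∈ C', V ∈ Curves (charts k x))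
    {Z : Set (Subring F)} (hZ : Z.Finite) (hZP : ∀ O ∈ Z, O ∈ Points (charts k x))
    (hZs : ∀ O ∈ Z, SmoothAt O C) :
    ∃ M₁ : ℕ, ∀ M ≥ M₁, ∀ g ∈ hom k x M, g ≠ 0 → (∀ V ∈ C, vh x V M g = 0) →
      (∀ V ∈ Curves (charts k x), vh x V M g ≠ 0 → V ∈ C') →
      (∀ O ∈ Points (charts k x), (∃ V ∈ C, (O : Set F) ⊆ V) → ∀ w, Gen k x O w →
        (g / w ^ M)⁻¹ ∉ O → O ∈ Z) →
      ∃ t V, PrimeForm k x M t V ∧ (∀ V' ∈ C, res V' (hat x V' M t) = res V' (hat x V' M g)) ∧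
        ∀ O ∈ Points (charts k x), (O : Set F) ⊆ V → (∃ V' ∈ C, (O : Set F) ⊆ V') →
          GoodAt O V := by
  classical
  obtain ⟨m, s, hs, hs0, hsC, hsC', hsZ⟩ := step1 hS hC hCC hC' hCC' hZ hZP hZs
  have hZs' : ∀ O ∈ Z, ∃ V ∈ Curves (charts k x), (O : Set F) ⊆ V ∧ vh x V m s ≠ 0 := by
    intro O hO
    obtain ⟨V, hV, hOV, -, -⟩ := hZs O hO
    exact ⟨V, hCC V hV, hOV, (hsC V hV).ne'⟩
  obtain ⟨O₁, α, β, w, j, r, hO₁, hO₁g, hαβ, hout, hw₁, hwZ, hr, hrO₁, hrZ⟩ :=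
    step2 hS hs hs0 hZ hZP hZs'
  have hw := hw₁.mem
  have hw0 := hw₁.ne
  haveI hloc₁ := hS.local hO₁
  have hnoe₁ : IsNoetherianRing O₁ := hO₁g.noeth
  have hdim₁ := hS.dim hO₁
  -- `r` is not zero
  have hr0 : r ≠ 0 := by
    rintro rfl
    rw [zero_div, mul_zero] at hrO₁
    have h1 : IsParam O₁ α 0 := isParam_congr hnoe₁ hαβ (one_mem O₁)
      (by rw [inv_one]; exact one_mem O₁) one_ne_zero
      ⟨0, zero_mem _, by rw [sub_self]; rfl⟩ (by rwa [one_mul])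
    exact (isParam_ne hnoe₁ hdim₁ h1).2 rfl
  have hfinv : ∀ (d : ℤ) (f : F), f ≠ 0 → {V | V ∈ Curves (charts k x) ∧ vh x V d f ≠ 0}.Finite :=
    fun d f hf => vh_finite (D := Curves (charts k x)) (fun f hf => hS.fin hf) hS.ne d hf
  have hE : ({V | V ∈ Curves (charts k x) ∧ vh x V m s ≠ 0} ∪
      {V | V ∈ Curves (charts k x) ∧ vh x V j r ≠ 0} ∪
      {V | V ∈ Curves (charts k x) ∧ vh x V (1 : ℕ) w ≠ 0}).Finite :=
    ((hfinv m s hs0).union (hfinv j r hr0)).union (hfinv (1 : ℕ) w hw0)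
  have hEC : ∀ V ∈ {V | V ∈ Curves (charts k x) ∧ vh x V m s ≠ 0} ∪
      {V | V ∈ Curves (charts k x) ∧ vh x V j r ≠ 0} ∪
      {V | V ∈ Curves (charts k x) ∧ vh x V (1 : ℕ) w ≠ 0}, V ∈ Curves (charts k x) := by
    rintro V ((h | h) | h) <;> exact h.1
  obtain ⟨w', M₀, hw₁', hM₀⟩ := step3 hS hs hs0 hO₁ hout hαβ.choose hE hEC
  refine ⟨M₀ + m + j, fun M hM g hg hg0 hgC hgC' hgZ => ?_⟩
  obtain ⟨hmM, hM₀'⟩ := hM₀ M (by omega)
  obtain ⟨r', hr', hα', hvE⟩ := hM₀' g hg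
  -- the two forms
  obtain ⟨l, hl⟩ : ∃ l, M = m + j + l := ⟨M - m - j, by omega⟩
  have hD : s * r * w ^ l ∈ hom k x M := by
    rw [hl]
    exact mul_mem_hom (mul_mem_hom hs hr) (pow_mem_hom' hw l)
  have hD0 : s * r * w ^ l ≠ 0 := mul_ne_zero (mul_ne_zero hs0 hr0) (pow_ne_zero _ hw0)
  have hsr : s * r' ∈ hom k x M := by
    have h1 := mul_mem_hom hs hr'
    rwa [Nat.add_sub_cancel' hmM] at h1
  have ht₀ : g + s * r' ∈ hom k x M := add_mem hg hsr
  -- the values on the curves in `s`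
  have hval : ∀ V ∈ Curves (charts k x), vh x V m s ≠ 0 →
      rh x V M (s * r') = 0 ∧ rh x V M (s * r * w ^ l) = 0 := by
    intro V hV hv
    have h1 := rh_eq_zero hS hV hs hv
    constructor
    · have h2 := rh_mul hS hV hs hr'
      rw [Nat.add_sub_cancel' hmM, h1, zero_mul] at h2
      exact h2
    · have h2 := rh_mul hS hV (mul_mem_hom hs hr) (pow_mem_hom' hw l)
      rw [rh_mul hS hV hs hr, h1, zero_mul, zero_mul] at h2
      rw [hl]
      exact h2
  have hgE : ∀ V ∈ Curves (charts k x), vh x V m s ≠ 0 → vh x V M g = 0 := by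
    intro V hV hv
    by_contra h
    have h1 := hgC' V hV h
    by_cases h2 : V ∈ C
    · exact h (hgC V h2)
    · exact hv (hsC' V h1 h2)
  have hvD : ∀ V ∈ Curves (charts k x), vh x V m s = 0 → vh x V j r = 0 →
      vh x V (1 : ℕ) w = 0 → vh x V M (s * r * w ^ l) = 0 := by
    intro V hV h1 h2 h3
    have h4 := (rh_ne_iff hS hV hs).2 ⟨hs0, h1⟩
    have h5 := (rh_ne_iff hS hV hr).2 ⟨hr0, h2⟩
    have h6 := (rh_ne_iff hS hV (mem_hom_one.2 hw)).2 ⟨hw0, h3⟩
    have h7 : ∀ q, rh x V q (w ^ q) ≠ 0 := by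
      intro q
      induction q with
      | zero =>
        refine (rh_ne_iff hS hV (pow_mem_hom' hw 0)).2 ⟨pow_ne_zero _ hw0, ?_⟩
        rw [pow_zero]
        unfold vh
        rw [ord_one V (SurfN.dvr hV)]
        simp
      | succ q ih =>
        rw [pow_succ, rh_mul hS hV (pow_mem_hom' hw q) (mem_hom_one.2 hw)]
        exact mul_ne_zero ih h6
    have h8 : rh x V M (s * r * w ^ l) ≠ 0 := by
      rw [hl, rh_mul hS hV (mul_mem_hom hs hr) (pow_mem_hom' hw l), rh_mul hS hV hs hr]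
      exact mul_ne_zero (mul_ne_zero h4 h5) (h7 l)
    exact ((rh_ne_iff hS hV hD).1 h8).2
  -- the base point
  have hwl : w ^ m * w ^ j * w ^ l = w ^ M := by rw [hl, pow_add, pow_add]
  have hDw : s * r * w ^ l / w ^ M = s / w ^ m * (r / w ^ j) := by
    have h1 := pow_ne_zero m hw0
    have h2 := pow_ne_zero j hw0
    have h3 := pow_ne_zero l hw0
    rw [← hwl]
    field_simp
  have hww : w / w' ∈ O₁ := hw₁'.lin (point_over hO₁) hw
  have hww' : w' / w ∈ O₁ := hw₁.lin (point_over hO₁) hw₁'.mem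
  have hu : (w / w') ^ M ∈ O₁ := pow_mem hww M
  have hu' : ((w / w') ^ M)⁻¹ ∈ O₁ := by
    rw [← inv_pow, inv_div]
    exact pow_mem hww' M
  have hu0 : (w / w') ^ M ≠ 0 := pow_ne_zero _ (div_ne_zero hw0 hw₁'.ne)
  have hβ' : Cg O₁ 2 (s * r * w ^ l / w' ^ M) ((w / w') ^ M * β) := by
    have h1 := hrO₁.mul_left hu
    have h2 : s * r * w ^ l / w' ^ M = (w / w') ^ M * (s / w ^ m * (r / w ^ j)) := by
      rw [← hDw, div_pow]
      have h3 := pow_ne_zero M hw0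
      field_simp
    rw [h2]
    exact h1
  have hpar : IsParam O₁ ((g + s * r') / w' ^ M) (s * r * w ^ l / w' ^ M) :=
    isParam_congr hnoe₁ hαβ hu hu' hu0 hα' hβ'
  have ht₀0 : g + s * r' ≠ 0 := by
    intro h
    apply (isParam_ne hnoe₁ hdim₁ hpar).1
    rw [h, zero_div]
  have hcop : Copr x (Curves (charts k x)) (g + s * r') M (s * r * w ^ l) M := by
    refine ⟨ht₀0, hD0, fun V hV => ⟨vh_nonneg (SurfN.dvr hV) (curve_over hV) hS.ne ht₀ ht₀0,
      vh_nonneg (SurfN.dvr hV) (curve_over hV) hS.ne hD hD0, ?_⟩⟩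
    by_cases h1 : vh x V m s = 0
    · by_cases h2 : vh x V j r = 0 ∧ vh x V (1 : ℕ) w = 0
      · exact Or.inr (hvD V hV h1 h2.1 h2.2)
      · left
        refine hvE V ?_ h1
        by_cases h3 : vh x V j r = 0
        · exact Or.inr ⟨hV, fun h4 => h2 ⟨h3, h4⟩⟩
        · exact Or.inl (Or.inr ⟨hV, h3⟩)
    · left
      have h2 : rh x V M (g + s * r') ≠ 0 := by
        rw [rh_add hS hV hg hsr, (hval V hV h1).1, add_zero]
        exact (rh_ne_iff hS hV hg).2 ⟨hg0, hgE V hV h1⟩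
      exact ((rh_ne_iff hS hV ht₀).1 h2).2
  have hbad := hP M _ _ ht₀ hD hcop ⟨O₁, hO₁, hO₁g, w', hw₁', hpar⟩
  -- the members which are singular at a point of `Z`
  have hZgen : ∀ O ∈ Z, ∀ hloc : IsLocalRing O, ∀ y : O, (y : F) = s * r * w ^ l / w ^ M →
      y ∉ (maximalIdeal O) ^ 2 := by
    intro O hO hloc y hy
    obtain ⟨V, hV, hOV, huni, hgood⟩ := hZs O hO
    have hVO := (hS.curvesAt (hZP O hO)).1 ⟨hCC V hV, hOV⟩
    have h1 := hsZ O hO w (hwZ O hO)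
    obtain ⟨h2, h3, h4⟩ := (hrZ O hO).unit
    refine not_sq_of_good hVO hgood (hS.dim (hZP O hO)) (y := y) ?_
    rw [hy, hDw]
    refine ⟨mul_mem h1.mem h3, ?_, ?_⟩
    · rintro V' hV' -
      rw [Set.mem_singleton_iff] at hV'
      rw [hV', map_mul]
      exact mul_lt_one_of_lt_of_le (h1.lt V hV hOV)
        ((ValuationSubring.valuation_le_one_iff V _).2 (hOV h3))
    · intro z hz hzV
      obtain ⟨c, hc, h5⟩ := h1.gen z hz fun V' hV' hOV' => by
        rw [huni V' hV' hOV']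
        exact hzV V rfl hOV
      refine ⟨c * (r / w ^ j)⁻¹, mul_mem hc h4, ?_⟩
      rw [h5]
      field_simp
  have hbadZ : (⋃ O ∈ Z, {τ : k | ∃ y : O, y ∈ (mx O) ^ 2 ∧
      (y : F) = (g + s * r' + algebraMap k F τ * (s * r * w ^ l)) / w ^ M}).Finite := by
    refine hZ.biUnion fun O hO => Set.Subsingleton.finite ?_
    rintro τ ⟨y, hy, hy1⟩ τ' ⟨y', hy', hy1'⟩
    by_contra hne
    haveI hloc := hS.local (hZP O hO)
    have hdif : τ - τ' ≠ 0 := sub_ne_zero.2 hne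
    have hc : algebraMap k F (τ - τ')⁻¹ ∈ O := point_over (hZP O hO) _
    refine hZgen O hO hloc (⟨_, hc⟩ * (y - y')) ?_ ?_
    · change algebraMap k F (τ - τ')⁻¹ * ((y : F) - (y' : F)) = _
      rw [hy1, hy1', ← sub_div, map_inv₀, map_sub]
      have h1 : algebraMap k F τ - algebraMap k F τ' ≠ 0 := by
        rw [← map_sub]
        exact (map_ne_zero _).2 hdif
      have h2 := pow_ne_zero M hw0
      field_simp
      ring
    · rw [← mx_eq]
      exact Ideal.mul_mem_left _ _ (sub_mem hy hy')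
  haveI : Infinite k := IsAlgClosed.instInfinite
  obtain ⟨τ, hτ⟩ := (hbad.union hbadZ).exists_notMem
  obtain ⟨V, hV⟩ : ∃ V, PrimeForm k x M (g + s * r' + algebraMap k F τ * (s * r * w ^ l)) V := by
    by_contra h
    exact hτ (Or.inl h)
  have hτZ : ∀ O ∈ Z, ∀ y : O, y ∈ (mx O) ^ 2 →
      (y : F) = (g + s * r' + algebraMap k F τ * (s * r * w ^ l)) / w ^ M → False := by
    intro O hO y hy h
    exact hτ (Or.inr (Set.mem_biUnion hO ⟨y, hy, h⟩))
  set t := g + s * r' + algebraMap k F τ * (s * r * w ^ l) with ht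
  have hcD : algebraMap k F τ * (s * r * w ^ l) ∈ hom k x M := by
    rw [← Algebra.smul_def]
    exact Submodule.smul_mem _ _ hD
  refine ⟨t, V, hV, fun V' hV' => ?_, fun O hO hOV hOC => ?_⟩
  · have hV'' := hCC V' hV'
    have h1 := hval V' hV'' (hsC V' hV').ne'
    change rh x V' M t = rh x V' M g
    have h2 : rh x V' M (algebraMap k F τ * (s * r * w ^ l)) = 0 := by
      have h3 := rh_mul hS hV'' (const_mem_hom (x := x) τ) hD
      rw [h1.2, mul_zero, zero_add] at h3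
      exact h3
    rw [ht, rh_add hS hV'' ht₀ hcD, rh_add hS hV'' hg hsr, h1.1, h2, add_zero, add_zero]
  · haveI hloc := hS.local hO
    -- `O` is in `Z`
    have hOZ : O ∈ Z := by
      obtain ⟨i, hwO⟩ := gen_of_point (k := k) hS.ne hO
      refine hgZ O hO hOC _ hwO fun hginv => ?_
      obtain ⟨V', hV', hOV'⟩ := hOC
      have hk := point_over (k := k) hO
      have h1 : (⟨t / x i ^ M, hwO.div_mem hk hV.mem⟩ : O) ∈ maximalIdeal O := by
        rw [mem_maximalIdeal, mem_nonunits_iff, isUnit_iff_inv]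
        rintro ⟨-, h2⟩
        have h3 := vh_of_inv_mem hS hV.curve hOV hwO hV.ne (hwO.div_mem hk hV.mem) h2
        rw [hV.one] at h3
        exact one_ne_zero h3
      have h2 : (⟨s / x i ^ m, hwO.div_mem hk hs⟩ : O) ∈ maximalIdeal O := by
        rw [mem_maximalIdeal, mem_nonunits_iff, isUnit_iff_inv]
        rintro ⟨-, h2⟩
        exact (hsC V' hV').ne' (vh_of_inv_mem hS (hCC V' hV') hOV' hwO hs0
          (hwO.div_mem hk hs) h2)
      have h3 : (⟨g / x i ^ M, hwO.div_mem hk hg⟩ : O) ∈ maximalIdeal O := by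
        have e1 : (⟨g / x i ^ M, hwO.div_mem hk hg⟩ : O) =
            ⟨t / x i ^ M, hwO.div_mem hk hV.mem⟩ - ⟨s / x i ^ m, hwO.div_mem hk hs⟩ *
              (⟨r' / x i ^ (M - m), hwO.div_mem hk hr'⟩ + ⟨algebraMap k F τ, hk τ⟩ *
                (⟨r / x i ^ j, hwO.div_mem hk hr⟩ *
                  ⟨w ^ l / x i ^ l, hwO.div_mem hk (pow_mem_hom' hw l)⟩)) := by
          apply Subtype.ext
          push_cast
          have e2 : x i ^ M = x i ^ m * x i ^ (M - m) := by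
            rw [← pow_add, Nat.add_sub_cancel' hmM]
          have e3 : x i ^ M = x i ^ m * (x i ^ j * x i ^ l) := by
            rw [hl, pow_add, pow_add, mul_assoc]
          have e4 : s / x i ^ m * (r' / x i ^ (M - m)) = s * r' / x i ^ M := by
            rw [div_mul_div_comm, ← e2]
          have e5 : s / x i ^ m * (r / x i ^ j * (w ^ l / x i ^ l)) =
              s * r * w ^ l / x i ^ M := by
            rw [div_mul_div_comm, div_mul_div_comm, ← e3, mul_assoc]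
          have e6 : s / x i ^ m * (r' / x i ^ (M - m) +
              algebraMap k F τ * (r / x i ^ j * (w ^ l / x i ^ l))) =
              s * r' / x i ^ M + algebraMap k F τ * (s * r * w ^ l / x i ^ M) := by
            rw [← e4, ← e5]
            ring
          rw [e6, ht]
          ring
        rw [e1]
        exact sub_mem h1 (Ideal.mul_mem_right _ _ h2)
      rw [mem_maximalIdeal, mem_nonunits_iff, isUnit_iff_inv] at h3
      exact h3 ⟨div_ne_zero hg0 (pow_ne_zero _ hwO.ne), hginv⟩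
    obtain ⟨V', hV', hOV', -, hgood⟩ := hZs O hOZ
    have hwO := hwZ O hOZ
    have hk := point_over (k := k) hO
    have h1 := hV.genAt hS hO hgood.1 hOV hwO
    have hVO := (hS.curvesAt hO).1 ⟨hV.curve, hOV⟩
    have hVO' := (hS.curvesAt hO).1 ⟨hCC V' hV', hOV'⟩
    refine good_of_not_sq hgood.1 hVO (exists_param hVO' hgood) (hS.dim hO)
      (y := ⟨t / w ^ M, hwO.div_mem hk hV.mem⟩) h1 ?_
    intro h2
    rw [← mx_eq] at h2
    exact hτZ O hOZ ⟨_, hwO.div_mem hk hV.mem⟩ h2 rfl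

end Pool.Agent.Lib.MP_b197b4_ntK
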