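import Pool.Agent.Lib.MP_b197b4_ntA.AApi

/-!
# MP_b197b4_nt, project K1, part A: leaf A7
-/

set_option autoImplicit false

namespace Pool.Agent.Lib.MP_b197b4_ntK

open IsLocalRing

variable {k : Type} {F : Type} [Field k] [Field F] [Algebra k F] {n : ℕ}
  {x : Fin (n + 1) → F}

/-- A7. Only finitely many points of a finite union of curves are not smooth. -/
theorem finite_not_smooth [IsAlgClosed k] (hS : SurfN k x) {C : Set (ValuationSubring F)}
    (hC : C.Finite) (hCC : ∀ V ∈ C, V ∈ Curves (charts k x)) :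
    {O : Subring F | O ∈ Points (charts k x) ∧ (∃ V ∈ C, (O : Set F) ⊆ V) ∧
      ¬ SmoothAt O C}.Finite := by
  have h1 : (⋃ V ∈ C, {O : Subring F | O ∈ Points (charts k x) ∧ (O : Set F) ⊆ V ∧
      ¬ GoodAt O V}).Finite := hC.biUnion fun V hV => hS.finite_bad (hCC V hV)
  have h2 : (⋃ V ∈ C, ⋃ V' ∈ C \ {V}, {O : Subring F | O ∈ Points (charts k x) ∧
      (O : Set F) ⊆ V ∧ (O : Set F) ⊆ V'}).Finite :=
    hC.biUnion fun V hV => (hC.subset Set.sdiff_subset).biUnion fun V' hV' =>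
      hS.finite_common (hCC V hV) (hCC V' hV'.1) fun h => hV'.2 h.symm
  refine (h1.union h2).subset ?_
  rintro O ⟨hO, ⟨V, hV, hOV⟩, hs⟩
  by_contra hc
  simp only [Set.mem_union, Set.mem_iUnion, Set.mem_ofPred_eq, not_or, not_exists] at hc
  refine hs ⟨V, hV, hOV, fun V' hV' hOV' => ?_, ?_⟩
  · by_contra hne
    exact hc.2 V hV V' ⟨hV', hne⟩ ⟨hO, hOV, hOV'⟩
  · by_contra hg
    exact hc.1 V hV ⟨hO, hOV, hg⟩

end Pool.Agent.Lib.MP_b197b4_ntK
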