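import Pool.Agent.Lib.MP_b197b4_ntA.ADefs
import Pool.Agent.Lib.MP_b197b4_ntK.Pts

/-!
# MP_b197b4_nt, project K1, part A: leaves A8, A9 (good points and squares of the maximal ideal)
-/

set_option autoImplicit false

namespace Pool.Agent.Lib.MP_b197b4_ntK

open IsLocalRing

variable {F : Type} [Field F] {O : Subring F} {V : ValuationSubring F}

/-- The maximal ideal of a ring of dimension two is not principal. -/
private theorem a89_dim [IsLocalRing O] [IsNoetherianRing O] (hd : ringKrullDim O = 2) {w : O}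
    (h : maximalIdeal O = Ideal.span {w}) : False := by
  have h1 : (maximalIdeal O).height ≤ 1 := by
    have : (maximalIdeal O).IsPrincipal := ⟨⟨w, h⟩⟩
    refine Ideal.height_le_one_of_isPrincipal_of_mem_minimalPrimes (maximalIdeal O) _ ?_
    rw [Ideal.minimalPrimes_eq_subsingleton_self]
    exact rfl
  have h2 := IsLocalRing.maximalIdeal_height_eq_ringKrullDim (R := O)
  rw [hd] at h2
  have h3 : ((maximalIdeal O).height : WithBot ℕ∞) ≤ ((1 : ℕ∞) : WithBot ℕ∞) :=
    WithBot.coe_le_coe.2 h1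
  rw [h2] at h3
  exact absurd h3 (by decide)

/-- A generator of the ideal of the curve is prime. -/
private theorem a89_prime (hO : Loc2 O) (hV : V ∈ CurvesAt O) {y : O}
    (hy : GenAt O {V} (y : F)) : Prime y ∧ V.valuation (y : F) < 1 := by
  obtain ⟨p, hp, hpV⟩ := CurvesAt.exists_prime hO hV
  have hyV : V.valuation (y : F) < 1 := hy.lt V rfl hV.2.1
  refine ⟨?_, hyV⟩
  have h1 : p ∣ y := (CurvesAt.dvd_iff hV hp hpV y).1 hyV
  obtain ⟨c, hc, h2⟩ := hy.gen p p.2 (by
    rintro W hW -
    rw [Set.mem_singleton_iff] at hW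
    subst hW
    exact hpV)
  have h3 : y ∣ p := ⟨⟨c, hc⟩, Subtype.ext (by push_cast; rw [h2]; ring)⟩
  exact (associated_of_dvd_dvd h1 h3).prime hp

/-- At a regular point of the curve its equation is part of a system of two parameters. -/
private theorem a89_param [IsLocalRing O] (hO : Loc2 O) (hV : V ∈ CurvesAt O) {p : O} (hp : Prime p)
    (hpV : V.valuation (p : F) < 1) (hd : IsDiscreteValuationRing (curveLoc O V)) :
    ∃ w : O, maximalIdeal O = Ideal.span {p, w} := by
  have hloc := IsLocalHom.of_surjective (toCurveLoc hV) (toCurveLoc_surjective hV)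
  obtain ⟨z, hz⟩ := IsDiscreteValuationRing.exists_irreducible (curveLoc O V)
  obtain ⟨w, rfl⟩ := toCurveLoc_surjective hV z
  refine ⟨w, ?_⟩
  have hmax : maximalIdeal (curveLoc O V) = Ideal.span {toCurveLoc hV w} := hz.maximalIdeal_eq
  apply le_antisymm
  · intro y hy
    have h1 : toCurveLoc hV y ∈ maximalIdeal (curveLoc O V) := by
      rw [mem_maximalIdeal, mem_nonunits_iff]
      intro h
      exact (mem_nonunits_iff.1 ((mem_maximalIdeal _).1 hy)) (isUnit_of_map_unit _ _ h)
    rw [hmax, Ideal.mem_span_singleton] at h1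
    obtain ⟨c, hc⟩ := h1
    obtain ⟨b, rfl⟩ := toCurveLoc_surjective hV c
    have h2 : toCurveLoc hV (y - w * b) = 0 := by rw [map_sub, map_mul, ← hc, sub_self]
    rw [toCurveLoc_eq_zero hO hV, ctr_eq hV hp hpV, Ideal.mem_span_singleton] at h2
    obtain ⟨a, ha⟩ := h2
    rw [Ideal.mem_span_pair]
    exact ⟨a, b, by rw [mul_comm a, ← ha]; ring⟩
  · rw [Ideal.span_le]
    rintro y (rfl | rfl)
    · exact (mem_maximalIdeal _).2 hp.not_isUnit
    · exact (mem_maximalIdeal _).2 fun h => hz.not_isUnit (h.map _)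

/-- If the equation of the curve is part of a system of two parameters the point is a regular
point of the curve. -/
private theorem a89_dvr [IsLocalRing O] (hO : Loc2 O) (hV : V ∈ CurvesAt O) {p w : O} (hp : Prime p)
    (hpV : V.valuation (p : F) < 1) (hw : maximalIdeal O = Ideal.span {p, w}) (hpw : ¬ p ∣ w) :
    IsDiscreteValuationRing (curveLoc O V) := by
  have hloc := IsLocalHom.of_surjective (toCurveLoc hV) (toCurveLoc_surjective hV)
  have hl : IsLocalRing (curveLoc O V) :=
    IsLocalRing.of_surjective' (toCurveLoc hV) (toCurveLoc_surjective hV)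
  have := hO.noeth
  have hn : IsNoetherianRing (curveLoc O V) :=
    isNoetherianRing_of_surjective _ _ (toCurveLoc hV) (toCurveLoc_surjective hV)
  have hw0 : toCurveLoc hV w ≠ 0 := by
    rw [ne_eq, toCurveLoc_eq_zero hO hV, ctr_eq hV hp hpV, Ideal.mem_span_singleton]
    exact hpw
  have hwm : w ∈ maximalIdeal O := by rw [hw]; exact Ideal.mem_span_pair.2 ⟨0, 1, by ring⟩
  have hnf : ¬ IsField (curveLoc O V) := by
    intro h
    obtain ⟨c, hc⟩ := h.mul_inv_cancel hw0
    exact (mem_nonunits_iff.1 ((mem_maximalIdeal _).1 hwm))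
      (isUnit_of_map_unit (toCurveLoc hV) w (IsUnit.of_mul_eq_one c hc))
  refine ((IsDiscreteValuationRing.TFAE (curveLoc O V) hnf).out 0 4).2 ?_
  refine ⟨⟨toCurveLoc hV w, ?_⟩⟩
  apply le_antisymm
  · intro z hz
    obtain ⟨y, rfl⟩ := toCurveLoc_surjective hV z
    have hy : y ∈ maximalIdeal O := by
      rw [mem_maximalIdeal, mem_nonunits_iff]
      intro h
      exact (mem_nonunits_iff.1 ((mem_maximalIdeal _).1 hz)) (h.map _)
    rw [hw, Ideal.mem_span_pair] at hy
    obtain ⟨a, b, rfl⟩ := hy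
    have h2 : toCurveLoc hV p = 0 := by
      rw [toCurveLoc_eq_zero hO hV, ctr_eq hV hp hpV]
      exact Ideal.mem_span_singleton_self p
    rw [map_add, map_mul, map_mul, h2, mul_zero, zero_add]
    exact Submodule.mem_span_singleton.2 ⟨_, rfl⟩
  · rw [Submodule.span_singleton_le_iff_mem, mem_maximalIdeal, mem_nonunits_iff]
    intro h
    exact (mem_nonunits_iff.1 ((mem_maximalIdeal _).1 hwm)) (isUnit_of_map_unit _ _ h)

/-- A8. At a good point of a curve a generator of the ideal of the curve is not in the square of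
the maximal ideal. -/
theorem not_sq_of_good [IsLocalRing O] (hV : V ∈ CurvesAt O) (hg : GoodAt O V)
    (hd : ringKrullDim O = 2) {y : O} (hy : GenAt O {V} (y : F)) :
    y ∉ (maximalIdeal O) ^ 2 := by
  intro h2
  have := hg.1.noeth
  obtain ⟨hyp, hyV⟩ := a89_prime hg.1 hV hy
  obtain ⟨w, hw⟩ := a89_param hg.1 hV hyp hyV hg.2
  have hwm : w ∈ maximalIdeal O := by rw [hw]; exact Ideal.mem_span_pair.2 ⟨0, 1, by ring⟩
  have h3 : maximalIdeal O ≤ Ideal.span {w} := by
    refine Submodule.le_of_le_smul_of_le_jacobson_bot (IsNoetherian.noetherian (maximalIdeal O))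
      (I := maximalIdeal O) ?_ ?_
    · rw [IsLocalRing.jacobson_eq_maximalIdeal ⊥ bot_ne_top]
    · have h4 : maximalIdeal O • maximalIdeal O = (maximalIdeal O) ^ 2 := by
        rw [sq, smul_eq_mul]
      rw [h4]
      intro z hz
      rw [hw, Ideal.mem_span_pair] at hz
      obtain ⟨a, b, rfl⟩ := hz
      refine add_mem (Ideal.mem_sup_right (Ideal.mul_mem_left _ a h2))
        (Ideal.mem_sup_left (Ideal.mul_mem_left _ b (Ideal.mem_span_singleton_self w)))
  exact a89_dim hd (le_antisymm h3 ((Ideal.span_singleton_le_iff_mem _).2 hwm))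

/-- A9. Conversely. -/
theorem good_of_not_sq [IsLocalRing O] (hO : Loc2 O) (hV : V ∈ CurvesAt O)
    (hp : ∃ α β : F, IsParam O α β) (hd : ringKrullDim O = 2) {y : O}
    (hy : GenAt O {V} (y : F)) (h2 : y ∉ (maximalIdeal O) ^ 2) : GoodAt O V := by
  have := hO.noeth
  obtain ⟨hyp, hyV⟩ := a89_prime hO hV hy
  obtain ⟨α, β, hα, hβ, h⟩ := hp
  set a : O := ⟨α, hα⟩ with ha
  set b : O := ⟨β, hβ⟩ with hb
  have hm : maximalIdeal O = Ideal.span {a, b} := by
    ext z
    rw [h z, mem_maximalIdeal, mem_nonunits_iff]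
  have ham : a ∈ maximalIdeal O := by rw [hm]; exact Ideal.mem_span_pair.2 ⟨1, 0, by ring⟩
  have hbm : b ∈ maximalIdeal O := by rw [hm]; exact Ideal.mem_span_pair.2 ⟨0, 1, by ring⟩
  have hym : y ∈ maximalIdeal O := (mem_maximalIdeal _).2 hyp.not_isUnit
  -- it is enough to find the second parameter
  have key : ∀ w : O, w ∈ maximalIdeal O → maximalIdeal O ≤ Ideal.span {y, w} → GoodAt O V := by
    intro w hwm hle
    have hmw : maximalIdeal O = Ideal.span {y, w} := by
      refine le_antisymm hle ?_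
      rw [Ideal.span_le]
      rintro z (rfl | rfl)
      · exact hym
      · exact hwm
    refine ⟨hO, a89_dvr hO hV hyp hyV hmw ?_⟩
    intro hdvd
    refine a89_dim hd (w := y) (le_antisymm ?_ ((Ideal.span_singleton_le_iff_mem _).2 hym))
    refine hle.trans ?_
    rw [Ideal.span_le]
    rintro z (rfl | rfl)
    · exact Ideal.mem_span_singleton_self _
    · exact Ideal.mem_span_singleton.2 hdvd
  have hy1 := hym
  rw [hm, Ideal.mem_span_pair] at hy1
  obtain ⟨c, d, hcd⟩ := hy1
  by_cases hc : IsUnit c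
  · refine key b hbm ?_
    obtain ⟨e, he⟩ := hc.exists_left_inv
    rw [hm, Ideal.span_le]
    rintro z (rfl | rfl)
    · refine Ideal.mem_span_pair.2 ⟨e, -(e * d), ?_⟩
      rw [← hcd]
      linear_combination a * he
    · exact Ideal.mem_span_pair.2 ⟨0, 1, by ring⟩
  · by_cases hd' : IsUnit d
    · refine key a ham ?_
      obtain ⟨e, he⟩ := hd'.exists_left_inv
      rw [hm, Ideal.span_le]
      rintro z (rfl | rfl)
      · exact Ideal.mem_span_pair.2 ⟨0, 1, by ring⟩
      · refine Ideal.mem_span_pair.2 ⟨e, -(e * c), ?_⟩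
        rw [← hcd]
        linear_combination b * he
    · exfalso
      apply h2
      rw [← hcd, sq]
      exact add_mem (Ideal.mul_mem_mul ((mem_maximalIdeal _).2 hc) ham)
        (Ideal.mul_mem_mul ((mem_maximalIdeal _).2 hd') hbm)

end Pool.Agent.Lib.MP_b197b4_ntK
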