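import Pool.Agent.Lib.MP_b197b4_ntA.ADefs
import Pool.Agent.Lib.MP_b197b4_ntK.CurveN
import Pool.Agent.Lib.MP_b197b4_ntK.SingC

/-!
# MP_b197b4_nt, project K1, part A: infinitely many points on a curve; points outside of curves
-/

set_option autoImplicit false
set_option linter.style.haveILetI false

namespace Pool.Agent.Lib.MP_b197b4_ntK

open IsLocalRing

namespace AInf

section Chart

variable {k : Type} {F : Type} [Field k] [Field F] [Algebra k F] {A : Subalgebra k F}

/-- Infinitely many closed points lie on a curve. -/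
theorem infinite_max (hA : ChartN A) {P : Ideal A} (hP : P.IsPrime) (hh : P.height = 1) :
    {m : Ideal A | m.IsMaximal ∧ P ≤ m}.Infinite := by
  intro hfin
  haveI : Algebra.FiniteType k A := A.fg_iff_finiteType.1 hA.fg
  haveI : IsJacobsonRing A := isJacobsonRing_of_finiteType (A := k)
  have hj : P.jacobson = P := IsJacobsonRing.out inferInstance hP.isRadical
  have h1 : hfin.toFinset.inf id ≤ P := by
    have h2 : hfin.toFinset.inf id ≤ P.jacobson := by
      refine le_sInf ?_
      rintro m ⟨hPm, hm⟩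
      exact Finset.inf_le (f := id) (hfin.mem_toFinset.2 ⟨hm, hPm⟩)
    rwa [hj] at h2
  obtain ⟨m, hm, hmP⟩ := (Ideal.IsPrime.inf_le' hP).1 h1
  obtain ⟨hmax, hPm⟩ := hfin.mem_toFinset.1 hm
  have h3 : m = P := le_antisymm hmP hPm
  have h4 := hA.height m hmax
  rw [h3, hh] at h4
  exact absurd h4 (by decide)

/-- The local ring at a maximal ideal over the prime ideal of the curve is contained in the
curve. -/
theorem locSub_le {V : ValuationSubring F} (hV : ∀ a ∈ A, a ∈ V) {P : Ideal A}
    (hP : PrimeOf A V P) {m : Ideal A} [hm : m.IsPrime] (h : P ≤ m) :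
    (locSub A m : Set F) ⊆ V := by
  rintro y ⟨a, s, hs, rfl⟩
  have h1 : V.valuation (s : F) = 1 := (hP.val_one hV s).1 fun h' => hs (h h')
  change (a : F) / (s : F) ∈ V
  rw [div_eq_mul_inv]
  refine mul_mem (hV a a.2) ?_
  rw [← ValuationSubring.valuation_le_one_iff, map_inv₀, h1, inv_one]

theorem locSub_injective {m m' : Ideal A} [hm : m.IsPrime] [hm' : m'.IsPrime]
    (h : locSub A m = locSub A m') : m = m' := by
  have key : ∀ (p q : Ideal A) (hp : p.IsPrime) (hq : q.IsPrime),
      locSub A p = locSub A q → q ≤ p := by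
    intro p q hp hq hpq a ha
    by_contra hn
    have h1 : (a : F)⁻¹ ∈ locSub A p := ⟨1, a, hn, by simp⟩
    rw [hpq] at h1
    obtain ⟨c, s, hs, h2⟩ := h1
    have ha0 : (a : F) ≠ 0 := coe_ne_zero_of_notMem hn
    have hs0 : (s : F) ≠ 0 := coe_ne_zero_of_notMem hs
    have h3 : (s : F) = a * c := by
      field_simp at h2
      rw [h2]
    have h4 : s = a * c := Subtype.ext (by push_cast; exact h3)
    exact hs (h4 ▸ q.mul_mem_right c ha)
  exact le_antisymm (key m' m hm' hm h.symm) (key m m' hm hm' h)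

/-- There is a curve of the chart outside of a finite set of curves. -/
theorem exists_curve_notMem (hA : ChartN A) {C : Set (ValuationSubring F)} (hC : C.Finite) :
    ∃ V, IsCurve A V ∧ V ∉ C := by
  classical
  haveI := hA.noeth
  haveI := hA.frac
  obtain ⟨m, hm⟩ := Ideal.exists_maximal A
  have hm2 := hA.height m hm
  have hmp := hm.isPrime
  -- the primes of the curves in `C`
  have hex : ∀ V : ValuationSubring F, (∀ a ∈ A, a ∈ V) → ∃ P : Ideal A, P.IsPrime ∧ PrimeOf A V P :=
    fun V hV => exists_primeOf hV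
  let φ : ValuationSubring F → Ideal A := fun V =>
    if h : ∀ a ∈ A, a ∈ V then (hex V h).choose else ⊥
  have hφ : ∀ V, (∀ a ∈ A, a ∈ V) → (φ V).IsPrime ∧ PrimeOf A V (φ V) := by
    intro V hV
    simp only [φ, dif_pos hV]
    exact (hex V hV).choose_spec
  have hφp : ∀ V, (φ V).IsPrime := by
    intro V
    by_cases hV : ∀ a ∈ A, a ∈ V
    · exact (hφ V hV).1
    · simp only [φ, dif_neg hV]
      exact Ideal.isPrime_bot
  -- those of height at most one, and zero
  let S : Finset (ValuationSubring F) := hC.toFinset.filter fun V => IsCurve A V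
  have hnot : ¬ ((m : Set A) ⊆ ⋃ V ∈ (↑S : Set (ValuationSubring F)), (φ V : Set A)) ∧
      ¬ ((m : Set A) ⊆ ({0} : Set A)) := by
    constructor
    · intro hsub
      obtain ⟨V, hVS, hV⟩ := (Ideal.subset_union_prime (s := S) (f := φ) ⊤ ⊤
        (fun V _ _ _ => hφp V)).1 (by simpa using hsub)
      have hVC : IsCurve A V := (Finset.mem_filter.1 hVS).2
      have h1 : (φ V).height = 1 := hVC.height (hφ V hVC.2.1).2
      have h2 := Ideal.height_mono hV
      rw [hm2, h1] at h2
      exact absurd h2 (by decide)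
    · intro hsub
      have : m = ⊥ := by
        rw [eq_bot_iff]
        intro a ha
        exact hsub ha
      rw [this, Ideal.height_bot] at hm2
      exact absurd hm2 (by decide)
  -- an element of `m` outside of all of them
  obtain ⟨f, hfm, hf0, hfS⟩ : ∃ f ∈ m, f ≠ 0 ∧ ∀ V ∈ S, f ∉ φ V := by
    rcases S.eq_empty_or_nonempty with hS | hS
    · obtain ⟨f, hf, hf0⟩ := Set.not_subset.1 hnot.2
      exact ⟨f, hf, hf0, by simp [hS]⟩
    · obtain ⟨f, hf, hfn⟩ := Set.not_subset.1 hnot.1
      simp only [Set.mem_iUnion, not_exists] at hfn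
      obtain ⟨V, hV⟩ := hS
      refine ⟨f, hf, ?_, fun V' hV' => hfn V' (Finset.mem_coe.2 hV')⟩
      rintro rfl
      exact hfn V (Finset.mem_coe.2 hV) (φ V).zero_mem
  -- a minimal prime over it
  obtain ⟨P, hP, hPm⟩ := Ideal.exists_minimalPrimes_le
    ((Ideal.span_singleton_le_iff_mem m).2 hfm)
  have hPp : P.IsPrime := hP.1.1
  have hPh : P.height = 1 := by
    apply le_antisymm
    · exact Ideal.height_le_one_of_isPrincipal_of_mem_minimalPrimes (Ideal.span {f}) P hP
    · have h1 : (⊥ : Ideal A) < P := by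
        rw [bot_lt_iff_ne_bot]
        rintro rfl
        exact hf0 ((Ideal.mem_bot).1 ((Ideal.span_singleton_le_iff_mem _).1 hP.1.2))
      haveI : (⊥ : Ideal A).IsPrime := Ideal.isPrime_bot
      have h2 := Ideal.height_add_one_le_of_lt_of_isPrime h1
      rwa [Ideal.height_bot, zero_add] at h2
  obtain ⟨V, hV, hPV⟩ := hA.exists_curve P hPh
  refine ⟨V, hV, fun hVC => ?_⟩
  have h1 : V ∈ S := Finset.mem_filter.2 ⟨hC.mem_toFinset.2 hVC, hV⟩
  have h2 : φ V = P := PrimeOf.unique (hφ V hV.2.1).2 hPV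
  apply hfS V h1
  rw [h2]
  exact (Ideal.span_singleton_le_iff_mem _).1 hP.1.2

end Chart

section Surface

variable {k : Type} {F : Type} [Field k] [Field F] [Algebra k F] {n : ℕ}
  {x : Fin (n + 1) → F}

/-- A curve has infinitely many points. -/
theorem infinite_points (hS : SurfN k x) {V : ValuationSubring F}
    (hV : V ∈ Curves (charts k x)) :
    {O : Subring F | O ∈ Points (charts k x) ∧ (O : Set F) ⊆ V}.Infinite := by
  classical
  obtain ⟨A, ⟨i, rfl⟩, hA⟩ := hV
  obtain ⟨P, hPp, hP⟩ := exists_primeOf hA.2.1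
  have hinf := infinite_max (hS.chart i) hPp (hA.height hP)
  let φ : Ideal (Algebra.adjoin k (Set.range fun j => x j / x i)) → Subring F := fun m =>
    if h : m.IsPrime then @locSub k F _ _ _ _ m h else ⊥
  have hφ : ∀ (m : Ideal (Algebra.adjoin k (Set.range fun j => x j / x i))) (h : m.IsPrime),
      φ m = @locSub k F _ _ _ _ m h := fun m h => dif_pos h
  refine Set.infinite_of_injOn_mapsTo (f := φ) ?_ ?_ hinf
  · rintro m ⟨hm, _⟩ m' ⟨hm', _⟩ h
    haveI := hm.isPrime
    haveI := hm'.isPrime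
    rw [hφ m hm.isPrime, hφ m' hm'.isPrime] at h
    exact locSub_injective h
  · rintro m ⟨hm, hPm⟩
    haveI := hm.isPrime
    rw [Set.mem_ofPred_eq, hφ m hm.isPrime]
    exact ⟨⟨_, ⟨i, rfl⟩, m, hm, fun y => Iff.rfl⟩, locSub_le hA.2.1 hP hPm⟩

/-- The curves through a point. -/
theorem curvesAt_iff (hS : SurfN k x) {O : Subring F} (hO : O ∈ Points (charts k x))
    {V : ValuationSubring F} :
    (V ∈ Curves (charts k x) ∧ (O : Set F) ⊆ V) ↔ V ∈ CurvesAt O :=
  curves_point (sep_charts hS.ne) hO V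

theorem isLocalRing_point {O : Subring F} (hO : O ∈ Points (charts k x)) : IsLocalRing O := by
  obtain ⟨A, _, m, hm, hAO⟩ := hO
  haveI := hm.isPrime
  letI := (hAO.incl hm.isPrime.ne_top).toAlgebra
  haveI := hAO.isLocalization
  exact IsLocalization.AtPrime.isLocalRing O m

/-- The maximal ideal at a good point of a curve is generated by two elements. -/
theorem exists_isParam {O : Subring F} [IsLocalRing O] {V : ValuationSubring F}
    (hV : V ∈ CurvesAt O) (hg : GoodAt O V) : ∃ α β : F, IsParam O α β := by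
  obtain ⟨p, hp, hpV⟩ := CurvesAt.exists_prime hg.1 hV
  obtain ⟨w, hw, _⟩ := exists_param_of_dvr hg.1 hV hp hpV hg.2
  refine ⟨p, w, p.2, w.2, fun y => ?_⟩
  change y ∈ Ideal.span {p, w} ↔ _
  rw [← hw, mem_maximalIdeal, mem_nonunits_iff]

/-- There is a good point outside of finitely many curves. -/
theorem exists_outside (hS : SurfN k x)
    (hbad : ∀ V ∈ Curves (charts k x),
      {O : Subring F | O ∈ Points (charts k x) ∧ (O : Set F) ⊆ V ∧ ¬ GoodAt O V}.Finite)
    (hcom : ∀ V ∈ Curves (charts k x), ∀ V' ∈ Curves (charts k x), V ≠ V' →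
      {O : Subring F | O ∈ Points (charts k x) ∧ (O : Set F) ⊆ V ∧ (O : Set F) ⊆ V'}.Finite)
    {C : Set (ValuationSubring F)} (hC : C.Finite) (hCC : ∀ V ∈ C, V ∈ Curves (charts k x)) :
    ∃ O ∈ Points (charts k x), Loc2 O ∧ (∃ α β : F, IsParam O α β) ∧
      ∀ V ∈ C, ¬ (O : Set F) ⊆ V := by
  obtain ⟨V, hV, hVC⟩ := exists_curve_notMem (hS.chart 0) hC
  have hVM : V ∈ Curves (charts k x) := ⟨_, ⟨0, rfl⟩, hV⟩
  have h1 := infinite_points hS hVM
  have h2 : ({O : Subring F | O ∈ Points (charts k x) ∧ (O : Set F) ⊆ V ∧ ¬ GoodAt O V} ∪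
      ⋃ V' ∈ C, {O : Subring F | O ∈ Points (charts k x) ∧ (O : Set F) ⊆ V ∧
        (O : Set F) ⊆ V'}).Finite :=
    (hbad V hVM).union (hC.biUnion fun V' hV' => hcom V hVM V' (hCC V' hV')
      (fun h => hVC (h ▸ hV')))
  obtain ⟨O, ⟨hO, hOV⟩, hOn⟩ := (h1.sdiff h2).nonempty
  simp only [Set.mem_union, Set.mem_ofPred_eq, Set.mem_iUnion, not_or, not_exists, not_and,
    not_not] at hOn
  have hg : GoodAt O V := hOn.1 hO hOV
  haveI := isLocalRing_point hO
  refine ⟨O, hO, hg.1, exists_isParam ((curvesAt_iff hS hO).1 ⟨hVM, hOV⟩) hg, ?_⟩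
  intro V' hV' hOV'
  exact hOn.2 V' hV' hO hOV hOV'

end Surface

end AInf

end Pool.Agent.Lib.MP_b197b4_ntK
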