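import Pool.Agent.Lib.MP_b197b4_ntA.ADefs
import Pool.Agent.Lib.MP_b197b4_ntG.Interp

/-!
# MP_b197b4_nt, project K1, part A: interpolation over normal surfaces
-/

set_option autoImplicit false

namespace Pool.Agent.Lib.MP_b197b4_ntK

open IsLocalRing

variable {k : Type} {F : Type} [Field k] [Field F] [Algebra k F] {n : ℕ}
  {x : Fin (n + 1) → F}

theorem Interp.mx_eq (O : Subring F) [IsLocalRing O] : mx O = maximalIdeal O := by
  apply le_antisymm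
  · rw [mx, Ideal.span_le]
    intro a ha
    exact (mem_maximalIdeal a).2 ha
  · intro a ha
    exact Ideal.subset_span ((mem_maximalIdeal a).1 ha)

/-- G3: interpolation. -/
theorem SurfN.interp (hS : SurfN k x) {C : Set (ValuationSubring F)}
    (hC : C.Finite) (hCC : ∀ V ∈ C, V ∈ Curves (charts k x)) {T : Set (Subring F)} (hT : T.Finite)
    (hTP : ∀ O ∈ T, O ∈ Points (charts k x)) {w : F} (hw : w ∈ Submodule.span k (Set.range x))
    (hw0 : w ≠ 0) (hwT : ∀ O ∈ T, Gen k x O w) (N : ℕ) :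
    ∃ M₀, ∀ M ≥ M₀, ∀ c : Subring F → F,
      (∀ O ∈ T, c O ∈ O ∧ ∀ V ∈ C, (O : Set F) ⊆ V → V.valuation (c O) < 1) →
      ∃ q ∈ hom k x M, (∀ V ∈ C, q ≠ 0 → 0 < vh x V M q) ∧
        ∀ O ∈ T, ∃ z : O, z ∈ (mx O) ^ N ∧ (z : F) = q / w ^ M - c O := by
  have hCV : ∀ V ∈ C, IsDiscreteValuationRing V ∧ Over k V := by
    intro V hV
    refine ⟨?_, curve_over (hCC V hV)⟩
    obtain ⟨A, _, hA⟩ := hCC V hV
    exact hA.1
  obtain ⟨M₀, h⟩ := interp_curves hS.ne hw hw0 hT (fun O hO => ⟨hTP O hO, hwT O hO⟩) hC hCV N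
  refine ⟨M₀, fun M hM c hc => ?_⟩
  obtain ⟨q, hq, hqC, hqT⟩ := h M hM c hc
  refine ⟨q, hq, hqC, fun O hO => ?_⟩
  obtain ⟨m, hm, hloc⟩ := Interp.exists_loc hS.ne (hTP O hO) (hwT O hO)
  have hlr := Interp.isLocalRing hloc hm.isPrime
  obtain ⟨y, hy, e⟩ := hqT O hO hlr
  exact ⟨y, by rw [Interp.mx_eq]; exact hy, e.symm⟩

end Pool.Agent.Lib.MP_b197b4_ntK
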