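import Pool.Agent.Lib.MP_b197b4_ntA.ADefs
import Pool.Agent.Lib.MP_b197b4_ntK.SingN

/-!
# MP_b197b4_nt, project K1, part A: only finitely many points of a curve are not good
-/

set_option autoImplicit false

namespace Pool.Agent.Lib.MP_b197b4_ntK

open IsLocalRing

variable {k : Type} {F : Type} [Field k] [Field F] [Algebra k F] {n : ℕ}
  {x : Fin (n + 1) → F}

/-- Regular points are factorial points. -/
theorem IsLoc.loc2_of_reg {A : Subalgebra k F} {m : Ideal A} {O : Subring F} (hO : IsLoc A m O)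
    (hfrac : IsFractionRing A F) (hm : m ≠ ⊤) (hr : IsRegularLocalRing O)
    (hd : ringKrullDim O = 2) : Loc2 O := by
  refine loc2_of_regular hr hd fun y => ?_
  obtain ⟨a, b, hb, rfl⟩ := IsFractionRing.div_surjective (A := A) y
  refine ⟨⟨a, hO.coe_mem hm a⟩, ⟨b, hO.coe_mem hm b⟩, ?_, rfl⟩
  intro h
  exact (nonZeroDivisors.ne_zero hb) (Subtype.ext h)

/-- Only finitely many points of a curve are not good (`k` perfect). -/
theorem SurfN.finite_bad_perfect [PerfectField k] (hS : SurfN k x) {V : ValuationSubring F}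
    (hV : V ∈ Curves (charts k x)) :
    {O : Subring F | O ∈ Points (charts k x) ∧ (O : Set F) ⊆ V ∧ ¬ GoodAt O V}.Finite := by
  refine (good_finite_of_height hS.ne (fun i => (hS.chart i).height) hV).subset ?_
  rintro O ⟨hO, hOV, hnot⟩
  refine ⟨hO, hOV, fun h => hnot ⟨?_, h.2⟩⟩
  obtain ⟨_, ⟨i, rfl⟩, m, hm, hOm⟩ := hO
  have hft := (Subalgebra.fg_iff_finiteType _).1 (hS.chart i).fg
  have hn := Algebra.FiniteType.isNoetherianRing k
    (Algebra.adjoin k (Set.range fun j => x j / x i))
  exact hOm.loc2_of_reg (hS.chart i).frac hm.ne_top h.1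
    (hOm.local_dim hn (hS.chart i).height hm).2.2

/-- Only finitely many points of a curve are not good (`k` perfect). -/
theorem SurfN.finite_bad [IsAlgClosed k] (hS : SurfN k x) {V : ValuationSubring F}
    (hV : V ∈ Curves (charts k x)) :
    {O : Subring F | O ∈ Points (charts k x) ∧ (O : Set F) ⊆ V ∧ ¬ GoodAt O V}.Finite :=
  hS.finite_bad_perfect hV

end Pool.Agent.Lib.MP_b197b4_ntK
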