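import Pool.Agent.Lib.MP_b197b4_ntA.ADefs
import Pool.Agent.Lib.MP_b197b4_ntA.AInf
import Pool.Agent.Lib.MP_b197b4_ntA.ApiInterp
import Pool.Agent.Lib.MP_b197b4_ntA.BadF
import Pool.Agent.Lib.MP_b197b4_ntK.PtsN
import Pool.Agent.Lib.MP_b197b4_ntK.FinN
import Pool.Agent.Lib.MP_b197b4_ntK.Avoid
import Pool.Agent.Lib.MP_b197b4_ntG.GenN

/-!
# MP_b197b4_nt, project K1, part A: the general facts which are used
-/

set_option autoImplicit false

namespace Pool.Agent.Lib.MP_b197b4_ntK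

open IsLocalRing

variable {k : Type} {F : Type} [Field k] [Field F] [Algebra k F] {n : ℕ}
  {x : Fin (n + 1) → F}

theorem SurfN.dvr {V : ValuationSubring F} (hV : V ∈ Curves (charts k x)) :
    IsDiscreteValuationRing V := by
  obtain ⟨A, _, hA⟩ := hV
  exact hA.1

theorem SurfN.fin (hS : SurfN k x) {f : F} (hf : f ≠ 0) :
    {V | V ∈ Curves (charts k x) ∧ ord V f ≠ 0}.Finite :=
  hS.curves_finite f hf

theorem SurfN.chartOf (hS : SurfN k x) {w : F} (hw : w ∈ Submodule.span k (Set.range x))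
    (hw0 : w ≠ 0) : ChartN (chartOf k x w) :=
  chartN_chartOf hS hw hw0

theorem SurfN.curve_iff (hS : SurfN k x) {w : F} (hw : w ∈ Submodule.span k (Set.range x))
    (hw0 : w ≠ 0) {V : ValuationSubring F} :
    IsCurve (MP_b197b4_ntK.chartOf k x w) V ↔
      V ∈ Curves (charts k x) ∧ Gen k x V.toSubring w :=
  MP_b197b4_ntK.curve_iff hS.ne hw hw0

theorem SurfN.exists_isLoc (hS : SurfN k x) {O : Subring F} (hO : O ∈ Points (charts k x)) {w : F}
    (h : Gen k x O w) : ∃ m : Ideal (MP_b197b4_ntK.chartOf k x w), m.IsMaximal ∧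
      IsLoc (MP_b197b4_ntK.chartOf k x w) m O :=
  MP_b197b4_ntK.exists_isLoc hS.ne hO h

theorem SurfN.exists_point (hS : SurfN k x) {w : F} (hw : w ∈ Submodule.span k (Set.range x))
    (hw0 : w ≠ 0) {m : Ideal (MP_b197b4_ntK.chartOf k x w)} (hm : m.IsMaximal) :
    ∃ O ∈ Points (charts k x), Gen k x O w ∧ IsLoc (MP_b197b4_ntK.chartOf k x w) m O :=
  MP_b197b4_ntK.exists_point hS.ne hw hw0 hm

/-- A curve has infinitely many good points. -/
theorem SurfN.infinite_points [IsAlgClosed k] (hS : SurfN k x) {V : ValuationSubring F}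
    (hV : V ∈ Curves (charts k x)) :
    {O : Subring F | O ∈ Points (charts k x) ∧ (O : Set F) ⊆ V}.Infinite :=
  AInf.infinite_points hS hV

/-- There is a good point outside of finitely many curves. -/
theorem SurfN.exists_outside [IsAlgClosed k] (hS : SurfN k x) {C : Set (ValuationSubring F)}
    (hC : C.Finite) (hCC : ∀ V ∈ C, V ∈ Curves (charts k x)) :
    ∃ O ∈ Points (charts k x), Loc2 O ∧ (∃ α β : F, IsParam O α β) ∧
      ∀ V ∈ C, ¬ (O : Set F) ⊆ V :=
  AInf.exists_outside hS (fun _ hV => hS.finite_bad hV)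
    (fun _ hV _ hV' hne => hS.finite_common hV hV' hne) hC hCC

/-- G2. -/
theorem SurfN.gen [Infinite k] (hS : SurfN k x) {C : Set (ValuationSubring F)} (hC : C.Finite)
    (hCC : ∀ V ∈ C, V ∈ Curves (charts k x)) {T : Set (Subring F)} (hT : T.Finite)
    (hTP : ∀ O ∈ T, O ∈ Points (charts k x)) :
    ∃ w, w ∈ Submodule.span k (Set.range x) ∧ w ≠ 0 ∧ (∀ V ∈ C, Gen k x V.toSubring w) ∧
      ∀ O ∈ T, Gen k x O w := by
  obtain ⟨w, h1, h2, h3, h4, -⟩ := avoid (k := k) hS.ne hC hCC hT hTP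
    (U := ∅) Set.finite_empty (fun u hu => absurd hu (Set.notMem_empty u))
  exact ⟨w, h1, h2, fun V hV => ⟨h1, h2, h3 V hV⟩, fun O hO => ⟨h1, h2, h4 O hO⟩⟩

end Pool.Agent.Lib.MP_b197b4_ntK
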