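import Pool.Agent.Lib.MP_b197b4_ntK.DefsN
import Pool.Agent.Lib.MP_b197b4_ntK.Sym
import Pool.Agent.Lib.MP_b197b4_ntK.FormsPts
import Pool.Agent.Lib.MP_b197b4_ntG.Gen

/-!
# MP_b197b4_nt, project K1, parts A and H: definitions
-/

set_option autoImplicit false

namespace Pool.Agent.Lib.MP_b197b4_ntK

open IsLocalRing

variable {k : Type} {F : Type} [Field k] [Field F] [Algebra k F] {n : ℕ}

/-- `O` is a good point of the curve `V`: the surface and the curve are regular at `O`. -/
def GoodAt (O : Subring F) (V : ValuationSubring F) : Prop :=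
  Loc2 O ∧ IsDiscreteValuationRing (curveLoc O V)

/-- `α` and `β` generate the maximal ideal of `O`. -/
def IsParam (O : Subring F) (α β : F) : Prop :=
  ∃ (hα : α ∈ O) (hβ : β ∈ O),
    ∀ y : O, y ∈ Ideal.span {(⟨α, hα⟩ : O), ⟨β, hβ⟩} ↔ ¬ IsUnit y

/-- The form `t` of degree `a` is a prime form, `V` its curve. -/
structure PrimeForm (k : Type) {F : Type} [Field k] [Field F] [Algebra k F] {n : ℕ}
    (x : Fin (n + 1) → F) (a : ℕ) (t : F) (V : ValuationSubring F) : Prop where
  mem : t ∈ hom k x a
  ne : t ≠ 0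
  curve : V ∈ Curves (charts k x)
  one : vh x V a t = 1
  other : ∀ V' ∈ Curves (charts k x), V' ≠ V → vh x V' a t = 0

/-- The zeros of the form `s` of degree `b` on the curve `V` are good points of the curve. -/
def RegZeros (k : Type) {F : Type} [Field k] [Field F] [Algebra k F] {n : ℕ}
    (x : Fin (n + 1) → F) (V : ValuationSubring F) (b : ℕ) (s : F) : Prop :=
  ∀ O ∈ Points (charts k x), (O : Set F) ⊆ V → ∀ w, Gen k x O w → (s / w ^ b)⁻¹ ∉ O → GoodAt O V

/-- Pencils with one transversal base point. -/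
def Pencil (k : Type) {F : Type} [Field k] [Field F] [Algebra k F] {n : ℕ}
    (x : Fin (n + 1) → F) : Prop :=
  ∀ (M : ℕ) (f g : F), f ∈ hom k x M → g ∈ hom k x M → Copr x (Curves (charts k x)) f M g M →
    (∃ O ∈ Points (charts k x), Loc2 O ∧ ∃ w, Gen k x O w ∧ IsParam O (f / w ^ M) (g / w ^ M)) →
    {τ : k | ¬ ∃ V, PrimeForm k x M (f + algebraMap k F τ * g) V}.Finite

/-- The form `l` (with the normalisation `e`) is zero on the curves of the prime forms of degree
`M`, as far as only good points are concerned. -/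
def Kill (k : Type) {F : Type} [Field k] [Field F] [Algebra k F] {n : ℕ}
    (x : Fin (n + 1) → F) (l : ∀ V : ValuationSubring F, ResidueField V → ℚ)
    (e : ValuationSubring F → ℚ) (M : ℕ) : Prop :=
  ∀ t V, PrimeForm k x M t V → ∀ (b : ℕ) (s : F), s ∈ hom k x b → s ≠ 0 → vh x V b s = 0 →
    RegZeros k x V b s → Lam x l e V s b = 0

/-- `y` generates at `O` the ideal of the union of the curves in `C`. -/
structure GenAt (O : Subring F) (C : Set (ValuationSubring F)) (y : F) : Prop where
  mem : y ∈ O
  lt : ∀ V ∈ C, (O : Set F) ⊆ V → V.valuation y < 1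
  gen : ∀ z ∈ O, (∀ V ∈ C, (O : Set F) ⊆ V → V.valuation z < 1) → ∃ c ∈ O, z = c * y

/-- `O` is a good point of the union of the curves in `C`: exactly one of them passes through it, and
`O` is a good point of this curve. -/
def SmoothAt (O : Subring F) (C : Set (ValuationSubring F)) : Prop :=
  ∃ V ∈ C, (O : Set F) ⊆ V ∧ (∀ V' ∈ C, (O : Set F) ⊆ V' → V' = V) ∧ GoodAt O V

/-- The ideal of the elements of `O` which are not units. -/
def mx (O : Subring F) : Ideal O := Ideal.span {a : O | ¬ IsUnit a}

open Classical in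
/-- A coordinate which does not vanish at the point `O`. -/
noncomputable def idxP (x : Fin (n + 1) → F) (O : Subring F) : Fin (n + 1) :=
  if h : ∃ i, ∀ j, x j / x i ∈ O then h.choose else 0

/-- The order at `O` of the form `s` of degree `b` on the curve `V`. -/
noncomputable def lenH (x : Fin (n + 1) → F) (O : Subring F) (V : ValuationSubring F) (b : ℤ)
    (s : F) : ℤ :=
  len (curveLoc O V) (res V (s / x (idxP x O) ^ b))

end Pool.Agent.Lib.MP_b197b4_ntK
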