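import Pool.Agent.Lib.MP_b197b4_ntA.ADefs
import Pool.Agent.Lib.MP_b197b4_ntK.Fin

/-!
# MP_b197b4_nt, project K1, part A: leaf A3 (exists_frac)
-/

set_option autoImplicit false

namespace Pool.Agent.Lib.MP_b197b4_ntK

open IsLocalRing

variable {k : Type} {F : Type} [Field k] [Field F] [Algebra k F]

/-- The local ring at a prime ideal, as a subring of `F`. -/
theorem exFrac_isLoc (A : Subalgebra k F) (m : Ideal A) (hm : m.IsPrime) :
    ∃ O : Subring F, IsLoc A m O := by
  have h1 : (1 : A) ∉ m := fun h => hm.ne_top ((Ideal.eq_top_iff_one m).2 h)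
  have h0 : ∀ s : A, s ∉ m → (s : F) ≠ 0 := by
    intro s hs h
    apply hs
    have : s = 0 := Subtype.ext h
    rw [this]
    exact m.zero_mem
  have hmul : ∀ s t : A, s ∉ m → t ∉ m → s * t ∉ m := fun s t hs ht h =>
    (hm.mem_or_mem h).elim hs ht
  refine ⟨{ carrier := {x | ∃ a s : A, s ∉ m ∧ x = (a : F) / (s : F)}
            mul_mem' := ?_
            one_mem' := ⟨1, 1, h1, by simp⟩
            add_mem' := ?_
            zero_mem' := ⟨0, 1, h1, by simp⟩
            neg_mem' := ?_ }, fun x => Iff.rfl⟩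
  · rintro _ _ ⟨a, s, hs, rfl⟩ ⟨b, t, ht, rfl⟩
    refine ⟨a * b, s * t, hmul s t hs ht, ?_⟩
    push_cast
    exact div_mul_div_comm _ _ _ _
  · rintro _ _ ⟨a, s, hs, rfl⟩ ⟨b, t, ht, rfl⟩
    refine ⟨a * t + s * b, s * t, hmul s t hs ht, ?_⟩
    push_cast
    exact div_add_div _ _ (h0 s hs) (h0 t ht)
  · rintro _ ⟨a, s, hs, rfl⟩
    refine ⟨-a, s, hs, ?_⟩
    push_cast
    exact (neg_div _ _).symm

/-- The denominators of `u` on the curve. -/
noncomputable def exFracIdeal {A : Subalgebra k F} {V : ValuationSubring F} (h : ∀ a ∈ A, a ∈ V)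
    (u : ResidueField V) : Ideal A where
  carrier := {b | ∃ c : A, resHom h b * u = resHom h c}
  zero_mem' := ⟨0, by rw [map_zero, zero_mul]⟩
  add_mem' := by
    rintro a b ⟨c, hc⟩ ⟨d, hd⟩
    exact ⟨c + d, by rw [map_add, map_add, add_mul, hc, hd]⟩
  smul_mem' := by
    rintro a b ⟨c, hc⟩
    exact ⟨a * c, by rw [smul_eq_mul, map_mul, map_mul, mul_assoc, hc]⟩

theorem mem_exFracIdeal {A : Subalgebra k F} {V : ValuationSubring F} (h : ∀ a ∈ A, a ∈ V)
    (u : ResidueField V) (b : A) : b ∈ exFracIdeal h u ↔ ∃ c : A, resHom h b * u = resHom h c :=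
  Iff.rfl

/-- A3. A function on the curve which is a unit at finitely many points of the chart. -/
theorem exists_frac {A : Subalgebra k F} (_hA : ChartN A) {V : ValuationSubring F}
    (hV : IsCurve A V) {T : Set (Ideal A)} (hT : T.Finite) (hTm : ∀ m ∈ T, m.IsMaximal)
    {u : ResidueField V} (hu : u ≠ 0)
    (huT : ∀ m ∈ T, ∀ O : Subring F, IsLoc A m O → (O : Set F) ⊆ V ∧ UnitAt O V u) :
    ∃ a b : A, V.valuation (a : F) = 1 ∧ V.valuation (b : F) = 1 ∧
      u = res V (a : F) / res V (b : F) ∧ ∀ m ∈ T, a ∉ m ∧ b ∉ m := by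
  obtain ⟨P, hPp, hP⟩ := exists_primeOf hV.2.1
  have key : ∀ m ∈ T, P ≤ m ∧ ∃ a s : A, a ∉ m ∧ s ∉ m ∧ resHom hV.2.1 s * u = resHom hV.2.1 a := by
    intro m hm
    have hmm := hTm m hm
    obtain ⟨O, hO⟩ := exFrac_isLoc A m hmm.isPrime
    obtain ⟨hOV, α, hα, hαu⟩ := huT m hm O hO
    have hPm := le_of_subset hP hO hOV
    refine ⟨hPm, ?_⟩
    obtain ⟨a, s, hs, has⟩ := (hO (α : F)).1 α.2
    have hs0 : (s : F) ≠ 0 := coe_ne_zero_of_notMem hs
    have hsα : (s : F) * α = a := by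
      rw [has]
      field_simp
    refine ⟨a, s, ?_, hs, ?_⟩
    · intro ha
      obtain ⟨β, hβ⟩ := hα.exists_right_inv
      obtain ⟨b, t, ht, hbt⟩ := (hO (β : F)).1 β.2
      have ht0 : (t : F) ≠ 0 := coe_ne_zero_of_notMem ht
      have h1 : (α : F) * β = 1 := by
        have := congrArg (fun z : O => (z : F)) hβ
        simpa using this
      have h2 : s * t = a * b := by
        apply Subtype.ext
        push_cast
        have h3 : (t : F) * β = b := by
          rw [hbt]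
          field_simp
        rw [← hsα, ← h3]
        linear_combination (-(s : F) * t) * h1
      have h3 : s * t ∈ m := by
        rw [h2]
        exact m.mul_mem_right b ha
      exact (hmm.isPrime.mem_or_mem h3).elim hs ht
    · rw [resHom_apply, resHom_apply, ← hαu, ← res_mul (hV.2.1 s s.2) (hOV α.2), hsα]
  have hDP : ¬ exFracIdeal hV.2.1 u ≤ P := by
    intro h
    obtain ⟨a, s, hs, hus⟩ := hV.res_frac u
    have h1 : s ∈ exFracIdeal hV.2.1 u := by
      refine ⟨a, ?_⟩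
      rw [resHom_apply, resHom_apply, hus]
      exact mul_div_cancel₀ _ ((res_ne_zero_iff (mem_of_val_one hs)).2 hs)
    exact (hP.val_one hV.2.1 s).2 hs (h h1)
  have hDm : ∀ m ∈ T, ¬ exFracIdeal hV.2.1 u ≤ m := by
    intro m hm h
    obtain ⟨-, a, s, -, hs, h1⟩ := key m hm
    exact hs (h ⟨a, h1⟩)
  obtain ⟨b, hbD, hbP, hbT⟩ : ∃ b ∈ exFracIdeal hV.2.1 u, b ∉ P ∧ ∀ m ∈ T, b ∉ m := by
    classical
    by_contra hcon
    have h1 : ((exFracIdeal hV.2.1 u : Ideal A) : Set A) ⊆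
        ⋃ m ∈ (↑(insert P hT.toFinset) : Set (Ideal A)), ((m : Ideal A) : Set A) := by
      intro b hb
      by_contra hb2
      apply hcon
      refine ⟨b, hb, fun h => hb2 ?_, fun m hm h => hb2 ?_⟩
      · exact Set.mem_biUnion (Finset.mem_coe.2 (Finset.mem_insert_self _ _)) h
      · exact Set.mem_biUnion (Finset.mem_coe.2 (Finset.mem_insert_of_mem
          (hT.mem_toFinset.2 hm))) h
    have h2 := (Ideal.subset_union_prime (R := A) (f := fun I : Ideal A => I)
      (s := insert P hT.toFinset) P P (fun I hI _ _ => by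
        rcases Finset.mem_insert.1 hI with rfl | hI
        · exact hPp
        · exact (hTm I (hT.mem_toFinset.1 hI)).isPrime) (I := exFracIdeal hV.2.1 u)).1 h1
    obtain ⟨I, hI, hDI⟩ := h2
    rcases Finset.mem_insert.1 hI with rfl | hI
    · exact hDP hDI
    · exact hDm I (hT.mem_toFinset.1 hI) hDI
  obtain ⟨a, hab⟩ := (mem_exFracIdeal _ _ _).1 hbD
  have hb1 : V.valuation (b : F) = 1 := (hP.val_one hV.2.1 b).1 hbP
  have hb0 : resHom hV.2.1 b ≠ 0 := by
    rw [resHom_apply]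
    exact (res_ne_zero_iff (hV.2.1 b b.2)).2 hb1
  have ha0 : resHom hV.2.1 a ≠ 0 := by
    rw [← hab]
    exact mul_ne_zero hb0 hu
  refine ⟨a, b, ?_, hb1, ?_, ?_⟩
  · rw [resHom_apply] at ha0
    exact (res_ne_zero_iff (hV.2.1 a a.2)).1 ha0
  · rw [← resHom_apply hV.2.1, ← resHom_apply hV.2.1, eq_div_iff hb0, mul_comm, hab]
  · intro m hm
    refine ⟨fun ham => ?_, hbT m hm⟩
    obtain ⟨hPm, c, s, hc, hs, hcs⟩ := key m hm
    have h1 : resHom hV.2.1 (b * c - a * s) = 0 := by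
      rw [map_sub, map_mul, map_mul, ← hcs, ← hab]
      ring
    have h2 : b * c - a * s ∈ P := by
      rw [← resHom_ker hV.2.1 hP, RingHom.mem_ker]
      exact h1
    have h3 : b * c ∈ m := by
      have h4 := m.add_mem (hPm h2) (m.mul_mem_right s ham)
      rwa [sub_add_cancel] at h4
    exact ((hTm m hm).isPrime.mem_or_mem h3).elim (hbT m hm) hc

end Pool.Agent.Lib.MP_b197b4_ntK
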