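import Pool.Agent.Lib.MP_b197b4_ntA.AApi
import Pool.Agent.Lib.MP_b197b4_ntG.GenC
import Pool.Agent.Lib.MP_b197b4_ntA.A1
import Pool.Agent.Lib.MP_b197b4_ntA.A2
import Pool.Agent.Lib.MP_b197b4_ntA.A4
import Pool.Agent.Lib.MP_b197b4_ntA.A7
import Pool.Agent.Lib.MP_b197b4_ntA.A89
import Pool.Agent.Lib.MP_b197b4_ntA.A10
import Pool.Agent.Lib.MP_b197b4_ntA.exists_frac

/-!
# MP_b197b4_nt, project K1, part A: leaves
-/

set_option autoImplicit false

namespace Pool.Agent.Lib.MP_b197b4_ntK

open IsLocalRing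

variable {k : Type} {F : Type} [Field k] [Field F] [Algebra k F] {n : ℕ}
  {x : Fin (n + 1) → F}

/-- A8'. The maximal ideal at a good point is generated by two elements. -/
theorem exists_param {O : Subring F} [IsLocalRing O] {V : ValuationSubring F}
    (hV : V ∈ CurvesAt O) (hg : GoodAt O V) : ∃ α β : F, IsParam O α β :=
  AInf.exists_isParam hV hg

/-- A11. The order of a form on a curve does not depend on the generator. -/
theorem ord_div_genL (hS : SurfN k x) {V : ValuationSubring F} (hV : V ∈ Curves (charts k x))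
    {w : F} (hw : Gen k x V.toSubring w) (d : ℕ) {f : F} (hf : f ≠ 0) :
    ord V (f / w ^ d) = vh x V d f :=
  ord_div_genA hS hV hw d hf

end Pool.Agent.Lib.MP_b197b4_ntK
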