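import Pool.Agent.Lib.MP_b197b4_ntA.ADefs
import Pool.Agent.Lib.MP_b197b4_ntK.LinSys
import Pool.Agent.Lib.MP_b197b4_ntK.CurveN

/-!
# MP_b197b4_nt, project K1, part A: the form of a function on the good points
-/

set_option autoImplicit false
set_option linter.style.haveILetI false

namespace Pool.Agent.Lib.MP_b197b4_ntK

open IsLocalRing

variable {k : Type} {F : Type} [Field k] [Field F] [Algebra k F] {n : ℕ}

section Fin

variable {A : Subalgebra k F} {V : ValuationSubring F}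

theorem PS_mem_minimalPrimes (hht : ∀ m : Ideal A, m.IsMaximal → m.height = 2)
    (hV : IsCurve A V) {P : Ideal A} (hP : PrimeOf A V P)
    {a : A} (ha : a ∉ P) {m : Ideal A} (hm : m.IsMaximal) (hPm : P ≤ m) (ham : a ∈ m) :
    m ∈ (P ⊔ Ideal.span {a}).minimalPrimes := by
  have := hm.isPrime
  have hPp := hP.isPrime hV.2.1
  refine ⟨⟨hm.isPrime, sup_le hPm ((Ideal.span_singleton_le_iff_mem _).2 ham)⟩, ?_⟩
  rintro J ⟨hJ, hPJ⟩ hJm
  by_contra hne
  have hlt : J < m := lt_of_le_not_ge hJm hne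
  have hPJ' : P < J := by
    refine lt_of_le_not_ge (le_sup_left.trans hPJ) fun h => ha (h ?_)
    exact hPJ (Ideal.mem_sup_right (Ideal.mem_span_singleton_self a))
  have h1 := Ideal.height_add_one_le_of_lt_of_isPrime hPJ'
  have h2 := Ideal.height_add_one_le_of_lt_of_isPrime hlt
  rw [hht m hm] at h2
  rw [hV.height hP] at h1
  have h3 : (1 : ℕ∞) + 1 + 1 ≤ 2 := (add_le_add_left h1 1).trans h2
  exact absurd h3 (by decide)

theorem PS_finite_not_unit_chart (hno : IsNoetherianRing A)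
    (hht : ∀ m : Ideal A, m.IsMaximal → m.height = 2) (hV : IsCurve A V) {u : ResidueField V}
    (hu : u ≠ 0) :
    {O : Subring F | (∃ m : Ideal A, m.IsMaximal ∧ IsLoc A m O) ∧ (O : Set F) ⊆ V ∧
      ¬ UnitAt O V u}.Finite := by
  classical
  haveI := hno
  obtain ⟨P, hPp, hP⟩ := exists_primeOf hV.2.1
  obtain ⟨a, s, hs, rfl⟩ := hV.res_frac u
  have hs' : s ∉ P := (hP.val_one hV.2.1 s).2 hs
  have ha1 : V.valuation (a : F) = 1 := by
    rw [← res_ne_zero_iff (hV.2.1 a a.2)]
    intro h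
    apply hu
    rw [h, zero_div]
  have ha' : a ∉ P := (hP.val_one hV.2.1 a).2 ha1
  have has : a * s ∉ P := fun h => (hPp.mem_or_mem h).elim ha' hs'
  have hfin := Ideal.finite_minimalPrimes_of_isNoetherianRing A (P ⊔ Ideal.span {a * s})
  let φ : Ideal A → Subring F := fun m => if hm : m.IsPrime then locSub A m else ⊥
  refine (hfin.image φ).subset ?_
  rintro O ⟨⟨m, hm, hO⟩, hOV, hnu⟩
  have hmp := hm.isPrime
  refine ⟨m, ?_, ?_⟩
  · refine PS_mem_minimalPrimes hht hV hP has hm ?_ ?_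
    · intro b hb
      by_contra hbm
      have h1 : (b : F)⁻¹ ∈ O := by
        rw [hO]
        exact ⟨1, b, hbm, by simp⟩
      have h2 := (ValuationSubring.valuation_le_one_iff V _).2 (hOV h1)
      have h3 := (hP b).1 hb
      have hb0 : (b : F) ≠ 0 := coe_ne_zero_of_notMem hbm
      have h4 : V.valuation (b : F) * V.valuation (b : F)⁻¹ = 1 := by
        rw [← map_mul, mul_inv_cancel₀ hb0, map_one]
      have h5 := mul_lt_one_of_lt_of_le h3 h2
      rw [h4] at h5
      exact lt_irrefl _ h5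
    · by_contra hasm
      apply hnu
      have ham : a ∉ m := fun h => hasm (Ideal.mul_mem_right _ _ h)
      have hsm : s ∉ m := fun h => hasm (Ideal.mul_mem_left _ _ h)
      have hVO : V ∈ CurvesAt O := (hO.mem_curvesAt hmp.ne_top V).2 ⟨hV, hOV⟩
      exact UnitAt.div hVO ⟨_, hO.isUnit ham hmp.ne_top, rfl⟩ ⟨_, hO.isUnit hsm hmp.ne_top, rfl⟩
  · have h1 : φ m = locSub A m := dif_pos hmp
    rw [h1]
    ext x
    exact (hO x).symm

end Fin

variable (x : Fin (n + 1) → F)

/-- The normalisation which belongs to `ptForm`. -/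
noncomputable def eh (k : Type) {F : Type} [Field k] [Field F] [Algebra k F] {n : ℕ}
    (x : Fin (n + 1) → F) (h : Subring F → ℚ) (V : ValuationSubring F) : ℚ :=
  ∑ᶠ (O) (_ : O ∈ Points (charts k x) ∧ (O : Set F) ⊆ V), h O * lenH x O V 1 (x (idx x V))

variable {x}

theorem PS_curvesAt (hS : SurfN k x) {O : Subring F} (hO : O ∈ Points (charts k x))
    {V : ValuationSubring F} (hV : V ∈ Curves (charts k x)) (hOV : (O : Set F) ⊆ V) :
    V ∈ CurvesAt O := (curves_point (sep_charts hS.ne) hO V).1 ⟨hV, hOV⟩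

theorem PS_disc {V : ValuationSubring F} (hV : V ∈ Curves (charts k x)) :
    IsDiscreteValuationRing V := disc_of_curves hV

theorem PS_finite_not_unit (hS : SurfN k x) {V : ValuationSubring F}
    (hV : V ∈ Curves (charts k x)) {u : ResidueField V} (hu : u ≠ 0) :
    {O : Subring F | O ∈ Points (charts k x) ∧ (O : Set F) ⊆ V ∧ ¬ UnitAt O V u}.Finite := by
  classical
  refine ((charts_finite (k := k) x).biUnion
    (t := fun A => {O : Subring F | (∃ m : Ideal A, m.IsMaximal ∧ IsLoc A m O) ∧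
    (O : Set F) ⊆ V ∧ ¬ UnitAt O V u}) ?_).subset ?_
  · rintro A ⟨i, rfl⟩
    by_cases hAV : ∀ a ∈ Algebra.adjoin k (Set.range fun j => x j / x i), a ∈ V
    · exact PS_finite_not_unit_chart (hS.chart i).noeth (hS.chart i).height
        (isCurve_of_sep (sep_charts hS.ne) hV ⟨i, rfl⟩ hAV) hu
    · apply Set.Finite.subset Set.finite_empty
      rintro O ⟨⟨m, hm, hO⟩, hOV, _⟩
      exact hAV fun a ha => hOV (hO.coe_mem hm.isPrime.ne_top ⟨a, ha⟩)
  · rintro O ⟨⟨A, hA, m, hm, hO⟩, hOV, hnu⟩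
    exact Set.mem_biUnion hA ⟨⟨m, hm, hO⟩, hOV, hnu⟩

theorem PS_len_unit {O : Subring F} (hO : Loc2 O) {V : ValuationSubring F} (hV : V ∈ CurvesAt O)
    {u : ResidueField V} (hu : u ≠ 0) (h : UnitAt O V u) : len (curveLoc O V) u = 0 := by
  rw [len_curveLoc hO hV hu, lenAt_unitAt hO hV h]

theorem PS_len_mul {O : Subring F} (hO : Loc2 O) {V : ValuationSubring F} (hV : V ∈ CurvesAt O)
    {u v : ResidueField V} (hu : u ≠ 0) (hv : v ≠ 0) :
    len (curveLoc O V) (u * v) = len (curveLoc O V) u + len (curveLoc O V) v := by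
  rw [len_curveLoc hO hV hu, len_curveLoc hO hV hv, len_curveLoc hO hV (mul_ne_zero hu hv),
    lenAt_mul hO hV hu hv]

theorem PS_len_zpow {O : Subring F} (hO : Loc2 O) {V : ValuationSubring F} (hV : V ∈ CurvesAt O)
    {u : ResidueField V} (hu : u ≠ 0) (m : ℤ) :
    len (curveLoc O V) (u ^ m) = m * len (curveLoc O V) u := by
  rw [len_curveLoc hO hV hu, len_curveLoc hO hV (zpow_ne_zero m hu), lenAt_zpow hO hV hu]

/-- Finitely many terms. -/
theorem PS_finite_term (hS : SurfN k x) {h : Subring F → ℚ} (hh : ∀ O, ¬ Loc2 O → h O = 0)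
    {V : ValuationSubring F} (hV : V ∈ Curves (charts k x)) {u : ResidueField V} (hu : u ≠ 0) :
    {O : Subring F | O ∈ Points (charts k x) ∧ (O : Set F) ⊆ V ∧
      h O * (len (curveLoc O V) u : ℚ) ≠ 0}.Finite := by
  refine (PS_finite_not_unit hS hV hu).subset ?_
  rintro O ⟨hO, hOV, hne⟩
  refine ⟨hO, hOV, fun h1 => hne ?_⟩
  by_cases hl : Loc2 O
  · rw [PS_len_unit hl (PS_curvesAt hS hO hV hOV) hu h1]
    simp
  · rw [hh O hl, zero_mul]

theorem PS_finite_supp (hS : SurfN k x) {h : Subring F → ℚ} (hh : ∀ O, ¬ Loc2 O → h O = 0)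
    {V : ValuationSubring F} (hV : V ∈ Curves (charts k x)) {u : ResidueField V} (hu : u ≠ 0) :
    ({O : Subring F | O ∈ Points (charts k x) ∧ (O : Set F) ⊆ V} ∩
      Function.support fun O => h O * (len (curveLoc O V) u : ℚ)).Finite := by
  refine (PS_finite_term hS hh hV hu).subset ?_
  rintro O ⟨⟨h1, h2⟩, h3⟩
  exact ⟨h1, h2, h3⟩

/-- Exchange of the two sums. -/
theorem PS_exchange {D : Set (ValuationSubring F)} {Pt : Set (Subring F)} {h : Subring F → ℚ}
    {c : ValuationSubring F → Subring F → ℤ} {S : Set (ValuationSubring F)} (hSf : S.Finite)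
    (hSD : S ⊆ D) (hS : ∀ V ∈ D, V ∉ S → ∀ O ∈ Pt, (O : Set F) ⊆ V → h O * (c V O : ℚ) = 0)
    (hT : ∀ V ∈ S, {O | O ∈ Pt ∧ (O : Set F) ⊆ V ∧ h O * (c V O : ℚ) ≠ 0}.Finite)
    (hO : ∀ O ∈ Pt, h O ≠ 0 → ∑ᶠ (V) (_ : V ∈ D ∧ (O : Set F) ⊆ V), c V O = 0) :
    ∑ᶠ (V) (_ : V ∈ D), ∑ᶠ (O) (_ : O ∈ Pt ∧ (O : Set F) ⊆ V), h O * (c V O : ℚ) = 0 := by
  classical
  let S' : Finset (ValuationSubring F) := hSf.toFinset
  have hS' : ∀ V, V ∈ S' ↔ V ∈ S := fun V => Set.Finite.mem_toFinset hSf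
  let T : Finset (Subring F) := S'.attach.biUnion fun V => (hT V.1 ((hS' _).1 V.2)).toFinset
  have hTm : ∀ V ∈ S, ∀ O ∈ Pt, (O : Set F) ⊆ V → h O * (c V O : ℚ) ≠ 0 → O ∈ T := by
    intro V hV O hOP hOV hne
    refine Finset.mem_biUnion.2 ⟨⟨V, (hS' V).2 hV⟩, Finset.mem_attach _ _, ?_⟩
    rw [Set.Finite.mem_toFinset]
    exact ⟨hOP, hOV, hne⟩
  have hTP : ∀ O ∈ T, O ∈ Pt := by
    intro O hO
    obtain ⟨V, _, h2⟩ := Finset.mem_biUnion.1 hO
    rw [Set.Finite.mem_toFinset] at h2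
    exact h2.1
  have hinner : ∀ V ∈ D, V ∉ S →
      ∑ᶠ (O) (_ : O ∈ Pt ∧ (O : Set F) ⊆ V), h O * (c V O : ℚ) = 0 := by
    intro V hV hVS
    apply finsum_mem_eq_zero_of_forall_eq_zero (s := {O | O ∈ Pt ∧ (O : Set F) ⊆ V})
    rintro O ⟨h1, h2⟩
    exact hS V hV hVS O h1 h2
  have e1 : ∑ᶠ (V) (_ : V ∈ D), ∑ᶠ (O) (_ : O ∈ Pt ∧ (O : Set F) ⊆ V), h O * (c V O : ℚ) =
      ∑ V ∈ S', ∑ᶠ (O) (_ : O ∈ Pt ∧ (O : Set F) ⊆ V), h O * (c V O : ℚ) := by
    apply finsum_mem_eq_sum_of_inter_support_eq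
    ext V
    simp only [Set.mem_inter_iff, Function.mem_support, Finset.mem_coe, hS']
    constructor
    · rintro ⟨hV, hne⟩
      refine ⟨?_, hne⟩
      by_contra h1
      exact hne (hinner V hV h1)
    · rintro ⟨hV, hne⟩
      exact ⟨hSD hV, hne⟩
  have e2 : ∀ V ∈ S', ∑ᶠ (O) (_ : O ∈ Pt ∧ (O : Set F) ⊆ V), h O * (c V O : ℚ) =
      ∑ O ∈ T, if (O : Set F) ⊆ V then h O * (c V O : ℚ) else 0 := by
    intro V hV
    rw [← Finset.sum_filter]
    apply finsum_cond_eq_sum_of_cond_iff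
    intro O hne
    rw [Finset.mem_filter]
    constructor
    · rintro ⟨hO, hOV⟩
      exact ⟨hTm V ((hS' V).1 hV) O hO hOV hne, hOV⟩
    · rintro ⟨hO, hOV⟩
      exact ⟨hTP O hO, hOV⟩
  rw [e1, Finset.sum_congr rfl e2, Finset.sum_comm]
  apply Finset.sum_eq_zero
  intro O hOT
  by_cases h0 : h O = 0
  · apply Finset.sum_eq_zero
    intro V _
    rw [h0]
    simp
  have e3 : ∑ᶠ (V) (_ : V ∈ D ∧ (O : Set F) ⊆ V), c V O =
      ∑ V ∈ S', if (O : Set F) ⊆ V then c V O else 0 := by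
    rw [← Finset.sum_filter]
    apply finsum_cond_eq_sum_of_cond_iff
    intro V hne
    rw [Finset.mem_filter, hS']
    constructor
    · rintro ⟨hV, hOV⟩
      refine ⟨?_, hOV⟩
      by_contra h1
      have h2 := hS V hV h1 O (hTP O hOT) hOV
      rcases mul_eq_zero.1 h2 with h3 | h3
      · exact h0 h3
      · exact hne (by exact_mod_cast h3)
    · rintro ⟨hV, hOV⟩
      exact ⟨hSD hV, hOV⟩
  have e4 := hO O (hTP O hOT) h0
  rw [e3] at e4
  have e5 : ∀ V ∈ S', (if (O : Set F) ⊆ V then h O * (c V O : ℚ) else 0) =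
      h O * (((if (O : Set F) ⊆ V then c V O else 0) : ℤ) : ℚ) := by
    intro V _
    split_ifs
    · rfl
    · push_cast
      ring
  rw [Finset.sum_congr rfl e5, ← Finset.mul_sum, ← Int.cast_sum, e4, Int.cast_zero, mul_zero]

/-- The sum of the lengths of a tame symbol at a good point. -/
theorem PS_gersten (hS : SurfN k x) {O : Subring F} (hO : O ∈ Points (charts k x)) (hl : Loc2 O)
    {f g : F} (hf : f ≠ 0) (hg : g ≠ 0) :
    ∑ᶠ (V) (_ : V ∈ Curves (charts k x) ∧ (O : Set F) ⊆ V),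
      len (curveLoc O V) (tame V f g) = 0 := by
  classical
  rw [← gersten hl hf hg]
  apply finsum_congr
  intro V
  by_cases hV : V ∈ CurvesAt O
  · have h1 := (curves_point (sep_charts hS.ne) hO V).2 hV
    rw [finsum_eq_if, finsum_eq_if, if_pos h1, if_pos hV,
      len_curveLoc hl hV (tame_ne_zero hV.1 hf hg)]
  · have h1 : ¬ (V ∈ Curves (charts k x) ∧ (O : Set F) ⊆ V) :=
      fun h => hV ((curves_point (sep_charts hS.ne) hO V).1 h)
    rw [finsum_eq_if, finsum_eq_if, if_neg h1, if_neg hV]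

/-- PS0. -/
theorem forms_ptForm (hS : SurfN k x) {h : Subring F → ℚ} (hh : ∀ O, ¬ Loc2 O → h O = 0) :
    Forms k (Curves (charts k x)) (ptForm (charts k x) h) where
  disc _ hV := disc_of_curves hV
  base _ hV := over_of_curves hV
  finite f hf := hS.curves_finite f hf
  mul V hV u w hu hw := by
    unfold ptForm
    refine Eq.trans ?_ (finsum_mem_add_distrib' (PS_finite_supp hS hh hV hu)
      (PS_finite_supp hS hh hV hw))
    apply finsum_mem_congr rfl
    rintro O ⟨hO, hOV⟩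
    by_cases hl : Loc2 O
    · rw [PS_len_mul hl (PS_curvesAt hS hO hV hOV) hu hw]
      push_cast
      ring
    · rw [hh O hl]
      ring
  recip f g hf hg := by
    unfold ptForm
    refine PS_exchange (S := {V | V ∈ Curves (charts k x) ∧ ord V f ≠ 0} ∪
      {V | V ∈ Curves (charts k x) ∧ ord V g ≠ 0})
      ((hS.curves_finite f hf).union (hS.curves_finite g hg)) ?_ ?_ ?_ ?_
    · rintro V (h1 | h1)
      · exact h1.1
      · exact h1.1
    · intro V hV hVS O _ _
      have h1 : ord V f = 0 := by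
        by_contra h1
        exact hVS (Or.inl ⟨hV, h1⟩)
      have h2 : ord V g = 0 := by
        by_contra h2
        exact hVS (Or.inr ⟨hV, h2⟩)
      rw [tame_eq_one h1 h2, len_one]
      simp
    · intro V hV
      have hVC : V ∈ Curves (charts k x) := by
        rcases hV with h1 | h1
        · exact h1.1
        · exact h1.1
      exact PS_finite_term hS hh hVC (tame_ne_zero (disc_of_curves hVC) hf hg)
    · intro O hO h0
      have hl : Loc2 O := by
        by_contra h1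
        exact h0 (hh O h1)
      exact PS_gersten hS hO hl hf hg

/-- The coordinate at a point. -/
theorem idxP_spec {O : Subring F} (hO : O ∈ Points (charts k x)) (j : Fin (n + 1)) :
    x j / x (idxP x O) ∈ O := by
  have hex : ∃ i, ∀ j, x j / x i ∈ O := by
    obtain ⟨_, ⟨i, rfl⟩, m, hm, hOm⟩ := hO
    exact ⟨i, fun j => hOm.coe_mem hm.isPrime.ne_top ⟨_, Algebra.subset_adjoin ⟨j, rfl⟩⟩⟩
  unfold idxP
  rw [dif_pos hex]
  exact hex.choose_spec j

/-- The quotient of the two coordinates is a unit on the curve. -/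
theorem PS_val_unit (hS : SurfN k x) {O : Subring F} (hO : O ∈ Points (charts k x))
    {V : ValuationSubring F} (hV : V ∈ Curves (charts k x)) (hOV : (O : Set F) ⊆ V) :
    V.valuation (x (idx x V) / x (idxP x O)) = 1 := by
  have hd := disc_of_curves hV
  have h1 : x (idx x V) / x (idxP x O) ∈ V := hOV (idxP_spec hO _)
  have hne : x (idx x V) / x (idxP x O) ≠ 0 := div_ne_zero (hS.ne _) (hS.ne _)
  rw [← ord_eq_zero_iff hd hne]
  have h2 := (ord_nonneg_iff hd hne).2 h1
  rw [ord_div hd (hS.ne _) (hS.ne _)] at h2 ⊢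
  have h3 := idx_le x V (idxP x O)
  omega

/-- `hat` in terms of the coordinate at the point. -/
theorem PS_hat (hx : ∀ i, x i ≠ 0) (O : Subring F) (V : ValuationSubring F) (b : ℤ) (s : F) :
    s / x (idxP x O) ^ b = hat x V b s * (x (idx x V) / x (idxP x O)) ^ b := by
  unfold hat
  have h1 := zpow_ne_zero b (hx (idx x V))
  rw [div_zpow]
  field_simp

theorem PS_mul_finsum {ι : Type} (p : ι → Prop) (c : ℚ) (f : ι → ℚ) :
    c * ∑ᶠ (O) (_ : p O), f O = ∑ᶠ (O) (_ : p O), c * f O := by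
  classical
  rw [mul_finsum]
  refine finsum_congr fun O => ?_
  by_cases hO : p O
  · rw [finsum_eq_if, finsum_eq_if, if_pos hO, if_pos hO]
  · rw [finsum_eq_if, finsum_eq_if, if_neg hO, if_neg hO, mul_zero]

/-- Finitely many terms, when the function depends on the coordinate at the point. -/
theorem PS_finite_var (hS : SurfN k x) {h : Subring F → ℚ} (hh : ∀ O, ¬ Loc2 O → h O = 0)
    {V : ValuationSubring F} (hV : V ∈ Curves (charts k x)) (u : Fin (n + 1) → ResidueField V)
    (hu : ∀ O ∈ Points (charts k x), (O : Set F) ⊆ V → u (idxP x O) ≠ 0) :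
    {O : Subring F | O ∈ Points (charts k x) ∧ (O : Set F) ⊆ V ∧
      h O * (len (curveLoc O V) (u (idxP x O)) : ℚ) ≠ 0}.Finite := by
  classical
  have h1 : (⋃ j : Fin (n + 1), {O : Subring F | u j ≠ 0 ∧ O ∈ Points (charts k x) ∧
      (O : Set F) ⊆ V ∧ h O * (len (curveLoc O V) (u j) : ℚ) ≠ 0}).Finite := by
    refine Set.finite_iUnion fun j => ?_
    by_cases hj : u j = 0
    · refine Set.Finite.subset Set.finite_empty ?_
      rintro O ⟨h2, _⟩
      exact h2 hj
    · refine (PS_finite_term hS hh hV hj).subset ?_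
      rintro O ⟨_, h2⟩
      exact h2
  refine h1.subset ?_
  rintro O ⟨hO, hOV, hne⟩
  exact Set.mem_iUnion.2 ⟨idxP x O, hu O hO hOV, hO, hOV, hne⟩

theorem PS_res_ne (hS : SurfN k x) {O : Subring F} (hO : O ∈ Points (charts k x))
    {V : ValuationSubring F} (hV : V ∈ Curves (charts k x)) (hOV : (O : Set F) ⊆ V) :
    res V (x (idx x V) / x (idxP x O)) ≠ 0 := by
  have h1 := PS_val_unit hS hO hV hOV
  exact (res_ne_zero_iff (mem_of_val_one h1)).2 h1

theorem PS_finite_lenH (hS : SurfN k x) {h : Subring F → ℚ} (hh : ∀ O, ¬ Loc2 O → h O = 0)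
    {V : ValuationSubring F} (hV : V ∈ Curves (charts k x)) :
    ({O : Subring F | O ∈ Points (charts k x) ∧ (O : Set F) ⊆ V} ∩
      Function.support fun O => h O * (lenH x O V 1 (x (idx x V)) : ℚ)).Finite := by
  refine (PS_finite_var hS hh hV (fun j => res V (x (idx x V) / x j))
    (fun O hO hOV => PS_res_ne hS hO hV hOV)).subset ?_
  rintro O ⟨⟨h1, h2⟩, h3⟩
  refine ⟨h1, h2, ?_⟩
  unfold lenH at h3
  simpa using h3

theorem PS_finite_mul {s : Set (Subring F)} {f : Subring F → ℚ}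
    (h : (s ∩ Function.support f).Finite) (c : ℚ) :
    (s ∩ Function.support fun O => c * f O).Finite := by
  refine h.subset ?_
  rintro O ⟨h1, h2⟩
  refine ⟨h1, fun h3 => h2 ?_⟩
  change c * f O = 0
  rw [h3, mul_zero]

/-- PS1. `Lam` of the form of a function on points. -/
theorem Lam_ptForm (hS : SurfN k x) {h : Subring F → ℚ}
    (hh : ∀ O, ¬ Loc2 O → h O = 0) {V : ValuationSubring F} (hV : V ∈ Curves (charts k x)) {b : ℕ}
    {s : F} (_hs : s ∈ hom k x b) (hs0 : s ≠ 0) (hv : vh x V b s = 0) :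
    Lam x (ptForm (charts k x) h) (eh k x h) V s b =
      ∑ᶠ (O) (_ : O ∈ Points (charts k x) ∧ (O : Set F) ⊆ V), h O * lenH x O V b s := by
  have hd := disc_of_curves hV
  have hvs : V.valuation (hat x V b s) = 1 := by
    rw [← ord_eq_zero_iff hd (hat_ne hS.ne V b hs0), ord_hat hS.ne hd b hs0, hv]
  have hrs : res V (hat x V b s) ≠ 0 := (res_ne_zero_iff (mem_of_val_one hvs)).2 hvs
  unfold Lam ptForm eh
  rw [PS_mul_finsum]
  refine (finsum_mem_add_distrib' (s := {O | O ∈ Points (charts k x) ∧ (O : Set F) ⊆ V})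
    (PS_finite_supp hS hh hV hrs) (PS_finite_mul (PS_finite_lenH hS hh hV) _)).symm.trans ?_
  apply finsum_mem_congr rfl
  rintro O ⟨hO, hOV⟩
  by_cases hl : Loc2 O
  · have hVO := PS_curvesAt hS hO hV hOV
    have hy := PS_val_unit hS hO hV hOV
    have hry := PS_res_ne hS hO hV hOV
    have hyb : V.valuation ((x (idx x V) / x (idxP x O)) ^ (b : ℤ)) = 1 := by
      rw [map_zpow₀, hy, one_zpow]
    have e1 : lenH x O V b s = len (curveLoc O V) (res V (hat x V b s)) +
        b * len (curveLoc O V) (res V (x (idx x V) / x (idxP x O))) := by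
      unfold lenH
      rw [PS_hat hS.ne O V b s, res_mul (mem_of_val_one hvs) (mem_of_val_one hyb),
        PS_len_mul hl hVO hrs ((res_ne_zero_iff (mem_of_val_one hyb)).2 hyb), zpow_natCast,
        res_pow (mem_of_val_one hy), ← zpow_natCast, PS_len_zpow hl hVO hry]
    have e2 : lenH x O V 1 (x (idx x V)) =
        len (curveLoc O V) (res V (x (idx x V) / x (idxP x O))) := by
      unfold lenH
      rw [zpow_one]
    rw [e1, e2]
    push_cast
    ring
  · rw [hh O hl]
    ring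

/-- Change of the coordinate in a tame symbol. -/
theorem PS_tame {V : ValuationSubring F} (hd : IsDiscreteValuationRing V) {f g y : F}
    (hf : f ≠ 0) (hg : g ≠ 0) (hy : V.valuation y = 1) (a b : ℤ) :
    tame V (f * y ^ a) (g * y ^ b) =
      tame V f g * res V y ^ (a * ord V g - b * ord V f) := by
  have hy0 : y ≠ 0 := ne_zero_of_val_one hy
  have hr : res V y ≠ 0 := (res_ne_zero_iff (mem_of_val_one hy)).2 hy
  have hya : ∀ c : ℤ, V.valuation (y ^ c) = 1 := fun c => by rw [map_zpow₀, hy, one_zpow]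
  have hres : ∀ c : ℤ, res V (y ^ c) = res V y ^ c := by
    intro c
    cases c with
    | ofNat c => simpa using res_pow (mem_of_val_one hy) c
    | negSucc c =>
      rw [zpow_negSucc, zpow_negSucc, res_inv (by rw [map_pow, hy, one_pow]),
        res_pow (mem_of_val_one hy)]
  have hfa : f * y ^ a ≠ 0 := mul_ne_zero hf (zpow_ne_zero _ hy0)
  have hgb : g * y ^ b ≠ 0 := mul_ne_zero hg (zpow_ne_zero _ hy0)
  have ho : ∀ c : ℤ, ord V (y ^ c) = 0 := fun c =>
    (ord_eq_zero_iff hd (zpow_ne_zero _ hy0)).2 (hya c)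
  have e1 : tame V (f * y ^ a) (g * y ^ b) = tame V f (g * y ^ b) * tame V (y ^ a) (g * y ^ b) :=
    tame_mul_fst hd hf (zpow_ne_zero _ hy0) hgb
  have e2 : tame V (g * y ^ b) f = tame V g f * tame V (y ^ b) f :=
    tame_mul_fst hd hg (zpow_ne_zero _ hy0) hf
  rw [e1, tame_unit_left hd (hya a) hgb, ord_mul hd hg (zpow_ne_zero _ hy0), ho, add_zero, hres,
    tame_swap hd hgb hf, e2, tame_unit_left hd (hya b) hf, hres, mul_inv, ← tame_swap hd hg hf,
    mul_assoc]
  congr 1
  rw [← zpow_mul, ← zpow_mul, ← zpow_neg, ← zpow_add₀ hr]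
  congr 1
  ring

/-- PS2. Reciprocity for homogeneous elements. -/
theorem LS_ptForm (hS : SurfN k x) {h : Subring F → ℚ} (hh : ∀ O, ¬ Loc2 O → h O = 0) {f g : F}
    (hf : f ≠ 0) (hg : g ≠ 0) (a b : ℤ) :
    LS x (Curves (charts k x)) (ptForm (charts k x) h) (eh k x h) f a g b = 0 := by
  have hx := hS.ne
  have hcO : ∀ O : Subring F, f / x (idxP x O) ^ a ≠ 0 ∧ g / x (idxP x O) ^ b ≠ 0 := fun O =>
    ⟨div_ne_zero hf (zpow_ne_zero _ (hx _)), div_ne_zero hg (zpow_ne_zero _ (hx _))⟩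
  have key : ∀ V ∈ Curves (charts k x), Lt x (ptForm (charts k x) h) (eh k x h) V f a g b =
      ∑ᶠ (O) (_ : O ∈ Points (charts k x) ∧ (O : Set F) ⊆ V), h O *
        (len (curveLoc O V) (tame V (f / x (idxP x O) ^ a) (g / x (idxP x O) ^ b)) : ℚ) := by
    intro V hV
    have hd := disc_of_curves hV
    have hfh := hat_ne hx V a hf
    have hgh := hat_ne hx V b hg
    have ht := tame_ne_zero hd hfh hgh
    unfold Lt ptForm eh
    rw [PS_mul_finsum]
    refine (finsum_mem_add_distrib' (s := {O | O ∈ Points (charts k x) ∧ (O : Set F) ⊆ V})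
      (PS_finite_supp hS hh hV ht) (PS_finite_mul (PS_finite_lenH hS hh hV) _)).symm.trans ?_
    apply finsum_mem_congr rfl
    rintro O ⟨hO, hOV⟩
    by_cases hl : Loc2 O
    · have hVO := PS_curvesAt hS hO hV hOV
      have hy := PS_val_unit hS hO hV hOV
      have hry := PS_res_ne hS hO hV hOV
      have e2 : lenH x O V 1 (x (idx x V)) =
          len (curveLoc O V) (res V (x (idx x V) / x (idxP x O))) := by
        unfold lenH
        rw [zpow_one]
      rw [PS_hat hx O V a f, PS_hat hx O V b g, PS_tame hd hfh hgh hy a b,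
        PS_len_mul hl hVO ht (zpow_ne_zero _ hry), PS_len_zpow hl hVO hry, ord_hat hx hd a hf,
        ord_hat hx hd b hg, e2]
      push_cast
      ring
    · rw [hh O hl]
      ring
  unfold LS
  rw [finsum_mem_congr rfl key]
  refine PS_exchange (S := {V | V ∈ Curves (charts k x) ∧ vh x V a f ≠ 0} ∪
    {V | V ∈ Curves (charts k x) ∧ vh x V b g ≠ 0})
    ((vh_finite (fun f hf => hS.curves_finite f hf) hx a hf).union
      (vh_finite (fun f hf => hS.curves_finite f hf) hx b hg)) ?_ ?_ ?_ ?_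
  · rintro V (h1 | h1)
    · exact h1.1
    · exact h1.1
  · intro V hV hVS O hO hOV
    have hd := disc_of_curves hV
    have h1 : vh x V a f = 0 := by
      by_contra h1
      exact hVS (Or.inl ⟨hV, h1⟩)
    have h2 : vh x V b g = 0 := by
      by_contra h2
      exact hVS (Or.inr ⟨hV, h2⟩)
    rw [PS_hat hx O V a f, PS_hat hx O V b g,
      PS_tame hd (hat_ne hx V a hf) (hat_ne hx V b hg) (PS_val_unit hS hO hV hOV) a b,
      tame_eq_one (by rw [ord_hat hx hd a hf]; exact h1) (by rw [ord_hat hx hd b hg]; exact h2),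
      ord_hat hx hd a hf, ord_hat hx hd b hg, h1, h2]
    simp [len_one]
  · intro V hV
    have hVC : V ∈ Curves (charts k x) := by
      rcases hV with h1 | h1
      · exact h1.1
      · exact h1.1
    have hd := disc_of_curves hVC
    refine PS_finite_var hS hh hVC (fun j => tame V (f / x j ^ a) (g / x j ^ b)) ?_
    intro O _ _
    exact tame_ne_zero hd (hcO O).1 (hcO O).2
  · intro O hO h0
    have hl : Loc2 O := by
      by_contra h1
      exact h0 (hh O h1)
    exact PS_gersten hS hO hl (hcO O).1 (hcO O).2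

end Pool.Agent.Lib.MP_b197b4_ntK
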