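import Pool.Agent.Lib.MP_b197b4_ntA.AApi
import Pool.Agent.Lib.MP_b197b4_ntA.APt

/-!
# MP_b197b4_nt, project K1, part A: the function on the points
-/

set_option autoImplicit false

namespace Pool.Agent.Lib.MP_b197b4_ntK

open IsLocalRing

variable {k : Type} {F : Type} [Field k] [Field F] [Algebra k F] {n : ℕ}
  {x : Fin (n + 1) → F}

section Linear

variable {D : Set (ValuationSubring F)} {l l' : ∀ V : ValuationSubring F, ResidueField V → ℚ}
  {e e' : ValuationSubring F → ℚ}

theorem Lt_sub (x : Fin (n + 1) → F) (l l' : ∀ V : ValuationSubring F, ResidueField V → ℚ)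
    (e e' : ValuationSubring F → ℚ) (V : ValuationSubring F) (f : F) (a : ℤ) (g : F) (b : ℤ) :
    Lt x (fun V u => l V u - l' V u) (fun V => e V - e' V) V f a g b =
      Lt x l e V f a g b - Lt x l' e' V f a g b := by
  unfold Lt
  ring

/-- The sum of the local terms is linear in the form. -/
theorem LS_sub (hl : Forms k D l) (hl' : Forms k D l') (hx : ∀ i, x i ≠ 0) {f g : F} (hf : f ≠ 0)
    (hg : g ≠ 0) (a b : ℤ) :
    LS x D (fun V u => l V u - l' V u) (fun V => e V - e' V) f a g b =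
      LS x D l e f a g b - LS x D l' e' f a g b := by
  have h1 : LS x D (fun V u => l V u - l' V u) (fun V => e V - e' V) f a g b +
      LS x D l' e' f a g b = LS x D l e f a g b := by
    unfold LS
    rw [← finsum_mem_add_distrib' (Lt_finite (hl.sub hl') hx hf hg a b)
      (Lt_finite hl' hx hf hg a b)]
    refine finsum_mem_congr rfl fun V _ => ?_
    rw [Lt_sub, sub_add_cancel]
  linarith

end Linear

section System

/-- On good points of the surface the order by length vanishes at units. -/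
theorem SurfN.len_unit (hS : SurfN k x) {O : Subring F} (hO : O ∈ Points (charts k x))
    (hL : Loc2 O) {V : ValuationSubring F} (hV : V ∈ Curves (charts k x)) (hOV : (O : Set F) ⊆ V)
    {u : ResidueField V} (hu : u ≠ 0) (h : UnitAt O V u) : len (curveLoc O V) u = 0 := by
  have hVO := (hS.curvesAt hO).1 ⟨hV, hOV⟩
  rw [len_curveLoc hL hVO hu, lenAt_unitAt hL hVO h]

theorem SurfN.finite_len2 (hS : SurfN k x) {V : ValuationSubring F}
    (hV : V ∈ Curves (charts k x)) {u : ResidueField V} (hu : u ≠ 0) :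
    {O : Subring F | (O ∈ Points (charts k x) ∧ (O : Set F) ⊆ V ∧ Loc2 O) ∧
      len (curveLoc O V) u ≠ 0}.Finite := by
  refine (hS.finite_not_unit hV hu).subset ?_
  rintro O ⟨⟨hO, hOV, hL⟩, hne⟩
  exact ⟨hO, hOV, fun h => hne (hS.len_unit hO hL hV hOV hu h)⟩

open Classical in
/-- The equation of `u` on the curve `V`: the orders of `u` at the good points of the surface. -/
noncomputable def eqn (hS : SurfN k x) {V : ValuationSubring F} (hV : V ∈ Curves (charts k x))
    {u : ResidueField V} (hu : u ≠ 0) : Subring F →₀ ℚ :=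
  Finsupp.onFinset (hS.finite_len2 hV hu).toFinset
    (fun O => if O ∈ Points (charts k x) ∧ (O : Set F) ⊆ V ∧ Loc2 O then
      (len (curveLoc O V) u : ℚ) else 0)
    (by
      intro O hO
      rw [Set.Finite.mem_toFinset]
      by_cases h : O ∈ Points (charts k x) ∧ (O : Set F) ⊆ V ∧ Loc2 O
      · rw [if_pos h] at hO
        exact ⟨h, fun h0 => hO (by rw [h0]; rfl)⟩
      · rw [if_neg h] at hO
        exact absurd rfl hO)

theorem eqn_sum (hS : SurfN k x) {V : ValuationSubring F} (hV : V ∈ Curves (charts k x))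
    {u : ResidueField V} (hu : u ≠ 0) {h : Subring F → ℚ} (hh : ∀ O, ¬ Loc2 O → h O = 0) :
    (eqn hS hV hu).sum (fun O c => c * h O) = ptForm (charts k x) h V u := by
  classical
  unfold ptForm eqn
  rw [Finsupp.onFinset_sum _ (fun _ => zero_mul _)]
  have h1 : ∀ O, h O * (len (curveLoc O V) u : ℚ) ≠ 0 →
      ((O ∈ Points (charts k x) ∧ (O : Set F) ⊆ V) ↔
        O ∈ (hS.finite_len2 hV hu).toFinset) := by
    intro O hne
    rw [Set.Finite.mem_toFinset]
    constructor
    · rintro ⟨h2, h3⟩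
      refine ⟨⟨h2, h3, ?_⟩, fun h0 => hne (by rw [h0]; simp)⟩
      by_contra hL
      exact hne (by rw [hh O hL, zero_mul])
    · rintro ⟨⟨h2, h3, -⟩, -⟩
      exact ⟨h2, h3⟩
  rw [finsum_cond_eq_sum_of_cond_iff _ (fun {O} hO => h1 O hO)]
  refine Finset.sum_congr rfl fun O hO => ?_
  rw [Set.Finite.mem_toFinset] at hO
  rw [if_pos hO.1, mul_comm]

end System

/-- A', from the conclusion of `kill_units`. -/
theorem points_form_of_kill (hS : SurfN k x)
    (hKU : ∀ V ∈ Curves (charts k x), ∀ u : ResidueField V, u ≠ 0 →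
      (∀ O ∈ Points (charts k x), (O : Set F) ⊆ V → ¬ GoodAt O V → UnitAt O V u) →
      ∃ M₀ : ℕ, ∀ M ≥ M₀, ∀ (l : ∀ V : ValuationSubring F, ResidueField V → ℚ)
        (e : ValuationSubring F → ℚ), Forms k (Curves (charts k x)) l →
        (∀ (f g : F) (a b : ℤ), f ≠ 0 → g ≠ 0 → LS x (Curves (charts k x)) l e f a g b = 0) →
        Kill k x l e M → l V u = 0)
    {l : ∀ V : ValuationSubring F, ResidueField V → ℚ} {e : ValuationSubring F → ℚ}
    (hl : Forms k (Curves (charts k x)) l)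
    (he : ∀ (f g : F) (a b : ℤ), f ≠ 0 → g ≠ 0 → LS x (Curves (charts k x)) l e f a g b = 0)
    (hK : ∀ M : ℕ, 2 ≤ M → ∃ h : Subring F → ℚ, (∀ O, ¬ Loc2 O → h O = 0) ∧
      Kill k x (fun V u => l V u - ptForm (charts k x) h V u) (fun V => e V - eh k x h V) M) :
    ∃ h : Subring F → ℚ, (∀ O, ¬ Loc2 O → h O = 0) ∧
      ∀ V ∈ Curves (charts k x), ∀ u : ResidueField V, u ≠ 0 →
      (∀ O ∈ Points (charts k x), (O : Set F) ⊆ V → ¬ GoodAt O V → UnitAt O V u) →
      l V u = ptForm (charts k x) h V u := by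
  classical
  let E : Type := {q : (Σ V : ValuationSubring F, ResidueField V) //
    q.1 ∈ Curves (charts k x) ∧ q.2 ≠ 0 ∧
      ∀ O ∈ Points (charts k x), (O : Set F) ⊆ q.1 → ¬ GoodAt O q.1 → UnitAt O q.1 q.2}
  have hKU' : ∀ q : E, ∃ M₀ : ℕ, ∀ M ≥ M₀,
      ∀ (l : ∀ V : ValuationSubring F, ResidueField V → ℚ)
        (e : ValuationSubring F → ℚ), Forms k (Curves (charts k x)) l →
        (∀ (f g : F) (a b : ℤ), f ≠ 0 → g ≠ 0 → LS x (Curves (charts k x)) l e f a g b = 0) →
        Kill k x l e M → l q.1.1 q.1.2 = 0 :=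
    fun q => hKU q.1.1 q.2.1 q.1.2 q.2.2.1 q.2.2.2
  choose M₀ hM₀ using hKU'
  obtain ⟨h₀, hh₀⟩ := Pool.Agent.K1.linSys (K := ℚ) (ι := Subring F) (E := E)
    (fun q => eqn hS q.2.1 q.2.2.1) (fun q => l q.1.1 q.1.2) (by
      intro S
      obtain ⟨h, hh, hk⟩ := hK (max 2 (S.sup M₀)) (le_max_left _ _)
      refine ⟨h, fun q hq => ?_⟩
      rw [eqn_sum hS q.2.1 q.2.2.1 hh]
      have h1 := hM₀ q (max 2 (S.sup M₀)) ((Finset.le_sup hq).trans (le_max_right _ _))
        (fun V u => l V u - ptForm (charts k x) h V u) (fun V => e V - eh k x h V)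
        (hl.sub (forms_ptForm hS hh))
        (by
          intro f g a b hf hg
          rw [LS_sub hl (forms_ptForm hS hh) hS.ne hf hg, he f g a b hf hg,
            LS_ptForm hS hh hf hg, sub_zero]) hk
      linarith)
  refine ⟨fun O => if Loc2 O then h₀ O else 0, fun O hO => if_neg hO, ?_⟩
  intro V hV u hu hub
  have h2 := hh₀ ⟨⟨V, u⟩, hV, hu, hub⟩
  rw [← eqn_sum hS hV hu (h := fun O => if Loc2 O then h₀ O else 0) (fun O hO => if_neg hO)]
  rw [← h2]
  refine Finsupp.sum_congr fun O hO => ?_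
  have h3 : Loc2 O := by
    by_contra hL
    rw [Finsupp.mem_support_iff] at hO
    apply hO
    change (if O ∈ Points (charts k x) ∧ (O : Set F) ⊆ V ∧ Loc2 O then
      (len (curveLoc O V) u : ℚ) else 0) = 0
    exact if_neg fun h => hL h.2.2
  simp only [if_pos h3]

end Pool.Agent.Lib.MP_b197b4_ntK
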