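import Pool.Agent.Lib.MP_b197b4_ntA.ADefs

/-!
# MP_b197b4_nt, project K1, part A: the data for a function on a curve
-/

set_option autoImplicit false

namespace Pool.Agent.Lib.MP_b197b4_ntK

open IsLocalRing

/-- The form `s` contains `V`; `G₁ / G₂` is a power of `u` on `V` and `1` on the other curves of `s`. -/
structure KData (k : Type) {F : Type} [Field k] [Field F] [Algebra k F] {n : ℕ}
    (x : Fin (n + 1) → F) (V : ValuationSubring F) (u : ResidueField V) (m : ℕ) (s w : F) (N : ℕ)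
    (G₁ G₂ : F) : Prop where
  hs : s ∈ hom k x m
  hs0 : s ≠ 0
  hsV : 0 < vh x V m s
  hw : w ∈ Submodule.span k (Set.range x)
  hw0 : w ≠ 0
  hwC : ∀ V' ∈ Curves (charts k x), 0 < vh x V' m s → Gen k x V'.toSubring w
  hN : 0 < N
  hG₁ : G₁ ∈ chartOf k x w
  hG₂ : G₂ ∈ chartOf k x w
  v₁ : ∀ V' ∈ Curves (charts k x), 0 < vh x V' m s → V'.valuation G₁ = 1
  v₂ : ∀ V' ∈ Curves (charts k x), 0 < vh x V' m s → V'.valuation G₂ = 1
  r : res V G₁ = u ^ N * res V G₂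
  o : ∀ V' ∈ Curves (charts k x), 0 < vh x V' m s → V' ≠ V → res V' G₁ = res V' G₂
  ns : ∀ O ∈ Points (charts k x),
    (∃ V' ∈ Curves (charts k x), 0 < vh x V' m s ∧ (O : Set F) ⊆ V') →
    ¬ SmoothAt O {V' | V' ∈ Curves (charts k x) ∧ 0 < vh x V' m s} →
    Gen k x O w ∧ G₁⁻¹ ∈ O ∧ G₂⁻¹ ∈ O

end Pool.Agent.Lib.MP_b197b4_ntK
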