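import Pool.Agent.Lib.MP_b197b4_ntA.ADefs

/-!
# MP_b197b4_nt, project K1, part A: the end of the proof of A''
-/

set_option autoImplicit false

namespace Pool.Agent.Lib.MP_b197b4_ntK

open IsLocalRing

variable {k : Type} {F : Type} [Field k] [Field F] [Algebra k F] {n : ℕ}
  {x : Fin (n + 1) → F}

theorem KE_mu_prime {a : ℕ} {t : F} {V : ValuationSubring F}
    {l : ∀ V : ValuationSubring F, ResidueField V → ℚ} {e : ValuationSubring F → ℚ}
    (hp : PrimeForm k x a t V) (s : F) (b : ℤ) :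
    mu x (Curves (charts k x)) l e t a s b = Lam x l e V s b := by
  classical
  unfold mu
  rw [finsum_eq_single _ V]
  · rw [finsum_eq_if, if_pos hp.curve, hp.one]
    push_cast
    ring
  · intro V' hne
    rw [finsum_eq_if]
    split_ifs with h
    · rw [hp.other V' h hne]
      push_cast
      ring
    · rfl

theorem kill_end (hx : ∀ i, x i ≠ 0) {V : ValuationSubring F} (hV : V ∈ Curves (charts k x))
    {u : ResidueField V} (hu : u ≠ 0) {m : ℕ} {s : F} (hs : s ∈ hom k x m) (hs0 : s ≠ 0)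
    (hsV : 0 < vh x V m s) {M : ℕ} {t₁ t₂ : F} {V₁ V₂ : ValuationSubring F}
    (p₁ : PrimeForm k x M t₁ V₁) (p₂ : PrimeForm k x M t₂ V₂)
    {l : ∀ V : ValuationSubring F, ResidueField V → ℚ} {e : ValuationSubring F → ℚ}
    (hl : Forms k (Curves (charts k x)) l)
    (he : ∀ (f g : F) (a b : ℤ), f ≠ 0 → g ≠ 0 → LS x (Curves (charts k x)) l e f a g b = 0)
    (hK : Kill k x l e M)
    (h1 : ∀ V' ∈ Curves (charts k x), 0 < vh x V' m s → vh x V' M t₁ = 0 ∧ vh x V' M t₂ = 0)
    (h2 : ∀ V' ∈ Curves (charts k x), V' ≠ V → 0 < vh x V' m s →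
      res V' (hat x V' M t₁) = res V' (hat x V' M t₂))
    {N : ℕ} (hN : 0 < N)
    (h3 : res V (hat x V M t₁) = u ^ N * res V (hat x V M t₂))
    (h4 : RegZeros k x V₁ m s) (h5 : RegZeros k x V₂ m s) : l V u = 0 := by
  classical
  have hnn : ∀ V' ∈ Curves (charts k x), 0 ≤ vh x V' m s := fun V' hV' =>
    vh_nonneg (hl.disc V' hV') (hl.base V' hV') hx hs hs0
  have hcop : ∀ t W, PrimeForm k x M t W →
      (∀ V' ∈ Curves (charts k x), 0 < vh x V' m s → vh x V' M t = 0) →
      Copr x (Curves (charts k x)) s m t M := by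
    intro t W hp h
    refine ⟨hs0, hp.ne, fun V' hV' => ⟨hnn V' hV', ?_, ?_⟩⟩
    · exact vh_nonneg (hl.disc V' hV') (hl.base V' hV') hx hp.mem hp.ne
    · rcases (hnn V' hV').eq_or_lt with h0 | h0
      · exact Or.inl h0.symm
      · exact Or.inr (h V' hV' h0)
  have hzero : ∀ t W, PrimeForm k x M t W → RegZeros k x W m s →
      (∀ V' ∈ Curves (charts k x), 0 < vh x V' m s → vh x V' M t = 0) →
      mu x (Curves (charts k x)) l e s m t M = 0 := by
    intro t W hp hr h
    rw [mu_symm hl hx he (hcop t W hp h), KE_mu_prime hp]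
    refine hK t W hp m s hs hs0 ?_ hr
    rcases (hnn W hp.curve).eq_or_lt with h0 | h0
    · exact h0.symm
    · have h6 := h W hp.curve h0
      rw [hp.one] at h6
      exact absurd h6 one_ne_zero
  have e1 := hzero t₁ V₁ p₁ h4 fun V' hV' h => (h1 V' hV' h).1
  have e2 := hzero t₂ V₂ p₂ h5 fun V' hV' h => (h1 V' hV' h).2
  have hd := hl.disc V hV
  have hv : ∀ t, t ≠ 0 → vh x V M t = 0 → V.valuation (hat x V M t) = 1 := by
    intro t ht h
    rw [← ord_eq_zero_iff hd (hat_ne hx V M ht), ord_hat hx hd M ht, h]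
  have hv1 := hv t₁ p₁.ne (h1 V hV hsV).1
  have hv2 := hv t₂ p₂.ne (h1 V hV hsV).2
  have hr2 := (res_ne_zero_iff (mem_of_val_one hv2)).2 hv2
  have e4 : ∀ V' ∈ Curves (charts k x), (vh x V' m s : ℚ) * Lam x l e V' t₁ M =
      (vh x V' m s : ℚ) * Lam x l e V' t₂ M +
        (if V' = V then (vh x V m s : ℚ) * (N * l V u) else 0) := by
    intro V' hV'
    by_cases hne : V' = V
    · subst hne
      rw [if_pos rfl, ← mul_add]
      congr 1
      unfold Lam
      rw [h3, hl.mul V' hV _ _ (pow_ne_zero _ hu) hr2, hl.l_pow hV hu]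
      ring
    · rw [if_neg hne, add_zero]
      rcases (hnn V' hV').eq_or_lt with h0 | h0
      · rw [← h0]
        simp
      · have h6 := h2 V' hV' hne h0
        unfold Lam
        rw [h6]
  have e3 : mu x (Curves (charts k x)) l e s m t₁ M = mu x (Curves (charts k x)) l e s m t₂ M +
      vh x V m s * (N * l V u) := by
    unfold mu
    rw [finsum_mem_congr rfl e4, finsum_mem_add_distrib' (mu_finite hl hx hs0 m t₂ M)]
    · congr 1
      rw [finsum_eq_single _ V]
      · rw [finsum_eq_if, if_pos hV, if_pos rfl]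
      · intro V' hne
        rw [finsum_eq_if]
        split_ifs
        · rfl
        · rfl
    · refine (Set.finite_singleton V).subset ?_
      rintro V' ⟨-, h⟩
      rw [Function.mem_support] at h
      by_contra hne
      exact h (if_neg hne)
  rw [e1, e2, zero_add] at e3
  have h7 : ((vh x V m s : ℤ) : ℚ) ≠ 0 := by exact_mod_cast hsV.ne'
  have h8 : (N : ℚ) ≠ 0 := by exact_mod_cast hN.ne'
  have h9 := e3.symm
  rcases mul_eq_zero.1 h9 with h | h
  · exact absurd h h7
  · rcases mul_eq_zero.1 h with h | h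
    · exact absurd h h8
    · exact h

end Pool.Agent.Lib.MP_b197b4_ntK
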