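import Pool.Agent.Lib.MP_b197b4_ntA.ALeaf
import Pool.Agent.Lib.MP_b197b4_ntA.A5
import Pool.Agent.Lib.MP_b197b4_ntA.KillEnd
import Pool.Agent.Lib.MP_b197b4_ntA.KDefs

/-!
# MP_b197b4_nt, project K1, part A: the second half of the proof of A''
-/

set_option autoImplicit false

namespace Pool.Agent.Lib.MP_b197b4_ntK

open IsLocalRing

variable {k : Type} {F : Type} [Field k] [Field F] [Algebra k F] {n : ℕ}
  {x : Fin (n + 1) → F}

/-- An element of the local ring which is a unit on a curve is a unit. -/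
theorem unitAt_inv_mem {O : Subring F} [IsLocalRing O] {V : ValuationSubring F}
    (hOV : (O : Set F) ⊆ V) {c : F} (hc : c ∈ O) (hu : UnitAt O V (res V c)) : c⁻¹ ∈ O := by
  obtain ⟨a, ha, hac⟩ := hu
  have h1 : V.valuation ((a : F) - c) < 1 := by
    have hm : (a : F) - c ∈ V := sub_mem (hOV a.2) (hOV hc)
    rw [← res_eq_zero_iff hm, res_sub (hOV a.2) (hOV hc), hac, sub_self]
  have h2 : a - ⟨c, hc⟩ ∈ maximalIdeal O := by
    rw [mem_maximalIdeal, mem_nonunits_iff, isUnit_iff_inv]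
    rintro ⟨h0, h3⟩
    have h4 := (ValuationSubring.valuation_le_one_iff V _).2 (hOV h3)
    have h5 : ((a - ⟨c, hc⟩ : O) : F) = (a : F) - c := rfl
    rw [h5] at h4 h0
    rw [map_inv₀] at h4
    have h7 : 0 < V.valuation ((a : F) - c) := zero_lt_iff.2 ((map_ne_zero _).2 h0)
    exact absurd h4 (not_le.2 ((one_lt_inv₀ h7).2 h1))
  have h3 : IsUnit (⟨c, hc⟩ : O) := by
    by_contra hcu
    have h4 : (⟨c, hc⟩ : O) ∈ maximalIdeal O := (mem_maximalIdeal _).2 hcu
    have h5 : a ∈ maximalIdeal O := by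
      have := add_mem h2 h4
      rwa [sub_add_cancel] at this
    exact (mem_maximalIdeal _).1 h5 ha
  exact ((isUnit_iff_inv _).1 h3).2

/-- The points of a curve at which a linear form vanishes are finite in number. -/
theorem finite_not_gen (hS : SurfN k x) {V : ValuationSubring F} (hV : V ∈ Curves (charts k x))
    {w : F} (hw : Gen k x V.toSubring w) :
    {O : Subring F | O ∈ Points (charts k x) ∧ (O : Set F) ⊆ V ∧ ¬ Gen k x O w}.Finite := by
  classical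
  have h1 : (⋃ i ∈ {i : Fin (n + 1) | V.valuation (w / x i) = 1},
      {O : Subring F | O ∈ Points (charts k x) ∧ (O : Set F) ⊆ V ∧
        ¬ UnitAt O V (res V (w / x i))}).Finite := by
    refine (Set.toFinite _).biUnion fun i hi => hS.finite_not_unit hV ?_
    exact (res_ne_zero_iff (mem_of_val_one hi)).2 hi
  refine h1.subset ?_
  rintro O ⟨hO, hOV, hn⟩
  have := hS.local hO
  obtain ⟨i, hi⟩ := gen_of_point (k := k) hS.ne hO
  have hk := point_over (k := k) hO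
  have m1 : w / x i ∈ O := hi.lin hk hw.mem
  have m2 : x i / w ∈ V := hw.lin (curve_over hV) hi.mem
  have hne : w / x i ≠ 0 := div_ne_zero hw.ne hi.ne
  have hval : V.valuation (w / x i) = 1 := by
    refine le_antisymm ((ValuationSubring.valuation_le_one_iff V _).2 (hOV m1)) ?_
    have h2 := (ValuationSubring.valuation_le_one_iff V _).2 m2
    rw [← inv_div, map_inv₀] at h2
    by_contra hcon
    push Not at hcon
    have h7 : 0 < V.valuation (w / x i) := zero_lt_iff.2 ((map_ne_zero _).2 hne)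
    exact absurd h2 (not_le.2 ((one_lt_inv₀ h7).2 hcon))
  refine Set.mem_biUnion (x := i) hval ⟨hO, hOV, fun hu => hn ?_⟩
  have h3 := unitAt_inv_mem hOV m1 hu
  rw [inv_div] at h3
  exact hi.of_div hw.mem hw.ne h3

/-- One of the two prime forms. -/
theorem lift_one [IsAlgClosed k] (hS : SurfN k x) (hP : Pencil k x)
    {C : Set (ValuationSubring F)} (hC : C.Finite) (hCC : ∀ V ∈ C, V ∈ Curves (charts k x))
    (hne : C.Nonempty) {w G : F} (hw : w ∈ Submodule.span k (Set.range x)) (hw0 : w ≠ 0)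
    (hwC : ∀ V ∈ C, Gen k x V.toSubring w) (hG : G ∈ chartOf k x w)
    (hv : ∀ V ∈ C, V.valuation G = 1)
    (hns : ∀ O ∈ Points (charts k x), (∃ V ∈ C, (O : Set F) ⊆ V) → ¬ SmoothAt O C →
      Gen k x O w ∧ G⁻¹ ∈ O) :
    ∃ M₁ : ℕ, ∀ M ≥ M₁, ∃ t V₁, PrimeForm k x M t V₁ ∧
      (∀ V ∈ C, vh x V M t = 0 ∧
        res V (hat x V M t) = res V G * res V (hat x V 1 w) ^ M) ∧
      ∀ O ∈ Points (charts k x), (O : Set F) ⊆ V₁ → (∃ V ∈ C, (O : Set F) ⊆ V) →
        GoodAt O V₁ := by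
  classical
  have hG0 : G ≠ 0 := by
    obtain ⟨V, hV⟩ := hne
    rintro rfl
    have := hv V hV
    rw [map_zero] at this
    exact zero_ne_one this
  obtain ⟨m0, hm0⟩ := exists_common hw hw0 hG
  -- the curves
  have hC' : ({V | V ∈ Curves (charts k x) ∧ ord V G ≠ 0} ∪
      {V | V ∈ Curves (charts k x) ∧ vh x V 1 w ≠ 0}).Finite :=
    (hS.fin hG0).union (vh_finite (D := Curves (charts k x)) (fun f hf => hS.fin hf) hS.ne 1 hw0)
  -- the points
  have hZ : (⋃ V ∈ C, ({O : Subring F | O ∈ Points (charts k x) ∧ (O : Set F) ⊆ V ∧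
        ¬ Gen k x O w} ∪ {O : Subring F | O ∈ Points (charts k x) ∧ (O : Set F) ⊆ V ∧
        ¬ UnitAt O V (res V G)})).Finite := by
    refine hC.biUnion fun V hV => ?_
    exact (finite_not_gen hS (hCC V hV) (hwC V hV)).union
      (hS.finite_not_unit (hCC V hV) ((res_ne_zero_iff (mem_of_val_one (hv V hV))).2 (hv V hV)))
  obtain ⟨M₁, hM₁⟩ := prime_lift_A5 hS hP hC hCC hC' (fun V hV => by
      rcases hV with h | h <;> exact h.1) hZ (fun O hO => by
      simp only [Set.mem_iUnion] at hO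
      obtain ⟨V, hV, h | h⟩ := hO <;> exact h.1) (fun O hO => by
      simp only [Set.mem_iUnion] at hO
      obtain ⟨V, hV, hO'⟩ := hO
      have hO1 : O ∈ Points (charts k x) := by rcases hO' with h | h <;> exact h.1
      have hO2 : (O : Set F) ⊆ V := by rcases hO' with h | h <;> exact h.2.1
      by_contra hcon
      obtain ⟨h1, h2⟩ := hns O hO1 ⟨V, hV, hO2⟩ hcon
      rcases hO' with h | h
      · exact h.2.2 h1
      · refine h.2.2 ⟨⟨G, h1.chart_le (point_over hO1) G hG⟩, ?_, rfl⟩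
        exact (isUnit_iff_inv _).2 ⟨hG0, h2⟩)
  refine ⟨max m0 M₁, fun M hM => ?_⟩
  have hMm : m0 ≤ M := le_trans (le_max_left _ _) hM
  have hMM : M₁ ≤ M := le_trans (le_max_right _ _) hM
  have hg := hm0 M hMm
  have hg0 : G * w ^ M ≠ 0 := mul_ne_zero hG0 (pow_ne_zero _ hw0)
  have hhat : ∀ V : ValuationSubring F, hat x V M (G * w ^ M) = G * hat x V 1 w ^ M := by
    intro V
    unfold hat
    rw [zpow_natCast, zpow_one, div_pow, mul_div_assoc]
  have hvh : ∀ V ∈ Curves (charts k x), vh x V M (G * w ^ M) = ord V G + M * vh x V 1 w := by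
    intro V hV
    have hd := SurfN.dvr hV
    rw [← ord_hat hS.ne hd M hg0, hhat, ord_mul hd hG0 (pow_ne_zero _ (hat_ne hS.ne V 1 hw0)),
      ord_pow hd (hat_ne hS.ne V 1 hw0), ord_hat hS.ne hd 1 hw0]
  have hw1 : ∀ V ∈ C, vh x V 1 w = 0 := by
    intro V hV
    have h1 := ord_div_genA hS (hCC V hV) (hwC V hV) 1 hw0
    rw [pow_one, div_self hw0, ord_one V (SurfN.dvr (hCC V hV))] at h1
    rw [← Nat.cast_one, ← h1]
  have hgC : ∀ V ∈ C, vh x V M (G * w ^ M) = 0 := by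
    intro V hV
    rw [hvh V (hCC V hV), hw1 V hV,
      (ord_eq_zero_iff (SurfN.dvr (hCC V hV)) hG0).2 (hv V hV)]
    simp
  obtain ⟨t, V₁, ht, hres, hgood⟩ := hM₁ M hMM (G * w ^ M) hg hg0 hgC (by
      intro V hV h
      rw [hvh V hV] at h
      by_contra hcon
      apply h
      simp only [Set.mem_union, Set.mem_ofPred_eq, not_or, not_and, not_not] at hcon
      rw [hcon.1 hV, hcon.2 hV]
      simp) (by
      rintro O hO ⟨V, hV, hOV⟩ w' hw' hni
      have := hS.local hO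
      simp only [Set.mem_iUnion]
      refine ⟨V, hV, ?_⟩
      by_contra hcon
      simp only [Set.mem_union, Set.mem_ofPred_eq, not_or, not_and, not_not] at hcon
      have h1 := hcon.1 hO hOV
      have h2 := hcon.2 hO hOV
      have hk := point_over (k := k) hO
      have h3 := unitAt_inv_mem hOV (h1.chart_le hk G hG) h2
      apply hni
      have h4 : (G * w ^ M / w' ^ M)⁻¹ = G⁻¹ * (w' / w) ^ M := by
        rw [mul_div_assoc, ← div_pow, mul_inv, ← inv_pow, inv_div]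
      rw [h4]
      exact mul_mem h3 (pow_mem (h1.lin hk hw'.mem) M))
  refine ⟨t, V₁, ht, fun V hV => ?_, hgood⟩
  have hd := SurfN.dvr (hCC V hV)
  have hk := curve_over (hCC V hV)
  have hwm : hat x V 1 w ∈ V := by
    have := hat_mem hd hk hS.ne (mem_hom_one.2 hw)
    rwa [Nat.cast_one] at this
  have h1 : res V (hat x V M t) = res V G * res V (hat x V 1 w) ^ M := by
    rw [hres V hV, hhat, res_mul (mem_of_val_one (hv V hV)) (pow_mem hwm M), res_pow hwm]
  refine ⟨?_, h1⟩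
  have h2 : V.valuation (hat x V 1 w) = 1 := by
    rw [← ord_eq_zero_iff hd (hat_ne hS.ne V 1 hw0), ord_hat hS.ne hd 1 hw0, hw1 V hV]
  have h3 : res V (hat x V M t) ≠ 0 := by
    rw [h1]
    exact mul_ne_zero ((res_ne_zero_iff (mem_of_val_one (hv V hV))).2 (hv V hV))
      (pow_ne_zero _ ((res_ne_zero_iff hwm).2 h2))
  rw [← ord_hat hS.ne hd M ht.ne, ord_eq_zero_iff hd (hat_ne hS.ne V M ht.ne)]
  exact (res_ne_zero_iff (hat_mem hd hk hS.ne ht.mem)).1 h3

/-- A'', the second half. -/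
theorem kill_of_data [IsAlgClosed k] (hS : SurfN k x) (hP : Pencil k x)
    {V : ValuationSubring F} (hV : V ∈ Curves (charts k x)) {u : ResidueField V} (hu : u ≠ 0)
    {m : ℕ} {s w : F} {N : ℕ} {G₁ G₂ : F} (hD : KData k x V u m s w N G₁ G₂) :
    ∃ M₀ : ℕ, ∀ M ≥ M₀, ∀ (l : ∀ V : ValuationSubring F, ResidueField V → ℚ)
      (e : ValuationSubring F → ℚ), Forms k (Curves (charts k x)) l →
      (∀ (f g : F) (a b : ℤ), f ≠ 0 → g ≠ 0 → LS x (Curves (charts k x)) l e f a g b = 0) →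
      Kill k x l e M → l V u = 0 := by
  classical
  have hC : {V' | V' ∈ Curves (charts k x) ∧ 0 < vh x V' m s}.Finite := by
    refine (vh_finite (D := Curves (charts k x)) (fun f hf => hS.fin hf) hS.ne m hD.hs0).subset ?_
    rintro V' ⟨h1, h2⟩
    exact ⟨h1, h2.ne'⟩
  obtain ⟨M₁, hM₁⟩ := lift_one hS hP hC (fun V' h => h.1) ⟨V, hV, hD.hsV⟩ hD.hw hD.hw0
    (fun V' h => hD.hwC V' h.1 h.2) hD.hG₁ (fun V' h => hD.v₁ V' h.1 h.2) (by
      rintro O hO ⟨V', h, hOV'⟩ hn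
      obtain ⟨a, b, -⟩ := hD.ns O hO ⟨V', h.1, h.2, hOV'⟩ hn
      exact ⟨a, b⟩)
  obtain ⟨M₂, hM₂⟩ := lift_one hS hP hC (fun V' h => h.1) ⟨V, hV, hD.hsV⟩ hD.hw hD.hw0
    (fun V' h => hD.hwC V' h.1 h.2) hD.hG₂ (fun V' h => hD.v₂ V' h.1 h.2) (by
      rintro O hO ⟨V', h, hOV'⟩ hn
      obtain ⟨a, -, b⟩ := hD.ns O hO ⟨V', h.1, h.2, hOV'⟩ hn
      exact ⟨a, b⟩)
  refine ⟨max M₁ M₂, fun M hM l e hl he hK => ?_⟩
  obtain ⟨t₁, V₁, p₁, q₁, r₁⟩ := hM₁ M (le_trans (le_max_left _ _) hM)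
  obtain ⟨t₂, V₂, p₂, q₂, r₂⟩ := hM₂ M (le_trans (le_max_right _ _) hM)
  have hreg : ∀ W : ValuationSubring F, (∀ O ∈ Points (charts k x), (O : Set F) ⊆ W →
      (∃ V' ∈ {V' | V' ∈ Curves (charts k x) ∧ 0 < vh x V' m s}, (O : Set F) ⊆ V') →
        GoodAt O W) → RegZeros k x W m s := by
    intro W hW O hO hOW w' hw' hni
    refine hW O hO hOW ?_
    have hne : s / w' ^ m ≠ 0 := div_ne_zero hD.hs0 (pow_ne_zero _ hw'.ne)
    obtain ⟨V', hV', hOV', hlt⟩ := hS.exists_through hO (hw'.div_mem (point_over hO) hD.hs) hne hni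
    refine ⟨V', ⟨hV', ?_⟩, hOV'⟩
    rw [← ord_div_genA hS hV' (Gen.curve hOV' hw') m hD.hs0]
    exact (ord_pos_iff (SurfN.dvr hV') hne).2 hlt
  refine kill_end hS.ne hV hu hD.hs hD.hs0 hD.hsV p₁ p₂ hl he hK
    (fun V' hV' h => ⟨(q₁ V' ⟨hV', h⟩).1, (q₂ V' ⟨hV', h⟩).1⟩) (fun V' hV' hne h => ?_) hD.hN ?_
    (hreg V₁ r₁) (hreg V₂ r₂)
  · rw [(q₁ V' ⟨hV', h⟩).2, (q₂ V' ⟨hV', h⟩).2, hD.o V' hV' h hne]
  · rw [(q₁ V ⟨hV, hD.hsV⟩).2, (q₂ V ⟨hV, hD.hsV⟩).2, hD.r, mul_assoc]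

end Pool.Agent.Lib.MP_b197b4_ntK
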