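import Pool.Agent.Lib.MP_b197b4_ntA.KUData
import Pool.Agent.Lib.MP_b197b4_ntA.KillData
import Pool.Agent.Lib.MP_b197b4_ntA.Apr
import Pool.Agent.Lib.MP_b197b4_ntA.APt

/-!
# MP_b197b4_nt, project K1, part A: all curves, functions which are units at the bad points
-/

set_option autoImplicit false

namespace Pool.Agent.Lib.MP_b197b4_ntK

open IsLocalRing

variable {k : Type} {F : Type} [Field k] [Field F] [Algebra k F] {n : ℕ}
  {x : Fin (n + 1) → F}

/-- A''. -/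
theorem kill_units (p : ℕ) [Fact p.Prime] [CharP k p] [IsAlgClosed k]
    (htor : ∀ a : k, a ≠ 0 → ∃ N : ℕ, 0 < N ∧ a ^ N = 1) (hS : SurfN k x) (hP : Pencil k x)
    {V : ValuationSubring F} (hV : V ∈ Curves (charts k x)) {u : ResidueField V} (hu : u ≠ 0)
    (hub : ∀ O ∈ Points (charts k x), (O : Set F) ⊆ V → ¬ GoodAt O V → UnitAt O V u) :
    ∃ M₀ : ℕ, ∀ M ≥ M₀, ∀ (l : ∀ V : ValuationSubring F, ResidueField V → ℚ)
      (e : ValuationSubring F → ℚ), Forms k (Curves (charts k x)) l →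
      (∀ (f g : F) (a b : ℤ), f ≠ 0 → g ≠ 0 → LS x (Curves (charts k x)) l e f a g b = 0) →
      Kill k x l e M → l V u = 0 := by
  obtain ⟨m, s, w, N, G₁, G₂, hD⟩ := exists_data p htor hS hV hu hub
  exact kill_of_data hS hP hV hu hD

/-- A'. -/
theorem exists_points_form (p : ℕ) [Fact p.Prime] [CharP k p] [IsAlgClosed k]
    (htor : ∀ a : k, a ≠ 0 → ∃ N : ℕ, 0 < N ∧ a ^ N = 1) (hS : SurfN k x) (hP : Pencil k x)
    {l : ∀ V : ValuationSubring F, ResidueField V → ℚ} {e : ValuationSubring F → ℚ}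
    (hl : Forms k (Curves (charts k x)) l)
    (he : ∀ (f g : F) (a b : ℤ), f ≠ 0 → g ≠ 0 → LS x (Curves (charts k x)) l e f a g b = 0)
    (hK : ∀ M : ℕ, 2 ≤ M → ∃ h : Subring F → ℚ, (∀ O, ¬ Loc2 O → h O = 0) ∧
      Kill k x (fun V u => l V u - ptForm (charts k x) h V u) (fun V => e V - eh k x h V) M) :
    ∃ h : Subring F → ℚ, (∀ O, ¬ Loc2 O → h O = 0) ∧
      ∀ V ∈ Curves (charts k x), ∀ u : ResidueField V, u ≠ 0 →
      (∀ O ∈ Points (charts k x), (O : Set F) ⊆ V → ¬ GoodAt O V → UnitAt O V u) →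
      l V u = ptForm (charts k x) h V u :=
  points_form_of_kill hS (fun _ hV _ hu hub => kill_units p htor hS hP hV hu hub) hl he hK

end Pool.Agent.Lib.MP_b197b4_ntK
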