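import Mathlib
import Pool.Agent.Lib.MP_b197b4_ntK.Norm

/-!
# MP_b197b4_nt, project K1-ALL: definitions

`k` is algebraically closed and algebraic over `𝔽_p`. All the fields are fields of algebraic
functions over `k`; `ord`, `res`, `tame`, `Over`, `IsCurve`, `Curves`, `Points`, `len` are those of
`MP_b197b4_ntK`.
-/

set_option autoImplicit false

namespace Pool.Agent.Lib.MP_b197b4_ntA

open IsLocalRing Pool.Agent.Lib.MP_b197b4_ntK

/-! ## Places of curves -/

/-- `W` is a place of the field `K` (a function field of one variable over `k`). -/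
def Place (k : Type) {K : Type} [Field k] [Field K] [Algebra k K] (W : ValuationSubring K) :
    Prop :=
  IsDiscreteValuationRing W ∧ Over k W

/-- `K` is a field of algebraic functions of `e` variables over `k`. -/
def FunF (k K : Type) [Field k] [Field K] [Algebra k K] (e : ℕ) : Prop :=
  (⊤ : IntermediateField k K).FG ∧ Algebra.trdeg k K = e

/-- The form `l` is given by the function `h` on the places. -/
def GivenK (k : Type) {K : Type} [Field k] [Field K] [Algebra k K] (l : K → ℚ)
    (h : ValuationSubring K → ℚ) : Prop :=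
  ∀ c : K, c ≠ 0 → l c = ∑ᶠ (W) (_ : Place k W), h W * ord W c

/-- **PIC**: divisors of degree zero on a curve are torsion. -/
def Pic (k : Type) [Field k] : Prop :=
  ∀ (K : Type) [Field K] [Algebra k K], FunF k K 1 → ∀ W W' : ValuationSubring K, Place k W →
    Place k W' → W ≠ W' → ∃ (c : K) (M : ℕ), c ≠ 0 ∧ 0 < M ∧ ord W c = M ∧ ord W' c = -M ∧
      ∀ W'' : ValuationSubring K, Place k W'' → W'' ≠ W → W'' ≠ W' → ord W'' c = 0

/-! ## Surfaces -/

section

variable (k : Type) {E : Type} [Field k] [Field E] [Algebra k E]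

/-- The residue class of `y` is a constant. -/
def Const (V : ValuationSubring E) (y : E) : Prop := ∃ c : k, res V y = res V (algebraMap k E c)

/-- Divisorial valuation rings (`E` is a function field of two variables): discrete valuation rings
whose residue field is not `k`. -/
def IsDiv (V : ValuationSubring E) : Prop :=
  IsDiscreteValuationRing V ∧ Over k V ∧ ∃ y ∈ V, ¬ Const k V y

/-- The centre of `V` on the projective surface with homogeneous coordinates `x` is a closed
point. -/
def CenPt {n : ℕ} (x : Fin (n + 1) → E) (V : ValuationSubring E) : Prop :=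
  ∃ i, x i ≠ 0 ∧ ∀ j, x j / x i ∈ V ∧ Const k V (x j / x i)

/-- Forms on the divisorial valuation rings of `E`, zero on those whose centre on the projective
surface with homogeneous coordinates `x` is a closed point, which kill the tame symbols. -/
structure Good {n : ℕ} (x : Fin (n + 1) → E)
    (l : ∀ V : ValuationSubring E, ResidueField V → ℚ) : Prop where
  fun2 : FunF k E 2
  gen : ∃ i, x i ≠ 0 ∧ ∀ e : E, ∃ a ∈ Algebra.adjoin k (Set.range fun j => x j / x i),
    ∃ b ∈ Algebra.adjoin k (Set.range fun j => x j / x i), b ≠ 0 ∧ e = a / b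
  mul : ∀ V, IsDiv k V → ∀ a b : ResidueField V, a ≠ 0 → b ≠ 0 → l V (a * b) = l V a + l V b
  pt : ∀ V, IsDiv k V → CenPt k x V → ∀ a : ResidueField V, a ≠ 0 → l V a = 0
  recip : ∀ f g : E, f ≠ 0 → g ≠ 0 → ∑ᶠ (V) (_ : IsDiv k V), l V (tame V f g) = 0

/-- The maximal ideal `m` of `B` is a regular point. -/
def RegMax {B : Type} [CommRing B] (m : Ideal B) : Prop :=
  m.IsMaximal ∧ ∀ _ : m.IsPrime, IsRegularLocalRing (Localization.AtPrime m)

end

/-- **LTP**: local theorem for arbitrary surfaces `Spec B`, at their regular points, in terms of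
places. (From `LTnorm`, `Pic` and projective normal models.) -/
def LTP (k : Type) [Field k] : Prop :=
  ∀ (E : Type) [Field E] [Algebra k E] (n : ℕ) (x : Fin (n + 1) → E)
    (l : ∀ V : ValuationSubring E, ResidueField V → ℚ), Good k x l →
    ∀ B : Subalgebra k E, B.FG → IsFractionRing B E → (∃ i, x i ≠ 0 ∧ ∀ j, x j / x i ∈ B) →
    ∃ h : Ideal B → ℚ, ∀ V, IsCurve B V → ∀ hV, Given k l V hV →
      ∀ W W' m m', IsPlace k V W → IsPlace k V W' → RegMax m → RegMax m' →
        Center B V W m → Center B V W' m' → RegAt B V W → RegAt B V W' →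
        hV W - hV W' = h m - h m'

/-! ## Higher dimension: affine charts -/

section

variable {k : Type} {F : Type} [Field k] [Field F] [Algebra k F]

/-- Forms `l P` on the residue fields of the prime ideals `P` of `A` of coheight one (as functions
on `A` minus `P`), such that for every surface, that is every homomorphism `φ` from `A` to a
function field `E` of two variables generated by its image, there are forms on the divisorial
valuation rings of `E` which kill the tame symbols, vanish if the centre on a projective model `x`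
dominated by `Spec A` is a closed point, and are compatible with the `l P`. -/
structure Lam (k : Type) {F : Type} [Field k] [Field F] [Algebra k F] (A : Subalgebra k F)
    (l : Ideal A → A → ℚ) : Prop where
  mul : ∀ P : Ideal A, P.IsPrime → ringKrullDim (A ⧸ P) = 1 → ∀ a b : A, a ∉ P → b ∉ P →
    l P (a * b) = l P a + l P b
  cong : ∀ P : Ideal A, P.IsPrime → ringKrullDim (A ⧸ P) = 1 → ∀ a b : A, a ∉ P → a - b ∈ P →
    l P a = l P b
  surf : ∀ (E : Type) [Field E] [Algebra k E] (φ : A →ₐ[k] E), FunF k E 2 →
    (∀ e : E, ∃ a b : A, φ b ≠ 0 ∧ e = φ a / φ b) →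
    ∃ (n : ℕ) (x : Fin (n + 1) → E) (lS : ∀ V : ValuationSubring E, ResidueField V → ℚ),
      Good k x lS ∧ (∃ i, x i ≠ 0 ∧ ∀ j, ∃ a : A, x j / x i = φ a) ∧
        ∀ V : ValuationSubring E, IsCurve φ.range V → ∀ P : Ideal A,
          (∀ a, a ∈ P ↔ res V (φ a) = 0) → ∀ a b : A, a ∉ P → b ∉ P →
            lS V (res V (φ a) / res V (φ b)) = l P a - l P b

/-- The place `W` of the curve given by `ψ : A → K` lies over the closed point `m`. -/
def CenterK {A : Subalgebra k F} {K : Type} [Field K] [Algebra k K] (ψ : A →ₐ[k] K)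
    (W : ValuationSubring K) (m : Ideal A) : Prop :=
  ∀ a : A, ψ a ∈ W ∧ (a ∈ m ↔ W.valuation (ψ a) < 1)

/-- The local ring of the curve given by `ψ` at the centre of `W` is `W`. -/
def RegK {A : Subalgebra k F} {K : Type} [Field K] [Algebra k K] (ψ : A →ₐ[k] K)
    (W : ValuationSubring K) : Prop :=
  ∀ y ∈ W, ∃ a s : A, W.valuation (ψ s) = 1 ∧ y = ψ a / ψ s

/-- A curve on `Spec A`, its form `lK` and its function `hK` on the places. -/
structure CurveK (k : Type) {F : Type} [Field k] [Field F] [Algebra k F] (A : Subalgebra k F)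
    (l : Ideal A → A → ℚ) {K : Type} [Field K] [Algebra k K] (ψ : A →ₐ[k] K) (lK : K → ℚ)
    (hK : ValuationSubring K → ℚ) : Prop where
  fun1 : FunF k K 1
  gen : ∀ e : K, ∃ a b : A, ψ b ≠ 0 ∧ e = ψ a / ψ b
  compat : ∀ a b : A, ψ a ≠ 0 → ψ b ≠ 0 →
    lK (ψ a / ψ b) = l (RingHom.ker ψ) a - l (RingHom.ker ψ) b
  given : GivenK k lK hK

/-- **(G)** The values at the regular points: `h` works for all curves and all their places at which
the curve and `Spec A` are regular. -/
def GReg (k : Type) {F : Type} [Field k] [Field F] [Algebra k F] (A : Subalgebra k F)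
    (l : Ideal A → A → ℚ) (h : Ideal A → ℚ) : Prop :=
  ∀ (K : Type) [Field K] [Algebra k K] (ψ : A →ₐ[k] K) (lK : K → ℚ)
    (hK : ValuationSubring K → ℚ), CurveK k A l ψ lK hK →
    ∀ W W' m m', Place k W → Place k W' → RegMax m → RegMax m' → CenterK ψ W m →
      CenterK ψ W' m' → RegK ψ W → RegK ψ W' → hK W - hK W' = h m - h m'

/-- **(G')** The same for all places over regular points of `Spec A`. -/
def GAll (k : Type) {F : Type} [Field k] [Field F] [Algebra k F] (A : Subalgebra k F)
    (l : Ideal A → A → ℚ) (h : Ideal A → ℚ) : Prop :=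
  ∀ (K : Type) [Field K] [Algebra k K] (ψ : A →ₐ[k] K) (lK : K → ℚ)
    (hK : ValuationSubring K → ℚ), CurveK k A l ψ lK hK →
    ∀ W W' m m', Place k W → Place k W' → RegMax m → RegMax m' → CenterK ψ W m →
      CenterK ψ W' m' → hK W - hK W' = h m - h m'

/-- An affine chart of dimension `d`. -/
structure DChart (d : ℕ) (A : Subalgebra k F) : Prop where
  fg : A.FG
  frac : IsFractionRing A F
  height : ∀ m : Ideal A, m.IsMaximal → m.height = d

end

end Pool.Agent.Lib.MP_b197b4_ntA
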