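import Mathlib
import Pool.Agent.Lib.MP_b197b4_ntA.Defs
import Pool.Agent.Lib.MP_b197b4_ntK.Ord

/-!
# MP_b197b4_nt, project K1-ALL: forms on curves are given by functions on the places
-/

set_option autoImplicit false

namespace Pool.Agent.Lib.MP_b197b4_ntA

open IsLocalRing Pool.Agent.Lib.MP_b197b4_ntK

section C1

variable {k K : Type} [Field k] [Field K] [Algebra k K]

/-- A separating element. -/
theorem C1_sep [IsAlgClosed k] (hK : FunF k K 1) : ∃ t : K, Transcendental k t ∧
    Algebra.IsSeparable (IntermediateField.adjoin k {t}) K ∧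
    FiniteDimensional (IntermediateField.adjoin k {t}) K := by
  have h0 : Algebra.EssFiniteType k K := IntermediateField.fg_top_iff.1 hK.1
  obtain ⟨s, hs, hsep⟩ := exists_isTranscendenceBasis_and_isSeparable_of_perfectField (k := k)
    (K := K)
  have hc : Cardinal.mk s = 1 := by
    have := hs.cardinalMk_eq_trdeg
    rw [hK.2] at this
    exact_mod_cast this
  have hs1 : s.card = 1 := by
    rw [Cardinal.mk_coe_finset] at hc
    exact_mod_cast hc
  obtain ⟨t, rfl⟩ := Finset.card_eq_one.1 hs1
  rw [Finset.coe_singleton] at hsep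
  refine ⟨t, ?_, hsep, ?_⟩
  · have h1 := hs.1
    have h2 := h1.transcendental ⟨t, Finset.mem_singleton_self t⟩
    exact h2
  · have h1 : Algebra.EssFiniteType (IntermediateField.adjoin k {t}) K :=
      Algebra.EssFiniteType.of_comp k _ K
    obtain ⟨S, hS⟩ := IntermediateField.fg_top_iff.2 h1
    have h2 : FiniteDimensional (IntermediateField.adjoin k {t})
        (IntermediateField.adjoin (IntermediateField.adjoin k {t}) (S : Set K)) :=
      IntermediateField.finiteDimensional_adjoin fun x _ => Algebra.IsIntegral.isIntegral x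
    rw [hS] at h2
    exact Module.Finite.equiv IntermediateField.topEquiv.toLinearEquiv

/-- The ring `k[t]` is a Dedekind domain. -/
theorem C1_dedekind {t : K} (ht : Transcendental k t) :
    IsDedekindDomain (Algebra.adjoin k {t}) := by
  have e : Polynomial k ≃ₐ[k] Algebra.adjoin k {t} :=
    (AlgEquiv.ofInjective (Polynomial.aeval t) (transcendental_iff_injective.1 ht)).trans
      (Subalgebra.equivOfEq _ _ (Algebra.adjoin_singleton_eq_range_aeval k t).symm)
  have h := IsPrincipalIdealRing.of_surjective e.toRingEquiv e.toRingEquiv.surjective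
  infer_instance

open scoped IntermediateField.algebraAdjoinAdjoin in
/-- Valuation rings of function fields of one variable are discrete. -/
theorem C1_loc {t : K} (ht : Transcendental k t)
    (hsep : Algebra.IsSeparable (IntermediateField.adjoin k {t}) K)
    (hfin : FiniteDimensional (IntermediateField.adjoin k {t}) K) (W : ValuationSubring K)
    (hW : Over k W) (htW : t ∈ W) (hne : W ≠ ⊤) : IsDiscreteValuationRing W ∧
    (∀ b : integralClosure (Algebra.adjoin k {t}) K, (b : K) ∈ W) ∧
    ∀ x ∈ W, ∃ a b : integralClosure (Algebra.adjoin k {t}) K, (b : K) ≠ 0 ∧ (b : K)⁻¹ ∈ W ∧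
      x = (a : K) / (b : K) := by
  have hA := C1_dedekind ht
  have hB : IsDedekindDomain (integralClosure (Algebra.adjoin k {t}) K) :=
    integralClosure.isDedekindDomain (Algebra.adjoin k {t}) (IntermediateField.adjoin k {t}) K
  have hF : IsFractionRing (integralClosure (Algebra.adjoin k {t}) K) K :=
    integralClosure.isFractionRing_of_finite_extension (A := Algebra.adjoin k {t})
      (K := IntermediateField.adjoin k {t}) (L := K)
  have hAW : ∀ a ∈ Algebra.adjoin k {t}, a ∈ W := by
    intro a ha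
    induction ha using Algebra.adjoin_induction with
    | mem x hx =>
      rw [Set.mem_singleton_iff] at hx
      rw [hx]
      exact htW
    | algebraMap r => exact hW r
    | add x y _ _ hx hy => exact add_mem hx hy
    | mul x y _ _ hx hy => exact mul_mem hx hy
  have hBW : ∀ b : integralClosure (Algebra.adjoin k {t}) K, (b : K) ∈ W := by
    intro b
    obtain ⟨p, hp, hp0⟩ := b.2
    have h1 : IsIntegral W (b : K) := by
      refine ⟨p.map (⟨⟨⟨fun a => ⟨(a : K), hAW _ a.2⟩, rfl⟩, fun _ _ => rfl⟩, rfl, fun _ _ => rfl⟩ :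
        Algebra.adjoin k {t} →+* W), hp.map _, ?_⟩
      rw [Polynomial.eval₂_map]
      exact hp0
    obtain ⟨y, hy⟩ := IsIntegrallyClosed.isIntegral_iff.1 h1
    rw [← hy]
    exact y.2
  obtain ⟨B, hBd⟩ : ∃ B : Subalgebra (Algebra.adjoin k {t}) K,
      B = integralClosure (Algebra.adjoin k {t}) K := ⟨_, rfl⟩
  rw [← hBd] at hB hF hBW ⊢
  let φ : B →+* W := ⟨⟨⟨fun b => ⟨(b : K), hBW b⟩, rfl⟩, fun _ _ => rfl⟩, rfl, fun _ _ => rfl⟩
  obtain ⟨P, hP⟩ : ∃ P : Ideal B, P = (maximalIdeal W).comap φ := ⟨_, rfl⟩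
  have hPp : P.IsPrime := by
    rw [hP]
    exact Ideal.comap_isPrime φ _
  have hmem : ∀ b : B, b ∈ P ↔ ¬ IsUnit (φ b) := by
    intro b
    rw [hP, Ideal.mem_comap, mem_maximalIdeal, mem_nonunits_iff]
  have hinv : ∀ b : B, b ∉ P → ((b : K))⁻¹ ∈ W := by
    intro b hb
    rw [hmem, not_not] at hb
    obtain ⟨u, hu⟩ := hb
    have h1 : (b : K) = ((u : W) : K) := by
      rw [hu]
      rfl
    have h2 : ((b : K))⁻¹ = (((u⁻¹ : Wˣ) : W) : K) := by
      rw [h1, inv_eq_iff_eq_inv, eq_comm]
      apply inv_eq_of_mul_eq_one_right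
      have : ((u⁻¹ : Wˣ) : W) * (u : W) = 1 := Units.inv_mul u
      exact congrArg Subtype.val this
    rw [h2]
    exact ((u⁻¹ : Wˣ) : W).2
  have hP0 : P ≠ ⊥ := by
    intro h0
    apply hne
    rw [eq_top_iff]
    intro x _
    obtain ⟨a, b, hb, rfl⟩ := IsFractionRing.div_surjective (A := B) x
    rw [div_eq_mul_inv]
    refine mul_mem (hBW a) (hinv b ?_)
    rw [h0, Ideal.mem_bot]
    exact nonZeroDivisors.ne_zero hb
  let R := Localization.subalgebra.ofField K P.primeCompl P.primeCompl_le_nonZeroDivisors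
  have hloc : IsLocalization.AtPrime R P :=
    Localization.subalgebra.isLocalization_ofField K P.primeCompl P.primeCompl_le_nonZeroDivisors
  have hfrac : IsFractionRing R K :=
    Localization.subalgebra.isFractionRing_ofField K P.primeCompl P.primeCompl_le_nonZeroDivisors
  have hR : IsDiscreteValuationRing R :=
    IsLocalization.AtPrime.isDiscreteValuationRing_of_dedekind_domain B hP0 R
  have hrep : ∀ x : K, x ∈ R ↔ ∃ a b : B, b ∉ P ∧ x = (a : K) / (b : K) := by
    intro x
    show x ∈ Localization.subalgebra.ofField K P.primeCompl P.primeCompl_le_nonZeroDivisors ↔ _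
    constructor
    · rintro ⟨a, b, hb, rfl⟩
      exact ⟨a, b, hb, by rw [div_eq_mul_inv]; rfl⟩
    · rintro ⟨a, b, hb, rfl⟩
      exact ⟨a, b, hb, by rw [div_eq_mul_inv]; rfl⟩
  have hRW : ∀ x ∈ R, x ∈ W := by
    intro x hx
    obtain ⟨a, b, hb, rfl⟩ := (hrep x).1 hx
    rw [div_eq_mul_inv]
    exact mul_mem (hBW a) (hinv b hb)
  have hWR : ∀ x ∈ W, x ∈ R := by
    intro x hx
    by_contra hxR
    have h1 : x⁻¹ ∈ R := by
      rcases ValuationRing.isInteger_or_isInteger R x with ⟨y, hy⟩ | ⟨y, hy⟩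
      · exact absurd (by rw [← hy]; exact y.2) hxR
      · rw [← hy]
        exact y.2
    obtain ⟨a, b, hb, hab⟩ := (hrep _).1 h1
    have ha : a ∈ P := by
      by_contra ha
      apply hxR
      rw [hrep]
      refine ⟨b, a, ha, ?_⟩
      rw [← inv_inv x, hab, inv_div]
    rw [hmem] at ha
    apply ha
    have hx0 : x ≠ 0 := by
      rintro rfl
      exact hxR (zero_mem R)
    have hb0 : (b : K) ≠ 0 := by
      intro h
      apply hb
      have : b = 0 := Subtype.ext h
      rw [this]
      exact zero_mem P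
    have ha1 : (a : K) * (x * ((b : K))⁻¹) = 1 := by
      have h2 : (a : K) = x⁻¹ * (b : K) := by
        rw [hab, div_mul_cancel₀ _ hb0]
      rw [h2]
      field_simp
    exact IsUnit.of_mul_eq_one (⟨x * ((b : K))⁻¹, mul_mem hx (hinv b hb)⟩ : W) (Subtype.ext ha1)
  let e : R ≃+* W :=
    { toFun := fun x => ⟨x.1, hRW _ x.2⟩
      invFun := fun x => ⟨x.1, hWR _ x.2⟩
      left_inv := fun _ => rfl
      right_inv := fun _ => rfl
      map_mul' := fun _ _ => rfl
      map_add' := fun _ _ => rfl }
  refine ⟨IsDiscreteValuationRing.RingEquivClass.isDiscreteValuationRing e, hBW, ?_⟩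
  intro x hx
  obtain ⟨a, b, hb, hab⟩ := (hrep x).1 (hWR x hx)
  refine ⟨a, b, ?_, hinv b hb, hab⟩
  intro h
  apply hb
  have : b = 0 := Subtype.ext h
  rw [this]
  exact zero_mem P

open scoped IntermediateField.algebraAdjoinAdjoin in
/-- Finitely many places above the affine line over which a function has a zero or a pole. -/
theorem C1_fin' {t : K} (ht : Transcendental k t)
    (hsep : Algebra.IsSeparable (IntermediateField.adjoin k {t}) K)
    (hfin : FiniteDimensional (IntermediateField.adjoin k {t}) K) (c : K) (hc : c ≠ 0) :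
    {W | Place k W ∧ t ∈ W ∧ ord W c ≠ 0}.Finite := by
  have hA := C1_dedekind ht
  have hB : IsDedekindDomain (integralClosure (Algebra.adjoin k {t}) K) :=
    integralClosure.isDedekindDomain (Algebra.adjoin k {t}) (IntermediateField.adjoin k {t}) K
  have hF : IsFractionRing (integralClosure (Algebra.adjoin k {t}) K) K :=
    integralClosure.isFractionRing_of_finite_extension (A := Algebra.adjoin k {t})
      (K := IntermediateField.adjoin k {t}) (L := K)
  have hloc := fun W : ValuationSubring K => fun hW : Over k W => fun htW : t ∈ W =>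
    fun hne : W ≠ ⊤ => C1_loc ht hsep hfin W hW htW hne
  obtain ⟨B, hBd⟩ : ∃ B : Subalgebra (Algebra.adjoin k {t}) K,
      B = integralClosure (Algebra.adjoin k {t}) K := ⟨_, rfl⟩
  rw [← hBd] at hB hF hloc
  obtain ⟨a, b, hb, hab⟩ := IsFractionRing.div_surjective (A := B) c
  have hb0 : (b : K) ≠ 0 := fun h => nonZeroDivisors.ne_zero hb (Subtype.ext h)
  have ha0 : (a : K) ≠ 0 := by
    intro h
    apply hc
    rw [← hab]
    show (a : K) / (b : K) = 0
    rw [h, zero_div]
  have hI : Ideal.span {a * b} ≠ (0 : Ideal B) := by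
    rw [Ideal.zero_eq_bot, Ne, Ideal.span_singleton_eq_bot]
    intro h
    rcases mul_eq_zero.1 h with h | h
    · exact ha0 (by rw [h]; rfl)
    · exact hb0 (by rw [h]; rfl)
  have hfac := Ideal.finite_factors hI
  have hnt : ∀ W : ValuationSubring K, Place k W → W ≠ ⊤ := by
    rintro W hW rfl
    obtain ⟨π, hπ⟩ := @IsDiscreteValuationRing.exists_irreducible _ _ _ hW.1
    apply hπ.not_isUnit
    have h0 : (π : K) ≠ 0 := fun h => hπ.ne_zero (Subtype.ext h)
    exact IsUnit.of_mul_eq_one (⟨(π : K)⁻¹, ValuationSubring.mem_top _⟩ : (⊤ : ValuationSubring K))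
      (Subtype.ext (mul_inv_cancel₀ h0))
  obtain ⟨f, hf⟩ : ∃ f : ValuationSubring K → Set B, ∀ W, ∀ x : B,
      x ∈ f W ↔ ((x : K) = 0 ∨ (x : K)⁻¹ ∉ W) :=
    ⟨fun W => {x | (x : K) = 0 ∨ (x : K)⁻¹ ∉ W}, fun _ _ => Iff.rfl⟩
  refine Set.Finite.of_injOn (f := f) (t := (fun v : IsDedekindDomain.HeightOneSpectrum B =>
    (v.asIdeal : Set B)) '' {v | v.asIdeal ∣ Ideal.span {a * b}}) ?_ ?_ (hfac.image _)
  · rintro W ⟨hW, htW, hord⟩
    obtain ⟨hd, hBW, hrep⟩ := hloc W hW.2 htW (hnt W hW)
    let φ : B →+* W := ⟨⟨⟨fun b => ⟨(b : K), hBW b⟩, rfl⟩, fun _ _ => rfl⟩, rfl, fun _ _ => rfl⟩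
    obtain ⟨P, hP⟩ : ∃ P : Ideal B, P = (maximalIdeal W).comap φ := ⟨_, rfl⟩
    have hPp : P.IsPrime := by
      rw [hP]
      exact Ideal.comap_isPrime φ _
    have hmem : ∀ x : B, x ∈ P ↔ x ∈ f W := by
      intro x
      rw [hP, Ideal.mem_comap, mem_maximalIdeal, mem_nonunits_iff, hf]
      constructor
      · intro h
        by_contra hne
        push Not at hne
        exact h (IsUnit.of_mul_eq_one (⟨(x : K)⁻¹, hne.2⟩ : W)
          (Subtype.ext (mul_inv_cancel₀ hne.1)))
      · rintro h ⟨u, hu⟩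
        have h1 : (x : K) * (((u⁻¹ : Wˣ) : W) : K) = 1 := by
          have h2 : (φ x) * ((u⁻¹ : Wˣ) : W) = 1 := by
            rw [← hu]
            exact Units.mul_inv u
          exact congrArg Subtype.val h2
        rcases h with h | h
        · rw [h, zero_mul] at h1
          exact zero_ne_one h1
        · apply h
          rw [inv_eq_of_mul_eq_one_right h1]
          exact ((u⁻¹ : Wˣ) : W).2
    have habP : a * b ∈ P := by
      rw [hmem, hf]
      right
      intro h
      have h1 : ((a * b : B) : K) = (a : K) * (b : K) := rfl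
      rw [h1] at h
      have h2 := (ord_nonneg_iff hd (inv_ne_zero (mul_ne_zero ha0 hb0))).2 h
      rw [ord_inv hd (mul_ne_zero ha0 hb0), ord_mul hd ha0 hb0] at h2
      have h3 := (ord_nonneg_iff hd ha0).2 (hBW a)
      have h4 := (ord_nonneg_iff hd hb0).2 (hBW b)
      apply hord
      have h5 : c = (a : K) / (b : K) := hab.symm
      rw [h5, ord_div hd ha0 hb0]
      omega
    have hP0 : P ≠ ⊥ := by
      intro h0
      rw [h0, Ideal.mem_bot] at habP
      rcases mul_eq_zero.1 habP with h | h
      · exact ha0 (by rw [h]; rfl)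
      · exact hb0 (by rw [h]; rfl)
    refine ⟨⟨P, hPp, hP0⟩, ?_, ?_⟩
    · show P ∣ Ideal.span {a * b}
      rw [Ideal.dvd_span_singleton]
      exact habP
    · ext x
      exact hmem x
  · rintro W ⟨hW, htW, _⟩ W' ⟨hW', htW', _⟩ hWW
    have key : ∀ W W' : ValuationSubring K, Place k W → t ∈ W → Place k W' → t ∈ W' →
        f W = f W' → ∀ x ∈ W, x ∈ W' := by
      intro W W' hW htW hW' htW' hWW x hx
      obtain ⟨a', b', hb', hb'W, rfl⟩ := (hloc W hW.2 htW (hnt W hW)).2.2 x hx
      have h1 : b' ∉ f W := by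
        rw [hf]
        push Not
        exact ⟨hb', hb'W⟩
      rw [hWW, hf] at h1
      push Not at h1
      rw [div_eq_mul_inv]
      exact mul_mem ((hloc W' hW'.2 htW' (hnt W' hW')).2.1 a') h1.2
    ext x
    exact ⟨key W W' hW htW hW' htW' hWW x, key W' W hW' htW' hW htW hWW.symm x⟩

theorem C1_adjoin_inv (t : K) :
    IntermediateField.adjoin k {t⁻¹} = IntermediateField.adjoin k {t} := by
  apply le_antisymm
  · rw [IntermediateField.adjoin_simple_le_iff]
    exact inv_mem (IntermediateField.mem_adjoin_simple_self k t)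
  · rw [IntermediateField.adjoin_simple_le_iff]
    have h := inv_mem (IntermediateField.mem_adjoin_simple_self k t⁻¹)
    rwa [inv_inv] at h

/-- Valuation rings of function fields of one variable are discrete. -/
theorem C1_dvr [IsAlgClosed k] (hK : FunF k K 1) (W : ValuationSubring K) (hW : Over k W)
    (hne : W ≠ ⊤) : IsDiscreteValuationRing W := by
  obtain ⟨t, ht, hsep, hfin⟩ := C1_sep hK
  rcases W.mem_or_inv_mem t with h | h
  · exact (C1_loc ht hsep hfin W hW h hne).1
  · rw [← C1_adjoin_inv] at hsep hfin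
    refine (C1_loc ?_ hsep hfin W hW h hne).1
    intro h1
    apply ht
    have h2 := h1.inv
    rwa [inv_inv] at h2

/-- An element has finitely many zeros and poles. -/
theorem C1_fin [IsAlgClosed k] (hK : FunF k K 1) (c : K) (hc : c ≠ 0) :
    {W | Place k W ∧ ord W c ≠ 0}.Finite := by
  obtain ⟨t, ht, hsep, hfin⟩ := C1_sep hK
  have h1 := C1_fin' ht hsep hfin c hc
  have ht' : Transcendental k t⁻¹ := by
    intro h1
    apply ht
    have h2 := h1.inv
    rwa [inv_inv] at h2
  rw [← C1_adjoin_inv] at hsep hfin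
  have h2 := C1_fin' ht' hsep hfin c hc
  refine (h1.union h2).subset ?_
  rintro W ⟨hW, hord⟩
  rcases W.mem_or_inv_mem t with h | h
  · exact Or.inl ⟨hW, h, hord⟩
  · exact Or.inr ⟨hW, h, hord⟩

/-- A function without zeros and poles is constant. -/
theorem C1_const [IsAlgClosed k] (hK : FunF k K 1) (c : K)
    (h : ∀ W : ValuationSubring K, Place k W → ord W c = 0) : ∃ a : k, algebraMap k K a = c := by
  by_cases hc : c = 0
  · exact ⟨0, by rw [hc, map_zero]⟩
  have h1 : c ∈ (⨅ V : {V : ValuationSubring K // Set.range (algebraMap k K) ⊆ V.toSubring},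
      V.1.toSubring) := by
    rw [Subring.mem_iInf]
    rintro ⟨V, hV⟩
    show c ∈ V
    have hVk : Over k V := fun a => hV ⟨a, rfl⟩
    by_cases hT : V = ⊤
    · rw [hT]
      exact ValuationSubring.mem_top c
    · have hd := C1_dvr hK V hVk hT
      rw [← ord_nonneg_iff hd hc, h V ⟨hd, hVk⟩]
  rw [iInf_valuationSubring_superset] at h1
  have h2 : IsIntegral (Subring.closure (Set.range (algebraMap k K))) c := h1
  obtain ⟨p, hp, hp0⟩ := h2
  have h4 : IsIntegral k c := by
    have h5 : IsIntegral (algebraMap k K).range c := by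
      have h3 : Subring.closure (Set.range (algebraMap k K)) ≤ (algebraMap k K).range := by
        rw [Subring.closure_le]
        rintro _ ⟨a, rfl⟩
        exact ⟨a, rfl⟩
      refine ⟨p.map (Subring.inclusion h3), hp.map _, ?_⟩
      rw [Polynomial.eval₂_map]
      exact hp0
    obtain ⟨q, hq, hq0⟩ := h5
    have h7 : q ∈ Polynomial.lifts (algebraMap k K).rangeRestrict := by
      rw [Polynomial.lifts_iff_coeff_lifts]
      intro i
      exact (algebraMap k K).rangeRestrict_surjective _
    obtain ⟨r, hr, hrd, hrm⟩ := Polynomial.lifts_and_natDegree_eq_and_monic h7 hq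
    refine ⟨r, hrm, ?_⟩
    rw [← hr, Polynomial.eval₂_map] at hq0
    exact hq0
  have h8 := IsAlgClosed.degree_eq_one_of_irreducible k (minpoly.irreducible h4)
  obtain ⟨a, ha⟩ := minpoly.mem_range_of_degree_eq_one k c h8
  exact ⟨a, ha⟩

/-- Extension of additive maps to `ℚ`. -/
theorem C1_ext {G V : Type} [AddCommGroup G] [AddCommGroup V] (D : G →+ V) (l : G →+ ℚ)
    (h : ∀ g, D g = 0 → l g = 0) : ∃ φ : V →+ ℚ, ∀ g, φ (D g) = l g := by
  have hb : Module.Baer ℤ ℚ := Module.Baer.of_divisible ℚ
  obtain ⟨φ, hφ⟩ := hb.extension_property_addMonoidHom (QuotientAddGroup.kerLift D)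
    (QuotientAddGroup.kerLift_injective D) (QuotientAddGroup.lift D.ker l h)
  refine ⟨φ, fun g => ?_⟩
  have h1 := congrArg (fun f : G ⧸ D.ker →+ ℚ => f (g : G ⧸ D.ker)) hφ
  exact h1

/-- The statement, from the finiteness of the sets of zeros and poles. -/
theorem C1_given [IsAlgClosed k]
    (halg : ∃ p : ℕ, p.Prime ∧ ∀ a : k, ∃ m : ℕ, 0 < m ∧ a ^ p ^ m = a) (hK : FunF k K 1)
    (hfin : ∀ c : K, c ≠ 0 → {W | Place k W ∧ ord W c ≠ 0}.Finite) (l : K → ℚ)
    (hl : ∀ a b : K, a ≠ 0 → b ≠ 0 → l (a * b) = l a + l b) : ∃ h, GivenK k l h := by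
  classical
  obtain ⟨D, hD⟩ : ∃ D : Kˣ → ValuationSubring K →₀ ℤ, ∀ c W,
      D c W = if Place k W then ord W (c : K) else 0 := by
    refine ⟨fun c => Finsupp.ofSupportFinite (fun W => if Place k W then ord W (c : K) else 0)
      ((hfin c c.ne_zero).subset ?_), fun c W => rfl⟩
    intro W hW
    rw [Function.mem_support] at hW
    by_cases hp : Place k W
    · rw [if_pos hp] at hW
      exact ⟨hp, hW⟩
    · rw [if_neg hp] at hW
      exact absurd rfl hW
  have hDm : ∀ c d, D (c * d) = D c + D d := by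
    intro c d
    ext W
    rw [Finsupp.add_apply, hD, hD, hD]
    split_ifs with hp
    · rw [Units.val_mul, ord_mul hp.1 c.ne_zero d.ne_zero]
    · rw [add_zero]
  have hD1 : D 1 = 0 := by
    have := hDm 1 1
    rw [mul_one] at this
    exact left_eq_add.1 this
  have hl1 : l 1 = 0 := by
    have := hl 1 1 one_ne_zero one_ne_zero
    rw [mul_one] at this
    linarith
  let Dh : Additive Kˣ →+ (ValuationSubring K →₀ ℤ) :=
    { toFun := fun c => D (Additive.toMul c)
      map_zero' := hD1
      map_add' := fun c d => hDm _ _ }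
  let lh : Additive Kˣ →+ ℚ :=
    { toFun := fun c => l ((Additive.toMul c : Kˣ) : K)
      map_zero' := hl1
      map_add' := fun c d => hl _ _ (Units.ne_zero _) (Units.ne_zero _) }
  have hpow : ∀ (c : K) (n : ℕ), c ≠ 0 → l (c ^ n) = n * l c := by
    intro c n hc
    induction n with
    | zero => rw [pow_zero, hl1]; simp
    | succ n ih =>
      rw [pow_succ, hl _ _ (pow_ne_zero _ hc) hc, ih]
      push_cast
      ring
  obtain ⟨φ, hφ⟩ := C1_ext Dh lh (by
    intro c hc
    obtain ⟨a, ha⟩ := C1_const hK ((Additive.toMul c : Kˣ) : K) (by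
      intro W hW
      have h1 := congrArg (fun f : ValuationSubring K →₀ ℤ => f W) hc
      have h2 : D (Additive.toMul c) W = 0 := h1
      rwa [hD, if_pos hW] at h2)
    show l ((Additive.toMul c : Kˣ) : K) = 0
    have ha0 : a ≠ 0 := by
      rintro rfl
      rw [map_zero] at ha
      exact (Additive.toMul c : Kˣ).ne_zero ha.symm
    obtain ⟨p, hp, hp1⟩ := halg
    obtain ⟨m, hm, hm1⟩ := hp1 a
    have h3 : l (algebraMap k K a ^ p ^ m) = l (algebraMap k K a) := by
      rw [← map_pow, hm1]
    rw [ha, hpow _ _ (Units.ne_zero _)] at h3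
    have h4 : (2 : ℚ) ≤ ((p ^ m : ℕ) : ℚ) := by
      have : 2 ≤ p ^ m := le_trans hp.two_le (Nat.le_self_pow hm.ne' p)
      exact_mod_cast this
    nlinarith [h3, h4])
  refine ⟨fun W => φ (Finsupp.single W 1), fun c hc => ?_⟩
  have h1 : φ (D (Units.mk0 c hc)) = l c := hφ (Additive.ofMul (Units.mk0 c hc))
  rw [← h1]
  have h2 : ∀ v : ValuationSubring K →₀ ℤ, φ v = ∑ W ∈ v.support, (v W : ℚ) *
      φ (Finsupp.single W 1) := by
    intro v
    conv_lhs => rw [← Finsupp.sum_single v, Finsupp.sum, map_sum]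
    refine Finset.sum_congr rfl fun W _ => ?_
    have h3 : (Finsupp.single W (v W) : ValuationSubring K →₀ ℤ) = v W • Finsupp.single W 1 := by
      rw [Finsupp.smul_single, smul_eq_mul, mul_one]
    rw [h3, map_zsmul, zsmul_eq_mul]
  rw [h2, finsum_cond_eq_sum_of_cond_iff (t := (D (Units.mk0 c hc)).support)]
  · refine Finset.sum_congr rfl fun W hW => ?_
    rw [Finsupp.mem_support_iff, hD] at hW
    rw [hD]
    by_cases hp : Place k W
    · rw [if_pos hp, Units.val_mk0, mul_comm]
    · rw [if_neg hp] at hW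
      exact absurd rfl hW
  · intro W hW
    rw [Finsupp.mem_support_iff, hD]
    constructor
    · intro hp
      rw [if_pos hp]
      intro h0
      rw [Units.val_mk0] at h0
      rw [h0, Int.cast_zero, mul_zero] at hW
      exact hW rfl
    · intro h0
      by_contra hp
      rw [if_neg hp] at h0
      exact h0 rfl


end C1

/-- C1: every form is given by a function on the places (linear algebra; a function without zeros and poles is constant and
constants are torsion). -/
theorem exists_given {k : Type} [Field k] [IsAlgClosed k]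
    (halg : ∃ p : ℕ, p.Prime ∧ ∀ a : k, ∃ m : ℕ, 0 < m ∧ a ^ p ^ m = a) {K : Type} [Field K]
    [Algebra k K] (hK : FunF k K 1) (l : K → ℚ)
    (hl : ∀ a b : K, a ≠ 0 → b ≠ 0 → l (a * b) = l a + l b) :
    ∃ h, GivenK k l h :=
  C1_given halg hK (C1_fin hK) l hl

end Pool.Agent.Lib.MP_b197b4_ntA
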