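import Mathlib
import Pool.Agent.Lib.MP_b197b4_ntK.Ord
import Pool.Agent.Lib.MP_b197b4_ntA.Defs

/-!
# MP_b197b4_nt, project K1-ALL, leaf C2: finitely many zeros and poles, infinitely many places
-/

set_option autoImplicit false

namespace Pool.Agent.Lib.MP_b197b4_ntA

open IsLocalRing Pool.Agent.Lib.MP_b197b4_ntK

section Approx

variable {K : Type} [Field K]

theorem Cur2_unif {W : ValuationSubring K} (hW : IsDiscreteValuationRing W) :
    ∃ p : K, p ≠ 0 ∧ ord W p = 1 := by
  obtain ⟨p, hp⟩ := IsDiscreteValuationRing.exists_irreducible W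
  exact ⟨p, fun h => hp.ne_zero (Subtype.ext h), ord_eq ⟨p, 1, hp, by simp⟩⟩

theorem Cur2_ord_neg {W : ValuationSubring K} (hW : IsDiscreteValuationRing W) {x : K}
    (hx : x ∉ W) : x ≠ 0 ∧ ord W x < 0 := by
  have hx0 : x ≠ 0 := by
    rintro rfl
    exact hx (zero_mem _)
  refine ⟨hx0, ?_⟩
  by_contra hc
  exact hx ((ord_nonneg_iff hW hx0).1 (not_lt.1 hc))

/-- Discrete valuation rings are maximal. -/
theorem Cur2_eq_of_le {W W' : ValuationSubring K} (hW : IsDiscreteValuationRing W)
    (hW' : IsDiscreteValuationRing W') (h : ∀ x ∈ W, x ∈ W') : W = W' := by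
  refine le_antisymm h fun x hx => ?_
  by_contra hxW
  obtain ⟨hx0, h1⟩ := Cur2_ord_neg hW hxW
  obtain ⟨p, hp0, hp⟩ := Cur2_unif hW'
  have h2 : 0 ≤ ord W' x := (ord_nonneg_iff hW' hx0).2 hx
  obtain ⟨N, hN⟩ : ∃ N : ℕ, ord W p < N := ⟨(ord W p).toNat + 1, by
    have := Int.self_le_toNat (ord W p)
    push_cast
    omega⟩
  have hne : x ^ N * p ≠ 0 := mul_ne_zero (pow_ne_zero _ hx0) hp0
  have h3 : ord W (x ^ N * p) = N * ord W x + ord W p := by
    rw [ord_mul hW (pow_ne_zero _ hx0) hp0, ord_pow hW hx0]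
  have h3' : ord W' (x ^ N * p) = N * ord W' x + ord W' p := by
    rw [ord_mul hW' (pow_ne_zero _ hx0) hp0, ord_pow hW' hx0]
  have h4 : ord W (x ^ N * p) < 0 := by
    rw [h3]
    have : (N : ℤ) * ord W x ≤ N * (-1) :=
      mul_le_mul_of_nonneg_left (by omega) (Int.natCast_nonneg N)
    linarith
  have h5 : (x ^ N * p)⁻¹ ∈ W := by
    rw [← ord_nonneg_iff hW (inv_ne_zero hne), ord_inv hW hne]
    omega
  have h6 := (ord_nonneg_iff hW' (inv_ne_zero hne)).2 (h _ h5)
  rw [ord_inv hW' hne, h3', hp] at h6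
  have : 0 ≤ (N : ℤ) * ord W' x := mul_nonneg (Int.natCast_nonneg N) h2
  linarith

theorem Cur2_pair {W W' : ValuationSubring K} (hW : IsDiscreteValuationRing W)
    (hW' : IsDiscreteValuationRing W') (hne : W ≠ W') :
    ∃ z : K, z ≠ 0 ∧ 0 < ord W z ∧ ord W' z < 0 := by
  obtain ⟨x, hx, hx'⟩ : ∃ x ∈ W, x ∉ W' := by
    by_contra hc
    refine hne (Cur2_eq_of_le hW hW' fun x hx => ?_)
    by_contra hx'
    exact hc ⟨x, hx, hx'⟩
  obtain ⟨y, hy, hy'⟩ : ∃ y ∈ W', y ∉ W := by
    by_contra hc
    refine hne (Cur2_eq_of_le hW' hW fun x hx => ?_).symm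
    by_contra hx'
    exact hc ⟨x, hx, hx'⟩
  obtain ⟨hx0, h1⟩ := Cur2_ord_neg hW' hx'
  obtain ⟨hy0, h2⟩ := Cur2_ord_neg hW hy'
  have h3 := (ord_nonneg_iff hW hx0).2 hx
  have h4 := (ord_nonneg_iff hW' hy0).2 hy
  refine ⟨x / y, div_ne_zero hx0 hy0, ?_, ?_⟩
  · rw [ord_div hW hx0 hy0]
    omega
  · rw [ord_div hW' hx0 hy0]
    omega

theorem Cur2_one_add {W : ValuationSubring K} (hW : IsDiscreteValuationRing W) {y : K}
    (hy0 : y ≠ 0) (hy : 0 < ord W y) : 1 + y ≠ 0 ∧ ord W (1 + y) = 0 := by
  have h1 : W.valuation y < 1 := (ord_pos_iff hW hy0).1 hy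
  have h2 : W.valuation (1 + y) = 1 := Valuation.map_one_add_of_lt _ h1
  have h3 : 1 + y ≠ 0 := by
    intro h
    rw [h, map_zero] at h2
    exact zero_ne_one h2
  exact ⟨h3, (ord_eq_zero_iff hW h3).2 h2⟩

theorem Cur2_one_add' {W : ValuationSubring K} (hW : IsDiscreteValuationRing W) {y : K}
    (hy0 : y ≠ 0) (hy : ord W y < 0) : 1 + y ≠ 0 ∧ ord W (1 + y) = ord W y := by
  have e : 1 + y = y * (1 + y⁻¹) := by
    field_simp
    ring
  obtain ⟨h1, h2⟩ := Cur2_one_add hW (inv_ne_zero hy0) (by
    rw [ord_inv hW hy0]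
    omega)
  rw [e]
  exact ⟨mul_ne_zero hy0 h1, by rw [ord_mul hW hy0 h1, h2, add_zero]⟩

theorem Cur2_approx {W : ValuationSubring K} (hW : IsDiscreteValuationRing W)
    (T : Finset (ValuationSubring K))
    (hT : ∀ W' ∈ T, IsDiscreteValuationRing W' ∧ W' ≠ W) :
    ∃ z : K, z ≠ 0 ∧ 0 < ord W z ∧ ∀ W' ∈ T, ord W' z < 0 := by
  classical
  induction T using Finset.induction_on with
  | empty =>
    obtain ⟨p, hp0, hp⟩ := Cur2_unif hW
    exact ⟨p, hp0, by omega, fun W' h => absurd h (Finset.notMem_empty _)⟩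
  | insert W' T hW'T ih =>
    obtain ⟨z, hz0, hz, hzT⟩ := ih fun W'' h => hT W'' (Finset.mem_insert_of_mem h)
    have hTd : ∀ W'' ∈ T, IsDiscreteValuationRing W'' := fun W'' h =>
      (hT W'' (Finset.mem_insert_of_mem h)).1
    obtain ⟨hd', hne⟩ := hT W' (Finset.mem_insert_self _ _)
    obtain ⟨w, hw0, hw, hw'⟩ := Cur2_pair hW hd' hne.symm
    obtain ⟨N, hN1, hN⟩ : ∃ N : ℕ, 1 ≤ N ∧ ∀ W'' ∈ T, ord W'' w < N := by
      refine ⟨(T.sup fun W'' => (ord W'' w).toNat) + 1, by omega, fun W'' h => ?_⟩
      have h1 := Finset.le_sup (f := fun W'' => (ord W'' w).toNat) h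
      have h2 := Int.self_le_toNat (ord W'' w)
      have h3 : ((ord W'' w).toNat : ℤ) ≤ ((T.sup fun W'' => (ord W'' w).toNat : ℕ) : ℤ) := by
        exact_mod_cast h1
      push_cast
      linarith
    have hzN : z ^ N ≠ 0 := pow_ne_zero _ hz0
    have hneg : ∀ W'' ∈ T, (N : ℤ) * ord W'' z + ord W'' w < 0 := by
      intro W'' h
      have h1 := hzT W'' h
      have h2 : (N : ℤ) * ord W'' z ≤ N * (-1) :=
        mul_le_mul_of_nonneg_left (by omega) (Int.natCast_nonneg N)
      have h3 := hN W'' h
      linarith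
    have hNpos : (0 : ℤ) < N := by exact_mod_cast hN1
    rcases lt_trichotomy (ord W' z) 0 with h | h | h
    · refine ⟨z, hz0, hz, fun W'' h'' => ?_⟩
      rcases Finset.mem_insert.1 h'' with rfl | h''
      · exact h
      · exact hzT _ h''
    · refine ⟨z ^ N * w, mul_ne_zero hzN hw0, ?_, fun W'' h'' => ?_⟩
      · rw [ord_mul hW hzN hw0, ord_pow hW hz0]
        have := mul_pos hNpos hz
        linarith
      · rcases Finset.mem_insert.1 h'' with rfl | h''
        · rw [ord_mul hd' hzN hw0, ord_pow hd' hz0, h, mul_zero, zero_add]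
          exact hw'
        · rw [ord_mul (hTd _ h'') hzN hw0, ord_pow (hTd _ h'') hz0]
          exact hneg _ h''
    · have hzW : 0 < ord W (z ^ N) := by
        rw [ord_pow hW hz0]
        exact mul_pos hNpos hz
      have hzW' : 0 < ord W' (z ^ N) := by
        rw [ord_pow hd' hz0]
        exact mul_pos hNpos h
      obtain ⟨h1, h2⟩ := Cur2_one_add hW hzN hzW
      obtain ⟨-, h4⟩ := Cur2_one_add hd' hzN hzW'
      refine ⟨w * (1 + z ^ N), mul_ne_zero hw0 h1, ?_, fun W'' h'' => ?_⟩
      · rw [ord_mul hW hw0 h1, h2, add_zero]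
        exact hw
      · rcases Finset.mem_insert.1 h'' with rfl | h''
        · rw [ord_mul hd' hw0 h1, h4, add_zero]
          exact hw'
        · have hzn : ord W'' (z ^ N) < 0 := by
            rw [ord_pow (hTd _ h'') hz0]
            exact mul_neg_of_pos_of_neg hNpos (hzT _ h'')
          obtain ⟨-, h5⟩ := Cur2_one_add' (hTd _ h'') hzN hzn
          rw [ord_mul (hTd _ h'') hw0 h1, h5, ord_pow (hTd _ h'') hz0]
          have := hneg _ h''
          linarith

/-- An element which is a unit at `W` and not a unit at the others. -/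
theorem Cur2_idem {W : ValuationSubring K} (hW : IsDiscreteValuationRing W)
    (T : Finset (ValuationSubring K))
    (hT : ∀ W' ∈ T, IsDiscreteValuationRing W' ∧ W' ≠ W) :
    ∃ e : K, W.valuation e = 1 ∧ ∀ W' ∈ T, W'.valuation e < 1 := by
  obtain ⟨z, hz0, hz, hzT⟩ := Cur2_approx hW T hT
  obtain ⟨h1, h2⟩ := Cur2_one_add hW hz0 hz
  refine ⟨(1 + z)⁻¹, ?_, fun W' hW' => ?_⟩
  · rw [← ord_eq_zero_iff hW (inv_ne_zero h1), ord_inv hW h1, h2, neg_zero]
  · obtain ⟨-, h3⟩ := Cur2_one_add' (hT W' hW').1 hz0 (hzT W' hW')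
    rw [← ord_pos_iff (hT W' hW').1 (inv_ne_zero h1), ord_inv (hT W' hW').1 h1, h3]
    have := hzT W' hW'
    omega

end Approx

section Count

open Polynomial

variable {k K : Type} [Field k] [Field K] [Algebra k K]

theorem Cur2_const {W : ValuationSubring K} (hk : Over k W) {a : k} (ha : a ≠ 0) :
    W.valuation (algebraMap k K a) = 1 := by
  have h1 := (ValuationSubring.valuation_le_one_iff W _).2 (hk a)
  have h2 := (ValuationSubring.valuation_le_one_iff W _).2 (hk a⁻¹)
  have h3 : W.valuation (algebraMap k K a) * W.valuation (algebraMap k K a⁻¹) = 1 := by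
    rw [← map_mul, ← map_mul, mul_inv_cancel₀ ha, map_one, map_one]
  refine le_antisymm h1 ?_
  calc (1 : _) = W.valuation (algebraMap k K a) * W.valuation (algebraMap k K a⁻¹) := h3.symm
    _ ≤ W.valuation (algebraMap k K a) * 1 := by gcongr
    _ = _ := mul_one _

theorem Cur2_aeval_mem {W : ValuationSubring K} (hk : Over k W) {c : K} (hc : c ∈ W) (P : k[X]) :
    aeval c P ∈ W := by
  rw [aeval_eq_sum_range]
  refine sum_mem fun i _ => ?_
  rw [Algebra.smul_def]
  exact mul_mem (hk _) (pow_mem hc _)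

theorem Cur2_aeval_unit {W : ValuationSubring K} (hk : Over k W) {c : K}
    (hc : W.valuation c < 1) {P : k[X]} (hP : P.coeff 0 ≠ 0) : W.valuation (aeval c P) = 1 := by
  have hcW : c ∈ W := (ValuationSubring.valuation_le_one_iff W _).1 hc.le
  have e : aeval c P = algebraMap k K (P.coeff 0) + c * aeval c P.divX := by
    conv_lhs => rw [← divX_mul_X_add P]
    rw [map_add, map_mul, aeval_X, aeval_C]
    ring
  have h1 : W.valuation (c * aeval c P.divX) < 1 := by
    rw [map_mul]
    exact mul_lt_one_of_lt_of_le hc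
      ((ValuationSubring.valuation_le_one_iff W _).2 (Cur2_aeval_mem hk hcW _))
  rw [e, Valuation.map_add_eq_of_lt_left]
  · exact Cur2_const hk hP
  · rw [Cur2_const hk hP]
    exact h1

/-- Linear independence. -/
theorem Cur2_indep {c : K} (hc0 : c ≠ 0) (T : Finset (ValuationSubring K))
    (hT : ∀ W ∈ T, Place k W ∧ W.valuation c < 1) {e : T → K}
    (he1 : ∀ W : T, (W : ValuationSubring K).valuation (e W) = 1)
    (he2 : ∀ W W' : T, W ≠ W' → (W : ValuationSubring K).valuation (e W') < 1)
    (P : T → k[X]) (h : ∑ W, aeval c (P W) * e W = 0) : ∀ W, P W = 0 := by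
  classical
  by_contra hcon
  have hex : ∃ n : ℕ, ∃ W : T, (P W).coeff n ≠ 0 := by
    by_contra h1
    apply hcon
    intro W
    ext n
    rw [coeff_zero]
    by_contra h2
    exact h1 ⟨n, W, h2⟩
  set n := Nat.find hex with hn
  obtain ⟨W₀, hW₀⟩ := Nat.find_spec hex
  have hmin : ∀ m < n, ∀ W : T, (P W).coeff m = 0 := by
    intro m hm W
    by_contra h1
    exact Nat.find_min hex hm ⟨W, h1⟩
  have hdvd : ∀ W : T, ∃ Q : k[X], P W = X ^ n * Q := fun W =>
    X_pow_dvd_iff.2 fun m hm => hmin m hm W
  choose Q hQ using hdvd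
  have hQ0 : (Q W₀).coeff 0 ≠ 0 := by
    have h1 : (P W₀).coeff n ≠ 0 := hW₀
    rw [hQ W₀] at h1
    have h2 := coeff_X_pow_mul (Q W₀) n 0
    rw [zero_add] at h2
    rw [h2] at h1
    exact h1
  have h1 : ∑ W, aeval c (Q W) * e W = 0 := by
    have h2 : c ^ n * ∑ W, aeval c (Q W) * e W = 0 := by
      rw [← h, Finset.mul_sum]
      refine Finset.sum_congr rfl fun W _ => ?_
      rw [hQ W, map_mul, map_pow, aeval_X]
      ring
    exact (mul_eq_zero.1 h2).resolve_left (pow_ne_zero _ hc0)
  obtain ⟨⟨hd, hk⟩, hcW⟩ := hT W₀ W₀.2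
  have hcm : c ∈ (W₀ : ValuationSubring K) := (ValuationSubring.valuation_le_one_iff _ _).1 hcW.le
  rw [← Finset.add_sum_erase _ _ (Finset.mem_univ W₀)] at h1
  have h3 : (W₀ : ValuationSubring K).valuation
      (∑ W ∈ Finset.univ.erase W₀, aeval c (Q W) * e W) < 1 := by
    refine Valuation.map_sum_lt _ one_ne_zero fun W hW => ?_
    rw [map_mul, mul_comm]
    exact mul_lt_one_of_lt_of_le (he2 W₀ W (Finset.ne_of_mem_erase hW).symm)
      ((ValuationSubring.valuation_le_one_iff _ _).2 (Cur2_aeval_mem hk hcm _))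
  have h4 : (W₀ : ValuationSubring K).valuation (aeval c (Q W₀) * e W₀) = 1 := by
    rw [map_mul, Cur2_aeval_unit hk hcW hQ0, he1, one_mul]
  have h5 : aeval c (Q W₀) * e W₀ = -∑ W ∈ Finset.univ.erase W₀, aeval c (Q W) * e W :=
    eq_neg_of_add_eq_zero_left h1
  rw [h5, Valuation.map_neg] at h4
  exact h3.ne h4

/-- A transcendental element of a field of functions of one variable. -/
theorem Cur2_finite (hK : FunF k K 1) {c : K} (hc : Transcendental k c) :
    FiniteDimensional (IntermediateField.adjoin k {c}) K := by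
  have hx : AlgebraicIndependent k (fun _ : Unit => c) :=
    algebraicIndependent_unique_type_iff.2 hc
  have hb : IsTranscendenceBasis k (fun _ : Unit => c) := by
    refine hx.isTranscendenceBasis_of_trdeg_le_of_finite ?_
    rw [hK.2]
    simp
  have halg : Algebra.IsAlgebraic (IntermediateField.adjoin k {c}) K := by
    have := hb.isAlgebraic_field
    rwa [Set.range_const] at this
  obtain ⟨S, hS⟩ := hK.1
  have hfin : FiniteDimensional (IntermediateField.adjoin k {c})
      (IntermediateField.adjoin (IntermediateField.adjoin k {c}) (S : Set K)) :=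
    IntermediateField.finiteDimensional_adjoin fun x _ => (halg.isAlgebraic x).isIntegral
  have htop : IntermediateField.adjoin (IntermediateField.adjoin k {c}) (S : Set K) = ⊤ := by
    rw [eq_top_iff]
    intro x _
    have h1 : x ∈ IntermediateField.adjoin k (S : Set K) := by
      rw [hS]
      trivial
    have h2 : IntermediateField.adjoin k (S : Set K) ≤ (IntermediateField.adjoin
        (IntermediateField.adjoin k {c}) (S : Set K)).restrictScalars k := by
      rw [IntermediateField.adjoin_le_iff]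
      exact IntermediateField.subset_adjoin _ _
    exact h2 h1
  rw [htop] at hfin
  exact (IntermediateField.topEquiv (F := IntermediateField.adjoin k {c})
    (E := K)).toLinearEquiv.finiteDimensional

open scoped IntermediateField.algebraAdjoinAdjoin in
theorem Cur2_card {c : K} (hc0 : c ≠ 0)
    [FiniteDimensional (IntermediateField.adjoin k {c}) K] (T : Finset (ValuationSubring K))
    (hT : ∀ W ∈ T, Place k W ∧ W.valuation c < 1) :
    T.card ≤ Module.finrank (IntermediateField.adjoin k {c}) K := by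
  classical
  have he : ∀ W : T, ∃ e : K, (W : ValuationSubring K).valuation e = 1 ∧
      ∀ W' ∈ T.erase W, W'.valuation e < 1 := fun W =>
    Cur2_idem (hT W W.2).1.1 (T.erase W) fun W' hW' =>
      ⟨(hT W' (Finset.mem_of_mem_erase hW')).1.1, Finset.ne_of_mem_erase hW'⟩
  choose e he1 he2 using he
  have hli : LinearIndependent (Algebra.adjoin k {c}) e := by
    rw [Fintype.linearIndependent_iff]
    intro g hg
    have hP : ∀ W : T, ∃ P : k[X], aeval c P = (g W : K) := by
      intro W
      have h1 : (g W : K) ∈ (aeval (R := k) c).range :=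
        (le_of_eq (Algebra.adjoin_singleton_eq_range_aeval k c)) (g W).2
      exact h1
    choose P hP using hP
    have h1 : ∑ W, aeval c (P W) * e W = 0 := by
      rw [← hg]
      refine Finset.sum_congr rfl fun W _ => ?_
      rw [hP]
      rfl
    have h2 := Cur2_indep hc0 T hT he1 (fun W W' hne => he2 W' W (Finset.mem_erase.2
      ⟨fun h => hne (Subtype.ext h), W.2⟩)) P h1
    intro W
    apply Subtype.ext
    rw [← hP, h2 W, map_zero]
    rfl
  have h3 := (LinearIndependent.iff_fractionRing (Algebra.adjoin k {c})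
    (IntermediateField.adjoin k {c})).1 hli
  have h4 := h3.fintype_card_le_finrank
  simpa using h4

/-- C2: an element has finitely many zeros and poles. -/
theorem ord_finite {k : Type} [Field k] [IsAlgClosed k] {K : Type} [Field K] [Algebra k K]
    (hK : FunF k K 1) (c : K) (hc : c ≠ 0) : {W | Place k W ∧ ord W c ≠ 0}.Finite := by
  by_cases halg : IsAlgebraic k c
  · obtain ⟨a, rfl⟩ : ∃ a : k, algebraMap k K a = c := by
      have h1 := (IsAlgClosed.algebraMap_bijective_of_isIntegral (k := k)
        (K := integralClosure k K)).2 ⟨c, halg.isIntegral⟩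
      obtain ⟨a, ha⟩ := h1
      exact ⟨a, congrArg Subtype.val ha⟩
    have ha : a ≠ 0 := by
      rintro rfl
      exact hc (map_zero _)
    refine Set.Finite.subset Set.finite_empty ?_
    rintro W ⟨⟨hd, hk⟩, hne⟩
    exact hne ((ord_eq_zero_iff hd hc).2 (Cur2_const hk ha))
  · have key : ∀ c : K, c ≠ 0 → ¬ IsAlgebraic k c →
        {W | Place k W ∧ W.valuation c < 1}.Finite := by
      intro c hc halg
      have := Cur2_finite hK (c := c) halg
      by_contra hinf
      obtain ⟨T, hT, hcard⟩ := (Set.not_finite.1 hinf).exists_subset_card_eq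
        (Module.finrank (IntermediateField.adjoin k {c}) K + 1)
      have h1 := Cur2_card (k := k) hc T fun W hW => hT hW
      omega
    have hcinv : ¬ IsAlgebraic k c⁻¹ := fun h => halg (by
      have := h.inv
      rwa [inv_inv] at this)
    refine ((key c hc halg).union (key c⁻¹ (inv_ne_zero hc) hcinv)).subset ?_
    rintro W ⟨hW, hne⟩
    rcases lt_or_gt_of_ne hne with h | h
    · right
      refine ⟨hW, ?_⟩
      rw [← ord_pos_iff hW.1 (inv_ne_zero hc), ord_inv hW.1 hc]
      omega
    · left
      exact ⟨hW, (ord_pos_iff hW.1 hc).1 h⟩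

end Count

section Infinite

open Polynomial

open scoped IntermediateField.algebraAdjoinAdjoin in
/-- A place over a point of the line. -/
theorem Cur2_place {k K : Type} [Field k] [Field K] [Algebra k K] {t : K}
    (ht : Transcendental k t) [FiniteDimensional (IntermediateField.adjoin k {t}) K]
    [Algebra.IsSeparable (IntermediateField.adjoin k {t}) K] (a : k) :
    ∃ W : ValuationSubring K, Place k W ∧ W.valuation (t - algebraMap k K a) < 1 := by
  have hpir : IsPrincipalIdealRing (Algebra.adjoin k {t}) := by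
    have hr : ∀ P : k[X], aeval t P ∈ Algebra.adjoin k {t} := fun P =>
      aeval_mem_adjoin_singleton k t
    refine IsPrincipalIdealRing.of_surjective
      (((aeval t : k[X] →ₐ[k] K).codRestrict (Algebra.adjoin k {t}) hr).toRingHom) ?_
    rintro ⟨y, hy⟩
    have h1 : y ∈ (aeval (R := k) t).range :=
      (le_of_eq (Algebra.adjoin_singleton_eq_range_aeval k t)) hy
    obtain ⟨P, hP⟩ := h1
    exact ⟨P, Subtype.ext hP⟩
  have hded : IsDedekindDomain (Algebra.adjoin k {t}) := inferInstance
  have hB := integralClosure.isDedekindDomain (Algebra.adjoin k {t})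
    (IntermediateField.adjoin k {t}) K
  have hF : IsFractionRing (integralClosure (Algebra.adjoin k {t}) K) K :=
    integralClosure.isFractionRing_of_finite_extension (IntermediateField.adjoin k {t}) K
  -- the point
  let y : Algebra.adjoin k {t} := ⟨t - algebraMap k K a,
    sub_mem (Algebra.self_mem_adjoin_singleton k t) (Subalgebra.algebraMap_mem _ a)⟩
  have hy0 : y ≠ 0 := by
    intro h
    have h1 : t - algebraMap k K a = 0 := congrArg Subtype.val h
    exact ht ⟨X - C a, X_sub_C_ne_zero a, by rw [map_sub, aeval_X, aeval_C, h1]⟩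
  have hyu : ¬ IsUnit y := by
    intro h
    obtain ⟨z, hz⟩ := h.exists_right_inv
    have h1 : (z : K) ∈ (aeval (R := k) t).range :=
      (le_of_eq (Algebra.adjoin_singleton_eq_range_aeval k t)) z.2
    obtain ⟨P, hP⟩ := h1
    have h2 : (t - algebraMap k K a) * (z : K) = 1 := congrArg Subtype.val hz
    have h3 : aeval t ((X - C a) * P - 1) = 0 := by
      rw [map_sub, map_mul, map_sub, aeval_X, aeval_C, map_one]
      have h4 : aeval t P = (z : K) := hP
      rw [h4, h2, sub_self]
    have h5 : (X - C a) * P - 1 = 0 := by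
      by_contra h6
      exact ht ⟨_, h6, h3⟩
    have h7 := congrArg (Polynomial.eval a) h5
    simp at h7
  obtain ⟨m, hm, hym⟩ := exists_max_ideal_of_mem_nonunits (a := y) hyu
  obtain ⟨P, hP, hPm⟩ := Ideal.exists_maximal_ideal_liesOver_of_isIntegral m
    (S := integralClosure (Algebra.adjoin k {t}) K)
  have hyP : algebraMap (Algebra.adjoin k {t}) (integralClosure (Algebra.adjoin k {t}) K) y ∈ P := by
    have h1 := hPm.over
    rw [h1] at hym
    exact hym
  have hPbot : P ≠ ⊥ := by
    rintro rfl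
    have h1 : algebraMap (Algebra.adjoin k {t}) (integralClosure (Algebra.adjoin k {t}) K) y = 0 :=
      hyP
    have h2 : (y : K) = 0 := congrArg Subtype.val h1
    exact hy0 (Subtype.ext h2)
  let v : IsDedekindDomain.HeightOneSpectrum (integralClosure (Algebra.adjoin k {t}) K) :=
    ⟨P, hP.isPrime, hPbot⟩
  refine ⟨(v.valuation K).valuationSubring, ⟨inferInstance, fun c => ?_⟩, ?_⟩
  · rw [Valuation.mem_valuationSubring_iff]
    have h1 := v.valuation_le_one (K := K) (algebraMap (Algebra.adjoin k {t})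
      (integralClosure (Algebra.adjoin k {t}) K) (algebraMap k (Algebra.adjoin k {t}) c))
    exact h1
  · have h1 : v.valuation K (algebraMap (integralClosure (Algebra.adjoin k {t}) K) K
        (algebraMap (Algebra.adjoin k {t}) (integralClosure (Algebra.adjoin k {t}) K) y)) < 1 :=
      (v.valuation_lt_one_iff_mem _).2 hyP
    have h2 : v.valuation K (t - algebraMap k K a) < 1 := h1
    have h3 : (v.valuation K).valuationSubring.valuation (t - algebraMap k K a) < 1 :=
      ((v.valuation K).isEquiv_valuation_valuationSubring.lt_one_iff_lt_one).1 h2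
    exact h3

/-- C4: there are infinitely many places. -/
theorem places_infinite {k K : Type} [Field k] [IsAlgClosed k] [Field K] [Algebra k K]
    (hK : FunF k K 1) : {W : ValuationSubring K | Place k W}.Infinite := by
  have : Algebra.EssFiniteType k K := IntermediateField.fg_top_iff.1 hK.1
  obtain ⟨s, hs, hsep⟩ := exists_isTranscendenceBasis_and_isSeparable_of_perfectField k K
  have hcard : s.card = 1 := by
    have h1 := hs.cardinalMk_eq_trdeg
    rw [hK.2] at h1
    simpa using h1
  obtain ⟨t, rfl⟩ := Finset.card_eq_one.1 hcard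
  have ht : Transcendental k t := hs.1.transcendental ⟨t, Finset.mem_singleton_self t⟩
  rw [Finset.coe_singleton] at hsep
  have hfin := Cur2_finite hK ht
  choose f hf using Cur2_place (k := k) (K := K) ht
  have hinj : Function.Injective f := by
    intro a b hab
    by_contra hne
    have h1 := (hf a).2
    have h2 := (hf b).2
    rw [← hab] at h2
    have h3 : algebraMap k K (b - a) = (t - algebraMap k K a) - (t - algebraMap k K b) := by
      rw [map_sub]
      ring
    have h4 := Cur2_const (hf a).1.2 (sub_ne_zero.2 (Ne.symm hne))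
    rw [h3] at h4
    have h5 := Valuation.map_sub_lt _ h1 h2
    exact h5.ne h4
  exact Set.infinite_of_injective_forall_mem hinj fun a => (hf a).1

end Infinite

end Pool.Agent.Lib.MP_b197b4_ntA
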