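import Mathlib
import Pool.Agent.Lib.MP_b197b4_ntA.Defs

/-!
# MP_b197b4_nt, project K1-ALL: block C, file Cur3 (C3, C5, C6)
-/

set_option autoImplicit false
set_option linter.style.haveILetI false

namespace Pool.Agent.Lib.MP_b197b4_ntA

open IsLocalRing Pool.Agent.Lib.MP_b197b4_ntK

section cur3_gen

variable {K : Type} [Field K]

theorem cur3_val_le {W : ValuationSubring K} {x : K} (h : x ∈ W) : W.valuation x ≤ 1 :=
  (W.valuation_le_one_iff x).2 h

theorem cur3_ne_zero {W : ValuationSubring K} {x : K} (h : W.valuation x = 1) : x ≠ 0 := by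
  rintro rfl
  simp at h

theorem cur3_mem {W : ValuationSubring K} {x : K} (h : W.valuation x = 1) : x ∈ W :=
  (W.valuation_le_one_iff x).1 h.le

theorem cur3_inv_mem {W : ValuationSubring K} {x : K} (h : W.valuation x = 1) : x⁻¹ ∈ W := by
  rw [← W.valuation_le_one_iff, map_inv₀, h, inv_one]

theorem cur3_exists_cen {B : Type} [CommRing B] [Algebra B K] (W : ValuationSubring K)
    (h : ∀ b : B, algebraMap B K b ∈ W) :
    ∃ p : Ideal B, p.IsPrime ∧ ∀ b : B, b ∈ p ↔ W.valuation (algebraMap B K b) < 1 := by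
  let f : B →+* W :=
    { toFun := fun b => ⟨algebraMap B K b, h b⟩
      map_one' := Subtype.ext (map_one _)
      map_mul' := fun a b => Subtype.ext (map_mul _ a b)
      map_zero' := Subtype.ext (map_zero _)
      map_add' := fun a b => Subtype.ext (map_add _ a b) }
  refine ⟨(maximalIdeal W).comap f, inferInstance, fun b => ?_⟩
  rw [Ideal.mem_comap]
  exact ValuationSubring.valuation_lt_one_iff W (f b)

theorem cur3_val_one_of_notMem {B : Type} [CommRing B] [Algebra B K] {W : ValuationSubring K}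
    (h : ∀ b : B, algebraMap B K b ∈ W) {p : Ideal B}
    (hp : ∀ b : B, b ∈ p ↔ W.valuation (algebraMap B K b) < 1) {b : B} (hb : b ∉ p) :
    W.valuation (algebraMap B K b) = 1 := by
  rw [hp b] at hb
  exact le_antisymm (cur3_val_le (h b)) (not_lt.1 hb)

variable {B : Type} [CommRing B] [IsDedekindDomain B] [Algebra B K] [IsFractionRing B K]

/-- A valuation ring of the field of fractions of a Dedekind domain is the localisation at its
centre. -/
theorem cur3_loc (W : ValuationSubring K) (h : ∀ b : B, algebraMap B K b ∈ W) (y : K)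
    (hy : y ∈ W) : ∃ r s : B, W.valuation (algebraMap B K s) = 1 ∧
      y = algebraMap B K r / algebraMap B K s := by
  obtain ⟨p, hpp, hp⟩ := cur3_exists_cen W h
  obtain ⟨b, c, hc, rfl⟩ := IsFractionRing.div_surjective (A := B) y
  have hc0 : algebraMap B K c ≠ 0 := IsFractionRing.to_map_ne_zero_of_mem_nonZeroDivisors hc
  by_cases hp0 : p = ⊥
  · refine ⟨b, c, cur3_val_one_of_notMem h hp ?_, rfl⟩
    rw [hp0, Ideal.mem_bot]
    rintro rfl
    exact hc0 (map_zero _)
  haveI := IsLocalization.AtPrime.isDiscreteValuationRing_of_dedekind_domain B hp0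
    (Localization.AtPrime p)
  let S := Localization.AtPrime p
  have hinj : Function.Injective (algebraMap B S) :=
    IsLocalization.injective S p.primeCompl_le_nonZeroDivisors
  have key : ∀ a b : B, (algebraMap B S b ∣ algebraMap B S a) →
      ∃ c s : B, s ∉ p ∧ a * s = b * c := by
    rintro a b ⟨z, hz⟩
    obtain ⟨⟨c, s⟩, hcs⟩ := IsLocalization.surj p.primeCompl z
    have : algebraMap B S (a * s) = algebraMap B S (b * c) := by
      rw [map_mul, hz, mul_assoc, hcs, map_mul]
    exact ⟨c, s, s.2, hinj this⟩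
  rcases ValuationRing.dvd_total (algebraMap B S b) (algebraMap B S c) with h1 | h1
  · obtain ⟨a, s, hs, h2⟩ := key c b h1
    have hs1 := cur3_val_one_of_notMem h hp hs
    have h3 : algebraMap B K c * algebraMap B K s = algebraMap B K b * algebraMap B K a := by
      rw [← map_mul, h2, map_mul]
    have hs0 := cur3_ne_zero hs1
    have ha0 : algebraMap B K a ≠ 0 := by
      intro h4
      rw [h4, mul_zero] at h3
      exact mul_ne_zero hc0 hs0 h3
    have h5 : algebraMap B K b / algebraMap B K c * algebraMap B K a = algebraMap B K s := by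
      field_simp
      rw [← h3, mul_comm]
    refine ⟨s, a, ?_, ?_⟩
    · refine le_antisymm (cur3_val_le (h a)) ?_
      have h6 := congrArg W.valuation h5
      rw [map_mul, hs1] at h6
      have h7 := cur3_val_le hy
      calc (1 : W.ValueGroup) = W.valuation (algebraMap B K b / algebraMap B K c) *
            W.valuation (algebraMap B K a) := h6.symm
        _ ≤ 1 * W.valuation (algebraMap B K a) := mul_le_mul_left h7 _
        _ = _ := one_mul _
    · rw [eq_div_iff ha0, h5]
  · obtain ⟨a, s, hs, h2⟩ := key b c h1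
    have hs1 := cur3_val_one_of_notMem h hp hs
    have hs0 := cur3_ne_zero hs1
    refine ⟨a, s, hs1, ?_⟩
    have h3 : algebraMap B K b * algebraMap B K s = algebraMap B K c * algebraMap B K a := by
      rw [← map_mul, h2, map_mul]
    rw [div_eq_div_iff hc0 hs0, h3, mul_comm]

/-- A nonzero element is a unit in all but finitely many of the valuation rings which contain the
Dedekind domain. -/
theorem cur3_fin (e : K) (he : e ≠ 0) :
    {W : ValuationSubring K | (∀ b : B, algebraMap B K b ∈ W) ∧ W.valuation e ≠ 1}.Finite := by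
  have key : ∀ c : B, algebraMap B K c ≠ 0 →
      {W : ValuationSubring K | (∀ b : B, algebraMap B K b ∈ W) ∧
        W.valuation (algebraMap B K c) ≠ 1}.Finite := by
    intro c hc
    have hc0 : c ≠ 0 := by
      rintro rfl
      exact hc (map_zero _)
    have hdvd : {I : Ideal B | I ∣ Ideal.span {c}}.Finite := by
      have h0 : (Ideal.span {c} : Ideal B) ≠ 0 := by
        rw [Ideal.zero_eq_bot, Ne, Ideal.span_singleton_eq_bot]
        exact hc0
      haveI : Finite {I : Ideal B // I ∣ Ideal.span {c}} :=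
        @Finite.of_fintype _
          (UniqueFactorizationMonoid.fintypeSubtypeDvd (Ideal.span {c} : Ideal B) h0)
      refine (Set.finite_range (Subtype.val : {I : Ideal B // I ∣ Ideal.span {c}} → Ideal B)).subset
        ?_
      intro I hI
      exact ⟨⟨I, hI⟩, rfl⟩
    have hex : ∀ W : ValuationSubring K, (∀ b : B, algebraMap B K b ∈ W) →
        ∃ p : Ideal B, p.IsPrime ∧ ∀ b : B, b ∈ p ↔ W.valuation (algebraMap B K b) < 1 :=
      fun W hW => cur3_exists_cen W hW
    classical
    let φ : ValuationSubring K → Ideal B := fun W =>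
      if h : (∀ b : B, algebraMap B K b ∈ W) then (hex W h).choose else ⊥
    have hφ : ∀ W : ValuationSubring K, (∀ b : B, algebraMap B K b ∈ W) →
        ∀ b : B, b ∈ φ W ↔ W.valuation (algebraMap B K b) < 1 := by
      intro W hW
      simp only [φ, dif_pos hW]
      exact (hex W hW).choose_spec.2
    refine Set.Finite.of_finite_image (f := φ) (hdvd.subset ?_) ?_
    · rintro _ ⟨W, ⟨hW, hval⟩, rfl⟩
      rw [Set.mem_ofPred_eq, Ideal.dvd_iff_le, Ideal.span_singleton_le_iff_mem, hφ W hW]
      exact lt_of_le_of_ne (cur3_val_le (hW c)) hval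
    · have sub : ∀ W W' : ValuationSubring K, (∀ b : B, algebraMap B K b ∈ W) →
          (∀ b : B, algebraMap B K b ∈ W') → φ W = φ W' → W ≤ W' := by
        intro W W' hW hW' h y hy
        obtain ⟨r, s, hs, rfl⟩ := cur3_loc W hW y hy
        have h1 : s ∉ φ W := by
          rw [hφ W hW, hs]
          exact lt_irrefl _
        rw [h] at h1
        have h2 := cur3_val_one_of_notMem hW' (hφ W' hW') h1
        rw [div_eq_mul_inv]
        exact mul_mem (hW' r) (cur3_inv_mem h2)
      rintro W ⟨hW, _⟩ W' ⟨hW', _⟩ h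
      exact le_antisymm (sub W W' hW hW' h) (sub W' W hW' hW h.symm)
  obtain ⟨b, c, hc, rfl⟩ := IsFractionRing.div_surjective (A := B) e
  have hc0 : algebraMap B K c ≠ 0 := IsFractionRing.to_map_ne_zero_of_mem_nonZeroDivisors hc
  have hb0 : algebraMap B K b ≠ 0 := (div_ne_zero_iff.1 he).1
  refine ((key b hb0).union (key c hc0)).subset ?_
  rintro W ⟨hW, hval⟩
  by_contra hcon
  apply hval
  have h1 : W.valuation (algebraMap B K b) = 1 := by
    by_contra h1
    exact hcon (Or.inl ⟨hW, h1⟩)
  have h2 : W.valuation (algebraMap B K c) = 1 := by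
    by_contra h2
    exact hcon (Or.inr ⟨hW, h2⟩)
  rw [map_div₀, h1, h2, div_one]

end cur3_gen

section cur3_field

variable {k K : Type} [Field k] [Field K] [Algebra k K]

theorem cur3_sep [IsAlgClosed k] (hK : FunF k K 1) :
    ∃ t : K, Algebra.IsSeparable (IntermediateField.adjoin k {t}) K ∧
      FiniteDimensional (IntermediateField.adjoin k {t}) K := by
  haveI : Algebra.EssFiniteType k K := IntermediateField.fg_top_iff.1 hK.1
  obtain ⟨s, hs, hsep⟩ := exists_isTranscendenceBasis_and_isSeparable_of_perfectField k K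
  have h1 := hs.cardinalMk_eq_trdeg
  rw [hK.2] at h1
  have h2 : s.card = 1 := by
    have : Cardinal.mk s = s.card := by simp
    rw [this] at h1
    exact_mod_cast h1
  obtain ⟨t, rfl⟩ := Finset.card_eq_one.1 h2
  rw [Finset.coe_singleton] at hsep
  refine ⟨t, hsep, ?_⟩
  haveI : Algebra.EssFiniteType (IntermediateField.adjoin k {t}) K :=
    Algebra.EssFiniteType.of_comp k _ K
  exact Algebra.finite_of_essFiniteType_of_isAlgebraic

omit [Field k] [Algebra k K] in
theorem cur3_integral {A : Type} [CommRing A] [Algebra A K] (W : ValuationSubring K)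
    (hA : ∀ a : A, algebraMap A K a ∈ W) {x : K} (hx : IsIntegral A x) : x ∈ W := by
  let f : A →+* W :=
    { toFun := fun b => ⟨algebraMap A K b, hA b⟩
      map_one' := Subtype.ext (map_one _)
      map_mul' := fun a b => Subtype.ext (map_mul _ a b)
      map_zero' := Subtype.ext (map_zero _)
      map_add' := fun a b => Subtype.ext (map_add _ a b) }
  obtain ⟨P, hP, hP0⟩ := hx
  have h1 : IsIntegral W x := by
    refine ⟨P.map f, hP.map f, ?_⟩
    rw [Polynomial.eval₂_map]
    exact hP0
  obtain ⟨y, hy⟩ := IsIntegrallyClosed.isIntegral_iff.1 h1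
  rw [← hy]
  exact y.2

open scoped IntermediateField.algebraAdjoinAdjoin in
theorem cur3_model (t : K) (hsep : Algebra.IsSeparable (IntermediateField.adjoin k {t}) K)
    (hfin : FiniteDimensional (IntermediateField.adjoin k {t}) K) :
    ∃ C : Finset K, (∀ W : ValuationSubring K, Over k W → t ∈ W → (∀ c ∈ C, c ∈ W) ∧
      ∀ y ∈ W, ∃ r ∈ Algebra.adjoin k (C : Set K), ∃ s ∈ Algebra.adjoin k (C : Set K),
        W.valuation s = 1 ∧ y = r / s) ∧
      ∀ e : K, e ≠ 0 →
        {W : ValuationSubring K | (Over k W ∧ t ∈ W) ∧ W.valuation e ≠ 1}.Finite := by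
  let A₁ := Algebra.adjoin k ({t} : Set K)
  let L := IntermediateField.adjoin k ({t} : Set K)
  haveI hfg : Algebra.FiniteType k A₁ := A₁.fg_iff_finiteType.1 ⟨{t}, by simp [A₁]⟩
  let f : Polynomial k →ₐ[k] A₁ := Polynomial.aeval ⟨t, Algebra.subset_adjoin rfl⟩
  have hf : Function.Surjective f := by
    rintro ⟨x, hx⟩
    have hx' : x ∈ (Polynomial.aeval (R := k) t).range := by
      rw [← Algebra.adjoin_singleton_eq_range_aeval k t]
      exact hx
    obtain ⟨q, hq⟩ := hx'
    refine ⟨q, Subtype.ext ?_⟩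
    change ((f q : A₁) : K) = x
    rw [← hq]
    exact (Polynomial.aeval_algebraMap_apply K (⟨t, Algebra.subset_adjoin rfl⟩ : A₁) q).symm
  haveI : IsPrincipalIdealRing A₁ := IsPrincipalIdealRing.of_surjective f.toRingHom hf
  haveI : IsDedekindDomain A₁ := inferInstance
  haveI : Algebra.IsSeparable L K := hsep
  haveI : FiniteDimensional L K := hfin
  haveI : IsDedekindDomain (integralClosure A₁ K) := integralClosure.isDedekindDomain A₁ L K
  haveI : IsFractionRing (integralClosure A₁ K) K :=
    integralClosure.isFractionRing_of_finite_extension L K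
  haveI : Module.Finite A₁ (integralClosure A₁ K) :=
    IsIntegralClosure.finite A₁ L K (integralClosure A₁ K)
  haveI : Algebra.FiniteType k (integralClosure A₁ K) :=
    Algebra.FiniteType.trans hfg inferInstance
  obtain ⟨S, hS⟩ := (inferInstance : Algebra.FiniteType k (integralClosure A₁ K)).out
  classical
  let g : integralClosure A₁ K →ₐ[k] K := IsScalarTower.toAlgHom k (integralClosure A₁ K) K
  have hg : ∀ b, g b = algebraMap (integralClosure A₁ K) K b := fun b => rfl
  have hB : ∀ W : ValuationSubring K, Over k W → t ∈ W →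
      ∀ b : integralClosure A₁ K, algebraMap (integralClosure A₁ K) K b ∈ W := by
    intro W hW ht b
    have hA : ∀ a : A₁, algebraMap A₁ K a ∈ W := by
      rintro ⟨a, ha⟩
      change a ∈ W
      have : A₁ ≤ { W.toSubring with algebraMap_mem' := hW } := by
        refine Algebra.adjoin_le ?_
        rintro _ rfl
        exact ht
      exact this ha
    exact cur3_integral W hA b.2
  refine ⟨S.image g, ?_, ?_⟩
  · intro W hW ht
    refine ⟨?_, ?_⟩
    · intro c hc
      obtain ⟨b, _, rfl⟩ := Finset.mem_image.1 hc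
      exact hB W hW ht b
    · intro y hy
      obtain ⟨r, s, hs, h⟩ := cur3_loc W (hB W hW ht) y hy
      have hmem : ∀ b : integralClosure A₁ K, algebraMap (integralClosure A₁ K) K b ∈
          Algebra.adjoin k ((S.image g : Finset K) : Set K) := by
        intro b
        rw [Finset.coe_image, ← AlgHom.map_adjoin, hS]
        exact ⟨b, trivial, rfl⟩
      exact ⟨_, hmem r, _, hmem s, hs, h⟩
  · intro e he
    refine (cur3_fin (B := integralClosure A₁ K) e he).subset ?_
    rintro W ⟨⟨hW, ht⟩, hval⟩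
    exact ⟨hB W hW ht, hval⟩

/-- Two affine models: every valuation ring of `K` over `k` is a local ring of one of them. -/
theorem cur3_models [IsAlgClosed k] (hK : FunF k K 1) :
    ∃ C₁ C₂ : Finset K, (∀ W : ValuationSubring K, Over k W →
      ((∀ c ∈ C₁, c ∈ W) ∧ ∀ y ∈ W, ∃ r ∈ Algebra.adjoin k (C₁ : Set K),
        ∃ s ∈ Algebra.adjoin k (C₁ : Set K), W.valuation s = 1 ∧ y = r / s) ∨
      ((∀ c ∈ C₂, c ∈ W) ∧ ∀ y ∈ W, ∃ r ∈ Algebra.adjoin k (C₂ : Set K),
        ∃ s ∈ Algebra.adjoin k (C₂ : Set K), W.valuation s = 1 ∧ y = r / s)) ∧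
      ∀ e : K, e ≠ 0 →
        {W : ValuationSubring K | Over k W ∧ W.valuation e ≠ 1}.Finite := by
  obtain ⟨t, hsep, hfin⟩ := cur3_sep hK
  have hinv : IntermediateField.adjoin k {t⁻¹} = IntermediateField.adjoin k {t} := by
    apply le_antisymm
    · rw [IntermediateField.adjoin_le_iff]
      rintro _ rfl
      exact inv_mem (IntermediateField.mem_adjoin_simple_self k t)
    · rw [IntermediateField.adjoin_le_iff]
      intro x hx
      rw [Set.mem_singleton_iff] at hx
      rw [hx]
      have := inv_mem (IntermediateField.mem_adjoin_simple_self k t⁻¹)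
      rwa [inv_inv] at this
  obtain ⟨C₁, h₁, h₁'⟩ := cur3_model t hsep hfin
  rw [← hinv] at hsep hfin
  obtain ⟨C₂, h₂, h₂'⟩ := cur3_model t⁻¹ hsep hfin
  refine ⟨C₁, C₂, ?_, ?_⟩
  · intro W hW
    rcases W.mem_or_inv_mem t with h | h
    · exact Or.inl (h₁ W hW h)
    · exact Or.inr (h₂ W hW h)
  · intro e he
    refine ((h₁' e he).union (h₂' e he)).subset ?_
    rintro W ⟨hW, hval⟩
    rcases W.mem_or_inv_mem t with h | h
    · exact Or.inl ⟨⟨hW, h⟩, hval⟩
    · exact Or.inr ⟨⟨hW, h⟩, hval⟩

/-- The residue field of a place is `k`. -/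
theorem cur3_const [IsAlgClosed k] (hK : FunF k K 1) {W : ValuationSubring K} (hW : Place k W)
    {y : K} (hy : y ∈ W) : ∃ c : k, W.valuation (y - algebraMap k K c) < 1 := by
  by_contra hcon
  push Not at hcon
  have hmem : ∀ c : k, W.valuation (y - algebraMap k K c) = 1 := fun c =>
    le_antisymm (cur3_val_le (sub_mem hy (hW.2 c))) (hcon c)
  have hconst : ∀ c : k, c ≠ 0 → W.valuation (algebraMap k K c) = 1 := by
    intro c hc
    refine le_antisymm (cur3_val_le (hW.2 c)) ?_
    have h1 := cur3_val_le (hW.2 c⁻¹)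
    rw [map_inv₀, map_inv₀] at h1
    have h0 : 0 < W.valuation (algebraMap k K c) := by
      rw [Valuation.pos_iff]
      exact (map_ne_zero _).2 hc
    exact (inv_le_one₀ h0).1 h1
  have hpoly : ∀ P : Polynomial k, P ≠ 0 → W.valuation (Polynomial.aeval y P) = 1 := by
    intro P hP
    have h1 := (IsAlgClosed.splits P).eq_prod_roots
    rw [h1, map_mul, Polynomial.aeval_C, map_mul, hconst _ (Polynomial.leadingCoeff_ne_zero.2 hP),
      one_mul, map_multiset_prod, map_multiset_prod, Multiset.map_map, Multiset.map_map]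
    apply Multiset.prod_eq_one
    intro v hv
    obtain ⟨a, _, rfl⟩ := Multiset.mem_map.1 hv
    simp [hmem]
  have htr : Transcendental k y := by
    rintro ⟨P, hP, hP0⟩
    have := hpoly P hP
    rw [hP0, map_zero] at this
    exact zero_ne_one this
  haveI halg : Algebra.IsAlgebraic (IntermediateField.adjoin k {y}) K := by
    have hind : AlgebraicIndependent k (fun _ : Unit => y) :=
      algebraicIndependent_unique_type_iff.2 htr
    have hfin : Algebra.trdeg k K < Cardinal.aleph0 := by
      rw [hK.2]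
      simp
    have hb := hind.isTranscendenceBasis_of_trdeg_le hfin (by rw [hK.2]; simp)
    have h1 := hb.isAlgebraic_field
    rwa [Set.range_const] at h1
  have hsub : ∀ z ∈ IntermediateField.adjoin k {y}, z ∈ W := by
    intro z hz
    obtain ⟨r, s, rfl⟩ := (IntermediateField.mem_adjoin_simple_iff k z).1 hz
    by_cases hs : s = 0
    · rw [hs, map_zero, div_zero]
      exact zero_mem W
    · by_cases hr : r = 0
      · rw [hr, map_zero, zero_div]
        exact zero_mem W
      · rw [div_eq_mul_inv]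
        exact mul_mem (cur3_mem (hpoly r hr)) (cur3_inv_mem (hpoly s hs))
  have htop : ∀ z : K, z ∈ W := by
    intro z
    refine cur3_integral (A := IntermediateField.adjoin k {y}) W (fun a => hsub a a.2) ?_
    exact (Algebra.IsAlgebraic.isAlgebraic z).isIntegral
  haveI := hW.1
  apply IsDiscreteValuationRing.not_isField W
  refine ⟨⟨0, 1, zero_ne_one⟩, mul_comm, ?_⟩
  intro a ha
  refine ⟨⟨(a : K)⁻¹, htop _⟩, Subtype.ext ?_⟩
  change (a : K) * (a : K)⁻¹ = 1
  exact mul_inv_cancel₀ (fun h => ha (Subtype.ext h))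

end cur3_field

/-- C3: all but finitely many places of a curve are regular points of the curve. -/
theorem regK_cofinite {k F : Type} [Field k] [IsAlgClosed k] [Field F] [Algebra k F]
    {A : Subalgebra k F} (hA : A.FG) {K : Type} [Field K] [Algebra k K] (hK : FunF k K 1)
    (ψ : A →ₐ[k] K) (hψ : ∀ e : K, ∃ a b : A, ψ b ≠ 0 ∧ e = ψ a / ψ b) :
    {W | Place k W ∧ ¬ RegK ψ W}.Finite := by
  have _ := hA
  classical
  obtain ⟨C₁, C₂, hC, hfin⟩ := cur3_models hK
  choose num den hden hnd using hψ
  let E : Finset K := (C₁ ∪ C₂).image (fun c => ψ (den c))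
  have hE : ∀ e ∈ E, e ≠ 0 := by
    intro e he
    obtain ⟨c, _, rfl⟩ := Finset.mem_image.1 he
    exact hden c
  have hfinE : (⋃ e ∈ E, {W : ValuationSubring K | Over k W ∧ W.valuation e ≠ 1}).Finite :=
    E.finite_toSet.biUnion fun e he => hfin e (hE e he)
  refine hfinE.subset ?_
  rintro W ⟨hW, hreg⟩
  by_contra hcon
  apply hreg
  have hE1 : ∀ e ∈ E, W.valuation e = 1 := by
    intro e he
    by_contra h
    exact hcon (Set.mem_biUnion he ⟨hW.2, h⟩)
  have hfrac : ∀ C : Finset K, C ⊆ C₁ ∪ C₂ → ∀ x ∈ Algebra.adjoin k (C : Set K),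
      ∃ b a : A, W.valuation (ψ b) = 1 ∧ ψ b * x = ψ a := by
    intro C hCC x hx
    induction hx using Algebra.adjoin_induction with
    | mem c hc =>
      refine ⟨den c, num c, hE1 _ (Finset.mem_image_of_mem (fun c => ψ (den c)) (hCC hc)), ?_⟩
      have h1 := hnd c
      have h2 := hden c
      rw [mul_comm]
      exact (eq_div_iff h2).1 h1
    | algebraMap c => exact ⟨1, algebraMap k A c, by simp, by simp⟩
    | add x y _ _ hx hy =>
      obtain ⟨b, a, hb, h⟩ := hx
      obtain ⟨b', a', hb', h'⟩ := hy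
      refine ⟨b * b', a * b' + a' * b, by rw [map_mul, map_mul, hb, hb', one_mul], ?_⟩
      rw [map_add, map_mul, map_mul, map_mul, ← h, ← h']
      ring
    | mul x y _ _ hx hy =>
      obtain ⟨b, a, hb, h⟩ := hx
      obtain ⟨b', a', hb', h'⟩ := hy
      refine ⟨b * b', a * a', by rw [map_mul, map_mul, hb, hb', one_mul], ?_⟩
      rw [map_mul, map_mul, ← h, ← h']
      ring
  have hmain : ∀ C : Finset K, C ⊆ C₁ ∪ C₂ → ∀ y ∈ W,
      (∃ r ∈ Algebra.adjoin k (C : Set K), ∃ s ∈ Algebra.adjoin k (C : Set K),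
        W.valuation s = 1 ∧ y = r / s) → ∃ a s : A, W.valuation (ψ s) = 1 ∧ y = ψ a / ψ s := by
    rintro C hCC y _ ⟨r, hr, s, hs, hs1, rfl⟩
    obtain ⟨b, a, hb, h⟩ := hfrac C hCC r hr
    obtain ⟨b', a', hb', h'⟩ := hfrac C hCC s hs
    have hb0 := cur3_ne_zero hb
    have hb0' := cur3_ne_zero hb'
    have hs0 := cur3_ne_zero hs1
    refine ⟨b' * a, b * a', ?_, ?_⟩
    · rw [map_mul, ← h', map_mul, map_mul, hb, hb', hs1, one_mul, one_mul]
    · rw [map_mul, map_mul, ← h, ← h']
      field_simp
  intro y hy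
  rcases hC W hW.2 with h | h
  · exact hmain C₁ Finset.subset_union_left y hy (h.2 y hy)
  · exact hmain C₂ Finset.subset_union_right y hy (h.2 y hy)

/-- C5: a place which contains the image of `A` has a centre. -/
theorem exists_center {k F : Type} [Field k] [IsAlgClosed k] [Field F] [Algebra k F]
    {A : Subalgebra k F} (hA : A.FG) {K : Type} [Field K] [Algebra k K] (hK : FunF k K 1)
    (ψ : A →ₐ[k] K) (hψ : ∀ e : K, ∃ a b : A, ψ b ≠ 0 ∧ e = ψ a / ψ b) (W : ValuationSubring K)
    (hW : Place k W) (h : ∀ a, ψ a ∈ W) : ∃ m : Ideal A, m.IsMaximal ∧ CenterK ψ W m := by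
  have _ := hψ
  have _ := hA
  letI : Algebra A K := ψ.toRingHom.toAlgebra
  obtain ⟨m, hm, hmem⟩ := cur3_exists_cen (B := A) W h
  refine ⟨m, Ideal.isMaximal_iff.2 ⟨(Ideal.ne_top_iff_one m).1 hm.ne_top, ?_⟩,
    fun a => ⟨h a, hmem a⟩⟩
  intro J x hJ hx hxJ
  obtain ⟨c, hc⟩ := cur3_const hK hW (h x)
  have hc' : x - algebraMap k A c ∈ m := by
    rw [hmem]
    change W.valuation (ψ (x - algebraMap k A c)) < 1
    rwa [map_sub, AlgHom.commutes]
  have hc0 : c ≠ 0 := by
    rintro rfl
    rw [map_zero, sub_zero] at hc'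
    exact hx hc'
  have h1 : algebraMap k A c ∈ J := by
    have := J.sub_mem hxJ (hJ hc')
    rwa [sub_sub_cancel] at this
  have h2 := J.mul_mem_left (algebraMap k A c⁻¹) h1
  rwa [← map_mul, inv_mul_cancel₀ hc0, map_one] at h2

/-- C6: generators for a place: finitely many `c` in `W` such that every element of `W` is `r / s` with `r, s`
polynomials in the `c` and `s` a unit of `W` (integral closure of the image of `A`). -/
theorem exists_gens {k F : Type} [Field k] [IsAlgClosed k] [Field F] [Algebra k F]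
    {A : Subalgebra k F} (hA : A.FG) {K : Type} [Field K] [Algebra k K] (hK : FunF k K 1)
    (ψ : A →ₐ[k] K) (hψ : ∀ e : K, ∃ a b : A, ψ b ≠ 0 ∧ e = ψ a / ψ b) (W : ValuationSubring K)
    (hW : Place k W) (h : ∀ a, ψ a ∈ W) :
    ∃ C : Finset K, (∀ c ∈ C, c ∈ W) ∧ ∀ y ∈ W, ∃ r ∈ Algebra.adjoin k (C : Set K),
      ∃ s ∈ Algebra.adjoin k (C : Set K), W.valuation s = 1 ∧ y = r / s := by
  have _ := hψ
  have _ := hA
  have _ := h
  obtain ⟨C₁, C₂, hC, _⟩ := cur3_models hK
  rcases hC W hW.2 with h | h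
  · exact ⟨C₁, h⟩
  · exact ⟨C₂, h⟩

end Pool.Agent.Lib.MP_b197b4_ntA
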