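import Mathlib
import Pool.Agent.Lib.MP_b197b4_ntA.Defs
import Pool.Agent.Lib.MP_b197b4_ntK.KLoc
import Pool.Agent.Lib.MP_b197b4_ntD.Dim
import Pool.Agent.Lib.MP_b197b4_ntX.X7

/-!
# MP_b197b4_nt, project K1-ALL: irreducible curves through given regular points
-/

set_option autoImplicit false
set_option linter.style.haveILetI false

namespace Pool.Agent.Lib.MP_b197b4_ntA

open IsLocalRing Pool.Agent.Lib.MP_b197b4_ntK

/-- A fraction of elements of a domain over `k` of finite type and of dimension one. -/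
theorem curveEx_funF {k R K : Type} [Field k] [CommRing R] [IsDomain R] [Algebra k R]
    [Algebra.FiniteType k R] (hR : ringKrullDim R = 1) [Field K] [Algebra k K] [Algebra R K]
    [IsScalarTower k R K] [IsFractionRing R K] : FunF k K 1 := by
  haveI : IsNoetherianRing R := Algebra.FiniteType.isNoetherianRing k R
  constructor
  · haveI : Algebra.EssFiniteType R K :=
      Algebra.EssFiniteType.of_isLocalization K (nonZeroDivisors R)
    haveI : Algebra.EssFiniteType k K := Algebra.EssFiniteType.comp k R K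
    exact IntermediateField.fg_top k K
  · obtain ⟨s, hs⟩ := MP_b197b4_ntD.exists_hasDim k R
    have h1 := hs.ringKrullDim
    rw [hR] at h1
    have h2 : 1 = s := by exact_mod_cast h1
    subst h2
    exact hs.trdeg_frac K

/-- An element of `m` which is not in `P + m ^ 2` is a uniformizer. -/
theorem curveEx_ord {k F : Type} [Field k] [Field F] [Algebra k F] {A : Subalgebra k F}
    {K : Type} [Field K] [Algebra k K] (ψ : A →ₐ[k] K) (P : Ideal A)
    (hker : ∀ a, ψ a = 0 ↔ a ∈ P) (m : Ideal A) (hm : m.IsMaximal)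
    {W : ValuationSubring K} (hW : Place k W) (hc : CenterK ψ W m) (hr : RegK ψ W)
    (z : A) (hz : z ∈ m) (hz2 : z ∉ P ⊔ m ^ 2) : ord W (ψ z) = 1 := by
  have hz0 : ψ z ≠ 0 := fun h => hz2 (Ideal.mem_sup_left ((hker z).1 h))
  have hpos : 0 < ord W (ψ z) := (ord_pos_iff hW.1 hz0).2 ((hc z).2.1 hz)
  by_contra hne
  have h2 : 2 ≤ ord W (ψ z) := by omega
  haveI := hW.1
  obtain ⟨p, hp⟩ := IsDiscreteValuationRing.exists_irreducible W
  have hp0 : (p : K) ≠ 0 := fun h => hp.ne_zero (Subtype.ext h)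
  have hp1 : ord W (p : K) = 1 := ord_eq ⟨p, 1, hp, by simp⟩
  obtain ⟨a, s, hs, has⟩ := hr p p.2
  have hs0 : ψ s ≠ 0 := fun h => by
    rw [h, map_zero] at hs
    exact zero_ne_one hs
  have hs1 : ord W (ψ s) = 0 := (ord_eq_zero_iff hW.1 hs0).2 hs
  have ha0 : ψ a ≠ 0 := fun h => hp0 (by rw [has, h, zero_div])
  have ha1 : ord W (ψ a) = 1 := by
    have h3 : ψ a = (p : K) * ψ s := by rw [has, div_mul_cancel₀ _ hs0]
    rw [h3, ord_mul hW.1 hp0 hs0, hp1, hs1]
    norm_num
  have ham : a ∈ m := (hc a).2.2 ((ord_pos_iff hW.1 ha0).1 (by omega))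
  have hq0 : ψ z / ψ a ^ 2 ≠ 0 := div_ne_zero hz0 (pow_ne_zero 2 ha0)
  have hq : ψ z / ψ a ^ 2 ∈ W := by
    rw [← ord_nonneg_iff hW.1 hq0, ord_div hW.1 hz0 (pow_ne_zero 2 ha0), ord_pow hW.1 ha0, ha1]
    push_cast
    omega
  obtain ⟨b, t, ht, hbt⟩ := hr _ hq
  have ht0 : ψ t ≠ 0 := fun h => by
    rw [h, map_zero] at ht
    exact zero_ne_one ht
  have htm : t ∉ m := fun h => by
    have h3 := (hc t).2.1 h
    rw [ht] at h3
    exact lt_irrefl _ h3
  have h4 : t * z - b * a ^ 2 ∈ P := by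
    rw [← hker, map_sub, map_mul, map_mul, map_pow]
    have h5 : ψ z * ψ t = ψ b * ψ a ^ 2 := by
      rw [div_eq_div_iff (pow_ne_zero 2 ha0) ht0] at hbt
      exact hbt
    rw [mul_comm, h5, sub_self]
  have h6 : t * z ∈ P ⊔ m ^ 2 := by
    have h7 : t * z = (t * z - b * a ^ 2) + b * a ^ 2 := by ring
    rw [h7]
    exact Ideal.add_mem _ (Ideal.mem_sup_left h4)
      (Ideal.mem_sup_right (Ideal.mul_mem_left _ _ (Ideal.pow_mem_pow ham 2)))
  obtain ⟨u, v, hv, huv⟩ := hm.exists_inv htm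
  have h8 : z = u * (t * z) + v * z := by
    have h9 : (u * t + v) * z = z := by rw [huv, one_mul]
    linear_combination -h9
  refine hz2 ?_
  rw [h8]
  refine Ideal.add_mem _ (Ideal.mul_mem_left _ _ h6) (Ideal.mem_sup_right ?_)
  rw [pow_two]
  exact Ideal.mul_mem_mul hv hz

/-- The place of a curve at a point at which the curve is regular. -/
theorem curveEx_place {k F : Type} [Field k] [Field F] [Algebra k F] {A : Subalgebra k F}
    {K : Type} [Field K] [Algebra k K] (ψ : A →ₐ[k] K)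
    (hψ : ∀ e : K, ∃ a b : A, ψ b ≠ 0 ∧ e = ψ a / ψ b) (P : Ideal A)
    (hker : ∀ a, ψ a = 0 ↔ a ∈ P) (m : Ideal A) (hm : m.IsMaximal) (hPm : P ≤ m)
    (hdvr : ∀ _ : (m.map (Ideal.Quotient.mk P)).IsPrime,
      ∃ _ : IsDomain (Localization.AtPrime (m.map (Ideal.Quotient.mk P))),
        IsDiscreteValuationRing (Localization.AtPrime (m.map (Ideal.Quotient.mk P))))
    (z : A) (hz : z ∈ m) (hz2 : z ∉ P ⊔ m ^ 2) :
    ∃ W : ValuationSubring K, Place k W ∧ CenterK ψ W m ∧ RegK ψ W ∧ ord W (ψ z) = 1 := by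
  have hPp : P.IsPrime := by
    have h1 : P = RingHom.ker (ψ : A →+* K) := by
      ext a
      rw [RingHom.mem_ker]
      exact (hker a).symm
    rw [h1]
    exact RingHom.ker_isPrime _
  -- the image
  set B : Subalgebra k K := ψ.range with hB
  have hfr : IsFractionRing B K := by
    refine IsFractionRing.of_field B K fun e => ?_
    obtain ⟨a, b, hb, he⟩ := hψ e
    exact ⟨⟨ψ a, a, rfl⟩, ⟨ψ b, b, rfl⟩, he⟩
  -- the maximal ideal of the image
  have hsurj : Function.Surjective (ψ.rangeRestrict : A →ₐ[k] B) := ψ.rangeRestrict_surjective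
  let f : A →+* B := (ψ.rangeRestrict : A →ₐ[k] B).toRingHom
  have hf : Function.Surjective f := hsurj
  have hfv : ∀ a, ((f a : B) : K) = ψ a := fun a => rfl
  have hkf : RingHom.ker f = P := by
    ext a
    rw [RingHom.mem_ker, ← hker a, ← hfv a]
    exact ⟨fun h => by rw [h]; rfl, fun h => Subtype.ext h⟩
  let m1 : Ideal B := m.map f
  have hcm : ∀ a : A, f a ∈ m1 ↔ a ∈ m := by
    intro a
    have h1 : m1.comap f = m := by
      rw [Ideal.comap_map_of_surjective f hf, ← RingHom.ker_eq_comap_bot, hkf]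
      exact sup_eq_left.2 hPm
    rw [← Ideal.mem_comap, h1]
  have hm1 : m1.IsMaximal := by
    rcases Ideal.map_eq_top_or_isMaximal_of_surjective f hf hm with h | h
    · exfalso
      have h1 : f 1 ∈ m1 := by
        change f 1 ∈ m.map f
        rw [h]
        exact Submodule.mem_top
      exact hm.ne_top ((Ideal.eq_top_iff_one m).2 ((hcm 1).1 h1))
    · exact h
  haveI hm1p : m1.IsPrime := hm1.isPrime
  -- the discrete valuation ring
  have hmp : (m.map (Ideal.Quotient.mk P)).IsPrime := by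
    haveI := hm.isPrime
    refine Ideal.map_isPrime_of_surjective Ideal.Quotient.mk_surjective ?_
    rw [Ideal.mk_ker]
    exact hPm
  obtain ⟨hD, hdv⟩ := hdvr hmp
  let e : (A ⧸ P) ≃+* B :=
    (Ideal.quotEquivOfEq hkf.symm).trans (RingHom.quotientKerEquivOfSurjective hf)
  have he : ∀ a : A, e (Ideal.Quotient.mk P a) = f a := fun a => rfl
  have hpc : (m.map (Ideal.Quotient.mk P)).primeCompl.map (e : (A ⧸ P) ≃+* B).toMonoidHom =
      m1.primeCompl := by
    ext b
    obtain ⟨a, rfl⟩ := hf b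
    have hmk : Ideal.Quotient.mk P a ∈ m.map (Ideal.Quotient.mk P) ↔ a ∈ m := by
      have h1 : (m.map (Ideal.Quotient.mk P)).comap (Ideal.Quotient.mk P) = m := by
        rw [Ideal.comap_map_of_surjective _ Ideal.Quotient.mk_surjective,
          ← RingHom.ker_eq_comap_bot, Ideal.mk_ker]
        exact sup_eq_left.2 hPm
      rw [← Ideal.mem_comap, h1]
    constructor
    · rintro ⟨c, hc, hce⟩
      obtain ⟨c, rfl⟩ := Ideal.Quotient.mk_surjective c
      have hce' : f c = f a := hce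
      change f a ∉ m1
      rw [← hce', hcm]
      intro h
      exact hc (Ideal.mem_map_of_mem _ h)
    · intro h
      refine ⟨Ideal.Quotient.mk P a, ?_, rfl⟩
      change Ideal.Quotient.mk P a ∉ m.map (Ideal.Quotient.mk P)
      rw [hmk, ← hcm]
      exact h
  have hdv1 : IsDiscreteValuationRing (Localization.AtPrime m1) := by
    haveI := hdv
    exact IsDiscreteValuationRing.RingEquivClass.isDiscreteValuationRing
      (IsLocalization.ringEquivOfRingEquiv (Localization.AtPrime (m.map (Ideal.Quotient.mk P)))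
        (Localization.AtPrime m1) e hpc)
  obtain ⟨W, hW, hWm⟩ := exists_curve_of_dvr hfr m1 hdv1
  have hval : ∀ a : A, W.valuation (ψ a) < 1 ↔ a ∈ m := fun a => by
    rw [← hcm a, hWm (f a), hfv a]
  have hval1 : ∀ a : A, W.valuation (ψ a) = 1 ↔ a ∉ m := fun a => by
    rw [← hcm a, hWm.val_one hW.2.1 (f a), hfv a]
  have hpl : Place k W := ⟨hW.1, fun c => hW.2.1 _ (B.algebraMap_mem c)⟩
  have hce : CenterK ψ W m := fun a => ⟨hW.2.1 _ ⟨a, rfl⟩, (hval a).symm⟩
  have hre : RegK ψ W := by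
    intro y hy
    obtain ⟨a, s, ⟨a', ha'⟩, ⟨s', hs'⟩, hs1, hyas⟩ := hW.2.2 y hy
    refine ⟨a', s', ?_, ?_⟩
    · rw [← hs1, ← hs']
      rfl
    · rw [hyas, ← ha', ← hs']
      rfl
  exact ⟨W, hpl, hce, hre, curveEx_ord ψ P hker m hm hpl hce hre z hz hz2⟩

/-- An affine domain which is not a field has a maximal ideal outside a given finite set. -/
theorem curveEx_max {k A : Type} [Field k] [CommRing A] [IsDomain A] [Algebra k A]
    [Algebra.FiniteType k A] {d : ℕ} (hd : 2 ≤ d) (hA : ∀ m : Ideal A, m.IsMaximal → m.height = d)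
    (Ts : Finset (Ideal A)) (hT : ∀ m ∈ Ts, m.IsMaximal) :
    ∃ m : Ideal A, m.IsMaximal ∧ m ∉ Ts := by
  by_contra hcon
  push Not at hcon
  haveI : IsJacobsonRing A := isJacobsonRing_of_finiteType (A := k) (B := A)
  have h1 : (⊥ : Ideal A).jacobson = ⊥ := by
    have h2 : (⊥ : Ideal A).IsRadical := Ideal.isPrime_bot.isRadical
    exact IsJacobsonRing.out inferInstance h2
  have h3 : ∏ t ∈ Ts, t ≤ (⊥ : Ideal A) := by
    rw [← h1]
    unfold Ideal.jacobson
    refine le_sInf ?_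
    rintro m ⟨-, hm⟩
    exact (Ideal.prod_le_inf).trans (Finset.inf_le (f := id) (hcon m hm))
  have h4 : ∏ t ∈ Ts, t = (⊥ : Ideal A) := le_bot_iff.1 h3
  rw [← Ideal.zero_eq_bot, Finset.prod_eq_zero_iff] at h4
  obtain ⟨t, ht, ht0⟩ := h4
  have h5 := hA t (hT t ht)
  rw [ht0, Ideal.zero_eq_bot] at h5
  have h6 : (⊥ : Ideal A).height = 0 := Ideal.height_eq_zero_iff_eq_bot.2 rfl
  rw [h6] at h5
  have h7 : (0 : ℕ) = d := by exact_mod_cast h5
  omega

/-- An affine domain of dimension at least two contains curves which avoid given points. -/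
theorem curveEx_avoid {k A : Type} [Field k] [CommRing A] [IsDomain A] [Algebra k A]
    [Algebra.FiniteType k A] {d : ℕ} (hd : 2 ≤ d) (hA : ∀ m : Ideal A, m.IsMaximal → m.height = d)
    (Ts : Finset (Ideal A)) (hT : ∀ m ∈ Ts, m.IsMaximal) :
    ∃ P : Ideal A, P.IsPrime ∧ ringKrullDim (A ⧸ P) = 1 ∧ ∀ t ∈ Ts, ¬ P ≤ t := by
  classical
  haveI : IsNoetherianRing A := Algebra.FiniteType.isNoetherianRing k A
  obtain ⟨m, hm, hmT⟩ := curveEx_max (k := k) hd hA Ts hT
  obtain ⟨f, hfm, hft⟩ : ∃ f ∈ m, ∀ t ∈ Ts, f ∉ t := by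
    by_contra hcon
    push Not at hcon
    have h1 : ((m : Set A) ⊆ ⋃ t ∈ (↑Ts : Set (Ideal A)), (t : Set A)) := by
      intro f hf
      obtain ⟨t, ht, hft⟩ := hcon f hf
      exact Set.mem_biUnion ht hft
    obtain ⟨t, ht, hmt⟩ := (Ideal.subset_union_prime (s := Ts) (f := fun t => t) ⊥ ⊥
      (fun t ht _ _ => (hT t ht).isPrime)).1 h1
    exact hmT ((hm.eq_of_le (hT t ht).ne_top hmt) ▸ ht)
  -- a minimal prime over `f`
  haveI hmp := hm.isPrime
  obtain ⟨Q, hQ, hQm⟩ := Ideal.exists_minimalPrimes_le ((Ideal.span_singleton_le_iff_mem m).2 hfm)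
  have hQp : Q.IsPrime := hQ.1.1
  have hQf : f ∈ Q := hQ.1.2 (Ideal.mem_span_singleton_self f)
  have hQh : Q.height ≤ 1 := Ideal.height_le_one_of_isPrincipal_of_mem_minimalPrimes _ Q hQ
  have hQne : Q ≠ m := by
    rintro rfl
    rw [hA Q hm] at hQh
    have h1 : d ≤ 1 := by exact_mod_cast hQh
    omega
  -- a maximal element
  let S : Set (Ideal A) := {P | P.IsPrime ∧ f ∈ P ∧ P < m}
  obtain ⟨P, hPS, hPmax⟩ := set_has_maximal_iff_noetherian.2 (inferInstance : IsNoetherian A A) S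
    ⟨Q, hQp, hQf, lt_of_le_of_ne hQm hQne⟩
  obtain ⟨hPp, hPf, hPm⟩ := hPS
  refine ⟨P, hPp, ?_, fun t ht hPt => hft t ht (hPt hPf)⟩
  obtain ⟨s, hs⟩ := MP_b197b4_ntD.exists_hasDim k (A ⧸ P)
  rw [hs.ringKrullDim]
  have hmk : (m.map (Ideal.Quotient.mk P)).comap (Ideal.Quotient.mk P) = m := by
    rw [Ideal.comap_map_of_surjective _ Ideal.Quotient.mk_surjective,
      ← RingHom.ker_eq_comap_bot, Ideal.mk_ker]
    exact sup_eq_left.2 hPm.le
  have hm' : (m.map (Ideal.Quotient.mk P)).IsMaximal :=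
    Ideal.IsMaximal.map_of_surjective_of_ker_le Ideal.Quotient.mk_surjective
      (by rw [Ideal.mk_ker]; exact hPm.le)
  haveI := hm'.isPrime
  have hh := hs.height _ hm'
  obtain ⟨l, hl, hlen⟩ := Ideal.exists_ltSeries_length_eq_height (m.map (Ideal.Quotient.mk P))
  have hls : l.length = s := by
    rw [hh] at hlen
    exact_mod_cast hlen
  have hs0 : s ≠ 0 := by
    rintro rfl
    have h1 : m.map (Ideal.Quotient.mk P) = ⊥ := Ideal.height_eq_zero_iff_eq_bot.1 (by
      rw [hh]; rfl)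
    rw [h1, ← RingHom.ker_eq_comap_bot, Ideal.mk_ker] at hmk
    exact hPm.ne hmk
  have hs1 : s < 2 := by
    by_contra hs2
    -- the last but one element
    let p := l ⟨s - 1, by omega⟩
    have h1 : p.asIdeal < m.map (Ideal.Quotient.mk P) := by
      have h2 : l ⟨s - 1, by omega⟩ < l (Fin.last _) := l.strictMono (by
        rw [Fin.lt_def]
        simp only [Fin.val_last]
        omega)
      have h3 : l (Fin.last _) = l.last := rfl
      rw [h3, hl] at h2
      exact h2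
    have h4 : (⊥ : Ideal (A ⧸ P)) < p.asIdeal := by
      have h2 : l ⟨0, by omega⟩ < l ⟨s - 1, by omega⟩ := l.strictMono (by
        rw [Fin.lt_def]
        simp only
        omega)
      exact lt_of_le_of_lt bot_le h2
    have hsm := RingHom.strictMono_comap_of_surjective (f := Ideal.Quotient.mk P)
      Ideal.Quotient.mk_surjective
    refine hPmax (p.asIdeal.comap (Ideal.Quotient.mk P)) ⟨p.isPrime.comap _, ?_, ?_⟩ ?_
    · rw [Ideal.mem_comap, Ideal.Quotient.eq_zero_iff_mem.2 hPf]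
      exact zero_mem _
    · refine lt_of_le_of_ne (hmk ▸ Ideal.comap_mono h1.le) fun h5 => ?_
      have h6 := congrArg (Ideal.map (Ideal.Quotient.mk P)) h5
      rw [Ideal.map_comap_of_surjective _ Ideal.Quotient.mk_surjective] at h6
      exact h1.ne h6
    · refine lt_of_le_of_ne ?_ fun h5 => ?_
      · intro a ha
        rw [Ideal.mem_comap, Ideal.Quotient.eq_zero_iff_mem.2 ha]
        exact zero_mem _
      · have h6 := congrArg (Ideal.map (Ideal.Quotient.mk P)) h5
        rw [Ideal.map_comap_of_surjective _ Ideal.Quotient.mk_surjective,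
          Ideal.map_quotient_self] at h6
        exact h4.ne h6
  have h7 : s = 1 := by omega
  rw [h7]
  rfl

/-- EX (helper71): irreducible curves through given regular points `m` with given uniformizers `z m`, avoiding given points. -/
theorem exists_curveK {k F : Type} [Field k] [IsAlgClosed k] [Field F] [Algebra k F] {d : ℕ}
    (hd : 2 ≤ d) {A : Subalgebra k F} (hA : DChart d A) (Ms Ts : Finset (Ideal A))
    (z : Ideal A → A) (hM : ∀ m ∈ Ms, RegMax m ∧ z m ∈ m ∧ z m ∉ m ^ 2)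
    (hT : ∀ m ∈ Ts, m.IsMaximal) (hd' : Disjoint Ms Ts) :
    ∃ (K : Type) (_ : Field K) (_ : Algebra k K) (ψ : A →ₐ[k] K), FunF k K 1 ∧
      (∀ e : K, ∃ a b : A, ψ b ≠ 0 ∧ e = ψ a / ψ b) ∧
      (∀ m ∈ Ms, ∃ W : ValuationSubring K, Place k W ∧ CenterK ψ W m ∧ RegK ψ W ∧
        ord W (ψ (z m)) = 1) ∧
      ∀ m ∈ Ts, ∃ a : A, ψ a = 0 ∧ a ∉ m := by
  haveI : Algebra.FiniteType k A := A.fg_iff_finiteType.1 hA.fg
  obtain ⟨P, hP, hdim, hMP, hTP⟩ : ∃ P : Ideal A, P.IsPrime ∧ ringKrullDim (A ⧸ P) = 1 ∧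
      (∀ m ∈ Ms, P ≤ m ∧ z m ∉ P ⊔ m ^ 2 ∧ ∀ _ : (m.map (Ideal.Quotient.mk P)).IsPrime,
        ∃ _ : IsDomain (Localization.AtPrime (m.map (Ideal.Quotient.mk P))),
          IsDiscreteValuationRing (Localization.AtPrime (m.map (Ideal.Quotient.mk P)))) ∧
      ∀ t ∈ Ts, ¬ P ≤ t := by
    rcases Ms.eq_empty_or_nonempty with he | hne
    · obtain ⟨P, hP, hdim, hTP⟩ := curveEx_avoid (k := k) hd hA.height Ts hT
      refine ⟨P, hP, hdim, ?_, hTP⟩
      intro m hm
      rw [he] at hm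
      exact absurd hm (Finset.notMem_empty m)
    · obtain ⟨P, hP, hdim, -, hMP, hTP⟩ := MP_b197b4_ntX.exists_curve_final (k := k) d hd Ms Ts hne
        (fun m hm => (hM m hm).1.1) hT hd' z
        (fun m hm hp => ⟨(hM m hm).1.2 hp, by
          rw [IsLocalization.AtPrime.ringKrullDim_eq_height m (Localization.AtPrime m),
            hA.height m (hM m hm).1.1]
          rfl⟩) (fun m hm => (hM m hm).2)
      exact ⟨P, hP, hdim, hMP, hTP⟩
  haveI := hP
  let ψ : A →ₐ[k] FractionRing (A ⧸ P) :=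
    (IsScalarTower.toAlgHom k (A ⧸ P) (FractionRing (A ⧸ P))).comp (Ideal.Quotient.mkₐ k P)
  have hψ : ∀ a, ψ a = algebraMap (A ⧸ P) (FractionRing (A ⧸ P)) (Ideal.Quotient.mk P a) :=
    fun a => rfl
  have hinj : Function.Injective (algebraMap (A ⧸ P) (FractionRing (A ⧸ P))) :=
    IsFractionRing.injective _ _
  have hker : ∀ a, ψ a = 0 ↔ a ∈ P := by
    intro a
    rw [hψ, map_eq_zero_iff _ hinj]
    exact Ideal.Quotient.eq_zero_iff_mem
  have hgen : ∀ e : FractionRing (A ⧸ P), ∃ a b : A, ψ b ≠ 0 ∧ e = ψ a / ψ b := by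
    intro e
    obtain ⟨x, y, hy, rfl⟩ := IsFractionRing.div_surjective (A := A ⧸ P) e
    obtain ⟨a, rfl⟩ := Ideal.Quotient.mk_surjective x
    obtain ⟨b, rfl⟩ := Ideal.Quotient.mk_surjective y
    refine ⟨a, b, ?_, rfl⟩
    rw [hψ, Ne, map_eq_zero_iff _ hinj]
    exact nonZeroDivisors.ne_zero hy
  refine ⟨FractionRing (A ⧸ P), inferInstance, inferInstance, ψ, curveEx_funF hdim, hgen, ?_, ?_⟩
  · intro m hm
    obtain ⟨hPm, hz, hdvr⟩ := hMP m hm
    exact curveEx_place ψ hgen P hker m (hM m hm).1.1 hPm hdvr (z m) (hM m hm).2.1 hz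
  · intro t ht
    obtain ⟨a, ha, hat⟩ := Set.not_subset.1 (hTP t ht)
    exact ⟨a, (hker a).2 ha, hat⟩

end Pool.Agent.Lib.MP_b197b4_ntA
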