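import Mathlib
import Pool.Agent.Lib.MP_b197b4_ntA.Defs

/-!
# MP_b197b4_nt, project K1-ALL: extensions of charts, charts of blow ups
-/

set_option autoImplicit false

namespace Pool.Agent.Lib.MP_b197b4_ntA

open IsLocalRing Pool.Agent.Lib.MP_b197b4_ntK

/-- Localizations and charts of blow ups of closed points. -/
structure Ext {k F : Type} [Field k] [Field F] [Algebra k F] (A A' : Subalgebra k F) (f : F) :
    Prop where
  le : A ≤ A'
  mem : f ∈ A
  ne : f ≠ 0
  pow : ∀ a ∈ A', ∃ n : ℕ, f ^ n * a ∈ A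
  pt : ∀ P : Ideal A', P.IsPrime → (⟨f, le mem⟩ : A') ∈ P →
    (P.comap (Subalgebra.inclusion le)).IsMaximal

open Classical in
/-- The forms on the extension: zero on the curves in `f = 0`. -/
noncomputable def lext {k F : Type} [Field k] [Field F] [Algebra k F] {A A' : Subalgebra k F} {f : F}
    (h : Ext A A' f) (l : Ideal A → A → ℚ) (P : Ideal A') (a : A') : ℚ :=
  if (⟨f, h.le h.mem⟩ : A') ∈ P then 0 else
    l (P.comap (Subalgebra.inclusion h.le)) ⟨_, (h.pow a a.2).choose_spec⟩ -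
      (h.pow a a.2).choose * l (P.comap (Subalgebra.inclusion h.le)) ⟨f, h.mem⟩

/-- `A'` is a chart of the blow up of `Spec A` at the regular closed point `y` (after a localization). `z` is the local
parameter at `y` which generates the ideal of the exceptional divisor. -/
structure Blow (k : Type) {F : Type} [Field k] [Field F] [Algebra k F] (d : ℕ) (A A' : Subalgebra k F)
    (f : F) (y : Ideal A) (z : A) : Prop where
  ext : Ext A A' f
  chart : DChart d A'
  z_mem : z ∈ y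
  z_sq : z ∉ y ^ 2
  /-- `f / z` is a unit of `A'` -/
  unit : ∃ u ∈ A', u ∈ A' ∧ u⁻¹ ∈ A' ∧ f = u * (z : F)
  comap : ∀ n : Ideal A', n.IsPrime → (⟨f, ext.le ext.mem⟩ : A') ∈ n →
    n.comap (Subalgebra.inclusion ext.le) = y
  reg : ∀ n : Ideal A', n.IsMaximal → (⟨f, ext.le ext.mem⟩ : A') ∈ n → RegMax n
  /-- places at which `z` is a uniformizer are centred on `A'` -/
  cen : ∀ (K : Type) [Field K] [Algebra k K] (ψ : A →ₐ[k] K) (ψ' : A' →ₐ[k] K)
    (W : ValuationSubring K), ψ'.comp (Subalgebra.inclusion ext.le) = ψ → Place k W → CenterK ψ W y →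
      ord W (ψ z) = 1 → ∀ a, ψ' a ∈ W
  /-- lines in the exceptional divisor -/
  line : ∀ n n' : Ideal A', n.IsMaximal → n'.IsMaximal → n ≠ n' →
    (⟨f, ext.le ext.mem⟩ : A') ∈ n → (⟨f, ext.le ext.mem⟩ : A') ∈ n' →
    ∃ (χ : A' →ₐ[k] RatFunc k) (W W' : ValuationSubring (RatFunc k)),
      χ ⟨f, ext.le ext.mem⟩ = 0 ∧ (∀ e, ∃ a b : A', χ b ≠ 0 ∧ e = χ a / χ b) ∧ Place k W ∧
        Place k W' ∧ CenterK χ W n ∧ CenterK χ W' n' ∧ RegK χ W ∧ RegK χ W'

end Pool.Agent.Lib.MP_b197b4_ntA
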