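import Mathlib
import Pool.Agent.Lib.MP_b197b4_ntA.Defs2
import Pool.Agent.Lib.MP_b197b4_ntD.Dim
import Pool.Agent.Lib.MP_b197b4_ntK.Curve

/-!
# MP_b197b4_nt, project K1-ALL: the forms on an extension (E1)
-/

set_option autoImplicit false
set_option linter.style.haveILetI false

namespace Pool.Agent.Lib.MP_b197b4_ntA

open IsLocalRing Pool.Agent.Lib.MP_b197b4_ntK Pool.Agent.Lib.MP_b197b4_ntD

/-- Nullstellensatz. -/
theorem e1_const {k F : Type} [Field k] [IsAlgClosed k] [Field F] [Algebra k F]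
    {A : Subalgebra k F} (hA : A.FG) {m : Ideal A} (hm : m.IsMaximal) (a : A) :
    ∃ c : k, a - algebraMap k A c ∈ m := by
  have : Algebra.FiniteType k A := A.fg_iff_finiteType.1 hA
  let := Ideal.Quotient.field m
  have h1 : Algebra.FiniteType k (A ⧸ m) := inferInstance
  have h2 : Module.Finite k (A ⧸ m) := finite_of_finite_type_of_isJacobsonRing k (A ⧸ m)
  have h3 : Algebra.IsIntegral k (A ⧸ m) := Algebra.IsIntegral.of_finite k (A ⧸ m)
  obtain ⟨c, hc⟩ := (IsAlgClosed.algebraMap_bijective_of_isIntegral (k := k) (K := A ⧸ m)).2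
    (Ideal.Quotient.mk m a)
  refine ⟨c, ?_⟩
  rw [← Ideal.Quotient.eq_zero_iff_mem, map_sub, sub_eq_zero, ← hc]
  rfl

section Surface

variable {k F : Type} [Field k] [Field F] [Algebra k F] {A : Subalgebra k F} {E : Type} [Field E]
  [Algebra k E] {φ : A →ₐ[k] E} {V : ValuationSubring E}

theorem e1_fg (hA : A.FG) (φ : A →ₐ[k] E) : Algebra.FiniteType k φ.range := by
  have : Algebra.FiniteType k A := A.fg_iff_finiteType.1 hA
  exact Algebra.FiniteType.of_surjective φ.rangeRestrict φ.rangeRestrict_surjective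

theorem e1_hasDim (hA : A.FG) (hE : FunF k E 2)
    (hφ : ∀ e : E, ∃ a b : A, φ b ≠ 0 ∧ e = φ a / φ b) : HasDim k φ.range 2 := by
  have := e1_fg hA φ
  have : IsFractionRing φ.range E := by
    refine IsFractionRing.of_field _ _ fun e => ?_
    obtain ⟨a, b, -, h⟩ := hφ e
    exact ⟨⟨φ a, a, rfl⟩, ⟨φ b, b, rfl⟩, h⟩
  obtain ⟨s, hs⟩ := exists_hasDim k φ.range
  have h1 := hs.trdeg_frac E
  rw [hE.2] at h1
  have h2 : (2 : ℕ) = s := by exact_mod_cast h1
  rwa [h2]

/-- The ideal of a curve on the surface. -/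
theorem e1_curve (hA : A.FG) (hE : FunF k E 2)
    (hφ : ∀ e : E, ∃ a b : A, φ b ≠ 0 ∧ e = φ a / φ b) (hV : IsCurve φ.range V) {P : Ideal A}
    (hP : ∀ a, a ∈ P ↔ res V (φ a) = 0) : P.IsPrime ∧ ringKrullDim (A ⧸ P) = 1 := by
  have h1 := e1_hasDim hA hE hφ
  have hft := e1_fg hA φ
  have : IsNoetherianRing φ.range := Algebra.FiniteType.isNoetherianRing k _
  obtain ⟨Q, hQp, hQ⟩ := exists_primeOf (A := φ.range) hV.2.1
  have h2 := hV.height hQ
  obtain ⟨h, t, h3, h4, h5⟩ := h1.quotient Q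
  rw [h2] at h3
  have h6 : (1 : ℕ) = h := by exact_mod_cast h3
  have h7 : t = 1 := by omega
  rw [h7] at h4
  have h8 := h4.ringKrullDim
  let g : A →+* (φ.range ⧸ Q) := (Ideal.Quotient.mk Q).comp φ.rangeRestrict.toRingHom
  have hg : Function.Surjective g :=
    Ideal.Quotient.mk_surjective.comp φ.rangeRestrict_surjective
  have hker : RingHom.ker g = P := by
    ext a
    rw [RingHom.mem_ker, hP a]
    change Ideal.Quotient.mk Q (φ.rangeRestrict a) = 0 ↔ _
    rw [Ideal.Quotient.eq_zero_iff_mem, hQ]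
    exact (res_eq_zero_iff (hV.2.1 _ ⟨a, rfl⟩)).symm
  have h9 := ringKrullDim_eq_of_ringEquiv (RingHom.quotientKerEquivOfSurjective hg)
  rw [hker, h8] at h9
  refine ⟨?_, h9⟩
  rw [← hker]
  exact RingHom.ker_isPrime g

theorem e1_over (hV : IsCurve φ.range V) : Over k V :=
  fun c => hV.2.1 _ (φ.range.algebraMap_mem c)

theorem e1_isDiv (hA : A.FG) (hE : FunF k E 2)
    (hφ : ∀ e : E, ∃ a b : A, φ b ≠ 0 ∧ e = φ a / φ b) (hV : IsCurve φ.range V) : IsDiv k V := by
  refine ⟨hV.1, e1_over hV, ?_⟩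
  by_contra hcon
  push Not at hcon
  have h1 := e1_hasDim hA hE hφ
  have hft := e1_fg hA φ
  have : IsNoetherianRing φ.range := Algebra.FiniteType.isNoetherianRing k _
  obtain ⟨Q, hQp, hQ⟩ := exists_primeOf (A := φ.range) hV.2.1
  have h2 := hV.height hQ
  have hmax : Q.IsMaximal := by
    rw [Ideal.isMaximal_iff]
    refine ⟨fun h => hQp.ne_top ((Ideal.eq_top_iff_one _).2 h), fun J r hQJ hr hrJ => ?_⟩
    obtain ⟨c, hc⟩ := hcon r (hV.2.1 r r.2)
    have h3 : r - algebraMap k φ.range c ∈ Q := by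
      rw [hQ, ← res_eq_zero_iff (hV.2.1 _ (r - algebraMap k φ.range c).2)]
      change res V ((r : E) - algebraMap k E c) = 0
      rw [res_sub (hV.2.1 r r.2) (e1_over hV c), hc, sub_self]
    have hc0 : c ≠ 0 := by
      rintro rfl
      rw [map_zero, sub_zero] at h3
      exact hr h3
    have h4 : algebraMap k φ.range c ∈ J := by
      have h5 := sub_mem hrJ (hQJ h3)
      rwa [sub_sub_cancel] at h5
    have h5 := J.mul_mem_left (algebraMap k φ.range c⁻¹) h4
    rwa [← map_mul, inv_mul_cancel₀ hc0, map_one] at h5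
  have h3 := h1.height Q hmax
  rw [h2] at h3
  have h4 : (1 : ℕ) = 2 := by exact_mod_cast h3
  omega

end Surface

section Forms

variable {k F : Type} [Field k] [Field F] [Algebra k F] {A A' : Subalgebra k F} {f : F}

theorem e1_pow {A : Subalgebra k F} {l : Ideal A → A → ℚ} (hl : Lam k A l) {P : Ideal A}
    (hP : P.IsPrime) (hd : ringKrullDim (A ⧸ P) = 1) {a : A} (ha : a ∉ P) (n : ℕ) :
    l P (a ^ n) = n * l P a := by
  have h1 : (1 : A) ∉ P := fun h => hP.ne_top ((Ideal.eq_top_iff_one _).2 h)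
  induction n with
  | zero =>
    have h2 := hl.mul P hP hd 1 1 h1 h1
    rw [mul_one] at h2
    rw [pow_zero, Nat.cast_zero, zero_mul]
    linarith
  | succ n ih =>
    rw [pow_succ, hl.mul P hP hd _ _ (fun h => ha (hP.mem_of_pow_mem n h)) ha, ih]
    push_cast
    ring

/-- `lext` can be computed with any power of `f`. -/
theorem e1_lext (h : Ext A A' f) {l : Ideal A → A → ℚ} (hl : Lam k A l) {P : Ideal A'}
    (hP : P.IsPrime) (hf : (⟨f, h.le h.mem⟩ : A') ∉ P)
    (hd : ringKrullDim (A ⧸ P.comap (Subalgebra.inclusion h.le)) = 1) {a : A'} (ha : a ∉ P)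
    (n : ℕ) (a₁ : A) (h1 : (a₁ : F) = f ^ n * a) :
    lext h l P a = l (P.comap (Subalgebra.inclusion h.le)) a₁ -
      n * l (P.comap (Subalgebra.inclusion h.le)) ⟨f, h.mem⟩ := by
  have hP₀ : (P.comap (Subalgebra.inclusion h.le)).IsPrime := Ideal.IsPrime.comap _
  set P₀ := P.comap (Subalgebra.inclusion h.le) with hP₀def
  have hf₀ : (⟨f, h.mem⟩ : A) ∉ P₀ := hf
  have key : ∀ (m : ℕ) (b : A), (b : F) = f ^ m * a → b ∉ P₀ := by
    intro m b hb hbP
    have h2 : (Subalgebra.inclusion h.le b : A') = ⟨f, h.le h.mem⟩ ^ m * a := by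
      apply Subtype.ext
      change (b : F) = f ^ m * a
      exact hb
    have h3 : (Subalgebra.inclusion h.le b : A') ∈ P := hbP
    rw [h2] at h3
    rcases hP.mem_or_mem h3 with h4 | h4
    · exact hf (hP.mem_of_pow_mem m h4)
    · exact ha h4
  unfold lext
  rw [if_neg hf]
  set N := (h.pow a a.2).choose with hN
  set a₀ : A := ⟨_, (h.pow a a.2).choose_spec⟩ with ha₀
  have h0 : (a₀ : F) = f ^ N * a := rfl
  have h2 : (⟨f, h.mem⟩ : A) ^ n * a₀ = ⟨f, h.mem⟩ ^ N * a₁ := by
    apply Subtype.ext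
    change f ^ n * (a₀ : F) = f ^ N * (a₁ : F)
    rw [h0, h1]
    ring
  have h3 := congrArg (l P₀) h2
  rw [hl.mul P₀ hP₀ hd _ _ (fun h => hf₀ (hP₀.mem_of_pow_mem n h)) (key N a₀ h0),
    hl.mul P₀ hP₀ hd _ _ (fun h => hf₀ (hP₀.mem_of_pow_mem N h)) (key n a₁ h1),
    e1_pow hl hP₀ hd hf₀, e1_pow hl hP₀ hd hf₀] at h3
  linarith

/-- The curves of the extension which do not lie in `f = 0` are curves of the chart. -/
theorem e1_dim (hA : A.FG) (hA' : A'.FG) (h : Ext A A' f) {P : Ideal A'} (hP : P.IsPrime)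
    (hf : (⟨f, h.le h.mem⟩ : A') ∉ P) (hd : ringKrullDim (A' ⧸ P) = 1) :
    ringKrullDim (A ⧸ P.comap (Subalgebra.inclusion h.le)) = 1 := by
  have : Algebra.FiniteType k A := A.fg_iff_finiteType.1 hA
  have : Algebra.FiniteType k A' := A'.fg_iff_finiteType.1 hA'
  have hP₀ : (P.comap (Subalgebra.inclusion h.le)).IsPrime := Ideal.IsPrime.comap _
  let B := A' ⧸ P
  let B₀ := A ⧸ P.comap (Subalgebra.inclusion h.le)
  have : IsDomain B := Ideal.Quotient.isDomain _
  have : IsDomain B₀ := Ideal.Quotient.isDomain _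
  have : IsNoetherianRing A := Algebra.FiniteType.isNoetherianRing k _
  have : IsNoetherianRing A' := Algebra.FiniteType.isNoetherianRing k _
  have : IsNoetherianRing B := Ideal.Quotient.isNoetherianRing _
  have : IsNoetherianRing B₀ := Ideal.Quotient.isNoetherianRing _
  let j : B₀ →ₐ[k] B := Ideal.quotientMapₐ P (Subalgebra.inclusion h.le) le_rfl
  have hj : Function.Injective j := Ideal.quotientMap_injective
  obtain ⟨s, hs⟩ := exists_hasDim k B
  have h1 := hs.ringKrullDim
  rw [hd] at h1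
  have h2 : s = 1 := by exact_mod_cast h1.symm
  subst h2
  have h3 := hs.trdeg
  letI := j.toRingHom.toAlgebra
  haveI : IsScalarTower k B₀ B := IsScalarTower.of_algebraMap_eq fun c => (j.commutes c).symm
  haveI : FaithfulSMul B₀ B := (faithfulSMul_iff_algebraMap_injective _ _).2 hj
  haveI : FaithfulSMul k B₀ := (faithfulSMul_iff_algebraMap_injective _ _).2
    (algebraMap k B₀).injective
  haveI : Algebra.IsAlgebraic B₀ B := by
    refine ⟨fun b => ?_⟩
    obtain ⟨a, rfl⟩ := Ideal.Quotient.mk_surjective b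
    obtain ⟨n, hn⟩ := h.pow a a.2
    let c : B₀ := Ideal.Quotient.mk _ (⟨f, h.mem⟩ ^ n)
    let d : B₀ := Ideal.Quotient.mk _ ⟨f ^ n * a, hn⟩
    have hc : c ≠ 0 := by
      intro h0
      have h4 : (⟨f, h.mem⟩ : A) ^ n ∈ P.comap (Subalgebra.inclusion h.le) :=
        Ideal.Quotient.eq_zero_iff_mem.1 h0
      exact hf (hP₀.mem_of_pow_mem n h4)
    have hcd : algebraMap B₀ B c * Ideal.Quotient.mk P a = algebraMap B₀ B d := by
      change Ideal.Quotient.mk P (Subalgebra.inclusion h.le (⟨f, h.mem⟩ ^ n)) *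
        Ideal.Quotient.mk P a = Ideal.Quotient.mk P (Subalgebra.inclusion h.le ⟨f ^ n * a, hn⟩)
      rw [← map_mul]
      congr 1
    refine ⟨Polynomial.C c * Polynomial.X - Polynomial.C d, ?_, ?_⟩
    · intro h0
      have h4 := congrArg (fun q => Polynomial.coeff q 1) h0
      simp only [Polynomial.coeff_sub, Polynomial.coeff_C_mul, Polynomial.coeff_X_one, mul_one,
        Polynomial.coeff_C_succ, sub_zero, Polynomial.coeff_zero] at h4
      exact hc h4
    · rw [map_sub, map_mul, Polynomial.aeval_C, Polynomial.aeval_X, Polynomial.aeval_C, hcd,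
        sub_self]
  have h4 := trdeg_add_eq k B₀ (A := B)
  rw [trdeg_eq_zero (R := B₀) (A := B), add_zero, h3] at h4
  have h5 : HasDim k B₀ 1 := HasDim.of_trdeg (by exact_mod_cast h4)
  exact h5.ringKrullDim

end Forms

/-- **E1.** The forms on an extension `A ⊆ A' ⊆ A[1/f]`. -/
theorem lam_ext {k F : Type} [Field k] [IsAlgClosed k] [Field F] [Algebra k F]
    {A A' : Subalgebra k F} {f : F} (hA : A.FG) (hA' : A'.FG) (_hF : IsFractionRing A F)
    (h : Ext A A' f) (l : Ideal A → A → ℚ) (hl : Lam k A l) : Lam k A' (lext h l) where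
  mul := by
    intro P hP hd a b ha hb
    by_cases hf : (⟨f, h.le h.mem⟩ : A') ∈ P
    · unfold lext
      rw [if_pos hf, if_pos hf, if_pos hf, add_zero]
    · have hd₀ := e1_dim hA hA' h hP hf hd
      have hP₀ : (P.comap (Subalgebra.inclusion h.le)).IsPrime := Ideal.IsPrime.comap _
      obtain ⟨n, hn⟩ := h.pow a a.2
      obtain ⟨m, hm⟩ := h.pow b b.2
      have hab : a * b ∉ P := fun h1 => (hP.mem_or_mem h1).elim ha hb
      have ha₀ : (⟨f ^ n * a, hn⟩ : A) ∉ P.comap (Subalgebra.inclusion h.le) := by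
        intro h1
        have h2 : (⟨f, h.le h.mem⟩ : A') ^ n * a ∈ P := h1
        exact (hP.mem_or_mem h2).elim (fun h3 => hf (hP.mem_of_pow_mem n h3)) ha
      have hb₀ : (⟨f ^ m * b, hm⟩ : A) ∉ P.comap (Subalgebra.inclusion h.le) := by
        intro h1
        have h2 : (⟨f, h.le h.mem⟩ : A') ^ m * b ∈ P := h1
        exact (hP.mem_or_mem h2).elim (fun h3 => hf (hP.mem_of_pow_mem m h3)) hb
      rw [e1_lext h hl hP hf hd₀ ha n ⟨f ^ n * a, hn⟩ rfl,
        e1_lext h hl hP hf hd₀ hb m ⟨f ^ m * b, hm⟩ rfl,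
        e1_lext h hl hP hf hd₀ hab (n + m) (⟨f ^ n * a, hn⟩ * ⟨f ^ m * b, hm⟩) (by
          change f ^ n * (a : F) * (f ^ m * (b : F)) = f ^ (n + m) * ((a : F) * (b : F))
          ring),
        hl.mul _ hP₀ hd₀ _ _ ha₀ hb₀]
      push_cast
      ring
  cong := by
    intro P hP hd a b ha hab
    by_cases hf : (⟨f, h.le h.mem⟩ : A') ∈ P
    · unfold lext
      rw [if_pos hf, if_pos hf]
    · have hd₀ := e1_dim hA hA' h hP hf hd
      have hP₀ : (P.comap (Subalgebra.inclusion h.le)).IsPrime := Ideal.IsPrime.comap _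
      have hb : b ∉ P := fun hb => ha (by
        have h1 := add_mem hab hb
        rwa [sub_add_cancel] at h1)
      obtain ⟨n, hn⟩ := h.pow a a.2
      obtain ⟨m, hm⟩ := h.pow b b.2
      have h1 : f ^ (n + m) * (a : F) ∈ A := by
        have e1 : f ^ (n + m) * (a : F) = f ^ m * (f ^ n * a) := by ring
        rw [e1]
        exact mul_mem (pow_mem h.mem m) hn
      have h2 : f ^ (n + m) * (b : F) ∈ A := by
        have e1 : f ^ (n + m) * (b : F) = f ^ n * (f ^ m * b) := by ring
        rw [e1]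
        exact mul_mem (pow_mem h.mem n) hm
      rw [e1_lext h hl hP hf hd₀ ha (n + m) ⟨_, h1⟩ rfl,
        e1_lext h hl hP hf hd₀ hb (n + m) ⟨_, h2⟩ rfl]
      have h3 : l (P.comap (Subalgebra.inclusion h.le)) ⟨_, h1⟩ =
          l (P.comap (Subalgebra.inclusion h.le)) ⟨_, h2⟩ := by
        refine hl.cong _ hP₀ hd₀ _ _ ?_ ?_
        · intro h4
          have h5 : (⟨f, h.le h.mem⟩ : A') ^ (n + m) * a ∈ P := h4
          exact (hP.mem_or_mem h5).elim (fun h3 => hf (hP.mem_of_pow_mem _ h3)) ha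
        · change Subalgebra.inclusion h.le (⟨_, h1⟩ - ⟨_, h2⟩) ∈ P
          have h5 : Subalgebra.inclusion h.le ((⟨_, h1⟩ : A) - ⟨_, h2⟩) =
              (⟨f, h.le h.mem⟩ : A') ^ (n + m) * (a - b) := by
            apply Subtype.ext
            change f ^ (n + m) * (a : F) - f ^ (n + m) * (b : F) =
              f ^ (n + m) * ((a : F) - (b : F))
            ring
          rw [h5]
          exact P.mul_mem_left _ hab
      rw [h3]
  surf := by
    intro E _ _ φ hE hφ
    by_cases hf : φ ⟨f, h.le h.mem⟩ = 0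
    · -- everything is zero
      obtain ⟨S, hS⟩ := hA'
      obtain ⟨N, y, hy⟩ : ∃ (N : ℕ) (y : Fin N → A'), ∀ a : A', a ∈ Algebra.adjoin k (Set.range y) := by
        have hft : Algebra.FiniteType k A' := A'.fg_iff_finiteType.1 ⟨S, hS⟩
        obtain ⟨T, hT⟩ := hft.out
        refine ⟨T.card, fun i => (T.equivFin.symm i : A'), fun a => ?_⟩
        have h1 : (Set.range fun i => (T.equivFin.symm i : A')) = (T : Set A') := by
          ext z
          constructor
          · rintro ⟨i, rfl⟩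
            exact (T.equivFin.symm i).2
          · intro hz
            exact ⟨T.equivFin ⟨z, hz⟩, by simp⟩
        rw [h1, hT]
        exact Algebra.mem_top
      let x : Fin (N + 1) → E := Fin.cons 1 fun i => φ (y i)
      have hx0 : x 0 = 1 := rfl
      have hadj : ∀ a : A', φ a ∈ Algebra.adjoin k (Set.range fun j => x j / x 0) := by
        intro a
        have h1 : φ a ∈ (Algebra.adjoin k (Set.range y)).map φ := ⟨a, hy a, rfl⟩
        rw [AlgHom.map_adjoin] at h1
        refine Algebra.adjoin_mono ?_ h1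
        rintro _ ⟨_, ⟨i, rfl⟩, rfl⟩
        refine ⟨i.succ, ?_⟩
        change x i.succ / x 0 = φ (y i)
        rw [hx0, div_one]
        exact Fin.cons_succ _ _ i
      refine ⟨N, x, fun _ _ => 0, ⟨hE, ⟨0, one_ne_zero, fun e => ?_⟩, fun _ _ _ _ _ _ => by simp,
        fun _ _ _ _ _ => rfl, fun _ _ _ _ => by simp⟩, ⟨0, one_ne_zero, fun j => ?_⟩, ?_⟩
      · obtain ⟨a, b, hb, he⟩ := hφ e
        exact ⟨φ a, hadj a, φ b, hadj b, hb, he⟩
      · refine Fin.cases ?_ (fun i => ?_) j
        · exact ⟨1, by rw [map_one, hx0, div_one]⟩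
        · refine ⟨y i, ?_⟩
          rw [hx0, div_one]
          exact Fin.cons_succ _ _ i
      · intro V hV P hP a b ha hb
        have hfP : (⟨f, h.le h.mem⟩ : A') ∈ P := by
          rw [hP, hf, res_of_mem (zero_mem V)]
          exact map_zero _
        unfold lext
        rw [if_pos hfP, if_pos hfP, sub_zero]
    · -- restriction to the chart
      let φ₀ : A →ₐ[k] E := φ.comp (Subalgebra.inclusion h.le)
      have hφ₀ : ∀ a : A, φ₀ a = φ (Subalgebra.inclusion h.le a) := fun a => rfl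
      have hpow : ∀ (a : A') (n : ℕ) (hn : f ^ n * (a : F) ∈ A),
          φ₀ ⟨f ^ n * a, hn⟩ = φ ⟨f, h.le h.mem⟩ ^ n * φ a := by
        intro a n hn
        rw [hφ₀, ← map_pow, ← map_mul]
        congr 1
      have hgen : ∀ e : E, ∃ a b : A, φ₀ b ≠ 0 ∧ e = φ₀ a / φ₀ b := by
        intro e
        obtain ⟨a, b, hb, he⟩ := hφ e
        obtain ⟨n, hn⟩ := h.pow a a.2
        obtain ⟨m, hm⟩ := h.pow b b.2
        have h1 : f ^ (n + m) * (a : F) ∈ A := by
          have e1 : f ^ (n + m) * (a : F) = f ^ m * (f ^ n * a) := by ring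
          rw [e1]
          exact mul_mem (pow_mem h.mem m) hn
        have h2 : f ^ (n + m) * (b : F) ∈ A := by
          have e1 : f ^ (n + m) * (b : F) = f ^ n * (f ^ m * b) := by ring
          rw [e1]
          exact mul_mem (pow_mem h.mem n) hm
        refine ⟨⟨_, h1⟩, ⟨_, h2⟩, ?_, ?_⟩
        · rw [hpow]
          exact mul_ne_zero (pow_ne_zero _ hf) hb
        · rw [hpow, hpow, mul_div_mul_left _ _ (pow_ne_zero _ hf)]
          exact he
      obtain ⟨n, x, lS, hG, ⟨i, hi, hix⟩, hC⟩ := hl.surf E φ₀ hE hgen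
      refine ⟨n, x, lS, hG, ⟨i, hi, fun j => ?_⟩, ?_⟩
      · obtain ⟨a, ha⟩ := hix j
        exact ⟨Subalgebra.inclusion h.le a, ha⟩
      · intro V hV P hP a b ha hb
        have hPp := e1_curve hA' hE hφ hV hP
        have hDiv := e1_isDiv hA' hE hφ hV
        have hva : res V (φ a) ≠ 0 := fun h1 => ha ((hP a).2 h1)
        have hvb : res V (φ b) ≠ 0 := fun h1 => hb ((hP b).2 h1)
        by_cases hfP : (⟨f, h.le h.mem⟩ : A') ∈ P
        · -- the centre is a closed point
          have hmax := h.pt P hPp.1 hfP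
          have hcen : CenPt k x V := by
            refine ⟨i, hi, fun j => ?_⟩
            obtain ⟨a₁, ha₁⟩ := hix j
            obtain ⟨c, hc⟩ := e1_const hA hmax a₁
            have h1 : φ₀ a₁ ∈ V := hV.2.1 _ ⟨_, rfl⟩
            rw [ha₁]
            refine ⟨h1, c, ?_⟩
            have h2 : res V (φ (Subalgebra.inclusion h.le (a₁ - algebraMap k A c))) = 0 :=
              (hP _).1 hc
            have h3 : φ (Subalgebra.inclusion h.le (a₁ - algebraMap k A c)) =
                φ₀ a₁ - algebraMap k E c := by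
              change φ₀ (a₁ - algebraMap k A c) = _
              rw [map_sub, AlgHom.commutes]
            rw [h3, res_sub h1 (hDiv.2.1 c), sub_eq_zero] at h2
            exact h2
          rw [hG.pt V hDiv hcen _ (div_ne_zero hva hvb)]
          unfold lext
          rw [if_pos hfP, if_pos hfP, sub_zero]
        · have hfV : V.valuation (φ ⟨f, h.le h.mem⟩) = 1 := by
            have h1 : res V (φ ⟨f, h.le h.mem⟩) ≠ 0 := fun h1 => hfP ((hP _).2 h1)
            exact (res_ne_zero_iff (hV.2.1 _ ⟨_, rfl⟩)).1 h1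
          have hV₀ : IsCurve φ₀.range V := by
            refine ⟨hV.1, ?_, ?_⟩
            · rintro _ ⟨c, rfl⟩
              exact hV.2.1 _ ⟨_, rfl⟩
            · intro z hz
              obtain ⟨_, _, ⟨c, rfl⟩, ⟨s, rfl⟩, hs, hzs⟩ := hV.2.2 z hz
              obtain ⟨q, hq⟩ := h.pow c c.2
              obtain ⟨m, hm⟩ := h.pow s s.2
              have h1 : f ^ (q + m) * (c : F) ∈ A := by
                have e1 : f ^ (q + m) * (c : F) = f ^ m * (f ^ q * c) := by ring
                rw [e1]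
                exact mul_mem (pow_mem h.mem m) hq
              have h2 : f ^ (q + m) * (s : F) ∈ A := by
                have e1 : f ^ (q + m) * (s : F) = f ^ q * (f ^ m * s) := by ring
                rw [e1]
                exact mul_mem (pow_mem h.mem q) hm
              refine ⟨φ₀ ⟨_, h1⟩, φ₀ ⟨_, h2⟩, ⟨_, rfl⟩, ⟨_, rfl⟩, ?_, ?_⟩
              · rw [hpow, map_mul, map_pow, hfV, one_pow, one_mul]
                exact hs
              · rw [hpow, hpow, mul_div_mul_left _ _ (pow_ne_zero _ hf)]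
                exact hzs
          have hP₀ : ∀ c, c ∈ P.comap (Subalgebra.inclusion h.le) ↔ res V (φ₀ c) = 0 :=
            fun c => hP _
          have hPp₀ := e1_curve hA hE hgen hV₀ hP₀
          have hf₀ : (⟨f, h.mem⟩ : A) ∉ P.comap (Subalgebra.inclusion h.le) := hfP
          obtain ⟨q, hq⟩ := h.pow a a.2
          obtain ⟨m, hm⟩ := h.pow b b.2
          have ha₀ : (⟨f ^ q * a, hq⟩ : A) ∉ P.comap (Subalgebra.inclusion h.le) := by
            intro h1
            have h2 : (⟨f, h.le h.mem⟩ : A') ^ q * a ∈ P := h1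
            exact (hPp.1.mem_or_mem h2).elim (fun h3 => hfP (hPp.1.mem_of_pow_mem q h3)) ha
          have hb₀ : (⟨f ^ m * b, hm⟩ : A) ∉ P.comap (Subalgebra.inclusion h.le) := by
            intro h1
            have h2 : (⟨f, h.le h.mem⟩ : A') ^ m * b ∈ P := h1
            exact (hPp.1.mem_or_mem h2).elim (fun h3 => hfP (hPp.1.mem_of_pow_mem m h3)) hb
          have hfq : ∀ r : ℕ, (⟨f, h.mem⟩ : A) ^ r ∉ P.comap (Subalgebra.inclusion h.le) :=
            fun r h1 => hf₀ (hPp₀.1.mem_of_pow_mem r h1)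
          have h1 := hC V hV₀ _ hP₀ (⟨f, h.mem⟩ ^ m * ⟨f ^ q * a, hq⟩)
            (⟨f, h.mem⟩ ^ q * ⟨f ^ m * b, hm⟩)
            (fun h2 => (hPp₀.1.mem_or_mem h2).elim (hfq m) ha₀)
            (fun h2 => (hPp₀.1.mem_or_mem h2).elim (hfq q) hb₀)
          have hφf : φ₀ ⟨f, h.mem⟩ = φ ⟨f, h.le h.mem⟩ := rfl
          have hmemV : ∀ c : A', φ c ∈ V := fun c => hV.2.1 _ ⟨_, rfl⟩
          have hrf : res V (φ ⟨f, h.le h.mem⟩) ≠ 0 := fun h1 => hfP ((hP _).2 h1)
          have h2 : res V (φ₀ (⟨f, h.mem⟩ ^ m * ⟨f ^ q * a, hq⟩)) /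
              res V (φ₀ (⟨f, h.mem⟩ ^ q * ⟨f ^ m * b, hm⟩)) = res V (φ a) / res V (φ b) := by
            rw [map_mul, map_mul, map_pow, map_pow, hpow, hpow, hφf,
              res_mul (pow_mem (hmemV _) _) (mul_mem (pow_mem (hmemV _) _) (hmemV _)),
              res_mul (pow_mem (hmemV _) _) (mul_mem (pow_mem (hmemV _) _) (hmemV _)),
              res_mul (pow_mem (hmemV _) _) (hmemV _), res_mul (pow_mem (hmemV _) _) (hmemV _),
              res_pow (hmemV _), res_pow (hmemV _)]
            field_simp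
          rw [h2, hl.mul _ hPp₀.1 hPp₀.2 _ _ (hfq m) ha₀, hl.mul _ hPp₀.1 hPp₀.2 _ _ (hfq q) hb₀,
            e1_pow hl hPp₀.1 hPp₀.2 hf₀, e1_pow hl hPp₀.1 hPp₀.2 hf₀] at h1
          rw [h1, e1_lext h hl hPp.1 hfP hPp₀.2 ha q ⟨f ^ q * a, hq⟩ rfl,
            e1_lext h hl hPp.1 hfP hPp₀.2 hb m ⟨f ^ m * b, hm⟩ rfl]
          ring

end Pool.Agent.Lib.MP_b197b4_ntA
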