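import Mathlib
import Pool.Agent.Lib.MP_b197b4_ntA.Defs2
import Pool.Agent.Lib.MP_b197b4_ntD.Dim

/-!
# MP_b197b4_nt, project K1-ALL: extensions `A ⊆ A' ⊆ A[1/f]`: homomorphisms and curves
-/

set_option autoImplicit false

namespace Pool.Agent.Lib.MP_b197b4_ntA

open IsLocalRing Pool.Agent.Lib.MP_b197b4_ntK

section

variable {k F : Type} [Field k] [Field F] [Algebra k F] {A A' : Subalgebra k F} {f : F}

/-- The value at `1`. -/
theorem Ext2_one {R : Type} [CommRing R] {P : Ideal R} (hP : P.IsPrime) {g : R → ℚ}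
    (hg : ∀ a b : R, a ∉ P → b ∉ P → g (a * b) = g a + g b) : g 1 = 0 := by
  have h1 : (1 : R) ∉ P := fun h => hP.ne_top ((Ideal.eq_top_iff_one _).2 h)
  have h2 := hg 1 1 h1 h1
  rw [mul_one] at h2
  linarith

/-- The value at a power times an element. -/
theorem Ext2_pow_mul {R : Type} [CommRing R] {P : Ideal R} (hP : P.IsPrime) {g : R → ℚ}
    (hg : ∀ a b : R, a ∉ P → b ∉ P → g (a * b) = g a + g b) {a b : R} (ha : a ∉ P) (hb : b ∉ P)
    (n : ℕ) : g (a ^ n * b) = n * g a + g b := by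
  induction n with
  | zero => simp
  | succ n ih =>
    have h1 : a ^ n * b ∉ P := fun h => (hP.mem_or_mem h).elim
      (fun h => ha (hP.mem_of_pow_mem n h)) hb
    have h2 : a ^ (n + 1) * b = a * (a ^ n * b) := by ring
    rw [h2, hg _ _ ha h1, ih]
    push_cast
    ring

/-- `lext` does not depend on the choice of the exponent. -/
theorem lext_eq (h : Ext A A' f) (l : Ideal A → A → ℚ) {P : Ideal A'} (hP : P.IsPrime)
    (hf : (⟨f, h.le h.mem⟩ : A') ∉ P)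
    (hmul : ∀ a b : A, a ∉ P.comap (Subalgebra.inclusion h.le) →
      b ∉ P.comap (Subalgebra.inclusion h.le) → l (P.comap (Subalgebra.inclusion h.le)) (a * b) =
        l (P.comap (Subalgebra.inclusion h.le)) a + l (P.comap (Subalgebra.inclusion h.le)) b)
    {a : A'} (ha : a ∉ P) {n : ℕ} (hn : f ^ n * (a : F) ∈ A) :
    lext h l P a = l (P.comap (Subalgebra.inclusion h.le)) ⟨f ^ n * a, hn⟩ -
      n * l (P.comap (Subalgebra.inclusion h.le)) ⟨f, h.mem⟩ := by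
  have hQ : (P.comap (Subalgebra.inclusion h.le)).IsPrime := hP.comap _
  have hfQ : (⟨f, h.mem⟩ : A) ∉ P.comap (Subalgebra.inclusion h.le) := hf
  have key : ∀ (m : ℕ) (hm : f ^ m * (a : F) ∈ A),
      (⟨f ^ m * a, hm⟩ : A) ∉ P.comap (Subalgebra.inclusion h.le) := by
    intro m hm h1
    have h2 : (⟨f, h.le h.mem⟩ : A') ^ m * a ∈ P := by
      have h3 : Subalgebra.inclusion h.le ⟨f ^ m * a, hm⟩ = (⟨f, h.le h.mem⟩ : A') ^ m * a :=
        Subtype.ext rfl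
      rw [← h3]
      exact h1
    rcases hP.mem_or_mem h2 with h3 | h3
    · exact hf (hP.mem_of_pow_mem m h3)
    · exact ha h3
  have gen : ∀ (m : ℕ) (hm : f ^ m * (a : F) ∈ A),
      l (P.comap (Subalgebra.inclusion h.le)) ⟨f ^ m * a, hm⟩ -
          m * l (P.comap (Subalgebra.inclusion h.le)) ⟨f, h.mem⟩ =
        l (P.comap (Subalgebra.inclusion h.le)) ⟨f ^ n * a, hn⟩ -
          n * l (P.comap (Subalgebra.inclusion h.le)) ⟨f, h.mem⟩ := by
    intro m hm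
    have h4 : (⟨f, h.mem⟩ : A) ^ m * ⟨f ^ n * a, hn⟩ =
        (⟨f, h.mem⟩ : A) ^ n * ⟨f ^ m * a, hm⟩ := by
      refine Subtype.ext ?_
      show f ^ m * (f ^ n * (a : F)) = f ^ n * (f ^ m * (a : F))
      ring
    have h5 := congrArg (l (P.comap (Subalgebra.inclusion h.le))) h4
    rw [Ext2_pow_mul hQ hmul hfQ (key _ _), Ext2_pow_mul hQ hmul hfQ (key _ _)] at h5
    linarith
  rw [lext, if_neg hf]
  exact gen _ _

/-- The value of the extension of `ψ` does not depend on the exponent. -/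
theorem Ext2_aux (h : Ext A A' f) {K : Type} [Field K] [Algebra k K] (ψ : A →ₐ[k] K)
    (hψ : ψ ⟨f, h.mem⟩ ≠ 0) {a : F} {n m : ℕ} (hn : f ^ n * a ∈ A) (hm : f ^ m * a ∈ A) :
    ψ ⟨f ^ n * a, hn⟩ / ψ ⟨f, h.mem⟩ ^ n = ψ ⟨f ^ m * a, hm⟩ / ψ ⟨f, h.mem⟩ ^ m := by
  rw [div_eq_div_iff (pow_ne_zero _ hψ) (pow_ne_zero _ hψ), ← map_pow, ← map_pow, ← map_mul,
    ← map_mul]
  refine congrArg ψ (Subtype.ext ?_)
  show f ^ n * a * f ^ m = f ^ m * a * f ^ n
  ring

/-- homomorphisms extend -/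
theorem exists_extend (h : Ext A A' f) {K : Type} [Field K] [Algebra k K] (ψ : A →ₐ[k] K)
    (hψ : ψ ⟨f, h.mem⟩ ≠ 0) :
    ∃ ψ' : A' →ₐ[k] K, ψ'.comp (Subalgebra.inclusion h.le) = ψ := by
  choose n hn using h.pow
  have key : ∀ (a : A') (m : ℕ) (hm : f ^ m * (a : F) ∈ A),
      ψ ⟨f ^ n a a.2 * a, hn a a.2⟩ / ψ ⟨f, h.mem⟩ ^ n a a.2 =
        ψ ⟨f ^ m * a, hm⟩ / ψ ⟨f, h.mem⟩ ^ m := fun a m hm =>
    Ext2_aux h ψ hψ (hn a a.2) hm
  have hbase : ∀ (a : A), ψ ⟨f ^ n a (h.le a.2) * a, hn a (h.le a.2)⟩ /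
      ψ ⟨f, h.mem⟩ ^ n a (h.le a.2) = ψ a := by
    intro a
    have h0 : f ^ 0 * (a : F) ∈ A := by
      rw [pow_zero, one_mul]
      exact a.2
    rw [key ⟨a, h.le a.2⟩ 0 h0, pow_zero (ψ ⟨f, h.mem⟩), div_one]
    refine congrArg ψ (Subtype.ext ?_)
    show f ^ 0 * (a : F) = a
    rw [pow_zero, one_mul]
  refine ⟨{ toFun := fun a => ψ ⟨f ^ n a a.2 * a, hn a a.2⟩ / ψ ⟨f, h.mem⟩ ^ n a a.2
            map_one' := ?_
            map_mul' := ?_
            map_zero' := ?_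
            map_add' := ?_
            commutes' := ?_ }, ?_⟩
  · have h1 := hbase 1
    rw [map_one] at h1
    exact h1
  · intro a b
    have hm : f ^ (n a a.2 + n b b.2) * ((a * b : A') : F) ∈ A := by
      have h1 : f ^ (n a a.2 + n b b.2) * ((a * b : A') : F) =
          (f ^ n a a.2 * a) * (f ^ n b b.2 * b) := by
        rw [pow_add]
        show f ^ n a a.2 * f ^ n b b.2 * ((a : F) * (b : F)) = _
        ring
      rw [h1]
      exact mul_mem (hn a a.2) (hn b b.2)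
    show ψ _ / _ = ψ _ / _ * (ψ _ / _)
    rw [key (a * b) _ hm, div_mul_div_comm, pow_add (ψ ⟨f, h.mem⟩), ← map_mul]
    congr 2
    refine Subtype.ext ?_
    show f ^ (n a a.2 + n b b.2) * ((a : F) * (b : F)) = (f ^ n a a.2 * a) * (f ^ n b b.2 * b)
    rw [pow_add]
    ring
  · have h1 := hbase 0
    rw [map_zero] at h1
    exact h1
  · intro a b
    have hm : f ^ (n a a.2 + n b b.2) * ((a + b : A') : F) ∈ A := by
      have h1 : f ^ (n a a.2 + n b b.2) * ((a + b : A') : F) =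
          f ^ n b b.2 * (f ^ n a a.2 * a) + f ^ n a a.2 * (f ^ n b b.2 * b) := by
        rw [pow_add]
        show f ^ n a a.2 * f ^ n b b.2 * ((a : F) + (b : F)) = _
        ring
      rw [h1]
      exact add_mem (mul_mem (pow_mem h.mem _) (hn a a.2))
        (mul_mem (pow_mem h.mem _) (hn b b.2))
    show ψ _ / _ = ψ _ / _ + ψ _ / _
    rw [key (a + b) _ hm, div_add_div _ _ (pow_ne_zero _ hψ) (pow_ne_zero _ hψ),
      pow_add (ψ ⟨f, h.mem⟩), ← map_pow, ← map_pow, ← map_mul, ← map_mul, ← map_mul, ← map_add]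
    congr 2
    refine Subtype.ext ?_
    show f ^ (n a a.2 + n b b.2) * ((a : F) + (b : F)) =
      (f ^ n a a.2 * a) * f ^ n b b.2 + f ^ n a a.2 * (f ^ n b b.2 * b)
    rw [pow_add]
    ring
  · intro c
    have h1 := hbase (algebraMap k A c)
    rw [AlgHom.commutes] at h1
    exact h1
  · refine AlgHom.ext fun a => ?_
    exact hbase a

/-- The closed subscheme of `Spec A` given by a curve has dimension one. -/
theorem Ext2_dim (hA : A.FG) {K : Type} [Field K] [Algebra k K] (hK : FunF k K 1)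
    (ψ : A →ₐ[k] K) (gen : ∀ e : K, ∃ a b : A, ψ b ≠ 0 ∧ e = ψ a / ψ b) :
    ringKrullDim (A ⧸ RingHom.ker ψ) = 1 := by
  have : Algebra.FiniteType k A := (Subalgebra.fg_iff_finiteType A).1 hA
  have : (RingHom.ker ψ).IsPrime := RingHom.ker_isPrime ψ
  have : Algebra.FiniteType k (A ⧸ RingHom.ker ψ) :=
    Algebra.FiniteType.of_surjective (Ideal.Quotient.mkₐ k (RingHom.ker ψ))
      (Ideal.Quotient.mkₐ_surjective k _)
  have : IsNoetherianRing (A ⧸ RingHom.ker ψ) := Algebra.FiniteType.isNoetherianRing k _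
  let g : (A ⧸ RingHom.ker ψ) →ₐ[k] K := Ideal.Quotient.liftₐ (RingHom.ker ψ) ψ fun a ha => ha
  have hg : ∀ a : A, g (Ideal.Quotient.mk _ a) = ψ a := fun a => rfl
  have hgi : Function.Injective g := by
    refine (injective_iff_map_eq_zero g).2 fun x hx => ?_
    obtain ⟨a, rfl⟩ := Ideal.Quotient.mk_surjective x
    rw [hg] at hx
    exact Ideal.Quotient.eq_zero_iff_mem.2 hx
  let _ : Algebra (A ⧸ RingHom.ker ψ) K := g.toRingHom.toAlgebra
  have : IsScalarTower k (A ⧸ RingHom.ker ψ) K :=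
    IsScalarTower.of_algebraMap_eq fun c => (g.commutes c).symm
  have : FaithfulSMul (A ⧸ RingHom.ker ψ) K := (faithfulSMul_iff_algebraMap_injective _ _).2 hgi
  have : IsFractionRing (A ⧸ RingHom.ker ψ) K := by
    refine IsFractionRing.of_field (A ⧸ RingHom.ker ψ) K fun e => ?_
    obtain ⟨a, b, hb, he⟩ := gen e
    exact ⟨Ideal.Quotient.mk _ a, Ideal.Quotient.mk _ b, he⟩
  obtain ⟨s, hs⟩ := MP_b197b4_ntD.exists_hasDim k (A ⧸ RingHom.ker ψ)
  have h1 := hs.trdeg_frac K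
  rw [hK.2] at h1
  have h2 : s = 1 := by
    have : ((1 : ℕ) : Cardinal) = s := h1
    exact_mod_cast this.symm
  rw [hs.ringKrullDim, h2]
  rfl

/-- curves extend -/
theorem curveK_ext (hA : A.FG) (h : Ext A A' f) (l : Ideal A → A → ℚ) (hl : Lam k A l) {K : Type}
    [Field K] [Algebra k K] (ψ : A →ₐ[k] K)
    (ψ' : A' →ₐ[k] K) (hc : ψ'.comp (Subalgebra.inclusion h.le) = ψ)
    (hψ : ψ ⟨f, h.mem⟩ ≠ 0) (lK : K → ℚ) (hK : ValuationSubring K → ℚ)
    (hCu : CurveK k A l ψ lK hK) : CurveK k A' (lext h l) ψ' lK hK := by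
  have hinc : ∀ a : A, ψ' (Subalgebra.inclusion h.le a) = ψ a := fun a => by rw [← hc]; rfl
  have hker : (RingHom.ker ψ').comap (Subalgebra.inclusion h.le) = RingHom.ker ψ := by
    ext a
    show ψ' (Subalgebra.inclusion h.le a) = 0 ↔ ψ a = 0
    rw [hinc]
  have hfn : (⟨f, h.le h.mem⟩ : A') ∉ RingHom.ker ψ' := by
    show ¬ ψ' ⟨f, h.le h.mem⟩ = 0
    have h1 := hinc ⟨f, h.mem⟩
    intro h2
    exact hψ (h1.symm.trans h2)
  have hP : (RingHom.ker ψ).IsPrime := RingHom.ker_isPrime ψ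
  have hP' : (RingHom.ker ψ').IsPrime := RingHom.ker_isPrime ψ'
  have hdim := Ext2_dim hA hCu.fun1 ψ hCu.gen
  have hmul := hl.mul (RingHom.ker ψ) hP hdim
  have hfn' : (⟨f, h.mem⟩ : A) ∉ RingHom.ker ψ := hψ
  -- the values of the extended form
  have hval : ∀ a : A', ψ' a ≠ 0 → ∀ (n : ℕ) (hn : f ^ n * (a : F) ∈ A),
      lext h l (RingHom.ker ψ') a = l (RingHom.ker ψ) ⟨f ^ n * a, hn⟩ -
        n * l (RingHom.ker ψ) ⟨f, h.mem⟩ := by
    intro a ha n hn
    have h1 := lext_eq h l hP' hfn (by rw [hker]; exact hmul) (a := a) ha hn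
    rw [hker] at h1
    exact h1
  have hpsi : ∀ (a : A') (n : ℕ) (hn : f ^ n * (a : F) ∈ A),
      ψ ⟨f ^ n * a, hn⟩ = ψ ⟨f, h.mem⟩ ^ n * ψ' a := by
    intro a n hn
    rw [← hinc, ← hinc, ← map_pow, ← map_mul]
    exact congrArg ψ' (Subtype.ext rfl)
  refine ⟨hCu.fun1, fun e => ?_, fun a b ha hb => ?_, hCu.given⟩
  · obtain ⟨a, b, hb, he⟩ := hCu.gen e
    exact ⟨Subalgebra.inclusion h.le a, Subalgebra.inclusion h.le b, by rwa [hinc],
      by rw [hinc, hinc]; exact he⟩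
  · obtain ⟨n, hn⟩ := h.pow a a.2
    obtain ⟨m, hm⟩ := h.pow b b.2
    have ha' : ψ ⟨f ^ n * a, hn⟩ ≠ 0 := by
      rw [hpsi]
      exact mul_ne_zero (pow_ne_zero _ hψ) ha
    have hb' : ψ ⟨f ^ m * b, hm⟩ ≠ 0 := by
      rw [hpsi]
      exact mul_ne_zero (pow_ne_zero _ hψ) hb
    have h1 := hCu.compat ((⟨f, h.mem⟩ : A) ^ m * ⟨f ^ n * a, hn⟩)
      ((⟨f, h.mem⟩ : A) ^ n * ⟨f ^ m * b, hm⟩)
      (by rw [map_mul, map_pow]; exact mul_ne_zero (pow_ne_zero _ hψ) ha')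
      (by rw [map_mul, map_pow]; exact mul_ne_zero (pow_ne_zero _ hψ) hb')
    rw [Ext2_pow_mul hP hmul hfn' (show _ ∉ RingHom.ker ψ from ha'),
      Ext2_pow_mul hP hmul hfn' (show _ ∉ RingHom.ker ψ from hb')] at h1
    have h2 : ψ ((⟨f, h.mem⟩ : A) ^ m * ⟨f ^ n * a, hn⟩) /
        ψ ((⟨f, h.mem⟩ : A) ^ n * ⟨f ^ m * b, hm⟩) = ψ' a / ψ' b := by
      rw [map_mul, map_mul, map_pow, map_pow, hpsi, hpsi]
      have h3 : ψ ⟨f, h.mem⟩ ≠ 0 := hψ
      field_simp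
    rw [h2] at h1
    rw [h1, hval a ha n hn, hval b hb m hm]
    ring

end

end Pool.Agent.Lib.MP_b197b4_ntA
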