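import Pool.Agent.Lib.MP_b197b4_ntA.PicA3
import Pool.Agent.Lib.MP_b197b4_ntA.Cur1
import Pool.Agent.Lib.MP_b197b4_ntA.Cur2

/-!
# MP_b197b4_nt, K1-ALL, Pic: functions with one pole
-/

set_option autoImplicit false

namespace Pool.Agent.Lib.MP_b197b4_ntA

open Module Polynomial Pool.Agent.Lib.MP_b197b4_ntK

section

variable {k K : Type} [Field k] [Field K] [Algebra k K]

open scoped IntermediateField.algebraAdjoinAdjoin in
/-- Multiples which are regular at all places where `t` is regular. -/
theorem picA_mult {t : K} (hfin : FiniteDimensional (IntermediateField.adjoin k {t}) K) (S : Finset K) :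
    ∃ a : k[X], aeval t a ≠ 0 ∧ ∀ V : ValuationSubring K, Over k V → t ∈ V → ∀ x ∈ S,
      aeval t a * x ∈ V := by
  obtain ⟨y, hy0, hy⟩ := exists_integral_multiples (Algebra.adjoin k {t}) (IntermediateField.adjoin k {t}) S
  have h0 : ∀ z ∈ Algebra.adjoin k {t}, ∃ a : k[X], aeval t a = z := by
    intro z hz
    rw [Algebra.adjoin_singleton_eq_range_aeval] at hz
    exact hz
  obtain ⟨a, ha⟩ := h0 y y.2
  refine ⟨a, ?_, ?_⟩
  · rw [ha]
    exact fun h => hy0 (Subtype.ext h)
  · intro V hV htV x hx
    have h1 := hy x hx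
    rw [ha]
    refine picA_integral V (Algebra.adjoin k {t}) ?_ h1
    rintro ⟨z, hz⟩
    obtain ⟨p, rfl⟩ := h0 z hz
    exact Cur2_aeval_mem hV htV p

/-- Polynomials in `1 / t` of bounded degree. -/
theorem picA_poly {V : ValuationSubring K} (hV : Over k V) {s : K} (hs0 : s ≠ 0) (hs : s⁻¹ ∈ V) (q : k[X]) {n : ℕ}
    (hq : q.natDegree ≤ n) : aeval s q / s ^ n ∈ V := by
  rw [aeval_eq_sum_range' (Nat.lt_succ_of_le hq), Finset.sum_div]
  refine sum_mem fun i hi => ?_
  have hin : i ≤ n := Nat.lt_succ_iff.1 (Finset.mem_range.1 hi)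
  have h1 : q.coeff i • s ^ i / s ^ n = algebraMap k K (q.coeff i) * s⁻¹ ^ (n - i) := by
    rw [Algebra.smul_def, mul_div_assoc, inv_pow]
    congr 1
    rw [div_eq_iff (pow_ne_zero _ hs0), eq_comm, inv_mul_eq_iff_eq_mul₀ (pow_ne_zero _ hs0), ← pow_add]
    congr 1
    omega
  rw [h1]
  exact mul_mem (hV _) (pow_mem hs _)

/-- The main step. -/
theorem picA_main [IsAlgClosed k] {s : K} (hs : Transcendental k s)
    (hsep : Algebra.IsSeparable (IntermediateField.adjoin k {s}) K)
    (hfin : FiniteDimensional (IntermediateField.adjoin k {s}) K) (W : ValuationSubring K)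
    (hW : Place k W) (hsW : W.valuation s < 1) :
    ∃ f : K, (∀ c : k, f ≠ algebraMap k K c) ∧ ∀ V : ValuationSubring K, Place k V → V ≠ W → f ∈ V := by
  classical
  have hs0 : s ≠ 0 := by
    rintro rfl
    exact hs isAlgebraic_zero
  have hinj := transcendental_iff_injective.1 hs
  let E := IntermediateField.adjoin k {s}
  let g : E := IntermediateField.AdjoinSimple.gen k s
  let algK : Algebra k[X] K := (aeval s : k[X] →ₐ[k] K).toAlgebra
  let algE : Algebra k[X] E := (aeval g : k[X] →ₐ[k] E).toAlgebra
  have hmapK : ∀ p : k[X], algebraMap k[X] K p = aeval s p := fun p => rfl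
  have hmapE : ∀ p : k[X], algebraMap k[X] E p = aeval g p := fun p => rfl
  have towK : IsScalarTower k k[X] K := IsScalarTower.of_algebraMap_eq fun c => by
    rw [hmapK]
    simp
  have towE : IsScalarTower k[X] E K := IsScalarTower.of_algebraMap_eq fun p => by
    rw [hmapK, hmapE, ← aeval_algebraMap_apply]
    rfl
  have hfrac : IsFractionRing k[X] E := by
    have hfaith : FaithfulSMul k[X] E := by
      rw [faithfulSMul_iff_algebraMap_injective]
      intro p q hpq
      apply hinj
      rw [← hmapK, ← hmapK, IsScalarTower.algebraMap_apply k[X] E K, hpq, ← IsScalarTower.algebraMap_apply k[X] E K]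
    refine IsFractionRing.of_field k[X] E fun z => ?_
    obtain ⟨p, q, h⟩ := (IntermediateField.mem_adjoin_simple_iff k (z : K)).1 z.2
    refine ⟨p, q, ?_⟩
    apply Subtype.ext
    rw [h]
    have e1 : ∀ p : k[X], ((algebraMap k[X] E p : E) : K) = aeval s p := fun p => by
      rw [← hmapK, IsScalarTower.algebraMap_apply k[X] E K]
      rfl
    push_cast
    rw [e1, e1]
  let R := integralClosure k[X] K
  have hDed : IsDedekindDomain R := integralClosure.isDedekindDomain k[X] E K
  have hfracR : IsFractionRing R K :=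
    integralClosure.isFractionRing_of_finite_extension (A := k[X]) (K := E) (L := K)
  have hfinR : Module.Finite k[X] R := IsIntegralClosure.finite k[X] E K R
  have htf : Module.IsTorsionFree k[X] K :=
    Module.isTorsionFree_iff_algebraMap_injective.2 hinj
  have hfree : Module.Free k[X] R := IsIntegralClosure.module_free k[X] E K R
  let w := Module.Free.chooseBasis k[X] R
  have hRV : ∀ V : ValuationSubring K, Over k V → s ∈ V → ∀ r : R, algebraMap R K r ∈ V :=
    fun V hV hsV r => picA_integral V k[X] (fun p => Cur2_aeval_mem hV hsV p) r.2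
  have hsW' : s ∈ W := (W.valuation_le_one_iff s).1 hsW.le
  have hfin' : FiniteDimensional (IntermediateField.adjoin k {s⁻¹}) K := by
    rw [C1_adjoin_inv]
    exact hfin
  obtain ⟨a, ha0, ha⟩ := picA_mult hfin' (Finset.univ.image fun i => (w i : K))
  have hrev : aeval s a.reverse = aeval s⁻¹ a * s ^ a.natDegree := by
    have : Invertible s⁻¹ := invertibleOfNonzero (inv_ne_zero hs0)
    have h1 := eval₂_reverse_mul_pow (algebraMap k K) s⁻¹ a
    rw [invOf_eq_inv, inv_inv] at h1
    rw [aeval_def, aeval_def, ← h1, mul_assoc, ← mul_pow, inv_mul_cancel₀ hs0, one_pow, mul_one]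
  have hrev0 : a.reverse ≠ 0 := by
    intro h
    rw [h, map_zero] at hrev
    exact (mul_ne_zero ha0 (pow_ne_zero _ hs0)) hrev.symm
  obtain ⟨m, f, hf, hδ, ⟨q, hq, hfq⟩, hV⟩ := picA_count w s (by rw [hmapK, aeval_X]) hs0 W
    (hRV W hW.2 hsW') hsW a.reverse hrev0 a.natDegree
  refine ⟨f, hf, fun V hVp hVW => ?_⟩
  by_cases hsV : s⁻¹ ∈ V
  · rw [hfq, Finset.sum_div]
    refine sum_mem fun i _ => ?_
    have h1 : algebraMap k[X] K (q i * a.reverse) * algebraMap R K (w i) / s ^ m =
        (aeval s (q i) / s ^ (m - a.natDegree)) * (aeval s⁻¹ a * (w i : K)) := by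
      rw [hmapK, map_mul, hrev]
      have h2 : s ^ m = s ^ (m - a.natDegree) * s ^ a.natDegree := by
        rw [← pow_add]
        congr 1
        omega
      rw [h2]
      have h3 := pow_ne_zero (m - a.natDegree) hs0
      have h4 := pow_ne_zero a.natDegree hs0
      have h5 : algebraMap R K (w i) = (w i : K) := rfl
      rw [h5]
      field_simp
    rw [h1]
    exact mul_mem (picA_poly hVp.2 hs0 hsV (q i) (hq i))
      (ha V hVp.2 hsV _ (Finset.mem_image_of_mem _ (Finset.mem_univ i)))
  · have hsV' : V.valuation s < 1 := by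
      rw [← not_le]
      intro h
      apply hsV
      rw [← ValuationSubring.valuation_le_one_iff, map_inv₀]
      exact inv_le_one_of_one_le₀ h
    refine hV V (hRV V hVp.2 ((V.valuation_le_one_iff s).1 hsV'.le)) hsV' ?_
    intro hle
    exact hVW (Cur2_eq_of_le hVp.1 hW.1 hle)

/-- A function which is regular at all places is constant. -/
theorem picA_max [IsAlgClosed k] (hK : FunF k K 1) (c : K)
    (h : ∀ W : ValuationSubring K, Place k W → c ∈ W) : ∃ a : k, algebraMap k K a = c := by
  have h1 : c ∈ (⨅ V : {V : ValuationSubring K // Set.range (algebraMap k K) ⊆ V.toSubring},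
      V.1.toSubring) := by
    rw [Subring.mem_iInf]
    rintro ⟨V, hV⟩
    show c ∈ V
    have hVk : Over k V := fun a => hV ⟨a, rfl⟩
    by_cases hT : V = ⊤
    · rw [hT]
      exact ValuationSubring.mem_top c
    · exact h V ⟨C1_dvr hK V hVk hT, hVk⟩
  rw [iInf_valuationSubring_superset] at h1
  have h2 : IsIntegral (Subring.closure (Set.range (algebraMap k K))) c := h1
  obtain ⟨p, hp, hp0⟩ := h2
  have h4 : IsIntegral k c := by
    have h5 : IsIntegral (algebraMap k K).range c := by
      have h3 : Subring.closure (Set.range (algebraMap k K)) ≤ (algebraMap k K).range := by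
        rw [Subring.closure_le]
        rintro _ ⟨a, rfl⟩
        exact ⟨a, rfl⟩
      refine ⟨p.map (Subring.inclusion h3), hp.map _, ?_⟩
      rw [Polynomial.eval₂_map]
      exact hp0
    obtain ⟨q, hq, hq0⟩ := h5
    have h7 : q ∈ Polynomial.lifts (algebraMap k K).rangeRestrict := by
      rw [Polynomial.lifts_iff_coeff_lifts]
      intro i
      exact (algebraMap k K).rangeRestrict_surjective _
    obtain ⟨r, hr, hrd, hrm⟩ := Polynomial.lifts_and_natDegree_eq_and_monic h7 hq
    refine ⟨r, hrm, ?_⟩
    rw [← hr, Polynomial.eval₂_map] at hq0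
    exact hq0
  have h8 := IsAlgClosed.degree_eq_one_of_irreducible k (minpoly.irreducible h4)
  exact minpoly.mem_range_of_degree_eq_one k c h8

/-- Polynomials in an element without constant residue are units. -/
theorem picA_unit [IsAlgClosed k] {W : ValuationSubring K} (hW : Over k W) {x : K}
    (hx : ∀ a : k, W.valuation (x - algebraMap k K a) = 1) :
    ∀ (n : ℕ) (p : k[X]), p.natDegree = n → p ≠ 0 → W.valuation (aeval x p) = 1 := by
  intro n
  induction n with
  | zero =>
    intro p hp hp0
    rw [natDegree_eq_zero] at hp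
    obtain ⟨c, rfl⟩ := hp
    rw [aeval_C]
    exact Cur2_const hW fun h => hp0 (by rw [h, map_zero])
  | succ n ih =>
    intro p hp hp0
    obtain ⟨a, ha⟩ := IsAlgClosed.exists_root p (by
      rw [degree_eq_natDegree hp0, hp]
      exact_mod_cast (Nat.succ_ne_zero n))
    obtain ⟨q, rfl⟩ := dvd_iff_isRoot.2 ha
    have hq0 : q ≠ 0 := right_ne_zero_of_mul hp0
    rw [natDegree_mul (X_sub_C_ne_zero a) hq0, natDegree_X_sub_C] at hp
    rw [map_mul, map_sub, aeval_X, aeval_C, map_mul, hx a, one_mul]
    exact ih q (by omega) hq0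

/-- The residue field of a place is `k`. -/
theorem picA_res [IsAlgClosed k] (hK : FunF k K 1) {W : ValuationSubring K} (hW : Place k W) {x : K}
    (hx : x ∈ W) : ∃ a : k, W.valuation (x - algebraMap k K a) < 1 := by
  by_contra hcon
  push Not at hcon
  have h1 : ∀ a : k, W.valuation (x - algebraMap k K a) = 1 := fun a =>
    le_antisymm ((W.valuation_le_one_iff _).2 (sub_mem hx (hW.2 a))) (hcon a)
  have htr : Transcendental k x := by
    intro halg
    have h2 := IsAlgClosed.degree_eq_one_of_irreducible k (minpoly.irreducible halg.isIntegral)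
    obtain ⟨a, ha⟩ := minpoly.mem_range_of_degree_eq_one k x h2
    have h3 := h1 a
    rw [ha, sub_self, map_zero] at h3
    exact zero_ne_one h3
  have hfin := Cur2_finite hK htr
  have hall : ∀ z : K, z ∈ W := by
    intro z
    refine picA_integral W (IntermediateField.adjoin k {x}) ?_ (Algebra.IsIntegral.isIntegral z)
    rintro ⟨y, hy⟩
    obtain ⟨p, q, rfl⟩ := (IntermediateField.mem_adjoin_simple_iff k y).1 hy
    change aeval x p / aeval x q ∈ W
    by_cases hq : q = 0
    · rw [hq, map_zero, div_zero]
      exact zero_mem _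
    · have h2 := picA_unit hW.2 h1 _ q rfl hq
      rw [← ValuationSubring.valuation_le_one_iff, map_div₀, h2, div_one]
      exact (W.valuation_le_one_iff _).2 (Cur2_aeval_mem hW.2 hx p)
  obtain ⟨π, hπ0, hπ⟩ := Cur2_unif hW.1
  have h2 := (ord_nonneg_iff hW.1 (inv_ne_zero hπ0)).2 (hall π⁻¹)
  rw [ord_inv hW.1 hπ0, hπ] at h2
  omega

theorem picA_adjoin_sub (t : K) (c : k) :
    IntermediateField.adjoin k {t - algebraMap k K c} = IntermediateField.adjoin k {t} := by
  apply le_antisymm
  · rw [IntermediateField.adjoin_simple_le_iff]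
    exact sub_mem (IntermediateField.mem_adjoin_simple_self k t) (IntermediateField.algebraMap_mem _ c)
  · rw [IntermediateField.adjoin_simple_le_iff]
    have h := add_mem (IntermediateField.mem_adjoin_simple_self k (t - algebraMap k K c))
      (IntermediateField.algebraMap_mem (IntermediateField.adjoin k {t - algebraMap k K c}) c)
    rwa [sub_add_cancel] at h

end

/-- There is a function whose only pole is the given place. -/
theorem pic_exists_pole {k K : Type} [Field k] [IsAlgClosed k] [Field K] [Algebra k K] (hK : FunF k K 1)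
    (W : ValuationSubring K) (hW : Place k W) :
    ∃ u : K, u ∉ W ∧ ∀ V : ValuationSubring K, Place k V → V ≠ W → u ∈ V := by
  obtain ⟨t, ht, hsep, hfin⟩ := C1_sep hK
  have key : ∃ s : K, Transcendental k s ∧ IntermediateField.adjoin k {s} = IntermediateField.adjoin k {t} ∧
      W.valuation s < 1 := by
    by_cases htW : t ∈ W
    · obtain ⟨c, hc⟩ := picA_res hK hW htW
      refine ⟨_, ?_, picA_adjoin_sub t c, hc⟩
      intro halg
      apply ht
      have h1 := halg.add (isAlgebraic_algebraMap (A := K) c)
      rwa [sub_add_cancel] at h1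
    · refine ⟨t⁻¹, ?_, C1_adjoin_inv t, ?_⟩
      · intro halg
        apply ht
        have h1 := halg.inv
        rwa [inv_inv] at h1
      · rw [← ValuationSubring.valuation_le_one_iff, not_le] at htW
        rw [map_inv₀]
        exact inv_lt_one_of_one_lt₀ htW
  obtain ⟨s, hs, hst, hsW⟩ := key
  rw [← hst] at hsep hfin
  obtain ⟨f, hf, hfV⟩ := picA_main hs hsep hfin W hW hsW
  refine ⟨f, fun hfW => ?_, hfV⟩
  obtain ⟨a, ha⟩ := picA_max hK f fun V hV => by
    by_cases h : V = W
    · rw [h]; exact hfW
    · exact hfV V hV h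
  exact hf a ha.symm

end Pool.Agent.Lib.MP_b197b4_ntA
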