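import Mathlib
import Pool.Agent.Lib.MP_b197b4_ntK.Ord
import Pool.Agent.Lib.MP_b197b4_ntA.Defs
import Pool.Agent.Lib.MP_b197b4_ntA.Cur1
import Pool.Agent.Lib.MP_b197b4_ntA.Cur2

/-!
# MP_b197b4_nt, project K1-ALL: the degree of a function with one pole
-/

set_option autoImplicit false

namespace Pool.Agent.Lib.MP_b197b4_ntA

open IsLocalRing Pool.Agent.Lib.MP_b197b4_ntK Polynomial

variable {k K : Type} [Field k] [Field K] [Algebra k K]

/-- A function without poles is constant. -/
theorem PicD_regular [IsAlgClosed k] (hK : FunF k K 1) (c : K)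
    (h : ∀ W : ValuationSubring K, Place k W → c ∈ W) : ∃ a : k, algebraMap k K a = c := by
  have h1 : c ∈ (⨅ V : {V : ValuationSubring K // Set.range (algebraMap k K) ⊆ V.toSubring},
      V.1.toSubring) := by
    rw [Subring.mem_iInf]
    rintro ⟨V, hV⟩
    show c ∈ V
    have hVk : Over k V := fun a => hV ⟨a, rfl⟩
    by_cases hT : V = ⊤
    · rw [hT]
      exact ValuationSubring.mem_top c
    · exact h V ⟨C1_dvr hK V hVk hT, hVk⟩
  rw [iInf_valuationSubring_superset] at h1
  have h2 : IsIntegral (Subring.closure (Set.range (algebraMap k K))) c := h1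
  obtain ⟨p, hp, hp0⟩ := h2
  have h4 : IsIntegral k c := by
    have h5 : IsIntegral (algebraMap k K).range c := by
      have h3 : Subring.closure (Set.range (algebraMap k K)) ≤ (algebraMap k K).range := by
        rw [Subring.closure_le]
        rintro _ ⟨a, rfl⟩
        exact ⟨a, rfl⟩
      refine ⟨p.map (Subring.inclusion h3), hp.map _, ?_⟩
      rw [Polynomial.eval₂_map]
      exact hp0
    obtain ⟨q, hq, hq0⟩ := h5
    have h7 : q ∈ Polynomial.lifts (algebraMap k K).rangeRestrict := by
      rw [Polynomial.lifts_iff_coeff_lifts]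
      intro i
      exact (algebraMap k K).rangeRestrict_surjective _
    obtain ⟨r, hr, hrd, hrm⟩ := Polynomial.lifts_and_natDegree_eq_and_monic h7 hq
    refine ⟨r, hrm, ?_⟩
    rw [← hr, Polynomial.eval₂_map] at hq0
    exact hq0
  have h8 := IsAlgClosed.degree_eq_one_of_irreducible k (minpoly.irreducible h4)
  obtain ⟨a, ha⟩ := minpoly.mem_range_of_degree_eq_one k c h8
  exact ⟨a, ha⟩

/-- Algebraic elements are constants. -/
theorem PicD_alg [IsAlgClosed k] {c : K} (hc : IsAlgebraic k c) : ∃ a : k, algebraMap k K a = c := by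
  obtain ⟨a, ha⟩ := (IsAlgClosed.algebraMap_bijective_of_isIntegral (k := k)
    (K := integralClosure k K)).2 ⟨c, hc.isIntegral⟩
  exact ⟨a, congrArg Subtype.val ha⟩

/-- The residue field of a place is `k`. -/
theorem PicD_residue [IsAlgClosed k] (hK : FunF k K 1) {W : ValuationSubring K} (hW : Place k W)
    {y : K} (hy : y ∈ W) : ∃ a : k, W.valuation (y - algebraMap k K a) < 1 := by
  by_cases halg : IsAlgebraic k y
  · obtain ⟨a, rfl⟩ := PicD_alg halg
    exact ⟨a, by rw [sub_self, map_zero]; exact zero_lt_one⟩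
  · have hfin := Cur2_finite hK halg
    -- some polynomial in `y` is not a unit
    obtain ⟨p, hp0, hp⟩ : ∃ p : k[X], p ≠ 0 ∧ W.valuation (aeval y p) < 1 := by
      by_contra hcon
      push Not at hcon
      have hu : ∀ p : k[X], p ≠ 0 → W.valuation (aeval y p) = 1 := fun p hp =>
        le_antisymm ((W.valuation_le_one_iff _).2 (Cur2_aeval_mem hW.2 hy p)) (hcon p hp)
      have hL : ∀ x ∈ IntermediateField.adjoin k {y}, x ∈ W := by
        intro x hx
        obtain ⟨r, s, rfl⟩ := (IntermediateField.mem_adjoin_simple_iff k x).1 hx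
        rw [← W.valuation_le_one_iff, map_div₀]
        by_cases hs : s = 0
        · rw [hs, map_zero, map_zero, div_zero]; exact zero_le_one
        · rw [hu s hs, div_one, W.valuation_le_one_iff]
          exact Cur2_aeval_mem hW.2 hy r
      have htop : ∀ x : K, x ∈ W := by
        intro x
        have h1 : IsIntegral (IntermediateField.adjoin k {y}) x :=
          (Algebra.IsAlgebraic.isAlgebraic x).isIntegral
        obtain ⟨q, hq, hq0⟩ := h1
        have h2 : IsIntegral W x := by
          refine ⟨q.map (RingHom.codRestrict (IntermediateField.adjoin k {y}).val.toRingHom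
            W.toSubring (fun z => hL z.1 z.2)), hq.map _, ?_⟩
          rw [Polynomial.eval₂_map]
          exact hq0
        obtain ⟨w, hw⟩ := (IsIntegrallyClosed.isIntegral_iff (R := W) (K := K)).1 h2
        rw [← hw]
        exact w.2
      have hdvr := hW.1
      obtain ⟨π, hπ⟩ := IsDiscreteValuationRing.exists_irreducible W
      have h1 := val_irr_lt hπ
      have hπ0 : (π : K) ≠ 0 := fun h => hπ.ne_zero (Subtype.ext h)
      have h2 := (W.valuation_le_one_iff _).2 (htop (π : K)⁻¹)
      rw [map_inv₀] at h2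
      have h3 : 0 < W.valuation (π : K) := by rw [Valuation.pos_iff]; exact hπ0
      have h4 := (one_lt_inv₀ h3).2 h1
      exact absurd h2 (not_le.2 h4)
    have hsplit := (IsAlgClosed.splits p).eq_prod_roots
    have h1 : aeval y p = algebraMap k K p.leadingCoeff *
        (p.roots.map fun a => y - algebraMap k K a).prod := by
      conv_lhs => rw [hsplit]
      rw [map_mul, aeval_C, map_multiset_prod, Multiset.map_map]
      congr 2
      apply Multiset.map_congr rfl
      intro a _
      simp
    by_contra hcon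
    push Not at hcon
    have h2 : ∀ a : k, W.valuation (y - algebraMap k K a) = 1 := fun a =>
      le_antisymm ((W.valuation_le_one_iff _).2 (W.sub_mem hy (hW.2 a))) (hcon a)
    have h3 : W.valuation (aeval y p) = 1 := by
      rw [h1, map_mul, map_multiset_prod, Multiset.map_map]
      have h4 : (p.roots.map (W.valuation ∘ fun a => y - algebraMap k K a)).prod = 1 := by
        apply Multiset.prod_eq_one
        intro x hx
        obtain ⟨a, _, rfl⟩ := Multiset.mem_map.1 hx
        exact h2 a
      rw [h4, mul_one, Cur2_const hW.2 (leadingCoeff_ne_zero.2 hp0)]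
    rw [h3] at hp
    exact lt_irrefl _ hp

/-- The order of a polynomial in a function with a pole. -/
theorem PicD_ord_aeval {W : ValuationSubring K} (hW : Place k W) {u : K} (hu : u ∉ W) {p : k[X]}
    (hp : p ≠ 0) : aeval u p ≠ 0 ∧ ord W (aeval u p) = p.natDegree * ord W u := by
  have hu0 : u ≠ 0 := by rintro rfl; exact hu W.zero_mem
  have hc : W.valuation u⁻¹ < 1 := by
    have h1 : ¬ W.valuation u ≤ 1 := fun h => hu ((W.valuation_le_one_iff u).1 h)
    rw [map_inv₀]
    exact inv_lt_one_of_one_lt₀ (not_le.1 h1)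
  have h1 : aeval u p = aeval u⁻¹ p.reverse * u ^ p.natDegree := by
    have : Invertible u := invertibleOfNonzero hu0
    have h2 := eval₂_reverse_mul_pow (algebraMap k K) u p
    rw [invOf_eq_inv] at h2
    exact h2.symm
  have h2 : p.reverse.coeff 0 ≠ 0 := by
    rw [coeff_zero_reverse]
    exact leadingCoeff_ne_zero.2 hp
  have h3 := Cur2_aeval_unit hW.2 hc h2
  have h4 : aeval u⁻¹ p.reverse ≠ 0 := by
    intro h
    rw [h, map_zero] at h3
    exact zero_ne_one h3
  refine ⟨?_, ?_⟩
  · rw [h1]
    exact mul_ne_zero h4 (pow_ne_zero _ hu0)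
  · rw [h1, ord_mul hW.1 h4 (pow_ne_zero _ hu0), ord_pow hW.1 hu0,
      (ord_eq_zero_iff hW.1 h4).2 h3, zero_add]

theorem PicD_ord_field {W : ValuationSubring K} (hW : Place k W) {u : K} (hu : u ∉ W) {x : K}
    (hx : x ∈ IntermediateField.adjoin k {u}) (hx0 : x ≠ 0) : ∃ j : ℤ, ord W x = j * ord W u := by
  obtain ⟨r, s, rfl⟩ := (IntermediateField.mem_adjoin_simple_iff k x).1 hx
  have hr : r ≠ 0 := by
    rintro rfl
    apply hx0
    rw [map_zero, zero_div]
  have hs : s ≠ 0 := by
    rintro rfl
    apply hx0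
    rw [map_zero, div_zero]
  obtain ⟨h1, h2⟩ := PicD_ord_aeval hW hu hr
  obtain ⟨h3, h4⟩ := PicD_ord_aeval hW hu hs
  refine ⟨(r.natDegree : ℤ) - s.natDegree, ?_⟩
  rw [ord_div hW.1 h1 h3, h2, h4]
  ring

/-- The powers of a uniformizer are independent. -/
theorem PicD_ge {W : ValuationSubring K} (hW : Place k W) {u : K} (hu : u ∉ W) (e : ℕ)
    (he : ord W u = -(e : ℤ)) (p : K) (hp0 : p ≠ 0) (hp : ord W p = 1) :
    LinearIndependent (IntermediateField.adjoin k {u}) fun i : Fin e => p ^ (i : ℕ) := by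
  classical
  rw [Fintype.linearIndependent_iff]
  intro f hf
  by_contra hcon
  push Not at hcon
  obtain ⟨i₀, hi₀⟩ := hcon
  -- the index with the largest value
  obtain ⟨i, hi, hmax⟩ := Finset.exists_max_image Finset.univ
    (fun i : Fin e => W.valuation (f i • p ^ (i : ℕ))) ⟨i₀, Finset.mem_univ _⟩
  have hne0 : ∀ i : Fin e, f i ≠ 0 → f i • p ^ (i : ℕ) ≠ 0 := by
    intro i h
    rw [Algebra.smul_def]
    refine mul_ne_zero ?_ (pow_ne_zero _ hp0)
    exact fun h' => h (Subtype.ext h')
  have hfi : f i ≠ 0 := by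
    intro h
    have h1 := hmax i₀ (Finset.mem_univ _)
    rw [h, zero_smul, map_zero] at h1
    have h2 := (Valuation.zero_iff _).1 (le_antisymm h1 zero_le)
    exact hne0 i₀ hi₀ h2
  have hord : ∀ i : Fin e, f i ≠ 0 → ∃ j : ℤ, ord W (f i • p ^ (i : ℕ)) = -(e : ℤ) * j + i := by
    intro i h
    have h0 : (f i : K) ≠ 0 := fun h' => h (Subtype.ext h')
    obtain ⟨j, hj⟩ := PicD_ord_field hW hu (f i).2 h0
    refine ⟨j, ?_⟩
    have h1 : f i • p ^ (i : ℕ) = (f i : K) * p ^ (i : ℕ) := Algebra.smul_def _ _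
    rw [h1, ord_mul hW.1 h0 (pow_ne_zero _ hp0), hj, he, ord_pow hW.1 hp0, hp]
    ring
  have hlt : ∀ j ∈ Finset.univ.erase i, W.valuation (f j • p ^ (j : ℕ)) <
      W.valuation (f i • p ^ (i : ℕ)) := by
    intro j hj
    refine lt_of_le_of_ne (hmax j (Finset.mem_univ _)) fun heq => ?_
    by_cases hfj : f j = 0
    · rw [hfj, zero_smul, map_zero] at heq
      exact hne0 i hfi ((Valuation.zero_iff _).1 heq.symm)
    · have h1 : ord W (f j • p ^ (j : ℕ)) = ord W (f i • p ^ (i : ℕ)) := by
        have h2 : W.valuation ((f j • p ^ (j : ℕ)) / (f i • p ^ (i : ℕ))) = 1 := by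
          rw [map_div₀, heq]
          exact div_self ((Valuation.ne_zero_iff _).2 (hne0 i hfi))
        have h3 := (ord_eq_zero_iff hW.1 (div_ne_zero (hne0 j hfj) (hne0 i hfi))).2 h2
        rw [ord_div hW.1 (hne0 j hfj) (hne0 i hfi)] at h3
        omega
      obtain ⟨a, ha⟩ := hord j hfj
      obtain ⟨b, hb⟩ := hord i hfi
      rw [ha, hb] at h1
      apply Finset.ne_of_mem_erase hj
      apply Fin.ext
      have hj' := j.2
      have hi' := i.2
      have h4 : ((j : ℕ) : ℤ) - (i : ℕ) = (e : ℤ) * (a - b) := by linarith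
      have h5 : (e : ℤ) ∣ ((j : ℕ) : ℤ) - (i : ℕ) := ⟨_, h4⟩
      have h6 : |((j : ℕ) : ℤ) - (i : ℕ)| < e := by
        rw [abs_lt]
        constructor <;> omega
      have h7 := Int.eq_zero_of_abs_lt_dvd h5 h6
      omega
  have hsum := Valuation.map_sum_lt W.valuation
    ((Valuation.ne_zero_iff _).2 (hne0 i hfi)) hlt
  have h1 := Finset.add_sum_erase Finset.univ (fun i : Fin e => f i • p ^ (i : ℕ)) hi
  rw [hf] at h1
  have h2 : ∑ j ∈ Finset.univ.erase i, f j • p ^ (j : ℕ) = -(f i • p ^ (i : ℕ)) :=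
    eq_neg_of_add_eq_zero_right h1
  rw [h2, Valuation.map_neg] at hsum
  exact lt_irrefl _ hsum

/-- functions with a pole of order at most `n` at `W` and no other poles -/
def PicD_L (k : Type) {K : Type} [Field k] [Field K] [Algebra k K] (W : ValuationSubring K) (p : K)
    (n : ℕ) : Set K :=
  {f | (∀ V : ValuationSubring K, Place k V → V ≠ W → f ∈ V) ∧ f * p ^ n ∈ W}

theorem PicD_dim [IsAlgClosed k] (hK : FunF k K 1) {W : ValuationSubring K} (hW : Place k W)
    {p : K} (hp0 : p ≠ 0) (hp : ord W p = 1) (n : ℕ) :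
    ∃ s : Finset K, s.card ≤ n + 1 ∧ ∀ f ∈ PicD_L k W p n, f ∈ Submodule.span k (s : Set K) := by
  classical
  induction n with
  | zero =>
    refine ⟨{1}, by simp, fun f hf => ?_⟩
    obtain ⟨h1, h2⟩ := hf
    rw [pow_zero, mul_one] at h2
    obtain ⟨a, rfl⟩ := PicD_regular hK f fun V hV => by
      by_cases h : V = W
      · rw [h]; exact h2
      · exact h1 V hV h
    rw [Finset.coe_singleton, Submodule.mem_span_singleton]
    exact ⟨a, by rw [Algebra.smul_def, mul_one]⟩
  | succ n ih =>
    obtain ⟨s, hs, hspan⟩ := ih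
    by_cases hle : ∀ f ∈ PicD_L k W p (n + 1), f ∈ PicD_L k W p n
    · exact ⟨s, by omega, fun f hf => hspan f (hle f hf)⟩
    · push Not at hle
      obtain ⟨g, hg, hgn⟩ := hle
      refine ⟨insert g s, (Finset.card_insert_le _ _).trans (by omega), fun f hf => ?_⟩
      have hv : W.valuation (g * p ^ (n + 1)) = 1 := by
        refine le_antisymm ((W.valuation_le_one_iff _).2 hg.2) ?_
        by_contra hlt
        push Not at hlt
        apply hgn
        refine ⟨hg.1, ?_⟩
        by_cases hg0 : g = 0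
        · rw [hg0, zero_mul]; exact W.zero_mem
        · have h0 : g * p ^ (n + 1) ≠ 0 := mul_ne_zero hg0 (pow_ne_zero _ hp0)
          have h1 := (ord_pos_iff hW.1 h0).2 hlt
          have h2 : g * p ^ n ≠ 0 := mul_ne_zero hg0 (pow_ne_zero _ hp0)
          rw [pow_succ, ← mul_assoc, ord_mul hW.1 h2 hp0, hp] at h1
          exact (ord_nonneg_iff hW.1 h2).1 (by omega)
      have hq : (f * p ^ (n + 1)) / (g * p ^ (n + 1)) ∈ W := by
        rw [← W.valuation_le_one_iff, map_div₀, hv, div_one, W.valuation_le_one_iff]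
        exact hf.2
      obtain ⟨a, ha⟩ := PicD_residue hK hW hq
      have hg0 : g ≠ 0 := by
        rintro rfl
        rw [zero_mul, map_zero] at hv
        exact zero_ne_one hv
      have hdiff : f - algebraMap k K a * g ∈ PicD_L k W p n := by
        refine ⟨fun V hV hVW => V.sub_mem (hf.1 V hV hVW) (V.mul_mem _ _ (hV.2 a) (hg.1 V hV hVW)), ?_⟩
        by_cases h0 : f - algebraMap k K a * g = 0
        · rw [h0, zero_mul]; exact W.zero_mem
        · have h1 : W.valuation ((f - algebraMap k K a * g) * p ^ (n + 1)) < 1 := by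
            have h2 : (f - algebraMap k K a * g) * p ^ (n + 1) =
                ((f * p ^ (n + 1)) / (g * p ^ (n + 1)) - algebraMap k K a) *
                  (g * p ^ (n + 1)) := by
              have := pow_ne_zero (n + 1) hp0
              field_simp
            rw [h2, map_mul, hv, mul_one]
            exact ha
          have h3 : (f - algebraMap k K a * g) * p ^ n ≠ 0 := mul_ne_zero h0 (pow_ne_zero _ hp0)
          have h4 := (ord_pos_iff hW.1 (mul_ne_zero h0 (pow_ne_zero _ hp0))).2 h1
          rw [pow_succ, ← mul_assoc, ord_mul hW.1 h3 hp0, hp] at h4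
          exact (ord_nonneg_iff hW.1 h3).1 (by omega)
      have h5 := hspan _ hdiff
      have h6 : f = (f - algebraMap k K a * g) + a • g := by
        rw [Algebra.smul_def]; ring
      rw [h6, Finset.coe_insert]
      refine Submodule.add_mem _ (Submodule.span_mono (Set.subset_insert _ _) h5)
        (Submodule.smul_mem _ _ (Submodule.subset_span (Set.mem_insert _ _)))

open scoped IntermediateField.algebraAdjoinAdjoin in
theorem PicD_le [IsAlgClosed k] (hK : FunF k K 1) {W : ValuationSubring K} (hW : Place k W)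
    {u : K} (hu : u ∉ W) (h : ∀ V : ValuationSubring K, Place k V → V ≠ W → u ∈ V) (e : ℕ)
    (he : ord W u = -(e : ℤ)) (p : K) (hp0 : p ≠ 0) (hp : ord W p = 1) :
    Module.finrank (IntermediateField.adjoin k {u}) K ≤ e := by
  classical
  have htr : Transcendental k u := by
    intro halg
    obtain ⟨a, rfl⟩ := PicD_alg halg
    exact hu (hW.2 a)
  have hu0 : u ≠ 0 := by rintro rfl; exact hu W.zero_mem
  have hfin := Cur2_finite hK htr
  set L := IntermediateField.adjoin k {u} with hL
  set N := Module.finrank L K with hN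
  by_contra hcon
  push Not at hcon
  let b := Module.finBasis L K
  -- multiples which are integral over `k[u]`
  have hint : ∃ y : L, y ≠ 0 ∧ ∀ i, ∀ V : ValuationSubring K, Place k V → V ≠ W →
      (y : K) * b i ∈ V := by
    have halg : Algebra.IsAlgebraic (Algebra.adjoin k {u}) K := by
      have h1 := IsLocalization.isAlgebraic L (nonZeroDivisors (Algebra.adjoin k {u}))
      exact Algebra.IsAlgebraic.trans (Algebra.adjoin k {u}) L K
    obtain ⟨y, hy0, hy⟩ := Algebra.IsAlgebraic.exists_integral_multiples (Algebra.adjoin k {u})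
      (Finset.univ.image b)
    refine ⟨algebraMap (Algebra.adjoin k {u}) L y, ?_, ?_⟩
    · intro h0
      apply hy0
      exact (FaithfulSMul.algebraMap_injective (Algebra.adjoin k {u}) L) (by rw [h0, map_zero])
    · intro i V hV hVW
      have h1 := hy (b i) (Finset.mem_image_of_mem _ (Finset.mem_univ i))
      have h2 : y • b i = ((algebraMap (Algebra.adjoin k {u}) L y : L) : K) * b i := by
        rw [Algebra.smul_def]; rfl
      rw [h2] at h1
      have huV := h V hV hVW
      have hAV : ∀ z : Algebra.adjoin k {u}, (z : K) ∈ V := by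
        intro z
        obtain ⟨q, hq⟩ := (Algebra.adjoin_singleton_eq_range_aeval k u ▸ z.2 :
          (z : K) ∈ (aeval u : k[X] →ₐ[k] K).range)
        rw [← hq]
        exact Cur2_aeval_mem hV.2 huV q
      obtain ⟨q, hq, hq0⟩ := h1
      have h3 : IsIntegral V (((algebraMap (Algebra.adjoin k {u}) L y : L) : K) * b i) := by
        refine ⟨q.map (RingHom.codRestrict (Algebra.adjoin k {u}).val.toRingHom
          V.toSubring hAV), hq.map _, ?_⟩
        rw [Polynomial.eval₂_map]
        exact hq0
      obtain ⟨w, hw⟩ := (IsIntegrallyClosed.isIntegral_iff (R := V) (K := K)).1 h3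
      rw [← hw]
      exact w.2
  obtain ⟨y, hy0, hy⟩ := hint
  have hyK : (y : K) ≠ 0 := fun h' => hy0 (Subtype.ext h')
  have hindep : LinearIndependent L fun i : Fin N => (y : K) * b i := by
    have h1 := b.linearIndependent.units_smul fun _ => Units.mk0 y hy0
    exact h1
  -- bound for the poles
  obtain ⟨C, hC⟩ : ∃ C : ℕ, ∀ i : Fin N, (y : K) * b i * p ^ C ∈ W := by
    have h1 : ∀ i : Fin N, ∃ C : ℕ, ∀ n : ℕ, C ≤ n → (y : K) * b i * p ^ n ∈ W := by
      intro i
      refine ⟨(-(ord W ((y : K) * b i))).toNat, fun n hn => ?_⟩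
      have h2 : (y : K) * b i ≠ 0 := mul_ne_zero hyK (b.ne_zero i)
      rw [← ord_nonneg_iff hW.1 (mul_ne_zero h2 (pow_ne_zero _ hp0)),
        ord_mul hW.1 h2 (pow_ne_zero _ hp0), ord_pow hW.1 hp0, hp]
      omega
    choose C hC using h1
    refine ⟨∑ i, C i, fun i => hC i _ ?_⟩
    exact Finset.single_le_sum (fun i _ => Nat.zero_le (C i)) (Finset.mem_univ i)
  -- independent functions
  let m := C + 1
  let ug : L := ⟨u, IntermediateField.mem_adjoin_simple_self k u⟩
  have hpow : LinearIndependent k fun j : Fin (m + 1) => ug ^ (j : ℕ) := by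
    rw [Fintype.linearIndependent_iff]
    intro c hc
    have h1 : aeval u (∑ j : Fin (m + 1), Polynomial.monomial (j : ℕ) (c j)) = 0 := by
      have h2 : ((∑ j : Fin (m + 1), c j • ug ^ (j : ℕ) : L) : K) = 0 := by rw [hc]; rfl
      simp only [map_sum, Polynomial.aeval_monomial]
      refine Eq.trans ?_ h2
      simp [Algebra.smul_def, ug]
    have h2 := (transcendental_iff.1 htr) _ h1
    intro j
    have h3 := congrArg (fun q => Polynomial.coeff q (j : ℕ)) h2
    simp only [Polynomial.finsetSum_coeff, Polynomial.coeff_monomial, Polynomial.coeff_zero] at h3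
    rw [Finset.sum_eq_single j] at h3
    · simpa using h3
    · intro i _ hij
      have : (i : ℕ) ≠ j := fun h' => hij (Fin.ext h')
      simp [this]
    · intro h'
      exact absurd (Finset.mem_univ j) h'
  have hbig := linearIndependent_smul hpow hindep
  have hmem : ∀ q : Fin (m + 1) × Fin N, ug ^ (q.1 : ℕ) • ((y : K) * b q.2) ∈
      PicD_L k W p (e * m + C) := by
    rintro ⟨j, i⟩
    have h1 : ug ^ (j : ℕ) • ((y : K) * b i) = u ^ (j : ℕ) * ((y : K) * b i) := by
      rw [Algebra.smul_def, map_pow]; rfl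
    refine ⟨fun V hV hVW => ?_, ?_⟩
    · simp only
      rw [h1]
      exact V.mul_mem _ _ (V.pow_mem (h V hV hVW) _) (hy i V hV hVW)
    · simp only
      rw [h1]
      have hj : (j : ℕ) ≤ m := Nat.lt_succ_iff.1 j.2
      have h2 : u ^ (j : ℕ) * ((y : K) * b i) * p ^ (e * m + C) =
          (u ^ (j : ℕ) * p ^ (e * m)) * ((y : K) * b i * p ^ C) := by ring
      rw [h2]
      refine W.mul_mem _ _ ?_ (hC i)
      rw [← ord_nonneg_iff hW.1 (mul_ne_zero (pow_ne_zero _ hu0) (pow_ne_zero _ hp0)),
        ord_mul hW.1 (pow_ne_zero _ hu0) (pow_ne_zero _ hp0), ord_pow hW.1 hu0,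
        ord_pow hW.1 hp0, hp, he]
      have h3 : (e : ℤ) * (j : ℕ) ≤ (e : ℤ) * (m : ℕ) := by
        exact_mod_cast Nat.mul_le_mul_left e hj
      push_cast
      linarith
  obtain ⟨s, hs, hspan⟩ := PicD_dim hK hW hp0 hp (e * m + C)
  have h1 : Submodule.span k (Set.range fun q : Fin (m + 1) × Fin N =>
      ug ^ (q.1 : ℕ) • ((y : K) * b q.2)) ≤ Submodule.span k (s : Set K) := by
    rw [Submodule.span_le]
    rintro _ ⟨q, rfl⟩
    exact hspan _ (hmem q)
  have h2 := finrank_span_eq_card hbig
  have hfd : FiniteDimensional k (Submodule.span k (s : Set K)) :=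
    FiniteDimensional.span_finset k s
  have h3 := Submodule.finrank_mono h1
  have h4 := finrank_span_finset_le_card (R := k) s
  have h5 : (m + 1) * N ≤ e * m + C + 1 := by
    have h6 : Fintype.card (Fin (m + 1) × Fin N) = (m + 1) * N := by
      rw [Fintype.card_prod, Fintype.card_fin, Fintype.card_fin]
    rw [← h6, ← h2]
    exact h3.trans (h4.trans hs)
  have h6 : (m + 1) * (e + 1) ≤ (m + 1) * N := Nat.mul_le_mul_left _ hcon
  have h7 : (m + 1) * (e + 1) = e * m + m + e + 1 := by ring
  have h8 : m = C + 1 := rfl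
  omega

/-- **The degree of a function with only one pole.** -/
theorem pic_degree {k K : Type} [Field k] [IsAlgClosed k] [Field K] [Algebra k K]
    (hK : FunF k K 1) (W : ValuationSubring K) (hW : Place k W) (u : K) (hu : u ∉ W)
    (h : ∀ V : ValuationSubring K, Place k V → V ≠ W → u ∈ V) :
    ((Module.finrank (IntermediateField.adjoin k {u}) K : ℕ) : ℤ) = - ord W u := by
  obtain ⟨hu0, hneg⟩ := Cur2_ord_neg hW.1 hu
  obtain ⟨p, hp0, hp⟩ := Cur2_unif hW.1
  obtain ⟨e, he⟩ : ∃ e : ℕ, ord W u = -(e : ℤ) := ⟨(-(ord W u)).toNat, by omega⟩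
  have htr : Transcendental k u := by
    intro halg
    obtain ⟨a, rfl⟩ := PicD_alg halg
    exact hu (hW.2 a)
  have hfin := Cur2_finite hK htr
  have h1 := PicD_le hK hW hu h e he p hp0 hp
  have h2 := (PicD_ge hW hu e he p hp0 hp).fintype_card_le_finrank
  rw [Fintype.card_fin] at h2
  rw [he, neg_neg]
  exact_mod_cast le_antisymm h1 h2

end Pool.Agent.Lib.MP_b197b4_ntA
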