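import Mathlib
import Pool.Agent.Lib.MP_b197b4_ntA.Cur1
import Pool.Agent.Lib.MP_b197b4_ntA.Cur2

/-!
# MP_b197b4_nt, project K1-ALL: basic facts on places of curves, a separable function with one pole
-/

set_option autoImplicit false

namespace Pool.Agent.Lib.MP_b197b4_ntA

open IsLocalRing Pool.Agent.Lib.MP_b197b4_ntK
open scoped KaehlerDifferential IntermediateField.algebraAdjoinAdjoin

variable {k K : Type} [Field k] [Field K] [Algebra k K]

/-- A function which is regular at all places is constant. -/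
theorem PicS_max [IsAlgClosed k] (hK : FunF k K 1) (c : K)
    (h : ∀ W : ValuationSubring K, Place k W → c ∈ W) : ∃ a : k, algebraMap k K a = c := by
  have h1 : c ∈ (⨅ V : {V : ValuationSubring K // Set.range (algebraMap k K) ⊆ V.toSubring},
      V.1.toSubring) := by
    rw [Subring.mem_iInf]
    rintro ⟨V, hV⟩
    show c ∈ V
    have hVk : Over k V := fun a => hV ⟨a, rfl⟩
    by_cases hT : V = ⊤
    · rw [hT]
      exact ValuationSubring.mem_top c
    · exact h V ⟨C1_dvr hK V hVk hT, hVk⟩
  rw [iInf_valuationSubring_superset] at h1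
  have h2 : IsIntegral (Subring.closure (Set.range (algebraMap k K))) c := h1
  obtain ⟨p, hp, hp0⟩ := h2
  have h4 : IsIntegral k c := by
    have h5 : IsIntegral (algebraMap k K).range c := by
      have h3 : Subring.closure (Set.range (algebraMap k K)) ≤ (algebraMap k K).range := by
        rw [Subring.closure_le]
        rintro _ ⟨a, rfl⟩
        exact ⟨a, rfl⟩
      refine ⟨p.map (Subring.inclusion h3), hp.map _, ?_⟩
      rw [Polynomial.eval₂_map]
      exact hp0
    obtain ⟨q, hq, hq0⟩ := h5
    have h7 : q ∈ Polynomial.lifts (algebraMap k K).rangeRestrict := by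
      rw [Polynomial.lifts_iff_coeff_lifts]
      intro i
      exact (algebraMap k K).rangeRestrict_surjective _
    obtain ⟨r, hr, hrd, hrm⟩ := Polynomial.lifts_and_natDegree_eq_and_monic h7 hq
    refine ⟨r, hrm, ?_⟩
    rw [← hr, Polynomial.eval₂_map] at hq0
    exact hq0
  have h8 := IsAlgClosed.degree_eq_one_of_irreducible k (minpoly.irreducible h4)
  obtain ⟨a, ha⟩ := minpoly.mem_range_of_degree_eq_one k c h8
  exact ⟨a, ha⟩

/-- A non constant element is transcendental. -/
theorem PicS_trans [IsAlgClosed k] {c : K} (h : ∀ a : k, algebraMap k K a ≠ c) :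
    Transcendental k c := by
  intro hc
  have h4 : IsIntegral k c := hc.isIntegral
  have h8 := IsAlgClosed.degree_eq_one_of_irreducible k (minpoly.irreducible h4)
  obtain ⟨a, ha⟩ := minpoly.mem_range_of_degree_eq_one k c h8
  exact h a ha

/-- If all `x - a` are units then all nonzero polynomials in `x` are units. -/
theorem PicS_poly [IsAlgClosed k] {V : ValuationSubring K} (hV : Over k V) {x : K}
    (h : ∀ a : k, V.valuation (x - algebraMap k K a) = 1) (p : Polynomial k) (hp : p ≠ 0) :
    V.valuation (Polynomial.aeval x p) = 1 := by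
  have hs := (IsAlgClosed.splits p).eq_prod_roots
  have h1 : V.valuation (algebraMap k K p.leadingCoeff) = 1 :=
    Cur2_const hV (Polynomial.leadingCoeff_ne_zero.2 hp)
  rw [hs, map_mul, Polynomial.aeval_C, map_mul, h1, one_mul, map_multiset_prod,
    map_multiset_prod, Multiset.map_map, Multiset.map_map]
  apply Multiset.prod_eq_one
  intro y hy
  rw [Multiset.mem_map] at hy
  obtain ⟨a, ha, rfl⟩ := hy
  simp only [Function.comp_apply, map_sub, Polynomial.aeval_X, Polynomial.aeval_C]
  exact h a

/-- The residue field of a place is `k`. -/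
theorem PicS_res [IsAlgClosed k] (hK : FunF k K 1) {V : ValuationSubring K} (hV : Place k V)
    {x : K} (hx : x ∈ V) : ∃ a : k, V.valuation (x - algebraMap k K a) < 1 := by
  by_contra hcon
  push Not at hcon
  have h1 : ∀ a : k, V.valuation (x - algebraMap k K a) = 1 := fun a =>
    le_antisymm ((ValuationSubring.valuation_le_one_iff V _).2 (V.sub_mem hx (hV.2 a))) (hcon a)
  have hx' : Transcendental k x := by
    apply PicS_trans
    intro a ha
    have h2 := h1 a
    rw [ha, sub_self, map_zero] at h2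
    exact zero_ne_one h2
  have hfin := Cur2_finite hK hx'
  have h2 : ∀ y ∈ IntermediateField.adjoin k {x}, y ≠ 0 → V.valuation y = 1 := by
    intro y hy hy0
    rw [IntermediateField.mem_adjoin_simple_iff] at hy
    obtain ⟨r, s, rfl⟩ := hy
    have hr : r ≠ 0 := by
      rintro rfl
      apply hy0
      rw [map_zero, zero_div]
    have hs : s ≠ 0 := by
      rintro rfl
      apply hy0
      rw [map_zero, div_zero]
    rw [map_div₀, PicS_poly hV.2 h1 r hr, PicS_poly hV.2 h1 s hs, div_one]
  obtain ⟨p, hp0, hp⟩ := Cur2_unif hV.1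
  have hpV : V.valuation p < 1 := (ord_pos_iff hV.1 hp0).1 (by rw [hp]; norm_num)
  have halg : IsAlgebraic (IntermediateField.adjoin k {x}) p := Algebra.IsAlgebraic.isAlgebraic p
  have hint := halg.isIntegral
  set q := minpoly (IntermediateField.adjoin k {x}) p with hq
  have hq0 : q.coeff 0 ≠ 0 := minpoly.coeff_zero_ne_zero hint hp0
  have h3 : Polynomial.aeval p q = 0 := minpoly.aeval _ _
  have h4 : Polynomial.aeval p q = algebraMap _ K (q.coeff 0) + p * Polynomial.aeval p q.divX := by
    conv_lhs => rw [← Polynomial.divX_mul_X_add q]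
    rw [map_add, map_mul, Polynomial.aeval_X, Polynomial.aeval_C]
    ring
  have h5 : Polynomial.aeval p q.divX ∈ V := by
    rw [Polynomial.aeval_eq_sum_range]
    refine sum_mem fun i _ => ?_
    rw [Algebra.smul_def]
    refine V.mul_mem _ _ ?_ (pow_mem ((ValuationSubring.valuation_le_one_iff V _).1 hpV.le) _)
    by_cases h6 : q.divX.coeff i = 0
    · rw [h6, map_zero]
      exact V.zero_mem
    · apply (ValuationSubring.valuation_le_one_iff V _).1
      exact (h2 _ (q.divX.coeff i).2 (fun h => h6 (Subtype.ext h))).le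
  rw [h4] at h3
  have h6 : V.valuation (algebraMap (IntermediateField.adjoin k {x}) K (q.coeff 0)) = 1 :=
    h2 _ (q.coeff 0).2 (fun h => hq0 (Subtype.ext h))
  have h7 : V.valuation (p * Polynomial.aeval p q.divX) < 1 := by
    rw [map_mul]
    calc V.valuation p * V.valuation (Polynomial.aeval p q.divX) ≤ V.valuation p * 1 :=
          mul_le_mul_right ((ValuationSubring.valuation_le_one_iff V _).2 h5) _
      _ < 1 := by rwa [mul_one]
  have h8 : algebraMap (IntermediateField.adjoin k {x}) K (q.coeff 0) =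
      - (p * Polynomial.aeval p q.divX) := eq_neg_of_add_eq_zero_left h3
  rw [h8, Valuation.map_neg] at h6
  exact absurd h6 h7.ne

/-- Derivations which kill a separating element are zero. -/
theorem PicS_der {M : Type} [AddCommGroup M] [Module k M] [Module K M] [IsScalarTower k K M] {t : K}
    (hsep : Algebra.IsSeparable (IntermediateField.adjoin k {t}) K) (δ : Derivation k K M)
    (h : δ t = 0) (x : K) : δ x = 0 := by
  have h0 : ∀ y ∈ IntermediateField.adjoin k {t}, δ y = 0 := by
    intro y hy
    induction hy using IntermediateField.adjoin_induction with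
    | mem x hx =>
      rw [Set.mem_singleton_iff] at hx
      rw [hx, h]
    | algebraMap x => exact δ.map_algebraMap x
    | add x y hx hy h1 h2 => rw [map_add, h1, h2, add_zero]
    | inv x hx h1 =>
      rw [Derivation.leibniz_inv, h1, smul_zero]
    | mul x y hx hy h1 h2 => rw [δ.leibniz, h1, h2, smul_zero, smul_zero, add_zero]
  let δ' : Derivation (IntermediateField.adjoin k {t}) K M :=
    { toFun := δ
      map_add' := fun a b => map_add δ a b
      map_smul' := fun a b => by
        rw [RingHom.id_apply, Algebra.smul_def, δ.leibniz, show δ (algebraMap _ K a) = 0 from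
          h0 _ a.2, smul_zero, add_zero]
        rfl
      map_one_eq_zero' := δ.map_one_eq_zero
      leibniz' := fun a b => δ.leibniz a b }
  have hu : Algebra.FormallyUnramified (IntermediateField.adjoin k {t}) K :=
    Algebra.FormallyUnramified.of_isSeparable _ _
  have h1 : δ' x = 0 := by
    rw [← δ'.liftKaehlerDifferential_comp_D]
    rw [Subsingleton.elim (KaehlerDifferential.D (IntermediateField.adjoin k {t}) K x) 0, map_zero]
  exact h1

/-- The criterion of separability. -/
theorem PicS_crit {t u : K} (ht : Algebra.IsSeparable (IntermediateField.adjoin k {t}) K)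
    (hfin : FiniteDimensional (IntermediateField.adjoin k {u}) K) (d : Derivation k K K)
    (h : d u ≠ 0) : Algebra.IsSeparable (IntermediateField.adjoin k {u}) K := by
  have hess : Algebra.EssFiniteType (IntermediateField.adjoin k {u}) K := inferInstance
  rw [← Algebra.FormallyUnramified.iff_isSeparable]
  constructor
  have ht0 : d t ≠ 0 := fun h1 => h (PicS_der ht d h1 u)
  let D := KaehlerDifferential.D (IntermediateField.adjoin k {u}) K
  let δ : Derivation k K (Ω[K⁄(IntermediateField.adjoin k {u})]) := D.restrictScalars k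
  have hδu : δ u = 0 :=
    D.map_algebraMap ⟨u, IntermediateField.mem_adjoin_simple_self k u⟩
  let ω : Ω[K⁄(IntermediateField.adjoin k {u})] := (d t)⁻¹ • δ t
  let η : Derivation k K (Ω[K⁄(IntermediateField.adjoin k {u})]) :=
    δ - (LinearMap.toSpanSingleton K _ ω).compDer d
  have hη : ∀ x, η x = δ x - d x • ω := fun x => rfl
  have hη0 : ∀ x, η x = 0 := PicS_der ht η (by
    rw [hη]
    show δ t - d t • (d t)⁻¹ • δ t = 0
    rw [smul_smul, mul_inv_cancel₀ ht0, one_smul, sub_self])
  have h1 : ∀ x, δ x = d x • ω := fun x => sub_eq_zero.1 ((hη x).symm.trans (hη0 x))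
  have h2 : ω = 0 := by
    have h3 := h1 u
    rw [hδu] at h3
    exact (smul_eq_zero.1 h3.symm).resolve_left h
  have h4 : ∀ x, D x = 0 := fun x => by
    have h5 := h1 x
    rw [h2, smul_zero] at h5
    exact h5
  have h5 : (⊤ : Submodule K (Ω[K⁄(IntermediateField.adjoin k {u})])) = ⊥ := by
    rw [← KaehlerDifferential.span_range_derivation, Submodule.span_eq_bot]
    rintro _ ⟨x, rfl⟩
    exact h4 x
  exact (Submodule.subsingleton_iff K).1 (subsingleton_of_bot_eq_top h5.symm)

/-- There is a non zero derivation. -/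
theorem PicS_exists_der [IsAlgClosed k] (hK : FunF k K 1) :
    ∃ (d : Derivation k K K) (x : K), d x ≠ 0 := by
  have hess : Algebra.EssFiniteType k K := IntermediateField.fg_top_iff.1 hK.1
  by_contra hcon
  push Not at hcon
  have h1 : ∀ x, KaehlerDifferential.D k K x = 0 := by
    intro x
    rw [← Module.forall_dual_apply_eq_zero_iff K]
    intro φ
    exact hcon (φ.compDer (KaehlerDifferential.D k K)) x
  have h5 : (⊤ : Submodule K (Ω[K⁄k])) = ⊥ := by
    rw [← KaehlerDifferential.span_range_derivation, Submodule.span_eq_bot]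
    rintro _ ⟨x, rfl⟩
    exact h1 x
  have h6 : Algebra.FormallyUnramified k K :=
    ⟨(Submodule.subsingleton_iff K).1 (subsingleton_of_bot_eq_top h5.symm)⟩
  have h7 := (Algebra.FormallyUnramified.iff_isSeparable (K := k) K).1 h6
  obtain ⟨t, ht, -, -⟩ := C1_sep hK
  exact ht (Algebra.IsAlgebraic.isAlgebraic t)

/-- Integral elements lie in valuation rings. -/
theorem PicS_int {u₀ y : K} (hy : IsIntegral (Algebra.adjoin k {u₀}) y) (V : ValuationSubring K)
    (hV : Over k V) (hu : u₀ ∈ V) : y ∈ V := by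
  obtain ⟨p, hp, hp0⟩ := hy
  have h1 : ∀ b ∈ Algebra.adjoin k {u₀}, b ∈ V := by
    intro b hb
    induction hb using Algebra.adjoin_induction with
    | mem x hx =>
      rw [Set.mem_singleton_iff] at hx
      rw [hx]
      exact hu
    | algebraMap r => exact hV r
    | add x y hx hy h1 h2 => exact V.add_mem _ _ h1 h2
    | mul x y hx hy h1 h2 => exact V.mul_mem _ _ h1 h2
  have h2 : IsIntegral V y := by
    refine ⟨p.map (⟨⟨⟨fun a => ⟨(a : K), h1 _ a.2⟩, rfl⟩, fun _ _ => rfl⟩, rfl, fun _ _ => rfl⟩ :
        Algebra.adjoin k {u₀} →+* V), hp.map _, ?_⟩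
    rw [Polynomial.eval₂_map]
    exact hp0
  obtain ⟨z, hz⟩ := IsIntegrallyClosed.isIntegral_iff.1 h2
  rw [← hz]
  exact z.2

/-- Every element has a multiple which is integral over `k[u]`. -/
theorem PicS_mult [IsAlgClosed k] (hK : FunF k K 1) {u₀ : K} (hu : Transcendental k u₀) (y : K) :
    ∃ a ∈ Algebra.adjoin k {u₀}, a ≠ 0 ∧ IsIntegral (Algebra.adjoin k {u₀}) (a * y) := by
  have hfin := Cur2_finite hK hu
  have halg : IsAlgebraic (Algebra.adjoin k {u₀}) y := by
    have h1 : IsAlgebraic (IntermediateField.adjoin k {u₀}) y := Algebra.IsAlgebraic.isAlgebraic y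
    exact (IsFractionRing.isAlgebraic_iff (Algebra.adjoin k {u₀})
      (IntermediateField.adjoin k {u₀}) K).2 h1
  obtain ⟨a, ha0, ha⟩ := halg.exists_integral_multiple
  exact ⟨a, a.2, fun h => ha0 (Subtype.ext h), ha⟩

theorem PicS_arch {x : ℤ} (hx : x < 0) (y : ℤ) : ∃ n : ℕ, (n : ℤ) * x + y < 0 := by
  refine ⟨y.natAbs + 1, ?_⟩
  have h3 : ((y.natAbs + 1 : ℕ) : ℤ) * x ≤ ((y.natAbs + 1 : ℕ) : ℤ) * (-1) :=
    mul_le_mul_of_nonneg_left (by omega) (by positivity)
  omega

/-- A separating element with only one pole. -/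
theorem PicS_exists [IsAlgClosed k] (hK : FunF k K 1) (W : ValuationSubring K) (hW : Place k W)
    (u₀ : K) (hu₀ : u₀ ∉ W) (h₀ : ∀ V : ValuationSubring K, Place k V → V ≠ W → u₀ ∈ V) :
    ∃ u : K, u ∉ W ∧ (∀ V : ValuationSubring K, Place k V → V ≠ W → u ∈ V) ∧
      Transcendental k u ∧ Algebra.IsSeparable (IntermediateField.adjoin k {u}) K ∧
      FiniteDimensional (IntermediateField.adjoin k {u}) K := by
  have htr : ∀ u : K, u ∉ W → Transcendental k u := fun u hu =>
    PicS_trans fun a ha => hu (ha ▸ hW.2 a)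
  obtain ⟨t, ht, hsep, -⟩ := C1_sep hK
  obtain ⟨d, x, hx⟩ := PicS_exists_der hK
  have ht0 : d t ≠ 0 := fun h1 => hx (PicS_der hsep d h1 x)
  by_cases hd : d u₀ = 0
  swap
  · have hfin := Cur2_finite hK (htr u₀ hu₀)
    exact ⟨u₀, hu₀, h₀, htr u₀ hu₀, PicS_crit hsep hfin d hd, hfin⟩
  obtain ⟨a, haA, ha0, ha⟩ := PicS_mult hK (htr u₀ hu₀) t
  have hd1 : ∀ b ∈ Algebra.adjoin k {u₀}, d b = 0 := by
    intro b hb
    induction hb using Algebra.adjoin_induction with
    | mem x hx =>
      rw [Set.mem_singleton_iff] at hx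
      rw [hx, hd]
    | algebraMap r => exact d.map_algebraMap r
    | add x y hx hy h1 h2 => rw [map_add, h1, h2, add_zero]
    | mul x y hx hy h1 h2 => rw [d.leibniz, h1, h2, smul_zero, smul_zero, add_zero]
  have htn : t ≠ 0 := by
    rintro rfl
    exact ht (isAlgebraic_zero)
  have hat0 : a * t ≠ 0 := mul_ne_zero ha0 htn
  obtain ⟨hu0, hu1⟩ := Cur2_ord_neg hW.1 hu₀
  obtain ⟨n, hn⟩ := PicS_arch hu1 (ord W (a * t))
  have hord : ord W (u₀ ^ n * (a * t)) < 0 := by
    rw [ord_mul hW.1 (pow_ne_zero _ hu0) hat0, ord_pow hW.1 hu0]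
    exact hn
  have hnot : u₀ ^ n * (a * t) ∉ W := by
    intro h1
    have h2 := (ord_nonneg_iff hW.1 (mul_ne_zero (pow_ne_zero n hu0) hat0)).2 h1
    omega
  have hfin' := Cur2_finite hK (htr _ hnot)
  refine ⟨u₀ ^ n * (a * t), hnot, ?_, htr _ hnot, PicS_crit hsep hfin' d ?_, hfin'⟩
  · intro V hV hVW
    exact V.mul_mem _ _ (pow_mem (h₀ V hV hVW) n) (PicS_int ha V hV.2 (h₀ V hV hVW))
  have h4 : d (u₀ ^ n * a) = 0 :=
    hd1 _ (mul_mem (pow_mem (Algebra.self_mem_adjoin_singleton k u₀) n) haA)
  rw [← mul_assoc, d.leibniz, h4, smul_zero, add_zero, smul_eq_mul]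
  exact mul_ne_zero (mul_ne_zero (pow_ne_zero _ hu0) ha0) ht0

end Pool.Agent.Lib.MP_b197b4_ntA
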