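import Mathlib
import Pool.Agent.Lib.MP_b197b4_ntA.PicS
import Pool.Agent.Lib.MP_b197b4_ntA.PicA
import Pool.Agent.Lib.MP_b197b4_ntA.PicD

/-!
# MP_b197b4_nt, project K1-ALL, leaf P: divisors of degree zero on curves are torsion
-/

set_option autoImplicit false

namespace Pool.Agent.Lib.MP_b197b4_ntA

open IsLocalRing Pool.Agent.Lib.MP_b197b4_ntK Polynomial
open scoped IntermediateField.algebraAdjoinAdjoin nonZeroDivisors

/-- The characteristic. -/
theorem Pic_char {k : Type} [Field k] [IsAlgClosed k] {p : ℕ} (hp : p.Prime)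
    (h : ∀ a : k, ∃ m : ℕ, 0 < m ∧ a ^ p ^ m = a) : CharP k p := by
  by_contra hc
  have h0 : (p : k) ≠ 0 := fun h1 => hc ((CharP.charP_iff_prime_eq_zero hp).2 h1)
  have : NeZero (p : k) := ⟨h0⟩
  have : NeZero p := ⟨hp.ne_zero⟩
  obtain ⟨z, hz⟩ := HasEnoughRootsOfUnity.exists_primitiveRoot k p
  obtain ⟨m, hm, hm1⟩ := h z
  have h1 : z ^ p ^ m = 1 := by
    obtain ⟨j, rfl⟩ := Nat.exists_eq_succ_of_ne_zero hm.ne'
    rw [pow_succ', pow_mul, hz.pow_eq_one, one_pow]
  rw [h1] at hm1
  have h2 := hz.eq_orderOf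
  rw [← hm1, orderOf_one] at h2
  exact hp.one_lt.ne' h2

/-- Finiteness of the class group: an element whose ideal is a power of the prime ideal of `W`. -/
theorem Pic_class {K : Type} [Field K] (p : ℕ) [Fact p.Prime] {Φ : Type} [Field Φ]
    [Algebra (ZMod p)[X] Φ] [IsFractionRing (ZMod p)[X] Φ] [Algebra (ZMod p)[X] K] [Algebra Φ K]
    [IsScalarTower (ZMod p)[X] Φ K] [Algebra.IsSeparable Φ K] (W : ValuationSubring K)
    (hW : ∀ x : K, IsIntegral (ZMod p)[X] x → x ∈ W) (X : Set K) (hX : X.Finite)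
    (hint : ∀ x ∈ X, IsIntegral (ZMod p)[X] x) (hXW : ∀ x ∈ X, W.valuation x < 1)
    (hne : ∃ x ∈ X, x ≠ 0) :
    ∃ c : K, c ≠ 0 ∧ IsIntegral (ZMod p)[X] c ∧ W.valuation c < 1 ∧
      ∃ h : ℕ, ∀ x ∈ X, ∃ d : K, IsIntegral (ZMod p)[X] d ∧ x ^ h = c * d := by
  let L := IntermediateField.adjoin Φ X
  have hfd : FiniteDimensional Φ L := by
    have : Finite X := hX
    exact IntermediateField.finiteDimensional_adjoin fun x _ => Algebra.IsIntegral.isIntegral x
  have hsep : Algebra.IsSeparable Φ L := Algebra.isSeparable_tower_bot_of_isSeparable Φ L K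
  have hT : IsScalarTower (ZMod p)[X] L K := IsScalarTower.of_algebraMap_eq fun x => by
    rw [IsScalarTower.algebraMap_apply (ZMod p)[X] Φ L, ← IsScalarTower.algebraMap_apply Φ L K,
      ← IsScalarTower.algebraMap_apply (ZMod p)[X] Φ K]
  let S := integralClosure (ZMod p)[X] L
  have hded : IsDedekindDomain S := integralClosure.isDedekindDomain (ZMod p)[X] Φ L
  let hfin : Fintype (ClassGroup S) := ClassGroup.fintypeOfAdmissibleOfFinite Φ L
    (Polynomial.cardPowDegreeIsAdmissible :
      AbsoluteValue.IsAdmissible (Polynomial.cardPowDegree : AbsoluteValue (ZMod p)[X] ℤ))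
  have hSint : ∀ s : S, IsIntegral (ZMod p)[X] ((s : L) : K) := fun s =>
    s.2.map (IsScalarTower.toAlgHom (ZMod p)[X] L K)
  let f : S →+* W :=
    { toFun := fun s => ⟨((s : L) : K), hW _ (hSint s)⟩
      map_one' := rfl
      map_zero' := rfl
      map_add' := fun _ _ => rfl
      map_mul' := fun _ _ => rfl }
  let P : Ideal S := Ideal.comap f (IsLocalRing.maximalIdeal W)
  have hP : ∀ s : S, s ∈ P ↔ W.valuation ((s : L) : K) < 1 := fun s =>
    (ValuationSubring.valuation_lt_one_iff W (f s))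
  have hlift : ∀ x ∈ X, ∃ s : S, ((s : L) : K) = x := by
    intro x hx
    refine ⟨⟨⟨x, IntermediateField.subset_adjoin Φ X hx⟩, ?_⟩, rfl⟩
    exact (isIntegral_algHom_iff (IsScalarTower.toAlgHom (ZMod p)[X] L K)
      (algebraMap L K).injective).1 (hint x hx)
  have hP0 : P ≠ ⊥ := by
    obtain ⟨x, hx, hx0⟩ := hne
    obtain ⟨s, rfl⟩ := hlift x hx
    intro h1
    have h2 : s ∈ P := (hP s).2 (hXW _ hx)
    rw [h1, Ideal.mem_bot] at h2
    apply hx0
    rw [h2]
    rfl
  have hP1 : P ∈ (Ideal S)⁰ := mem_nonZeroDivisors_of_ne_zero hP0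
  have hcard : (ClassGroup.mk0 ⟨P, hP1⟩) ^ Fintype.card (ClassGroup S) = 1 := pow_card_eq_one
  rw [← map_pow, SubmonoidClass.mk_pow, ClassGroup.mk0_eq_one_iff] at hcard
  obtain ⟨c, hc⟩ := (Submodule.isPrincipal_iff _).1 hcard
  have hc' : P ^ Fintype.card (ClassGroup S) = Ideal.span {c} := hc
  have hc0 : c ≠ 0 := by
    rintro rfl
    rw [Ideal.span_singleton_eq_bot.2 rfl] at hc'
    exact pow_ne_zero _ hP0 hc'
  have hcP : c ∈ P := by
    have h1 : c ∈ P ^ Fintype.card (ClassGroup S) := by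
      rw [hc']
      exact Ideal.mem_span_singleton_self c
    exact Ideal.pow_le_self Fintype.card_ne_zero h1
  refine ⟨((c : L) : K), ?_, hSint c, (hP c).1 hcP, Fintype.card (ClassGroup S), ?_⟩
  · intro h1
    exact hc0 (Subtype.ext (Subtype.ext h1))
  · intro x hx
    obtain ⟨s, rfl⟩ := hlift x hx
    have h1 : s ^ Fintype.card (ClassGroup S) ∈ P ^ Fintype.card (ClassGroup S) :=
      Ideal.pow_mem_pow ((hP s).2 (hXW _ hx)) _
    rw [hc', Ideal.mem_span_singleton] at h1
    obtain ⟨d, hd⟩ := h1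
    refine ⟨((d : L) : K), hSint d, ?_⟩
    have h2 := congrArg (fun t : S => ((t : L) : K)) hd
    exact h2

/-- The form which is used: only the subring of the elements integral over `𝔽_p[u]` appears. -/
theorem Pic_subring {k K : Type} [Field k] [Field K] [Algebra k K] (p : ℕ) [hp : Fact p.Prime]
    [CharP k p] (halg : ∀ a : k, ∃ m : ℕ, 0 < m ∧ a ^ p ^ m = a) {u : K} (hu : Transcendental k u)
    (hsep : Algebra.IsSeparable (IntermediateField.adjoin k {u}) K) :
    ∃ B : Subring K, (∀ x : K, IsIntegral (Algebra.adjoin k {u}) x → x ∈ B) ∧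
      (∀ V : ValuationSubring K, Over k V → u ∈ V → ∀ x ∈ B, x ∈ V) ∧
      ∀ (W : ValuationSubring K), Over k W → u ∈ W → ∀ X : Set K, X.Finite → (∀ x ∈ X, x ∈ B) →
        (∀ x ∈ X, W.valuation x < 1) → (∃ x ∈ X, x ≠ 0) → ∃ c : K, c ≠ 0 ∧ c ∈ B ∧
          W.valuation c < 1 ∧ ∃ h : ℕ, ∀ x ∈ X, ∃ d ∈ B, x ^ h = c * d := by
  have hKp : CharP K p := charP_of_injective_algebraMap (algebraMap k K).injective p
  let := ZMod.algebra K p
  let : Algebra (ZMod p)[X] K := (Polynomial.aeval u).toAlgebra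
  have hmap : ∀ q : (ZMod p)[X], algebraMap (ZMod p)[X] K q = Polynomial.aeval u q := fun q => rfl
  let := ZMod.algebra k p
  have hTk : IsScalarTower (ZMod p) k K := IsScalarTower.of_algebraMap_eq fun x => by
    rw [← RingHom.comp_apply]
    exact congrFun (congrArg DFunLike.coe (RingHom.ext_zmod _ _)) x
  have hmem : ∀ q : (ZMod p)[X], algebraMap (ZMod p)[X] K q ∈ Algebra.adjoin k {u} := by
    intro q
    rw [hmap, ← Polynomial.aeval_map_algebraMap k]
    exact Polynomial.aeval_mem_adjoin_singleton _ _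
  have hinj : Function.Injective (algebraMap (ZMod p)[X] K) := by
    rw [injective_iff_map_eq_zero]
    intro q hq
    rw [hmap, ← Polynomial.aeval_map_algebraMap k] at hq
    have h1 := transcendental_iff.1 hu _ hq
    exact (Polynomial.map_eq_zero _).1 h1
  have hfaith : FaithfulSMul (ZMod p)[X] K := (faithfulSMul_iff_algebraMap_injective _ _).2 hinj
  let := FractionRing.liftAlgebra (ZMod p)[X] K
  have hT : IsScalarTower (ZMod p)[X] (FractionRing (ZMod p)[X]) K :=
    FractionRing.isScalarTower_liftAlgebra (ZMod p)[X] K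
  have hkint : ∀ a : k, IsIntegral (ZMod p)[X] (algebraMap k K a) := by
    intro a
    obtain ⟨m, hm, ha⟩ := halg a
    have h1 : 1 < p ^ m := Nat.one_lt_pow hm.ne' hp.out.one_lt
    refine ⟨X ^ p ^ m - X, Polynomial.monic_X_pow_sub (by rw [Polynomial.degree_X]; exact_mod_cast h1), ?_⟩
    rw [Polynomial.eval₂_sub, Polynomial.eval₂_pow, Polynomial.eval₂_X, ← map_pow, ha, sub_self]
  have huint : IsIntegral (ZMod p)[X] u := by
    have h1 : algebraMap (ZMod p)[X] K X = u := by rw [hmap, Polynomial.aeval_X]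
    rw [← h1]
    exact isIntegral_algebraMap
  have hA : ∀ b ∈ Algebra.adjoin k {u}, IsIntegral (ZMod p)[X] b := by
    intro b hb
    induction hb using Algebra.adjoin_induction with
    | mem x hx =>
      rw [Set.mem_singleton_iff] at hx
      rw [hx]
      exact huint
    | algebraMap r => exact hkint r
    | add x y hx hy h1 h2 => exact h1.add h2
    | mul x y hx hy h1 h2 => exact h1.mul h2
  have hFp : CharP (FractionRing (ZMod p)[X]) p :=
    charP_of_injective_algebraMap (IsFractionRing.injective (ZMod p)[X] (FractionRing (ZMod p)[X])) p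
  -- separability
  let E := IntermediateField.adjoin (FractionRing (ZMod p)[X]) (Set.range (algebraMap k K))
  have hE : Algebra.IsSeparable (FractionRing (ZMod p)[X]) E := by
    rw [IntermediateField.isSeparable_adjoin_iff_isSeparable]
    rintro _ ⟨a, rfl⟩
    obtain ⟨m, hm, ha⟩ := halg a
    refine (galois_poly_separable p (p ^ m) (dvd_pow_self p hm.ne')).of_dvd (minpoly.dvd _ _ ?_)
    rw [map_sub, map_pow, Polynomial.aeval_X, ← map_pow, ha, sub_self]
  have hle : ∀ x ∈ IntermediateField.adjoin k {u}, x ∈ E := by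
    intro x hx
    induction hx using IntermediateField.adjoin_induction with
    | mem x hx =>
      rw [Set.mem_singleton_iff] at hx
      have h1 : algebraMap (ZMod p)[X] K X = u := by rw [hmap, Polynomial.aeval_X]
      rw [hx, ← h1, IsScalarTower.algebraMap_apply (ZMod p)[X] (FractionRing (ZMod p)[X]) K]
      exact E.algebraMap_mem _
    | algebraMap x => exact IntermediateField.subset_adjoin _ _ ⟨x, rfl⟩
    | add x y hx hy h1 h2 => exact E.add_mem h1 h2
    | inv x hx h1 => exact E.inv_mem h1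
    | mul x y hx hy h1 h2 => exact E.mul_mem h1 h2
  let g : IntermediateField.adjoin k {u} →+* E :=
    { toFun := fun x => ⟨x, hle _ x.2⟩
      map_one' := rfl
      map_zero' := rfl
      map_add' := fun _ _ => rfl
      map_mul' := fun _ _ => rfl }
  let : Algebra (IntermediateField.adjoin k {u}) E := g.toAlgebra
  have hT2 : IsScalarTower (IntermediateField.adjoin k {u}) E K :=
    IsScalarTower.of_algebraMap_eq fun x => rfl
  have hEK : Algebra.IsSeparable E K :=
    Algebra.isSeparable_tower_top_of_isSeparable (IntermediateField.adjoin k {u}) E K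
  have hsepK : Algebra.IsSeparable (FractionRing (ZMod p)[X]) K :=
    Algebra.IsSeparable.trans (FractionRing (ZMod p)[X]) E K
  have hV : ∀ V : ValuationSubring K, Over k V → u ∈ V → ∀ x, IsIntegral (ZMod p)[X] x → x ∈ V := by
    intro V hV huV x hx
    apply PicS_int (u₀ := u) _ V hV huV
    obtain ⟨q, hq, hq0⟩ := hx
    refine ⟨q.map (⟨⟨⟨fun a => ⟨algebraMap (ZMod p)[X] K a, hmem a⟩, Subtype.ext (map_one _)⟩,
      fun a b => Subtype.ext (map_mul _ a b)⟩, Subtype.ext (map_zero _),
      fun a b => Subtype.ext (map_add _ a b)⟩ : (ZMod p)[X] →+* Algebra.adjoin k {u}),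
      hq.map _, ?_⟩
    rw [Polynomial.eval₂_map]
    exact hq0
  refine ⟨(integralClosure (ZMod p)[X] K).toSubring, ?_, ?_, ?_⟩
  · intro x hx
    show IsIntegral (ZMod p)[X] x
    obtain ⟨q, hq, hq0⟩ := hx
    apply isIntegral_trans (A := integralClosure (ZMod p)[X] K)
    refine ⟨q.map (⟨⟨⟨fun a => ⟨(a : K), hA _ a.2⟩, rfl⟩, fun _ _ => rfl⟩, rfl, fun _ _ => rfl⟩ :
        Algebra.adjoin k {u} →+* integralClosure (ZMod p)[X] K), hq.map _, ?_⟩
    rw [Polynomial.eval₂_map]
    exact hq0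
  · intro V hVk huV x hx
    exact hV V hVk huV x hx
  · intro W hWk huW X hX hXB hXW hne
    exact Pic_class p (Φ := FractionRing (ZMod p)[X]) W (hV W hWk huW) X hX hXB hXW hne

/-- Separation of places: if `V ≠ W` there is an integral element in the prime ideal of `W` and not
in that of `V`. -/
theorem Pic_separate {k K : Type} [Field k] [IsAlgClosed k] [Field K] [Algebra k K]
    (hK : FunF k K 1) {u : K} (hu : Transcendental k u)
    (hsep : Algebra.IsSeparable (IntermediateField.adjoin k {u}) K)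
    (hfin : FiniteDimensional (IntermediateField.adjoin k {u}) K) {W V : ValuationSubring K}
    (hW : Place k W) (hV : Place k V) (huW : u ∈ W) (huV : u ∈ V) (hne : V ≠ W) :
    ∃ x : K, IsIntegral (Algebra.adjoin k {u}) x ∧ W.valuation x < 1 ∧ V.valuation x = 1 := by
  by_contra hcon
  push Not at hcon
  have hWt : W ≠ ⊤ := by
    rintro rfl
    obtain ⟨q, hq0, hq⟩ := Cur2_unif hW.1
    have h1 : ((⊤ : ValuationSubring K).valuation q) < 1 :=
      (ord_pos_iff hW.1 hq0).1 (by rw [hq]; norm_num)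
    have h2 : (⊤ : ValuationSubring K).valuation (q⁻¹) ≤ 1 :=
      (ValuationSubring.valuation_le_one_iff _ _).2 (ValuationSubring.mem_top _)
    have h3 : (⊤ : ValuationSubring K).valuation (q * q⁻¹) < 1 := by
      rw [map_mul]
      calc _ ≤ (⊤ : ValuationSubring K).valuation q * 1 := mul_le_mul_right h2 _
        _ < 1 := by rwa [mul_one]
    rw [mul_inv_cancel₀ hq0, map_one] at h3
    exact lt_irrefl _ h3
  obtain ⟨-, h1, h2⟩ := C1_loc hu hsep hfin W hW.2 huW hWt
  have hint : ∀ b : integralClosure (Algebra.adjoin k {u}) K,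
      IsIntegral (Algebra.adjoin k {u}) (b : K) := fun b => b.2
  apply hne
  symm
  apply Cur2_eq_of_le hW.1 hV.1
  intro y hy
  obtain ⟨a, b, hb0, hbW, rfl⟩ := h2 y hy
  have hbW1 : W.valuation (b : K) = 1 := by
    apply le_antisymm ((ValuationSubring.valuation_le_one_iff W _).2 (h1 b))
    have h3 := (ValuationSubring.valuation_le_one_iff W _).2 hbW
    calc (1 : W.ValueGroup) = W.valuation (b : K) * W.valuation (b : K)⁻¹ := by
          rw [← map_mul, mul_inv_cancel₀ hb0, map_one]
      _ ≤ W.valuation (b : K) * 1 := mul_le_mul_right h3 _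
      _ = W.valuation (b : K) := mul_one _
  obtain ⟨β, hβ⟩ := PicS_res hK hW (h1 b)
  have hβ0 : β ≠ 0 := by
    rintro rfl
    rw [map_zero, sub_zero, hbW1] at hβ
    exact lt_irrefl _ hβ
  have hβi : IsIntegral (Algebra.adjoin k {u}) ((b : K) - algebraMap k K β) :=
    (hint b).sub (isIntegral_algebraMap (A := K) (x := (algebraMap k (Algebra.adjoin k {u}) β)))
  have h4 := hcon _ hβi hβ
  have h5 : V.valuation ((b : K) - algebraMap k K β) < 1 :=
    lt_of_le_of_ne ((ValuationSubring.valuation_le_one_iff V _).2 (PicS_int hβi V hV.2 huV)) h4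
  have h6 : V.valuation (algebraMap k K β) = 1 := Cur2_const hV.2 hβ0
  have h7 : V.valuation (b : K) = 1 := by
    have h8 : (b : K) = ((b : K) - algebraMap k K β) + algebraMap k K β := by ring
    rw [h8, Valuation.map_add_eq_of_lt_right _ (by rw [h6]; exact h5), h6]
  apply (ValuationSubring.valuation_le_one_iff V _).1
  rw [map_div₀, h7, div_one]
  exact (ValuationSubring.valuation_le_one_iff V _).2 (PicS_int (hint a) V hV.2 huV)

/-- **PIC.** -/
theorem pic {k : Type} [Field k] [IsAlgClosed k]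
    (halg : ∃ p : ℕ, p.Prime ∧ ∀ a : k, ∃ m : ℕ, 0 < m ∧ a ^ p ^ m = a) : Pic k := by
  obtain ⟨p, hp, halg⟩ := halg
  have hchar := Pic_char hp halg
  have : Fact p.Prime := ⟨hp⟩
  intro K _ _ hK W W' hW hW' hWW
  obtain ⟨u₀, hu₀, h₀⟩ := pic_exists_pole hK W' hW'
  obtain ⟨u, hu, h, htr, hsep, hfin⟩ := PicS_exists hK W' hW' u₀ hu₀ h₀
  obtain ⟨B, hB1, hB2, hB3⟩ := Pic_subring (K := K) p halg htr hsep
  have huW : u ∈ W := h W hW hWW
  obtain ⟨β, hβ⟩ := PicS_res hK hW huW
  have hx0 : u - algebraMap k K β ≠ 0 := by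
    intro h1
    apply hu
    rw [sub_eq_zero.1 h1]
    exact hW'.2 β
  have hx1 : IsIntegral (Algebra.adjoin k {u}) (u - algebraMap k K β) :=
    IsIntegral.sub
      (isIntegral_algebraMap (A := K) (x := (⟨u, Algebra.self_mem_adjoin_singleton k u⟩ :
        Algebra.adjoin k {u})))
      (isIntegral_algebraMap (A := K) (x := (algebraMap k (Algebra.adjoin k {u}) β)))
  have hT := ord_finite hK (u - algebraMap k K β) hx0
  have hch : ∀ V : ValuationSubring K, ∃ x : K, (Place k V ∧ V ≠ W ∧ V ≠ W' →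
      V.valuation x = 1) ∧ IsIntegral (Algebra.adjoin k {u}) x ∧ W.valuation x < 1 := by
    intro V
    by_cases hV : Place k V ∧ V ≠ W ∧ V ≠ W'
    · obtain ⟨x, hx, hx', hx''⟩ :=
        Pic_separate hK htr hsep hfin hW hV.1 huW (h V hV.1 hV.2.2) hV.2.1
      exact ⟨x, fun _ => hx'', hx, hx'⟩
    · exact ⟨0, fun h1 => absurd h1 hV, isIntegral_zero, by rw [map_zero]; exact zero_lt_one⟩
  choose x hx1' hx2 hx3 using hch
  obtain ⟨c, hc0, hcB, hcW, n, hn⟩ := hB3 W hW.2 huW
    (insert (u - algebraMap k K β) (x '' {V | Place k V ∧ ord V (u - algebraMap k K β) ≠ 0}))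
    ((hT.image x).insert _) (by
      intro y hy
      rcases hy with rfl | ⟨V, -, rfl⟩
      · exact hB1 _ hx1
      · exact hB1 _ (hx2 V)) (by
      intro y hy
      rcases hy with rfl | ⟨V, -, rfl⟩
      · exact hβ
      · exact hx3 V) ⟨_, Or.inl rfl, hx0⟩
  have hcV : ∀ V : ValuationSubring K, Place k V → V ≠ W' → c ∈ V := fun V hV hVW' =>
    hB2 V hV.2 (h V hV hVW') c hcB
  have hcV1 : ∀ V : ValuationSubring K, Place k V → V ≠ W → V ≠ W' → V.valuation c = 1 := by
    intro V hV hVW hVW'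
    have key : ∃ y ∈ insert (u - algebraMap k K β)
        (x '' {V | Place k V ∧ ord V (u - algebraMap k K β) ≠ 0}), V.valuation y = 1 := by
      by_cases h1 : ord V (u - algebraMap k K β) = 0
      · exact ⟨_, Or.inl rfl, (ord_eq_zero_iff hV.1 hx0).1 h1⟩
      · exact ⟨x V, Or.inr ⟨V, ⟨hV, h1⟩, rfl⟩, hx1' V ⟨hV, hVW, hVW'⟩⟩
    obtain ⟨y, hy, hy1⟩ := key
    obtain ⟨d, hd, hyd⟩ := hn y hy
    have h1 : V.valuation c * V.valuation d = 1 := by
      rw [← map_mul, ← hyd, map_pow, hy1, one_pow]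
    have h2 : V.valuation d ≤ 1 :=
      (ValuationSubring.valuation_le_one_iff V _).2 (hB2 V hV.2 (h V hV hVW') d hd)
    apply le_antisymm ((ValuationSubring.valuation_le_one_iff V _).2 (hcV V hV hVW'))
    calc (1 : V.ValueGroup) = V.valuation c * V.valuation d := h1.symm
      _ ≤ V.valuation c * 1 := mul_le_mul_right h2 _
      _ = V.valuation c := mul_one _
  have hcW' : c ∉ W' := by
    intro hcW'
    obtain ⟨a, ha⟩ := PicS_max hK c fun V hV => by
      by_cases h1 : V = W'
      · rw [h1]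
        exact hcW'
      · exact hcV V hV h1
    have ha0 : a ≠ 0 := by
      rintro rfl
      rw [map_zero] at ha
      exact hc0 ha.symm
    have h1 := Cur2_const hW.2 ha0
    rw [ha] at h1
    exact absurd h1 hcW.ne
  have hWpos : 0 < ord W c := (ord_pos_iff hW.1 hc0).2 hcW
  have hciW : c⁻¹ ∉ W := by
    intro h1
    have h2 := (ord_nonneg_iff hW.1 (inv_ne_zero hc0)).2 h1
    rw [ord_inv hW.1 hc0] at h2
    omega
  have hd1 := pic_degree hK W' hW' c hcW' hcV
  have hd2 := pic_degree hK W hW c⁻¹ hciW fun V hV hVW => by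
    by_cases h1 : V = W'
    · rw [h1]
      exact (W'.mem_or_inv_mem c).resolve_left hcW'
    · apply (ValuationSubring.valuation_le_one_iff V _).1
      rw [map_inv₀, hcV1 V hV hVW h1, inv_one]
  rw [C1_adjoin_inv, ord_inv hW.1 hc0, neg_neg] at hd2
  refine ⟨c, Module.finrank (IntermediateField.adjoin k {c}) K, hc0, ?_, hd2.symm, ?_, ?_⟩
  · have h1 : (0 : ℤ) < (Module.finrank (IntermediateField.adjoin k {c}) K : ℕ) := by
      rw [hd2]
      exact hWpos
    exact_mod_cast h1
  · rw [hd1, neg_neg]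
  · intro V hV hVW hVW'
    exact (ord_eq_zero_iff hV.1 hc0).2 (hcV1 V hV hVW hVW')

end Pool.Agent.Lib.MP_b197b4_ntA
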