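import Pool.Agent.Lib.MP_b197b4_ntA.Defs
import Pool.Agent.Lib.MP_b197b4_ntKA.Plan
import Pool.Agent.Lib.MP_b197b4_ntD.Dim

/-!
# MP_b197b4_nt, project K1-ALL: surfaces through two curves (leaf PLB)
-/

set_option autoImplicit false
set_option linter.style.haveILetI false

namespace Pool.Agent.Lib.MP_b197b4_ntA

open IsLocalRing Pool.Agent.Lib.MP_b197b4_ntK

section

variable {k F : Type} [Field k] [Field F] [Algebra k F] {A : Subalgebra k F}

/-- A curve lies in the maximal ideals of the centres of its places. -/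
theorem Surf_ker_le {K : Type} [Field K] [Algebra k K] (ψ : A →ₐ[k] K) {m : Ideal A}
    {W : ValuationSubring K} (hc : CenterK ψ W m) : RingHom.ker ψ ≤ m := by
  intro a ha
  rw [RingHom.mem_ker] at ha
  rw [(hc a).2, ha, map_zero]
  exact zero_lt_one

theorem Surf_val_one {K : Type} [Field K] [Algebra k K] (ψ : A →ₐ[k] K) {m : Ideal A}
    {W : ValuationSubring K} (hc : CenterK ψ W m) (a : A) : a ∉ m ↔ W.valuation (ψ a) = 1 := by
  rw [(hc a).2]
  have h1 := (ValuationSubring.valuation_le_one_iff W _).2 (hc a).1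
  constructor
  · intro h
    exact le_antisymm h1 (not_lt.1 h)
  · intro h h2
    rw [h] at h2
    exact lt_irrefl _ h2

/-- The local ring of a curve at a regular point is a principal ideal ring. -/
theorem Surf_pir {K : Type} [Field K] [Algebra k K] (ψ : A →ₐ[k] K) {m : Ideal A}
    [hm : m.IsPrime] {W : ValuationSubring K} (hW : Place k W) (hc : CenterK ψ W m)
    (hr : RegK ψ W) :
    IsPrincipalIdealRing (Localization.AtPrime m ⧸
      (RingHom.ker ψ).map (algebraMap A (Localization.AtPrime m))) := by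
  haveI := hW.1
  let f : A →+* W := (ψ : A →+* K).codRestrict W fun a => (hc a).1
  have hf : ∀ a, ((f a : W) : K) = ψ a := fun a => rfl
  have hu : ∀ s : m.primeCompl, IsUnit (f s) := by
    rintro ⟨s, hs⟩
    exact (ValuationSubring.valuation_eq_one_iff W (f s)).2 ((Surf_val_one ψ hc s).1 hs)
  let g : Localization.AtPrime m →+* W := IsLocalization.lift hu
  have hga : ∀ a : A, g (algebraMap A (Localization.AtPrime m) a) = f a := fun a =>
    IsLocalization.lift_eq hu a
  have hker : RingHom.ker g = (RingHom.ker ψ).map (algebraMap A (Localization.AtPrime m)) := by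
    apply le_antisymm
    · intro x hx
      obtain ⟨⟨a, s⟩, h⟩ := IsLocalization.surj m.primeCompl x
      have h' : x * algebraMap A (Localization.AtPrime m) s =
        algebraMap A (Localization.AtPrime m) a := h
      have h1 : f a = 0 := by
        rw [← hga, ← h', map_mul, (RingHom.mem_ker).1 hx, zero_mul]
      have h2 : a ∈ RingHom.ker ψ := by
        rw [RingHom.mem_ker, ← hf, h1]
        rfl
      have h3 : IsUnit (algebraMap A (Localization.AtPrime m) s) :=
        IsLocalization.map_units (Localization.AtPrime m) s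
      refine (Ideal.mul_unit_mem_iff_mem _ h3).1 ?_
      rw [h']
      exact Ideal.mem_map_of_mem _ h2
    · rw [Ideal.map_le_iff_le_comap]
      intro a ha
      rw [Ideal.mem_comap, RingHom.mem_ker, hga]
      apply Subtype.ext
      rw [hf]
      exact ha
  have hsurj : Function.Surjective g := by
    intro y
    obtain ⟨a, s, hs, hy⟩ := hr y y.2
    have hsm : s ∉ m := (Surf_val_one ψ hc s).2 hs
    refine ⟨IsLocalization.mk' (Localization.AtPrime m) a (⟨s, hsm⟩ : m.primeCompl), ?_⟩
    rw [IsLocalization.lift_mk'_spec]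
    apply Subtype.ext
    have hs0 : ψ s ≠ 0 := by
      intro h
      rw [h, map_zero] at hs
      exact zero_ne_one hs
    change ψ a = ψ s * (y : K)
    rw [hy, mul_div_cancel₀ _ hs0]
  rw [← hker]
  let e := RingHom.quotientKerEquivOfSurjective hsurj
  exact IsPrincipalIdealRing.of_surjective e.symm.toRingHom e.symm.surjective

end

/-- PL (helper46): two curves which are regular at the regular points `m` lie on a surface regular
at these points. -/
theorem exists_surface {k F : Type} [Field k] [IsAlgClosed k] [Field F] [Algebra k F] {d : ℕ}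
    (hd : 2 ≤ d) {A : Subalgebra k F} (hA : DChart d A) (Ms : Finset (Ideal A))
    (hne : Ms.Nonempty) (hM : ∀ m ∈ Ms, RegMax m)
    {K₁ : Type} [Field K₁] [Algebra k K₁] (h₁ : FunF k K₁ 1) (ψ₁ : A →ₐ[k] K₁)
    (g₁ : ∀ e : K₁, ∃ a b : A, ψ₁ b ≠ 0 ∧ e = ψ₁ a / ψ₁ b)
    {K₂ : Type} [Field K₂] [Algebra k K₂] (h₂ : FunF k K₂ 1) (ψ₂ : A →ₐ[k] K₂)
    (g₂ : ∀ e : K₂, ∃ a b : A, ψ₂ b ≠ 0 ∧ e = ψ₂ a / ψ₂ b)
    (w₁ : ∀ m ∈ Ms, ∃ W : ValuationSubring K₁, Place k W ∧ CenterK ψ₁ W m ∧ RegK ψ₁ W)
    (w₂ : ∀ m ∈ Ms, ∃ W : ValuationSubring K₂, Place k W ∧ CenterK ψ₂ W m ∧ RegK ψ₂ W) :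
    ∃ (E : Type) (_ : Field E) (_ : Algebra k E) (φ : A →ₐ[k] E), FunF k E 2 ∧
      (∀ e : E, ∃ a b : A, φ b ≠ 0 ∧ e = φ a / φ b) ∧
      RingHom.ker φ ≤ RingHom.ker ψ₁ ∧ RingHom.ker φ ≤ RingHom.ker ψ₂ ∧
      ∀ m ∈ Ms, ∀ m' : Ideal φ.range, (∀ a : A, φ.rangeRestrict a ∈ m' ↔ a ∈ m) →
        RegMax m' := by
  haveI : Algebra.FiniteType k A := A.fg_iff_finiteType.1 hA.fg
  haveI : IsNoetherianRing A := Algebra.FiniteType.isNoetherianRing k A
  obtain ⟨d, rfl⟩ : ∃ e, d = e + 2 := ⟨d - 2, by omega⟩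
  haveI hmax : ∀ i : Ms, (i : Ideal A).IsMaximal := fun i => (hM i i.2).1
  haveI : (RingHom.ker ψ₁).IsPrime := RingHom.ker_isPrime _
  haveI : (RingHom.ker ψ₂).IsPrime := RingHom.ker_isPrime _
  haveI : Nonempty Ms := hne.to_subtype
  have hP₁ : ∀ i : Ms, RingHom.ker ψ₁ ≤ (i : Ideal A) := by
    intro i
    obtain ⟨W, -, hc, -⟩ := w₁ i i.2
    exact Surf_ker_le ψ₁ hc
  have hP₂ : ∀ i : Ms, RingHom.ker ψ₂ ≤ (i : Ideal A) := by
    intro i
    obtain ⟨W, -, hc, -⟩ := w₂ i i.2
    exact Surf_ker_le ψ₂ hc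
  obtain ⟨S, hS, hS₁, hS₂, hSm⟩ := MP_b197b4_ntKA.exists_surface (d := d)
    (fun i : Ms => (i : Ideal A)) Subtype.val_injective (RingHom.ker ψ₁) (RingHom.ker ψ₂)
    hP₁ hP₂ (fun i => (hM i i.2).2 (hmax i).isPrime)
    (fun i => by
      rw [IsLocalization.AtPrime.ringKrullDim_eq_height (i : Ideal A), hA.height _ (hmax i)]
      rfl)
    (fun i => by
      obtain ⟨W, hW, hc, hr⟩ := w₁ i i.2
      exact Surf_pir ψ₁ hW hc hr)
    (fun i => by
      obtain ⟨W, hW, hc, hr⟩ := w₂ i i.2
      exact Surf_pir ψ₂ hW hc hr)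
  haveI := hS
  -- the function field
  let B := A ⧸ S
  haveI : IsDomain B := Ideal.Quotient.isDomain S
  let E := FractionRing B
  let φ : A →ₐ[k] E := (IsScalarTower.toAlgHom k B E).comp (Ideal.Quotient.mkₐ k S)
  have hφ : ∀ a : A, φ a = algebraMap B E (Ideal.Quotient.mk S a) := fun a => rfl
  have hinj : Function.Injective (algebraMap B E) := IsFractionRing.injective B E
  have hkerφ : RingHom.ker φ = S := by
    ext a
    rw [RingHom.mem_ker, hφ, map_eq_zero_iff _ hinj, Ideal.Quotient.eq_zero_iff_mem]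
  have hSle : ∀ i : Ms, S ≤ (i : Ideal A) := fun i => hS₁.trans (hP₁ i)
  -- the maximal ideals of `B`
  have hmapmax : ∀ i : Ms, ((i : Ideal A).map (Ideal.Quotient.mk S)).IsMaximal := by
    intro i
    refine Ideal.IsMaximal.map_of_surjective_of_ker_le Ideal.Quotient.mk_surjective ?_
    rw [Ideal.mk_ker]
    exact hSle i
  have hloc : ∀ i : Ms, ∀ _ : ((i : Ideal A).map (Ideal.Quotient.mk S)).IsPrime,
      IsRegularLocalRing (Localization.AtPrime ((i : Ideal A).map (Ideal.Quotient.mk S))) ∧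
      ringKrullDim (Localization.AtPrime ((i : Ideal A).map (Ideal.Quotient.mk S))) = 2 := by
    intro i hp
    haveI := (hSm i).1
    obtain ⟨e⟩ := MP_b197b4_ntKA.local_surface (i : Ideal A) S (hSle i)
    exact ⟨IsRegularLocalRing.of_ringEquiv e, (ringKrullDim_eq_of_ringEquiv e).symm.trans (hSm i).2⟩
  haveI : Algebra.FiniteType k B := inferInstance
  haveI : IsNoetherianRing B := Algebra.FiniteType.isNoetherianRing k B
  obtain ⟨t, ht⟩ := MP_b197b4_ntD.exists_hasDim k B
  have ht2 : t = 2 := by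
    obtain ⟨i⟩ : Nonempty Ms := inferInstance
    have h1 := ht.height _ (hmapmax i)
    haveI := (hmapmax i).isPrime
    have h2 := (hloc i inferInstance).2
    rw [IsLocalization.AtPrime.ringKrullDim_eq_height ((i : Ideal A).map (Ideal.Quotient.mk S)),
      h1] at h2
    have h3 : (t : ℕ∞) = ((2 : ℕ) : ℕ∞) := WithBot.coe_injective h2
    exact_mod_cast h3
  subst ht2
  refine ⟨E, inferInstance, inferInstance, φ, ⟨?_, ?_⟩, ?_, ?_, ?_, ?_⟩
  · rw [IntermediateField.fg_top_iff]
    haveI : Algebra.EssFiniteType B E := Algebra.EssFiniteType.of_isLocalization E (nonZeroDivisors B)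
    exact Algebra.EssFiniteType.comp k B E
  · exact ht.trdeg_frac E
  · intro e
    obtain ⟨a, b, hb, rfl⟩ := IsFractionRing.div_surjective (A := B) e
    obtain ⟨a, rfl⟩ := Ideal.Quotient.mk_surjective a
    obtain ⟨b, rfl⟩ := Ideal.Quotient.mk_surjective b
    refine ⟨a, b, ?_, rfl⟩
    rw [hφ, map_ne_zero_iff _ hinj]
    exact nonZeroDivisors.ne_zero hb
  · rw [hkerφ]
    exact hS₁
  · rw [hkerφ]
    exact hS₂
  · intro m hm m' hm'
    have hrs : Function.Surjective φ.rangeRestrict := φ.rangeRestrict_surjective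
    have hkr : ∀ a : A, φ.rangeRestrict a = 0 ↔ a ∈ S := by
      intro a
      have h3 : φ a = 0 ↔ a ∈ S := by
        rw [hφ, map_eq_zero_iff _ hinj, Ideal.Quotient.eq_zero_iff_mem]
      refine Iff.trans ⟨fun h => ?_, fun h => ?_⟩ h3
      · exact congrArg (Subtype.val : φ.range → E) h
      · exact Subtype.ext h
    let r : A →+* φ.range := φ.rangeRestrict
    have hr : ∀ a, r a = φ.rangeRestrict a := fun a => rfl
    have hm'p : m' = m.map r := by
      apply le_antisymm
      · intro y hy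
        obtain ⟨a, rfl⟩ := hrs y
        exact Ideal.mem_map_of_mem r ((hm' a).1 hy)
      · rw [Ideal.map_le_iff_le_comap]
        intro a ha
        rw [Ideal.mem_comap]
        exact (hm' a).2 ha
    have hmx := (hM m hm).1
    have hm'max : m'.IsMaximal := by
      rw [hm'p]
      refine Ideal.IsMaximal.map_of_surjective_of_ker_le hrs ?_
      intro a ha
      exact hSle ⟨m, hm⟩ ((hkr a).1 ha)
    refine ⟨hm'max, fun hp => ?_⟩
    -- the isomorphism
    let e0 : B →+* φ.range := Ideal.Quotient.lift S r fun a ha => (hkr a).2 ha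
    have he0 : ∀ a : A, e0 (Ideal.Quotient.mk S a) = φ.rangeRestrict a := fun a => rfl
    have hbij : Function.Bijective e0 := by
      constructor
      · rw [injective_iff_map_eq_zero]
        intro b hb
        obtain ⟨a, rfl⟩ := Ideal.Quotient.mk_surjective b
        rw [he0, hkr] at hb
        exact Ideal.Quotient.eq_zero_iff_mem.2 hb
      · intro y
        obtain ⟨a, rfl⟩ := hrs y
        exact ⟨Ideal.Quotient.mk S a, he0 a⟩
    let e : B ≃+* φ.range := RingEquiv.ofBijective e0 hbij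
    have hcom : m'.comap e = m.map (Ideal.Quotient.mk S) := by
      ext b
      obtain ⟨a, rfl⟩ := Ideal.Quotient.mk_surjective b
      rw [Ideal.mem_comap]
      have h3 : e (Ideal.Quotient.mk S a) = φ.rangeRestrict a := rfl
      rw [h3, hm']
      constructor
      · intro ha
        exact Ideal.mem_map_of_mem _ ha
      · intro ha
        obtain ⟨c, hc, hac⟩ :=
          (Ideal.mem_map_iff_of_surjective _ Ideal.Quotient.mk_surjective).1 ha
        have h4 : c - a ∈ S := Ideal.Quotient.eq.1 hac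
        have h5 := m.sub_mem hc (hSle ⟨m, hm⟩ h4)
        rwa [sub_sub_cancel] at h5
    have hreg : ∀ q : Ideal B, q = m.map (Ideal.Quotient.mk S) → ∀ _ : q.IsPrime,
        IsRegularLocalRing (Localization.AtPrime q) := by
      rintro _ rfl hq
      exact (hloc ⟨m, hm⟩ hq).1
    haveI := hreg _ hcom inferInstance
    exact IsRegularLocalRing.of_ringEquiv <| IsLocalization.ringEquivOfRingEquiv
      (Localization.AtPrime (m'.comap e)) (Localization.AtPrime m') e
      (e.map_primeCompl_comap_eq m')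

end Pool.Agent.Lib.MP_b197b4_ntA
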