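import Mathlib
import Pool.Agent.Lib.MP_b197b4_ntA.Defs
import Pool.Agent.Lib.MP_b197b4_ntK.Ord
import Pool.Agent.Lib.MP_b197b4_ntX.X1

/-!
# MP_b197b4_nt, project K1-ALL: the coordinates of a quadratic transform
-/

set_option autoImplicit false

namespace Pool.Agent.Lib.MP_b197b4_ntA

open IsLocalRing Pool.Agent.Lib.MP_b197b4_ntK

section Ord

variable {K : Type} [Field K] {W : ValuationSubring K}

/-- The powers of the maximal ideal and the order. -/
theorem Bl2.mem_pow_iff (hW : IsDiscreteValuationRing W) (c : W) (hc : (c : K) ≠ 0) (n : ℕ) :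
    c ∈ maximalIdeal W ^ n ↔ (n : ℤ) ≤ ord W (c : K) := by
  obtain ⟨p, hp⟩ := IsDiscreteValuationRing.exists_irreducible W
  have hp0 : (p : K) ≠ 0 := fun h => hp.ne_zero (Subtype.ext h)
  have hordp : ord W (p : K) = 1 := ord_eq ⟨p, 1, hp, by simp⟩
  rw [hp.maximalIdeal_eq, Ideal.span_singleton_pow, Ideal.mem_span_singleton]
  constructor
  · rintro ⟨b, hb⟩
    have h1 : (c : K) = (p : K) ^ n * b := by
      rw [hb]
      push_cast
      rfl
    have hb0 : (b : K) ≠ 0 := by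
      intro h
      rw [h, mul_zero] at h1
      exact hc h1
    rw [h1, ord_mul hW (pow_ne_zero _ hp0) hb0, ord_pow hW hp0, hordp]
    have := (ord_nonneg_iff hW hb0).2 b.2
    linarith
  · intro h
    have h1 : (c : K) / (p : K) ^ n ∈ W := by
      rw [← ord_nonneg_iff hW (div_ne_zero hc (pow_ne_zero _ hp0)),
        ord_div hW hc (pow_ne_zero _ hp0), ord_pow hW hp0, hordp]
      linarith
    refine ⟨⟨_, h1⟩, ?_⟩
    apply Subtype.ext
    push_cast
    rw [mul_div_cancel₀ _ (pow_ne_zero _ hp0)]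

end Ord

variable {k F : Type} [Field k] [Field F] [Algebra k F]

/-- Conductor of the ideal of the coordinates. -/
theorem Bl2.exists_conductor {A : Type*} [CommRing A] {y J : Ideal A} (hfg : y.FG)
    (h : y ≤ J ⊔ y ^ 2) : ∃ r, r - 1 ∈ y ∧ ∀ v ∈ y, r * v ∈ J := by
  obtain ⟨r, hr, hrJ⟩ := Submodule.exists_sub_one_mem_and_smul_le_of_fg_of_le_sup
    (I := y) (N := J) (N' := y) (P := y) hfg le_rfl (by
      rw [pow_two] at h
      exact h)
  refine ⟨r, hr, fun v hv => hrJ ?_⟩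
  exact Submodule.smul_mem_pointwise_smul v r _ hv

/-- The coordinates of a quadratic transform along a place. -/
theorem exists_blow_coords [IsAlgClosed k] {d : ℕ}
    (hd : 2 ≤ d) {A : Subalgebra k F} (hA : DChart d A) (y : Ideal A) (hy : RegMax y)
    (s : Finset (Ideal A)) (hs : ∀ m ∈ s, m.IsMaximal ∧ m ≠ y)
    {K : Type} [Field K] [Algebra k K] (ψ : A →ₐ[k] K)
    (hψ : ∀ e : K, ∃ a b : A, ψ b ≠ 0 ∧ e = ψ a / ψ b) (W : ValuationSubring K)
    (hW : Place k W) (hWy : CenterK ψ W y) :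
    ∃ (x : Fin d → A) (i₀ : Fin d) (f₀ : A), (∀ i, x i ∈ y) ∧ ψ (x i₀) ≠ 0 ∧
      (∀ v ∈ y, ψ v ≠ 0 → ord W (ψ (x i₀)) ≤ ord W (ψ v)) ∧ 0 < ord W (ψ (x i₀)) ∧
      x i₀ ∉ y ^ 2 ∧ (∀ m ∈ s, x i₀ ∉ m ∧ f₀ ∉ m) ∧ f₀ ∉ y ∧
      ∀ v ∈ y, f₀ * v ∈ Ideal.span (Set.range x) := by
  classical
  have hft : Algebra.FiniteType k A := (Subalgebra.fg_iff_finiteType A).1 hA.fg
  have hn : IsNoetherianRing A := Algebra.FiniteType.isNoetherianRing k A
  have hD := hW.1
  let ρ : A →+* W := (ψ : A →+* K).codRestrict W.toSubring fun a => (hWy a).1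
  have hρ : ∀ a, ((ρ a : W) : K) = ψ a := fun _ => rfl
  let I : ℕ → Ideal A := fun n => (maximalIdeal W ^ n).comap ρ
  have hI : ∀ n a, ψ a ≠ 0 → (a ∈ I n ↔ (n : ℤ) ≤ ord W (ψ a)) := by
    intro n a ha
    rw [← hρ, ← Bl2.mem_pow_iff hD (ρ a) ha n]
    exact Ideal.mem_comap
  have hI0 : ∀ n a, ψ a = 0 → a ∈ I n := by
    intro n a ha
    have h1 : ρ a = 0 := Subtype.ext ha
    change ρ a ∈ maximalIdeal W ^ n
    rw [h1]
    exact Ideal.zero_mem _
  have hIy : y ≤ I 1 := by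
    intro a ha
    change ρ a ∈ maximalIdeal W ^ 1
    rw [pow_one]
    exact (ValuationSubring.valuation_lt_one_iff W (ρ a)).2 (((hWy a).2).1 ha)
  -- some element of `y` is not zero on the curve
  obtain ⟨z₀, hz₀, hz₀ψ⟩ : ∃ z₀ ∈ y, ψ z₀ ≠ 0 := by
    by_contra hcon
    push Not at hcon
    have hconst : ∀ a : A, ∃ c : k, ψ a = algebraMap k K c := by
      intro a
      obtain ⟨c, hc⟩ := Pool.Agent.Lib.MP_b197b4_ntX.exists_value (k := k) hy.1 a
      refine ⟨c, ?_⟩
      have h1 := hcon _ hc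
      rw [map_sub, sub_eq_zero, AlgHom.commutes] at h1
      exact h1
    have hall : ∀ e : K, e ∈ W := by
      intro e
      obtain ⟨a, b, hb, rfl⟩ := hψ e
      obtain ⟨c, hc⟩ := hconst a
      obtain ⟨c', hc'⟩ := hconst b
      rw [hc, hc', ← map_div₀]
      exact hW.2 _
    obtain ⟨p, hp⟩ := IsDiscreteValuationRing.exists_irreducible W
    have hp0 : (p : K) ≠ 0 := fun h => hp.ne_zero (Subtype.ext h)
    apply hp.not_isUnit
    refine IsUnit.of_mul_eq_one (⟨(p : K)⁻¹, hall _⟩ : W) ?_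
    apply Subtype.ext
    exact mul_inv_cancel₀ hp0
  -- the minimal order
  have hex : ∃ n, ¬ y ≤ I (n + 1) := by
    refine ⟨(ord W (ψ z₀)).toNat, fun h => ?_⟩
    have h1 := (hI _ z₀ hz₀ψ).1 (h hz₀)
    have h2 := Int.self_le_toNat (ord W (ψ z₀))
    push_cast at h1
    omega
  set e := Nat.find hex with he
  have he1 : ¬ y ≤ I (e + 1) := Nat.find_spec hex
  have he0 : 1 ≤ e := by
    by_contra h
    have h1 : e = 0 := by omega
    rw [h1] at he1
    exact he1 hIy
  have hye : y ≤ I e := by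
    have h1 := Nat.find_min hex (m := e - 1) (by omega)
    rw [not_not, Nat.sub_add_cancel he0] at h1
    exact h1
  have hy2 : y ^ 2 ≤ I (e + 1) := by
    rw [pow_two, Ideal.mul_le]
    intro a ha b hb
    have h1 : ρ a ∈ maximalIdeal W ^ e := hye ha
    have h2 : ρ b ∈ maximalIdeal W ^ e := hye hb
    change ρ (a * b) ∈ maximalIdeal W ^ (e + 1)
    rw [map_mul]
    have h3 := Ideal.mul_mem_mul h1 h2
    rw [← pow_add] at h3
    exact Ideal.pow_le_pow_right (by omega) h3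
  -- prime avoidance
  obtain ⟨z, hzy, hz⟩ : ∃ z ∈ y, ∀ J ∈ insert (I (e + 1)) s, z ∉ J := by
    by_contra hcon
    push Not at hcon
    have h1 : (y : Set A) ⊆ ⋃ i ∈ (↑(insert (I (e + 1)) s) : Set (Ideal A)),
        ((id i : Ideal A) : Set A) := by
      intro v hv
      obtain ⟨J, hJ, hvJ⟩ := hcon v hv
      exact Set.mem_biUnion (Finset.mem_coe.2 hJ) hvJ
    rw [Ideal.subset_union_prime (I (e + 1)) (I (e + 1))] at h1
    · obtain ⟨J, hJ, hyJ⟩ := h1
      rcases Finset.mem_insert.1 hJ with rfl | hJ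
      · exact he1 hyJ
      · exact (hs J hJ).2 (hy.1.eq_of_le (hs J hJ).1.ne_top hyJ).symm
    · intro J hJ h2 _
      rcases Finset.mem_insert.1 hJ with h3 | h3
      · exact absurd h3 h2
      · exact (hs J h3).1.isPrime
  have hzI : z ∉ I (e + 1) := hz _ (Finset.mem_insert_self _ _)
  have hzψ : ψ z ≠ 0 := fun h => hzI (hI0 _ _ h)
  have hzord : ord W (ψ z) = e := by
    have h1 := (hI e z hzψ).1 (hye hzy)
    have h2 := mt (hI (e + 1) z hzψ).2 hzI
    push_cast at h2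
    omega
  have hz2 : z ∉ y ^ 2 := fun h => hzI (hy2 h)
  -- coordinates
  have hreg : ∀ _ : y.IsPrime, IsRegularLocalRing (Localization.AtPrime y) ∧
      ringKrullDim (Localization.AtPrime y) = (Fintype.card (Fin d) : ℕ) := by
    intro hyp
    refine ⟨hy.2 hyp, ?_⟩
    rw [IsLocalization.AtPrime.ringKrullDim_eq_height y, hA.height y hy.1, Fintype.card_fin]
    rfl
  obtain ⟨x, hx, hgen, hx0⟩ := Pool.Agent.Lib.MP_b197b4_ntX.exists_params_given (k := k)
    (ι := Fin d) hy.1 hreg ⟨0, by omega⟩ hzy hz2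
  set J : Ideal A := Ideal.span (Set.range x) with hJ
  obtain ⟨r, hr1, hrJ⟩ := Bl2.exists_conductor (IsNoetherian.noetherian y) hgen
  let C : Ideal A :=
    { carrier := {a | ∀ v ∈ y, a * v ∈ J}
      add_mem' := fun {a b} ha hb v hv => by
        rw [add_mul]
        exact J.add_mem (ha v hv) (hb v hv)
      zero_mem' := fun v _ => by
        rw [zero_mul]
        exact J.zero_mem
      smul_mem' := fun c a ha v hv => by
        rw [smul_eq_mul, mul_assoc]
        exact J.mul_mem_left c (ha v hv) }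
  obtain ⟨f₀, hf₀C, hf₀⟩ : ∃ f₀ ∈ C, ∀ m ∈ insert y s, f₀ ∉ m := by
    by_contra hcon
    push Not at hcon
    have h1 : (C : Set A) ⊆ ⋃ i ∈ (↑(insert y s) : Set (Ideal A)),
        ((id i : Ideal A) : Set A) := by
      intro v hv
      obtain ⟨m, hm, hvm⟩ := hcon v hv
      exact Set.mem_biUnion (Finset.mem_coe.2 hm) hvm
    rw [Ideal.subset_union_prime y y] at h1
    · obtain ⟨m, hm, hCm⟩ := h1
      rcases Finset.mem_insert.1 hm with rfl | hm
      · have h2 : r ∈ m := hCm (fun v hv => hrJ v hv)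
        apply hy.1.ne_top
        rw [Ideal.eq_top_iff_one]
        have h3 := m.sub_mem h2 hr1
        rwa [sub_sub_cancel] at h3
      · have h2 : z ∈ C := by
          intro v _
          refine J.mul_mem_right v ?_
          rw [← hx0]
          exact Ideal.subset_span ⟨_, rfl⟩
        exact hz m (Finset.mem_insert_of_mem hm) (hCm h2)
    · intro m hm h2 _
      rcases Finset.mem_insert.1 hm with h3 | h3
      · exact absurd h3 h2
      · exact (hs m h3).1.isPrime
  refine ⟨x, ⟨0, by omega⟩, f₀, hx, ?_, ?_, ?_, ?_, ?_, hf₀ y (Finset.mem_insert_self _ _), hf₀C⟩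
  · rw [hx0]
    exact hzψ
  · intro v hv hvψ
    rw [hx0, hzord]
    exact (hI e v hvψ).1 (hye hv)
  · rw [hx0, hzord]
    exact_mod_cast he0
  · rw [hx0]
    exact hz2
  · intro m hm
    rw [hx0]
    exact ⟨hz m (Finset.mem_insert_of_mem hm), hf₀ m (Finset.mem_insert_of_mem hm)⟩

end Pool.Agent.Lib.MP_b197b4_ntA
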