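import Mathlib
import Pool.Agent.Lib.MP_b197b4_ntA.Defs2

/-!
# MP_b197b4_nt, project K1-ALL: localization of a chart at one element

`blLoc A f₀ = A[1/f₀]` as a subalgebra of `F`.
-/

set_option autoImplicit false
set_option linter.style.haveILetI false

namespace Pool.Agent.Lib.MP_b197b4_ntA

open IsLocalRing Pool.Agent.Lib.MP_b197b4_ntK

variable {k F : Type} [Field k] [Field F] [Algebra k F]

/-- `A[1/f₀]` in `F`. -/
noncomputable def blLoc (A : Subalgebra k F) (f₀ : A) : Subalgebra k F :=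
  Algebra.adjoin k ((A : Set F) ∪ {(f₀ : F)⁻¹})

namespace BlLoc

variable {A : Subalgebra k F} {f₀ : A}

theorem le (A : Subalgebra k F) (f₀ : A) : A ≤ blLoc A f₀ := fun _ ha =>
  Algebra.subset_adjoin (Or.inl ha)

theorem inv_mem (A : Subalgebra k F) (f₀ : A) : (f₀ : F)⁻¹ ∈ blLoc A f₀ :=
  Algebra.subset_adjoin (Or.inr rfl)

theorem mem_iff (hf : f₀ ≠ 0) (a : F) : a ∈ blLoc A f₀ ↔ ∃ n : ℕ, (f₀ : F) ^ n * a ∈ A := by
  have hf' : (f₀ : F) ≠ 0 := fun h => hf (Subtype.ext h)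
  constructor
  · intro ha
    induction ha using Algebra.adjoin_induction with
    | mem x hx =>
      rcases hx with hx | hx
      · exact ⟨0, by rw [pow_zero, one_mul]; exact hx⟩
      · rw [Set.mem_singleton_iff] at hx
        subst hx
        exact ⟨1, by rw [pow_one, mul_inv_cancel₀ hf']; exact A.one_mem⟩
    | algebraMap r => exact ⟨0, by rw [pow_zero, one_mul]; exact A.algebraMap_mem r⟩
    | add x y _ _ hx hy =>
      obtain ⟨n, hn⟩ := hx
      obtain ⟨m, hm⟩ := hy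
      refine ⟨n + m, ?_⟩
      have h : (f₀ : F) ^ (n + m) * (x + y) =
          (f₀ : F) ^ m * ((f₀ : F) ^ n * x) + (f₀ : F) ^ n * ((f₀ : F) ^ m * y) := by ring
      rw [h]
      exact A.add_mem (A.mul_mem (A.pow_mem f₀.2 m) hn) (A.mul_mem (A.pow_mem f₀.2 n) hm)
    | mul x y _ _ hx hy =>
      obtain ⟨n, hn⟩ := hx
      obtain ⟨m, hm⟩ := hy
      refine ⟨n + m, ?_⟩
      have h : (f₀ : F) ^ (n + m) * (x * y) =
          ((f₀ : F) ^ n * x) * ((f₀ : F) ^ m * y) := by ring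
      rw [h]
      exact A.mul_mem hn hm
  · rintro ⟨n, hn⟩
    have h : a = ((f₀ : F)⁻¹) ^ n * ((f₀ : F) ^ n * a) := by
      rw [← mul_assoc, ← mul_pow, inv_mul_cancel₀ hf', one_pow, one_mul]
    rw [h]
    exact (blLoc A f₀).mul_mem ((blLoc A f₀).pow_mem (inv_mem A f₀) n) (le A f₀ hn)

/-- The inclusion `A → A[1/f₀]`. -/
noncomputable abbrev inc (A : Subalgebra k F) (f₀ : A) : A →ₐ[k] blLoc A f₀ :=
  Subalgebra.inclusion (le A f₀)

theorem isUnit (hf : f₀ ≠ 0) : IsUnit (inc A f₀ f₀) := by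
  have hf' : (f₀ : F) ≠ 0 := fun h => hf (Subtype.ext h)
  refine IsUnit.of_mul_eq_one ⟨(f₀ : F)⁻¹, inv_mem A f₀⟩ (Subtype.ext ?_)
  exact mul_inv_cancel₀ hf'

/-- `A[1/f₀]` is the localization. -/
theorem away (hf : f₀ ≠ 0) :
    letI := (inc A f₀).toRingHom.toAlgebra
    IsLocalization.Away f₀ (blLoc A f₀) := by
  letI := (inc A f₀).toRingHom.toAlgebra
  have hmap : ∀ a : A, ((algebraMap A (blLoc A f₀) a : blLoc A f₀) : F) = (a : F) := fun a => rfl
  refine { map_units := ?_, surj := ?_, exists_of_eq := ?_ }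
  · rintro ⟨_, n, rfl⟩
    have h := (isUnit (A := A) hf).pow n
    rw [← map_pow] at h
    exact h
  · intro z
    obtain ⟨n, hn⟩ := (mem_iff hf (z : F)).1 z.2
    refine ⟨(⟨_, hn⟩, ⟨f₀ ^ n, n, rfl⟩), Subtype.ext ?_⟩
    change (z : F) * ((algebraMap A (blLoc A f₀) (f₀ ^ n) : blLoc A f₀) : F) = _
    rw [hmap, hmap]
    change (z : F) * ((f₀ ^ n : A) : F) = (f₀ : F) ^ n * (z : F)
    rw [SubmonoidClass.coe_pow, mul_comm]
  · intro x y hxy
    refine ⟨1, ?_⟩
    have h : (x : F) = (y : F) := by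
      rw [← hmap, ← hmap, hxy]
    rw [Subtype.ext h]

theorem f_notMem_comap (hf : f₀ ≠ 0) (P : Ideal (blLoc A f₀)) (hP : P ≠ ⊤) :
    f₀ ∉ P.comap (inc A f₀) := fun h =>
  hP (Ideal.eq_top_of_isUnit_mem P (Ideal.mem_comap.1 h) (isUnit hf))

theorem f_notMem (hf : f₀ ≠ 0) (P : Ideal (blLoc A f₀)) (hP : P ≠ ⊤) :
    (⟨f₀, le A f₀ f₀.2⟩ : blLoc A f₀) ∉ P :=
  f_notMem_comap hf P hP

theorem map_comap (hf : f₀ ≠ 0) (P : Ideal (blLoc A f₀)) :
    (P.comap (inc A f₀)).map (inc A f₀) = P := by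
  letI := (inc A f₀).toRingHom.toAlgebra
  haveI : IsLocalization (Submonoid.powers f₀) (blLoc A f₀) := away hf
  exact IsLocalization.map_under (Submonoid.powers f₀) (blLoc A f₀) P

theorem comap_map (hf : f₀ ≠ 0) (Q : Ideal A) (hQ : Q.IsPrime) (hfQ : f₀ ∉ Q) :
    (Q.map (inc A f₀)).IsPrime ∧ (Q.map (inc A f₀)).comap (inc A f₀) = Q := by
  letI := (inc A f₀).toRingHom.toAlgebra
  haveI : IsLocalization (Submonoid.powers f₀) (blLoc A f₀) := away hf
  have hd : Disjoint ((Submonoid.powers f₀ : Submonoid A) : Set A) (Q : Set A) :=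
    (Ideal.disjoint_powers_iff_notMem_of_isPrime f₀).2 hfQ
  exact ⟨IsLocalization.isPrime_of_isPrime_disjoint (Submonoid.powers f₀) (blLoc A f₀) Q hQ hd,
    IsLocalization.under_map_of_isPrime_disjoint (Submonoid.powers f₀) (blLoc A f₀) hQ hd⟩

theorem jacobson (hA : A.FG) : IsJacobsonRing A := by
  haveI : Algebra.FiniteType k A := A.fg_iff_finiteType.1 hA
  exact isJacobsonRing_of_finiteType (A := k)

/-- The maximal ideals of `A[1/f₀]` are the maximal ideals of `A` without `f₀`. -/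
theorem isMaximal_iff (hA : A.FG) (hf : f₀ ≠ 0) (P : Ideal (blLoc A f₀)) :
    P.IsMaximal ↔ (P.comap (inc A f₀)).IsMaximal ∧ f₀ ∉ P.comap (inc A f₀) := by
  haveI := jacobson hA
  letI := (inc A f₀).toRingHom.toAlgebra
  haveI : IsLocalization.Away f₀ (blLoc A f₀) := away hf
  exact IsLocalization.isMaximal_iff_isMaximal_disjoint (blLoc A f₀) f₀ P

theorem comap_isMaximal (hA : A.FG) (hf : f₀ ≠ 0) (P : Ideal (blLoc A f₀)) (hP : P.IsMaximal) :
    (P.comap (inc A f₀)).IsMaximal :=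
  ((isMaximal_iff hA hf P).1 hP).1

theorem map_isMaximal (hA : A.FG) (hf : f₀ ≠ 0) (y : Ideal A) (hy : y.IsMaximal) (hfy : f₀ ∉ y) :
    (y.map (inc A f₀)).IsMaximal := by
  rw [isMaximal_iff hA hf, (comap_map hf y hy.isPrime hfy).2]
  exact ⟨hy, hfy⟩

theorem height_comap (hf : f₀ ≠ 0) (P : Ideal (blLoc A f₀)) :
    (P.comap (inc A f₀)).height = P.height := by
  letI := (inc A f₀).toRingHom.toAlgebra
  haveI : IsLocalization (Submonoid.powers f₀) (blLoc A f₀) := away hf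
  exact IsLocalization.height_under (Submonoid.powers f₀) P

theorem fg (hA : A.FG) : (blLoc A f₀).FG := by
  obtain ⟨s, hs⟩ := hA
  classical
  refine ⟨insert ((f₀ : F)⁻¹) s, le_antisymm ?_ ?_⟩
  · refine Algebra.adjoin_le ?_
    intro x hx
    rw [Finset.coe_insert] at hx
    rcases hx with hx | hx
    · rw [hx]; exact inv_mem A f₀
    · exact le A f₀ (hs ▸ Algebra.subset_adjoin hx)
  · refine Algebra.adjoin_le ?_
    rintro x (hx | hx)
    · have hx' : x ∈ Algebra.adjoin k (s : Set F) := by rw [hs]; exact hx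
      exact Algebra.adjoin_mono (by simp) hx'
    · rw [Set.mem_singleton_iff.1 hx]
      exact Algebra.subset_adjoin (by simp)

/-- Overrings in `F` of a ring with fraction field `F`. -/
theorem isFractionRing_of_le {B : Subalgebra k F} (hAB : A ≤ B) (hA : IsFractionRing A F) :
    IsFractionRing B F := by
  refine { map_units := ?_, surj := ?_, exists_of_eq := ?_ }
  · rintro ⟨y, hy⟩
    have hy0 : (y : F) ≠ 0 := by
      intro h
      exact nonZeroDivisors.ne_zero hy (Subtype.ext h)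
    exact IsUnit.mk0 _ hy0
  · intro z
    obtain ⟨⟨a, s⟩, h⟩ := IsLocalization.surj (nonZeroDivisors A) z
    have hs0 : (s : A) ≠ 0 := nonZeroDivisors.ne_zero s.2
    refine ⟨(⟨(a : F), hAB a.2⟩, ⟨⟨((s : A) : F), hAB (s : A).2⟩, ?_⟩), ?_⟩
    · rw [mem_nonZeroDivisors_iff_ne_zero]
      intro h0
      have h1 : (((s : A) : F)) = 0 := congrArg (fun t : B => (t : F)) h0
      exact hs0 (Subtype.ext h1)
    · exact h
  · intro x y hxy
    exact ⟨1, by rw [Subtype.ext (show (x : F) = y from hxy)]⟩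

/-- `A[1/f₀]` is a chart of the same dimension. -/
theorem dchart {d : ℕ} (hA : DChart d A) (hf : f₀ ≠ 0) : DChart d (blLoc A f₀) where
  fg := fg hA.fg
  frac := isFractionRing_of_le (le A f₀) hA.frac
  height m hm := by
    rw [← height_comap hf m]
    exact hA.height _ (comap_isMaximal hA.fg hf m hm)

theorem atPrime_equiv {R S : Type*} [CommRing R] [CommRing S] [Algebra R S] (M : Submonoid R)
    [IsLocalization M S] (P : Ideal S) [hP : P.IsPrime]
    [hP' : (P.comap (algebraMap R S)).IsPrime] :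
    Nonempty (Localization.AtPrime P ≃+* Localization.AtPrime (P.comap (algebraMap R S))) := by
  have h1 : IsLocalization.AtPrime (Localization.AtPrime P) (P.comap (algebraMap R S)) :=
    IsLocalization.isLocalization_isLocalization_atPrime_isLocalization M
      (Localization.AtPrime P) P
  exact ⟨(IsLocalization.algEquiv (P.comap (algebraMap R S)).primeCompl
    (Localization.AtPrime P)
    (Localization.AtPrime (P.comap (algebraMap R S)))).toRingEquiv⟩

/-- Regular points of `A[1/f₀]`. -/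
theorem regMax_iff (hA : A.FG) (hf : f₀ ≠ 0) (P : Ideal (blLoc A f₀)) :
    RegMax P ↔ RegMax (P.comap (inc A f₀)) ∧ f₀ ∉ P.comap (inc A f₀) := by
  letI := (inc A f₀).toRingHom.toAlgebra
  haveI : IsLocalization (Submonoid.powers f₀) (blLoc A f₀) := away hf
  have key : ∀ (hP : P.IsPrime) (hP' : (P.comap (inc A f₀)).IsPrime),
      Nonempty (Localization.AtPrime P ≃+* Localization.AtPrime (P.comap (inc A f₀))) :=
    fun hP hP' => @atPrime_equiv A (blLoc A f₀) _ _ _ (Submonoid.powers f₀) _ P hP hP'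
  constructor
  · rintro ⟨hP, hreg⟩
    refine ⟨⟨comap_isMaximal hA hf P hP, fun h => ?_⟩, f_notMem_comap hf P hP.ne_top⟩
    obtain ⟨e⟩ := key hP.isPrime h
    haveI := hreg hP.isPrime
    exact IsRegularLocalRing.of_ringEquiv e
  · rintro ⟨⟨hP, hreg⟩, hfP⟩
    refine ⟨(isMaximal_iff hA hf P).2 ⟨hP, hfP⟩, fun h => ?_⟩
    obtain ⟨e⟩ := key h hP.isPrime
    haveI := hreg hP.isPrime
    exact IsRegularLocalRing.of_ringEquiv e.symm

/-- The ideal `(x)` of `A[1/f₀]`, if `f₀ y ⊆ (x) ⊆ y` in `A`. -/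
theorem span_eq_map (hf : f₀ ≠ 0) {ι : Type*} (x : ι → A) (y : Ideal A) (hx : ∀ i, x i ∈ y)
    (hyx : ∀ v ∈ y, f₀ * v ∈ Ideal.span (Set.range x)) :
    Ideal.span (Set.range fun i => inc A f₀ (x i)) = y.map (inc A f₀) := by
  refine le_antisymm ?_ ?_
  · rw [Ideal.span_le]
    rintro _ ⟨i, rfl⟩
    exact Ideal.mem_map_of_mem _ (hx i)
  · rw [Ideal.map_le_iff_le_comap]
    intro v hv
    rw [Ideal.mem_comap]
    have h1 : inc A f₀ (f₀ * v) ∈ Ideal.span (Set.range fun i => inc A f₀ (x i)) := by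
      have h2 := Ideal.mem_map_of_mem (inc A f₀) (hyx v hv)
      rw [Ideal.map_span, ← Set.range_comp] at h2
      exact h2
    obtain ⟨u, hu⟩ := isUnit (A := A) hf
    rw [map_mul, ← hu] at h1
    have h3 := Ideal.mul_mem_left _ ((u⁻¹ : (blLoc A f₀)ˣ) : blLoc A f₀) h1
    rwa [← mul_assoc, Units.inv_mul, one_mul] at h3

/-- The ideal `(x)` of `A[1/f₀]` is maximal and lies over `y`. -/
theorem span_isMaximal (hA : A.FG) (hf : f₀ ≠ 0) {ι : Type*} (x : ι → A) (y : Ideal A)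
    (hy : y.IsMaximal) (hfy : f₀ ∉ y) (hx : ∀ i, x i ∈ y)
    (hyx : ∀ v ∈ y, f₀ * v ∈ Ideal.span (Set.range x)) :
    (Ideal.span (Set.range fun i => inc A f₀ (x i))).IsMaximal ∧
      (Ideal.span (Set.range fun i => inc A f₀ (x i))).comap (inc A f₀) = y := by
  rw [span_eq_map hf x y hx hyx]
  exact ⟨map_isMaximal hA hf y hy hfy, (comap_map hf y hy.isPrime hfy).2⟩

/-- The ideal `(x)` of `A[1/f₀]` is a regular point if `y` is. -/
theorem span_regMax (hA : A.FG) (hf : f₀ ≠ 0) {ι : Type*} (x : ι → A) (y : Ideal A)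
    (hy : RegMax y) (hfy : f₀ ∉ y) (hx : ∀ i, x i ∈ y)
    (hyx : ∀ v ∈ y, f₀ * v ∈ Ideal.span (Set.range x)) :
    RegMax (Ideal.span (Set.range fun i => inc A f₀ (x i))) := by
  rw [regMax_iff hA hf, (span_isMaximal hA hf x y hy.1 hfy hx hyx).2]
  exact ⟨hy, hfy⟩

/-- A prime ideal of `A[1/f₀]` which lies over `y` is `(x)`. -/
theorem eq_span_of_comap (hf : f₀ ≠ 0) {ι : Type*} (x : ι → A) (y : Ideal A)
    (hx : ∀ i, x i ∈ y) (hyx : ∀ v ∈ y, f₀ * v ∈ Ideal.span (Set.range x))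
    (P : Ideal (blLoc A f₀)) (hP : P.comap (inc A f₀) = y) :
    P = Ideal.span (Set.range fun i => inc A f₀ (x i)) := by
  rw [span_eq_map hf x y hx hyx, ← hP, map_comap hf]

theorem comap_isPrime (P : Ideal (blLoc A f₀)) (hP : P.IsPrime) :
    (P.comap (inc A f₀)).IsPrime :=
  hP.comap _

theorem exists_lift_gen {k R S K : Type*} [CommRing k] [CommRing R] [CommRing S] [Algebra k R]
    [Algebra k S] [Algebra R S] [IsScalarTower k R S] (M : Submonoid R) [IsLocalization M S]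
    [CommRing K] [Algebra k K] (ψ : R →ₐ[k] K) (h : ∀ y : M, IsUnit (ψ y)) :
    ∃ ψ' : S →ₐ[k] K, ∀ a, ψ' (algebraMap R S a) = ψ a :=
  ⟨IsLocalization.liftAlgHom (M := M) (f := ψ) h, fun a => by
    rw [IsLocalization.liftAlgHom_apply, IsLocalization.lift_eq]
    rfl⟩

/-- Extension of homomorphisms to `A[1/f₀]`. -/
theorem exists_lift (hf : f₀ ≠ 0) {K : Type*} [Field K] [Algebra k K] (ψ : A →ₐ[k] K)
    (hψ : ψ f₀ ≠ 0) : ∃ ψ' : blLoc A f₀ →ₐ[k] K, ψ'.comp (inc A f₀) = ψ := by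
  letI := (inc A f₀).toRingHom.toAlgebra
  haveI : IsLocalization.Away f₀ (blLoc A f₀) := away hf
  haveI : IsScalarTower k A (blLoc A f₀) := IsScalarTower.of_algebraMap_eq fun r => rfl
  have hu : ∀ y : Submonoid.powers f₀, IsUnit (ψ y) := by
    rintro ⟨_, n, rfl⟩
    rw [map_pow]
    exact (IsUnit.mk0 _ hψ).pow n
  obtain ⟨ψ', h⟩ := exists_lift_gen (S := blLoc A f₀) (Submonoid.powers f₀) ψ hu
  exact ⟨ψ', AlgHom.ext fun a => h a⟩

theorem hom_ext (hf : f₀ ≠ 0) {K : Type*} [CommRing K] [Algebra k K] (ψ ψ' : blLoc A f₀ →ₐ[k] K)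
    (h : ψ.comp (inc A f₀) = ψ'.comp (inc A f₀)) : ψ = ψ' := by
  ext a
  obtain ⟨n, hn⟩ := (mem_iff hf (a : F)).1 a.2
  have h1 : inc A f₀ f₀ ^ n * a = inc A f₀ ⟨_, hn⟩ := Subtype.ext (by simp)
  have h2 : ψ (inc A f₀ f₀ ^ n * a) = ψ' (inc A f₀ f₀ ^ n * a) := by
    rw [h1]
    exact DFunLike.congr_fun h ⟨_, hn⟩
  have h3 : ψ (inc A f₀ f₀) = ψ' (inc A f₀ f₀) := DFunLike.congr_fun h f₀
  rw [map_mul, map_mul, map_pow, map_pow, ← h3] at h2
  exact (((isUnit (A := A) hf).map ψ).pow n).mul_left_cancel h2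

end BlLoc

end Pool.Agent.Lib.MP_b197b4_ntA
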