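import Mathlib
import Pool.Agent.Lib.MP_b197b4_ntA.Defs2
import Pool.Agent.Lib.MP_b197b4_ntA.Cur1
import Pool.Agent.Lib.MP_b197b4_ntA.Cur2
import Pool.Agent.Lib.MP_b197b4_ntA.Cur3
import Pool.Agent.Lib.MP_b197b4_ntA.Surf
import Pool.Agent.Lib.MP_b197b4_ntA.Ext1
import Pool.Agent.Lib.MP_b197b4_ntA.Ext2
import Pool.Agent.Lib.MP_b197b4_ntA.CurveEx
import Pool.Agent.Lib.MP_b197b4_ntQ.Bl3
import Pool.Agent.Lib.MP_b197b4_ntA.Pic

/-!
# MP_b197b4_nt, project K1-ALL: the lemmas of the first layer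

Curves (`Cur1`, `Cur2`, `Cur3`, `Pic`), curves and surfaces through given points (`CurveEx`, `Surf`), extensions of
charts (`Ext1`, `Ext2`) and blow ups (`Bl3`).
-/
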