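import Mathlib
import Pool.Agent.Lib.MP_b197b4_ntA.Defs2
import Pool.Agent.Lib.MP_b197b4_ntA.Cur1
import Pool.Agent.Lib.MP_b197b4_ntA.Cur3
import Pool.Agent.Lib.MP_b197b4_ntA.CurveEx
import Pool.Agent.Lib.MP_b197b4_ntA.Ext2
import Pool.Agent.Lib.MP_b197b4_ntD.Dim

/-!
# MP_b197b4_nt, project K1-ALL: comparison of a chart and of a chart of the blow up
-/

set_option autoImplicit false

namespace Pool.Agent.Lib.MP_b197b4_ntA

open IsLocalRing Pool.Agent.Lib.MP_b197b4_ntK Pool.Agent.Lib.MP_b197b4_ntD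

/-- The image of the chart in the function field of a curve has dimension one. -/
theorem cmp_dim {k F : Type} [Field k] [Field F] [Algebra k F] {A : Subalgebra k F} (hA : A.FG)
    {K : Type} [Field K] [Algebra k K] (hK : FunF k K 1) (ψ : A →ₐ[k] K)
    (hψ : ∀ e : K, ∃ a b : A, ψ b ≠ 0 ∧ e = ψ a / ψ b) :
    ringKrullDim (A ⧸ RingHom.ker ψ) = 1 := by
  have : Algebra.FiniteType k A := (Subalgebra.fg_iff_finiteType A).1 hA
  have : Algebra.FiniteType k ψ.range :=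
    Algebra.FiniteType.of_surjective ψ.rangeRestrict ψ.rangeRestrict_surjective
  have : IsNoetherianRing ψ.range := Algebra.FiniteType.isNoetherianRing k _
  have : IsFractionRing ψ.range K := by
    refine IsFractionRing.of_field _ _ fun e => ?_
    obtain ⟨a, b, -, h⟩ := hψ e
    exact ⟨⟨ψ a, a, rfl⟩, ⟨ψ b, b, rfl⟩, h⟩
  obtain ⟨s, hs⟩ := exists_hasDim k ψ.range
  have h1 := hs.trdeg_frac K
  rw [hK.2] at h1
  have h2 : (1 : ℕ) = s := by exact_mod_cast h1
  subst h2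
  have h3 := hs.ringKrullDim
  rw [ringKrullDim_eq_of_ringEquiv (Ideal.quotientKerAlgEquivOfSurjective
    ψ.rangeRestrict_surjective).toRingEquiv.symm] at h3
  have h4 : RingHom.ker ψ.rangeRestrict = RingHom.ker ψ := by
    ext a
    rw [RingHom.mem_ker, RingHom.mem_ker, Subtype.ext_iff]
    rfl
  rw [h4] at h3
  exact h3

/-- Every curve has its form and its function on the places. -/
theorem cmp_curve {k F : Type} [Field k] [IsAlgClosed k] [Field F] [Algebra k F]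
    (halg : ∃ p : ℕ, p.Prime ∧ ∀ a : k, ∃ m : ℕ, 0 < m ∧ a ^ p ^ m = a) {A : Subalgebra k F}
    (hA : A.FG) (l : Ideal A → A → ℚ) (hl : Lam k A l) {K : Type} [Field K] [Algebra k K]
    (hK : FunF k K 1) (ψ : A →ₐ[k] K) (hψ : ∀ e : K, ∃ a b : A, ψ b ≠ 0 ∧ e = ψ a / ψ b) :
    ∃ (lK : K → ℚ) (hK' : ValuationSubring K → ℚ), CurveK k A l ψ lK hK' := by
  have hdim := cmp_dim hA hK ψ hψ
  have hP : (RingHom.ker ψ).IsPrime := RingHom.ker_isPrime _
  have hker : ∀ a : A, ψ a ≠ 0 → a ∉ RingHom.ker ψ := fun a ha h => ha h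
  have key : ∀ a₁ b₁ a₂ b₂ : A, ψ a₁ ≠ 0 → ψ b₁ ≠ 0 → ψ a₂ ≠ 0 → ψ b₂ ≠ 0 →
      ψ a₁ / ψ b₁ = ψ a₂ / ψ b₂ →
      l (RingHom.ker ψ) a₁ - l (RingHom.ker ψ) b₁ = l (RingHom.ker ψ) a₂ - l (RingHom.ker ψ) b₂ := by
    intro a₁ b₁ a₂ b₂ ha₁ hb₁ ha₂ hb₂ he
    rw [div_eq_div_iff hb₁ hb₂] at he
    have h1 : l (RingHom.ker ψ) (a₁ * b₂) = l (RingHom.ker ψ) (a₂ * b₁) := by
      refine hl.cong _ hP hdim _ _ ?_ ?_
      · refine hker _ ?_
        rw [map_mul]
        exact mul_ne_zero ha₁ hb₂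
      · rw [RingHom.mem_ker, map_sub, map_mul, map_mul, he, sub_self]
    rw [hl.mul _ hP hdim _ _ (hker _ ha₁) (hker _ hb₂),
      hl.mul _ hP hdim _ _ (hker _ ha₂) (hker _ hb₁)] at h1
    linarith
  choose a b hb hab using hψ
  have ha : ∀ x : K, x ≠ 0 → ψ (a x) ≠ 0 := by
    intro x hx h0
    exact hx (by rw [hab x, h0, zero_div])
  obtain ⟨h, hh⟩ := exists_given halg hK
    (fun x => l (RingHom.ker ψ) (a x) - l (RingHom.ker ψ) (b x)) (by
      intro x y hx hy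
      have hxy := mul_ne_zero hx hy
      have h1 := key (a (x * y)) (b (x * y)) (a x * a y) (b x * b y) (ha _ hxy) (hb _)
        (by rw [map_mul]; exact mul_ne_zero (ha _ hx) (ha _ hy))
        (by rw [map_mul]; exact mul_ne_zero (hb _) (hb _))
        (by rw [← hab, map_mul, map_mul, ← div_mul_div_comm, ← hab, ← hab])
      rw [hl.mul _ hP hdim _ _ (hker _ (ha _ hx)) (hker _ (ha _ hy)),
        hl.mul _ hP hdim _ _ (hker _ (hb _)) (hker _ (hb _))] at h1
      linarith)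
  refine ⟨_, h, ⟨hK, fun e => ⟨a e, b e, hb e, hab e⟩, fun a₁ b₁ ha₁ hb₁ => ?_, hh⟩⟩
  have h0 : ψ a₁ / ψ b₁ ≠ 0 := div_ne_zero ha₁ hb₁
  exact key _ _ _ _ (ha _ h0) (hb _) ha₁ hb₁ (hab _).symm

/-- A maximal ideal which is not zero contains an element which does not lie in its square. -/
theorem cmp_unif {A : Type*} [CommRing A] [IsDomain A] [IsNoetherianRing A] (m : Ideal A)
    (hm : m.IsMaximal) (h0 : m ≠ ⊥) : ∃ z ∈ m, z ∉ m ^ 2 := by
  by_contra h
  push Not at h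
  have h1 : m * m = m := le_antisymm Ideal.mul_le_left (by rw [← sq]; exact h)
  rcases (Ideal.isIdempotentElem_iff_eq_bot_or_top m (IsNoetherian.noetherian m)).1 h1 with h2 | h2
  · exact h0 h2
  · exact hm.ne_top h2

theorem cmp_unif' {k F : Type} [Field k] [Field F] [Algebra k F] {d : ℕ} (hd : 2 ≤ d)
    {A : Subalgebra k F} (hA : DChart d A) (m : Ideal A) (hm : m.IsMaximal) :
    ∃ z ∈ m, z ∉ m ^ 2 := by
  have : Algebra.FiniteType k A := (Subalgebra.fg_iff_finiteType A).1 hA.fg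
  have : IsNoetherianRing A := Algebra.FiniteType.isNoetherianRing k A
  refine cmp_unif m hm fun h0 => ?_
  have h1 := hA.height m hm
  rw [h0, Ideal.height_bot] at h1
  have h2 : (0 : ℕ) = d := by exact_mod_cast h1
  omega

/-- The field of rational functions. -/
theorem cmp_ratFunc (k : Type) [Field k] : FunF k (RatFunc k) 1 := by
  constructor
  · rw [← RatFunc.adjoin_X]
    exact IntermediateField.fg_adjoin_of_finite (Set.finite_singleton _)
  · have : Algebra.IsAlgebraic (Polynomial k) (RatFunc k) :=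
      IsLocalization.isAlgebraic _ (nonZeroDivisors (Polynomial k))
    have h1 := trdeg_add_eq k (Polynomial k) (A := RatFunc k)
    rw [trdeg_eq_zero (R := Polynomial k) (A := RatFunc k), add_zero,
      Polynomial.trdeg_of_isDomain] at h1
    rw [← h1]
    simp

/-- The form and the function are zero on the curves in the exceptional divisor. -/
theorem cmp_line {k F : Type} [Field k] [Field F] [Algebra k F] {A A' : Subalgebra k F} {f : F}
    (h : Ext A A' f) (l : Ideal A → A → ℚ) (χ : A' →ₐ[k] RatFunc k)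
    (hχ : χ ⟨f, h.le h.mem⟩ = 0) (hg : ∀ e, ∃ a b : A', χ b ≠ 0 ∧ e = χ a / χ b) :
    CurveK k A' (lext h l) χ (fun _ => 0) (fun _ => 0) where
  fun1 := cmp_ratFunc k
  gen := hg
  compat := fun a b _ _ => by
    have hf : (⟨f, h.le h.mem⟩ : A') ∈ RingHom.ker χ := hχ
    rw [lext, lext, if_pos hf, if_pos hf, sub_zero]
  given := fun c _ => by
    simp

/-- R1: `h'` is constant on the exceptional divisor and equal to `h` there. -/
theorem blow_compare {k F : Type} [Field k] [IsAlgClosed k] [Field F] [Algebra k F]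
    (halg : ∃ p : ℕ, p.Prime ∧ ∀ a : k, ∃ m : ℕ, 0 < m ∧ a ^ p ^ m = a) {d : ℕ}
    (hd : 2 ≤ d) {A A' : Subalgebra k F} (hA : DChart d A) (f : F) (y : Ideal A) (hy : RegMax y)
    (z : A) (hB : Blow k d A A' f y z) (l : Ideal A → A → ℚ) (hl : Lam k A l)
    (h : Ideal A → ℚ) (hh : GReg k A l h) (h' : Ideal A' → ℚ)
    (hh' : GReg k A' (lext hB.ext l) h') (n : Ideal A') (hn : n.IsMaximal)
    (hnf : (⟨f, hB.ext.le hB.ext.mem⟩ : A') ∈ n) (m : Ideal A) (hm : RegMax m)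
    (hmf : (⟨f, hB.ext.mem⟩ : A) ∉ m) (m' : Ideal A') (hm' : RegMax m')
    (hmm : m'.comap (Subalgebra.inclusion hB.ext.le) = m) : h' n - h' m' = h y - h m := by
  classical
  have hfy : (⟨f, hB.ext.mem⟩ : A) ∈ y := (hB.comap n hn.isPrime hnf).le hnf
  have hym : y ≠ m := fun e => hmf (e ▸ hfy)
  obtain ⟨zm, hzm, hzm2⟩ := cmp_unif' hd hA m hm.1
  -- a curve through `y` and `m`
  obtain ⟨K, _, _, ψ, hK, hψ, hW, -⟩ := exists_curveK hd hA {y, m} ∅
    (fun I => if I = y then z else zm) (by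
      intro I hI
      rw [Finset.mem_insert, Finset.mem_singleton] at hI
      rcases hI with rfl | rfl
      · rw [if_pos rfl]
        exact ⟨hy, hB.z_mem, hB.z_sq⟩
      · rw [if_neg hym.symm]
        exact ⟨hm, hzm, hzm2⟩) (by simp) (by simp)
  obtain ⟨Wy, hWy, hcy, hry, hoy⟩ := hW y (by simp)
  obtain ⟨Wm, hWm, hcm, hrm, -⟩ := hW m (by simp)
  rw [if_pos rfl] at hoy
  obtain ⟨lK, hK', hC⟩ := cmp_curve halg hA.fg l hl hK ψ hψ
  have h1 := hh K ψ lK hK' hC Wy Wm y m hWy hWm hy hm hcy hcm hry hrm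
  have hψf : ψ ⟨f, hB.ext.mem⟩ ≠ 0 := by
    intro h0
    refine hmf ((hcm _).2.2 ?_)
    rw [h0, map_zero]
    exact zero_lt_one
  -- its extension to `A'`
  obtain ⟨ψ', hψ'⟩ := exists_extend hB.ext ψ hψf
  have hC' := curveK_ext hA.fg hB.ext l hl ψ ψ' hψ' hψf lK hK' hC
  have hval : ∀ a : A, ψ' (Subalgebra.inclusion hB.ext.le a) = ψ a := fun a =>
    DFunLike.congr_fun hψ' a
  have hψg : ∀ e : K, ∃ a b : A', ψ' b ≠ 0 ∧ e = ψ' a / ψ' b := by
    intro e
    obtain ⟨a, b, hb, he⟩ := hψ e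
    exact ⟨Subalgebra.inclusion hB.ext.le a, Subalgebra.inclusion hB.ext.le b,
      by rw [hval]; exact hb, by rw [hval, hval]; exact he⟩
  have hreg : ∀ W : ValuationSubring K, RegK ψ W → RegK ψ' W := by
    intro W hW y hy
    obtain ⟨a, s, hs, he⟩ := hW y hy
    exact ⟨Subalgebra.inclusion hB.ext.le a, Subalgebra.inclusion hB.ext.le s,
      by rw [hval]; exact hs, by rw [hval, hval]; exact he⟩
  obtain ⟨n', hn', hcn'⟩ := exists_center hB.chart.fg hK ψ' hψg Wy hWy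
    (hB.cen K ψ ψ' Wy hψ' hWy hcy hoy)
  have hfn' : (⟨f, hB.ext.le hB.ext.mem⟩ : A') ∈ n' := by
    refine (hcn' _).2.2 ?_
    have h2 := (hcy ⟨f, hB.ext.mem⟩).2.1 hfy
    rwa [← hval] at h2
  -- the place over `m`
  have hcm' : CenterK ψ' Wm m' := by
    have hvf : Wm.valuation (ψ ⟨f, hB.ext.mem⟩) = 1 := by
      refine le_antisymm ((Wm.valuation_le_one_iff _).2 (hcm _).1) (not_lt.1 fun h2 => ?_)
      exact hmf ((hcm _).2.2 h2)
    have hmp := hm'.1.isPrime
    have hfm' : (⟨f, hB.ext.le hB.ext.mem⟩ : A') ∉ m' := by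
      intro h2
      apply hmf
      rw [← hmm]
      exact h2
    intro a
    obtain ⟨N, hN⟩ := hB.ext.pow a a.2
    have h2 : Subalgebra.inclusion hB.ext.le ⟨f ^ N * a, hN⟩ =
        (⟨f, hB.ext.le hB.ext.mem⟩ : A') ^ N * a := rfl
    have h3 : ψ ⟨f ^ N * a, hN⟩ = ψ ⟨f, hB.ext.mem⟩ ^ N * ψ' a := by
      rw [← hval, h2, map_mul, map_pow, ← hval]
      rfl
    have h4 : Wm.valuation (ψ ⟨f ^ N * a, hN⟩) = Wm.valuation (ψ' a) := by
      rw [h3, map_mul, map_pow, hvf, one_pow, one_mul]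
    refine ⟨?_, ?_⟩
    · rw [← Wm.valuation_le_one_iff, ← h4, Wm.valuation_le_one_iff]
      exact (hcm _).1
    · rw [← h4, ← (hcm _).2, ← hmm, Ideal.mem_comap, h2]
      constructor
      · intro h5
        exact Ideal.mul_mem_left _ _ h5
      · intro h5
        rcases hmp.mem_or_mem h5 with h6 | h6
        · exact absurd (hmp.mem_of_pow_mem _ h6) hfm'
        · exact h6
  have h2 := hh' K ψ' lK hK' hC' Wy Wm n' m' hWy hWm (hB.reg n' hn' hfn') hm' hcn' hcm'
    (hreg _ hry) (hreg _ hrm)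
  -- the exceptional divisor
  have h3 : h' n' = h' n := by
    by_cases hnn : n' = n
    · rw [hnn]
    · obtain ⟨χ, W, W', hχ, hχg, hW₁, hW₂, hc₁, hc₂, hr₁, hr₂⟩ :=
        hB.line n' n hn' hn hnn hfn' hnf
      have h4 := hh' (RatFunc k) χ _ _ (cmp_line hB.ext l χ hχ hχg) W W' n' n hW₁ hW₂
        (hB.reg n' hn' hfn') (hB.reg n hn hnf) hc₁ hc₂ hr₁ hr₂
      linarith
  linarith

end Pool.Agent.Lib.MP_b197b4_ntA
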