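import Mathlib
import Pool.Agent.Lib.MP_b197b4_ntA.PicD

/-!
# MP_b197b4_nt, project K1-ALL: the degree formula

The degree of a principal divisor on a curve over `k` is zero (from `Pic k`).
-/

set_option autoImplicit false

namespace Pool.Agent.Lib.MP_b197b4_ntA

open IsLocalRing Pool.Agent.Lib.MP_b197b4_ntK

variable {k K : Type} [Field k] [Field K] [Algebra k K]

/-- A function whose only zero or pole is at `W₀` is a constant. -/
theorem Deg_one [IsAlgClosed k] (hK : FunF k K 1) (W₀ : ValuationSubring K)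
    (u : K) (hu : u ≠ 0) (h : ∀ W : ValuationSubring K, Place k W → W ≠ W₀ → ord W u = 0) :
    ∀ W : ValuationSubring K, Place k W → ord W u = 0 := by
  have key : ∀ v : K, v ≠ 0 → (∀ W : ValuationSubring K, Place k W → W ≠ W₀ → ord W v = 0) →
      (0 ≤ ord W₀ v) → ∀ W : ValuationSubring K, Place k W → ord W v = 0 := by
    intro v hv h1 h2
    obtain ⟨a, rfl⟩ := PicD_regular hK v (by
      intro W hW
      rw [← ord_nonneg_iff hW.1 hv]
      by_cases hWW : W = W₀
      · rw [hWW]
        exact h2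
      · exact (h1 W hW hWW).ge)
    intro W hW
    have ha : a ≠ 0 := by
      rintro rfl
      exact hv (map_zero _)
    exact (ord_eq_zero_iff hW.1 hv).2 (Cur2_const hW.2 ha)
  rcases le_total 0 (ord W₀ u) with h0 | h0
  · exact key u hu h h0
  · intro W hW
    by_cases hp : Place k W₀
    · have h1 := key u⁻¹ (inv_ne_zero hu) (fun W hW hWW => by
        rw [ord_inv hW.1 hu, h W hW hWW, neg_zero]) (by
        rw [ord_inv hp.1 hu]
        omega) W hW
      rw [ord_inv hW.1 hu] at h1
      omega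
    · exact h W hW (fun hWW => hp (hWW ▸ hW))

theorem Deg_ind [IsAlgClosed k] (hP : Pic k) (hK : FunF k K 1) (W₀ : ValuationSubring K)
    (hW₀ : Place k W₀) (T : Finset (ValuationSubring K)) :
    (∀ W ∈ T, Place k W ∧ W ≠ W₀) → ∀ u : K, u ≠ 0 →
    (∀ W : ValuationSubring K, Place k W → W ∉ T → W ≠ W₀ → ord W u = 0) →
    ∑ W ∈ T, ord W u + ord W₀ u = 0 := by
  classical
  induction T using Finset.induction_on with
  | empty =>
    intro _ u hu h
    rw [Finset.sum_empty, zero_add]
    exact Deg_one hK W₀ u hu (fun W hW h1 => h W hW (Finset.notMem_empty W) h1) W₀ hW₀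
  | insert W₁ T hW₁ ih =>
    intro hT u hu h
    obtain ⟨hp₁, hne⟩ := hT W₁ (Finset.mem_insert_self _ _)
    obtain ⟨c, M, hc, hM, h1, h2, h3⟩ := hP K hK W₁ W₀ hp₁ hW₀ hne
    have hv : u ^ M * c ^ (-(ord W₁ u)) ≠ 0 := mul_ne_zero (pow_ne_zero _ hu) (zpow_ne_zero _ hc)
    have hord : ∀ W : ValuationSubring K, Place k W →
        ord W (u ^ M * c ^ (-(ord W₁ u))) = M * ord W u - ord W₁ u * ord W c := by
      intro W hW
      rw [ord_mul hW.1 (pow_ne_zero _ hu) (zpow_ne_zero _ hc), ord_pow hW.1 hu,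
        ord_zpow hW.1 hc]
      ring
    have h4 := ih (fun W hW => hT W (Finset.mem_insert_of_mem hW)) _ hv (by
      intro W hW hWT hW0
      rw [hord W hW]
      by_cases hW1 : W = W₁
      · rw [hW1, h1]
        ring
      · rw [h3 W hW hW1 hW0, h W hW (by
          rw [Finset.mem_insert, not_or]
          exact ⟨hW1, hWT⟩) hW0]
        ring)
    have h5 : ∑ W ∈ T, ord W (u ^ M * c ^ (-(ord W₁ u))) = M * ∑ W ∈ T, ord W u := by
      rw [Finset.mul_sum]
      refine Finset.sum_congr rfl fun W hW => ?_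
      obtain ⟨hp, hn⟩ := hT W (Finset.mem_insert_of_mem hW)
      have hn1 : W ≠ W₁ := fun h => hW₁ (h ▸ hW)
      rw [hord W hp, h3 W hp hn1 hn]
      ring
    rw [h5, hord W₀ hW₀, h2] at h4
    rw [Finset.sum_insert hW₁]
    have hM' : (M : ℤ) ≠ 0 := by exact_mod_cast hM.ne'
    have h6 : (M : ℤ) * (ord W₁ u + ∑ W ∈ T, ord W u + ord W₀ u) = 0 := by linarith
    exact (mul_eq_zero.1 h6).resolve_left hM'

/-- **Degree formula.** -/
theorem deg_formula {k K : Type} [Field k] [IsAlgClosed k] [Field K] [Algebra k K] (hP : Pic k)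
    (hK : FunF k K 1) (u : K) (hu : u ≠ 0) :
    ∑ᶠ (W : ValuationSubring K) (_ : Place k W), ord W u = 0 := by
  classical
  have hfin := ord_finite hK u hu
  have h1 : ∑ᶠ (W : ValuationSubring K) (_ : Place k W), ord W u = ∑ W ∈ hfin.toFinset, ord W u := by
    refine finsum_mem_eq_sum_of_inter_support_eq (fun W => ord W u)
      (s := {W | Place k W}) (t := hfin.toFinset) ?_
    ext W
    simp only [Set.mem_inter_iff, Set.mem_ofPred_eq, Function.mem_support, Set.Finite.coe_toFinset]
    tauto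
  rw [h1]
  rcases hfin.toFinset.eq_empty_or_nonempty with h | ⟨W₀, hW₀⟩
  · rw [h, Finset.sum_empty]
  · have h2 : ∀ W ∈ hfin.toFinset, Place k W := fun W hW => (hfin.mem_toFinset.1 hW).1
    have h3 := Deg_ind hP hK W₀ (h2 W₀ hW₀) (hfin.toFinset.erase W₀) (by
      intro W hW
      obtain ⟨h4, h5⟩ := Finset.mem_erase.1 hW
      exact ⟨h2 W h5, h4⟩) u hu (by
      intro W hW h4 h5
      by_contra h6
      exact h4 (Finset.mem_erase.2 ⟨h5, hfin.mem_toFinset.2 ⟨hW, h6⟩⟩))
    rw [← Finset.add_sum_erase _ _ hW₀]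
    linarith

/-- The degree formula with rational coefficients. -/
theorem deg_formula_rat {k K : Type} [Field k] [IsAlgClosed k] [Field K] [Algebra k K] (hP : Pic k)
    (hK : FunF k K 1) (u : K) (hu : u ≠ 0) (c : ℚ) :
    ∑ᶠ (W : ValuationSubring K) (_ : Place k W), c * (ord W u : ℚ) = 0 := by
  classical
  have hfin := ord_finite hK u hu
  have h1 : c * ∑ᶠ (W : ValuationSubring K) (_ : Place k W), (ord W u : ℚ) =
      ∑ᶠ (W : ValuationSubring K) (_ : Place k W), c * (ord W u : ℚ) :=
    mul_finsum_mem (s := {W : ValuationSubring K | Place k W}) (fun W => (ord W u : ℚ)) c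
  have h2 : ∑ᶠ (W : ValuationSubring K) (_ : Place k W), (ord W u : ℚ) =
      ((∑ᶠ (W : ValuationSubring K) (_ : Place k W), ord W u : ℤ) : ℚ) := by
    have h3 := AddMonoidHom.map_finsum_mem' (s := {W : ValuationSubring K | Place k W})
      (f := fun W => ord W u) (Int.castAddHom ℚ) (by
        refine hfin.subset fun W hW => ⟨hW.1, hW.2⟩)
    exact h3.symm
  rw [← h1, h2, deg_formula hP hK u hu, Int.cast_zero, mul_zero]

end Pool.Agent.Lib.MP_b197b4_ntA
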