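import Mathlib
import Pool.Agent.Lib.MP_b197b4_ntA.Defs

/-! # Leaf S1: the normalisation of a chart (definition and first facts). -/

namespace Pool.Agent.Lib.MP_b197b4_ntA

open IsLocalRing Pool.Agent.Lib.MP_b197b4_ntK

variable {k E : Type} [Field k] [Field E] [Algebra k E]

/-- The elements of `E` integral over the subalgebra `C`. -/
def nrmA (C : Subalgebra k E) : Subalgebra k E := (integralClosure C E).restrictScalars k

theorem mem_nrmA {C : Subalgebra k E} {e : E} : e ∈ nrmA C ↔ IsIntegral C e := Iff.rfl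

theorem le_nrmA (C : Subalgebra k E) : C ≤ nrmA C := fun c hc =>
  mem_nrmA.2 (isIntegral_algebraMap (R := C) (x := (⟨c, hc⟩ : C)))

theorem nrmA_le {C : Subalgebra k E} {V : ValuationSubring E} (h : ∀ c ∈ C, c ∈ V) :
    ∀ c ∈ nrmA C, c ∈ V := by
  intro c hc
  obtain ⟨p, hp, h0⟩ := mem_nrmA.1 hc
  let f : C →+* V := (C.subtype : C →+* E).codRestrict V.toSubring (fun c => h c.1 c.2)
  have hi : IsIntegral V c := by
    refine ⟨p.map f, hp.map f, ?_⟩
    rw [Polynomial.eval₂_map]
    exact h0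
  obtain ⟨v, hv⟩ := IsIntegrallyClosed.isIntegral_iff.1 hi
  rw [← hv]
  exact v.2

end Pool.Agent.Lib.MP_b197b4_ntA
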