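import Mathlib
import Pool.Agent.Lib.MP_b197b4_ntA.SurA0
import Pool.Agent.Lib.MP_b197b4_ntD.Dim
import Pool.Agent.Lib.MP_b197b4_ntK.Pts

/-!
# MP_b197b4_nt, project K1-ALL, leaf S1: normalisation of affine charts

Finiteness of the integral closure of an affine domain over a perfect field: Noether normalisation
and the Frobenius map.
-/

set_option autoImplicit false
set_option linter.style.haveILetI false

namespace Pool.Agent.Lib.MP_b197b4_ntA

open IsLocalRing Pool.Agent.Lib.MP_b197b4_ntK Function

/-! ## Finiteness of the integral closure -/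

/-- The Frobenius map of an affine algebra over a perfect field is finite. -/
theorem SurA1_frobenius_finite (k P : Type) [Field k] [PerfectField k] [CommRing P] [Nontrivial P]
    [Algebra k P] [Algebra.FiniteType k P] (p : ℕ) [ExpChar k p] [ExpChar P p] (n : ℕ) :
    (iterateFrobenius P p n).Finite := by
  refine RingHom.IsIntegral.to_finite ?_ ?_
  · intro x
    have hp : 0 < p ^ n := Nat.pow_pos (expChar_pos P p)
    refine ⟨Polynomial.X ^ p ^ n - Polynomial.C x, Polynomial.monic_X_pow_sub_C x hp.ne', ?_⟩
    rw [Polynomial.eval₂_sub, Polynomial.eval₂_pow, Polynomial.eval₂_X, Polynomial.eval₂_C,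
      iterateFrobenius_def, sub_self]
  · haveI : PerfectRing k p := PerfectField.toPerfectRing p
    have h1 : ((iterateFrobenius P p n).comp (algebraMap k P)).FiniteType := by
      have h2 : (iterateFrobenius P p n).comp (algebraMap k P) =
          (algebraMap k P).comp (iterateFrobenius k p n) := by
        ext c
        simp [iterateFrobenius_def]
      rw [h2]
      refine RingHom.FiniteType.comp ?_ (RingHom.FiniteType.of_surjective _ ?_)
      · exact RingHom.finiteType_algebraMap.2 inferInstance
      · exact (bijective_iterateFrobenius k p n).2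
    exact RingHom.FiniteType.of_comp_finiteType h1

theorem SurA1_finite_of_hom {P D T : Type} [CommRing P] [IsNoetherianRing P] [CommRing D]
    [CommRing T] [Algebra P T] (f : P →+* D) (hf : f.Finite) (j : T →+* D) (hj : Injective j)
    (h : ∀ a, j (algebraMap P T a) = f a) : Module.Finite P T := by
  letI := f.toAlgebra
  haveI : Module.Finite P D := hf
  let j' : T →ₐ[P] D := { j with commutes' := h }
  exact Module.Finite.of_injective j'.toLinearMap hj

/-- The integral closure of a normal affine domain over a perfect field in a finite extension of its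
field of fractions is finite. -/
theorem SurA1_finite (k P K E : Type) [Field k] [PerfectField k] [CommRing P] [IsDomain P]
    [IsIntegrallyClosed P] [Algebra k P] [Algebra.FiniteType k P] [Field K] [Algebra P K]
    [IsFractionRing P K] [Field E] [Algebra P E] [Algebra K E] [IsScalarTower P K E]
    [FiniteDimensional K E] : Module.Finite P (integralClosure P E) := by
  obtain ⟨p, hp⟩ := ExpChar.exists k
  haveI : ExpChar P p := expChar_of_injective_algebraMap (algebraMap k P).injective p
  haveI : ExpChar K p := expChar_of_injective_algebraMap (IsFractionRing.injective P K) p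
  haveI : ExpChar E p := expChar_of_injective_algebraMap (algebraMap K E).injective p
  haveI : IsNoetherianRing P := Algebra.FiniteType.isNoetherianRing k P
  haveI : ExpChar (separableClosure K E) p :=
    expChar_of_injective_algebraMap (algebraMap K (separableClosure K E)).injective p
  haveI : Module.Finite P (integralClosure P (separableClosure K E)) :=
    IsIntegralClosure.finite P K (separableClosure K E) _
  haveI : IsScalarTower P (separableClosure K E) E :=
    IsScalarTower.of_algebraMap_eq fun a => by
      rw [IsScalarTower.algebraMap_apply P K E, IsScalarTower.algebraMap_apply P K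
        (separableClosure K E)]
      rfl
  let φ : E →+* separableClosure K E :=
    IsPurelyInseparable.iterateFrobenius (separableClosure K E) E p le_rfl
  have hφ : ∀ c : E, algebraMap (separableClosure K E) E (φ c) =
      c ^ p ^ IsPurelyInseparable.exponent (separableClosure K E) E := fun c =>
    IsPurelyInseparable.algebraMap_iterateFrobenius (separableClosure K E) p le_rfl c
  have hint : ∀ c : integralClosure P E, φ c ∈ integralClosure P (separableClosure K E) := by
    intro c
    have h1 : IsIntegral P (algebraMap (separableClosure K E) E (φ c)) := by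
      rw [hφ]
      exact c.2.pow _
    exact (isIntegral_algebraMap_iff (algebraMap (separableClosure K E) E).injective).1 h1
  let j : integralClosure P E →+* integralClosure P (separableClosure K E) :=
    (φ.comp (integralClosure P E).val.toRingHom).codRestrict _ hint
  refine SurA1_finite_of_hom ((algebraMap P (integralClosure P (separableClosure K E))).comp
    (iterateFrobenius P p (IsPurelyInseparable.exponent (separableClosure K E) E))) ?_ j ?_ ?_
  · refine RingHom.Finite.comp ?_ (SurA1_frobenius_finite k P p _)
    exact RingHom.finite_algebraMap.2 inferInstance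
  · intro a b hab
    have h1 : φ a = φ b := congrArg (Subtype.val : integralClosure P (separableClosure K E) → _) hab
    exact Subtype.ext (φ.injective h1)
  · intro a
    apply Subtype.ext
    apply (algebraMap (separableClosure K E) E).injective
    have h1 : algebraMap (separableClosure K E) E (φ (algebraMap P E a)) =
      algebraMap P E a ^ p ^ IsPurelyInseparable.exponent (separableClosure K E) E := hφ _
    refine h1.trans ?_
    rw [← map_pow]
    have h2 : ((algebraMap P (integralClosure P (separableClosure K E))
        (a ^ p ^ IsPurelyInseparable.exponent (separableClosure K E) E) :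
        integralClosure P (separableClosure K E)) : separableClosure K E) =
        algebraMap P (separableClosure K E)
          (a ^ p ^ IsPurelyInseparable.exponent (separableClosure K E) E) := rfl
    rw [RingHom.comp_apply, iterateFrobenius_def, h2,
      ← IsScalarTower.algebraMap_apply P (separableClosure K E) E]

open scoped nonZeroDivisors in
/-- **The integral closure of an affine domain over a perfect field in its field of fractions is
finite.** -/
theorem SurA1_integralClosure_fg (k A E : Type) [Field k] [PerfectField k] [CommRing A] [IsDomain A]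
    [Algebra k A] [Algebra.FiniteType k A] [Field E] [Algebra A E] [Algebra k E]
    [IsScalarTower k A E] [IsFractionRing A E] :
    Module.Finite A (integralClosure A E) ∧ Algebra.FiniteType k (integralClosure A E) := by
  obtain ⟨s, g, hg, hf⟩ := exists_finite_inj_algHom_of_fg k A
  letI : Algebra (MvPolynomial (Fin s) k) A := g.toRingHom.toAlgebra
  haveI : IsScalarTower k (MvPolynomial (Fin s) k) A :=
    IsScalarTower.of_algebraMap_eq fun c => (g.commutes c).symm
  haveI : Module.Finite (MvPolynomial (Fin s) k) A := hf
  haveI : FaithfulSMul (MvPolynomial (Fin s) k) A :=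
    (faithfulSMul_iff_algebraMap_injective _ _).2 hg
  letI : Algebra (MvPolynomial (Fin s) k) E :=
    ((algebraMap A E).comp (algebraMap (MvPolynomial (Fin s) k) A)).toAlgebra
  haveI : IsScalarTower (MvPolynomial (Fin s) k) A E := IsScalarTower.of_algebraMap_eq fun _ => rfl
  haveI : FaithfulSMul (MvPolynomial (Fin s) k) E :=
    (faithfulSMul_iff_algebraMap_injective _ _).2 ((IsFractionRing.injective A E).comp hg)
  haveI : IsScalarTower k (MvPolynomial (Fin s) k) E := IsScalarTower.of_algebraMap_eq fun c => by
    rw [IsScalarTower.algebraMap_apply k A E,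
      IsScalarTower.algebraMap_apply k (MvPolynomial (Fin s) k) A,
      ← IsScalarTower.algebraMap_apply (MvPolynomial (Fin s) k) A E]
  letI : Algebra (FractionRing (MvPolynomial (Fin s) k)) E :=
    FractionRing.liftAlgebra (MvPolynomial (Fin s) k) E
  haveI : IsScalarTower (MvPolynomial (Fin s) k) (FractionRing (MvPolynomial (Fin s) k)) E :=
    FractionRing.isScalarTower_liftAlgebra (MvPolynomial (Fin s) k) E
  haveI : IsLocalization (Algebra.algebraMapSubmonoid A (MvPolynomial (Fin s) k)⁰) E :=
    inferInstance
  haveI : FiniteDimensional (FractionRing (MvPolynomial (Fin s) k)) E :=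
    .of_isLocalization (MvPolynomial (Fin s) k) A (MvPolynomial (Fin s) k)⁰
  haveI h1 : Module.Finite (MvPolynomial (Fin s) k) (integralClosure (MvPolynomial (Fin s) k) E) :=
    SurA1_finite k (MvPolynomial (Fin s) k) (FractionRing (MvPolynomial (Fin s) k)) E
  haveI : Algebra.IsIntegral (MvPolynomial (Fin s) k) A := inferInstance
  -- the two integral closures agree
  have h2 : ∀ e : E, e ∈ integralClosure A E ↔ e ∈ integralClosure (MvPolynomial (Fin s) k) E :=
    fun e => ⟨fun h => isIntegral_trans (R := MvPolynomial (Fin s) k) e h,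
      fun h => IsIntegral.tower_top h⟩
  let φ : integralClosure (MvPolynomial (Fin s) k) E →ₐ[MvPolynomial (Fin s) k]
      integralClosure A E :=
    { toFun := fun e => ⟨e.1, (h2 _).2 e.2⟩
      map_one' := rfl
      map_mul' := fun _ _ => rfl
      map_zero' := rfl
      map_add' := fun _ _ => rfl
      commutes' := fun _ => rfl }
  have hφ : Surjective φ := fun e => ⟨⟨e.1, (h2 _).1 e.2⟩, rfl⟩
  haveI h3 : Module.Finite (MvPolynomial (Fin s) k) (integralClosure A E) :=
    Module.Finite.of_surjective φ.toLinearMap hφ
  haveI : IsScalarTower (MvPolynomial (Fin s) k) A (integralClosure A E) :=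
    IsScalarTower.of_algebraMap_eq fun _ => rfl
  have h4 : Module.Finite A (integralClosure A E) :=
    Module.Finite.of_restrictScalars_finite (MvPolynomial (Fin s) k) A _
  haveI : IsScalarTower k A (integralClosure A E) :=
    IsScalarTower.of_algebraMap_eq fun c => Subtype.ext (IsScalarTower.algebraMap_apply k A E c)
  exact ⟨h4, Algebra.FiniteType.trans (inferInstance : Algebra.FiniteType k A) inferInstance⟩

/-! ## The normalisation of a chart -/

section

variable {k E : Type} [Field k] [Field E] [Algebra k E]

theorem nrmA_fg [IsAlgClosed k] {C : Subalgebra k E} (hC : C.FG) (hfr : IsFractionRing C E) :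
    (nrmA C).FG := by
  haveI : Algebra.FiniteType k C := C.fg_iff_finiteType.1 hC
  exact ((nrmA C).fg_iff_finiteType).2 (SurA1_integralClosure_fg k C E).2

/-- The normalisation is finite. -/
theorem nrmA_finite [IsAlgClosed k] {C : Subalgebra k E} (hC : C.FG) (hfr : IsFractionRing C E) :
    Module.Finite C (integralClosure C E) := by
  haveI : Algebra.FiniteType k C := C.fg_iff_finiteType.1 hC
  exact (SurA1_integralClosure_fg k C E).1

theorem nchart_of_normal [IsAlgClosed k] (hE : FunF k E 2) {A : Subalgebra k E} (hA : A.FG)
    (hfr : IsFractionRing A E) (hn : IsIntegrallyClosed A) : NChart A := by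
  refine ⟨hA, hfr, hn, fun m hm => ?_⟩
  haveI : Algebra.FiniteType k A := A.fg_iff_finiteType.1 hA
  haveI : IsNoetherianRing A := Algebra.FiniteType.isNoetherianRing k A
  obtain ⟨t, ht⟩ := Pool.Agent.Lib.MP_b197b4_ntD.exists_hasDim k A
  have h1 := ht.trdeg_frac E
  rw [hE.2] at h1
  have h2 : (2 : ℕ) = t := by exact_mod_cast h1
  rw [ht.height m hm, ← h2]
  rfl

theorem SurA1_height [IsAlgClosed k] (hE : FunF k E 2) {A : Subalgebra k E} (hA : A.FG)
    (hfr : IsFractionRing A E) (m : Ideal A) (hm : m.IsMaximal) : m.height = 2 := by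
  haveI : Algebra.FiniteType k A := A.fg_iff_finiteType.1 hA
  haveI : IsNoetherianRing A := Algebra.FiniteType.isNoetherianRing k A
  obtain ⟨t, ht⟩ := Pool.Agent.Lib.MP_b197b4_ntD.exists_hasDim k A
  have h1 := ht.trdeg_frac E
  rw [hE.2] at h1
  have h2 : (2 : ℕ) = t := by exact_mod_cast h1
  rw [ht.height m hm, ← h2]
  rfl

theorem nrmA_frac {C : Subalgebra k E} (hfr : IsFractionRing C E) : IsFractionRing (nrmA C) E := by
  refine IsFractionRing.of_field _ _ fun z => ?_
  obtain ⟨a, b, hb, rfl⟩ := IsFractionRing.div_surjective (A := C) z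
  exact ⟨⟨a, le_nrmA C a.2⟩, ⟨b, le_nrmA C b.2⟩, rfl⟩

theorem nrmA_closed {C : Subalgebra k E} (hfr : IsFractionRing C E) :
    IsIntegrallyClosed (nrmA C) := by
  haveI := nrmA_frac hfr
  refine (isIntegrallyClosed_iff E).2 fun {x} hx => ?_
  have h1 : x ∈ nrmA C := by
    haveI : Algebra.IsIntegral C (integralClosure C E) := inferInstance
    have h2 : IsIntegral (integralClosure C E) x := hx
    exact isIntegral_trans (R := C) x h2
  exact ⟨⟨x, h1⟩, rfl⟩

theorem nrmA_chart [IsAlgClosed k] (hE : FunF k E 2) {C : Subalgebra k E} (hC : C.FG)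
    (hfr : IsFractionRing C E) : NChart (nrmA C) :=
  nchart_of_normal hE (nrmA_fg hC hfr) (nrmA_frac hfr) (nrmA_closed hfr)

theorem isCurve_nrmA {B : Subalgebra k E} {V : ValuationSubring E} (hV : IsCurve B V) :
    IsCurve (nrmA B) V := by
  refine ⟨hV.1, nrmA_le hV.2.1, fun x hx => ?_⟩
  obtain ⟨a, s, ha, hs, h1, h2⟩ := hV.2.2 x hx
  exact ⟨a, s, le_nrmA B ha, le_nrmA B hs, h1, h2⟩

/-- The local ring of a regular closed point of a surface. -/
theorem SurA1_loc2 [IsAlgClosed k] (hE : FunF k E 2) {B : Subalgebra k E} (hB : B.FG)
    (hfr : IsFractionRing B E) {m : Ideal B} (hm : RegMax m) {O : Subring E} (hO : IsLoc B m O) :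
    Loc2 O := by
  haveI hp := hm.1.isPrime
  letI := (hO.incl hp.ne_top).toAlgebra
  haveI := hO.isLocalization
  haveI := hm.2 hp
  have h1 : IsRegularLocalRing O := IsRegularLocalRing.of_ringEquiv
    (IsLocalization.algEquiv m.primeCompl (Localization.AtPrime m) O).toRingEquiv
  refine loc2_of_regular h1 ?_ fun x => ?_
  · rw [IsLocalization.AtPrime.ringKrullDim_eq_height m O, SurA1_height hE hB hfr m hm.1]
    rfl
  · obtain ⟨a, b, hb, rfl⟩ := IsFractionRing.div_surjective (A := B) x
    refine ⟨⟨a, hO.coe_mem hp.ne_top a⟩, ⟨b, hO.coe_mem hp.ne_top b⟩, ?_, rfl⟩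
    intro h
    exact (nonZeroDivisors.ne_zero hb) (Subtype.ext h)

theorem isLoc_nrmA [IsAlgClosed k] (hE : FunF k E 2) {B : Subalgebra k E} (hB : B.FG)
    (hfr : IsFractionRing B E) {m : Ideal B} (hm : RegMax m) {O : Subring E} (hO : IsLoc B m O) :
    ∃ m' : Ideal (nrmA B), m'.IsMaximal ∧ IsLoc (nrmA B) m' O := by
  haveI hp := hm.1.isPrime
  have hL := SurA1_loc2 hE hB hfr hm hO
  haveI := hL.ufd
  haveI hloc : IsLocalRing O := by
    letI := (hO.incl hp.ne_top).toAlgebra
    haveI := hO.isLocalization
    exact IsLocalization.AtPrime.isLocalRing O m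
  haveI : IsFractionRing O E := by
    refine IsFractionRing.of_field _ _ fun z => ?_
    obtain ⟨a, s, -, h⟩ := hL.frac z
    exact ⟨a, s, h⟩
  -- the normalisation lies in `O`
  have hle : ∀ y ∈ nrmA B, y ∈ O := by
    intro y hy
    obtain ⟨p, hpm, h0⟩ := mem_nrmA.1 hy
    have h1 : IsIntegral O y := by
      refine ⟨p.map (hO.incl hp.ne_top), hpm.map _, ?_⟩
      rw [Polynomial.eval₂_map]
      exact h0
    obtain ⟨z, hz⟩ := (IsIntegrallyClosed.isIntegral_iff (R := O) (K := E)).1 h1
    rw [← hz]
    exact z.2
  let j : nrmA B →+* O := (nrmA B).val.toRingHom.codRestrict O fun a => hle a a.2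
  haveI hprime : ((maximalIdeal O).comap j).IsPrime := Ideal.IsPrime.comap j
  have hcomap : ∀ b : B, (⟨b, le_nrmA B b.2⟩ : nrmA B) ∈ (maximalIdeal O).comap j ↔ b ∈ m := by
    intro b
    rw [Ideal.mem_comap, mem_maximalIdeal, mem_nonunits_iff]
    constructor
    · intro h
      by_contra hb
      exact h (hO.isUnit hb hp.ne_top)
    · intro hb hu
      obtain ⟨v, hv⟩ := isUnit_iff_exists_inv.1 hu
      obtain ⟨a, s, hs, h⟩ := (hO v).1 v.2
      have h1 : (b : E) * v = 1 := congrArg (Subtype.val : O → E) hv
      have hs0 : (s : E) ≠ 0 := coe_ne_zero_of_notMem hs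
      rw [h, mul_div_assoc', div_eq_one_iff_eq hs0] at h1
      exact hs (by
        have h2 : b * a = s := Subtype.ext h1
        rw [← h2]
        exact m.mul_mem_right a hb)
  refine ⟨(maximalIdeal O).comap j, ?_, ?_⟩
  · letI : Algebra B (nrmA B) := (Subalgebra.inclusion (le_nrmA B)).toRingHom.toAlgebra
    haveI : IsScalarTower B (nrmA B) E := IsScalarTower.of_algebraMap_eq fun _ => rfl
    haveI : Algebra.IsIntegral B (nrmA B) := ⟨fun y =>
      (isIntegral_algebraMap_iff (A := nrmA B) (B := E) Subtype.val_injective).1 y.2⟩
    refine Ideal.isMaximal_of_isIntegral_of_isMaximal_comap (R := B) _ ?_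
    have h1 : ((maximalIdeal O).comap j).comap (algebraMap B (nrmA B)) = m := by
      ext b
      exact hcomap b
    rw [h1]
    exact hm.1
  · intro x
    constructor
    · intro hx
      obtain ⟨a, s, hs, h⟩ := (hO x).1 hx
      exact ⟨⟨a, le_nrmA B a.2⟩, ⟨s, le_nrmA B s.2⟩, fun h' => hs ((hcomap s).1 h'), h⟩
    · rintro ⟨a, s, hs, rfl⟩
      rw [Ideal.mem_comap, mem_maximalIdeal, mem_nonunits_iff, not_not] at hs
      obtain ⟨v, hv⟩ := isUnit_iff_exists_inv.1 hs
      have h1 : (s : E) * v = 1 := congrArg (Subtype.val : O → E) hv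
      rw [div_eq_mul_inv, inv_eq_of_mul_eq_one_right h1]
      exact O.mul_mem (hle a a.2) v.2

end

end Pool.Agent.Lib.MP_b197b4_ntA
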