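import Mathlib
import Pool.Agent.Lib.MP_b197b4_ntA.Defs
import Pool.Agent.Lib.MP_b197b4_ntK.Curve

/-!
# MP_b197b4_nt, project K1-ALL: normalisation of homogeneous coordinates

For homogeneous coordinates `z` the normalisation of the projective variety is again projective:
coordinates `y` are the monomials of degree `m` in `z` and the elements `c (z i)^m`, `c` in a finite
set of generators of the integral closure of the chart `i`.
-/

set_option autoImplicit false

namespace Pool.Agent.Lib.MP_b197b4_ntA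

open IsLocalRing Pool.Agent.Lib.MP_b197b4_ntK Polynomial

variable {k E : Type} [Field k] [Field E] [Algebra k E]

/-! ## Integral elements -/

/-- `e` is integral over the subalgebra `R`, with a monic polynomial over `E`. -/
def surInt (R : Subalgebra k E) (e : E) : Prop :=
  ∃ p : E[X], p.Monic ∧ (∀ j, p.coeff j ∈ R) ∧ p.eval e = 0

theorem surInt_iff (R : Subalgebra k E) (e : E) : IsIntegral R e ↔ surInt R e := by
  constructor
  · rintro ⟨p, hp, h0⟩
    refine ⟨p.map (algebraMap R E), hp.map _, fun j => ?_, ?_⟩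
    · rw [coeff_map]; exact (p.coeff j).2
    · rw [eval_map]; exact h0
  · rintro ⟨p, hp, hc, h0⟩
    have hl : p ∈ Polynomial.lifts (algebraMap R E) := by
      rw [Polynomial.lifts_iff_coeff_lifts]
      intro j
      exact ⟨⟨p.coeff j, hc j⟩, rfl⟩
    obtain ⟨q, hq, -, hqm⟩ := Polynomial.lifts_and_degree_eq_and_monic hl hp
    refine ⟨q, hqm, ?_⟩
    rw [← eval_map, hq, h0]

/-- Integral closedness passes to overlapping charts. -/
theorem surInt_chart {R R' : Subalgebra k E} {r t : E} (hr : r ∈ R') (ht : t ∈ R) (hrt : r * t = 1)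
    (h1 : ∀ a ∈ R, ∃ n : ℕ, r ^ n * a ∈ R') (h2 : ∀ a ∈ R', ∃ n : ℕ, t ^ n * a ∈ R)
    (hn : ∀ e, surInt R' e → e ∈ R') {e : E} (he : surInt R e) : ∃ n : ℕ, t ^ n * e ∈ R := by
  classical
  obtain ⟨p, hp, hc, h0⟩ := he
  choose f hf using h1
  set N : ℕ := ∑ j ∈ Finset.range (p.natDegree + 1), f (p.coeff j) (hc j) with hN
  have hco : ∀ j, r ^ N * p.coeff j ∈ R' := by
    intro j
    by_cases hj : j < p.natDegree + 1
    · have hle : f (p.coeff j) (hc j) ≤ N :=
        Finset.single_le_sum (f := fun j => f (p.coeff j) (hc j)) (fun _ _ => Nat.zero_le _)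
          (Finset.mem_range.2 hj)
      have : r ^ N * p.coeff j
          = r ^ (N - f (p.coeff j) (hc j)) * (r ^ (f (p.coeff j) (hc j)) * p.coeff j) := by
        rw [← mul_assoc, ← pow_add, Nat.sub_add_cancel hle]
      rw [this]
      exact R'.mul_mem (R'.pow_mem hr _) (hf _ _)
    · rw [coeff_eq_zero_of_natDegree_lt (by omega), mul_zero]; exact R'.zero_mem
  have hint : surInt R' (r ^ N * e) := by
    refine ⟨p.scaleRoots (r ^ N), (monic_scaleRoots_iff _).2 hp, fun j => ?_, ?_⟩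
    · rw [coeff_scaleRoots]
      by_cases hj : j < p.natDegree
      · obtain ⟨s, hs⟩ : ∃ s, p.natDegree - j = s + 1 := ⟨p.natDegree - j - 1, by omega⟩
        rw [hs, pow_succ', ← mul_assoc, mul_comm (p.coeff j)]
        exact R'.mul_mem (hco j) (R'.pow_mem (R'.pow_mem hr _) _)
      · rcases Nat.eq_or_lt_of_le (Nat.le_of_not_lt hj) with h | h
        · rw [← h, Nat.sub_self, pow_zero, mul_one]
          have := hp.coeff_natDegree
          rw [this]; exact R'.one_mem
        · rw [coeff_eq_zero_of_natDegree_lt h, zero_mul]; exact R'.zero_mem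
    · have := Polynomial.scaleRoots_eval₂_mul (RingHom.id E) (p := p) (r := e) (s := r ^ N)
      rw [eval₂_id, RingHom.id_apply] at this
      rw [this, eval₂_id, h0, mul_zero]
  obtain ⟨n, hn'⟩ := h2 _ (hn _ hint)
  refine ⟨n, ?_⟩
  have h3 : t ^ n * e = t ^ N * (t ^ n * (r ^ N * e)) := by
    have : t ^ N * r ^ N = 1 := by rw [← mul_pow, mul_comm t, hrt, one_pow]
    calc t ^ n * e = t ^ n * e * (t ^ N * r ^ N) := by rw [this, mul_one]
      _ = t ^ N * (t ^ n * (r ^ N * e)) := by ring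
  rw [h3]
  exact R.mul_mem (R.pow_mem ht _) hn'

/-- Integral closedness is local. -/
theorem surInt_cover {R : Subalgebra k E} {ι : Type} (t : ι → E) (ht : ∀ i, t i ∈ R)
    (h1 : (⊤ : Ideal R) = Ideal.span (Set.range fun i => (⟨t i, ht i⟩ : R))) {e : E}
    (he : ∀ i, ∃ n : ℕ, t i ^ n * e ∈ R) : e ∈ R := by
  let J : Ideal R :=
    { carrier := {r | (r : E) * e ∈ R}
      add_mem' := by
        intro a b ha hb
        simp only [Set.mem_ofPred_eq] at ha hb ⊢
        rw [Subalgebra.coe_add, add_mul]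
        exact R.add_mem ha hb
      zero_mem' := by
        simp only [Set.mem_ofPred_eq, ZeroMemClass.coe_zero, zero_mul]
        exact R.zero_mem
      smul_mem' := by
        intro c a ha
        simp only [Set.mem_ofPred_eq, smul_eq_mul, Subalgebra.coe_mul] at ha ⊢
        rw [mul_assoc]
        exact R.mul_mem c.2 ha }
  have hJ : ∀ r : R, r ∈ J ↔ (r : E) * e ∈ R := fun r => Iff.rfl
  have htop : J.radical = ⊤ := by
    rw [eq_top_iff, h1, Ideal.span_le]
    rintro _ ⟨i, rfl⟩
    obtain ⟨n, hn⟩ := he i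
    refine ⟨n, ?_⟩
    rw [hJ]
    simpa using hn
  have h1J : (1 : R) ∈ J := by
    have := (Ideal.radical_eq_top.1 htop)
    rw [this]; trivial
  simpa [hJ] using h1J

theorem surInt_mem {R : Subalgebra k E} {a : E} (ha : a ∈ R) : surInt R a := by
  refine ⟨X - C a, monic_X_sub_C a, fun j => ?_, by simp⟩
  rw [coeff_sub, coeff_X, coeff_C]
  refine R.sub_mem ?_ ?_
  · split_ifs
    · exact R.one_mem
    · exact R.zero_mem
  · split_ifs
    · exact ha
    · exact R.zero_mem

/-! ## Monomials and forms -/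

section Forms

variable {ι : Type} (z : ι → E)

/-- Monomials of degree `m`. -/
def surMono (m : ℕ) (α : Fin m → ι) : E := ∏ t, z (α t)

variable (k) in
/-- Forms of degree `m`. -/
def surFrm (m : ℕ) : Submodule k E := Submodule.span k (Set.range (surMono z m))

theorem surMono_mem (m : ℕ) (α : Fin m → ι) : surMono z m α ∈ surFrm k z m :=
  Submodule.subset_span ⟨α, rfl⟩

theorem surMono_const (m : ℕ) (i : ι) : surMono z m (fun _ => i) = z i ^ m := by
  simp [surMono]

theorem surFrm_pow (m : ℕ) (i : ι) : z i ^ m ∈ surFrm k z m := by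
  rw [← surMono_const z m i]; exact surMono_mem z m _

theorem surFrm_mul {m n : ℕ} {a b : E} (ha : a ∈ surFrm k z m) (hb : b ∈ surFrm k z n) :
    a * b ∈ surFrm k z (m + n) := by
  have h1 : surFrm k z m * surFrm k z n ≤ surFrm k z (m + n) := by
    rw [surFrm, surFrm, Submodule.span_mul_span, Submodule.span_le]
    rintro _ ⟨_, ⟨α, rfl⟩, _, ⟨β, rfl⟩, rfl⟩
    have : surMono z m α * surMono z n β = surMono z (m + n) (Fin.append α β) := by
      simp [surMono, Fin.prod_univ_add]
    simp only [SetLike.mem_coe]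
    rw [this]
    exact surMono_mem z _ _
  exact h1 (Submodule.mul_mem_mul ha hb)

variable (k) in
/-- The chart of the coordinates `z` at `s`. -/
def surCh (s : E) : Subalgebra k E := Algebra.adjoin k (Set.range fun j => z j / s)

theorem surCh_mem (s : E) (j : ι) : z j / s ∈ surCh k z s :=
  Algebra.subset_adjoin ⟨j, rfl⟩

theorem surCh_clear (hz : ∀ i, z i ≠ 0) (i : ι) {a : E} (ha : a ∈ surCh k z (z i)) :
    ∃ D : ℕ, ∀ m ≥ D, z i ^ m * a ∈ surFrm k z m := by
  refine Algebra.adjoin_induction (p := fun a _ => ∃ D : ℕ, ∀ m ≥ D, z i ^ m * a ∈ surFrm k z m)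
    ?_ ?_ ?_ ?_ ha
  · rintro _ ⟨j, rfl⟩
    refine ⟨1, fun m hm => ?_⟩
    obtain ⟨m, rfl⟩ : ∃ s, m = 1 + s := ⟨m - 1, by omega⟩
    have h1 : z i ^ (1 + m) * (z j / z i) = z j ^ 1 * z i ^ m := by
      have := hz i
      field_simp
      ring
    rw [h1]
    exact surFrm_mul z (surFrm_pow z 1 j) (surFrm_pow z m i)
  · intro c
    refine ⟨0, fun m _ => ?_⟩
    rw [mul_comm, ← Algebra.smul_def]
    exact Submodule.smul_mem _ _ (surFrm_pow z m i)
  · rintro a b _ _ ⟨D, hD⟩ ⟨D', hD'⟩
    refine ⟨max D D', fun m hm => ?_⟩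
    rw [mul_add]
    exact Submodule.add_mem _ (hD m (le_trans (le_max_left _ _) hm))
      (hD' m (le_trans (le_max_right _ _) hm))
  · rintro a b _ _ ⟨D, hD⟩ ⟨D', hD'⟩
    refine ⟨D + D', fun m hm => ?_⟩
    obtain ⟨m, rfl⟩ : ∃ s, m = D + (D' + s) := ⟨m - (D + D'), by omega⟩
    have h1 : z i ^ (D + (D' + m)) * (a * b) = (z i ^ D * a) * (z i ^ (D' + m) * b) := by ring
    rw [h1]
    exact surFrm_mul z (hD D le_rfl) (hD' _ (by omega))

theorem surFrm_div (m : ℕ) {s a : E} (ha : a ∈ surFrm k z m) : a / s ^ m ∈ surCh k z s := by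
  refine Submodule.span_induction (p := fun a _ => a / s ^ m ∈ surCh k z s) ?_ ?_ ?_ ?_ ha
  · rintro _ ⟨α, rfl⟩
    have h1 : surMono z m α / s ^ m = ∏ t, (z (α t) / s) := by
      rw [surMono, Finset.prod_div_distrib]; simp
    rw [h1]
    exact Subalgebra.prod_mem _ fun t _ => surCh_mem z s _
  · rw [zero_div]; exact Subalgebra.zero_mem _
  · intro a b _ _ h h'
    rw [add_div]; exact Subalgebra.add_mem _ h h'
  · intro c a _ h
    rw [Algebra.smul_def, mul_div_assoc]
    exact Subalgebra.mul_mem _ (Subalgebra.algebraMap_mem _ _) h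

end Forms

/-! ## The new coordinates -/

section New

variable {ι : Type} (z : ι → E) (G : ι → Finset E)

/-- The new coordinates. -/
def surY (m : ℕ) : (Fin m → ι) ⊕ (Σ i, {c // c ∈ G i}) → E
  | Sum.inl α => surMono z m α
  | Sum.inr q => q.2.1 * z q.1 ^ m

variable {z G} {m : ℕ}

theorem surY_ne (hz : ∀ i, z i ≠ 0) (hG0 : ∀ i, ∀ c ∈ G i, c ≠ 0)
    (j : (Fin m → ι) ⊕ (Σ i, {c // c ∈ G i})) : surY z G m j ≠ 0 := by
  rcases j with α | ⟨i, c, hc⟩
  · change surMono z m α ≠ 0
    rw [surMono]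
    exact Finset.prod_ne_zero_iff.2 fun t _ => hz _
  · exact mul_ne_zero (hG0 i c hc) (pow_ne_zero _ (hz i))

theorem surY_int
    (hP : ∀ i, ∀ c ∈ G i, ∃ p : E[X], p.Monic ∧
      (∀ j, j < p.natDegree → z i ^ m * p.coeff j ∈ surFrm k z m) ∧ p.eval c = 0)
    (i : ι) (j : (Fin m → ι) ⊕ (Σ i, {c // c ∈ G i})) :
    surInt (surCh k z (z i)) (surY z G m j / z i ^ m) := by
  rcases j with α | ⟨l, c, hc⟩
  · exact surInt_mem (surFrm_div z m (surMono_mem z m α))
  · obtain ⟨p, hp, hco, h0⟩ := hP l c hc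
    have ht : (z l / z i) ^ m ∈ surCh k z (z i) := Subalgebra.pow_mem _ (surCh_mem z _ l) m
    refine ⟨p.scaleRoots ((z l / z i) ^ m), (monic_scaleRoots_iff _).2 hp, fun j => ?_, ?_⟩
    · rw [coeff_scaleRoots]
      by_cases hj : j < p.natDegree
      · obtain ⟨s, hs⟩ : ∃ s, p.natDegree - j = s + 1 := ⟨p.natDegree - j - 1, by omega⟩
        have h1 : p.coeff j * ((z l / z i) ^ m) ^ (p.natDegree - j)
            = (z l ^ m * p.coeff j) / z i ^ m * ((z l / z i) ^ m) ^ s := by
          rw [hs, pow_succ', div_pow]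
          ring
        rw [h1]
        exact Subalgebra.mul_mem _ (surFrm_div z m (hco j hj)) (Subalgebra.pow_mem _ ht s)
      · rcases Nat.eq_or_lt_of_le (Nat.le_of_not_lt hj) with h | h
        · rw [← h, Nat.sub_self, pow_zero, mul_one, hp.coeff_natDegree]
          exact Subalgebra.one_mem _
        · rw [coeff_eq_zero_of_natDegree_lt h, zero_mul]; exact Subalgebra.zero_mem _
    · have h1 := Polynomial.scaleRoots_eval₂_mul (RingHom.id E) (p := p) (r := c)
        (s := (z l / z i) ^ m)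
      rw [eval₂_id, RingHom.id_apply] at h1
      have h2 : surY z G m (Sum.inr ⟨l, c, hc⟩) / z i ^ m = (z l / z i) ^ m * c := by
        simp only [surY, div_pow]
        ring
      rw [h2, h1, eval₂_id, h0, mul_zero]

/-- The chart at `(z i)^m` is the integral closure of the chart `i` of `z`. -/
theorem surY_chart (hz : ∀ i, z i ≠ 0)
    (hG : ∀ i e, e ∈ Algebra.adjoin k (G i : Set E) ↔ surInt (surCh k z (z i)) e)
    (hP : ∀ i, ∀ c ∈ G i, ∃ p : E[X], p.Monic ∧
      (∀ j, j < p.natDegree → z i ^ m * p.coeff j ∈ surFrm k z m) ∧ p.eval c = 0) (i : ι) :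
    surCh k (surY z G m) (z i ^ m) = Algebra.adjoin k (G i : Set E) := by
  apply le_antisymm
  · rw [surCh, Algebra.adjoin_le_iff]
    rintro _ ⟨j, rfl⟩
    exact (hG i _).2 (surY_int hP i j)
  · rw [Algebra.adjoin_le_iff]
    intro c hc
    have h1 : surY z G m (Sum.inr ⟨i, c, hc⟩) / z i ^ m = c := by
      simp only [surY]
      exact mul_div_cancel_right₀ _ (pow_ne_zero _ (hz i))
    have h2 := surCh_mem (k := k) (surY z G m) (z i ^ m) (Sum.inr ⟨i, c, hc⟩)
    rw [h1] at h2
    exact h2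

/-- Change of chart. -/
theorem surCh_change {κ : Type} (y : κ → E) {s s' : E} (hs : s ≠ 0) (hs' : s' ≠ 0)
    (h : s' / s ∈ surCh k y s) {a : E} (ha : a ∈ surCh k y s') :
    ∃ n : ℕ, (s' / s) ^ n * a ∈ surCh k y s := by
  refine Algebra.adjoin_induction (p := fun a _ => ∃ n : ℕ, (s' / s) ^ n * a ∈ surCh k y s)
    ?_ ?_ ?_ ?_ ha
  · rintro _ ⟨j, rfl⟩
    refine ⟨1, ?_⟩
    have h1 : (s' / s) ^ 1 * (y j / s') = y j / s := by field_simp
    simp only [h1]
    exact surCh_mem y s j
  · intro c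
    exact ⟨0, by rw [pow_zero, one_mul]; exact Subalgebra.algebraMap_mem _ _⟩
  · rintro a b _ _ ⟨n, hn⟩ ⟨n', hn'⟩
    refine ⟨n + n', ?_⟩
    have h1 : (s' / s) ^ (n + n') * (a + b)
        = (s' / s) ^ n' * ((s' / s) ^ n * a) + (s' / s) ^ n * ((s' / s) ^ n' * b) := by ring
    rw [h1]
    exact Subalgebra.add_mem _ (Subalgebra.mul_mem _ (Subalgebra.pow_mem _ h _) hn)
      (Subalgebra.mul_mem _ (Subalgebra.pow_mem _ h _) hn')
  · rintro a b _ _ ⟨n, hn⟩ ⟨n', hn'⟩
    refine ⟨n + n', ?_⟩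
    have h1 : (s' / s) ^ (n + n') * (a * b) = ((s' / s) ^ n * a) * ((s' / s) ^ n' * b) := by ring
    rw [h1]
    exact Subalgebra.mul_mem _ hn hn'

theorem surInt_idem {C R : Subalgebra k E} (hR : ∀ e, e ∈ R ↔ surInt C e) {e : E}
    (he : surInt R e) : e ∈ R := by
  obtain ⟨p, hp, hc, h0⟩ := he
  have hl : p ∈ Polynomial.lifts (algebraMap (integralClosure C E) E) := by
    rw [Polynomial.lifts_iff_coeff_lifts]
    intro j
    exact ⟨⟨p.coeff j, (surInt_iff C _).2 ((hR _).1 (hc j))⟩, rfl⟩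
  obtain ⟨q, hq, -, hqm⟩ := Polynomial.lifts_and_degree_eq_and_monic hl hp
  have h1 : IsIntegral (integralClosure C E) e := by
    refine ⟨q, hqm, ?_⟩
    rw [← eval_map, hq, h0]
  exact (hR _).2 ((surInt_iff C _).1 (isIntegral_trans _ h1))

/-- The charts at the monomials are integrally closed. -/
theorem surY_normal_mono (hz : ∀ i, z i ≠ 0) (hm : 0 < m)
    (hG : ∀ i e, e ∈ Algebra.adjoin k (G i : Set E) ↔ surInt (surCh k z (z i)) e)
    (hP : ∀ i, ∀ c ∈ G i, ∃ p : E[X], p.Monic ∧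
      (∀ j, j < p.natDegree → z i ^ m * p.coeff j ∈ surFrm k z m) ∧ p.eval c = 0)
    (α : Fin m → ι) {e : E} (he : surInt (surCh k (surY z G m) (surMono z m α)) e) :
    e ∈ surCh k (surY z G m) (surMono z m α) := by
  obtain ⟨m, rfl⟩ : ∃ s, m = s + 1 := ⟨m - 1, by omega⟩
  set i : ι := α 0 with hi
  set β : Fin m → ι := Fin.tail α with hβ
  have hα : α = Fin.cons i β := (Fin.cons_self_tail α).symm
  have hcons : ∀ j, surMono z (m + 1) (Fin.cons j β) = z j * surMono z m β := by
    intro j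
    rw [surMono, Fin.prod_univ_succ]
    simp [surMono]
  have hβ0 : surMono z m β ≠ 0 := by
    rw [surMono]; exact Finset.prod_ne_zero_iff.2 fun t _ => hz _
  have hα0 : surMono z (m + 1) α ≠ 0 := by
    rw [surMono]; exact Finset.prod_ne_zero_iff.2 fun t _ => hz _
  have hch := surY_chart hz hG hP i
  have hr : surMono z (m + 1) α / z i ^ (m + 1) ∈ surCh k (surY z G (m + 1)) (z i ^ (m + 1)) :=
    surCh_mem (surY z G (m + 1)) _ (Sum.inl α)
  have ht : z i ^ (m + 1) / surMono z (m + 1) α ∈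
      surCh k (surY z G (m + 1)) (surMono z (m + 1) α) := by
    have := surCh_mem (k := k) (surY z G (m + 1)) (surMono z (m + 1) α) (Sum.inl fun _ => i)
    simp only [surY] at this
    rw [surMono_const] at this
    exact this
  have hzi : z i ^ (m + 1) ≠ 0 := pow_ne_zero _ (hz i)
  obtain ⟨n, hn⟩ := surInt_chart hr ht (by field_simp)
    (fun a ha => surCh_change _ hzi hα0 hr ha) (fun a ha => surCh_change _ hα0 hzi ht ha)
    (fun e he => surInt_idem (C := surCh k z (z i))
      (fun e => by rw [hch]; exact hG i e) he) he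
  -- the chart contains the chart `i` of `z`
  have hle : surCh k z (z i) ≤ surCh k (surY z G (m + 1)) (surMono z (m + 1) α) := by
    rw [surCh, Algebra.adjoin_le_iff]
    rintro _ ⟨j, rfl⟩
    have h1 : z j / z i = surMono z (m + 1) (Fin.cons j β) / surMono z (m + 1) α := by
      rw [hα, hcons, hcons]
      have := hz i
      field_simp
    have h2 := surCh_mem (k := k) (surY z G (m + 1)) (surMono z (m + 1) α)
      (Sum.inl (Fin.cons j β))
    simp only [surY] at h2
    simp only [SetLike.mem_coe]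
    rw [h1]
    exact h2
  have hr' : surMono z (m + 1) α / z i ^ (m + 1) ∈
      surCh k (surY z G (m + 1)) (surMono z (m + 1) α) :=
    hle (surFrm_div z (m + 1) (surMono_mem z _ α))
  have h3 : e = (surMono z (m + 1) α / z i ^ (m + 1)) ^ n *
      ((z i ^ (m + 1) / surMono z (m + 1) α) ^ n * e) := by
    rw [← mul_assoc, ← mul_pow]
    have : surMono z (m + 1) α / z i ^ (m + 1) * (z i ^ (m + 1) / surMono z (m + 1) α) = 1 := by
      field_simp
    rw [this, one_pow, one_mul]
  rw [h3]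
  exact Subalgebra.mul_mem _ (Subalgebra.pow_mem _ hr' _) hn

/-- The monomials have no common zero. -/
theorem surY_unit (hz : ∀ i, z i ≠ 0) (hG0 : ∀ i, ∀ c ∈ G i, c ≠ 0)
    (hP : ∀ i, ∀ c ∈ G i, ∃ p : E[X], p.Monic ∧
      (∀ j, j < p.natDegree → z i ^ m * p.coeff j ∈ surFrm k z m) ∧ p.eval c = 0)
    (l : (Fin m → ι) ⊕ (Σ i, {c // c ∈ G i})) :
    (⊤ : Ideal (surCh k (surY z G m) (surY z G m l))) =
      Ideal.span (Set.range fun α : Fin m → ι =>
        (⟨surMono z m α / surY z G m l, surCh_mem (surY z G m) _ (Sum.inl α)⟩ :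
          surCh k (surY z G m) (surY z G m l))) := by
  symm
  rw [Ideal.eq_top_iff_one]
  set J := Ideal.span (Set.range fun α : Fin m → ι =>
        (⟨surMono z m α / surY z G m l, surCh_mem (surY z G m) _ (Sum.inl α)⟩ :
          surCh k (surY z G m) (surY z G m l))) with hJ
  have hmem : ∀ a ∈ surFrm k z m, ∃ r ∈ J, (r : E) = a / surY z G m l := by
    intro a ha
    refine Submodule.span_induction (p := fun a _ => ∃ r ∈ J, (r : E) = a / surY z G m l)
      ?_ ?_ ?_ ?_ ha
    · rintro _ ⟨α, rfl⟩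
      exact ⟨_, Ideal.subset_span ⟨α, rfl⟩, rfl⟩
    · exact ⟨0, J.zero_mem, by simp⟩
    · rintro a b _ _ ⟨r, hr, h⟩ ⟨r', hr', h'⟩
      exact ⟨r + r', J.add_mem hr hr', by rw [Subalgebra.coe_add, h, h', add_div]⟩
    · rintro c a _ ⟨r, hr, h⟩
      refine ⟨algebraMap k _ c * r, J.mul_mem_left _ hr, ?_⟩
      rw [Subalgebra.coe_mul, h, Algebra.smul_def, mul_div_assoc]
      rfl
  rcases l with β | ⟨i, c, hc⟩
  · obtain ⟨r, hr, h⟩ := hmem _ (surMono_mem z m β)
    have h1 : r = 1 := by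
      apply Subtype.ext
      rw [h]
      exact div_self (surY_ne hz hG0 (Sum.inl β))
    rw [← h1]; exact hr
  · obtain ⟨p, hp, hco, h0⟩ := hP i c hc
    have hc0 : c ≠ 0 := hG0 i c hc
    have hzi : z i ^ m ≠ 0 := pow_ne_zero _ (hz i)
    have hsv : surY z G m (Sum.inr ⟨i, c, hc⟩) = c * z i ^ m := rfl
    have hu : z i ^ m / surY z G m (Sum.inr ⟨i, c, hc⟩) ∈
        surCh k (surY z G m) (surY z G m (Sum.inr ⟨i, c, hc⟩)) := by
      have := surCh_mem (k := k) (surY z G m) (surY z G m (Sum.inr ⟨i, c, hc⟩))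
        (Sum.inl fun _ => i)
      have h9 : surY z G m (Sum.inl fun _ => i) = z i ^ m := surMono_const z m i
      rw [h9] at this
      exact this
    have huc : z i ^ m / surY z G m (Sum.inr ⟨i, c, hc⟩) = c⁻¹ := by
      rw [hsv]; field_simp
    choose f hfJ hfv using hmem
    have h1 : (1 : surCh k (surY z G m) (surY z G m (Sum.inr ⟨i, c, hc⟩))) =
        -(∑ j ∈ (Finset.range p.natDegree).attach,
        (⟨z i ^ m / surY z G m (Sum.inr ⟨i, c, hc⟩), hu⟩ :
          surCh k (surY z G m) (surY z G m (Sum.inr ⟨i, c, hc⟩))) ^ (p.natDegree - j - 1) *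
          f _ (hco j (Finset.mem_range.1 j.2))) := by
      apply Subtype.ext
      have h2 : p.eval c = ∑ j ∈ (Finset.range p.natDegree).attach, p.coeff j * c ^ (j : ℕ)
          + c ^ p.natDegree := by
        rw [eval_eq_sum_range, Finset.sum_range_succ, hp.coeff_natDegree, one_mul,
          Finset.sum_attach (Finset.range p.natDegree) fun j => p.coeff j * c ^ j]
      rw [h0] at h2
      have h3 : (1 : E) = -(∑ j ∈ (Finset.range p.natDegree).attach,
          (c⁻¹) ^ (p.natDegree - j - 1) *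
            (z i ^ m * p.coeff j / surY z G m (Sum.inr ⟨i, c, hc⟩))) := by
        have h4 : c ^ p.natDegree * (c⁻¹) ^ p.natDegree = 1 := by
          rw [← mul_pow, mul_inv_cancel₀ hc0, one_pow]
        have h5 : c ^ p.natDegree =
            -(∑ j ∈ (Finset.range p.natDegree).attach, p.coeff j * c ^ (j : ℕ)) := by
          rw [eq_neg_iff_add_eq_zero, add_comm]; exact h2.symm
        calc (1 : E) = c ^ p.natDegree * (c⁻¹) ^ p.natDegree := h4.symm
          _ = -(∑ j ∈ (Finset.range p.natDegree).attach,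
                p.coeff j * c ^ (j : ℕ) * (c⁻¹) ^ p.natDegree) := by
              rw [h5, neg_mul, Finset.sum_mul]
          _ = _ := by
              congr 1
              refine Finset.sum_congr rfl fun j _ => ?_
              have hj : (j : ℕ) < p.natDegree := Finset.mem_range.1 j.2
              obtain ⟨q, hq⟩ : ∃ q, p.natDegree = j + 1 + q := ⟨p.natDegree - j - 1, by omega⟩
              have e1 : p.natDegree - j - 1 = q := by omega
              have e0 : (c⁻¹) ^ p.natDegree = (c⁻¹) ^ ((j : ℕ) + 1 + q) :=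
                congrArg (fun t => (c⁻¹) ^ t) hq
              rw [e1, hsv, e0, pow_add, pow_add, pow_one]
              have e2 : c ^ (j : ℕ) * (c⁻¹) ^ (j : ℕ) = 1 := by
                rw [← mul_pow, mul_inv_cancel₀ hc0, one_pow]
              have e3 : z i ^ m * p.coeff j / (c * z i ^ m) = p.coeff j * c⁻¹ := by
                field_simp
              rw [e3]
              linear_combination (p.coeff j * c⁻¹ * (c⁻¹) ^ q) * e2
      rw [Subalgebra.coe_neg, AddSubmonoidClass.coe_finsetSum]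
      simp only [Subalgebra.coe_mul, Subalgebra.coe_pow, hfv, huc, Subalgebra.coe_one]
      exact h3
    rw [h1]
    refine J.neg_mem (J.sum_mem fun j _ => J.mul_mem_left _ (hfJ _ _))

/-- All charts are integrally closed. -/
theorem surY_normal (hz : ∀ i, z i ≠ 0) (hm : 0 < m) (hG0 : ∀ i, ∀ c ∈ G i, c ≠ 0)
    (hG : ∀ i e, e ∈ Algebra.adjoin k (G i : Set E) ↔ surInt (surCh k z (z i)) e)
    (hP : ∀ i, ∀ c ∈ G i, ∃ p : E[X], p.Monic ∧
      (∀ j, j < p.natDegree → z i ^ m * p.coeff j ∈ surFrm k z m) ∧ p.eval c = 0)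
    (l : (Fin m → ι) ⊕ (Σ i, {c // c ∈ G i})) {e : E}
    (he : surInt (surCh k (surY z G m) (surY z G m l)) e) :
    e ∈ surCh k (surY z G m) (surY z G m l) := by
  refine surInt_cover (fun α : Fin m → ι => surMono z m α / surY z G m l)
    (fun α => surCh_mem (surY z G m) _ (Sum.inl α)) (surY_unit hz hG0 hP l) fun α => ?_
  have hl0 := surY_ne hz hG0 l
  have hα0 : surMono z m α ≠ 0 := by
    rw [surMono]; exact Finset.prod_ne_zero_iff.2 fun t _ => hz _
  have hr : surY z G m l / surMono z m α ∈ surCh k (surY z G m) (surMono z m α) :=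
    surCh_mem (surY z G m) _ l
  have ht : surMono z m α / surY z G m l ∈ surCh k (surY z G m) (surY z G m l) :=
    surCh_mem (surY z G m) _ (Sum.inl α)
  exact surInt_chart hr ht (by field_simp) (fun a ha => surCh_change _ hα0 hl0 hr ha)
    (fun a ha => surCh_change _ hl0 hα0 ht ha) (fun e he => surY_normal_mono hz hm hG hP α he) he

theorem const_div {V : ValuationSubring E} (hV : Over k V) {a b : E} (ha : a ∈ V)
    (hb : V.valuation b = 1) (hca : Const k V a) (hcb : Const k V b) :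
    a / b ∈ V ∧ Const k V (a / b) := by
  obtain ⟨c, hc⟩ := hca
  obtain ⟨d, hd⟩ := hcb
  have h1 : V.valuation (algebraMap k E d) = 1 := by
    rw [← res_ne_zero_iff (hV d), ← hd, res_ne_zero_iff (mem_of_val_one hb)]
    exact hb
  have h2 : V.valuation b⁻¹ = 1 := by rw [map_inv₀, hb, inv_one]
  refine ⟨?_, c / d, ?_⟩
  · rw [div_eq_mul_inv]
    exact mul_mem ha (mem_of_val_one h2)
  · rw [res_div ha hb, map_div₀, res_div (hV c) h1, hc, hd]

/-- A closed point of the new projective variety lies over a closed point of the old one. -/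
theorem surY_cen (hz : ∀ i, z i ≠ 0) (hm : 0 < m) (hG0 : ∀ i, ∀ c ∈ G i, c ≠ 0)
    (hP : ∀ i, ∀ c ∈ G i, ∃ p : E[X], p.Monic ∧
      (∀ j, j < p.natDegree → z i ^ m * p.coeff j ∈ surFrm k z m) ∧ p.eval c = 0)
    (l : (Fin m → ι) ⊕ (Σ i, {c // c ∈ G i})) {V : ValuationSubring E} (hVk : Over k V)
    (hV : ∀ j, surY z G m j / surY z G m l ∈ V ∧ Const k V (surY z G m j / surY z G m l)) :
    ∃ i, ∀ j, z j / z i ∈ V ∧ Const k V (z j / z i) := by
  have hl0 := surY_ne hz hG0 l
  have hVR : ∀ a ∈ surCh k (surY z G m) (surY z G m l), a ∈ V := by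
    intro a ha
    refine Algebra.adjoin_induction (p := fun a _ => a ∈ V) ?_ ?_ ?_ ?_ ha
    · rintro _ ⟨j, rfl⟩
      exact (hV j).1
    · exact fun c => hVk c
    · exact fun a b _ _ h h' => V.add_mem _ _ h h'
    · exact fun a b _ _ h h' => V.mul_mem _ _ h h'
  obtain ⟨P, hPp, hPv⟩ := exists_primeOf hVR
  have hex : ∃ α : Fin m → ι, V.valuation (surMono z m α / surY z G m l) = 1 := by
    by_contra hcon
    push Not at hcon
    apply hPp.ne_top
    rw [eq_top_iff, surY_unit hz hG0 hP l, Ideal.span_le]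
    rintro _ ⟨α, rfl⟩
    have h1 : V.valuation (surMono z m α / surY z G m l) ≤ 1 :=
      (ValuationSubring.valuation_le_one_iff V _).2 (hV (Sum.inl α)).1
    exact (hPv _).2 (lt_of_le_of_ne h1 (hcon α))
  obtain ⟨α, hα⟩ := hex
  have hα0 : surMono z m α ≠ 0 := by
    rw [surMono]; exact Finset.prod_ne_zero_iff.2 fun t _ => hz _
  have key : ∀ j, surY z G m j / surMono z m α ∈ V ∧ Const k V (surY z G m j / surMono z m α) := by
    intro j
    have h1 : surY z G m j / surMono z m α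
        = (surY z G m j / surY z G m l) / (surMono z m α / surY z G m l) := by
      field_simp
    rw [h1]
    exact const_div hVk (hV j).1 hα (hV j).2 (hV (Sum.inl α)).2
  obtain ⟨m, rfl⟩ : ∃ s, m = s + 1 := ⟨m - 1, by omega⟩
  refine ⟨α 0, fun j => ?_⟩
  have hcons : ∀ j, surMono z (m + 1) (Fin.cons j (Fin.tail α)) = z j * surMono z m (Fin.tail α) := by
    intro j
    rw [surMono, Fin.prod_univ_succ]
    simp [surMono]
  have hβ0 : surMono z m (Fin.tail α) ≠ 0 := by
    rw [surMono]; exact Finset.prod_ne_zero_iff.2 fun t _ => hz _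
  have h1 : z j / z (α 0) = surY z G (m + 1) (Sum.inl (Fin.cons j (Fin.tail α))) /
      surMono z (m + 1) α := by
    have h2 : surMono z (m + 1) α = z (α 0) * surMono z m (Fin.tail α) := by
      rw [← hcons, Fin.cons_self_tail]
    rw [h2]
    change z j / z (α 0) = surMono z (m + 1) (Fin.cons j (Fin.tail α)) / _
    rw [hcons]
    have := hz (α 0)
    field_simp
  rw [h1]
  exact key _

end New

/-! ## The result -/

/-- Fractions in the charts. -/
theorem surCh_frac {κ : Type} (y : κ → E) (hy : ∀ j, y j ≠ 0) (i₀ : κ)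
    (h : ∀ e : E, ∃ a ∈ surCh k y (y i₀), ∃ b ∈ surCh k y (y i₀), b ≠ 0 ∧ e = a / b) (i : κ) (e : E) :
    ∃ a ∈ surCh k y (y i), ∃ b ∈ surCh k y (y i), b ≠ 0 ∧ e = a / b := by
  obtain ⟨a, ha, b, hb, hb0, rfl⟩ := h e
  have hr : y i₀ / y i ∈ surCh k y (y i) := surCh_mem y _ i₀
  obtain ⟨n, hn⟩ := surCh_change y (hy i) (hy i₀) hr ha
  obtain ⟨n', hn'⟩ := surCh_change y (hy i) (hy i₀) hr hb
  have hne : y i₀ / y i ≠ 0 := div_ne_zero (hy _) (hy _)
  refine ⟨(y i₀ / y i) ^ n' * ((y i₀ / y i) ^ n * a), Subalgebra.mul_mem _ (Subalgebra.pow_mem _ hr _) hn,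
    (y i₀ / y i) ^ n * ((y i₀ / y i) ^ n' * b), Subalgebra.mul_mem _ (Subalgebra.pow_mem _ hr _) hn',
    mul_ne_zero (pow_ne_zero _ hne) (mul_ne_zero (pow_ne_zero _ hne) hb0), ?_⟩
  have h1 := pow_ne_zero n hne
  have h2 := pow_ne_zero n' hne
  rw [eq_comm, div_eq_div_iff (mul_ne_zero h1 (mul_ne_zero h2 hb0)) hb0]
  ring

/-- **Normalisation of homogeneous coordinates.** -/
theorem exists_norm_coords {ι : Type} [Fintype ι] [Nonempty ι] (z : ι → E) (hz : ∀ i, z i ≠ 0)
    (hfg : ∀ i, ∃ g : Finset E,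
      ∀ e, e ∈ Algebra.adjoin k (g : Set E) ↔ surInt (surCh k z (z i)) e) :
    ∃ (M : ℕ) (y : Fin (M + 1) → E), (∀ l, y l ≠ 0) ∧
      (∀ l e, surInt (surCh k y (y l)) e → e ∈ surCh k y (y l)) ∧
      (∀ i, ∃ l, ∀ e, e ∈ surCh k y (y l) ↔ surInt (surCh k z (z i)) e) ∧
      ∀ l, ∀ V : ValuationSubring E, Over k V →
        (∀ j, y j / y l ∈ V ∧ Const k V (y j / y l)) →
        ∃ i, ∀ j, z j / z i ∈ V ∧ Const k V (z j / z i) := by
  classical
  choose g hg using hfg
  -- generators different from zero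
  let G : ι → Finset E := fun i => (g i).filter fun c => c ≠ 0
  have hG0 : ∀ i, ∀ c ∈ G i, c ≠ 0 := fun i c hc => (Finset.mem_filter.1 hc).2
  have hadj : ∀ i, Algebra.adjoin k (G i : Set E) = Algebra.adjoin k (g i : Set E) := by
    intro i
    apply le_antisymm
    · exact Algebra.adjoin_mono fun c hc => (Finset.mem_filter.1 hc).1
    · rw [Algebra.adjoin_le_iff]
      intro c hc
      by_cases h0 : c = 0
      · rw [h0]; exact Subalgebra.zero_mem _
      · exact Algebra.subset_adjoin (Finset.mem_filter.2 ⟨hc, h0⟩)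
  have hG : ∀ i e, e ∈ Algebra.adjoin k (G i : Set E) ↔ surInt (surCh k z (z i)) e := by
    intro i e
    rw [hadj]
    exact hg i e
  -- equations and the degree `m`
  have hpol : ∀ i, ∀ c ∈ G i, ∃ (p : E[X]) (D : ℕ), p.Monic ∧ p.eval c = 0 ∧
      ∀ m ≥ D, ∀ j, z i ^ m * p.coeff j ∈ surFrm k z m := by
    intro i c hc
    obtain ⟨p, hp, hco, h0⟩ := (hG i c).1 (Algebra.subset_adjoin hc)
    choose D hD using fun j => surCh_clear z hz i (hco j)
    refine ⟨p, ∑ j ∈ Finset.range (p.natDegree + 1), D j, hp, h0, fun m hm j => ?_⟩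
    by_cases hj : j < p.natDegree + 1
    · refine hD j m (le_trans ?_ hm)
      exact Finset.single_le_sum (f := D) (fun _ _ => Nat.zero_le _) (Finset.mem_range.2 hj)
    · rw [coeff_eq_zero_of_natDegree_lt (by omega), mul_zero]
      exact Submodule.zero_mem _
  choose! p D hp h0 hD using hpol
  set m : ℕ := (∑ i, ∑ c ∈ G i, D i c) + 1 with hmdef
  have hm : 0 < m := Nat.succ_pos _
  have hmD : ∀ i, ∀ c ∈ G i, D i c ≤ m := by
    intro i c hc
    have h1 : D i c ≤ ∑ c ∈ G i, D i c :=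
      Finset.single_le_sum (f := fun c => D i c) (fun _ _ => Nat.zero_le _) hc
    have h2 : ∑ c ∈ G i, D i c ≤ ∑ i, ∑ c ∈ G i, D i c :=
      Finset.single_le_sum (f := fun i => ∑ c ∈ G i, D i c) (fun _ _ => Nat.zero_le _)
        (Finset.mem_univ i)
    omega
  have hP : ∀ i, ∀ c ∈ G i, ∃ p : E[X], p.Monic ∧
      (∀ j, j < p.natDegree → z i ^ m * p.coeff j ∈ surFrm k z m) ∧ p.eval c = 0 :=
    fun i c hc => ⟨p i c, hp i c hc, fun j _ => hD i c hc m (hmD i c hc) j, h0 i c hc⟩
  -- numbering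
  let κ := (Fin m → ι) ⊕ (Σ i, {c // c ∈ G i})
  have : Nonempty κ := ⟨Sum.inl fun _ => Classical.arbitrary ι⟩
  obtain ⟨M, hM⟩ : ∃ M, Fintype.card κ = M + 1 :=
    ⟨Fintype.card κ - 1, by have := Fintype.card_pos (α := κ); omega⟩
  let e : Fin (M + 1) ≃ κ := (finCongr hM.symm).trans (Fintype.equivFin κ).symm
  have hch : ∀ s : E, surCh k (fun l => surY z G m (e l)) s = surCh k (surY z G m) s := by
    intro s
    rw [surCh, surCh]
    congr 1
    ext a
    constructor
    · rintro ⟨j, rfl⟩; exact ⟨e j, rfl⟩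
    · rintro ⟨j, rfl⟩; exact ⟨e.symm j, by simp⟩
  refine ⟨M, fun l => surY z G m (e l), fun l => surY_ne hz hG0 _, ?_, ?_, ?_⟩
  · intro l a ha
    rw [hch] at ha ⊢
    exact surY_normal hz hm hG0 hG hP _ ha
  · intro i
    refine ⟨e.symm (Sum.inl fun _ => i), fun a => ?_⟩
    rw [hch]
    simp only [Equiv.apply_symm_apply]
    have h1 : surY z G m (Sum.inl fun _ => i) = z i ^ m := surMono_const z m i
    rw [h1, surY_chart hz hG hP i]
    exact hG i a
  · intro l V hV h
    refine surY_cen hz hm hG0 hP (e l) hV fun j => ?_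
    have := h (e.symm j)
    simpa only [Equiv.apply_symm_apply] using this

end Pool.Agent.Lib.MP_b197b4_ntA
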