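import Mathlib
import Pool.Agent.Lib.MP_b197b4_ntA.Defs
import Pool.Agent.Lib.MP_b197b4_ntK.Curve

/-!
# MP_b197b4_nt, project K1-ALL: the forms on the curves of a normal projective model
-/

set_option autoImplicit false
set_option linter.style.haveILetI false

namespace Pool.Agent.Lib.MP_b197b4_ntA

open IsLocalRing Pool.Agent.Lib.MP_b197b4_ntK

variable {k E : Type} [Field k] [Field E] [Algebra k E] {A : Subalgebra k E}

/-- Only finitely many curves of the chart pass through the zeros and poles of `f`. -/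
theorem SurB_curves_finite (hfr : IsFractionRing A E) (hno : IsNoetherianRing A) (f : E)
    (hf : f ≠ 0) : {V | IsCurve A V ∧ ord V f ≠ 0}.Finite := by
  haveI := hfr
  haveI := hno
  obtain ⟨a, b, hb, rfl⟩ := IsFractionRing.div_surjective (A := A) f
  change ((a : E) / (b : E)) ≠ 0 at hf
  have ha0 : (a : E) ≠ 0 := (div_ne_zero_iff.1 hf).1
  have hb0 : (b : E) ≠ 0 := (div_ne_zero_iff.1 hf).2
  have key : ∀ c : A, (c : E) ≠ 0 → {V | IsCurve A V ∧ ord V (c : E) ≠ 0}.Finite := by
    intro c hc
    have hmin : (Ideal.span {c} : Ideal A).minimalPrimes.Finite :=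
      Ideal.finite_minimalPrimes_of_isNoetherianRing A _
    have hex : ∀ V : ValuationSubring E, IsCurve A V → ∃ P : Ideal A, P.IsPrime ∧ PrimeOf A V P :=
      fun V hV => exists_primeOf hV.2.1
    classical
    let φ : ValuationSubring E → Ideal A := fun V =>
      if h : IsCurve A V then (hex V h).choose else ⊥
    have hφ : ∀ V, IsCurve A V → (φ V).IsPrime ∧ PrimeOf A V (φ V) := by
      intro V hV
      simp only [φ, dif_pos hV]
      exact (hex V hV).choose_spec
    refine Set.Finite.of_finite_image (f := φ) (hmin.subset ?_) ?_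
    · rintro _ ⟨V, ⟨hV, hord⟩, rfl⟩
      obtain ⟨hp, hP⟩ := hφ V hV
      have hcP : c ∈ φ V := by
        rw [hP c]
        refine lt_of_le_of_ne ((ValuationSubring.valuation_le_one_iff V _).2 (hV.2.1 c c.2)) ?_
        intro h1
        exact hord ((ord_eq_zero_iff hV.1 hc).2 h1)
      refine ⟨⟨hp, (Ideal.span_singleton_le_iff_mem _).2 hcP⟩, ?_⟩
      rintro Q ⟨hQ, hcQ⟩ hQP
      by_contra hnot
      have hlt : Q < φ V := lt_of_le_of_ne hQP (fun h => hnot h.ge)
      have h1 := hV.height hP
      have hQ0 : Q ≠ ⊥ := by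
        rintro rfl
        have := (Ideal.span_singleton_le_iff_mem _).1 hcQ
        rw [Ideal.mem_bot] at this
        exact hc (by rw [this]; rfl)
      have h2 : (⊥ : Ideal A) < Q := bot_lt_iff_ne_bot.2 hQ0
      have h3 : Q.height < (φ V).height := by
        haveI := hp
        haveI := hQ
        exact Ideal.height_strict_mono_of_isPrime hlt
      have h4 : (⊥ : Ideal A).height < Q.height := by
        haveI : (⊥ : Ideal A).IsPrime := Ideal.isPrime_bot
        haveI := hQ
        exact Ideal.height_strict_mono_of_isPrime h2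
      rw [h1] at h3
      rw [Ideal.height_bot] at h4
      have h5 : Q.height = 0 := Order.lt_one_iff.1 h3
      rw [h5] at h4
      exact lt_irrefl _ h4
    · rintro V ⟨hV, _⟩ V' ⟨hV', _⟩ h
      have h1 := (hφ V hV).2
      have h2 := (hφ V' hV').2
      change φ V = φ V' at h
      rw [← h] at h2
      exact curve_unique hV hV' h1 h2
  refine ((key a ha0).union (key b hb0)).subset ?_
  rintro V ⟨hV, hord⟩
  by_contra h
  simp only [Set.mem_union, Set.mem_ofPred_eq, not_or, not_and, not_not] at h
  apply hord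
  change ord V ((a : E) / (b : E)) = 0
  rw [ord_div hV.1 ha0 hb0, h.1 hV, h.2 hV, sub_self]


theorem SurB_noeth (hA : NChart A) : IsNoetherianRing A := by
  haveI : Algebra.FiniteType k A := A.fg_iff_finiteType.1 hA.fg
  exact Algebra.FiniteType.isNoetherianRing k A

/-- The curves of a normal affine chart are divisorial valuation rings. -/
theorem SurB_isDiv_of_curve (hA : NChart A) {V : ValuationSubring E} (hV : IsCurve A V) :
    IsDiv k V := by
  have hover : Over k V := fun c => hV.2.1 _ (A.algebraMap_mem c)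
  refine ⟨hV.1, hover, ?_⟩
  by_contra hcon
  push Not at hcon
  obtain ⟨P, hPp, hP⟩ := exists_primeOf hV.2.1
  have hmax : P.IsMaximal := by
    rw [Ideal.isMaximal_iff]
    refine ⟨(Ideal.ne_top_iff_one P).1 hPp.ne_top, fun J a hPJ haP haJ => ?_⟩
    obtain ⟨c, hc⟩ := hcon (a : E) (hV.2.1 a a.2)
    have h1 : a - algebraMap k A c ∈ P := by
      rw [hP, ← res_eq_zero_iff (hV.2.1 _ (a - algebraMap k A c).2)]
      have h2 : ((a - algebraMap k A c : A) : E) = (a : E) - algebraMap k E c := rfl
      rw [h2, res_sub (hV.2.1 a a.2) (hover c), hc, sub_self]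
    have hc0 : c ≠ 0 := by
      rintro rfl
      rw [map_zero, sub_zero] at h1
      exact haP h1
    have h3 : algebraMap k A c ∈ J := by
      have h4 : algebraMap k A c = a - (a - algebraMap k A c) := by ring
      rw [h4]
      exact J.sub_mem haJ (hPJ h1)
    have h5 : (1 : A) = algebraMap k A c⁻¹ * algebraMap k A c := by
      rw [← map_mul, inv_mul_cancel₀ hc0, map_one]
    rw [h5]
    exact J.mul_mem_left _ h3
  have h6 := hA.height P hmax
  rw [hV.height hP] at h6
  exact absurd h6 (by decide)

theorem SurB_isDiv {n : ℕ} {y : Fin (n + 1) → E} (hy : NSurf k y) {V : ValuationSubring E}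
    (hV : V ∈ Curves (charts k y)) : IsDiv k V := by
  obtain ⟨A, ⟨i, rfl⟩, hV⟩ := hV
  exact SurB_isDiv_of_curve (hy.chart i) hV

theorem SurB_finite {n : ℕ} {y : Fin (n + 1) → E} (hy : NSurf k y) {f : E} (hf : f ≠ 0) :
    {V | V ∈ Curves (charts k y) ∧ ord V f ≠ 0}.Finite := by
  have h1 : {V | V ∈ Curves (charts k y) ∧ ord V f ≠ 0} ⊆ ⋃ i : Fin (n + 1),
      {V | IsCurve (Algebra.adjoin k (Set.range fun j => y j / y i)) V ∧ ord V f ≠ 0} := by
    rintro V ⟨⟨A, ⟨i, rfl⟩, hV⟩, h⟩
    exact Set.mem_iUnion.2 ⟨i, hV, h⟩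
  exact (Set.finite_iUnion fun i =>
    SurB_curves_finite (hy.chart i).frac (SurB_noeth (hy.chart i)) f hf).subset h1

/-- **S2**: good forms restrict to forms on the curves of a normal projective model `y` which
dominates the model `x`. -/
theorem SurB_forms {n n' : ℕ} {x : Fin (n + 1) → E}
    {l : ∀ V : ValuationSubring E, ResidueField V → ℚ} (hl : Good k x l)
    {y : Fin (n' + 1) → E} (hy : NSurf k y)
    (hcen : ∀ V : ValuationSubring E, IsDiv k V → CenPt k y V → CenPt k x V)
    (hcur : ∀ V : ValuationSubring E, IsDiv k V → V ∉ Curves (charts k y) → CenPt k y V) :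
    Forms k (Curves (charts k y)) l where
  disc V hV := (SurB_isDiv hy hV).1
  base V hV := (SurB_isDiv hy hV).2.1
  finite f hf := SurB_finite hy hf
  mul V hV := hl.mul V (SurB_isDiv hy hV)
  recip f g hf hg := by
    rw [← hl.recip f g hf hg]
    refine finsum_congr fun V => ?_
    classical
    rw [finsum_eq_if, finsum_eq_if]
    by_cases hV : V ∈ Curves (charts k y)
    · rw [if_pos hV, if_pos (SurB_isDiv hy hV)]
    · rw [if_neg hV]
      by_cases hD : IsDiv k V
      · rw [if_pos hD, hl.pt V hD (hcen V hD (hcur V hD hV)) _ (tame_ne_zero hD.1 hf hg)]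
      · rw [if_neg hD]

/-- S2 in the form of the skeleton. -/
theorem forms_of_good {k E : Type} [Field k] [IsAlgClosed k] [Field E] [Algebra k E]
    {n N : ℕ} {x : Fin (n + 1) → E} {l : ∀ V : ValuationSubring E, ResidueField V → ℚ}
    (hl : Good k x l) {y : Fin (N + 1) → E} (hy : NSurf k y)
    (h1 : ∀ V, IsDiv k V → CenPt k y V → CenPt k x V)
    (h3 : ∀ V, IsDiv k V → V ∉ Curves (charts k y) → CenPt k y V) :
    Forms k (Curves (charts k y)) l := SurB_forms hl hy h1 h3

end Pool.Agent.Lib.MP_b197b4_ntA
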