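import Mathlib
import Pool.Agent.Lib.MP_b197b4_ntA.SurB
import Pool.Agent.Lib.MP_b197b4_ntK.CurveN

/-!
# MP_b197b4_nt, project K1-ALL: divisorial valuation rings and curves of a normal projective model
-/

set_option autoImplicit false
set_option linter.style.haveILetI false

namespace Pool.Agent.Lib.MP_b197b4_ntA

open IsLocalRing Pool.Agent.Lib.MP_b197b4_ntK

variable {k E : Type} [Field k] [Field E] [Algebra k E] {A : Subalgebra k E}

theorem SurB2_toN (hA : NChart A) : ChartN A := ⟨hA.fg, hA.frac, hA.normal, hA.height⟩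

/-- A discrete valuation ring is not the whole field. -/
theorem SurB2_exists_notMem {V : ValuationSubring E} (hV : IsDiscreteValuationRing V) :
    ∃ z : E, z ∉ V := by
  obtain ⟨p, hp⟩ := IsDiscreteValuationRing.exists_irreducible V
  have hp0 : (p : E) ≠ 0 := fun h => hp.ne_zero (Subtype.ext h)
  refine ⟨(p : E)⁻¹, fun h => ?_⟩
  have h1 := val_irr_lt hp
  rw [← ValuationSubring.valuation_le_one_iff, map_inv₀] at h
  have h3 : 0 < V.valuation (p : E) := by rw [Valuation.pos_iff]; exact hp0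
  have h4 := (inv_le_one₀ h3).1 h
  exact absurd h1 (not_lt.2 h4)

/-- There are no inclusions between discrete valuation rings of one field. -/
theorem SurB2_eq_of_le {V V' : ValuationSubring E} (hV : IsDiscreteValuationRing V)
    (hV' : IsDiscreteValuationRing V') (h : ∀ x ∈ V', x ∈ V) : V' = V := by
  ext x
  refine ⟨h x, fun hx => ?_⟩
  by_contra hx'
  have hx0 : x ≠ 0 := by
    rintro rfl
    exact hx' (zero_mem _)
  obtain ⟨z, hz⟩ := SurB2_exists_notMem hV
  have hz0 : z ≠ 0 := by
    rintro rfl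
    exact hz (zero_mem _)
  have hneg : ord V' x < 0 := by
    by_contra hn
    exact hx' ((ord_nonneg_iff hV' hx0).1 (not_lt.1 hn))
  apply hz
  let N : ℕ := (ord V' z).natAbs
  have hxN : x ^ N ≠ 0 := pow_ne_zero _ hx0
  have h1 : 0 ≤ ord V' (z / x ^ N) := by
    rw [ord_div hV' hz0 hxN, ord_pow hV' hx0]
    have h2 : -(N : ℤ) ≤ ord V' z := by
      have := Int.natAbs_neg (ord V' z)
      omega
    have h3 : (N : ℤ) * ord V' x ≤ (N : ℤ) * (-1) :=
      mul_le_mul_of_nonneg_left (by omega) (Int.natCast_nonneg N)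
    omega
  have h4 := h _ ((ord_nonneg_iff hV' (div_ne_zero hz0 hxN)).1 h1)
  have h5 : z = z / x ^ N * x ^ N := by field_simp
  rw [h5]
  exact mul_mem h4 (pow_mem hx N)

/-- A divisorial valuation ring which contains the normal chart `A` is a curve on `Spec A` or its
centre is a closed point. -/
theorem SurB2_curve_or_max (hA : NChart A) {V : ValuationSubring E}
    (hV : IsDiscreteValuationRing V) (hAV : ∀ a ∈ A, a ∈ V) {P : Ideal A} (hPp : P.IsPrime)
    (hP : PrimeOf A V P) : IsCurve A V ∨ P.IsMaximal := by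
  haveI := hA.frac
  haveI := SurB_noeth hA
  by_cases hmax : P.IsMaximal
  · exact Or.inr hmax
  left
  obtain ⟨M, hM, hPM⟩ := P.exists_le_maximal hPp.ne_top
  have hlt : P < M := lt_of_le_of_ne hPM (by rintro rfl; exact hmax hM)
  haveI := hM.isPrime
  have h1 : P.height < 2 := by
    rw [← hA.height M hM]
    exact Ideal.height_strict_mono_of_isPrime hlt
  have hP0 : P ≠ ⊥ := by
    rintro rfl
    obtain ⟨z, hz⟩ := SurB2_exists_notMem hV
    apply hz
    obtain ⟨a, b, hb, rfl⟩ := IsFractionRing.div_surjective (A := A) z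
    have hb0 : b ≠ 0 := nonZeroDivisors.ne_zero hb
    have h2 : V.valuation (b : E) = 1 := (hP.val_one hAV b).1 fun h => hb0 (by simpa using h)
    change (a : E) / (b : E) ∈ V
    rw [← ValuationSubring.valuation_le_one_iff, map_div₀, h2, div_one,
      ValuationSubring.valuation_le_one_iff]
    exact hAV a a.2
  have h4 : (⊥ : Ideal A).height < P.height := by
    haveI : (⊥ : Ideal A).IsPrime := Ideal.isPrime_bot
    exact Ideal.height_strict_mono_of_isPrime (bot_lt_iff_ne_bot.2 hP0)
  rw [Ideal.height_bot] at h4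
  have h5 : P.height = 1 := by
    apply le_antisymm
    · simpa using h1
    · exact Order.one_le_iff_pos.2 h4
  obtain ⟨V', hV', hPV'⟩ := (SurB2_toN hA).exists_curve P h5
  have h6 : ∀ x ∈ V', x ∈ V := by
    intro x hx
    obtain ⟨a, s, ha, hs, h7, h8⟩ := hV'.2.2 x hx
    have h9 : V.valuation s = 1 :=
      (hP.val_one hAV ⟨s, hs⟩).1 ((hPV'.val_one hV'.2.1 ⟨s, hs⟩).2 h7)
    rw [h8, ← ValuationSubring.valuation_le_one_iff, map_div₀, h9, div_one,
      ValuationSubring.valuation_le_one_iff]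
    exact hAV a ha
  rw [← SurB2_eq_of_le hV hV'.1 h6]
  exact hV'

/-- **(iii)** The centre of a divisorial valuation ring on a normal projective model is a closed
point or a curve. -/
theorem SurB2_cur [IsAlgClosed k] {n : ℕ} {y : Fin (n + 1) → E} (hy : NSurf k y)
    {V : ValuationSubring E} (hV : IsDiv k V) (hc : V ∉ Curves (charts k y)) : CenPt k y V := by
  obtain ⟨i, hi⟩ := charts_complete y V hV.2.1
  let A := Algebra.adjoin k (Set.range fun j => y j / y i)
  have hA : NChart A := hy.chart i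
  obtain ⟨P, hPp, hP⟩ := exists_primeOf (A := A) hi
  rcases SurB2_curve_or_max hA hV.1 hi hPp hP with h | h
  · exact absurd ⟨A, ⟨i, rfl⟩, h⟩ hc
  refine ⟨i, hy.ne i, fun j => ?_⟩
  have hj : y j / y i ∈ A := Algebra.subset_adjoin ⟨j, rfl⟩
  obtain ⟨c, hc⟩ := exists_const_sub_mem hA.fg P ⟨y j / y i, hj⟩
  refine ⟨hi _ hj, c, ?_⟩
  rw [hP, ← res_eq_zero_iff (hi _ (Subtype.mem _))] at hc
  have h2 : (((⟨y j / y i, hj⟩ : A) - algebraMap k A c : A) : E) =
      y j / y i - algebraMap k E c := rfl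
  rw [h2, res_sub (hi _ hj) (hV.2.1 c)] at hc
  exact sub_eq_zero.1 hc

/-- **S2 with (iii)**. -/
theorem SurB2_forms [IsAlgClosed k] {n n' : ℕ} {x : Fin (n + 1) → E}
    {l : ∀ V : ValuationSubring E, ResidueField V → ℚ} (hl : Good k x l)
    {y : Fin (n' + 1) → E} (hy : NSurf k y)
    (hcen : ∀ V : ValuationSubring E, IsDiv k V → CenPt k y V → CenPt k x V) :
    Forms k (Curves (charts k y)) l :=
  SurB_forms hl hy hcen fun _ hV hc => SurB2_cur hy hV hc

/-- (iii) in the form of the skeleton. -/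
theorem cenPt_of_not_curve [IsAlgClosed k] {N : ℕ} {y : Fin (N + 1) → E} (hy : NSurf k y)
    (V : ValuationSubring E) (hV : IsDiv k V) (hn : V ∉ Curves (charts k y)) : CenPt k y V :=
  SurB2_cur hy hV hn

end Pool.Agent.Lib.MP_b197b4_ntA
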