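import Mathlib
import Pool.Agent.Lib.MP_b197b4_ntA.SurA1
import Pool.Agent.Lib.MP_b197b4_ntA.SurA2
import Pool.Agent.Lib.MP_b197b4_ntA.SurB2

/-!
# MP_b197b4_nt, project K1-ALL, leaf S1: the normal projective model
-/

set_option autoImplicit false

namespace Pool.Agent.Lib.MP_b197b4_ntA

open IsLocalRing Pool.Agent.Lib.MP_b197b4_ntK

section

variable {k E : Type} [Field k] [Field E] [Algebra k E]

theorem SurA_fg {κ : Type} [Finite κ] (z : κ → E) (s : E) : (surCh k z s).FG :=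
  Subalgebra.fg_def.2 ⟨_, Set.finite_range _, rfl⟩

theorem SurA_frac {C : Subalgebra k E} (h : ∀ e : E, ∃ a ∈ C, ∃ b ∈ C, b ≠ 0 ∧ e = a / b) :
    IsFractionRing C E := by
  refine IsFractionRing.of_field _ _ fun e => ?_
  obtain ⟨a, ha, b, hb, -, h1⟩ := h e
  exact ⟨⟨a, ha⟩, ⟨b, hb⟩, h1⟩

theorem SurA_div {B C : Subalgebra k E} (hBf : IsFractionRing B E) (hBC : B ≤ C) (e : E) :
    ∃ a ∈ C, ∃ b ∈ C, b ≠ 0 ∧ e = a / b := by
  obtain ⟨a, b, hb, h⟩ := IsFractionRing.div_surjective (A := B) e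
  refine ⟨a, hBC a.2, b, hBC b.2, fun h0 => nonZeroDivisors.ne_zero hb (Subtype.ext h0), h.symm⟩

theorem SurA_normal {C : Subalgebra k E} (hfr : IsFractionRing C E)
    (h : ∀ e, surInt C e → e ∈ C) : IsIntegrallyClosed C := by
  refine (isIntegrallyClosed_iff E).2 fun {e} he => ?_
  exact ⟨⟨e, h e ((surInt_iff C e).1 he)⟩, rfl⟩

end

/-- S1 (helper32) -/
theorem exists_model {k E : Type} [Field k] [IsAlgClosed k] [Field E] [Algebra k E]
    (hE : FunF k E 2) {n : ℕ} (x : Fin (n + 1) → E) (B : Subalgebra k E) (hB : B.FG)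
    (hBf : IsFractionRing B E) (hx : ∃ i, x i ≠ 0 ∧ ∀ j, x j / x i ∈ B) :
    ∃ (N : ℕ) (y : Fin (N + 1) → E), NSurf k y ∧
      (∀ V, IsDiv k V → CenPt k y V → CenPt k x V) ∧
      (∀ m : Ideal B, RegMax m → ∀ O : Subring E, IsLoc B m O → O ∈ Points (charts k y)) ∧
      (∀ V, IsDiv k V → V ∉ Curves (charts k y) → CenPt k y V) ∧
      (∀ V, IsCurve B V → V ∈ Curves (charts k y)) := by
  classical
  obtain ⟨S, hS⟩ := hB
  obtain ⟨i₀, hi₀, hx₀⟩ := hx
  let C : Finset E := insert 1 (S.filter fun c => c ≠ 0)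
  have hC0 : ∀ c ∈ C, c ≠ 0 := by
    intro c hc
    rcases Finset.mem_insert.1 hc with h | h
    · rw [h]
      exact one_ne_zero
    · exact (Finset.mem_filter.1 h).2
  have hC1 : (1 : E) ∈ C := Finset.mem_insert_self _ _
  have hCB : ∀ c ∈ C, c ∈ B := by
    intro c hc
    rcases Finset.mem_insert.1 hc with h | h
    · rw [h]
      exact B.one_mem
    · rw [← hS]
      exact Algebra.subset_adjoin (Finset.mem_filter.1 h).1
  let ι : Type := {j : Fin (n + 1) // x j ≠ 0} × {c : E // c ∈ C}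
  let z : ι → E := fun p => x p.1.1 / x i₀ * p.2.1
  let p₀ : ι := (⟨i₀, hi₀⟩, ⟨1, hC1⟩)
  have hz : ∀ p, z p ≠ 0 := fun p => mul_ne_zero (div_ne_zero p.1.2 hi₀) (hC0 _ p.2.2)
  have hzp : z p₀ = 1 := by
    change x i₀ / x i₀ * 1 = 1
    rw [div_self hi₀, one_mul]
  have hchB : surCh k z (z p₀) = B := by
    apply le_antisymm
    · refine Algebra.adjoin_le ?_
      rintro _ ⟨p, rfl⟩
      change z p / z p₀ ∈ B
      rw [hzp, div_one]
      exact B.mul_mem (hx₀ _) (hCB _ p.2.2)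
    · rw [← hS]
      refine Algebra.adjoin_le ?_
      intro c hc
      by_cases h0 : c = 0
      · rw [h0]
        exact Subalgebra.zero_mem _
      · have hcC : c ∈ C := Finset.mem_insert_of_mem (Finset.mem_filter.2 ⟨hc, h0⟩)
        have h1 := surCh_mem (k := k) z (z p₀) ((⟨i₀, hi₀⟩, ⟨c, hcC⟩) : ι)
        have h2 : z ((⟨i₀, hi₀⟩, ⟨c, hcC⟩) : ι) / z p₀ = c := by
          rw [hzp, div_one]
          change x i₀ / x i₀ * c = c
          rw [div_self hi₀, one_mul]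
        rw [h2] at h1
        exact h1
  have : Nonempty ι := ⟨p₀⟩
  have hzd : ∀ e : E, ∃ a ∈ surCh k z (z p₀), ∃ b ∈ surCh k z (z p₀), b ≠ 0 ∧ e = a / b :=
    fun e => SurA_div hBf hchB.ge e
  have hzf : ∀ p, IsFractionRing (surCh k z (z p)) E := fun p =>
    SurA_frac fun e => surCh_frac z hz p₀ hzd p e
  have hfg : ∀ p, ∃ g : Finset E,
      ∀ e, e ∈ Algebra.adjoin k (g : Set E) ↔ surInt (surCh k z (z p)) e := by
    intro p
    obtain ⟨g, hg⟩ := nrmA_fg (SurA_fg (k := k) z (z p)) (hzf p)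
    refine ⟨g, fun e => ?_⟩
    rw [hg, mem_nrmA, surInt_iff]
  obtain ⟨N, y, hy0, hyn, hych, hycen⟩ := exists_norm_coords z hz hfg
  obtain ⟨l₀, hl₀⟩ := hych p₀
  have hl : surCh k y (y l₀) = nrmA B := by
    ext e
    rw [hl₀, hchB, mem_nrmA, surInt_iff]
  have hyd : ∀ e : E, ∃ a ∈ surCh k y (y l₀), ∃ b ∈ surCh k y (y l₀), b ≠ 0 ∧ e = a / b :=
    fun e => SurA_div hBf ((le_nrmA B).trans hl.ge) e
  have hyf : ∀ l, IsFractionRing (surCh k y (y l)) E := fun l =>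
    SurA_frac fun e => surCh_frac y hy0 l₀ hyd l e
  have hNS : NSurf k y := ⟨hy0, fun l =>
    nchart_of_normal hE (SurA_fg (k := k) y (y l)) (hyf l) (SurA_normal (hyf l) (hyn l))⟩
  have hmem : nrmA B ∈ charts k y := ⟨l₀, hl⟩
  refine ⟨N, y, hNS, ?_, ?_, fun V hV hn => cenPt_of_not_curve hNS V hV hn, ?_⟩
  · rintro V hV ⟨l, -, hVl⟩
    obtain ⟨p, hp⟩ := hycen l V hV.2.1 hVl
    refine ⟨p.1.1, p.1.2, fun j => ?_⟩
    by_cases hj : x j = 0
    · rw [hj, zero_div]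
      exact ⟨V.zero_mem, 0, by rw [map_zero]⟩
    · have h1 := hp ((⟨j, hj⟩, p.2) : ι)
      have h2 : z ((⟨j, hj⟩, p.2) : ι) / z p = x j / x p.1.1 := by
        change x j / x i₀ * p.2.1 / (x p.1.1 / x i₀ * p.2.1) = x j / x p.1.1
        have h3 := hC0 _ p.2.2
        have h4 := p.1.2
        field_simp
      rw [h2] at h1
      exact h1
  · intro m hm O hO
    obtain ⟨m', hm', hO'⟩ := isLoc_nrmA hE ⟨S, hS⟩ hBf hm hO
    exact ⟨nrmA B, hmem, m', hm', hO'⟩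
  · intro V hV
    exact ⟨nrmA B, hmem, isCurve_nrmA hV⟩

end Pool.Agent.Lib.MP_b197b4_ntA
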