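import Mathlib

/-!
# MP_b197b4_nt, project K1-ALL, leaf S3: powers of units of the normalization of a local ring

`k` is a field all of whose elements are algebraic over a finite field, `R` a Noetherian local
domain of dimension one with residue field `k` and field of fractions `K`. If `u` and `u⁻¹` are
integral over `R`, then a power of `u` is a unit of `R` (`SurC0_pow_mem`).
-/

set_option autoImplicit false

namespace Pool.Agent.Lib.MP_b197b4_ntA

open IsLocalRing

/-- The characteristic is a prime number. -/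
theorem SurC0_char {k : Type} [Field k]
    (halg : ∃ p : ℕ, p.Prime ∧ ∀ a : k, ∃ m : ℕ, 0 < m ∧ a ^ p ^ m = a) :
    ∃ q : ℕ, q.Prime ∧ CharP k q := by
  obtain ⟨p, hp, h⟩ := halg
  obtain ⟨q, hq⟩ := CharP.exists k
  rcases CharP.char_is_prime_or_zero k q with h1 | h1
  · exact ⟨q, h1, hq⟩
  · exfalso
    subst h1
    have h0 : CharZero k := CharP.charP_to_charZero k
    obtain ⟨m, hm, h2⟩ := h (2 : k)
    have h3 : ((2 ^ p ^ m : ℕ) : k) = ((2 : ℕ) : k) := by push_cast; exact h2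
    have h4 : 2 ^ p ^ m = 2 := Nat.cast_injective h3
    have h5 : 2 ^ 1 < 2 ^ p ^ m := by
      apply Nat.pow_lt_pow_right (by norm_num)
      exact Nat.one_lt_pow hm.ne' hp.one_lt
    omega

theorem SurC0_torsion_aux {κ G : Type} [Field κ] [Finite κ] [CommRing G] [Algebra κ G]
    [Algebra.IsIntegral κ G] (u : Gˣ) : ∃ N : ℕ, 0 < N ∧ u ^ N = 1 := by
  have hu : IsIntegral κ (u : G) := Algebra.IsIntegral.isIntegral _
  have hfin : Module.Finite κ (Algebra.adjoin κ {(u : G)}) :=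
    Module.Finite.iff_fg.2 hu.fg_adjoin_singleton
  have hfin2 : Finite (Algebra.adjoin κ {(u : G)}) := Module.finite_of_finite κ
  let f : ℕ → Algebra.adjoin κ {(u : G)} := fun i =>
    ⟨(u : G) ^ i, pow_mem (Algebra.self_mem_adjoin_singleton κ (u : G)) i⟩
  obtain ⟨i, j, hij, h⟩ := Finite.exists_ne_map_eq_of_infinite f
  have h1 : (u : G) ^ i = (u : G) ^ j := congrArg Subtype.val h
  have h2 : u ^ i = u ^ j := Units.ext (by rw [Units.val_pow_eq_pow_val, Units.val_pow_eq_pow_val, h1])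
  rcases lt_or_gt_of_ne hij with h3 | h3
  · refine ⟨j - i, by omega, ?_⟩
    have h4 : u ^ i * u ^ (j - i) = u ^ i := by rw [← pow_add, h2, Nat.add_sub_cancel' h3.le]
    exact mul_eq_left.1 h4
  · refine ⟨i - j, by omega, ?_⟩
    have h4 : u ^ j * u ^ (i - j) = u ^ j := by rw [← pow_add, ← h2, Nat.add_sub_cancel' h3.le]
    exact mul_eq_left.1 h4

/-- The units of a finite dimensional algebra over `k` are roots of unity. -/
theorem SurC0_torsion {k G : Type} [Field k] [CommRing G] [Algebra k G] [Module.Finite k G]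
    (halg : ∃ p : ℕ, p.Prime ∧ ∀ a : k, ∃ m : ℕ, 0 < m ∧ a ^ p ^ m = a) (u : Gˣ) :
    ∃ N : ℕ, 0 < N ∧ u ^ N = 1 := by
  obtain ⟨q, hq, hc⟩ := SurC0_char halg
  obtain ⟨p, hp, halg⟩ := halg
  have := Fact.mk hq
  let i1 : Algebra (ZMod q) k := ZMod.algebra k q
  let i2 : Algebra (ZMod q) G := ((algebraMap k G).comp (algebraMap (ZMod q) k)).toAlgebra
  have i3 : IsScalarTower (ZMod q) k G := IsScalarTower.of_algebraMap_eq fun _ => rfl
  have i4 : Algebra.IsIntegral (ZMod q) k := by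
    refine ⟨fun a => ?_⟩
    obtain ⟨m, hm, h⟩ := halg a
    refine ⟨Polynomial.X ^ p ^ m - Polynomial.X, ?_, ?_⟩
    · apply Polynomial.monic_X_pow_sub
      rw [Polynomial.degree_X]
      have : 1 < p ^ m := Nat.one_lt_pow hm.ne' hp.one_lt
      exact_mod_cast this
    · rw [Polynomial.eval₂_sub, Polynomial.eval₂_X_pow, Polynomial.eval₂_X, h, sub_self]
  have i5 : Algebra.IsIntegral k G := Algebra.IsIntegral.of_finite k G
  have i6 : Algebra.IsIntegral (ZMod q) G := Algebra.IsIntegral.trans k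
  exact SurC0_torsion_aux (κ := ZMod q) u

theorem SurC0_torsion' {k G : Type} [Field k] [CommRing G] [Algebra k G] [Module.Finite k G]
    (halg : ∃ p : ℕ, p.Prime ∧ ∀ a : k, ∃ m : ℕ, 0 < m ∧ a ^ p ^ m = a) {g g' : G}
    (h : g * g' = 1) : ∃ N : ℕ, 0 < N ∧ g ^ N = 1 := by
  obtain ⟨N, hN, h1⟩ := SurC0_torsion halg (⟨g, g', h, by rw [mul_comm]; exact h⟩ : Gˣ)
  refine ⟨N, hN, ?_⟩
  have h2 := congrArg Units.val h1
  rwa [Units.val_pow_eq_pow_val] at h2

/-- A finitely generated submodule of the field of fractions has a denominator. -/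
theorem SurC0_denom {K : Type} [Field K] (R : Subring K)
    (hfrac : ∀ x : K, ∃ a b : R, (b : K) ≠ 0 ∧ x = a / b) (M : Submodule R K) (hM : M.FG) :
    ∃ d : R, (d : K) ≠ 0 ∧ ∀ x ∈ M, (d : K) * x ∈ R := by
  induction M, hM using Submodule.fg_induction with
  | singleton x =>
    obtain ⟨a, b, hb, hx⟩ := hfrac x
    refine ⟨b, hb, fun y hy => ?_⟩
    obtain ⟨r, rfl⟩ := Submodule.mem_span_singleton.1 hy
    have h1 : (b : K) * (r • x) = ((r * a : R) : K) := by
      rw [Subring.smul_def, smul_eq_mul, hx]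
      push_cast
      field_simp
    rw [h1]
    exact (r * a).2
  | sup M₁ M₂ _ _ ih ih' =>
    obtain ⟨d, hd, h⟩ := ih
    obtain ⟨e, he, h'⟩ := ih'
    refine ⟨d * e, by push_cast; exact mul_ne_zero hd he, fun y hy => ?_⟩
    obtain ⟨y₁, h₁, y₂, h₂, rfl⟩ := Submodule.mem_sup.1 hy
    have h1 : ((d * e : R) : K) * (y₁ + y₂) = (e : K) * (d * y₁) + d * (e * y₂) := by
      push_cast
      ring
    rw [h1]
    exact R.add_mem (R.mul_mem e.2 (h y₁ h₁)) (R.mul_mem d.2 (h' y₂ h₂))

/-- `k` maps onto the residue field, so `C / m C` is finite dimensional over `k`. -/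
theorem SurC0_finite {k R C : Type} [Field k] [CommRing R] [CommRing C] [Algebra k R] [Algebra R C]
    [Algebra k C] [IsScalarTower k R C] [Module.Finite R C] (m : Ideal R)
    (hres : ∀ a : R, ∃ c : k, a - algebraMap k R c ∈ m) :
    Module.Finite k (C ⧸ m.map (algebraMap R C)) := by
  obtain ⟨S, hS⟩ := (Module.Finite.fg_top : (⊤ : Submodule R (C ⧸ m.map (algebraMap R C))).FG)
  refine ⟨⟨S, ?_⟩⟩
  rw [eq_top_iff]
  rintro g -
  have hg : g ∈ Submodule.span R (S : Set (C ⧸ m.map (algebraMap R C))) := by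
    rw [hS]
    exact Submodule.mem_top
  induction hg using Submodule.span_induction with
  | mem x hx => exact Submodule.subset_span hx
  | zero => exact Submodule.zero_mem _
  | add x y _ _ hx hy => exact Submodule.add_mem _ hx hy
  | smul r x _ hx =>
    obtain ⟨c, hc⟩ := hres r
    have h1 : r • x = c • x := by
      have h2 : algebraMap R (C ⧸ m.map (algebraMap R C)) (r - algebraMap k R c) = 0 := by
        change Ideal.Quotient.mk _ (algebraMap R C (r - algebraMap k R c)) = 0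
        rw [Ideal.Quotient.eq_zero_iff_mem]
        exact Ideal.mem_map_of_mem _ hc
      rw [map_sub, sub_eq_zero] at h2
      rw [Algebra.smul_def, h2, ← IsScalarTower.algebraMap_apply, ← Algebra.smul_def]
    rw [h1]
    exact Submodule.smul_mem _ c hx

/-- **Powers of units of the normalization.** -/
theorem SurC0_pow_mem {k K : Type} [Field k] [Field K] [Algebra k K]
    (halg : ∃ p : ℕ, p.Prime ∧ ∀ a : k, ∃ m : ℕ, 0 < m ∧ a ^ p ^ m = a) (R : Subring K)
    [IsLocalRing R] [IsNoetherianRing R]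
    (hdim : ∀ p : Ideal R, p.IsPrime → p ≠ ⊥ → p = maximalIdeal R)
    (hfrac : ∀ x : K, ∃ a b : R, (b : K) ≠ 0 ∧ x = a / b)
    (hk : ∀ c : k, algebraMap k K c ∈ R)
    (hres : ∀ a : R, ∃ c : k, a - ⟨algebraMap k K c, hk c⟩ ∈ maximalIdeal R)
    {u : K} (hu0 : u ≠ 0) (hu : IsIntegral R u) (hu' : IsIntegral R u⁻¹) :
    ∃ N : ℕ, 0 < N ∧ u ^ N ∈ R ∧ (u ^ N)⁻¹ ∈ R := by
  classical
  let kR : k →+* R := (algebraMap k K).codRestrict R hk
  let iR : Algebra k R := kR.toAlgebra
  have iT : IsScalarTower k R K := IsScalarTower.of_algebraMap_eq fun _ => rfl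
  let C : Subalgebra R K := Algebra.adjoin R {u, u⁻¹}
  have huC : u ∈ C := Algebra.subset_adjoin (Set.mem_insert _ _)
  have huC' : u⁻¹ ∈ C := Algebra.subset_adjoin (Set.mem_insert_of_mem _ rfl)
  have hfg : (Subalgebra.toSubmodule C).FG := by
    refine fg_adjoin_of_finite (Set.toFinite _) ?_
    rintro y (rfl | rfl)
    · exact hu
    · exact hu'
  obtain ⟨d, hd0, hd⟩ := SurC0_denom R hfrac (Subalgebra.toSubmodule C) hfg
  have hCfin : Module.Finite R C := Module.Finite.iff_fg.2 hfg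
  -- a power of the maximal ideal is contained in `d R`
  obtain ⟨s, hs⟩ : ∃ s : ℕ, maximalIdeal R ^ s ≤ Ideal.span {d} := by
    obtain ⟨s, hs⟩ := Ideal.exists_radical_pow_le_of_fg (Ideal.span {d})
      (IsNoetherian.noetherian _)
    refine ⟨s, le_trans (Ideal.pow_right_mono ?_ s) hs⟩
    rw [Ideal.radical_eq_sInf]
    refine le_sInf ?_
    rintro p ⟨hp, hpp⟩
    have h1 : p ≠ ⊥ := by
      rintro rfl
      have h2 := hp (Ideal.mem_span_singleton_self d)
      rw [Ideal.mem_bot] at h2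
      exact hd0 (by rw [h2]; rfl)
    rw [hdim p hpp h1]
  let J : Ideal C := (maximalIdeal R).map (algebraMap R C)
  have hG : Module.Finite k (C ⧸ J) := SurC0_finite (maximalIdeal R) hres
  let uC : Cˣ := ⟨⟨u, huC⟩, ⟨u⁻¹, huC'⟩, Subtype.ext (mul_inv_cancel₀ hu0),
    Subtype.ext (inv_mul_cancel₀ hu0)⟩
  have huG : Ideal.Quotient.mk J (uC : C) * Ideal.Quotient.mk J ((uC⁻¹ : Cˣ) : C) = 1 := by
    rw [← map_mul, Units.mul_inv, map_one]
  obtain ⟨N, hN, hN1⟩ := SurC0_torsion' (k := k) (G := C ⧸ J) halg huG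
  have hJ : (uC : C) ^ N - 1 ∈ J := by
    rw [← Ideal.Quotient.eq_zero_iff_mem, map_sub, map_one, map_pow, sub_eq_zero]
    exact hN1
  obtain ⟨q, hq, hc⟩ := SurC0_char halg
  have hqf := Fact.mk hq
  have hcC : CharP C q := charP_of_injective_algebraMap (algebraMap k C).injective q
  have h1 : ((uC : C) ^ N) ^ q ^ s - 1 ∈ Ideal.span {algebraMap R C d} := by
    have h2 : ((uC : C) ^ N) ^ q ^ s - 1 = ((uC : C) ^ N - 1) ^ q ^ s := by
      rw [sub_pow_char_pow, one_pow]
    rw [h2]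
    have h3 : J ^ q ^ s ≤ Ideal.span {algebraMap R C d} := by
      refine le_trans (Ideal.pow_le_pow_right (Nat.lt_pow_self hq.one_lt).le) ?_
      change (maximalIdeal R).map (algebraMap R C) ^ s ≤ _
      rw [← Ideal.map_pow]
      refine le_trans (Ideal.map_mono hs) ?_
      rw [Ideal.map_span, Set.image_singleton]
    exact h3 (Ideal.pow_mem_pow hJ _)
  obtain ⟨c, hc1⟩ := Ideal.mem_span_singleton.1 h1
  have h4 : u ^ (N * q ^ s) - 1 = (d : K) * c := by
    have h5 := congrArg (Subtype.val : C → K) hc1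
    rw [pow_mul]
    exact h5
  refine ⟨N * q ^ s, Nat.mul_pos hN (pow_pos hq.pos _), ?_, ?_⟩
  · have h5 : u ^ (N * q ^ s) = 1 + (d : K) * c := by rw [← h4]; ring
    rw [h5]
    exact R.add_mem R.one_mem (hd _ c.2)
  · have h6 : u ^ (N * q ^ s) ≠ 0 := pow_ne_zero _ hu0
    have h5 : (u ^ (N * q ^ s))⁻¹ = 1 - (d : K) * (c * (u⁻¹) ^ (N * q ^ s)) := by
      rw [inv_pow, ← mul_assoc, ← h4]
      field_simp
      ring
    rw [h5]
    exact R.sub_mem R.one_mem (hd _ (C.mul_mem c.2 (C.pow_mem huC' _)))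

end Pool.Agent.Lib.MP_b197b4_ntA
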