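import Mathlib
import Pool.Agent.Lib.MP_b197b4_ntA.Defs
import Pool.Agent.Lib.MP_b197b4_ntA.SurC0
import Pool.Agent.Lib.MP_b197b4_ntK.SingN
import Pool.Agent.Lib.MP_b197b4_ntK.KLoc

/-!
# MP_b197b4_nt, project K1-ALL, leaf S3: the local rings of a curve on a surface
-/

set_option autoImplicit false

namespace Pool.Agent.Lib.MP_b197b4_ntA

open IsLocalRing Pool.Agent.Lib.MP_b197b4_ntK

section

variable {k F : Type} [Field k] [Field F] [Algebra k F] {A : Subalgebra k F}
  {V : ValuationSubring F} {m : Ideal A} {O : Subring F}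

/-- The prime ideals above the prime ideal of a curve are maximal. -/
theorem SurC_max_above (hn : IsNoetherianRing A)
    (hh : ∀ m : Ideal A, m.IsMaximal → m.height = 2) (hV : IsCurve A V) {P : Ideal A} (hP : PrimeOf A V P) {Q : Ideal A} (hQ : Q.IsPrime) (hPQ : P < Q) :
    Q.IsMaximal := by
  have hPp := hP.isPrime hV.2.1
  have h1 := Ideal.height_strict_mono_of_isPrime hPQ
  rw [hV.height hP] at h1
  obtain ⟨m, hm, hQm⟩ := Ideal.exists_le_maximal Q hQ.ne_top
  rcases eq_or_lt_of_le hQm with h | h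
  · rw [h]; exact hm
  · exfalso
    have := hm.isPrime
    have h2 := Ideal.height_strict_mono_of_isPrime h
    rw [hh m hm] at h2
    have h3 : Q.height < 1 + 1 := by rw [one_add_one_eq_two]; exact h2
    have h4 := Order.le_of_lt_add_one h3
    exact absurd h1 (not_lt.2 h4)

/-- The residue field of a curve is a function field of one variable. -/
theorem SurC_fun1 [Algebra k (ResidueField V)]
    (hc : ∀ c : k, algebraMap k (ResidueField V) c = res V (algebraMap k F c)) (hfgA : A.FG)
    (hh : ∀ m : Ideal A, m.IsMaximal → m.height = 2) (hV : IsCurve A V) :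
    FunF k (ResidueField V) 1 := by
  classical
  have hft : Algebra.FiniteType k A := A.fg_iff_finiteType.1 hfgA
  have hn : IsNoetherianRing A := Algebra.FiniteType.isNoetherianRing k A
  obtain ⟨P, hPp, hP⟩ := exists_primeOf hV.2.1
  let φ : A →ₐ[k] ResidueField V := { resHom hV.2.1 with
    commutes' := fun c => by
      rw [hc]
      exact resHom_apply hV.2.1 _ }
  have hφ : ∀ a : A, φ a = res V (a : F) := fun a => resHom_apply hV.2.1 a
  have hφ0 : ∀ a : A, φ a = 0 ↔ a ∈ P := by
    intro a
    rw [hφ, res_eq_zero_iff (hV.2.1 a a.2), hP a]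
  let B : Subalgebra k (ResidueField V) := φ.range
  let ψ : A →+* B := (φ.rangeRestrict : A →+* B)
  have hψs : Function.Surjective ψ := φ.rangeRestrict_surjective
  have hψ : ∀ a : A, ((ψ a : B) : ResidueField V) = res V (a : F) := hφ
  have hker : RingHom.ker ψ = P := by
    ext a
    rw [RingHom.mem_ker, ← hφ0]
    exact Subtype.ext_iff
  have hfg : B.FG := by
    have h1 : (⊤ : Subalgebra k A).FG := Subalgebra.fg_top A |>.2 hfgA
    have h2 := h1.map φ
    rwa [Algebra.map_top] at h2
  have hfr : ∀ z : ResidueField V, ∃ a b : A, res V (b : F) ≠ 0 ∧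
      z = res V (a : F) / res V (b : F) := by
    intro z
    obtain ⟨a, s, hs, hz⟩ := hV.res_frac z
    exact ⟨a, s, (res_ne_zero_iff (hV.2.1 s s.2)).2 hs, hz⟩
  have hfrac : IsFractionRing B (ResidueField V) := by
    refine (isLocalization_iff _ _).2 ⟨?_, ?_, ?_⟩
    · rintro ⟨y, hy⟩
      rw [isUnit_iff_ne_zero]
      exact fun h => nonZeroDivisors.ne_zero hy (Subtype.ext h)
    · intro z
      obtain ⟨a, s, hs0, hz⟩ := hfr z
      have hs1 : ψ s ∈ nonZeroDivisors B := by
        rw [mem_nonZeroDivisors_iff_ne_zero]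
        intro h
        apply hs0
        rw [← hψ, h]
        rfl
      refine ⟨(ψ a, ⟨ψ s, hs1⟩), ?_⟩
      change z * ((ψ s : B) : ResidueField V) = ((ψ a : B) : ResidueField V)
      rw [hψ, hψ, hz, div_mul_cancel₀ _ hs0]
    · intro a b h
      exact ⟨1, by rw [Subtype.ext h]⟩
  have hBf : ¬ IsField B := by
    intro h
    have h1 : (⊥ : Ideal B).IsMaximal := Ring.isField_iff_maximal_bot.1 h
    have h2 : ((⊥ : Ideal B).comap ψ).IsMaximal := Ideal.comap_isMaximal_of_surjective ψ hψs
    rw [← RingHom.ker_eq_comap_bot, hker] at h2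
    have h3 := hh P h2
    rw [hV.height hP] at h3
    exact absurd h3 (by decide)
  have hdim : ∀ p : Ideal B, p.IsPrime → p ≠ ⊥ → p.IsMaximal := by
    intro p hp hp0
    have h1 : P < p.comap ψ := by
      rw [← hker, RingHom.ker_eq_comap_bot]
      refine lt_of_le_of_ne (Ideal.comap_mono bot_le) ?_
      intro h
      exact hp0 (Ideal.comap_injective_of_surjective ψ hψs h).symm
    have h2 := SurC_max_above hn hh hV hP (Ideal.comap_isPrime ψ p) h1
    have h3 := Ideal.map_eq_top_or_isMaximal_of_surjective ψ hψs h2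
    rw [Ideal.map_comap_of_surjective ψ hψs] at h3
    exact h3.resolve_left hp.ne_top
  refine ⟨?_, ?_⟩
  · obtain ⟨S, hS⟩ := hfg
    refine ⟨S, ?_⟩
    rw [eq_top_iff]
    rintro z -
    obtain ⟨a, b, hb, rfl⟩ := hfr z
    have key : ∀ a : A, res V (a : F) ∈ IntermediateField.adjoin k (S : Set (ResidueField V)) := by
      intro a
      apply IntermediateField.algebra_adjoin_le_adjoin
      rw [hS]
      exact ⟨a, hφ a⟩
    exact div_mem (key a) (key b)
  · obtain ⟨b, hb⟩ := Sing.exists_basis B hfg hfrac hBf hdim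
    have h1 := hb.cardinalMk_eq_trdeg
    rw [← h1]
    simp

/-- The local ring of a curve at a point. -/
theorem SurC_local (hfg : A.FG) (hh : ∀ m : Ideal A, m.IsMaximal → m.height = 2)
    (hV : IsCurve A V) (hm : m.IsMaximal) (hO : IsLoc A m O) (hOV : (O : Set F) ⊆ V) :
    IsNoetherianRing (curveLoc O V) ∧ ∃ _ : IsLocalRing (curveLoc O V),
      (∀ p : Ideal (curveLoc O V), p.IsPrime → p ≠ ⊥ → p = maximalIdeal _) ∧
      ∀ (a : A) (ha : res V (a : F) ∈ curveLoc O V),
        (⟨res V (a : F), ha⟩ : curveLoc O V) ∈ maximalIdeal (curveLoc O V) ↔ a ∈ m := by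
  have hft : Algebra.FiniteType k A := A.fg_iff_finiteType.1 hfg
  have hn : IsNoetherianRing A := Algebra.FiniteType.isNoetherianRing k A
  obtain ⟨h1, h2, -⟩ := hO.local_dim hn hh hm
  have hVC : V ∈ CurvesAt O := (hO.mem_curvesAt hm.ne_top V).2 ⟨hV, hOV⟩
  have hs := toCurveLoc_surjective hVC
  have hnoe : IsNoetherianRing (curveLoc O V) := isNoetherianRing_of_surjective _ _ _ hs
  have hloc : IsLocalRing (curveLoc O V) := IsLocalRing.of_surjective' _ hs
  have hlh : IsLocalHom (toCurveLoc hVC) := IsLocalHom.of_surjective _ hs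
  obtain ⟨P, hPp, hP⟩ := exists_primeOf hV.2.1
  have hmem : ∀ b : A, (b : F) ∈ O := fun b => hO.coe_mem hm.ne_top b
  have hPm := le_of_subset hP hO hOV
  have hmp := hm.isPrime
  have hunit : ∀ b : A, b ∉ m → IsUnit (⟨(b : F), hmem b⟩ : O) := fun b hb =>
    hO.isUnit hb hm.ne_top
  have hnunit : ∀ b : A, b ∈ m → ¬ IsUnit (⟨(b : F), hmem b⟩ : O) := by
    intro b hb h
    obtain ⟨c, hc⟩ := h.exists_right_inv
    have hc1 : (b : F) * c = 1 := congrArg Subtype.val hc
    obtain ⟨e, t, ht, het⟩ := (hO c).1 c.2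
    have ht0 : (t : F) ≠ 0 := coe_ne_zero_of_notMem ht
    rw [het] at hc1
    have h3 : b * e = t := by
      apply Subtype.ext
      push_cast
      field_simp at hc1
      exact hc1
    exact ht (h3 ▸ m.mul_mem_right e hb)
  refine ⟨hnoe, hloc, ?_, ?_⟩
  · intro p hp hp0
    have := hp
    apply le_antisymm (le_maximalIdeal hp.ne_top)
    let g : A →+* curveLoc O V := (toCurveLoc hVC).comp (hO.incl hm.ne_top)
    have hg : ∀ a : A, ((g a : curveLoc O V) : ResidueField V) = res V (a : F) := fun a => rfl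
    have hlt : P < p.comap g := by
      refine lt_of_le_of_ne ?_ ?_
      · intro a ha
        rw [Ideal.mem_comap]
        have h3 : g a = 0 := Subtype.ext ((res_eq_zero_iff (hV.2.1 a a.2)).2 ((hP a).1 ha))
        rw [h3]
        exact p.zero_mem
      · intro heq
        apply hp0
        rw [eq_bot_iff]
        intro y hy
        obtain ⟨z, rfl⟩ := hs y
        obtain ⟨e, t, ht, het⟩ := (hO z).1 z.2
        have ht0 : (t : F) ≠ 0 := coe_ne_zero_of_notMem ht
        have h3 : z * ⟨(t : F), hmem t⟩ = ⟨(e : F), hmem e⟩ := by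
          apply Subtype.ext
          change (z : F) * t = e
          rw [het, div_mul_cancel₀ _ ht0]
        have h4 : g e ∈ p := by
          have h5 : g e = toCurveLoc hVC z * toCurveLoc hVC ⟨(t : F), hmem t⟩ := by
            rw [← map_mul, h3]
            rfl
          rw [h5]
          exact p.mul_mem_right _ hy
        have h6 : e ∈ P := by rw [heq]; exact h4
        have h7 : toCurveLoc hVC ⟨(e : F), hmem e⟩ = 0 :=
          Subtype.ext ((res_eq_zero_iff (hV.2.1 e e.2)).2 ((hP e).1 h6))
        have h8 : toCurveLoc hVC z * toCurveLoc hVC ⟨(t : F), hmem t⟩ = 0 := by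
          rw [← map_mul, h3, h7]
        have h9 := (hunit t ht).map (toCurveLoc hVC)
        rw [Ideal.mem_bot]
        exact (h9.mul_left_eq_zero).1 h8
    have hmax := SurC_max_above hn hh hV hP (Ideal.comap_isPrime g p) hlt
    have hpm : p.comap g ≤ m := by
      intro a ha
      by_contra hcon
      exact hp.ne_top (Ideal.eq_top_of_isUnit_mem _ ha ((hunit a hcon).map (toCurveLoc hVC)))
    have heq : p.comap g = m := hmax.eq_of_le hm.ne_top hpm
    intro y hy
    obtain ⟨z, rfl⟩ := hs y
    obtain ⟨e, t, ht, het⟩ := (hO z).1 z.2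
    have ht0 : (t : F) ≠ 0 := coe_ne_zero_of_notMem ht
    have h3 : z * ⟨(t : F), hmem t⟩ = ⟨(e : F), hmem e⟩ := by
      apply Subtype.ext
      change (z : F) * t = e
      rw [het, div_mul_cancel₀ _ ht0]
    have hem : e ∈ m := by
      by_contra hcon
      have h4 := hunit e hcon
      rw [← h3] at h4
      have h5 : IsUnit z := isUnit_of_mul_isUnit_left h4
      exact (mem_maximalIdeal _).1 hy (h5.map _)
    rw [← heq] at hem
    have h5 : g e = toCurveLoc hVC z * toCurveLoc hVC ⟨(t : F), hmem t⟩ := by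
      rw [← map_mul, h3]
      rfl
    have h6 : toCurveLoc hVC z * toCurveLoc hVC ⟨(t : F), hmem t⟩ ∈ p := by
      rw [← h5]
      exact hem
    have h7 := (hunit t ht).map (toCurveLoc hVC)
    rcases hp.mem_or_mem h6 with h8 | h8
    · exact h8
    · exact absurd (Ideal.eq_top_of_isUnit_mem _ h8 h7) hp.ne_top
  · intro a ha
    have h3 : (⟨res V (a : F), ha⟩ : curveLoc O V) = toCurveLoc hVC ⟨(a : F), hmem a⟩ := rfl
    rw [h3, mem_maximalIdeal, mem_nonunits_iff]
    constructor
    · intro h4
      by_contra hcon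
      exact h4 ((hunit a hcon).map _)
    · intro h4 h5
      exact hnunit a h4 (isUnit_of_map_unit _ _ h5)

end

end Pool.Agent.Lib.MP_b197b4_ntA
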