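import Mathlib
import Pool.Agent.Lib.MP_b197b4_ntA.SurC1
import Pool.Agent.Lib.MP_b197b4_ntA.Cur1

/-!
# MP_b197b4_nt, project K1-ALL, leaf S3: places of a curve on a projective surface
-/

set_option autoImplicit false

namespace Pool.Agent.Lib.MP_b197b4_ntA

open IsLocalRing Pool.Agent.Lib.MP_b197b4_ntK

section

variable {F : Type} [Field F] {V : ValuationSubring F}

/-- The composite of the valuation ring `V` and a valuation ring `W` of its residue field. -/
noncomputable def SurC_comp (V : ValuationSubring F) (W : ValuationSubring (ResidueField V)) :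
    ValuationSubring F where
  carrier := {x | x ∈ V ∧ res V x ∈ W}
  mul_mem' := by
    rintro a b ⟨ha, ha'⟩ ⟨hb, hb'⟩
    exact ⟨V.mul_mem _ _ ha hb, by rw [res_mul ha hb]; exact W.mul_mem _ _ ha' hb'⟩
  one_mem' := ⟨V.one_mem, by rw [res_one]; exact W.one_mem⟩
  add_mem' := by
    rintro a b ⟨ha, ha'⟩ ⟨hb, hb'⟩
    exact ⟨V.add_mem _ _ ha hb, by rw [res_add ha hb]; exact W.add_mem _ _ ha' hb'⟩
  zero_mem' := ⟨V.zero_mem, by rw [res_zero]; exact W.zero_mem⟩
  neg_mem' := by
    rintro a ⟨ha, ha'⟩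
    exact ⟨V.neg_mem _ ha, by rw [res_neg ha]; exact W.neg_mem _ ha'⟩
  mem_or_inv_mem' := by
    intro x
    by_cases hx : x ∈ V
    · by_cases h0 : res V x = 0
      · left
        exact ⟨hx, by rw [h0]; exact W.zero_mem⟩
      · have h1 := (res_ne_zero_iff hx).1 h0
        have h2 : x⁻¹ ∈ V := by
          rw [← ValuationSubring.valuation_le_one_iff, map_inv₀, h1, inv_one]
        rcases W.mem_or_inv_mem (res V x) with h3 | h3
        · exact Or.inl ⟨hx, h3⟩
        · exact Or.inr ⟨h2, by rw [res_inv h1]; exact h3⟩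
    · right
      have hx0 : x ≠ 0 := fun h => hx (h ▸ V.zero_mem)
      have h2 : x⁻¹ ∈ V := (V.mem_or_inv_mem x).resolve_left hx
      have h3 : res V x⁻¹ = 0 := by
        rw [res_eq_zero_iff h2, map_inv₀]
        have h4 : ¬ V.valuation x ≤ 1 := fun h => hx ((V.valuation_le_one_iff x).1 h)
        exact inv_lt_one_of_one_lt₀ (not_le.1 h4)
      exact ⟨h2, by rw [h3]; exact W.zero_mem⟩

theorem SurC_mem_comp {W : ValuationSubring (ResidueField V)} {x : F} :
    x ∈ SurC_comp V W ↔ x ∈ V ∧ res V x ∈ W := Iff.rfl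

theorem SurC_val_one {L : Type} [Field L] (W : ValuationSubring L) {x : L} (h : x ∈ W)
    (h' : x⁻¹ ∈ W) (h0 : x ≠ 0) : W.valuation x = 1 := by
  have h1 := (W.valuation_le_one_iff _).2 h
  have h2 := (W.valuation_le_one_iff _).2 h'
  rw [map_inv₀] at h2
  have h3 : W.valuation x ≠ 0 := by
    rw [Ne, map_eq_zero]
    exact h0
  exact le_antisymm h1 ((inv_le_one₀ (zero_lt_iff.2 h3)).1 h2)

theorem SurC_comp_one {W : ValuationSubring (ResidueField V)} {x : F} (hx : x ∈ V) :
    (SurC_comp V W).valuation x = 1 ↔ W.valuation (res V x) = 1 := by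
  constructor
  · intro h
    have hx0 : x ≠ 0 := by
      rintro rfl
      rw [map_zero] at h
      exact zero_ne_one h
    have h1 : x ∈ SurC_comp V W := mem_of_val_one h
    have h2 : x⁻¹ ∈ SurC_comp V W := by
      rw [← ValuationSubring.valuation_le_one_iff, map_inv₀, h, inv_one]
    have h3 := SurC_val_one V h1.1 h2.1 hx0
    refine SurC_val_one W h1.2 ?_ ((res_ne_zero_iff hx).2 h3)
    rw [← res_inv h3]
    exact h2.2
  · intro h
    have h0 : res V x ≠ 0 := by
      intro h0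
      rw [h0, map_zero] at h
      exact zero_ne_one h
    have h1 := (res_ne_zero_iff hx).1 h0
    refine SurC_val_one _ ⟨hx, mem_of_val_one h⟩ ⟨?_, ?_⟩ (ne_zero_of_val_one h1)
    · rw [← ValuationSubring.valuation_le_one_iff, map_inv₀, h1, inv_one]
    · rw [res_inv h1, ← ValuationSubring.valuation_le_one_iff, map_inv₀, h, inv_one]

end

section

variable {k : Type} {F : Type} [Field k] [Field F] [Algebra k F] {A : Subalgebra k F}
  {V : ValuationSubring F} {m : Ideal A} {O : Subring F}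

/-- A valuation ring which contains the local ring of the curve at a point, dominates it. -/
theorem SurC_dom (hfg : A.FG) (hh : ∀ m : Ideal A, m.IsMaximal → m.height = 2)
    (hV : IsCurve A V) (hm : m.IsMaximal) (hO : IsLoc A m O) (hOV : (O : Set F) ⊆ V)
    {W : ValuationSubring (ResidueField V)} (hW : W ≠ ⊤)
    (h : ∀ y ∈ curveLoc O V, y ∈ W) (a : A) : a ∉ m ↔ W.valuation (res V (a : F)) = 1 := by
  have hft : Algebra.FiniteType k A := A.fg_iff_finiteType.1 hfg
  have hn : IsNoetherianRing A := Algebra.FiniteType.isNoetherianRing k A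
  have hVC : V ∈ CurvesAt O := (hO.mem_curvesAt hm.ne_top V).2 ⟨hV, hOV⟩
  have hmem : ∀ b : A, (b : F) ∈ O := fun b => hO.coe_mem hm.ne_top b
  have hR : ∀ b : O, res V (b : F) ∈ W := fun b => h _ ((mem_curveLoc hVC _).2 ⟨b, rfl⟩)
  have hAW : ∀ b : A, res V (b : F) ∈ W := fun b => hR ⟨b, hmem b⟩
  obtain ⟨P, hPp, hP⟩ := exists_primeOf hV.2.1
  have hPm := le_of_subset hP hO hOV
  have key : ∀ b : A, b ∉ m → W.valuation (res V (b : F)) = 1 := by
    intro b hb
    have h1 : (b : F)⁻¹ ∈ O := hO.inv_mem hb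
    have hbP : b ∉ P := fun h => hb (hPm h)
    have h2 := (hP.val_one hV.2.1 b).1 hbP
    refine SurC_val_one W (hAW b) ?_ ((res_ne_zero_iff (hV.2.1 b b.2)).2 h2)
    rw [← res_inv h2]
    exact hR ⟨_, h1⟩
  refine ⟨key a, ?_⟩
  intro ha ham
  let g : A →+* W :=
    { toFun := fun b => ⟨res V (b : F), hAW b⟩
      map_one' := Subtype.ext (res_one V)
      map_mul' := fun b c => Subtype.ext (res_mul (hV.2.1 b b.2) (hV.2.1 c c.2))
      map_zero' := Subtype.ext (res_zero V)
      map_add' := fun b c => Subtype.ext (res_add (hV.2.1 b b.2) (hV.2.1 c c.2)) }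
  let q : Ideal A := (maximalIdeal W).comap g
  have hq : ∀ b : A, b ∈ q ↔ W.valuation (res V (b : F)) < 1 := by
    intro b
    rw [Ideal.mem_comap]
    exact ValuationSubring.valuation_lt_one_iff W (g b)
  have hqp : q.IsPrime := Ideal.comap_isPrime g _
  have hqm : q ≤ m := by
    intro b hb
    by_contra hcon
    have h1 := key b hcon
    have h2 := (hq b).1 hb
    rw [h1] at h2
    exact lt_irrefl _ h2
  have hPq : P ≤ q := by
    intro b hb
    rw [hq, (res_eq_zero_iff (hV.2.1 b b.2)).2 ((hP b).1 hb), map_zero]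
    exact zero_lt_one
  have hne : P ≠ q := by
    intro heq
    apply hW
    rw [eq_top_iff]
    rintro z -
    obtain ⟨b, s, hs, rfl⟩ := hV.res_frac z
    have hsP : s ∉ q := by
      rw [← heq]
      exact (hP.val_one hV.2.1 s).2 hs
    have h1 : W.valuation (res V (s : F)) = 1 := by
      have h2 := (W.valuation_le_one_iff _).2 (hAW s)
      rw [hq, not_lt] at hsP
      exact le_antisymm h2 hsP
    rw [div_eq_mul_inv]
    refine W.mul_mem _ _ (hAW b) ?_
    rw [← ValuationSubring.valuation_le_one_iff, map_inv₀, h1, inv_one]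
  have hmax := SurC_max_above hn hh hV hP hqp (lt_of_le_of_ne hPq hne)
  have heq : q = m := hmax.eq_of_le hm.ne_top hqm
  rw [← heq, hq, ha] at ham
  exact lt_irrefl _ ham

/-- The point is determined by a valuation ring dominating the local ring of the curve. -/
theorem SurC_loc_eq (hfg : A.FG) (hh : ∀ m : Ideal A, m.IsMaximal → m.height = 2)
    (hV : IsCurve A V) (hm : m.IsMaximal) (hO : IsLoc A m O) (hOV : (O : Set F) ⊆ V)
    {W : ValuationSubring (ResidueField V)} (hW : W ≠ ⊤)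
    (h : ∀ y ∈ curveLoc O V, y ∈ W) : (O : Set F) = locAt A (SurC_comp V W) := by
  ext z
  have h1 : z ∈ (O : Set F) ↔ z ∈ O := Iff.rfl
  rw [h1, hO]
  constructor
  · rintro ⟨a, s, hs, hz⟩
    refine ⟨a, s, a.2, s.2, ?_, hz⟩
    rw [SurC_comp_one (hV.2.1 s s.2)]
    exact (SurC_dom hfg hh hV hm hO hOV hW h s).1 hs
  · rintro ⟨a, s, ha, hs, hs1, hz⟩
    refine ⟨⟨a, ha⟩, ⟨s, hs⟩, ?_, hz⟩
    rw [SurC_comp_one (hV.2.1 s hs)] at hs1
    exact (SurC_dom hfg hh hV hm hO hOV hW h ⟨s, hs⟩).2 hs1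

/-- **Separatedness**: two points of the surface which are centres of the same place of a curve
are equal. -/
theorem SurC_unique {n : ℕ} {x : Fin (n + 1) → F} (hx : NSurf k x) {V : ValuationSubring F}
    (hV : V ∈ Curves (charts k x)) {O O' : Subring F} (hO : O ∈ Points (charts k x))
    (hO' : O' ∈ Points (charts k x)) (hOV : (O : Set F) ⊆ V) (hOV' : (O' : Set F) ⊆ V)
    {W : ValuationSubring (ResidueField V)} (hW : W ≠ ⊤) (h : ∀ y ∈ curveLoc O V, y ∈ W)
    (h' : ∀ y ∈ curveLoc O' V, y ∈ W) : O = O' := by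
  have hsep := sep_charts (k := k) hx.ne
  have key : ∀ O ∈ Points (charts k x), (O : Set F) ⊆ V → (∀ y ∈ curveLoc O V, y ∈ W) →
      ∃ A ∈ charts k x, (O : Set F) = locAt A (SurC_comp V W) ∧
        ∀ a ∈ A, a ∈ SurC_comp V W := by
    rintro O ⟨A, hA, m, hm, hAO⟩ hOV h
    have hc := isCurve_of_sep hsep hV hA
      fun a ha => hOV (hAO.coe_mem hm.ne_top ⟨a, ha⟩)
    have hVC : V ∈ CurvesAt O := (hAO.mem_curvesAt hm.ne_top V).2 ⟨hc, hOV⟩
    obtain ⟨i, rfl⟩ := hA
    refine ⟨_, ⟨i, rfl⟩, SurC_loc_eq (chart_fg k x i) (hx.chart i).height hc hm hAO hOV hW h, ?_⟩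
    intro a ha
    have h1 := hAO.coe_mem hm.ne_top ⟨a, ha⟩
    exact ⟨hOV h1, h _ ((mem_curveLoc hVC _).2 ⟨⟨a, h1⟩, rfl⟩)⟩
  obtain ⟨A, hA, h1, h2⟩ := key O hO hOV h
  obtain ⟨A', hA', h3, h4⟩ := key O' hO' hOV' h'
  apply SetLike.coe_injective
  rw [h1, h3]
  exact Set.Subset.antisymm (hsep _ A hA A' hA' h2 h4) (hsep _ A' hA' A hA h4 h2)

end

section

variable {L : Type} [Field L]

/-- Length in a discrete valuation ring. -/
theorem SurC_hasLen {W : ValuationSubring L} (hW : IsDiscreteValuationRing W) {u : L}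
    (hu : u ≠ 0) : HasLen W.toSubring u (ord W u) ∧ ∀ n, HasLen W.toSubring u n → n = ord W u := by
  have hW' : IsDiscreteValuationRing W.toSubring := hW
  have key : ∀ (a : W.toSubring), (a : L) ≠ 0 → ∃ r : ℕ,
      Module.length W.toSubring (W.toSubring ⧸ Ideal.span {a}) = r ∧ (r : ℤ) = ord W (a : L) := by
    intro a ha
    obtain ⟨p, hp⟩ := IsDiscreteValuationRing.exists_irreducible W.toSubring
    have ha' : a ≠ 0 := fun h => ha (by rw [h]; rfl)
    obtain ⟨n, v, hv⟩ := IsDiscreteValuationRing.eq_unit_mul_pow_irreducible ha' hp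
    refine ⟨n, ?_, ?_⟩
    · have h1 := Ring.ord_pow (R := W.toSubring) (x := p)
        (mem_nonZeroDivisors_of_ne_zero hp.ne_zero) n
      rw [Ring.ord_of_irreducible hp] at h1
      have h2 := Ring.ord_mul_of_isUnit_left (R := W.toSubring) v.isUnit (p ^ n)
      rw [h1, ← hv] at h2
      have h3 : Ring.ord W.toSubring a
        = Module.length W.toSubring (W.toSubring ⧸ Ideal.span {a}) := rfl
      rw [← h3, h2]
      simp
    · symm
      apply ord_eq
      have hp' : Irreducible (M := W) p := hp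
      refine ⟨p, (v : (W.toSubring)ˣ), hp', ?_⟩
      rw [hv]
      push_cast
      rw [zpow_natCast, mul_comm]
  constructor
  · obtain ⟨a, b, hb, hab⟩ : ∃ a b : W.toSubring, (b : L) ≠ 0 ∧ u = a / b := by
      rcases W.mem_or_inv_mem u with h | h
      · exact ⟨⟨u, h⟩, 1, one_ne_zero, by simp⟩
      · exact ⟨1, ⟨u⁻¹, h⟩, inv_ne_zero hu, by simp⟩
    have ha : (a : L) ≠ 0 := by
      intro h
      rw [h, zero_div] at hab
      exact hu hab
    obtain ⟨r, hr, hr'⟩ := key a ha
    obtain ⟨s, hs, hs'⟩ := key b hb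
    refine ⟨a, b, r, s, ha, hb, hab, hr, hs, ?_⟩
    rw [hr', hs', hab, ord_div hW ha hb]
  · rintro n ⟨a, b, r, s, ha, hb, hab, hr, hs, rfl⟩
    obtain ⟨r', hr1, hr'⟩ := key a ha
    obtain ⟨s', hs1, hs'⟩ := key b hb
    rw [hr] at hr1
    rw [hs] at hs1
    have h1 : r = r' := by exact_mod_cast hr1
    have h2 : s = s' := by exact_mod_cast hs1
    rw [h1, h2, hr', hs', hab, ord_div hW ha hb]

theorem SurC_len {R : Subring L} {W : ValuationSubring L} (h : ∀ y, y ∈ R ↔ y ∈ W)
    (hW : IsDiscreteValuationRing W) {u : L} (hu : u ≠ 0) : len R u = ord W u := by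
  have h1 : R = W.toSubring := SetLike.ext h
  subst h1
  obtain ⟨h2, h3⟩ := SurC_hasLen hW hu
  unfold len
  rw [dif_pos ⟨_, h2⟩]
  exact h3 _ (Exists.choose_spec (⟨_, h2⟩ : ∃ n, HasLen W.toSubring u n))

end

end Pool.Agent.Lib.MP_b197b4_ntA
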