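import Mathlib
import Pool.Agent.Lib.MP_b197b4_ntA.SurC2

/-!
# MP_b197b4_nt, project K1-ALL, leaf S3: the local theorem in terms of places
-/

set_option autoImplicit false

namespace Pool.Agent.Lib.MP_b197b4_ntA

open IsLocalRing Pool.Agent.Lib.MP_b197b4_ntK

section

variable {k : Type} {F : Type} [Field k] [Field F] [Algebra k F] {A : Subalgebra k F}
  {V : ValuationSubring F} {m : Ideal A} {O : Subring F}

/-- The local ring of a regular curve at the centre of a place. -/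
theorem SurC_reg {B : Subalgebra k F} {m : Ideal B} (hm : m.IsPrime) (hO : IsLoc B m O)
    (hV : IsCurve B V) {W : ValuationSubring (ResidueField V)} (hc : Center B V W m)
    (hr : RegAt B V W) : (O : Set F) ⊆ V ∧ ∀ y, y ∈ curveLoc O V ↔ y ∈ W := by
  have h1 : ∀ s : B, s ∉ m → W.valuation (res V (s : F)) = 1 := by
    intro s hs
    obtain ⟨h2, h3, h4⟩ := hc s
    have h5 := (W.valuation_le_one_iff _).2 h3
    exact le_antisymm h5 (not_lt.1 fun h => hs (h4.2 h))
  have h2 : ∀ s : B, s ∉ m → V.valuation (s : F) = 1 := by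
    intro s hs
    rw [← res_ne_zero_iff (hV.2.1 s s.2)]
    intro h0
    have h3 := h1 s hs
    rw [h0, map_zero] at h3
    exact zero_ne_one h3
  have hOV : (O : Set F) ⊆ V := by
    intro z hz
    obtain ⟨a, s, hs, rfl⟩ := (hO z).1 hz
    rw [div_eq_mul_inv]
    refine V.mul_mem _ _ (hV.2.1 a a.2) ?_
    rw [← ValuationSubring.valuation_le_one_iff, map_inv₀, h2 s hs, inv_one]
  refine ⟨hOV, fun y => ?_⟩
  have hVC : V ∈ CurvesAt O := (hO.mem_curvesAt hm.ne_top V).2 ⟨hV, hOV⟩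
  rw [mem_curveLoc hVC]
  constructor
  · rintro ⟨z, rfl⟩
    obtain ⟨a, s, hs, hz⟩ := (hO z).1 z.2
    rw [hz, res_div (hV.2.1 a a.2) (h2 s hs), div_eq_mul_inv]
    refine W.mul_mem _ _ (hc a).2.1 ?_
    rw [← ValuationSubring.valuation_le_one_iff, map_inv₀, h1 s hs, inv_one]
  · intro hy
    obtain ⟨a, s, ha, hs, hs1, rfl⟩ := hr y hy
    have hsm : (⟨s, hs⟩ : B) ∉ m := by
      intro h
      have h3 := (hc ⟨s, hs⟩).2.2.1 h
      rw [hs1] at h3
      exact lt_irrefl _ h3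
    have h4 : a / s ∈ O := (hO _).2 ⟨⟨a, ha⟩, ⟨s, hs⟩, hsm, rfl⟩
    exact ⟨⟨_, h4⟩, res_div (hV.2.1 a ha) (h2 ⟨s, hs⟩ hsm)⟩

/-- A power of a function without zeros and poles over the point is a unit there. -/
theorem SurC_power [IsAlgClosed k]
    (halg : ∃ p : ℕ, p.Prime ∧ ∀ a : k, ∃ m : ℕ, 0 < m ∧ a ^ p ^ m = a)
    [Algebra k (ResidueField V)]
    (hc : ∀ c : k, algebraMap k (ResidueField V) c = res V (algebraMap k F c)) (hfg : A.FG)
    (hh : ∀ m : Ideal A, m.IsMaximal → m.height = 2) (hV : IsCurve A V) (hm : m.IsMaximal)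
    (hO : IsLoc A m O) (hOV : (O : Set F) ⊆ V) {u : ResidueField V} (hu : u ≠ 0)
    (h : ∀ W, Place k W → (∀ y ∈ curveLoc O V, y ∈ W) → ord W u = 0) :
    IsIntegral (curveLoc O V) u ∧ IsIntegral (curveLoc O V) u⁻¹ ∧
      ∃ N : ℕ, 0 < N ∧ u ^ N ∈ curveLoc O V ∧ (u ^ N)⁻¹ ∈ curveLoc O V := by
  have hfun := SurC_fun1 hc hfg hh hV
  have hVC : V ∈ CurvesAt O := (hO.mem_curvesAt hm.ne_top V).2 ⟨hV, hOV⟩
  have hmem : ∀ b : A, (b : F) ∈ O := fun b => hO.coe_mem hm.ne_top b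
  have hkO : ∀ c : k, algebraMap k F c ∈ O := fun c => hmem (algebraMap k A c)
  have hk : ∀ c : k, algebraMap k (ResidueField V) c ∈ curveLoc O V := by
    intro c
    rw [hc, mem_curveLoc hVC]
    exact ⟨⟨_, hkO c⟩, rfl⟩
  have hint : ∀ v : ResidueField V, v ≠ 0 →
      (∀ W, Place k W → (∀ y ∈ curveLoc O V, y ∈ W) → ord W v = 0) →
      IsIntegral (curveLoc O V) v := by
    intro v hv hW
    have h1 : v ∈ (integralClosure (Subring.closure (curveLoc O V : Set (ResidueField V)))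
        (ResidueField V)).toSubring := by
      rw [← iInf_valuationSubring_superset, Subring.mem_iInf]
      rintro ⟨W, hWs⟩
      have hWs' : ∀ y ∈ curveLoc O V, y ∈ W := fun y hy => hWs hy
      change v ∈ W
      by_cases htop : W = ⊤
      · rw [htop]
        exact ValuationSubring.mem_top v
      · have hov : Over k W := fun c => hWs' _ (hk c)
        have hd := C1_dvr hfun W hov htop
        exact (ord_nonneg_iff hd hv).1 (hW W ⟨hd, hov⟩ hWs').ge
    rw [Subring.closure_eq] at h1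
    exact h1
  have hi1 := hint u hu h
  have hi2 := hint u⁻¹ (inv_ne_zero hu) fun W hW hWs => by
    rw [ord_inv hW.1 hu, h W hW hWs, neg_zero]
  refine ⟨hi1, hi2, ?_⟩
  obtain ⟨hnoe, hloc, hdim, hmax⟩ := SurC_local hfg hh hV hm hO hOV
  have hres : ∀ a : curveLoc O V, ∃ c : k,
      a - ⟨algebraMap k (ResidueField V) c, hk c⟩ ∈ maximalIdeal (curveLoc O V) := by
    rintro ⟨z, hz⟩
    obtain ⟨y, rfl⟩ := (mem_curveLoc hVC z).1 hz
    obtain ⟨a, s, hs, hy⟩ := (hO y).1 y.2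
    obtain ⟨ca, hca⟩ := exists_const_sub_mem hfg m a
    obtain ⟨cs, hcs⟩ := exists_const_sub_mem hfg m s
    have hs0 : (s : F) ≠ 0 := coe_ne_zero_of_notMem hs
    have hcs0 : cs ≠ 0 := by
      rintro rfl
      rw [map_zero, sub_zero] at hcs
      exact hs hcs
    refine ⟨ca / cs, ?_⟩
    -- the element `a cs - ca s` of `m`
    set e : A := a * algebraMap k A cs - algebraMap k A ca * s with he
    have hem : e ∈ m := by
      have h2 : e = (a - algebraMap k A ca) * algebraMap k A cs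
          - algebraMap k A ca * (s - algebraMap k A cs) := by
        rw [he]
        ring
      rw [h2]
      exact m.sub_mem (m.mul_mem_right _ hca) (m.mul_mem_left _ hcs)
    have hcF : algebraMap k F cs ≠ 0 := by
      rw [Ne, map_eq_zero]
      exact hcs0
    have hinv : ((s : F) * algebraMap k F cs)⁻¹ ∈ O := by
      rw [mul_inv]
      refine O.mul_mem (hO.inv_mem hs) ?_
      rw [← map_inv₀]
      exact hkO _
    have h3 : (y : F) - algebraMap k F (ca / cs) = (e : F) * ((s : F) * algebraMap k F cs)⁻¹ := by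
      rw [he, hy, map_div₀]
      push_cast
      field_simp
    have h6 : res V (e : F) ∈ curveLoc O V := (mem_curveLoc hVC _).2 ⟨⟨_, hmem e⟩, rfl⟩
    have h7 := (hmax e h6).2 hem
    have h8 : (⟨res V (y : F), hz⟩ : curveLoc O V)
        - ⟨algebraMap k (ResidueField V) (ca / cs), hk _⟩
        = ⟨res V (e : F), h6⟩ * ⟨res V (((s : F) * algebraMap k F cs)⁻¹),
          (mem_curveLoc hVC _).2 ⟨⟨_, hinv⟩, rfl⟩⟩ := by
      apply Subtype.ext
      change res V (y : F) - algebraMap k (ResidueField V) (ca / cs) = res V (e : F) * _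
      rw [hc, ← res_sub (hOV y.2) (hOV (hkO _)), h3, res_mul (hOV (hmem e)) (hOV hinv)]
    rw [h8]
    exact Ideal.mul_mem_right _ _ h7
  have hfrac : ∀ z : ResidueField V, ∃ a b : curveLoc O V,
      (b : ResidueField V) ≠ 0 ∧ z = (a : ResidueField V) / b := by
    intro z
    obtain ⟨a, s, hs, hz⟩ := hV.res_frac z
    exact ⟨⟨_, (mem_curveLoc hVC _).2 ⟨⟨_, hmem a⟩, rfl⟩⟩,
      ⟨_, (mem_curveLoc hVC _).2 ⟨⟨_, hmem s⟩, rfl⟩⟩,
      (res_ne_zero_iff (hV.2.1 s s.2)).2 hs, hz⟩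
  exact SurC0_pow_mem halg (curveLoc O V) hdim hfrac hk hres hu hi1 hi2

end

theorem SurC_ne_top {L : Type} [Field L] {W : ValuationSubring L}
    (hW : IsDiscreteValuationRing W) : W ≠ ⊤ := by
  intro h
  obtain ⟨p, hp⟩ := IsDiscreteValuationRing.exists_irreducible W
  have h0 : ∀ z : L, z ∈ W := fun z => by
    rw [h]
    exact ValuationSubring.mem_top z
  have h1 : (p : L)⁻¹ ∈ W := h0 _
  have h2 : (p : L) ≠ 0 := fun h0 => hp.ne_zero (Subtype.ext h0)
  exact hp.not_isUnit (IsUnit.of_mul_eq_one (⟨_, h1⟩ : W) (Subtype.ext (mul_inv_cancel₀ h2)))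

theorem SurC_dvr_congr {L : Type} [Field L] {R S : Subring L} (h : R = S)
    (hS : IsDiscreteValuationRing S) : IsDiscreteValuationRing R := by
  subst h
  exact hS

/-- A discrete valuation ring with the right field of fractions is a place. -/
theorem SurC_place {k L : Type} [Field k] [Field L] [Algebra k L] {R : Subring L}
    (hR : IsDiscreteValuationRing R) (hfrac : ∀ x : L, ∃ a b : R, (b : L) ≠ 0 ∧ x = a / b)
    (hk : ∀ c : k, algebraMap k L c ∈ R) :
    ∃ W : ValuationSubring L, Place k W ∧ ∀ y, y ∈ W ↔ y ∈ R := by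
  let W : ValuationSubring L :=
    { R with
      mem_or_inv_mem' := by
        intro x
        obtain ⟨a, b, hb, rfl⟩ := hfrac x
        rcases ValuationRing.dvd_total b a with ⟨c, hc⟩ | ⟨c, hc⟩
        · left
          have h1 : (a : L) / b = c := by
            rw [hc]
            push_cast
            field_simp
          change (a : L) / b ∈ R
          rw [h1]
          exact c.2
        · right
          change ((a : L) / b)⁻¹ ∈ R
          by_cases ha : (a : L) = 0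
          · rw [ha, zero_div, inv_zero]
            exact R.zero_mem
          · have h1 : ((a : L) / b)⁻¹ = c := by
              rw [hc]
              push_cast
              field_simp
            rw [h1]
            exact c.2 }
  exact ⟨W, ⟨hR, hk⟩, fun y => Iff.rfl⟩

theorem SurC_pow_all {L : Type} [Field L] {ι : Type} (R : ι → Subring L) (u : L) (S : Finset ι)
    (h : ∀ i ∈ S, ∃ N : ℕ, 0 < N ∧ u ^ N ∈ R i ∧ (u ^ N)⁻¹ ∈ R i) :
    ∃ N : ℕ, 0 < N ∧ ∀ i ∈ S, u ^ N ∈ R i ∧ (u ^ N)⁻¹ ∈ R i := by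
  classical
  induction S using Finset.induction_on with
  | empty => exact ⟨1, one_pos, fun i hi => absurd hi (Finset.notMem_empty i)⟩
  | insert j S _ ih =>
    obtain ⟨N, hN, hN1⟩ := ih fun i hi => h i (Finset.mem_insert_of_mem hi)
    obtain ⟨M, hM, hM1, hM2⟩ := h j (Finset.mem_insert_self _ _)
    refine ⟨N * M, Nat.mul_pos hN hM, ?_⟩
    intro i hi
    rcases Finset.mem_insert.1 hi with rfl | hi
    · rw [mul_comm N M, pow_mul]
      refine ⟨(R i).pow_mem hM1 N, ?_⟩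
      rw [← inv_pow]
      exact (R i).pow_mem hM2 N
    · obtain ⟨h1, h2⟩ := hN1 i hi
      rw [pow_mul]
      refine ⟨(R i).pow_mem h1 M, ?_⟩
      rw [← inv_pow]
      exact (R i).pow_mem h2 M

/-- S3. -/
theorem ltp_of_localN {k E : Type} [Field k] [IsAlgClosed k]
    (halg : ∃ p : ℕ, p.Prime ∧ ∀ a : k, ∃ m : ℕ, 0 < m ∧ a ^ p ^ m = a) (hP : Pic k)
    [Field E] [Algebra k E] {N : ℕ} {y : Fin (N + 1) → E} (hy : NSurf k y)
    {l : ∀ V : ValuationSubring E, ResidueField V → ℚ}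
    (hl : ∀ V ∈ Curves (charts k y), ∀ a b : ResidueField V, a ≠ 0 → b ≠ 0 →
      l V (a * b) = l V a + l V b) (hL : LocalN (charts k y) l) (B : Subalgebra k E)
    (h2 : ∀ m : Ideal B, RegMax m → ∀ O : Subring E, IsLoc B m O → O ∈ Points (charts k y)) :
    ∃ h : Ideal B → ℚ, ∀ V, IsCurve B V → ∀ hV, Given k l V hV →
      ∀ W W' m m', IsPlace k V W → IsPlace k V W' → RegMax m → RegMax m' →
        Center B V W m → Center B V W' m' → RegAt B V W → RegAt B V W' →
        hV W - hV W' = h m - h m' := by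
  classical
  obtain ⟨h, hh⟩ := hL
  let pt : Ideal B → Subring E := fun m => if hm : m.IsPrime then locSub B m else ⊥
  have hpt : ∀ m : Ideal B, m.IsPrime → IsLoc B m (pt m) := by
    intro m hm x
    simp only [pt, dif_pos hm]
    exact Iff.rfl
  refine ⟨fun m => h (pt m), ?_⟩
  intro V hV hVf hG W W' m m' hW hW' hm hm' hc hc' hr hr'
  have hmp := hm.1.isPrime
  have hmp' := hm'.1.isPrime
  have hO := hpt m hmp
  have hO' := hpt m' hmp'
  obtain ⟨hOV, hcl⟩ := SurC_reg hmp hO hV hc hr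
  obtain ⟨hOV', hcl'⟩ := SurC_reg hmp' hO' hV hc' hr'
  have hOp := h2 m hm _ hO
  have hOp' := h2 m' hm' _ hO'
  by_cases hne : W = W'
  · subst hne
    have h3 : m = m' := by
      ext a
      rw [(hc a).2.2, (hc' a).2.2]
    rw [h3, sub_self, sub_self]
  -- `V` is a curve of the surface
  have hVC : V ∈ Curves (charts k y) := by
    obtain ⟨A, hA, n, hn, hAO⟩ := hOp
    have h3 : V ∈ CurvesAt (pt m) := (hO.mem_curvesAt hmp.ne_top V).2 ⟨hV, hOV⟩
    exact ⟨A, hA, ((hAO.mem_curvesAt hn.ne_top V).1 h3).1⟩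
  let alg : Algebra k (ResidueField V) := ((resHom hV.2.1).comp (algebraMap k B)).toAlgebra
  have hcst : ∀ c : k, algebraMap k (ResidueField V) c = res V (algebraMap k E c) :=
    fun c => resHom_apply hV.2.1 _
  have hPl : ∀ W : ValuationSubring (ResidueField V), IsPlace k V W ↔ Place k W := by
    intro W
    unfold IsPlace Place Over
    simp only [hcst]
  have hfun : FunF k (ResidueField V) 1 := by
    obtain ⟨_, ⟨i, rfl⟩, hVA⟩ := hVC
    exact SurC_fun1 hcst (chart_fg k y i) (hy.chart i).height hVA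
  obtain ⟨u, M, hu, hM, hu1, hu2, hu3⟩ := hP (ResidueField V) hfun W W' ((hPl W).1 hW)
    ((hPl W').1 hW') hne
  have hsep := sep_charts (k := k) hy.ne
  -- the other points of the curve
  have hplace : ∀ O₁ ∈ Points (charts k y), (O₁ : Set E) ⊆ V → O₁ ≠ pt m → O₁ ≠ pt m' →
      ∀ W₁, Place k W₁ → (∀ z ∈ curveLoc O₁ V, z ∈ W₁) → ord W₁ u = 0 := by
    intro O₁ hO₁ hOV₁ h3 h4 W₁ hW₁ h5
    by_cases h6 : W₁ = W
    · exfalso
      subst h6
      exact h3 (SurC_unique hy hVC hO₁ hOp hOV₁ hOV (SurC_ne_top hW₁.1) h5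
        fun z hz => (hcl z).1 hz)
    · by_cases h7 : W₁ = W'
      · exfalso
        subst h7
        exact h4 (SurC_unique hy hVC hO₁ hOp' hOV₁ hOV' (SurC_ne_top hW₁.1) h5
          fun z hz => (hcl' z).1 hz)
      · exact hu3 W₁ hW₁ h6 h7
  have hchart : ∀ O₁ ∈ Points (charts k y), (O₁ : Set E) ⊆ V →
      ∃ (A : Subalgebra k E) (n : Ideal A), A.FG ∧
        (∀ m : Ideal A, m.IsMaximal → m.height = 2) ∧ IsCurve A V ∧ n.IsMaximal ∧
        IsLoc A n O₁ := by
    rintro O₁ ⟨A, hA, n, hn, hAO⟩ hOV₁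
    have hc := isCurve_of_sep hsep hVC hA fun a ha => hOV₁ (hAO.coe_mem hn.ne_top ⟨a, ha⟩)
    obtain ⟨i, rfl⟩ := hA
    exact ⟨_, n, chart_fg k y i, (hy.chart i).height, hc, hn, hAO⟩
  have hpow : ∀ O₁ ∈ Points (charts k y), (O₁ : Set E) ⊆ V → O₁ ≠ pt m → O₁ ≠ pt m' →
      ∃ N : ℕ, 0 < N ∧ u ^ N ∈ curveLoc O₁ V ∧ (u ^ N)⁻¹ ∈ curveLoc O₁ V := by
    intro O₁ hO₁ hOV₁ h3 h4
    obtain ⟨A, n, hfg, hhA, hVA, hn, hAO⟩ := hchart O₁ hO₁ hOV₁
    exact (SurC_power halg hcst hfg hhA hVA hn hAO hOV₁ hu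
      (hplace O₁ hO₁ hOV₁ h3 h4)).2.2
  -- the two points are good
  have hgood : ∀ (m : Ideal B) (W : ValuationSubring (ResidueField V)), RegMax m →
      IsPlace k V W → (∀ z, z ∈ curveLoc (pt m) V ↔ z ∈ W) → GoodPt (pt m) V := by
    intro m W hm hW hcl
    have hmp := hm.1.isPrime
    have hO := hpt m hmp
    constructor
    · let := (hO.incl hmp.ne_top).toAlgebra
      have := hO.isLocalization
      have := hm.2 hmp
      exact IsRegularLocalRing.of_ringEquiv
        (IsLocalization.algEquiv m.primeCompl (Localization.AtPrime m) (pt m)).toRingEquiv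
    · have h3 : curveLoc (pt m) V = W.toSubring := SetLike.ext hcl
      exact SurC_dvr_congr h3 hW.1
  have hg := hgood m W hm hW hcl
  have hg' := hgood m' W' hm' hW' hcl'
  have hbadf : {O₁ | O₁ ∈ Points (charts k y) ∧ (O₁ : Set E) ⊆ V ∧ ¬ GoodPt O₁ V}.Finite :=
    good_finite_of_height hy.ne (fun i => (hy.chart i).height) hVC
  obtain ⟨N, hN, hN1⟩ := SurC_pow_all (fun O₁ => curveLoc O₁ V) u hbadf.toFinset (by
    intro O₁ hO₁
    obtain ⟨h3, h4, h5⟩ := hbadf.mem_toFinset.1 hO₁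
    refine hpow O₁ h3 h4 ?_ ?_
    · rintro rfl
      exact h5 hg
    · rintro rfl
      exact h5 hg')
  have huN : u ^ N ≠ 0 := pow_ne_zero _ hu
  have hbad : UnitAtBad (charts k y) V (u ^ N) := fun O₁ h3 h4 h5 =>
    hN1 O₁ (hbadf.mem_toFinset.2 ⟨h3, h4, h5⟩)
  -- all the other points
  have hunit : ∀ O₁ ∈ Points (charts k y), (O₁ : Set E) ⊆ V → O₁ ≠ pt m → O₁ ≠ pt m' →
      len (curveLoc O₁ V) (u ^ N) = 0 := by
    intro O₁ hO₁ hOV₁ h3 h4
    by_cases h5 : GoodPt O₁ V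
    · obtain ⟨A, n, hfg, hhA, hVA, hn, hAO⟩ := hchart O₁ hO₁ hOV₁
      have hVC₁ : V ∈ CurvesAt O₁ := (hAO.mem_curvesAt hn.ne_top V).2 ⟨hVA, hOV₁⟩
      have hmem : ∀ b : A, (b : E) ∈ O₁ := fun b => hAO.coe_mem hn.ne_top b
      have hfrac : ∀ z : ResidueField V, ∃ a b : curveLoc O₁ V,
          (b : ResidueField V) ≠ 0 ∧ z = (a : ResidueField V) / b := by
        intro z
        obtain ⟨a, s, hs, hz⟩ := hVA.res_frac z
        exact ⟨⟨_, (mem_curveLoc hVC₁ _).2 ⟨⟨_, hmem a⟩, rfl⟩⟩,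
          ⟨_, (mem_curveLoc hVC₁ _).2 ⟨⟨_, hmem s⟩, rfl⟩⟩,
          (res_ne_zero_iff (hVA.2.1 s s.2)).2 hs, hz⟩
      have hk : ∀ c : k, algebraMap k (ResidueField V) c ∈ curveLoc O₁ V := by
        intro c
        rw [hcst, mem_curveLoc hVC₁]
        exact ⟨⟨_, hmem (algebraMap k A c)⟩, rfl⟩
      obtain ⟨W₁, hW₁, hW₁'⟩ := SurC_place h5.2 hfrac hk
      have h6 := hplace O₁ hO₁ hOV₁ h3 h4 W₁ hW₁ fun z hz => (hW₁' z).2 hz
      rw [SurC_len (fun z => (hW₁' z).symm) hW₁.1 huN, ord_pow hW₁.1 hu, h6, mul_zero]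
    · obtain ⟨h6, h7⟩ := hbad O₁ hO₁ hOV₁ h5
      exact len_unit _ h6 h7
  have hlen : len (curveLoc (pt m) V) (u ^ N) = N * M := by
    rw [SurC_len hcl hW.1 huN, ord_pow hW.1 hu, hu1]
  have hlen' : len (curveLoc (pt m') V) (u ^ N) = - (N * M) := by
    rw [SurC_len hcl' hW'.1 huN, ord_pow hW'.1 hu, hu2]
    ring
  have hOO : pt m ≠ pt m' := by
    intro h3
    apply hne
    ext z
    rw [← hcl z, ← hcl' z, h3]
  -- the two sums
  have hs1 : l V (u ^ N) = h (pt m) * (N * M) - h (pt m') * (N * M) := by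
    rw [hh V hVC (u ^ N) huN hbad]
    have h3 : ∑ᶠ (O₁) (_ : O₁ ∈ {O₁ : Subring E | O₁ ∈ Points (charts k y) ∧ (O₁ : Set E) ⊆ V}),
        h O₁ * (len (curveLoc O₁ V) (u ^ N) : ℚ) =
        ∑ O₁ ∈ {pt m, pt m'}, h O₁ * (len (curveLoc O₁ V) (u ^ N) : ℚ) := by
      apply finsum_mem_eq_sum_of_inter_support_eq
      ext O₁
      simp only [Set.mem_inter_iff, Set.mem_ofPred_eq, Function.mem_support, Finset.coe_insert,
        Finset.coe_singleton, Set.mem_insert_iff, Set.mem_singleton_iff]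
      constructor
      · rintro ⟨⟨h4, h5⟩, h6⟩
        refine ⟨?_, h6⟩
        by_contra hcon
        rw [not_or] at hcon
        apply h6
        rw [hunit O₁ h4 h5 hcon.1 hcon.2, Int.cast_zero, mul_zero]
      · rintro ⟨h4 | h4, h6⟩
        · exact ⟨by rw [h4]; exact ⟨hOp, hOV⟩, h6⟩
        · exact ⟨by rw [h4]; exact ⟨hOp', hOV'⟩, h6⟩
    have h4 := h3
    rw [Finset.sum_pair hOO, hlen, hlen'] at h4
    refine Eq.trans h4 ?_
    push_cast
    ring
  have hs2 : l V u = hVf W * M - hVf W' * M := by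
    rw [hG u hu]
    have h3 : ∑ᶠ (W₁) (_ : W₁ ∈ {W₁ : ValuationSubring (ResidueField V) | IsPlace k V W₁}),
        hVf W₁ * (ord W₁ u : ℚ) = ∑ W₁ ∈ {W, W'}, hVf W₁ * (ord W₁ u : ℚ) := by
      apply finsum_mem_eq_sum_of_inter_support_eq
      ext W₁
      simp only [Set.mem_inter_iff, Set.mem_ofPred_eq, Function.mem_support, Finset.coe_insert,
        Finset.coe_singleton, Set.mem_insert_iff, Set.mem_singleton_iff]
      constructor
      · rintro ⟨h4, h6⟩
        refine ⟨?_, h6⟩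
        by_contra hcon
        rw [not_or] at hcon
        apply h6
        rw [hu3 W₁ ((hPl W₁).1 h4) hcon.1 hcon.2, Int.cast_zero, mul_zero]
      · rintro ⟨h4 | h4, h6⟩
        · exact ⟨by rw [h4]; exact hW, h6⟩
        · exact ⟨by rw [h4]; exact hW', h6⟩
    have h4 := h3
    rw [Finset.sum_pair hne, hu1, hu2] at h4
    refine Eq.trans h4 ?_
    push_cast
    ring
  have hs3 : ∀ j : ℕ, l V (u ^ j) = j * l V u := by
    have h1 : l V 1 = 0 := by
      have h4 := hl V hVC 1 1 one_ne_zero one_ne_zero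
      rw [mul_one] at h4
      linarith
    intro j
    induction j with
    | zero => rw [pow_zero, h1, Nat.cast_zero, zero_mul]
    | succ j ih =>
      rw [pow_succ, hl V hVC _ _ (pow_ne_zero _ hu) hu, ih]
      push_cast
      ring
  have h5 := hs3 N
  rw [hs1, hs2] at h5
  have hN0 : (N : ℚ) ≠ 0 := by exact_mod_cast hN.ne'
  have hM0 : (M : ℚ) ≠ 0 := by exact_mod_cast hM.ne'
  have h6 : ((N : ℚ) * M) * ((hVf W - hVf W') - (h (pt m) - h (pt m'))) = 0 := by
    linear_combination -h5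
  rcases mul_eq_zero.1 h6 with h7 | h7
  · exact absurd h7 (mul_ne_zero hN0 hM0)
  · exact sub_eq_zero.1 h7

end Pool.Agent.Lib.MP_b197b4_ntA
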