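import Mathlib
import Pool.Agent.Lib.MP_b197b4_ntA.SurA
import Pool.Agent.Lib.MP_b197b4_ntA.SurB
import Pool.Agent.Lib.MP_b197b4_ntA.SurB2
import Pool.Agent.Lib.MP_b197b4_ntA.SurC

/-!
# MP_b197b4_nt, project K1-ALL, block S: `LTnorm` and `Pic` imply `LTP`
-/

set_option autoImplicit false

namespace Pool.Agent.Lib.MP_b197b4_ntA

open IsLocalRing Pool.Agent.Lib.MP_b197b4_ntK

/-- Block S. -/
theorem ltp_of_ltnorm {k : Type} [Field k] [IsAlgClosed k]
    (halg : ∃ p : ℕ, p.Prime ∧ ∀ a : k, ∃ m : ℕ, 0 < m ∧ a ^ p ^ m = a) (hP : Pic k)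
    (hL : LTnorm k) : LTP k := by
  intro E _ _ n x l hl B hB hfr hx
  obtain ⟨N, y, hy, h1, h2, h3, -⟩ := exists_model hl.fun2 x B hB hfr hx
  have hF : Forms k (Curves (charts k y)) l := SurB2_forms hl hy h1
  exact ltp_of_localN halg hP hy hF.mul (hL E N y hy l hF) B h2

end Pool.Agent.Lib.MP_b197b4_ntA
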