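import Mathlib
import Pool.Agent.Lib.MP_b197b4_ntX.X6

/-!
# MP_b197b4_nt, project K1-ALL, block G: a regular curve through a regular point of a surface

If the local ring at `n` is regular of dimension two and the local ring of the curve `P` at `n` is a
valuation ring, then the local ring at `P` is a discrete valuation ring.
-/

set_option autoImplicit false

namespace Pool.Agent.Lib.MP_b197b4_ntA

open IsLocalRing

theorem gtr_span_pair {O : Type} [CommRing O] {u v a b s t : O} (hs : IsUnit s) (ht : IsUnit t)
    (ha : u * s = a) (hb : v * t = b) : Ideal.span {a, b} = Ideal.span {u, v} := by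
  apply le_antisymm
  · rw [Ideal.span_le]
    rintro x (rfl | rfl)
    · rw [← ha]
      exact Ideal.mul_mem_right _ _ (Ideal.subset_span (Or.inl rfl))
    · rw [← hb]
      exact Ideal.mul_mem_right _ _ (Ideal.subset_span (Or.inr rfl))
  · rw [Ideal.span_le]
    rintro x (rfl | rfl)
    · obtain ⟨s', rfl⟩ := hs
      have h1 : x = a * ((s'⁻¹ : Oˣ) : O) := by rw [← ha, mul_assoc, Units.mul_inv, mul_one]
      rw [h1]
      exact Ideal.mul_mem_right _ _ (Ideal.subset_span (Or.inl rfl))
    · obtain ⟨t', rfl⟩ := ht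
      have h1 : x = b * ((t'⁻¹ : Oˣ) : O) := by rw [← hb, mul_assoc, Units.mul_inv, mul_one]
      rw [h1]
      exact Ideal.mul_mem_right _ _ (Ideal.subset_span (Or.inr rfl))

theorem gtr_key {B : Type} [CommRing B] [IsDomain B] [IsNoetherianRing B] (n : Ideal B) [n.IsPrime]
    (hdim : (maximalIdeal (Localization.AtPrime n)).spanFinrank = 2) (P : Ideal B) [P.IsPrime]
    (hPn : P ≤ n) (hne : P ≠ n) (a b : B)
    (hmax : Ideal.span {algebraMap B (Localization.AtPrime n) a, algebraMap B _ b} =
      maximalIdeal (Localization.AtPrime n)) (s c : B) (hs : s ∉ n) (hp : s * b - c * a ∈ P) :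
    IsDiscreteValuationRing (Localization.AtPrime P) := by
  let O := Localization.AtPrime n
  let φ : B →+* O := algebraMap B O
  obtain ⟨p, hpe⟩ : ∃ p, p = s * b - c * a := ⟨_, rfl⟩
  rw [← hpe] at hp
  have hsu : IsUnit (φ s) := IsLocalization.map_units O (⟨s, hs⟩ : n.primeCompl)
  have hNO : IsNoetherianRing O := IsLocalization.isNoetherianRing n.primeCompl O inferInstance
  -- the generators `a`, `p`
  have hmax2 : Ideal.span {φ p} ⊔ Ideal.span {φ a} = maximalIdeal O := by
    rw [← hmax]
    apply le_antisymm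
    · rw [sup_le_iff, Ideal.span_singleton_le_iff_mem, Ideal.span_singleton_le_iff_mem]
      refine ⟨?_, Ideal.subset_span (Or.inl rfl)⟩
      rw [hpe, map_sub, map_mul, map_mul]
      exact Ideal.sub_mem _ (Ideal.mul_mem_left _ _ (Ideal.subset_span (Or.inr rfl)))
        (Ideal.mul_mem_left _ _ (Ideal.subset_span (Or.inl rfl)))
    · rw [Ideal.span_le]
      rintro x (rfl | rfl)
      · exact Ideal.mem_sup_right (Ideal.mem_span_singleton_self _)
      · obtain ⟨s', hs'⟩ := hsu
        have h1 : φ b = ((s'⁻¹ : Oˣ) : O) * φ p + ((s'⁻¹ : Oˣ) : O) * φ c * φ a := by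
          rw [hpe, map_sub, map_mul, map_mul, ← hs']
          have h2 : ((s'⁻¹ : Oˣ) : O) * (s' : O) = 1 := Units.inv_mul s'
          linear_combination (-(φ b)) * h2
        change φ b ∈ _
        rw [h1]
        exact Ideal.add_mem _ (Ideal.mem_sup_left (Ideal.mul_mem_left _ _
          (Ideal.mem_span_singleton_self _))) (Ideal.mem_sup_right (Ideal.mul_mem_left _ _
          (Ideal.mem_span_singleton_self _)))
  -- the prime ideal of the curve
  have hdisj : Disjoint (n.primeCompl : Set B) (P : Set B) := by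
    rw [Set.disjoint_left]
    intro x hx hxP
    exact hx (hPn hxP)
  have hJp : (P.map φ).IsPrime :=
    IsLocalization.isPrime_of_isPrime_disjoint n.primeCompl O P inferInstance hdisj
  have hJc : (P.map φ).comap φ = P :=
    IsLocalization.comap_map_of_isPrime_disjoint n.primeCompl O inferInstance hdisj
  have hpJ : φ p ∈ P.map φ := Ideal.mem_map_of_mem _ hp
  have haJ : φ a ∉ P.map φ := by
    intro h
    have h1 : maximalIdeal O ≤ P.map φ := by
      rw [← hmax2, sup_le_iff, Ideal.span_singleton_le_iff_mem, Ideal.span_singleton_le_iff_mem]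
      exact ⟨hpJ, h⟩
    apply hne
    apply le_antisymm hPn
    rw [← hJc]
    intro x hx
    apply h1
    change φ x ∈ maximalIdeal O
    exact (IsLocalization.AtPrime.to_map_mem_maximal_iff O n x).2 hx
  have hpow : ∀ N : ℕ, φ a ^ N ∉ Ideal.span {φ p} := by
    intro N hN
    apply haJ
    exact hJp.mem_of_pow_mem N ((Ideal.span_singleton_le_iff_mem _).2 hpJ hN)
  obtain ⟨_, -, hfac⟩ := Pool.Agent.Lib.MP_b197b4_ntX.dvr_quot (Ideal.span {φ p}) (φ a) hmax2 hpow
  have hJ : ∀ x ∈ P.map φ, x ∈ Ideal.span {φ p} := by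
    intro x hx
    by_contra hxp
    obtain ⟨N, u, hu, hxu⟩ := hfac x hxp
    have h1 : u * φ a ^ N ∈ P.map φ := by
      have h2 := Ideal.sub_mem _ hx ((Ideal.span_singleton_le_iff_mem _).2 hpJ hxu)
      rwa [sub_sub_cancel] at h2
    have h2 : φ a ^ N ∈ P.map φ := (hJp.mem_or_mem h1).resolve_left fun h3 =>
      hJp.ne_top (Ideal.eq_top_of_isUnit_mem _ h3 hu)
    exact haJ (hJp.mem_of_pow_mem N h2)
  have hp0 : p ≠ 0 := by
    rintro h0
    have h1 : maximalIdeal O = Ideal.span {φ a} := by
      rw [← hmax2, h0, map_zero, Ideal.span_singleton_zero, bot_sup_eq]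
    have h2 : (maximalIdeal O).spanFinrank ≤ ({φ a} : Set O).ncard := by
      rw [h1]
      exact Submodule.spanFinrank_span_le_ncard_of_finite (Set.finite_singleton _)
    rw [hdim, Set.ncard_singleton] at h2
    omega
  -- the local ring at `P`
  let S := Localization.AtPrime P
  have hinjO : Function.Injective φ :=
    IsLocalization.injective O (Ideal.primeCompl_le_nonZeroDivisors n)
  have hinjS : Function.Injective (algebraMap B S) :=
    IsLocalization.injective S (Ideal.primeCompl_le_nonZeroDivisors P)
  have hmaxS : maximalIdeal S = Ideal.span {algebraMap B S p} := by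
    rw [← Localization.AtPrime.map_eq_maximalIdeal]
    apply le_antisymm
    · rw [Ideal.map_le_iff_le_comap]
      intro x hx
      rw [Ideal.mem_comap]
      obtain ⟨z, hz⟩ := Ideal.mem_span_singleton'.1 (hJ (φ x) (Ideal.mem_map_of_mem _ hx))
      obtain ⟨⟨c', s'⟩, hcs⟩ := IsLocalization.surj n.primeCompl z
      have h1 : s' * x = c' * p := by
        apply hinjO
        rw [map_mul, map_mul, ← hz, ← hcs]
        ring
      have hs' : (s' : B) ∉ P := fun h => s'.2 (hPn h)
      obtain ⟨w, hw⟩ := IsLocalization.map_units S (⟨s', hs'⟩ : P.primeCompl)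
      have h2 : algebraMap B S x = ((w⁻¹ : Sˣ) : S) * algebraMap B S c' * algebraMap B S p := by
        have h3 := congrArg (algebraMap B S) h1
        rw [map_mul, map_mul] at h3
        have h4 : algebraMap B S (s' : B) = w := hw.symm
        rw [h4] at h3
        rw [mul_assoc, ← h3, ← mul_assoc, Units.inv_mul, one_mul]
      rw [h2]
      exact Ideal.mul_mem_left _ _ (Ideal.mem_span_singleton_self _)
    · rw [Ideal.span_singleton_le_iff_mem]
      exact Ideal.mem_map_of_mem _ hp
  have hNS : IsNoetherianRing S := IsLocalization.isNoetherianRing P.primeCompl S inferInstance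
  have hnf : ¬ IsField S := by
    rw [IsLocalRing.isField_iff_maximalIdeal_eq, hmaxS, Ideal.span_singleton_eq_bot]
    intro h
    exact hp0 (hinjS (by rw [h, map_zero]))
  have hpr : (maximalIdeal S).IsPrincipal := ⟨⟨algebraMap B S p, hmaxS⟩⟩
  exact ((IsDiscreteValuationRing.TFAE S hnf).out 0 4).2 hpr

/-- The local ring of the curve is a discrete valuation ring. -/
theorem gtr_local {B : Type} [CommRing B] [IsDomain B] [IsNoetherianRing B] (n : Ideal B) [n.IsPrime]
    (hreg : IsRegularLocalRing (Localization.AtPrime n)) (hdim : n.height = 2) (P : Ideal B)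
    [P.IsPrime] (hPn : P ≤ n) (hne : P ≠ n)
    (hval : ∀ a b : B, ∃ s c : B, s ∉ n ∧ (s * b - c * a ∈ P ∨ s * a - c * b ∈ P)) :
    IsDiscreteValuationRing (Localization.AtPrime P) := by
  let O := Localization.AtPrime n
  have hO2 : ringKrullDim O = 2 := by
    rw [IsLocalization.AtPrime.ringKrullDim_eq_height n O, hdim]
    rfl
  have hrk : (maximalIdeal O).spanFinrank = 2 := by
    have h1 := hreg.spanFinrank_maximalIdeal
    rw [hO2] at h1
    exact_mod_cast h1
  have hNO : IsNoetherianRing O := IsLocalization.isNoetherianRing n.primeCompl O inferInstance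
  have hfg : (maximalIdeal O).FG := (isNoetherianRing_iff_ideal_fg O).1 hNO _
  have hcard := Submodule.FG.generators_ncard hfg
  obtain ⟨u, v, -, hgen⟩ := Set.ncard_eq_two.1 (hcard.trans hrk)
  have hmax : Ideal.span {u, v} = maximalIdeal O := by
    rw [← hgen]
    exact Submodule.span_generators _
  obtain ⟨⟨a, s⟩, ha⟩ := IsLocalization.surj n.primeCompl u
  obtain ⟨⟨b, t⟩, hb⟩ := IsLocalization.surj n.primeCompl v
  have hab : Ideal.span {algebraMap B O a, algebraMap B O b} = maximalIdeal O := by
    rw [← hmax]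
    exact gtr_span_pair (IsLocalization.map_units O s) (IsLocalization.map_units O t) ha hb
  obtain ⟨s', c, hs', h | h⟩ := hval a b
  · exact gtr_key n hrk P hPn hne a b hab s' c hs' h
  · refine gtr_key n hrk P hPn hne b a ?_ s' c hs' h
    rw [← hab, Set.pair_comm]

end Pool.Agent.Lib.MP_b197b4_ntA
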