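import Mathlib
import Pool.Agent.Lib.MP_b197b4_ntA.Defs
import Pool.Agent.Lib.MP_b197b4_ntK.Curve

/-!
# MP_b197b4_nt, project K1-ALL, block G: the residue field of a curve on a surface

Transport of places, orders through an isomorphism of fields; the residue field of the curve `V` on `Spec B` is the
field `K` generated by the image of `B`.
-/

set_option autoImplicit false

namespace Pool.Agent.Lib.MP_b197b4_ntA

open IsLocalRing Pool.Agent.Lib.MP_b197b4_ntK

section transport

variable {L K : Type} [Field L] [Field K]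

theorem gtr_val_lt (W : ValuationSubring K) (x : K) : W.valuation x < 1 ↔ x = 0 ∨ x⁻¹ ∉ W := by
  by_cases hx : x = 0
  · simp [hx]
  · have h0 : 0 < W.valuation x := by
      rw [Valuation.pos_iff]
      exact hx
    rw [← not_le, ← ValuationSubring.valuation_le_one_iff, map_inv₀, inv_le_one₀ h0]
    simp [hx]

theorem gtr_val_one (W : ValuationSubring K) (x : K) :
    W.valuation x = 1 ↔ x ∈ W ∧ ¬ W.valuation x < 1 := by
  rw [← ValuationSubring.valuation_le_one_iff]
  constructor
  · intro h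
    rw [h]
    exact ⟨le_rfl, lt_irrefl _⟩
  · rintro ⟨h1, h2⟩
    exact le_antisymm h1 (not_lt.1 h2)

/-- The preimage of a valuation ring. -/
abbrev gtrC (θ : L ≃+* K) (W : ValuationSubring K) : ValuationSubring L := W.comap (θ : L →+* K)

theorem gtr_mem (θ : L ≃+* K) (W : ValuationSubring K) (x : L) : x ∈ gtrC θ W ↔ θ x ∈ W := Iff.rfl

theorem gtr_lt (θ : L ≃+* K) (W : ValuationSubring K) (x : L) :
    (gtrC θ W).valuation x < 1 ↔ W.valuation (θ x) < 1 := by
  rw [gtr_val_lt, gtr_val_lt, gtr_mem, map_inv₀, map_eq_zero_iff θ θ.injective]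

theorem gtr_one (θ : L ≃+* K) (W : ValuationSubring K) (x : L) :
    (gtrC θ W).valuation x = 1 ↔ W.valuation (θ x) = 1 := by
  rw [gtr_val_one, gtr_val_one, gtr_lt, gtr_mem]

/-- The isomorphism of the valuation rings. -/
def gtrE (θ : L ≃+* K) (W : ValuationSubring K) : gtrC θ W ≃+* W where
  toFun x := ⟨θ x, x.2⟩
  invFun y := ⟨θ.symm y, by
    rw [gtr_mem, θ.apply_symm_apply]
    exact y.2⟩
  left_inv x := Subtype.ext (θ.symm_apply_apply _)
  right_inv y := Subtype.ext (θ.apply_symm_apply _)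
  map_mul' x y := Subtype.ext (map_mul θ _ _)
  map_add' x y := Subtype.ext (map_add θ _ _)

theorem gtrE_apply (θ : L ≃+* K) (W : ValuationSubring K) (x : gtrC θ W) :
    (gtrE θ W x : K) = θ x := rfl

theorem gtr_dvr (θ : L ≃+* K) (W : ValuationSubring K) :
    IsDiscreteValuationRing (gtrC θ W) ↔ IsDiscreteValuationRing W := by
  constructor
  · intro h
    exact IsDiscreteValuationRing.RingEquivClass.isDiscreteValuationRing (gtrE θ W)
  · intro h
    exact IsDiscreteValuationRing.RingEquivClass.isDiscreteValuationRing (gtrE θ W).symm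

theorem gtr_hasOrd (θ : L ≃+* K) (W : ValuationSubring K) (x : L) (n : ℤ) :
    HasOrd (gtrC θ W) x n ↔ HasOrd W (θ x) n := by
  constructor
  · rintro ⟨p, u, hp, hx⟩
    refine ⟨gtrE θ W p, Units.map (gtrE θ W : gtrC θ W →* W) u,
      (MulEquiv.irreducible_iff (gtrE θ W)).2 hp, ?_⟩
    rw [hx, map_mul, map_zpow₀]
    rfl
  · rintro ⟨p, u, hp, hx⟩
    refine ⟨(gtrE θ W).symm p, Units.map ((gtrE θ W).symm : W →* gtrC θ W) u,
      (MulEquiv.irreducible_iff (gtrE θ W).symm).2 hp, ?_⟩
    apply θ.injective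
    rw [hx, map_mul, map_zpow₀]
    have h1 : θ (((gtrE θ W).symm p : gtrC θ W) : L) = p := θ.apply_symm_apply _
    have h2 : θ (((Units.map ((gtrE θ W).symm : W →* gtrC θ W) u : (gtrC θ W)ˣ) : gtrC θ W) : L) =
      ((u : W) : K) := θ.apply_symm_apply _
    rw [h1, h2]

theorem gtr_ord (θ : L ≃+* K) (W : ValuationSubring K) (x : L) :
    ord (gtrC θ W) x = ord W (θ x) := by
  by_cases h : ∃ n, HasOrd W (θ x) n
  · obtain ⟨n, hn⟩ := h
    rw [ord_eq hn, ord_eq ((gtr_hasOrd θ W x n).2 hn)]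
  · have h' : ¬ ∃ n, HasOrd (gtrC θ W) x n := fun ⟨n, hn⟩ => h ⟨n, (gtr_hasOrd θ W x n).1 hn⟩
    unfold ord
    rw [dif_neg h, dif_neg h']

theorem gtr_symm (θ : L ≃+* K) (W : ValuationSubring K) : gtrC θ.symm (gtrC θ W) = W := by
  ext x
  rw [gtr_mem, gtr_mem, θ.apply_symm_apply]

theorem gtr_symm' (θ : L ≃+* K) (W : ValuationSubring L) : gtrC θ (gtrC θ.symm W) = W := by
  ext x
  rw [gtr_mem, gtr_mem, θ.symm_apply_apply]

/-- The bijection between the valuation rings. -/
def gtrEq (θ : L ≃+* K) : ValuationSubring K ≃ ValuationSubring L where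
  toFun W := gtrC θ W
  invFun W := gtrC θ.symm W
  left_inv W := gtr_symm θ W
  right_inv W := gtr_symm' θ W

end transport

/-- The residue field of the curve `V` is generated by the image of `B`. -/
theorem gtr_theta {k E : Type} [Field k] [Field E] [Algebra k E] {B : Subalgebra k E}
    {V : ValuationSubring E} (hV : IsCurve B V) {P : Ideal B} [hPp : P.IsPrime]
    (hP : PrimeOf B V P) {K : Type} [Field K] (g : B →+* K) (hg : ∀ b, b ∈ P ↔ g b = 0)
    (hsurj : ∀ e : K, ∃ a b : B, g b ≠ 0 ∧ e = g a / g b) :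
    ∃ θ : ResidueField V ≃+* K, ∀ b : B, θ (res V b) = g b := by
  let _ := (incl hV.2.1).toAlgebra
  have hloc : IsLocalization.AtPrime V P := hV.isLocalization hP
  have hu : ∀ y : P.primeCompl, IsUnit (g y) := fun y =>
    IsUnit.mk0 _ fun h => y.2 ((hg _).2 h)
  let f : V →+* K := IsLocalization.lift hu
  have hf : ∀ b : B, f (incl hV.2.1 b) = g b := fun b => IsLocalization.lift_eq hu b
  have hfl : IsLocalHom f := by
    refine ⟨fun z hz => ?_⟩
    obtain ⟨⟨a, s⟩, has⟩ := IsLocalization.surj P.primeCompl z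
    have h1 : f z * g s = g a := by
      rw [← hf, ← hf, ← map_mul]
      exact congrArg f has
    have h2 : g a ≠ 0 := by
      rw [← h1]
      exact mul_ne_zero hz.ne_zero (hu s).ne_zero
    have h3 : a ∉ P := fun h => h2 ((hg a).1 h)
    have h4 : IsUnit (algebraMap B V a) := IsLocalization.map_units V (⟨a, h3⟩ : P.primeCompl)
    rw [← has] at h4
    exact isUnit_of_mul_isUnit_left h4
  let θ0 : ResidueField V →+* K := ResidueField.lift f
  have hθ0 : ∀ b : B, θ0 (res V b) = g b := by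
    intro b
    rw [res_of_mem (hV.2.1 b b.2)]
    exact hf b
  have hbij : Function.Bijective θ0 := by
    refine ⟨θ0.injective, fun e => ?_⟩
    obtain ⟨a, b, hb, rfl⟩ := hsurj e
    exact ⟨res V a / res V b, by rw [map_div₀, hθ0, hθ0]⟩
  exact ⟨RingEquiv.ofBijective θ0 hbij, hθ0⟩

end Pool.Agent.Lib.MP_b197b4_ntA
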