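import Mathlib
import Pool.Agent.Lib.MP_b197b4_ntA.GTr1
import Pool.Agent.Lib.MP_b197b4_ntA.GTr2
import Pool.Agent.Lib.MP_b197b4_ntK.KLoc
import Pool.Agent.Lib.MP_b197b4_ntD.Dim

/-!
# MP_b197b4_nt, project K1-ALL, block G: the curves on one surface

For a surface `φ : A → E` there is a function `h` on the closed points of `Spec B`, `B` the image of `φ`, which computes
`hK W - hK W'` for all curves `ψ` on the surface and places `W, W'` over points at which the curve and the surface are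
regular (local theorem for surfaces, `LTP`).
-/

set_option autoImplicit false

namespace Pool.Agent.Lib.MP_b197b4_ntA

open IsLocalRing Pool.Agent.Lib.MP_b197b4_ntK

section

variable {k F E K : Type} [Field k] [Field F] [Algebra k F] {A : Subalgebra k F} [Field E]
  [Algebra k E] [Field K] [Algebra k K]

theorem gtr_range_fg (hA : A.FG) (φ : A →ₐ[k] E) : φ.range.FG := by
  have h1 : Algebra.FiniteType k A := A.fg_iff_finiteType.1 hA
  exact φ.range.fg_iff_finiteType.2 (Algebra.FiniteType.of_surjective φ.rangeRestrict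
    φ.rangeRestrict_surjective)

theorem gtr_frac (φ : A →ₐ[k] E) (hφ : ∀ e : E, ∃ a b : A, φ b ≠ 0 ∧ e = φ a / φ b) :
    IsFractionRing φ.range E := by
  refine IsFractionRing.of_field φ.range E fun e => ?_
  obtain ⟨a, b, hb, rfl⟩ := hφ e
  exact ⟨φ.rangeRestrict a, φ.rangeRestrict b, rfl⟩

/-- All the closed points of the surface have height two. -/
theorem gtr_height {B : Subalgebra k E} (hB : B.FG) (hfr : IsFractionRing B E) {s : ℕ}
    (h2 : FunF k E s) (n : Ideal B) (hn : n.IsMaximal) : n.height = s := by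
  have h1 : Algebra.FiniteType k B := B.fg_iff_finiteType.1 hB
  have h3 : IsNoetherianRing B := Algebra.FiniteType.isNoetherianRing k B
  obtain ⟨t, ht⟩ := MP_b197b4_ntD.exists_hasDim k B
  have h4 := ht.trdeg_frac E
  rw [h2.2] at h4
  have h5 : s = t := by exact_mod_cast h4
  rw [ht.height n hn, h5]

/-- The curve as a curve on the surface. -/
theorem gtr_lift (φ : A →ₐ[k] E) (ψ : A →ₐ[k] K) (hker : RingHom.ker φ ≤ RingHom.ker ψ) :
    ∃ g : φ.range →+* K, ∀ a, g (φ.rangeRestrict a) = ψ a := by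
  have hk : RingHom.ker (φ.rangeRestrict : A →+* φ.range) ≤ RingHom.ker (ψ : A →+* K) := by
    intro a ha
    apply hker
    rw [RingHom.mem_ker] at ha ⊢
    exact congrArg Subtype.val ha
  refine ⟨(RingHom.liftOfSurjective (φ.rangeRestrict : A →+* φ.range)
    φ.rangeRestrict_surjective) ⟨(ψ : A →+* K), hk⟩, fun a => ?_⟩
  exact RingHom.liftOfRightInverse_comp_apply _ _ _ ⟨(ψ : A →+* K), hk⟩ a

end

theorem gtr {k F : Type} [Field k] [Field F] [Algebra k F] (hL : LTP k)
    {A : Subalgebra k F} (hA : A.FG) (l : Ideal A → A → ℚ) (hl : Lam k A l) {E : Type} [Field E]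
    [Algebra k E] (φ : A →ₐ[k] E) (h2 : FunF k E 2)
    (hφ : ∀ e : E, ∃ a b : A, φ b ≠ 0 ∧ e = φ a / φ b) :
    ∃ h : Ideal φ.range → ℚ, ∀ (K : Type) [Field K] [Algebra k K] (ψ : A →ₐ[k] K) (lK : K → ℚ)
      (hK : ValuationSubring K → ℚ), CurveK k A l ψ lK hK → RingHom.ker φ ≤ RingHom.ker ψ →
      ∀ (W W' : ValuationSubring K) (m m' : Ideal A) (n n' : Ideal φ.range), Place k W →
        Place k W' → CenterK ψ W m → CenterK ψ W' m' → RegK ψ W → RegK ψ W' →
        (∀ a : A, φ.rangeRestrict a ∈ n ↔ a ∈ m) → (∀ a : A, φ.rangeRestrict a ∈ n' ↔ a ∈ m') →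
        RegMax n → RegMax n' → hK W - hK W' = h n - h n' := by
  obtain ⟨N, x, lS, hgood, hdom, hcomp⟩ := hl.surf E φ h2 hφ
  have hBfg : φ.range.FG := gtr_range_fg hA φ
  have hfr : IsFractionRing φ.range E := gtr_frac φ hφ
  have hdomB : ∃ i, x i ≠ 0 ∧ ∀ j, x j / x i ∈ φ.range := by
    obtain ⟨i, hi, hj⟩ := hdom
    refine ⟨i, hi, fun j => ?_⟩
    obtain ⟨a, ha⟩ := hj j
    exact ⟨a, ha.symm⟩
  obtain ⟨h, hh⟩ := hL E N x lS hgood φ.range hBfg hfr hdomB
  refine ⟨h, ?_⟩
  intro K _ _ ψ lK hK hCu hker W W' m m' n n' hW hW' hm hm' hr hr' hn hn' hreg hreg'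
  obtain ⟨g, hg⟩ := gtr_lift φ ψ hker
  have hft : Algebra.FiniteType k φ.range := φ.range.fg_iff_finiteType.1 hBfg
  have hno : IsNoetherianRing φ.range := Algebra.FiniteType.isNoetherianRing k φ.range
  have hnp : n.IsPrime := hreg.1.isPrime
  obtain ⟨P, hP⟩ : ∃ P : Ideal φ.range, P = RingHom.ker g := ⟨_, rfl⟩
  have hPp : P.IsPrime := by
    rw [hP]
    exact RingHom.ker_isPrime g
  have hPmem : ∀ b, b ∈ P ↔ g b = 0 := fun b => by rw [hP, RingHom.mem_ker]
  have hsur : ∀ b : φ.range, ∃ a : A, φ.rangeRestrict a = b := φ.rangeRestrict_surjective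
  have hPn : P ≤ n := by
    intro b hb
    obtain ⟨a, rfl⟩ := hsur b
    rw [hPmem, hg] at hb
    rw [hn, (hm a).2, hb, map_zero]
    exact zero_lt_one
  have hne : P ≠ n := by
    have hWd : IsDiscreteValuationRing W := hW.1
    obtain ⟨π, hπ⟩ := IsDiscreteValuationRing.exists_irreducible W
    obtain ⟨a, s, hs, has⟩ := hr π π.2
    have hs0 : ψ s ≠ 0 := by
      intro h0
      rw [h0, map_zero] at hs
      exact zero_ne_one hs
    have hπ0 : (π : K) ≠ 0 := fun h0 => hπ.ne_zero (Subtype.ext h0)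
    have h1 : W.valuation (ψ a) < 1 := by
      have h2 : W.valuation (π : K) < 1 := val_irr_lt hπ
      rw [has, map_div₀, hs, div_one] at h2
      exact h2
    have h3 : ψ a ≠ 0 := by
      intro h0
      rw [h0, zero_div] at has
      exact hπ0 has
    intro heq
    have h4 : φ.rangeRestrict a ∈ n := (hn a).2 ((hm a).2.2 h1)
    rw [← heq, hPmem, hg] at h4
    exact h3 h4
  have hval : ∀ a b : φ.range, ∃ s c : φ.range, s ∉ n ∧ (s * b - c * a ∈ P ∨ s * a - c * b ∈ P) := by
    have hone : ∀ s : A, W.valuation (ψ s) = 1 → φ.rangeRestrict s ∉ n := by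
      intro s hs h0
      have h1 := (hm s).2.1 ((hn s).1 h0)
      rw [hs] at h1
      exact lt_irrefl _ h1
    intro a b
    obtain ⟨a, rfl⟩ := hsur a
    obtain ⟨b, rfl⟩ := hsur b
    rcases W.mem_or_inv_mem (ψ b / ψ a) with h1 | h1
    · by_cases ha0 : ψ a = 0
      · refine ⟨1, 0, ?_, Or.inr ?_⟩
        · exact fun h => hnp.ne_top ((Ideal.eq_top_iff_one _).2 h)
        · rw [hPmem, one_mul, zero_mul, sub_zero, hg, ha0]
      · obtain ⟨a', s, hs, has⟩ := hr _ h1
        have hs0 : ψ s ≠ 0 := by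
          intro h0
          rw [h0, map_zero] at hs
          exact zero_ne_one hs
        refine ⟨φ.rangeRestrict s, φ.rangeRestrict a', hone s hs, Or.inl ?_⟩
        rw [hPmem, map_sub, map_mul, map_mul, hg, hg, hg, hg]
        rw [div_eq_div_iff ha0 hs0] at has
        linear_combination has
    · rw [inv_div] at h1
      by_cases hb0 : ψ b = 0
      · refine ⟨1, 0, ?_, Or.inl ?_⟩
        · exact fun h => hnp.ne_top ((Ideal.eq_top_iff_one _).2 h)
        · rw [hPmem, one_mul, zero_mul, sub_zero, hg, hb0]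
      · obtain ⟨a', s, hs, has⟩ := hr _ h1
        have hs0 : ψ s ≠ 0 := by
          intro h0
          rw [h0, map_zero] at hs
          exact zero_ne_one hs
        refine ⟨φ.rangeRestrict s, φ.rangeRestrict a', hone s hs, Or.inr ?_⟩
        rw [hPmem, map_sub, map_mul, map_mul, hg, hg, hg, hg]
        rw [div_eq_div_iff hb0 hs0] at has
        linear_combination has
  have hht : n.height = 2 := gtr_height hBfg hfr h2 n hreg.1
  have hdvr : IsDiscreteValuationRing (Localization.AtPrime P) :=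
    gtr_local n (hreg.2 hnp) hht P hPn hne hval
  obtain ⟨V, hV, hPV⟩ := exists_curve_of_dvr hfr P hdvr
  obtain ⟨θ, hθ⟩ := gtr_theta hV hPV g hPmem (by
    intro e
    obtain ⟨a, b, hb, rfl⟩ := hCu.gen e
    exact ⟨φ.rangeRestrict a, φ.rangeRestrict b, by rwa [hg], by rw [hg, hg]⟩)
  have hθφ : ∀ a : A, θ (res V (φ a)) = ψ a := fun a => by
    rw [← hg a, ← hθ]
    rfl
  have hφV : ∀ a : A, φ a ∈ V := fun a => hV.2.1 _ ⟨a, rfl⟩
  have hθk : ∀ c : k, θ (res V (algebraMap k E c)) = algebraMap k K c := by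
    intro c
    rw [← φ.commutes c, hθφ, ψ.commutes]
  have hpl : ∀ W : ValuationSubring K, IsPlace k V (gtrC θ W) ↔ Place k W := by
    intro W
    unfold IsPlace Place Over
    rw [gtr_dvr]
    refine and_congr Iff.rfl (forall_congr' fun c => ?_)
    rw [gtr_mem, hθk]
  have hGiven : Given k lS V fun W'' => hK (gtrC θ.symm W'') := by
    intro c hc
    obtain ⟨a, b, hb, hab⟩ := hCu.gen (θ c)
    have hθc : θ c ≠ 0 := (map_ne_zero_iff θ θ.injective).2 hc
    have ha : ψ a ≠ 0 := by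
      intro h0
      rw [h0, zero_div] at hab
      exact hθc hab
    have hca : c = res V (φ a) / res V (φ b) := by
      apply θ.injective
      rw [hab, map_div₀, hθφ, hθφ]
    have h1 : lS V c = lK (θ c) := by
      rw [hab, hCu.compat a b ha hb, hca]
      exact hcomp V hV (RingHom.ker ψ) (fun a => by
        rw [RingHom.mem_ker, ← hθφ a, map_eq_zero_iff θ θ.injective]) a b ha hb
    rw [h1, hCu.given _ hθc, ← finsum_comp_equiv (gtrEq θ)]
    refine finsum_congr fun W'' => ?_
    change _ = ∑ᶠ (_ : IsPlace k V (gtrC θ W'')), hK (gtrC θ.symm (gtrC θ W'')) *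
      (ord (gtrC θ W'') c : ℚ)
    rw [gtr_symm, gtr_ord]
    exact finsum_congr_Prop (propext (hpl W'').symm) fun _ => rfl
  have hcen : ∀ (W : ValuationSubring K) (m : Ideal A) (n : Ideal φ.range), CenterK ψ W m →
      (∀ a : A, φ.rangeRestrict a ∈ n ↔ a ∈ m) → Center φ.range V (gtrC θ W) n := by
    intro W m n hm hn b
    obtain ⟨a, rfl⟩ := hsur b
    refine ⟨hφV a, ?_, ?_⟩
    · rw [gtr_mem]
      change θ (res V (φ a)) ∈ W
      rw [hθφ]
      exact (hm a).1
    · rw [hn, gtr_lt]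
      change _ ↔ W.valuation (θ (res V (φ a))) < 1
      rw [hθφ]
      exact (hm a).2
  have hrg : ∀ W : ValuationSubring K, RegK ψ W → RegAt φ.range V (gtrC θ W) := by
    intro W hr y hy
    obtain ⟨a, s, hs, has⟩ := hr (θ y) hy
    refine ⟨φ a, φ s, ⟨a, rfl⟩, ⟨s, rfl⟩, ?_, ?_⟩
    · rw [gtr_one, hθφ, hs]
    · apply θ.injective
      rw [has, map_div₀, hθφ, hθφ]
  have hfin := hh V hV _ hGiven (gtrC θ W) (gtrC θ W') n n' ((hpl W).2 hW) ((hpl W').2 hW')
    hreg hreg' (hcen W m n hm hn) (hcen W' m' n' hm' hn') (hrg W hr) (hrg W' hr')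
  simp only [gtr_symm] at hfin
  exact hfin

end Pool.Agent.Lib.MP_b197b4_ntA
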