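import Mathlib
import Pool.Agent.Lib.MP_b197b4_ntA.Base
import Pool.Agent.Lib.MP_b197b4_ntA.GTr

/-!
# MP_b197b4_nt, project K1-ALL, block G: the function on the regular points

The difference `hK W - hK W'` is the same for all curves through two regular points (`exists_surface`, `gtr`) and it is
additive (curves through three points).
-/

set_option autoImplicit false

namespace Pool.Agent.Lib.MP_b197b4_ntA

open IsLocalRing Pool.Agent.Lib.MP_b197b4_ntK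

section

variable {k F : Type} [Field k] [Field F] [Algebra k F] {A : Subalgebra k F}

/-- The curve has dimension one. -/
theorem GReg_dim (hA : A.FG) {K : Type} [Field K] [Algebra k K] (hK : FunF k K 1) (ψ : A →ₐ[k] K)
    (hψ : ∀ e : K, ∃ a b : A, ψ b ≠ 0 ∧ e = ψ a / ψ b) :
    ringKrullDim (A ⧸ RingHom.ker ψ) = 1 := by
  have hfg : ψ.range.FG := gtr_range_fg hA ψ
  have hfr : IsFractionRing ψ.range K := gtr_frac ψ hψ
  have h1 : Algebra.FiniteType k ψ.range := ψ.range.fg_iff_finiteType.1 hfg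
  have h3 : IsNoetherianRing ψ.range := Algebra.FiniteType.isNoetherianRing k ψ.range
  obtain ⟨t, ht⟩ := MP_b197b4_ntD.exists_hasDim k ψ.range
  have h4 := ht.trdeg_frac K
  rw [hK.2] at h4
  have h5 : 1 = t := by exact_mod_cast h4
  have h6 : ringKrullDim ψ.range = 1 := by
    rw [ht.ringKrullDim, ← h5]
    rfl
  rw [← h6]
  exact ringKrullDim_eq_of_ringEquiv (Ideal.quotientKerEquivRange ψ).toRingEquiv

/-- The form and the function of a curve. -/
theorem GReg_curve [IsAlgClosed k] (halg : ∃ p : ℕ, p.Prime ∧ ∀ a : k, ∃ m : ℕ, 0 < m ∧ a ^ p ^ m = a)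
    (hA : A.FG) (l : Ideal A → A → ℚ) (hl : Lam k A l) {K : Type} [Field K] [Algebra k K]
    (hK : FunF k K 1) (ψ : A →ₐ[k] K) (hψ : ∀ e : K, ∃ a b : A, ψ b ≠ 0 ∧ e = ψ a / ψ b) :
    ∃ (lK : K → ℚ) (h : ValuationSubring K → ℚ), CurveK k A l ψ lK h := by
  have hPp : (RingHom.ker ψ).IsPrime := RingHom.ker_isPrime ψ
  have hdim := GReg_dim hA hK ψ hψ
  have hmem : ∀ a : A, a ∉ RingHom.ker ψ ↔ ψ a ≠ 0 := fun a => by rw [RingHom.mem_ker]
  choose α β hβ hαβ using hψ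
  obtain ⟨lK, hlK⟩ : ∃ lK : K → ℚ, ∀ e, lK e = l (RingHom.ker ψ) (α e) - l (RingHom.ker ψ) (β e) :=
    ⟨_, fun e => rfl⟩
  have hcompat : ∀ a b : A, ψ a ≠ 0 → ψ b ≠ 0 →
      lK (ψ a / ψ b) = l (RingHom.ker ψ) a - l (RingHom.ker ψ) b := by
    intro a b ha hb
    rw [hlK]
    have h1 := hαβ (ψ a / ψ b)
    have h2 := hβ (ψ a / ψ b)
    generalize α (ψ a / ψ b) = a' at h1 h2 ⊢
    generalize β (ψ a / ψ b) = b' at h1 h2 ⊢
    have ha' : ψ a' ≠ 0 := by
      intro h0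
      rw [h0, zero_div] at h1
      exact (div_ne_zero ha hb) h1
    have h3 : ψ (a * b') = ψ (a' * b) := by
      rw [div_eq_div_iff hb h2] at h1
      rw [map_mul, map_mul, h1]
    have h4 : l (RingHom.ker ψ) (a * b') = l (RingHom.ker ψ) (a' * b) := by
      refine hl.cong _ hPp hdim _ _ ?_ ?_
      · rw [hmem, map_mul]
        exact mul_ne_zero ha h2
      · rw [RingHom.mem_ker, map_sub, h3, sub_self]
    rw [hl.mul _ hPp hdim _ _ ((hmem _).2 ha) ((hmem _).2 h2),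
      hl.mul _ hPp hdim _ _ ((hmem _).2 ha') ((hmem _).2 hb)] at h4
    linarith
  have hmul : ∀ a b : K, a ≠ 0 → b ≠ 0 → lK (a * b) = lK a + lK b := by
    intro x y hx hy
    have e1 := hαβ x
    have e2 := hαβ y
    have b1 := hβ x
    have b2 := hβ y
    generalize α x = a at e1
    generalize α y = c at e2
    generalize β x = b at e1 b1
    generalize β y = d at e2 b2
    have a1 : ψ a ≠ 0 := by
      intro h0
      rw [h0, zero_div] at e1
      exact hx e1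
    have a2 : ψ c ≠ 0 := by
      intro h0
      rw [h0, zero_div] at e2
      exact hy e2
    have e3 : x * y = ψ (a * c) / ψ (b * d) := by
      rw [e1, e2, map_mul, map_mul, div_mul_div_comm]
    rw [e3, hcompat _ _ (by rw [map_mul]; exact mul_ne_zero a1 a2)
      (by rw [map_mul]; exact mul_ne_zero b1 b2), e1, e2, hcompat _ _ a1 b1, hcompat _ _ a2 b2,
      hl.mul _ hPp hdim _ _ ((hmem _).2 a1) ((hmem _).2 a2),
      hl.mul _ hPp hdim _ _ ((hmem _).2 b1) ((hmem _).2 b2)]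
    ring
  obtain ⟨h, hh⟩ := exists_given halg hK lK hmul
  exact ⟨lK, h, hK, fun e => ⟨α e, β e, hβ e, hαβ e⟩, hcompat, hh⟩

/-- `q` is the difference of the values at `m` and `m'` for some curve. -/
def GDiff (k : Type) {F : Type} [Field k] [Field F] [Algebra k F] (A : Subalgebra k F)
    (l : Ideal A → A → ℚ) (m m' : Ideal A) (q : ℚ) : Prop :=
  ∃ (K : Type) (_ : Field K) (_ : Algebra k K) (ψ : A →ₐ[k] K) (lK : K → ℚ)
    (hK : ValuationSubring K → ℚ) (W W' : ValuationSubring K), CurveK k A l ψ lK hK ∧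
      Place k W ∧ Place k W' ∧ CenterK ψ W m ∧ CenterK ψ W' m' ∧ RegK ψ W ∧ RegK ψ W' ∧
        q = hK W - hK W'

theorem GReg_ker_le {K : Type} [Field K] [Algebra k K] (ψ : A →ₐ[k] K) {W : ValuationSubring K}
    {m : Ideal A} (h : CenterK ψ W m) : RingHom.ker ψ ≤ m := by
  intro a ha
  rw [RingHom.mem_ker] at ha
  rw [(h a).2, ha, map_zero]
  exact zero_lt_one

theorem GReg_image {E : Type} [Field E] [Algebra k E] (φ : A →ₐ[k] E) {m : Ideal A}
    (h : RingHom.ker φ ≤ m) (a : A) : φ.rangeRestrict a ∈ m.map φ.rangeRestrict ↔ a ∈ m := by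
  rw [Ideal.mem_map_iff_of_surjective _ φ.rangeRestrict_surjective]
  constructor
  · rintro ⟨b, hb, hab⟩
    have h1 : a - b ∈ m := by
      apply h
      rw [RingHom.mem_ker, map_sub, sub_eq_zero]
      exact (congrArg Subtype.val hab).symm
    have h2 := m.add_mem h1 hb
    rwa [sub_add_cancel] at h2
  · intro ha
    exact ⟨a, ha, rfl⟩

/-- The difference does not depend on the curve. -/
theorem GDiff.unique [IsAlgClosed k] (hL : LTP k) {d : ℕ} (hd : 2 ≤ d) (hA : DChart d A)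
    {l : Ideal A → A → ℚ} (hl : Lam k A l) {m m' : Ideal A} (hm : RegMax m) (hm' : RegMax m')
    {q q' : ℚ} (h : GDiff k A l m m' q) (h' : GDiff k A l m m' q') : q = q' := by
  classical
  obtain ⟨K₁, _, _, ψ₁, lK₁, hK₁, W₁, W₁', c₁, p₁, p₁', z₁, z₁', r₁, r₁', rfl⟩ := h
  obtain ⟨K₂, _, _, ψ₂, lK₂, hK₂, W₂, W₂', c₂, p₂, p₂', z₂, z₂', r₂, r₂', rfl⟩ := h'
  obtain ⟨E, _, _, φ, h2, hφ, k₁, k₂, hreg⟩ := exists_surface hd hA {m, m'}
    ⟨m, Finset.mem_insert_self _ _⟩ (by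
      intro x hx
      rcases Finset.mem_insert.1 hx with rfl | hx
      · exact hm
      · rw [Finset.mem_singleton.1 hx]
        exact hm') c₁.fun1 ψ₁ c₁.gen c₂.fun1 ψ₂ c₂.gen (by
      intro x hx
      rcases Finset.mem_insert.1 hx with rfl | hx
      · exact ⟨W₁, p₁, z₁, r₁⟩
      · rw [Finset.mem_singleton.1 hx]
        exact ⟨W₁', p₁', z₁', r₁'⟩) (by
      intro x hx
      rcases Finset.mem_insert.1 hx with rfl | hx
      · exact ⟨W₂, p₂, z₂, r₂⟩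
      · rw [Finset.mem_singleton.1 hx]
        exact ⟨W₂', p₂', z₂', r₂'⟩)
  obtain ⟨g, hg⟩ := gtr hL hA.fg l hl φ h2 hφ
  have i1 := GReg_image φ (k₁.trans (GReg_ker_le ψ₁ z₁))
  have i2 := GReg_image φ (k₁.trans (GReg_ker_le ψ₁ z₁'))
  have g1 := hreg m (Finset.mem_insert_self _ _) _ i1
  have g2 := hreg m' (Finset.mem_insert_of_mem (Finset.mem_singleton_self _)) _ i2
  rw [hg K₁ ψ₁ lK₁ hK₁ c₁ k₁ W₁ W₁' m m' _ _ p₁ p₁' z₁ z₁' r₁ r₁' i1 i2 g1 g2,
    hg K₂ ψ₂ lK₂ hK₂ c₂ k₂ W₂ W₂' m m' _ _ p₂ p₂' z₂ z₂' r₂ r₂' i1 i2 g1 g2]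

/-- A regular point has a local parameter. -/
theorem GReg_param {d : ℕ} (hd : 2 ≤ d) (hA : DChart d A) {m : Ideal A} (hm : m.IsMaximal) :
    ∃ z : A, z ∈ m ∧ z ∉ m ^ 2 := by
  by_contra hcon
  push Not at hcon
  have hft : Algebra.FiniteType k A := A.fg_iff_finiteType.1 hA.fg
  have hno : IsNoetherianRing A := Algebra.FiniteType.isNoetherianRing k A
  have h1 : IsIdempotentElem m := by
    change m * m = m
    rw [← pow_two]
    exact le_antisymm (Ideal.pow_le_self two_ne_zero) hcon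
  obtain ⟨e, he, hme⟩ := (Ideal.isIdempotentElem_iff_of_fg m (IsNoetherian.noetherian m)).1 h1
  rcases IsIdempotentElem.iff_eq_zero_or_one.1 he with h0 | h0
  · have h2 := hA.height m hm
    rw [hme, h0, Ideal.submodule_span_eq, Ideal.span_singleton_zero, Ideal.height_bot] at h2
    have h3 : (0 : ℕ∞) = ((d : ℕ) : ℕ∞) := h2
    have h4 : 0 = d := by exact_mod_cast h3
    omega
  · apply hm.ne_top
    rw [hme, h0, Ideal.submodule_span_eq, Ideal.span_singleton_one]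

/-- A curve through three regular points. -/
theorem GReg_three [IsAlgClosed k] (halg : ∃ p : ℕ, p.Prime ∧ ∀ a : k, ∃ m : ℕ, 0 < m ∧ a ^ p ^ m = a)
    {d : ℕ} (hd : 2 ≤ d) (hA : DChart d A) {l : Ideal A → A → ℚ} (hl : Lam k A l)
    {m₁ m₂ m₃ : Ideal A} (h₁ : RegMax m₁) (h₂ : RegMax m₂) (h₃ : RegMax m₃) :
    ∃ q₁ q₂ q₃ : ℚ, GDiff k A l m₁ m₂ (q₁ - q₂) ∧ GDiff k A l m₁ m₃ (q₁ - q₃) ∧
      GDiff k A l m₂ m₃ (q₂ - q₃) := by
  classical
  have hz : ∀ m : Ideal A, ∃ z : A, RegMax m → z ∈ m ∧ z ∉ m ^ 2 := by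
    intro m
    by_cases hm : RegMax m
    · obtain ⟨z, hz⟩ := GReg_param hd hA hm.1
      exact ⟨z, fun _ => hz⟩
    · exact ⟨0, fun h => absurd h hm⟩
  choose z hz using hz
  have hall : ∀ x ∈ ({m₁, m₂, m₃} : Finset (Ideal A)), RegMax x := by
    intro x hx
    rw [Finset.mem_insert, Finset.mem_insert, Finset.mem_singleton] at hx
    rcases hx with rfl | rfl | rfl
    · exact h₁
    · exact h₂
    · exact h₃
  obtain ⟨K, _, _, ψ, hK, hψ, hW, -⟩ := exists_curveK hd hA {m₁, m₂, m₃} ∅ z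
    (fun x hx => ⟨hall x hx, hz x (hall x hx)⟩) (by simp) (by simp)
  obtain ⟨lK, g, hCu⟩ := GReg_curve halg hA.fg l hl hK ψ hψ
  obtain ⟨W₁, p₁, z₁, r₁, -⟩ := hW m₁ (by simp)
  obtain ⟨W₂, p₂, z₂, r₂, -⟩ := hW m₂ (by simp)
  obtain ⟨W₃, p₃, z₃, r₃, -⟩ := hW m₃ (by simp)
  exact ⟨g W₁, g W₂, g W₃, ⟨K, _, _, ψ, lK, g, W₁, W₂, hCu, p₁, p₂, z₁, z₂, r₁, r₂, rfl⟩,
    ⟨K, _, _, ψ, lK, g, W₁, W₃, hCu, p₁, p₃, z₁, z₃, r₁, r₃, rfl⟩,
    ⟨K, _, _, ψ, lK, g, W₂, W₃, hCu, p₂, p₃, z₂, z₃, r₂, r₃, rfl⟩⟩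

end

theorem gReg_exists {k F : Type} [Field k] [IsAlgClosed k] [Field F] [Algebra k F]
    (halg : ∃ p : ℕ, p.Prime ∧ ∀ a : k, ∃ m : ℕ, 0 < m ∧ a ^ p ^ m = a) (hP : Pic k) (hL : LTP k)
    {d : ℕ} (hd : 2 ≤ d) {A : Subalgebra k F} (hA : DChart d A) (l : Ideal A → A → ℚ)
    (hl : Lam k A l) : ∃ h, GReg k A l h := by
  classical
  by_cases h0 : ∃ m₀ : Ideal A, RegMax m₀
  · obtain ⟨m₀, hm₀⟩ := h0
    have hex : ∀ m : Ideal A, ∃ q : ℚ, RegMax m → GDiff k A l m m₀ q := by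
      intro m
      by_cases hm : RegMax m
      · obtain ⟨q₁, q₂, q₃, h1, -, -⟩ := GReg_three halg hd hA hl hm hm₀ hm₀
        exact ⟨q₁ - q₂, fun _ => h1⟩
      · exact ⟨0, fun h => absurd h hm⟩
    choose h hh using hex
    refine ⟨h, ?_⟩
    intro K _ _ ψ lK hK hCu W W' m m' hW hW' hm hm' hc hc' hr hr'
    obtain ⟨q₁, q₂, q₃, h1, h2, h3⟩ := GReg_three halg hd hA hl hm hm' hm₀
    have e1 := GDiff.unique hL hd hA hl hm hm' h1
      ⟨K, _, _, ψ, lK, hK, W, W', hCu, hW, hW', hc, hc', hr, hr', rfl⟩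
    have e2 := GDiff.unique hL hd hA hl hm hm₀ h2 (hh m hm)
    have e3 := GDiff.unique hL hd hA hl hm' hm₀ h3 (hh m' hm')
    linarith
  · refine ⟨fun _ => 0, ?_⟩
    intro K _ _ ψ lK hK hCu W W' m m' hW hW' hm
    exact absurd ⟨m, hm⟩ h0

end Pool.Agent.Lib.MP_b197b4_ntA
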