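import Mathlib
import Pool.Agent.Lib.MP_b197b4_ntA.Defs2
import Pool.Agent.Lib.MP_b197b4_ntK.Ord

/-!
# MP_b197b4_nt, project K1-ALL: auxiliary lemmas for the resolution of places
-/

set_option autoImplicit false

namespace Pool.Agent.Lib.MP_b197b4_ntA

open IsLocalRing Pool.Agent.Lib.MP_b197b4_ntK

/-- Nullstellensatz: the residue fields of the maximal ideals are `k`. -/
theorem r2_value {k A : Type*} [Field k] [IsAlgClosed k] [CommRing A] [Algebra k A]
    [Algebra.FiniteType k A] {m : Ideal A} (hm : m.IsMaximal) (a : A) :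
    ∃ r : k, a - algebraMap k A r ∈ m := by
  let : Field (A ⧸ m) := Ideal.Quotient.field m
  have : Module.Finite k (A ⧸ m) := finite_of_finite_type_of_isJacobsonRing k (A ⧸ m)
  have h1 : Function.Bijective (algebraMap k (A ⧸ m)) :=
    IsAlgClosed.algebraMap_bijective_of_isIntegral
  obtain ⟨r, hr⟩ := h1.2 (Ideal.Quotient.mk m a)
  refine ⟨r, ?_⟩
  rw [← Ideal.Quotient.eq, ← hr]
  rfl

section

variable {k F : Type} [Field k] [Field F] [Algebra k F] {A A' : Subalgebra k F} {f : F}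

/-- an ideal whose residue ring is `k` is maximal -/
theorem r2_isMaximal {B : Type*} [CommRing B] [Algebra k B] {m : Ideal B} (h1 : (1 : B) ∉ m)
    (h : ∀ a : B, ∃ r : k, a - algebraMap k B r ∈ m) : m.IsMaximal := by
  rw [Ideal.isMaximal_iff]
  refine ⟨h1, fun J x hJ hx hxJ => ?_⟩
  obtain ⟨r, hr⟩ := h x
  have hr0 : r ≠ 0 := by
    rintro rfl
    rw [map_zero, sub_zero] at hr
    exact hx hr
  have h2 : algebraMap k B r ∈ J := by
    have := J.sub_mem hxJ (hJ hr)
    simpa using this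
  have h3 := J.mul_mem_left (algebraMap k B r⁻¹) h2
  rwa [← map_mul, inv_mul_cancel₀ hr0, map_one] at h3

/-- Localization: a maximal ideal of `A'` which does not contain `f` is regular if its trace on `A`
is regular. -/
theorem regMax_of_not_mem [IsAlgClosed k] (h : Ext A A' f) (hA' : A'.FG)
    (hreg : ∀ m : Ideal A, m.IsMaximal → RegMax m) {n : Ideal A'} (hn : n.IsMaximal)
    (hf : (⟨f, h.le h.mem⟩ : A') ∉ n) : RegMax n := by
  refine ⟨hn, fun hp => ?_⟩
  have hnp : n.IsPrime := hp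
  have hft : Algebra.FiniteType k A' := A'.fg_iff_finiteType.1 hA'
  let m : Ideal A := n.comap (Subalgebra.inclusion h.le)
  have hm : m.IsMaximal := by
    apply r2_isMaximal (k := k)
    · intro h1
      exact hn.ne_top ((Ideal.eq_top_iff_one _).2 (by simpa [m] using h1))
    · intro a
      obtain ⟨r, hr⟩ := r2_value (k := k) hn (Subalgebra.inclusion h.le a)
      refine ⟨r, ?_⟩
      show Subalgebra.inclusion h.le (a - algebraMap k A r) ∈ n
      rw [map_sub, AlgHom.commutes]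
      exact hr
  have hmp : m.IsPrime := hm.isPrime
  have hr := (hreg m hm).2 hmp
  let O := Localization.AtPrime n
  let alg : Algebra A O := ((algebraMap A' O).comp
    (Subalgebra.inclusion h.le : A →+* A')).toAlgebra
  have halg : ∀ a : A, algebraMap A O a = algebraMap A' O (Subalgebra.inclusion h.le a) :=
    fun a => rfl
  have hinj : Function.Injective (algebraMap A' O) :=
    IsLocalization.injective O n.primeCompl_le_nonZeroDivisors
  have hloc : IsLocalization.AtPrime O m := by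
    refine ⟨?_, ?_, ?_⟩
    · intro s
      rw [halg]
      exact IsLocalization.map_units O (⟨_, s.2⟩ : n.primeCompl)
    · intro x
      obtain ⟨⟨a, s⟩, has⟩ := IsLocalization.surj n.primeCompl x
      obtain ⟨i, hi⟩ := h.pow a a.2
      obtain ⟨j, hj⟩ := h.pow s s.1.2
      have hi' : f ^ (i + j) * (a : F) ∈ A := by
        rw [pow_add, mul_comm (f ^ i), mul_assoc]
        exact A.mul_mem (A.pow_mem h.mem j) hi
      have hj' : f ^ (i + j) * ((s : A') : F) ∈ A := by
        rw [pow_add, mul_assoc]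
        exact A.mul_mem (A.pow_mem h.mem i) hj
      have hs : (⟨_, hj'⟩ : A) ∈ m.primeCompl := by
        intro hc
        have h1 : Subalgebra.inclusion h.le (⟨_, hj'⟩ : A) =
            (⟨f, h.le h.mem⟩ : A') ^ (i + j) * (s : A') := Subtype.ext rfl
        have h2 : Subalgebra.inclusion h.le (⟨_, hj'⟩ : A) ∈ n := hc
        rw [h1] at h2
        rcases hnp.mem_or_mem h2 with h3 | h3
        · exact hf (hnp.mem_of_pow_mem _ h3)
        · exact s.2 h3
      refine ⟨⟨⟨_, hi'⟩, ⟨_, hs⟩⟩, ?_⟩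
      have h1 : Subalgebra.inclusion h.le (⟨_, hj'⟩ : A) =
          (⟨f, h.le h.mem⟩ : A') ^ (i + j) * (s : A') := Subtype.ext rfl
      have h2 : Subalgebra.inclusion h.le (⟨_, hi'⟩ : A) =
          (⟨f, h.le h.mem⟩ : A') ^ (i + j) * a := Subtype.ext rfl
      simp only [halg]
      rw [h1, h2, map_mul, map_mul, ← has]
      ring
    · intro a b hab
      rw [halg, halg] at hab
      have h1 := Subalgebra.inclusion_injective h.le (hinj hab)
      exact ⟨1, by rw [h1]⟩
  exact IsRegularLocalRing.of_ringEquiv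
    (IsLocalization.algEquiv m.primeCompl (Localization.AtPrime m) O).toRingEquiv

/-- The centre of a place on `A'`. -/
theorem center_ext (h : Ext A A' f) {K : Type} [Field K] [Algebra k K] (ψ : A →ₐ[k] K)
    (ψ' : A' →ₐ[k] K) (hc : ψ'.comp (Subalgebra.inclusion h.le) = ψ) {W : ValuationSubring K}
    {m : Ideal A} (hm : m.IsMaximal) (hk : ∀ a : A, ∃ r : k, a - algebraMap k A r ∈ m)
    (hW : CenterK ψ W m) (hf : (⟨f, h.mem⟩ : A) ∉ m) :
    ∃ m' : Ideal A', m'.IsMaximal ∧ CenterK ψ' W m' ∧ m'.comap (Subalgebra.inclusion h.le) = m ∧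
      (⟨f, h.le h.mem⟩ : A') ∉ m' := by
  have hψ : ∀ a : A, ψ' (Subalgebra.inclusion h.le a) = ψ a := fun a => by rw [← hc]; rfl
  have hfW : W.valuation (ψ ⟨f, h.mem⟩) = 1 := by
    refine le_antisymm ((W.valuation_le_one_iff _).2 (hW _).1) ?_
    by_contra hlt
    push Not at hlt
    exact hf ((hW _).2.2 hlt)
  have hpow : ∀ a : A', ∃ b : A, W.valuation (ψ' a) = W.valuation (ψ b) ∧
      ∃ i : ℕ, Subalgebra.inclusion h.le b = (⟨f, h.le h.mem⟩ : A') ^ i * a := by
    intro a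
    obtain ⟨i, hi⟩ := h.pow a a.2
    have h1 : Subalgebra.inclusion h.le (⟨_, hi⟩ : A) = (⟨f, h.le h.mem⟩ : A') ^ i * a :=
      Subtype.ext rfl
    refine ⟨⟨_, hi⟩, ?_, i, h1⟩
    rw [← hψ, h1, map_mul, map_mul, map_pow, map_pow]
    have h2 : ψ' (⟨f, h.le h.mem⟩ : A') = ψ ⟨f, h.mem⟩ := hψ ⟨f, h.mem⟩
    rw [h2, hfW, one_pow, one_mul]
  have hle : ∀ a : A', ψ' a ∈ W := by
    intro a
    obtain ⟨b, hb, _⟩ := hpow a
    rw [← W.valuation_le_one_iff, hb, W.valuation_le_one_iff]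
    exact (hW b).1
  let g : A' →+* W := (ψ' : A' →+* K).codRestrict W.toSubring hle
  let m' : Ideal A' := (maximalIdeal W).comap g
  have hm' : ∀ a : A', a ∈ m' ↔ W.valuation (ψ' a) < 1 := by
    intro a
    show g a ∈ maximalIdeal W ↔ _
    rw [ValuationSubring.valuation_lt_one_iff W (g a)]
    rfl
  have hfm' : (⟨f, h.le h.mem⟩ : A') ∉ m' := by
    rw [hm']
    have h2 : ψ' (⟨f, h.le h.mem⟩ : A') = ψ ⟨f, h.mem⟩ := hψ ⟨f, h.mem⟩
    rw [h2, hfW]
    exact lt_irrefl _
  have hcomap : m'.comap (Subalgebra.inclusion h.le) = m := by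
    ext a
    show Subalgebra.inclusion h.le a ∈ m' ↔ _
    rw [hm', hψ]
    exact (hW a).2.symm
  refine ⟨m', ?_, fun a => ⟨hle a, hm' a⟩, hcomap, hfm'⟩
  apply r2_isMaximal (k := k)
  · rw [hm', map_one, map_one]
    exact lt_irrefl _
  · intro a
    obtain ⟨b, _, i, hb⟩ := hpow a
    obtain ⟨r, hr⟩ := hk b
    obtain ⟨s, hs⟩ := hk ((⟨f, h.mem⟩ : A) ^ i)
    have hs0 : s ≠ 0 := by
      rintro rfl
      rw [map_zero, sub_zero] at hs
      exact hf (hm.isPrime.mem_of_pow_mem _ hs)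
    refine ⟨r / s, ?_⟩
    have h1 : Subalgebra.inclusion h.le (b - algebraMap k A r) ∈ m' := by
      rw [← hcomap] at hr; exact hr
    have h2 : Subalgebra.inclusion h.le ((⟨f, h.mem⟩ : A) ^ i - algebraMap k A s) ∈ m' := by
      rw [← hcomap] at hs; exact hs
    rw [map_sub, AlgHom.commutes] at h1 h2
    rw [hb] at h1
    rw [map_pow] at h2
    have h3 : Subalgebra.inclusion h.le (⟨f, h.mem⟩ : A) = (⟨f, h.le h.mem⟩ : A') := rfl
    rw [h3] at h2
    have h4 : a - algebraMap k A' (r / s) =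
        algebraMap k A' s⁻¹ * ((⟨f, h.le h.mem⟩ : A') ^ i * a - algebraMap k A' r) -
          algebraMap k A' s⁻¹ * a * ((⟨f, h.le h.mem⟩ : A') ^ i - algebraMap k A' s) := by
      have h5 : algebraMap k A' s⁻¹ * algebraMap k A' s = 1 := by
        rw [← map_mul, inv_mul_cancel₀ hs0, map_one]
      rw [div_eq_mul_inv, map_mul]
      linear_combination (-a) * h5
    rw [h4]
    exact m'.sub_mem (m'.mul_mem_left _ h1) (m'.mul_mem_left _ h2)

/-- Regular places stay regular. -/
theorem regK_ext (h : A ≤ A') {K : Type} [Field K] [Algebra k K] (ψ : A →ₐ[k] K)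
    (ψ' : A' →ₐ[k] K) (hc : ψ'.comp (Subalgebra.inclusion h) = ψ) {W : ValuationSubring K}
    (hW : RegK ψ W) : RegK ψ' W := by
  intro y hy
  obtain ⟨a, s, hs, has⟩ := hW y hy
  have hψ : ∀ a : A, ψ' (Subalgebra.inclusion h a) = ψ a := fun a => by rw [← hc]; rfl
  exact ⟨Subalgebra.inclusion h a, Subalgebra.inclusion h s, by rw [hψ]; exact hs,
    by rw [hψ, hψ]; exact has⟩

/-- A place with a centre: some element of the centre does not vanish on the curve. -/
theorem exists_ne_of_center {K : Type} [Field K] [Algebra k K] (ψ : A →ₐ[k] K)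
    (hψ : ∀ e : K, ∃ a b : A, ψ b ≠ 0 ∧ e = ψ a / ψ b) {W : ValuationSubring K}
    (hW : Place k W) {m : Ideal A} (hc : CenterK ψ W m) : ∃ a ∈ m, ψ a ≠ 0 := by
  by_contra hcon
  push Not at hcon
  have hu : ∀ a : A, ψ a ≠ 0 → W.valuation (ψ a) = 1 := by
    intro a ha
    refine le_antisymm ((W.valuation_le_one_iff _).2 (hc a).1) ?_
    by_contra hlt
    push Not at hlt
    exact ha (hcon a ((hc a).2.2 hlt))
  have hV := hW.1
  obtain ⟨p, hp⟩ := IsDiscreteValuationRing.exists_irreducible W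
  have hp0 : (p : K) ≠ 0 := fun h => hp.ne_zero (Subtype.ext h)
  have hlt : W.valuation (p : K) < 1 := val_irr_lt hp
  obtain ⟨a, b, hb, hab⟩ := hψ (p : K)
  have ha : ψ a ≠ 0 := by
    intro h
    rw [h, zero_div] at hab
    exact hp0 hab
  rw [hab, map_div₀, hu a ha, hu b hb, div_one] at hlt
  exact lt_irrefl _ hlt

/-- Finitely many places over a closed point. -/
theorem finite_over {K : Type} [Field K] [Algebra k K] (ψ : A →ₐ[k] K)
    (hψ : ∀ e : K, ∃ a b : A, ψ b ≠ 0 ∧ e = ψ a / ψ b)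
    (hfin : ∀ c : K, c ≠ 0 → {W | Place k W ∧ ord W c ≠ 0}.Finite) (m : Ideal A) :
    {W | Place k W ∧ CenterK ψ W m}.Finite := by
  rcases Set.eq_empty_or_nonempty {W | Place k W ∧ CenterK ψ W m} with h | ⟨W₀, hW₀, hc₀⟩
  · rw [h]; exact Set.finite_empty
  obtain ⟨a, ha, hψa⟩ := exists_ne_of_center ψ hψ hW₀ hc₀
  refine (hfin _ hψa).subset ?_
  rintro W ⟨hW, hc⟩
  refine ⟨hW, ?_⟩
  have h1 := (ord_pos_iff hW.1 hψa).2 ((hc a).2.1 ha)
  omega

/-- Finitely many places without centre. -/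
theorem finite_infinity (hA : A.FG) {K : Type} [Field K] [Algebra k K] (ψ : A →ₐ[k] K)
    (hfin : ∀ c : K, c ≠ 0 → {W | Place k W ∧ ord W c ≠ 0}.Finite) :
    {W | Place k W ∧ ¬ ∀ a, ψ a ∈ W}.Finite := by
  classical
  obtain ⟨S, hS⟩ := A.fg_iff_finiteType.1 hA |>.out
  have h1 : (⋃ g ∈ S, {W | Place k W ∧ ψ g ≠ 0 ∧ ord W (ψ g) ≠ 0}).Finite := by
    refine S.finite_toSet.biUnion fun g _ => ?_
    by_cases hg : ψ g = 0
    · convert Set.finite_empty
      ext W
      simp [hg]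
    · exact (hfin _ hg).subset fun W hW => ⟨hW.1, hW.2.2⟩
  refine h1.subset ?_
  rintro W ⟨hW, hn⟩
  by_contra hcon
  apply hn
  have hgen : ∀ g ∈ S, ψ g ∈ W := by
    intro g hg
    by_contra hgW
    apply hcon
    simp only [Set.mem_iUnion]
    refine ⟨g, hg, hW, ?_, ?_⟩
    · intro h0
      rw [h0] at hgW
      exact hgW W.zero_mem
    · intro h0
      by_cases hg0 : ψ g = 0
      · rw [hg0] at hgW
        exact hgW W.zero_mem
      · exact hgW ((ord_nonneg_iff hW.1 hg0).1 (by rw [h0]))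
  intro a
  have ha : a ∈ Algebra.adjoin k (S : Set A) := by rw [hS]; trivial
  induction ha using Algebra.adjoin_induction with
  | mem x hx => exact hgen x hx
  | algebraMap r =>
    rw [AlgHom.commutes]
    exact hW.2 r
  | add x y _ _ hx hy => rw [map_add]; exact W.add_mem _ _ hx hy
  | mul x y _ _ hx hy => rw [map_mul]; exact W.mul_mem _ _ hx hy

/-- Reference places. -/
theorem exists_ref (hA : A.FG) {K : Type} [Field K] [Algebra k K] (ψ : A →ₐ[k] K)
    (hψ : ∀ e : K, ∃ a b : A, ψ b ≠ 0 ∧ e = ψ a / ψ b)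
    (hinf : {W : ValuationSubring K | Place k W}.Infinite)
    (hfin : ∀ c : K, c ≠ 0 → {W | Place k W ∧ ord W c ≠ 0}.Finite)
    (hregK : {W | Place k W ∧ ¬ RegK ψ W}.Finite)
    (hcen : ∀ W : ValuationSubring K, Place k W → (∀ a, ψ a ∈ W) →
      ∃ m : Ideal A, m.IsMaximal ∧ CenterK ψ W m) (s : Finset (Ideal A)) :
    ∃ (W : ValuationSubring K) (m : Ideal A), Place k W ∧ RegK ψ W ∧ m.IsMaximal ∧
      CenterK ψ W m ∧ m ∉ s := by
  classical
  have h1 : (⋃ m ∈ s, {W | Place k W ∧ CenterK ψ W m}).Finite :=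
    s.finite_toSet.biUnion fun m _ => finite_over ψ hψ hfin m
  have h2 := (h1.union (finite_infinity hA ψ hfin)).union hregK
  obtain ⟨W, hW, hW'⟩ := hinf.exists_notMem_finite h2
  simp only [Set.mem_union, Set.mem_iUnion, not_or, Set.mem_ofPred_eq, not_and, not_not] at hW'
  obtain ⟨⟨ha, hb⟩, hc⟩ := hW'
  obtain ⟨m, hm, hcm⟩ := hcen W hW (hb hW)
  refine ⟨W, m, hW, hc hW, hm, hcm, fun hms => ?_⟩
  exact ha ⟨m, hms, hW, hcm⟩

/-- If the generators are fractions with denominators of order zero, the place is regular. -/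
theorem regK_of_gens {K : Type} [Field K] [Algebra k K] (ψ : A →ₐ[k] K) {W : ValuationSubring K}
    (C : Finset K)
    (hC : ∀ y ∈ W, ∃ r ∈ Algebra.adjoin k (C : Set K), ∃ s ∈ Algebra.adjoin k (C : Set K),
      W.valuation s = 1 ∧ y = r / s)
    (hg : ∀ c ∈ C, ∃ a b : A, W.valuation (ψ b) = 1 ∧ c = ψ a / ψ b) : RegK ψ W := by
  have hmem : ∀ r ∈ Algebra.adjoin k (C : Set K), ∃ a b : A, W.valuation (ψ b) = 1 ∧
      r = ψ a / ψ b := by
    intro r hr
    have hne : ∀ b : A, W.valuation (ψ b) = 1 → ψ b ≠ 0 := by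
      intro b hb h0
      rw [h0, map_zero] at hb
      exact zero_ne_one hb
    induction hr using Algebra.adjoin_induction with
    | mem x hx => exact hg x hx
    | algebraMap r => exact ⟨algebraMap k A r, 1, by rw [map_one, map_one], by
        rw [map_one, div_one, AlgHom.commutes]⟩
    | add x y _ _ hx hy =>
      obtain ⟨a, b, hb, rfl⟩ := hx
      obtain ⟨a', b', hb', rfl⟩ := hy
      refine ⟨a * b' + a' * b, b * b', by rw [map_mul, map_mul, hb, hb', one_mul], ?_⟩
      have h1 := hne b hb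
      have h2 := hne b' hb'
      rw [map_add, map_mul, map_mul, map_mul]
      field_simp
    | mul x y _ _ hx hy =>
      obtain ⟨a, b, hb, rfl⟩ := hx
      obtain ⟨a', b', hb', rfl⟩ := hy
      refine ⟨a * a', b * b', by rw [map_mul, map_mul, hb, hb', one_mul], ?_⟩
      rw [map_mul, map_mul, div_mul_div_comm]
  intro y hy
  obtain ⟨r, hr, s, hs, hsv, rfl⟩ := hC y hy
  obtain ⟨a, b, hb, rfl⟩ := hmem r hr
  obtain ⟨a', b', hb', rfl⟩ := hmem s hs
  refine ⟨a * b', b * a', ?_, ?_⟩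
  · rw [map_div₀, hb', div_one] at hsv
    rw [map_mul, map_mul, hb, hsv, one_mul]
  · rw [map_mul, map_mul, div_div_div_eq]

end

end Pool.Agent.Lib.MP_b197b4_ntA
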