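import Mathlib
import Pool.Agent.Lib.MP_b197b4_ntA.R2aux
import Pool.Agent.Lib.MP_b197b4_ntA.Cur2
import Pool.Agent.Lib.MP_b197b4_ntA.Cur3
import Pool.Agent.Lib.MP_b197b4_ntA.GReg
import Pool.Agent.Lib.MP_b197b4_ntA.Ext1
import Pool.Agent.Lib.MP_b197b4_ntA.Ext2
import Pool.Agent.Lib.MP_b197b4_ntQ.Bl3
import Pool.Agent.Lib.MP_b197b4_ntA.Cmp
import Pool.Agent.Lib.MP_b197b4_ntQ.Q3
import Pool.Agent.Lib.MP_b197b4_ntQ.Dim1

/-!
# MP_b197b4_nt, project K1-ALL, leaf R2: all places over regular points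

Every place of a curve becomes a regular point of the curve after finitely many quadratic
transforms: induction on a bound for the orders of the denominators.
-/

set_option autoImplicit false

namespace Pool.Agent.Lib.MP_b197b4_ntA

open IsLocalRing Pool.Agent.Lib.MP_b197b4_ntK

variable {k F : Type} [Field k] [Field F] [Algebra k F]

/-- Every element of `W` is a fraction with denominator of order at most `e`. -/
def GAllDen {A : Subalgebra k F} {K : Type} [Field K] [Algebra k K] (ψ : A →ₐ[k] K)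
    (W : ValuationSubring K) (e : ℕ) : Prop :=
  ∀ c ∈ W, ∃ a b : A, ψ b ≠ 0 ∧ ord W (ψ b) ≤ e ∧ c = ψ a / ψ b

/-- Existence of a bound. -/
theorem GAll_exists_den [IsAlgClosed k] {A : Subalgebra k F} (hA : A.FG) {K : Type} [Field K]
    [Algebra k K] (hK : FunF k K 1) (ψ : A →ₐ[k] K)
    (hψ : ∀ e : K, ∃ a b : A, ψ b ≠ 0 ∧ e = ψ a / ψ b) {W : ValuationSubring K} (hW : Place k W)
    (h : ∀ a, ψ a ∈ W) : ∃ e, GAllDen ψ W e := by
  have hB : ψ.range.FG := by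
    have h1 : (⊤ : Subalgebra k A).FG := (Subalgebra.fg_top A).2 hA
    have h2 := h1.map ψ
    rwa [Algebra.map_top] at h2
  have hft : Algebra.FiniteType k ψ.range := (Subalgebra.fg_iff_finiteType ψ.range).1 hB
  have hfr : IsFractionRing ψ.range K := by
    refine IsFractionRing.of_field _ _ fun e => ?_
    obtain ⟨a, b, -, rfl⟩ := hψ e
    exact ⟨⟨ψ a, a, rfl⟩, ⟨ψ b, b, rfl⟩, rfl⟩
  have : IsNoetherianRing ψ.range := Algebra.FiniteType.isNoetherianRing k _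
  obtain ⟨t, ht⟩ := MP_b197b4_ntD.exists_hasDim k ψ.range
  have h1 := ht.trdeg_frac K
  rw [hK.2] at h1
  have h2 : t = 1 := by exact_mod_cast h1.symm
  subst h2
  obtain ⟨e, he⟩ := MP_b197b4_ntQ.exists_den_ord ψ.range hB hfr ht.not_isField
    (fun p hp hne => ht.isMaximal_of_one p hne) hW.1 (by
      rintro _ ⟨a, rfl⟩
      exact h a)
  refine ⟨e, fun c hc => ?_⟩
  obtain ⟨_, _, ⟨a, rfl⟩, ⟨b, rfl⟩, hb0, hbe, hcab⟩ := he c hc
  exact ⟨a, b, hb0, hbe, hcab⟩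

/-- Bound zero: the curve is regular at the place. -/
theorem GAll_regK_of_den {A : Subalgebra k F} {K : Type} [Field K] [Algebra k K] (ψ : A →ₐ[k] K)
    {W : ValuationSubring K} (hW : Place k W) (h : ∀ a, ψ a ∈ W) (hd : GAllDen ψ W 0) :
    RegK ψ W := by
  intro c hc
  obtain ⟨a, b, hb0, hbe, rfl⟩ := hd c hc
  refine ⟨a, b, ?_, rfl⟩
  have h1 : 0 ≤ ord W (ψ b) := (ord_nonneg_iff hW.1 hb0).2 (h b)
  have h2 : ord W (ψ b) = 0 := le_antisymm (by exact_mod_cast hbe) h1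
  exact (ord_eq_zero_iff hW.1 hb0).1 h2

theorem GAll_main [IsAlgClosed k]
    (halg : ∃ p : ℕ, p.Prime ∧ ∀ a : k, ∃ m : ℕ, 0 < m ∧ a ^ p ^ m = a) (hP : Pic k) (hL : LTP k)
    {d : ℕ} (hd : 2 ≤ d) {K : Type} [Field K] [Algebra k K] {W W₀ : ValuationSubring K}
    (hW : Place k W) (hW₀ : Place k W₀) (lK : K → ℚ) (hK : ValuationSubring K → ℚ) (e : ℕ) :
    ∀ (A : Subalgebra k F), DChart d A → (∀ m : Ideal A, m.IsMaximal → RegMax m) →
      ∀ (l : Ideal A → A → ℚ), Lam k A l → ∀ (h : Ideal A → ℚ), GReg k A l h →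
      ∀ (ψ : A →ₐ[k] K), CurveK k A l ψ lK hK → ∀ (y m₀ : Ideal A), y.IsMaximal →
        m₀.IsMaximal → y ≠ m₀ → CenterK ψ W y → CenterK ψ W₀ m₀ → RegK ψ W₀ →
        GAllDen ψ W e → hK W - hK W₀ = h y - h m₀ := by
  induction e with
  | zero =>
    intro A hA hreg l hl h hh ψ hC y m₀ hy hm₀ hne hWy hWm hR hD
    exact hh K ψ lK hK hC W W₀ y m₀ hW hW₀ (hreg y hy) (hreg m₀ hm₀) hWy hWm
      (GAll_regK_of_den ψ hW (fun a => (hWy a).1) hD) hR
  | succ e ih =>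
    intro A hA hreg l hl h hh ψ hC y m₀ hy hm₀ hne hWy hWm hR hD
    obtain ⟨A', f, z, hB, ψ', n, hcomp, hn, hnf, hnC, hs, hψf, hfrac⟩ :=
      exists_blow hd hA y (hreg y hy) {m₀} (by
        intro m hm
        rw [Finset.mem_singleton] at hm
        subst hm
        exact ⟨hm₀, hne.symm⟩) hC.fun1 ψ hC.gen W hW hWy
    have hfm : (⟨f, hB.ext.mem⟩ : A) ∉ m₀ := hs m₀ (Finset.mem_singleton_self _)
    have hA' : DChart d A' := hB.chart
    have hl' : Lam k A' (lext hB.ext l) := lam_ext hA.fg hA'.fg hA.frac hB.ext l hl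
    obtain ⟨h', hh'⟩ := gReg_exists halg hP hL hd hA' (lext hB.ext l) hl'
    have hreg' : ∀ m : Ideal A', m.IsMaximal → RegMax m := by
      intro m hm
      by_cases hfm' : (⟨f, hB.ext.le hB.ext.mem⟩ : A') ∈ m
      · exact hB.reg m hm hfm'
      · exact regMax_of_not_mem hB.ext hA'.fg hreg hm hfm'
    have hC' : CurveK k A' (lext hB.ext l) ψ' lK hK :=
      curveK_ext hA.fg hB.ext l hl ψ ψ' hcomp hψf lK hK hC
    have : Algebra.FiniteType k A := (Subalgebra.fg_iff_finiteType A).1 hA.fg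
    obtain ⟨m', hm', hm'C, hm'c, hm'f⟩ := center_ext hB.ext ψ ψ' hcomp hm₀
      (fun a => r2_value hm₀ a) hWm hfm
    have hR' : RegK ψ' W₀ := regK_ext hB.ext.le ψ ψ' hcomp hR
    have hne' : n ≠ m' := by
      rintro rfl
      exact hm'f hnf
    have hinc : ∀ a : A, ψ' (Subalgebra.inclusion hB.ext.le a) = ψ a := fun a => by
      rw [← hcomp]; rfl
    have hD' : GAllDen ψ' W e := by
      intro c hc
      obtain ⟨a, b, hb0, hbe, rfl⟩ := hD c hc
      by_cases hb : 0 < ord W (ψ b)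
      · obtain ⟨a', b', hb0', hq, -, hlt⟩ := hfrac a b hb0 hb hc
        refine ⟨a', b', hb0', ?_, hq.symm⟩
        push_cast at hbe
        omega
      · refine ⟨Subalgebra.inclusion hB.ext.le a, Subalgebra.inclusion hB.ext.le b, ?_, ?_, ?_⟩
        · rwa [hinc]
        · rw [hinc]
          have : (0 : ℤ) ≤ e := Int.natCast_nonneg e
          omega
        · rw [hinc, hinc]
    have h1 := ih A' hA' hreg' (lext hB.ext l) hl' h' hh' ψ' hC' n m' hn hm' hne' hnC hm'C hR' hD'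
    have h2 := blow_compare halg hd hA f y (hreg y hy) z hB l hl h hh h' hh' n hn hnf m₀
      (hreg m₀ hm₀) hfm m' (hreg' m' hm') hm'c
    rw [h1, h2]

/-- R2: all places over regular points. -/
theorem gAll_exists {k F : Type} [Field k] [IsAlgClosed k] [Field F] [Algebra k F]
    (halg : ∃ p : ℕ, p.Prime ∧ ∀ a : k, ∃ m : ℕ, 0 < m ∧ a ^ p ^ m = a) (hP : Pic k) (hL : LTP k)
    {d : ℕ} (hd : 2 ≤ d) {A : Subalgebra k F} (hA : DChart d A)
    (hreg : ∀ m : Ideal A, m.IsMaximal → RegMax m) (l : Ideal A → A → ℚ)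
    (hl : Lam k A l) : ∃ h, GAll k A l h := by
  classical
  obtain ⟨h, hh⟩ := gReg_exists halg hP hL hd hA l hl
  refine ⟨h, ?_⟩
  intro K _ _ ψ lK hK hC W W' m m' hW hW' hm hm' hWm hWm'
  obtain ⟨W₀, m₀, hW₀, hR₀, hm₀, hC₀, hs⟩ := exists_ref hA.fg ψ hC.gen (places_infinite hC.fun1)
    (fun c hc => ord_finite hC.fun1 c hc) (regK_cofinite hA.fg hC.fun1 ψ hC.gen)
    (fun W hW h => exists_center hA.fg hC.fun1 ψ hC.gen W hW h) {m, m'}
  rw [Finset.mem_insert, Finset.mem_singleton, not_or] at hs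
  obtain ⟨e, he⟩ := GAll_exists_den hA.fg hC.fun1 ψ hC.gen hW (fun a => (hWm a).1)
  obtain ⟨e', he'⟩ := GAll_exists_den hA.fg hC.fun1 ψ hC.gen hW' (fun a => (hWm' a).1)
  have h1 := GAll_main halg hP hL hd hW hW₀ lK hK e A hA hreg l hl h hh ψ hC m m₀ hm.1 hm₀
    (Ne.symm hs.1) hWm hC₀ hR₀ he
  have h2 := GAll_main halg hP hL hd hW' hW₀ lK hK e' A hA hreg l hl h hh ψ hC m' m₀ hm'.1 hm₀
    (Ne.symm hs.2) hWm' hC₀ hR₀ he'
  linarith

end Pool.Agent.Lib.MP_b197b4_ntA
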