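import Mathlib
import Pool.Agent.Lib.MP_b197b4_ntA.Defs

/-!
# MP_b197b4_nt, project K1-ALL: projective varieties of dimension `d`, the statement

The points of the variety are given by their local rings, subrings of the function field `F`.
-/

set_option autoImplicit false

namespace Pool.Agent.Lib.MP_b197b4_ntA

open IsLocalRing Pool.Agent.Lib.MP_b197b4_ntK

section

variable (k : Type) {F : Type} [Field k] [Field F] [Algebra k F] {n : ℕ}

/-- The affine charts. -/
def cht (x : Fin (n + 1) → F) (i : Fin (n + 1)) : Subalgebra k F :=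
  Algebra.adjoin k (Set.range fun j => x j / x i)

/-- Homogeneous coordinates of a regular projective variety of dimension `d` with function
field `F`. -/
structure Var (d : ℕ) (x : Fin (n + 1) → F) : Prop where
  ne : ∀ i, x i ≠ 0
  frac : ∀ i, IsFractionRing (cht k x i) F
  regular : ∀ i, IsRegularRing (cht k x i)
  height : ∀ i, ∀ m : Ideal (cht k x i), m.IsMaximal → m.height = d

/-- The points of dimension `e`. -/
def Pts (x : Fin (n + 1) → F) (e : ℕ) : Set (LocalSubring F) :=
  {O | ∃ (i : Fin (n + 1)) (P : Ideal (cht k x i).toSubring) (_ : P.IsPrime),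
    ringKrullDim ((cht k x i).toSubring ⧸ P) = e ∧ O = LocalSubring.ofPrime _ P}

end

section

variable {F : Type} [Field F]

/-- The residue field of a point. -/
abbrev Kap (O : LocalSubring F) : Type := ResidueField O.toSubring

/-- The local ring at the point `O` of the closed subvariety with generic point `S`. -/
noncomputable def locSub (O S : LocalSubring F) : Subring (Kap S) :=
  (O.toSubring.comap S.toSubring.subtype).map (residue S.toSubring)

/-- `P` is the centre of the valuation ring `V` of the function field of `S`. -/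
def Cen (P S : LocalSubring F) (V : ValuationSubring (Kap S)) : Prop :=
  P.toSubring ≤ S.toSubring ∧ ∀ (y : F) (hP : y ∈ P.toSubring) (hS : y ∈ S.toSubring),
    residue S.toSubring ⟨y, hS⟩ ∈ V ∧
      (IsUnit (⟨y, hP⟩ : P.toSubring) ↔ V.valuation (residue S.toSubring ⟨y, hS⟩) = 1)

open Classical in
/-- The norm from the residue field of `V` to the residue field of its centre `P`. -/
noncomputable def nrm (P S : LocalSubring F) (V : ValuationSubring (Kap S))
    (c : ResidueField V) : Kap P :=
  if h : ∃ φ : Kap P →+* ResidueField V, ∀ (y : F) (hP : y ∈ P.toSubring)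
      (hS : y ∈ S.toSubring), φ (residue _ ⟨y, hP⟩) = res V (residue _ ⟨y, hS⟩) then
    @Algebra.norm (Kap P) (ResidueField V) _ _ h.choose.toAlgebra c else 1

/-- The component at the curve `P` of the boundary of the symbol `{f, g}` on the surface `S`: the
product of the norms of the tame symbols at all discrete valuation rings with centre `P`. -/
noncomputable def bd (q : Σ S : LocalSubring F, Kap S × Kap S) (P : LocalSubring F) : Kap P :=
  ∏ᶠ (V : ValuationSubring (Kap q.1)) (_ : IsDiscreteValuationRing V ∧ Cen P q.1 V),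
    nrm P q.1 V (tame V q.2.1 q.2.2)

end

section

variable {k : Type} {F : Type} [Field k] [Field F] [Algebra k F] {n : ℕ}

/-- Nonzero functions `a P` on the curves `P` of the variety, almost all equal to one, such that the
sum of their divisors is zero. -/
structure CycX (k : Type) {F : Type} [Field k] [Field F] [Algebra k F] {n : ℕ}
    (x : Fin (n + 1) → F) (a : ∀ P : LocalSubring F, Kap P) : Prop where
  ne : ∀ P ∈ Pts k x 1, a P ≠ 0
  finite : {P | P ∈ Pts k x 1 ∧ a P ≠ 1}.Finite
  div : ∀ O ∈ Pts k x 0,
    ∑ᶠ (P : LocalSubring F) (_ : P ∈ Pts k x 1 ∧ O.toSubring ≤ P.toSubring),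
      len (locSub O P) (a P) = 0

end

/-- **MAIN STATEMENT (K1-ALL)**: for every regular projective variety of dimension `d ≥ 2` over `k`
the homology of `⊕ K_2(κ(S)) → ⊕ κ(P)ˣ → ⊕ ℤ` (surfaces, curves, closed points) is torsion. -/
def K1All (k : Type) [Field k] : Prop :=
  ∀ (F : Type) [Field F] [Algebra k F] (n : ℕ) (x : Fin (n + 1) → F) (d : ℕ), 2 ≤ d →
    Var k d x → ∀ a : ∀ P : LocalSubring F, Kap P, CycX k x a →
    ∃ N : ℕ, 0 < N ∧ ∃ s : List (Σ S : LocalSubring F, Kap S × Kap S),
      (∀ q ∈ s, q.1 ∈ Pts k x 2 ∧ q.2.1 ≠ 0 ∧ q.2.2 ≠ 0) ∧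
      ∀ P ∈ Pts k x 1, a P ^ N = (s.map fun q => bd q P).prod

end Pool.Agent.Lib.MP_b197b4_ntA
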