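import Mathlib
import Pool.Agent.Lib.MP_b197b4_ntA.XDefs

/-!
# MP_b197b4_nt, project K1-ALL: forms on the curves of a projective variety
-/

set_option autoImplicit false

namespace Pool.Agent.Lib.MP_b197b4_ntA

open IsLocalRing Pool.Agent.Lib.MP_b197b4_ntK

section

variable {F : Type} [Field F]

/-- Forms on the residue fields of the curves which kill the boundaries. -/
structure FormsX (k : Type) {F : Type} [Field k] [Field F] [Algebra k F] {n : ℕ}
    (x : Fin (n + 1) → F) (l : ∀ P : LocalSubring F, Kap P → ℚ) : Prop where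
  mul : ∀ P ∈ Pts k x 1, ∀ a b : Kap P, a ≠ 0 → b ≠ 0 → l P (a * b) = l P a + l P b
  recip : ∀ q : Σ S : LocalSubring F, Kap S × Kap S, q.1 ∈ Pts k x 2 → q.2.1 ≠ 0 → q.2.2 ≠ 0 →
    ∑ᶠ (P : LocalSubring F) (_ : P ∈ Pts k x 1), l P (bd q P) = 0

open Classical in
/-- The forms on the chart `i`. -/
noncomputable def lch (k : Type) {F : Type} [Field k] [Field F] [Algebra k F] {n : ℕ}
    (x : Fin (n + 1) → F) (l : ∀ P : LocalSubring F, Kap P → ℚ) (i : Fin (n + 1))
    (P : Ideal (cht k x i)) (a : cht k x i) : ℚ :=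
  if h : P.IsPrime then
    l (@LocalSubring.ofPrime F _ (cht k x i).toSubring P h)
      (residue _ ⟨a, @LocalSubring.le_ofPrime F _ (cht k x i).toSubring P h a.1 a.2⟩)
  else 0

end

end Pool.Agent.Lib.MP_b197b4_ntA
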