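import Mathlib
import Pool.Agent.Lib.MP_b197b4_ntA.XDefs2
import Pool.Agent.Lib.MP_b197b4_ntD.Dim
import Pool.Agent.Lib.MP_b197b4_ntK.Ord

/-!
# MP_b197b4_nt, project K1-ALL: points of a projective variety in its charts

Local rings at primes of the charts; a point whose local ring contains the chart `i` is a point of
the chart `i` of the same dimension; only finitely many curves carry a valuation at which a given
function on a surface is not a unit.
-/

set_option autoImplicit false
set_option linter.style.haveILetI false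

namespace Pool.Agent.Lib.MP_b197b4_ntA

open IsLocalRing Pool.Agent.Lib.MP_b197b4_ntK Pool.Agent.Lib.MP_b197b4_ntD

section ofPrime

variable {F : Type} [Field F] (A : Subring F) (P : Ideal A) [P.IsPrime]

theorem XP_mem {y : F} (hy : y ∈ (LocalSubring.ofPrime A P).toSubring) :
    ∃ a s : A, s ∉ P ∧ y = (a : F) / (s : F) := by
  obtain ⟨⟨a, s⟩, h⟩ := IsLocalization.surj P.primeCompl
    (⟨y, hy⟩ : (LocalSubring.ofPrime A P).toSubring)
  refine ⟨a, s, s.2, ?_⟩
  have h1 := congrArg Subtype.val h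
  have hs : ((s : A) : F) ≠ 0 := by
    intro h0
    apply s.2
    have : (s : A) = 0 := Subtype.ext h0
    rw [this]
    exact zero_mem _
  rw [eq_div_iff hs]
  exact h1

theorem XP_unit (a : A) :
    IsUnit (⟨(a : F), LocalSubring.le_ofPrime A P a.2⟩ : (LocalSubring.ofPrime A P).toSubring) ↔
      a ∉ P :=
  IsLocalization.AtPrime.isUnit_to_map_iff (LocalSubring.ofPrime A P).toSubring P a

end ofPrime

section chart

variable {k F : Type} [Field k] [Field F] [Algebra k F] {n : ℕ} {x : Fin (n + 1) → F}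

theorem XP_gen (i j : Fin (n + 1)) : x j / x i ∈ cht k x i :=
  Algebra.subset_adjoin ⟨j, rfl⟩

/-- Elements of the chart `j` are elements of the chart `i` after multiplication by a power of
`x j / x i`. -/
theorem XP_pow (hne : ∀ i, x i ≠ 0) (i j : Fin (n + 1)) {a : F} (ha : a ∈ cht k x j) :
    ∃ N : ℕ, ∀ M, N ≤ M → a * (x j / x i) ^ M ∈ cht k x i := by
  induction ha using Algebra.adjoin_induction with
  | mem a ha =>
    obtain ⟨l, rfl⟩ := ha
    refine ⟨1, fun M hM => ?_⟩
    obtain ⟨M, rfl⟩ := Nat.exists_eq_add_of_le hM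
    have h1 : x l / x j * (x j / x i) ^ (1 + M) = x l / x i * (x j / x i) ^ M := by
      rw [pow_add, pow_one, ← mul_assoc, div_mul_div_cancel₀ (hne j)]
    rw [h1]
    exact mul_mem (XP_gen i l) (pow_mem (XP_gen i j) M)
  | algebraMap c =>
    exact ⟨0, fun M _ => mul_mem (algebraMap_mem _ c) (pow_mem (XP_gen i j) M)⟩
  | add a b _ _ ha hb =>
    obtain ⟨N, hN⟩ := ha
    obtain ⟨N', hN'⟩ := hb
    refine ⟨max N N', fun M hM => ?_⟩
    rw [add_mul]
    exact add_mem (hN M ((le_max_left _ _).trans hM)) (hN' M ((le_max_right _ _).trans hM))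
  | mul a b _ _ ha hb =>
    obtain ⟨N, hN⟩ := ha
    obtain ⟨N', hN'⟩ := hb
    refine ⟨N + N', fun M hM => ?_⟩
    obtain ⟨L, rfl⟩ := Nat.exists_eq_add_of_le hM
    have h1 : a * b * (x j / x i) ^ (N + N' + L) =
        (a * (x j / x i) ^ N) * (b * (x j / x i) ^ (N' + L)) := by
      rw [add_assoc, pow_add]; ring
    rw [h1]
    exact mul_mem (hN N le_rfl) (hN' _ (Nat.le_add_right _ _))

/-- Fractions with denominators which are units. -/
theorem XP_frac (hne : ∀ i, x i ≠ 0) {e : ℕ} {S : LocalSubring F} (hS : S ∈ Pts k x e)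
    {i : Fin (n + 1)} (hi : (cht k x i).toSubring ≤ S.toSubring) {y : F}
    (hy : y ∈ S.toSubring) : ∃ a b : F, a ∈ cht k x i ∧ ∃ hb : b ∈ (cht k x i).toSubring,
      IsUnit (⟨b, hi hb⟩ : S.toSubring) ∧ y = a / b := by
  obtain ⟨j, Q, hQ, _, rfl⟩ := hS
  obtain ⟨a, s, hs, rfl⟩ := XP_mem _ _ hy
  obtain ⟨N, hN⟩ := XP_pow hne i j (a := (a : F)) a.2
  obtain ⟨N', hN'⟩ := XP_pow hne i j (a := (s : F)) s.2
  set M := max N N' with hM
  have hu : x j / x i ≠ 0 := div_ne_zero (hne j) (hne i)
  have h1 : (⟨x j / x i, hi (XP_gen i j)⟩ :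
      (LocalSubring.ofPrime (cht k x j).toSubring Q).toSubring) *
      ⟨x i / x j, LocalSubring.le_ofPrime _ _ (XP_gen j i)⟩ = 1 := by
    apply Subtype.ext
    change x j / x i * (x i / x j) = 1
    rw [div_mul_div_cancel₀ (hne i), div_self (hne j)]
  have h2 : IsUnit (⟨x j / x i, hi (XP_gen i j)⟩ :
      (LocalSubring.ofPrime (cht k x j).toSubring Q).toSubring) := IsUnit.of_mul_eq_one _ h1
  have h3 := (XP_unit (cht k x j).toSubring Q s).2 hs
  refine ⟨a * (x j / x i) ^ M, s * (x j / x i) ^ M, hN M (le_max_left _ _),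
    hN' M (le_max_right _ _), ?_, ?_⟩
  · have h4 := h3.mul (h2.pow M)
    have h5 : (⟨(s : F), LocalSubring.le_ofPrime _ _ s.2⟩ *
      (⟨x j / x i, hi (XP_gen i j)⟩ :
        (LocalSubring.ofPrime (cht k x j).toSubring Q).toSubring) ^ M) =
      ⟨(s : F) * (x j / x i) ^ M, hi (hN' M (le_max_right _ _))⟩ := by
      apply Subtype.ext
      push_cast
      rfl
    rw [h5] at h4
    exact h4
  · rw [mul_div_mul_right _ _ (pow_ne_zero _ hu)]

end chart

section dim

/-- The dimension of the image of an affine ring in its field of fractions. -/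
theorem XP_dim_ker {k K A : Type} [Field k] [Field K] [Algebra k K] [CommRing A] [Algebra k A]
    [Algebra.FiniteType k A] (φ : A →ₐ[k] K) (h : ∀ z : K, ∃ a b : A, z = φ a / φ b) :
    ∃ s : ℕ, Algebra.trdeg k K = s ∧ ringKrullDim (A ⧸ RingHom.ker φ) = s := by
  haveI : (RingHom.ker φ).IsPrime := RingHom.ker_isPrime _
  haveI : IsDomain (A ⧸ RingHom.ker φ) := Ideal.Quotient.isDomain _
  haveI : Algebra.FiniteType k (A ⧸ RingHom.ker φ) :=
    Algebra.FiniteType.of_surjective (Ideal.Quotient.mkₐ k (RingHom.ker φ))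
      (Ideal.Quotient.mkₐ_surjective k _)
  haveI : IsNoetherianRing (A ⧸ RingHom.ker φ) := Algebra.FiniteType.isNoetherianRing k _
  letI : Algebra (A ⧸ RingHom.ker φ) K := (Ideal.kerLiftAlg φ).toRingHom.toAlgebra
  haveI : IsScalarTower k (A ⧸ RingHom.ker φ) K :=
    IsScalarTower.of_algebraMap_eq fun c => ((Ideal.kerLiftAlg φ).commutes c).symm
  haveI : FaithfulSMul (A ⧸ RingHom.ker φ) K :=
    (faithfulSMul_iff_algebraMap_injective _ _).2 (Ideal.kerLiftAlg_injective φ)
  haveI : IsFractionRing (A ⧸ RingHom.ker φ) K := IsFractionRing.of_field _ _ (by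
    intro z
    obtain ⟨a, b, rfl⟩ := h z
    exact ⟨Ideal.Quotient.mk _ a, Ideal.Quotient.mk _ b, rfl⟩)
  obtain ⟨s, hs⟩ := exists_hasDim k (A ⧸ RingHom.ker φ)
  exact ⟨s, hs.trdeg_frac K, hs.ringKrullDim⟩

/-- A strictly larger prime ideal has a smaller quotient. -/
theorem XP_dim_lt {A : Type} [CommRing A] {I J : Ideal A} [I.IsPrime] (h : I < J) :
    ringKrullDim (A ⧸ J) + 1 ≤ ringKrullDim (A ⧸ I) := by
  obtain ⟨r, hr, hrI⟩ := Set.exists_of_ssubset h
  have h0 : (Ideal.Quotient.mk I r) ∈ nonZeroDivisors (A ⧸ I) := by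
    rw [mem_nonZeroDivisors_iff_ne_zero]
    intro h1
    exact hrI (Ideal.Quotient.eq_zero_iff_mem.1 h1)
  refine le_trans ?_ (ringKrullDim_quotient_succ_le_of_nonZeroDivisor h0)
  refine add_le_add_left ?_ 1
  let f : ((A ⧸ I) ⧸ Ideal.span {Ideal.Quotient.mk I r}) →+* (A ⧸ J) :=
    Ideal.Quotient.lift _ (Ideal.Quotient.factor h.le) (by
      intro a ha
      obtain ⟨b, rfl⟩ := Ideal.mem_span_singleton'.1 ha
      rw [map_mul, Ideal.Quotient.factor_mk, Ideal.Quotient.eq_zero_iff_mem.2 hr, mul_zero])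
  refine ringKrullDim_le_of_surjective f ?_
  intro y
  obtain ⟨a, rfl⟩ := Ideal.Quotient.mk_surjective y
  exact ⟨Ideal.Quotient.mk _ (Ideal.Quotient.mk _ a), rfl⟩

end dim

section points

variable {F : Type} [Field F]

/-- The point of `Spec A` under the point `S`. -/
noncomputable def XP_ker {A : Subring F} {S : LocalSubring F} (h : A ≤ S.toSubring) : Ideal A :=
  RingHom.ker ((residue S.toSubring).comp (Subring.inclusion h))

instance {A : Subring F} {S : LocalSubring F} (h : A ≤ S.toSubring) : (XP_ker h).IsPrime :=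
  RingHom.ker_isPrime _

theorem XP_mem_ker {A : Subring F} {S : LocalSubring F} (h : A ≤ S.toSubring) (a : A) :
    a ∈ XP_ker h ↔ ¬ IsUnit (⟨a, h a.2⟩ : S.toSubring) := by
  unfold XP_ker
  rw [RingHom.mem_ker, RingHom.comp_apply, residue_eq_zero_iff, mem_maximalIdeal, mem_nonunits_iff]
  rfl

theorem XP_ker_ofPrime (A : Subring F) (P : Ideal A) [P.IsPrime] :
    XP_ker (LocalSubring.le_ofPrime A P) = P := by
  ext a
  rw [XP_mem_ker, XP_unit, not_not]

variable {k : Type} [Field k] [Algebra k F] {n : ℕ} {x : Fin (n + 1) → F}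

theorem XP_const {S : LocalSubring F} {i : Fin (n + 1)}
    (hi : (cht k x i).toSubring ≤ S.toSubring) (c : k) : algebraMap k F c ∈ S.toSubring :=
  hi ((cht k x i).algebraMap_mem c)

/-- The field of functions on `S` is a `k`-algebra. -/
noncomputable abbrev XP_alg {S : LocalSubring F} (h : ∀ c : k, algebraMap k F c ∈ S.toSubring) :
    Algebra k (Kap S) :=
  ((residue S.toSubring).comp ((algebraMap k F).codRestrict S.toSubring h)).toAlgebra

theorem XP_fg (i : Fin (n + 1)) : (cht k x i).FG :=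
  ⟨(Set.finite_range fun j => x j / x i).toFinset, by rw [Set.Finite.coe_toFinset]; rfl⟩

theorem XP_noeth (i : Fin (n + 1)) : IsNoetherianRing (cht k x i).toSubring := by
  haveI : Algebra.FiniteType k (cht k x i) := (Subalgebra.fg_iff_finiteType _).1 (XP_fg i)
  exact Algebra.FiniteType.isNoetherianRing k (cht k x i)

/-- The residue class of a fraction. -/
theorem XP_residue_div {S : LocalSubring F} {a b : F} (ha : a ∈ S.toSubring)
    (hb : b ∈ S.toSubring) (hu : IsUnit (⟨b, hb⟩ : S.toSubring)) (h : a / b ∈ S.toSubring) :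
    residue S.toSubring ⟨a / b, h⟩ = residue S.toSubring ⟨a, ha⟩ / residue S.toSubring ⟨b, hb⟩ := by
  have h0 : residue S.toSubring ⟨b, hb⟩ ≠ 0 := (residue_ne_zero_iff_isUnit _).2 hu
  have hb0 : b ≠ 0 := by
    rintro rfl
    apply h0
    exact map_zero _
  rw [eq_div_iff h0, ← map_mul]
  congr 1
  apply Subtype.ext
  change a / b * b = a
  exact div_mul_cancel₀ a hb0

/-- The value of the residue map of a chart. -/
theorem XP_exists (hne : ∀ i, x i ≠ 0) {e : ℕ} {S : LocalSubring F} (hS : S ∈ Pts k x e)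
    {i : Fin (n + 1)} (hi : (cht k x i).toSubring ≤ S.toSubring)
    (hc : ∀ c : k, algebraMap k F c ∈ S.toSubring) :
    ∃ s : ℕ, @Algebra.trdeg k (Kap S) _ _ (XP_alg hc) = s ∧
      ringKrullDim ((cht k x i).toSubring ⧸ XP_ker hi) = s := by
  letI : Algebra k (Kap S) := XP_alg hc
  let φ : cht k x i →ₐ[k] Kap S :=
    { toRingHom := (residue S.toSubring).comp (Subring.inclusion hi)
      commutes' := fun c => rfl }
  haveI : Algebra.FiniteType k (cht k x i) :=
    (Subalgebra.fg_iff_finiteType _).1 (XP_fg i)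
  obtain ⟨s, h1, h2⟩ := XP_dim_ker φ (by
    intro z
    obtain ⟨⟨y, hy⟩, rfl⟩ := residue_surjective z
    obtain ⟨a, b, ha, hb, hu, rfl⟩ := XP_frac hne hS hi hy
    refine ⟨⟨a, ha⟩, ⟨b, hb⟩, ?_⟩
    exact XP_residue_div (hi ha) (hi hb) hu hy)
  exact ⟨s, h1, h2⟩

/-- The dimension of a point in all its charts. -/
theorem XP_chart_dim (hne : ∀ i, x i ≠ 0) {e : ℕ} {S : LocalSubring F} (hS : S ∈ Pts k x e)
    {i : Fin (n + 1)} (hi : (cht k x i).toSubring ≤ S.toSubring) :
    ringKrullDim ((cht k x i).toSubring ⧸ XP_ker hi) = e := by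
  obtain ⟨s, h1, h2⟩ := XP_exists hne hS hi (XP_const hi)
  have hS' := hS
  obtain ⟨j, Q, hQ, hd, hSQ⟩ := hS'
  have hj : (cht k x j).toSubring ≤ S.toSubring := by
    rw [hSQ]
    exact LocalSubring.le_ofPrime _ _
  obtain ⟨t, h3, h4⟩ := XP_exists hne hS hj (XP_const hi)
  have h5 : XP_ker hj = Q := by
    subst hSQ
    exact XP_ker_ofPrime _ _
  rw [h5, hd] at h4
  rw [h1] at h3
  have h6 : s = t := by exact_mod_cast h3
  rw [h2, h6, h4]

/-- Only finitely many curves carry a valuation at which `f` is not a unit. -/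
theorem XP_finite (hne : ∀ i, x i ≠ 0) {S : LocalSubring F} (hS : S ∈ Pts k x 2) {f : Kap S}
    (hf : f ≠ 0) :
    {P | P ∈ Pts k x 1 ∧ ∃ V : ValuationSubring (Kap S), IsDiscreteValuationRing V ∧ Cen P S V ∧
      ord V f ≠ 0}.Finite := by
  classical
  have key : ∀ i : Fin (n + 1), {P : LocalSubring F | ∃ (P' : Ideal (cht k x i).toSubring)
      (_ : P'.IsPrime), ringKrullDim ((cht k x i).toSubring ⧸ P') = 1 ∧
      P = LocalSubring.ofPrime _ P' ∧ ∃ V : ValuationSubring (Kap S),
        IsDiscreteValuationRing V ∧ Cen P S V ∧ ord V f ≠ 0}.Finite := by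
    intro i
    by_cases hi : (cht k x i).toSubring ≤ S.toSubring
    · obtain ⟨⟨y, hy⟩, rfl⟩ := residue_surjective f
      obtain ⟨a, b, ha, hb, hu, rfl⟩ := XP_frac hne hS hi hy
      haveI := XP_noeth (k := k) (x := x) i
      let c : (cht k x i).toSubring := ⟨a, ha⟩ * ⟨b, hb⟩
      have hrb : residue S.toSubring ⟨b, hi hb⟩ ≠ 0 := (residue_ne_zero_iff_isUnit _).2 hu
      have hra : residue S.toSubring ⟨a, hi ha⟩ ≠ 0 := by
        intro h0
        apply hf
        rw [XP_residue_div (hi ha) (hi hb) hu hy, h0, zero_div]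
      have hc : c ∉ XP_ker hi := by
        intro h0
        rcases (inferInstance : (XP_ker hi).IsPrime).mem_or_mem h0 with h1 | h1
        · exact (XP_mem_ker hi _).1 h1 ((residue_ne_zero_iff_isUnit _).1 hra)
        · exact (XP_mem_ker hi _).1 h1 hu
      let G : Ideal (cht k x i).toSubring → LocalSubring F := fun P' =>
        if h : P'.IsPrime then @LocalSubring.ofPrime F _ (cht k x i).toSubring P' h else S
      refine (((XP_ker hi ⊔ Ideal.span {c}).finite_minimalPrimes_of_isNoetherianRing).image G).subset ?_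
      rintro P ⟨P', hP', hd, rfl, V, hV, hcen, hord⟩
      refine ⟨P', ?_, dif_pos hP'⟩
      have hle : XP_ker hi ≤ P' := by
        intro z hz
        by_contra hzP
        have h1 := (XP_unit (cht k x i).toSubring P' z).2 hzP
        have h2 := (hcen.2 z (LocalSubring.le_ofPrime _ _ z.2) (hi z.2)).2.1 h1
        have h3 : residue S.toSubring ⟨z, hi z.2⟩ = 0 := by
          rw [residue_eq_zero_iff, mem_maximalIdeal, mem_nonunits_iff]
          exact (XP_mem_ker hi z).1 hz
        rw [h3, map_zero] at h2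
        exact zero_ne_one h2
      have hcP : c ∈ P' := by
        by_contra hcP
        apply hord
        have hval : ∀ z : (cht k x i).toSubring, z ∉ P' →
            V.valuation (residue S.toSubring ⟨z, hi z.2⟩) = 1 := fun z hz =>
          (hcen.2 z (LocalSubring.le_ofPrime _ _ z.2) (hi z.2)).2.1
            ((XP_unit (cht k x i).toSubring P' z).2 hz)
        have h1 := hval ⟨a, ha⟩ fun h => hcP (Ideal.mul_mem_right _ _ h)
        have h2 := hval ⟨b, hb⟩ fun h => hcP (Ideal.mul_mem_left _ _ h)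
        rw [ord_eq_zero_iff hV hf, XP_residue_div (hi ha) (hi hb) hu hy, map_div₀, h1, h2, div_one]
      refine ⟨⟨hP', sup_le hle ((Ideal.span_singleton_le_iff_mem _).2 hcP)⟩, ?_⟩
      rintro Q ⟨hQ, hQle⟩ hQP
      by_contra hlt
      have h1 : Q < P' := lt_of_le_not_ge hQP hlt
      have h2 : XP_ker hi < Q := by
        refine lt_of_le_not_ge (le_sup_left.trans hQle) fun h => hc (h ?_)
        exact hQle (le_sup_right (a := XP_ker hi) (Ideal.mem_span_singleton_self c))
      have h3 := XP_dim_lt h1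
      have h4 := XP_dim_lt h2
      rw [XP_chart_dim hne hS hi] at h4
      rw [hd] at h3
      have h5 : (1 : WithBot ℕ∞) + 1 + 1 ≤ 2 := (add_le_add_left h3 1).trans h4
      exact absurd h5 (by decide)
    · refine Set.finite_empty.subset ?_
      rintro P ⟨P', hP', _, rfl, V, _, hcen, _⟩
      exact hi ((LocalSubring.le_ofPrime _ _).trans hcen.1)
  refine (Set.finite_iUnion key).subset ?_
  rintro P ⟨⟨i, P', hP', hd, rfl⟩, h⟩
  exact Set.mem_iUnion.2 ⟨i, P', hP', hd, rfl, h⟩

end points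

end Pool.Agent.Lib.MP_b197b4_ntA
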