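import Mathlib
import Pool.Agent.Lib.MP_b197b4_ntA.XPts
import Pool.Agent.Lib.MP_b197b4_ntK.Dual

/-!
# MP_b197b4_nt, project K1-ALL: duality

A finitely supported family of functions on the curves of the variety killed by every form which
kills the boundaries of the symbols on the surfaces has a power which is a product of boundaries.
-/

set_option autoImplicit false
set_option linter.style.haveILetI false

namespace Pool.Agent.Lib.MP_b197b4_ntA

open IsLocalRing Pool.Agent.Lib.MP_b197b4_ntK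

section bd

variable {F : Type} [Field F]

theorem XD_norm_ne_zero {K L : Type} [Field K] [Field L] [Algebra K L] {c : L} (hc : c ≠ 0) :
    Algebra.norm K c ≠ 0 := by
  intro h
  have h1 : Algebra.norm K c * Algebra.norm K c⁻¹ = 1 := by
    rw [← map_mul, mul_inv_cancel₀ hc, map_one]
  rw [h, zero_mul] at h1
  exact zero_ne_one h1

theorem XD_nrm_one (P S : LocalSubring F) (V : ValuationSubring (Kap S)) : nrm P S V 1 = 1 := by
  unfold nrm
  split_ifs with h
  · exact map_one _
  · rfl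

theorem XD_nrm_mul (P S : LocalSubring F) (V : ValuationSubring (Kap S)) (a b : ResidueField V) :
    nrm P S V (a * b) = nrm P S V a * nrm P S V b := by
  unfold nrm
  split_ifs with h
  · exact map_mul _ _ _
  · exact (one_mul _).symm

theorem XD_nrm_ne_zero (P S : LocalSubring F) (V : ValuationSubring (Kap S)) {c : ResidueField V}
    (hc : c ≠ 0) : nrm P S V c ≠ 0 := by
  intro h
  have h1 : nrm P S V c * nrm P S V c⁻¹ = 1 := by
    rw [← XD_nrm_mul, mul_inv_cancel₀ hc, XD_nrm_one]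
  rw [h, zero_mul] at h1
  exact zero_ne_one h1

theorem XD_nrm_inv (P S : LocalSubring F) (V : ValuationSubring (Kap S)) {c : ResidueField V}
    (hc : c ≠ 0) : nrm P S V c⁻¹ = (nrm P S V c)⁻¹ := by
  refine eq_inv_of_mul_eq_one_right ?_
  rw [← XD_nrm_mul, mul_inv_cancel₀ hc, XD_nrm_one]

theorem XD_bd_ne_zero (q : Σ S : LocalSubring F, Kap S × Kap S) (h1 : q.2.1 ≠ 0) (h2 : q.2.2 ≠ 0)
    (P : LocalSubring F) : bd q P ≠ 0 := by
  unfold bd
  refine finprod_induction (p := fun z : Kap P => z ≠ 0) one_ne_zero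
    (fun a b ha hb => mul_ne_zero ha hb) fun V => ?_
  refine finprod_induction (p := fun z : Kap P => z ≠ 0) one_ne_zero
    (fun a b ha hb => mul_ne_zero ha hb) fun hV => ?_
  exact XD_nrm_ne_zero _ _ _ (tame_ne_zero hV.1 h1 h2)

theorem XD_bd_swap (q : Σ S : LocalSubring F, Kap S × Kap S) (h1 : q.2.1 ≠ 0) (h2 : q.2.2 ≠ 0)
    (P : LocalSubring F) : bd ⟨q.1, q.2.swap⟩ P = (bd q P)⁻¹ := by
  unfold bd
  rw [← finprod_inv_distrib]
  refine finprod_congr fun V => ?_
  rw [← finprod_inv_distrib]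
  refine finprod_congr fun hV => ?_
  change nrm P q.1 V (tame V q.2.2 q.2.1) = _
  rw [tame_swap hV.1 h1 h2, XD_nrm_inv _ _ _ (tame_ne_zero hV.1 h1 h2)]

theorem XD_bd_ne_one {q : Σ S : LocalSubring F, Kap S × Kap S} {P : LocalSubring F}
    (h : bd q P ≠ 1) : ∃ V : ValuationSubring (Kap q.1), IsDiscreteValuationRing V ∧
      Cen P q.1 V ∧ (ord V q.2.1 ≠ 0 ∨ ord V q.2.2 ≠ 0) := by
  by_contra hc
  push Not at hc
  apply h
  unfold bd
  rw [← finprod_one (α := ValuationSubring (Kap q.1))]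
  refine finprod_congr fun V => ?_
  rw [← finprod_one (α := IsDiscreteValuationRing V ∧ Cen P q.1 V)]
  refine finprod_congr fun hV => ?_
  have h3 := hc V hV.1 hV.2
  rw [tame_eq_one h3.1 h3.2, XD_nrm_one]

end bd

section grp

variable {F : Type} [Field F] {D : Set (LocalSubring F)}

/-- The group of finitely supported families. -/
abbrev XGrp (D : Set (LocalSubring F)) : Type :=
  Π₀ P : D, Additive (Kap (P : LocalSubring F))ˣ

/-- The value of a family. -/
noncomputable def XGrp.val (y : XGrp D) (P : D) : Kap (P : LocalSubring F) :=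
  ((Additive.toMul (y P) : (Kap (P : LocalSubring F))ˣ) : _)

theorem XGrp.val_add (y z : XGrp D) (P : D) : (y + z).val P = y.val P * z.val P := by
  unfold XGrp.val
  rw [DFinsupp.add_apply, toMul_add, Units.val_mul]

theorem XGrp.val_zero (P : D) : (0 : XGrp D).val P = 1 := by
  unfold XGrp.val
  rw [DFinsupp.zero_apply, toMul_zero, Units.val_one]

theorem XGrp.val_neg (y : XGrp D) (P : D) : (-y).val P = (y.val P)⁻¹ := by
  unfold XGrp.val
  rw [DFinsupp.neg_apply, toMul_neg, Units.val_inv_eq_inv_val]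

theorem XGrp.val_nsmul (y : XGrp D) (n : ℕ) (P : D) : (n • y).val P = (y.val P) ^ n := by
  unfold XGrp.val
  rw [DFinsupp.smul_apply, toMul_nsmul, Units.val_pow_eq_pow_val]

theorem XGrp.val_ne (y : XGrp D) (P : D) : y.val P ≠ 0 := Units.ne_zero _

/-- Every family of nonzero elements which is `1` outside a finite set is a `XGrp`. -/
theorem XGrp.exists_of (b : ∀ P : LocalSubring F, Kap P) (hb : ∀ P ∈ D, b P ≠ 0)
    (hfin : {P | P ∈ D ∧ b P ≠ 1}.Finite) : ∃ y : XGrp D, ∀ P : D, y.val P = b P := by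
  classical
  have hfin2 : {P : D | b P ≠ 1}.Finite := by
    apply Set.Finite.of_finite_image (f := Subtype.val)
    · refine hfin.subset ?_
      rintro _ ⟨P, hP, rfl⟩
      exact ⟨P.2, hP⟩
    · exact Subtype.val_injective.injOn
  refine ⟨DFinsupp.mk hfin2.toFinset
    (fun P => Additive.ofMul (Units.mk0 (b P) (hb _ (P : D).2))), ?_⟩
  intro P
  unfold XGrp.val
  rw [DFinsupp.mk_apply]
  split_ifs with h
  · rfl
  · have : b P = 1 := by
      by_contra h2
      exact h (hfin2.mem_toFinset.2 h2)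
    rw [this, toMul_zero, Units.val_one]

/-- The form attached to a homomorphism. -/
noncomputable def XformOf (φ : XGrp D →+ ℚ) (P : LocalSubring F) (c : Kap P) : ℚ :=
  open Classical in
  if h : P ∈ D ∧ c ≠ 0 then
    φ (DFinsupp.single (⟨P, h.1⟩ : D) (Additive.ofMul (Units.mk0 c h.2))) else 0

theorem XformOf_sum (φ : XGrp D →+ ℚ) (y : XGrp D) (b : ∀ P : LocalSubring F, Kap P)
    (hb : ∀ P : D, y.val P = b P) :
    ∑ᶠ (P) (_ : P ∈ D), XformOf φ P (b P) = φ y := by
  classical
  rw [← finsum_set_coe_eq_finsum_mem]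
  have h1 : ∀ P : D, XformOf φ P (b P) = φ (DFinsupp.single P (y P)) := by
    intro P
    have hne : b P ≠ 0 := by rw [← hb]; exact XGrp.val_ne y P
    unfold XformOf
    rw [dif_pos ⟨P.2, hne⟩]
    congr 2
    have : Units.mk0 (b P) hne = Additive.toMul (y P) := by
      apply Units.ext
      rw [Units.val_mk0, ← hb]
      rfl
    rw [this]
    rfl
  rw [finsum_congr h1, finsum_eq_sum_of_support_subset (s := y.support)]
  · rw [← map_sum]
    congr 1
    exact DFinsupp.sum_single
  · intro P hP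
    rw [Function.mem_support] at hP
    rw [Finset.mem_coe, DFinsupp.mem_support_iff]
    intro h0
    rw [h0, DFinsupp.single_zero, map_zero] at hP
    exact hP rfl

end grp

section dual

variable {k : Type} {F : Type} [Field k] [Field F] [Algebra k F] {n : ℕ} {d : ℕ}

/-- Boundaries have finite support. -/
theorem XD_bd_finite {x : Fin (n + 1) → F} (hne : ∀ i, x i ≠ 0)
    (q : Σ S : LocalSubring F, Kap S × Kap S) (hS : q.1 ∈ Pts k x 2) (h1 : q.2.1 ≠ 0)
    (h2 : q.2.2 ≠ 0) : {P | P ∈ Pts k x 1 ∧ bd q P ≠ 1}.Finite := by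
  refine ((XP_finite hne hS h1).union (XP_finite hne hS h2)).subset ?_
  rintro P ⟨hP, hb⟩
  obtain ⟨V, hV, hcen, h | h⟩ := XD_bd_ne_one hb
  · exact Or.inl ⟨hP, V, hV, hcen, h⟩
  · exact Or.inr ⟨hP, V, hV, hcen, h⟩

/-- **XC: duality.** -/
theorem dualX {x : Fin (n + 1) → F} (hx : Var k d x) (a : ∀ P : LocalSubring F, Kap P)
    (ha : CycX k x a)
    (h : ∀ l : ∀ P : LocalSubring F, Kap P → ℚ, FormsX k x l →
      ∑ᶠ (P : LocalSubring F) (_ : P ∈ Pts k x 1), l P (a P) = 0) :
    ∃ N : ℕ, 0 < N ∧ ∃ s : List (Σ S : LocalSubring F, Kap S × Kap S),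
      (∀ q ∈ s, q.1 ∈ Pts k x 2 ∧ q.2.1 ≠ 0 ∧ q.2.2 ≠ 0) ∧
      ∀ P ∈ Pts k x 1, a P ^ N = (s.map fun q => bd q P).prod := by
  classical
  have hbd : ∀ q : Σ S : LocalSubring F, Kap S × Kap S, q.1 ∈ Pts k x 2 → q.2.1 ≠ 0 →
      q.2.2 ≠ 0 → ∃ y : XGrp (Pts k x 1), ∀ P : Pts k x 1, y.val P = bd q P := by
    intro q hS h1 h2
    exact XGrp.exists_of (fun P => bd q P) (fun P _ => XD_bd_ne_zero q h1 h2 P)
      (XD_bd_finite hx.ne q hS h1 h2)
  obtain ⟨z, hz⟩ := XGrp.exists_of (D := Pts k x 1) a ha.ne ha.finite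
  let T : AddSubgroup (XGrp (Pts k x 1)) := AddSubgroup.closure
    {y | ∃ q : Σ S : LocalSubring F, Kap S × Kap S, q.1 ∈ Pts k x 2 ∧ q.2.1 ≠ 0 ∧ q.2.2 ≠ 0 ∧
      ∀ P : Pts k x 1, y.val P = bd q P}
  obtain ⟨N, hN, hmem⟩ := exists_nsmul_mem T z (by
    intro φ hφ
    rw [← XformOf_sum φ z a hz]
    apply h
    constructor
    · intro P hP c e hc he
      unfold XformOf
      rw [dif_pos ⟨hP, mul_ne_zero hc he⟩, dif_pos ⟨hP, hc⟩, dif_pos ⟨hP, he⟩, ← map_add,
        ← DFinsupp.single_add]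
      congr 2
      rw [← ofMul_mul]
      congr 1
      apply Units.ext
      simp
    · intro q hS h1 h2
      obtain ⟨y, hy⟩ := hbd q hS h1 h2
      rw [XformOf_sum φ y (fun P => bd q P) hy]
      exact hφ y (AddSubgroup.subset_closure ⟨q, hS, h1, h2, hy⟩))
  refine ⟨N, hN, ?_⟩
  have key : ∀ y ∈ T, ∃ s : List (Σ S : LocalSubring F, Kap S × Kap S),
      (∀ q ∈ s, q.1 ∈ Pts k x 2 ∧ q.2.1 ≠ 0 ∧ q.2.2 ≠ 0) ∧
      ∀ P : Pts k x 1, y.val P = (s.map fun q => bd q P).prod := by
    intro y hy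
    induction hy using AddSubgroup.closure_induction with
    | mem y hy =>
      obtain ⟨q, hS, h1, h2, h3⟩ := hy
      refine ⟨[q], ?_, ?_⟩
      · intro r hr
        rw [List.mem_singleton] at hr
        subst hr
        exact ⟨hS, h1, h2⟩
      · intro P
        rw [h3]
        simp
    | zero => exact ⟨[], by simp, fun P => by simp [XGrp.val_zero]⟩
    | add y z _ _ hy hz =>
      obtain ⟨s, hs, hs2⟩ := hy
      obtain ⟨t, ht, ht2⟩ := hz
      refine ⟨s ++ t, ?_, ?_⟩
      · intro q hq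
        rcases List.mem_append.1 hq with h1 | h1
        · exact hs q h1
        · exact ht q h1
      · intro P
        rw [XGrp.val_add, hs2, ht2, List.map_append, List.prod_append]
    | neg y _ hy =>
      obtain ⟨s, hs, hs2⟩ := hy
      refine ⟨s.map fun q => ⟨q.1, q.2.swap⟩, ?_, ?_⟩
      · intro q hq
        obtain ⟨r, hr, rfl⟩ := List.mem_map.1 hq
        exact ⟨(hs r hr).1, (hs r hr).2.2, (hs r hr).2.1⟩
      · intro P
        rw [XGrp.val_neg, hs2, List.map_map]
        clear hs2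
        induction s with
        | nil => simp
        | cons q u ih =>
          have hq := hs q (List.mem_cons_self ..)
          rw [List.map_cons, List.prod_cons, mul_inv,
            ih (fun r hr => hs r (List.mem_cons_of_mem _ hr)), List.map_cons, List.prod_cons,
            Function.comp_apply, XD_bd_swap q hq.2.1 hq.2.2]
  obtain ⟨s, hs, hs2⟩ := key _ hmem
  refine ⟨s, hs, ?_⟩
  intro P hP
  have h5 := hs2 ⟨P, hP⟩
  rw [XGrp.val_nsmul, hz] at h5
  exact h5

end dual

end Pool.Agent.Lib.MP_b197b4_ntA
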