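import Mathlib
import Pool.Agent.Lib.MP_b197b4_ntA.Cur1
import Pool.Agent.Lib.MP_b197b4_ntA.Cur2
import Pool.Agent.Lib.MP_b197b4_ntA.Cur3

/-!
# MP_b197b4_nt, project K1-ALL: lengths and orders on curves

The order by lengths of a function `u` with respect to a one dimensional domain `B` is the sum of
the orders of `u` at the places which contain `B`.
-/

set_option autoImplicit false

namespace Pool.Agent.Lib.MP_b197b4_ntA

open IsLocalRing Pool.Agent.Lib.MP_b197b4_ntK

/-! ## Lengths of subquotients -/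

section LO_length

variable {K : Type} [Field K] {B : Subring K}

/-- the length of `Q / P` -/
noncomputable def LO_L (P Q : Submodule B K) : ℕ∞ := Module.length B (Q ⧸ P.submoduleOf Q)

theorem LO_self (P : Submodule B K) : LO_L P P = 0 := by
  unfold LO_L
  rw [Module.length_eq_zero_iff, Submodule.Quotient.subsingleton_iff]
  exact Submodule.submoduleOf_self P

theorem LO_add {P Q R : Submodule B K} (h1 : P ≤ Q) (h2 : Q ≤ R) :
    LO_L P R = LO_L P Q + LO_L Q R := by
  unfold LO_L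
  have h3 : P.submoduleOf R ≤ Q.submoduleOf R := fun y hy => h1 hy
  have h4 : P.submoduleOf Q ≤ (P.submoduleOf R).comap (Submodule.inclusion h2) := fun y hy => hy
  refine Module.length_eq_add_of_exact
    (Submodule.mapQ (P.submoduleOf Q) (P.submoduleOf R) (Submodule.inclusion h2) h4)
    (Submodule.factor h3) ?_ (Submodule.factor_surjective h3) ?_
  · rw [← LinearMap.ker_eq_bot]
    refine Submodule.ker_liftQ_eq_bot' _ _ ?_
    ext y
    rw [LinearMap.mem_ker, LinearMap.comp_apply, Submodule.mkQ_apply,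
      Submodule.Quotient.mk_eq_zero]
    exact Iff.rfl
  · intro z
    obtain ⟨z, rfl⟩ := Submodule.Quotient.mk_surjective _ z
    constructor
    · intro hz
      have hz' : z ∈ Q.submoduleOf R := by
        change (Submodule.Quotient.mk z : R ⧸ Q.submoduleOf R) = 0 at hz
        rwa [Submodule.Quotient.mk_eq_zero] at hz
      exact ⟨Submodule.Quotient.mk ⟨(z : K), hz'⟩, rfl⟩
    · rintro ⟨y, hy⟩
      obtain ⟨y, rfl⟩ := Submodule.Quotient.mk_surjective _ y
      rw [← hy]
      change (Submodule.Quotient.mk (Submodule.inclusion h2 y) : R ⧸ Q.submoduleOf R) = 0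
      rw [Submodule.Quotient.mk_eq_zero]
      exact y.2

/-- multiplication by `a` -/
noncomputable def LO_mul (a : K) (ha : a ≠ 0) : K ≃ₗ[B] K :=
  (LinearEquiv.smulOfNeZero K K a ha).restrictScalars B

theorem LO_mul_apply (a : K) (ha : a ≠ 0) (y : K) : LO_mul (B := B) a ha y = a * y := rfl

/-- the submodule `a P` -/
noncomputable def LO_sm (a : K) (ha : a ≠ 0) (P : Submodule B K) : Submodule B K :=
  P.map (LO_mul (B := B) a ha).toLinearMap

theorem LO_mem_sm (a : K) (ha : a ≠ 0) (P : Submodule B K) (y : K) :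
    y ∈ LO_sm a ha P ↔ a⁻¹ * y ∈ P := by
  constructor
  · rintro ⟨z, hz, rfl⟩
    change a⁻¹ * (a * z) ∈ P
    rwa [inv_mul_cancel_left₀ ha]
  · intro h
    exact ⟨_, h, by change a * (a⁻¹ * y) = y; rw [mul_inv_cancel_left₀ ha]⟩

theorem LO_smul (a : K) (ha : a ≠ 0) (P Q : Submodule B K) :
    LO_L (LO_sm a ha P) (LO_sm a ha Q) = LO_L P Q := by
  unfold LO_L
  refine ((Submodule.Quotient.equiv (P.submoduleOf Q) ((LO_sm a ha P).submoduleOf (LO_sm a ha Q))
    ((LO_mul (B := B) a ha).submoduleMap Q) ?_).length_eq).symm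
  ext y
  constructor
  · rintro ⟨z, hz, rfl⟩
    exact ⟨_, hz, rfl⟩
  · rintro ⟨z, hz, hzy⟩
    obtain ⟨w, hw, hwy⟩ := y.2
    have h1 : z = w := (LO_mul (B := B) a ha).injective (hzy.trans hwy.symm)
    subst h1
    exact ⟨⟨z, hw⟩, hz, Subtype.ext hwy⟩

end LO_length

/-! ## The ring of the elements which are in all valuation rings of a finite set -/

section LO_semi

variable {K : Type} [Field K] {B : Subring K}

/-- the ring `B` as a submodule -/
def LO_B (B : Subring K) : Submodule B K where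
  carrier := {y | y ∈ B}
  add_mem' := B.add_mem
  zero_mem' := B.zero_mem
  smul_mem' b _ hy := B.mul_mem b.2 hy

/-- the intersection of the valuation rings in `S` -/
def LO_D (S : Finset (ValuationSubring K)) (hB : ∀ W ∈ S, ∀ b ∈ B, b ∈ W) : Submodule B K where
  carrier := {y | ∀ W ∈ S, y ∈ W}
  add_mem' h1 h2 W hW := add_mem (h1 W hW) (h2 W hW)
  zero_mem' W _ := W.zero_mem
  smul_mem' b _ h W hW := mul_mem (hB W hW b b.2) (h W hW)

variable {S : Finset (ValuationSubring K)} {hB : ∀ W ∈ S, ∀ b ∈ B, b ∈ W}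

theorem LO_mem_D (y : K) : y ∈ LO_D S hB ↔ ∀ W ∈ S, y ∈ W := Iff.rfl

theorem LO_mem_B (y : K) : y ∈ LO_B B ↔ y ∈ B := Iff.rfl

theorem LO_mem_smD (hS : ∀ W ∈ S, IsDiscreteValuationRing W) {a : K} (ha : a ≠ 0) {y : K}
    (hy : y ≠ 0) : y ∈ LO_sm a ha (LO_D S hB) ↔ ∀ W ∈ S, ord W a ≤ ord W y := by
  rw [LO_mem_sm, LO_mem_D]
  refine forall₂_congr fun W hW => ?_
  rw [← ord_nonneg_iff (hS W hW) (mul_ne_zero (inv_ne_zero ha) hy),
    ord_mul (hS W hW) (inv_ne_zero ha) hy, ord_inv (hS W hW) ha]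
  omega

/-- A uniformizer of `W` which is a unit at the other valuation rings. -/
theorem LO_unif (hS : ∀ W ∈ S, IsDiscreteValuationRing W) {W : ValuationSubring K} (hW : W ∈ S) :
    ∃ q : K, q ≠ 0 ∧ ord W q = 1 ∧ ∀ W' ∈ S, W' ≠ W → ord W' q = 0 := by
  classical
  obtain ⟨p, hp0, hp⟩ := Cur2_unif (hS W hW)
  obtain ⟨a, ha0, ha1, ha2⟩ := Cur2_approx (hS W hW) (S.erase W) fun W' hW' =>
    ⟨hS W' (Finset.mem_of_mem_erase hW'), Finset.ne_of_mem_erase hW'⟩
  -- a large exponent
  obtain ⟨M, hM2, hM⟩ : ∃ M : ℕ, 2 ≤ M ∧ ∀ W' ∈ S.erase W, -ord W' p < M := by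
    refine ⟨(S.erase W).sup (fun W' => (-ord W' p).toNat) + 2, by omega, fun W' hW' => ?_⟩
    have h1 := Finset.le_sup (f := fun W' => (-ord W' p).toNat) hW'
    have h2 : (-ord W' p).toNat ≤ (S.erase W).sup (fun W' => (-ord W' p).toNat) := h1
    have h3 : -ord W' p ≤ ((-ord W' p).toNat : ℤ) := Int.self_le_toNat _
    push_cast
    omega
  have haM : a ^ M ≠ 0 := pow_ne_zero _ ha0
  have e1 : p + a ^ M = p * (1 + a ^ M / p) := by field_simp
  have e2 : p + a ^ M = a ^ M * (1 + p / a ^ M) := by field_simp; ring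
  have hord : ∀ W' ∈ S, ord W' (a ^ M) = M * ord W' a := fun W' hW' => ord_pow (hS W' hW') ha0 M
  -- at `W`
  have h1 : 0 < ord W (a ^ M / p) := by
    rw [ord_div (hS W hW) haM hp0, hord W hW, hp]
    have : (2 : ℤ) ≤ M := by exact_mod_cast hM2
    nlinarith
  have h2 := Cur2_one_add (hS W hW) (div_ne_zero haM hp0) h1
  have h3 : 0 < ord W (a ^ M) := by
    rw [hord W hW]
    have : (2 : ℤ) ≤ M := by exact_mod_cast hM2
    nlinarith
  have h4 := Cur2_one_add (hS W hW) haM h3
  have h5 : p + a ^ M ≠ 0 := by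
    rw [e1]
    exact mul_ne_zero hp0 h2.1
  refine ⟨(p + a ^ M) / (1 + a ^ M), div_ne_zero h5 h4.1, ?_, fun W' hW' hne => ?_⟩
  · rw [ord_div (hS W hW) h5 h4.1, h4.2, e1, ord_mul (hS W hW) hp0 h2.1, h2.2, hp]
    ring
  · have hW'e : W' ∈ S.erase W := Finset.mem_erase.2 ⟨hne, hW'⟩
    have h6 := hM W' hW'e
    have h7 := ha2 W' hW'e
    have h8 : ord W' (a ^ M) < 0 := by
      rw [hord W' hW']
      have : (2 : ℤ) ≤ M := by exact_mod_cast hM2
      nlinarith
    have h9 : 0 < ord W' (p / a ^ M) := by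
      rw [ord_div (hS W' hW') hp0 haM, hord W' hW']
      have : (2 : ℤ) ≤ M := by exact_mod_cast hM2
      nlinarith
    have h10 := Cur2_one_add (hS W' hW') (div_ne_zero hp0 haM) h9
    have h11 := Cur2_one_add' (hS W' hW') haM h8
    rw [ord_div (hS W' hW') h5 h4.1, h11.2, e2, ord_mul (hS W' hW') haM h10.1, h10.2]
    ring

/-- `D / q D` is simple. -/
theorem LO_one (hS : ∀ W ∈ S, IsDiscreteValuationRing W) {W : ValuationSubring K} (hW : W ∈ S)
    (hres : ∀ y ∈ W, ∃ b ∈ B, W.valuation (y - b) < 1) {q : K} (hq0 : q ≠ 0) (hq : ord W q = 1)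
    (hq' : ∀ W' ∈ S, W' ≠ W → ord W' q = 0) :
    LO_L (LO_sm q hq0 (LO_D S hB)) (LO_D S hB) = 1 := by
  unfold LO_L
  rw [Module.length_eq_one_iff, isSimpleModule_iff_toSpanSingleton_surjective]
  constructor
  · rw [Submodule.Quotient.nontrivial_iff]
    intro htop
    have h1 : (⟨1, fun W' _ => one_mem W'⟩ : LO_D S hB) ∈
        (LO_sm q hq0 (LO_D S hB)).submoduleOf (LO_D S hB) := by
      rw [htop]
      trivial
    have h2 : (1 : K) ∈ LO_sm q hq0 (LO_D S hB) := h1
    have h3 := (LO_mem_smD hS hq0 one_ne_zero).1 h2 W hW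
    rw [hq, ord_one W (hS W hW)] at h3
    omega
  · intro z hz y
    obtain ⟨z, rfl⟩ := Submodule.Quotient.mk_surjective _ z
    obtain ⟨y, rfl⟩ := Submodule.Quotient.mk_surjective _ y
    have hz' : (z : K) ∉ LO_sm q hq0 (LO_D S hB) := by
      intro h
      exact hz ((Submodule.Quotient.mk_eq_zero _).2 h)
    have hz0 : (z : K) ≠ 0 := by
      intro h
      apply hz'
      rw [h]
      exact zero_mem _
    have hzn : ∀ W' ∈ S, 0 ≤ ord W' (z : K) := fun W' hW' =>
      (ord_nonneg_iff (hS W' hW') hz0).2 (z.2 W' hW')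
    have hzW : ord W (z : K) = 0 := by
      by_contra hne
      apply hz'
      refine (LO_mem_smD hS hq0 hz0).2 fun W' hW' => ?_
      by_cases h : W' = W
      · subst h
        rw [hq]
        have := hzn W' hW'
        omega
      · rw [hq' W' hW' h]
        exact hzn W' hW'
    have hyz : (y : K) / z ∈ W := by
      by_cases hy0 : (y : K) = 0
      · rw [hy0, zero_div]
        exact W.zero_mem
      · refine (ord_nonneg_iff (hS W hW) (div_ne_zero hy0 hz0)).1 ?_
        rw [ord_div (hS W hW) hy0 hz0, hzW, sub_zero]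
        exact (ord_nonneg_iff (hS W hW) hy0).2 (y.2 W hW)
    obtain ⟨b, hb, hlt⟩ := hres _ hyz
    refine ⟨⟨b, hb⟩, ?_⟩
    rw [LinearMap.toSpanSingleton_apply]
    refine ((Submodule.Quotient.eq _).2 ?_).symm
    change (y : K) - b * z ∈ LO_sm q hq0 (LO_D S hB)
    by_cases h0 : (y : K) - b * z = 0
    · rw [h0]
      exact zero_mem _
    refine (LO_mem_smD hS hq0 h0).2 fun W' hW' => ?_
    have hmem : (y : K) - b * z ∈ W' :=
      sub_mem (y.2 W' hW') (mul_mem (hB W' hW' b hb) (z.2 W' hW'))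
    by_cases h : W' = W
    · subst h
      rw [hq]
      have e3 : (y : K) - b * z = ((y : K) / z - b) * z := by field_simp
      have h4 : (y : K) / z - b ≠ 0 := by
        intro h
        rw [e3, h, zero_mul] at h0
        exact h0 rfl
      rw [e3, ord_mul (hS W' hW') h4 hz0, hzW, add_zero]
      exact (ord_pos_iff (hS W' hW') h4).2 hlt
    · rw [hq' W' hW' h]
      exact (ord_nonneg_iff (hS W' hW') h0).2 hmem

theorem LO_sm_sm (a b : K) (ha : a ≠ 0) (hb : b ≠ 0) (P : Submodule B K) :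
    LO_sm (a * b) (mul_ne_zero ha hb) P = LO_sm a ha (LO_sm b hb P) := by
  ext y
  rw [LO_mem_sm, LO_mem_sm, LO_mem_sm, mul_inv, mul_comm a⁻¹ b⁻¹, mul_assoc]

theorem LO_sm_le (hS : ∀ W ∈ S, IsDiscreteValuationRing W) {a : K} (ha : a ≠ 0)
    (h : ∀ W ∈ S, 0 ≤ ord W a) : LO_sm a ha (LO_D S hB) ≤ LO_D S hB := by
  rintro _ ⟨y, hy, rfl⟩ W hW
  exact mul_mem ((ord_nonneg_iff (hS W hW) ha).1 (h W hW)) (hy W hW)

/-- The length of `D / y D`. -/
theorem LO_lenD (hS : ∀ W ∈ S, IsDiscreteValuationRing W)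
    (hres : ∀ W ∈ S, ∀ y ∈ W, ∃ b ∈ B, W.valuation (y - b) < 1) :
    ∀ (N : ℕ) (y : K) (hy : y ≠ 0), (∀ W ∈ S, 0 ≤ ord W y) → ∑ W ∈ S, ord W y = N →
      LO_L (LO_sm y hy (LO_D S hB)) (LO_D S hB) = N := by
  classical
  intro N
  induction N with
  | zero =>
    intro y hy h1 h2
    have h3 : ∀ W ∈ S, ord W y = 0 := (Finset.sum_eq_zero_iff_of_nonneg h1).1 h2
    have h4 : LO_sm y hy (LO_D S hB) = LO_D S hB := by
      refine le_antisymm (LO_sm_le hS hy h1) fun z hz => ?_
      by_cases hz0 : z = 0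
      · rw [hz0]
        exact zero_mem _
      refine (LO_mem_smD hS hy hz0).2 fun W hW => ?_
      rw [h3 W hW]
      exact (ord_nonneg_iff (hS W hW) hz0).2 (hz W hW)
    rw [h4, LO_self]
    rfl
  | succ N ih =>
    intro y hy h1 h2
    obtain ⟨W, hW, hpos⟩ : ∃ W ∈ S, 0 < ord W y := by
      by_contra hcon
      push Not at hcon
      have h3 : ∑ W ∈ S, ord W y ≤ 0 := Finset.sum_nonpos hcon
      rw [h2] at h3
      push_cast at h3
      omega
    obtain ⟨q, hq0, hq, hq'⟩ := LO_unif hS hW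
    have hy' : y / q ≠ 0 := div_ne_zero hy hq0
    have h3 : ∀ W' ∈ S, ord W' (y / q) = ord W' y - ord W' q := fun W' hW' =>
      ord_div (hS W' hW') hy hq0
    have h4 : ∀ W' ∈ S, 0 ≤ ord W' (y / q) := by
      intro W' hW'
      rw [h3 W' hW']
      by_cases h : W' = W
      · subst h
        omega
      · rw [hq' W' hW' h, sub_zero]
        exact h1 W' hW'
    have h5 : ∑ W' ∈ S, ord W' q = 1 := by
      rw [← hq]
      exact Finset.sum_eq_single_of_mem W hW fun W' hW' h => hq' W' hW' h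
    have h6 : ∑ W' ∈ S, ord W' (y / q) = N := by
      rw [Finset.sum_congr rfl h3, Finset.sum_sub_distrib, h2, h5]
      push_cast
      ring
    have h7 := ih (y / q) hy' h4 h6
    have hqn : ∀ W' ∈ S, 0 ≤ ord W' q := by
      intro W' hW'
      by_cases h : W' = W
      · subst h
        omega
      · rw [hq' W' hW' h]
    have e4 : y = q * (y / q) := by field_simp
    have h8 : LO_sm y hy (LO_D S hB) = LO_sm q hq0 (LO_sm (y / q) hy' (LO_D S hB)) := by
      rw [← LO_sm_sm q (y / q) hq0 hy']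
      congr 1
    have h9 : LO_sm q hq0 (LO_sm (y / q) hy' (LO_D S hB)) ≤ LO_sm q hq0 (LO_D S hB) :=
      Submodule.map_mono (LO_sm_le hS hy' h4)
    rw [h8, LO_add h9 (LO_sm_le hS hq0 hqn), LO_smul, h7, LO_one hS hW (hres W hW) hq0 hq hq']
    push_cast
    rfl

/-- The length of `B / a B`. -/
theorem LO_lenB (a : B) (ha : (a : K) ≠ 0) :
    LO_L (LO_sm (a : K) ha (LO_B B)) (LO_B B) = Module.length B (B ⧸ Ideal.span {a}) := by
  unfold LO_L
  have hinj : Function.Injective (Algebra.linearMap B K) := Subtype.val_injective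
  have hran : LinearMap.range (Algebra.linearMap B K) = LO_B B := by
    ext y
    constructor
    · rintro ⟨b, rfl⟩
      exact b.2
    · intro h
      exact ⟨⟨y, h⟩, rfl⟩
  let e : B ≃ₗ[B] LO_B B := (LinearEquiv.ofInjective _ hinj).trans (LinearEquiv.ofEq _ _ hran)
  have he : ∀ b : B, ((e b : LO_B B) : K) = b := fun b => rfl
  refine ((Submodule.Quotient.equiv (Ideal.span {a})
    ((LO_sm (a : K) ha (LO_B B)).submoduleOf (LO_B B)) e ?_).length_eq).symm
  ext y
  constructor
  · rintro ⟨z, hz, rfl⟩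
    obtain ⟨c, rfl⟩ := Ideal.mem_span_singleton'.1 hz
    exact ⟨(c : K), c.2, by
      change (a : K) * c = ((c * a : B) : K)
      push_cast
      ring⟩
  · rintro ⟨c, hc, hcy⟩
    refine ⟨⟨c, hc⟩ * a, Ideal.mem_span_singleton'.2 ⟨⟨c, hc⟩, rfl⟩, Subtype.ext ?_⟩
    refine Eq.trans ?_ hcy
    change c * (a : K) = (a : K) * c
    ring

theorem LO_lenB_ord (hS : ∀ W ∈ S, IsDiscreteValuationRing W)
    (hB : ∀ W ∈ S, ∀ b ∈ B, b ∈ W)
    (hres : ∀ W ∈ S, ∀ y ∈ W, ∃ b ∈ B, W.valuation (y - b) < 1)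
    (hc : ∃ c : K, c ≠ 0 ∧ ∀ y, (∀ W ∈ S, y ∈ W) → c * y ∈ B) (a : B) (ha : (a : K) ≠ 0) :
    ∃ N : ℕ, Module.length B (B ⧸ Ideal.span {a}) = N ∧ ∑ W ∈ S, ord W (a : K) = N := by
  have han : ∀ W ∈ S, 0 ≤ ord W (a : K) := fun W hW =>
    (ord_nonneg_iff (hS W hW) ha).2 (hB W hW a a.2)
  obtain ⟨N, hN⟩ := Int.eq_ofNat_of_zero_le (Finset.sum_nonneg han)
  refine ⟨N, ?_, hN⟩
  have hBD : LO_B B ≤ LO_D S hB := fun y hy W hW => hB W hW y hy
  -- the length of `D / B` is finite
  obtain ⟨c, hc0, hcD⟩ := hc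
  have hcB : c ∈ B := by
    have := hcD 1 fun W _ => one_mem W
    rwa [mul_one] at this
  have hcn : ∀ W ∈ S, 0 ≤ ord W c := fun W hW =>
    (ord_nonneg_iff (hS W hW) hc0).2 (hB W hW c hcB)
  obtain ⟨M, hM⟩ := Int.eq_ofNat_of_zero_le (Finset.sum_nonneg hcn)
  have h1 := LO_lenD (hB := hB) hS hres M c hc0 hcn hM
  have h2 : LO_sm c hc0 (LO_D S hB) ≤ LO_B B := by
    rintro _ ⟨y, hy, rfl⟩
    exact hcD y hy
  rw [LO_add h2 hBD] at h1
  have hfin : LO_L (LO_B B) (LO_D S hB) ≠ ⊤ := by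
    intro h
    rw [h, add_top] at h1
    exact ENat.top_ne_coe M h1
  -- comparison
  have h3 : LO_sm (a : K) ha (LO_B B) ≤ LO_B B := by
    rintro _ ⟨y, hy, rfl⟩
    exact B.mul_mem a.2 hy
  have h4 : LO_sm (a : K) ha (LO_B B) ≤ LO_sm (a : K) ha (LO_D S hB) := Submodule.map_mono hBD
  have h5 := LO_add h3 hBD
  have h6 := LO_add h4 (LO_sm_le hS ha han)
  rw [LO_smul] at h6
  rw [h5, LO_lenD hS hres N a ha han hN, LO_lenB, add_comm] at h6
  exact WithTop.add_left_cancel hfin h6

/-- **Lengths and orders.** -/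
theorem LO_main (hS : ∀ W ∈ S, IsDiscreteValuationRing W)
    (hB : ∀ W ∈ S, ∀ b ∈ B, b ∈ W)
    (hres : ∀ W ∈ S, ∀ y ∈ W, ∃ b ∈ B, W.valuation (y - b) < 1)
    (hc : ∃ c : K, c ≠ 0 ∧ ∀ y, (∀ W ∈ S, y ∈ W) → c * y ∈ B)
    (hfr : ∀ u : K, ∃ a b : B, (b : K) ≠ 0 ∧ u = a / b) {u : K} (hu : u ≠ 0) :
    len B u = ∑ W ∈ S, ord W u := by
  have key : ∀ n, HasLen B u n → n = ∑ W ∈ S, ord W u := by
    rintro n ⟨a, b, r, s, ha, hb, hub, hr, hs, rfl⟩
    obtain ⟨N, hN, hN'⟩ := LO_lenB_ord hS hB hres hc a ha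
    obtain ⟨M, hM, hM'⟩ := LO_lenB_ord hS hB hres hc b hb
    have e1 : r = N := by
      rw [hr] at hN
      exact_mod_cast hN
    have e2 : s = M := by
      rw [hs] at hM
      exact_mod_cast hM
    rw [e1, e2, hub, ← hN', ← hM', ← Finset.sum_sub_distrib]
    refine Finset.sum_congr rfl fun W hW => ?_
    rw [ord_div (hS W hW) ha hb]
  have hex : ∃ n, HasLen B u n := by
    obtain ⟨a, b, hb, hub⟩ := hfr u
    have ha : (a : K) ≠ 0 := by
      intro h
      rw [h, zero_div] at hub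
      exact hu hub
    obtain ⟨N, hN, -⟩ := LO_lenB_ord hS hB hres hc a ha
    obtain ⟨M, hM, -⟩ := LO_lenB_ord hS hB hres hc b hb
    exact ⟨_, a, b, N, M, ha, hb, hub, hN, hM, rfl⟩
  unfold len
  rw [dif_pos hex]
  exact key _ hex.choose_spec

end LO_semi

/-! ## Curves -/

section LO_curves

variable {k K : Type} [Field k] [Field K] [Algebra k K]

theorem LO_adjoin_sub (t : K) (c : k) :
    IntermediateField.adjoin k {t - algebraMap k K c} = IntermediateField.adjoin k {t} := by
  apply le_antisymm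
  · rw [IntermediateField.adjoin_simple_le_iff]
    exact sub_mem (IntermediateField.mem_adjoin_simple_self k t)
      (IntermediateField.algebraMap_mem _ c)
  · rw [IntermediateField.adjoin_simple_le_iff]
    have h := add_mem (IntermediateField.mem_adjoin_simple_self k (t - algebraMap k K c))
      (IntermediateField.algebraMap_mem (IntermediateField.adjoin k {t - algebraMap k K c}) c)
    rwa [sub_add_cancel] at h

/-- A separating element which is in all the places of a finite set. -/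
theorem LO_sep [IsAlgClosed k] (hK : FunF k K 1) {S : Set (ValuationSubring K)} (hS : S.Finite)
    (hk : ∀ W ∈ S, Over k W) : ∃ t : K, (∀ W ∈ S, t ∈ W) ∧
      Algebra.IsSeparable (IntermediateField.adjoin k {t}) K ∧
      FiniteDimensional (IntermediateField.adjoin k {t}) K := by
  obtain ⟨t, -, hsep, hfin⟩ := C1_sep hK
  have hT : (⋃ W ∈ S, {c : k | W.valuation (t - algebraMap k K c) < 1}).Finite := by
    refine hS.biUnion fun W hW => Set.Subsingleton.finite fun c hc c' hc' => ?_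
    by_contra hne
    have h1 := Cur2_const (hk W hW) (sub_ne_zero.2 hne)
    have h2 : algebraMap k K (c - c') = (t - algebraMap k K c') - (t - algebraMap k K c) := by
      rw [map_sub]
      ring
    rw [h2] at h1
    have h3 := Valuation.map_sub_lt _ (Set.mem_setOf.1 hc') (Set.mem_setOf.1 hc)
    exact h3.ne h1
  obtain ⟨c, hc⟩ := hT.exists_notMem
  refine ⟨(t - algebraMap k K c)⁻¹, fun W hW => ?_, ?_, ?_⟩
  · rcases W.mem_or_inv_mem (t - algebraMap k K c) with h | h
    · have h1 : ¬ W.valuation (t - algebraMap k K c) < 1 := fun h2 =>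
        hc (Set.mem_biUnion hW h2)
      have h2 : W.valuation (t - algebraMap k K c) = 1 :=
        le_antisymm ((ValuationSubring.valuation_le_one_iff W _).2 h) (not_lt.1 h1)
      rw [← ValuationSubring.valuation_le_one_iff, map_inv₀, h2, inv_one]
    · exact h
  · rw [C1_adjoin_inv, LO_adjoin_sub]
    exact hsep
  · rw [C1_adjoin_inv, LO_adjoin_sub]
    exact hfin

theorem LO_den (B : Subring K) (hfr : ∀ u : K, ∃ a b : B, (b : K) ≠ 0 ∧ u = a / b)
    (T : Finset K) : ∃ c : K, c ≠ 0 ∧ c ∈ B ∧ ∀ u ∈ T, c * u ∈ B := by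
  classical
  induction T using Finset.induction_on with
  | empty => exact ⟨1, one_ne_zero, B.one_mem, fun u hu => absurd hu (Finset.notMem_empty u)⟩
  | insert v T _ ih =>
    obtain ⟨c, hc0, hcB, hc⟩ := ih
    obtain ⟨a, b, hb, hv⟩ := hfr v
    refine ⟨c * b, mul_ne_zero hc0 hb, B.mul_mem hcB b.2, fun u hu => ?_⟩
    rcases Finset.mem_insert.1 hu with rfl | hu
    · have e : c * b * u = c * a := by
        rw [hv]
        field_simp
      rw [e]
      exact B.mul_mem hcB a.2
    · have e : c * b * u = c * u * b := by ring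
      rw [e]
      exact B.mul_mem (hc u hu) b.2

/-- The conductor is not zero. -/
theorem LO_conductor [IsAlgClosed k] (hK : FunF k K 1) (B : Subring K)
    (hk : ∀ c : k, algebraMap k K c ∈ B)
    (hfr : ∀ u : K, ∃ a b : B, (b : K) ≠ 0 ∧ u = a / b)
    (hfin : {W : ValuationSubring K | Place k W ∧ ∀ b ∈ B, b ∈ W}.Finite) :
    ∃ c : K, c ≠ 0 ∧ ∀ y : K, (∀ W : ValuationSubring K, Place k W → (∀ b ∈ B, b ∈ W) → y ∈ W) →
      c * y ∈ B := by
  classical
  obtain ⟨t, htS, hsep, hfd⟩ := LO_sep hK hfin fun W hW => hW.1.2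
  obtain ⟨C, hC, -⟩ := cur3_model (k := k) t hsep hfd
  -- the generators are integral
  have hint : ∀ c ∈ C, IsIntegral B c := by
    intro c hc
    have h1 : c ∈ (⨅ V : {V : ValuationSubring K // (B : Set K) ⊆ V.toSubring},
        V.1.toSubring) := by
      rw [Subring.mem_iInf]
      rintro ⟨U, hU⟩
      change c ∈ U
      have hUk : Over k U := fun a => hU (hk a)
      by_cases hT : U = ⊤
      · rw [hT]
        exact ValuationSubring.mem_top c
      · have hP : Place k U := ⟨C1_dvr hK U hUk hT, hUk⟩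
        exact (hC U hUk (htS U ⟨hP, hU⟩)).1 c hc
    rw [iInf_valuationSubring_superset] at h1
    have h2 : IsIntegral (Subring.closure (B : Set K)) c := h1
    obtain ⟨p, hp, hp0⟩ := h2
    have h3 : Subring.closure (B : Set K) ≤ B := (Subring.closure_eq B).le
    refine ⟨p.map (Subring.inclusion h3), hp.map _, ?_⟩
    rw [Polynomial.eval₂_map]
    exact hp0
  let D := Algebra.adjoin B (C : Set K)
  have hDfg : (Subalgebra.toSubmodule D).FG :=
    fg_adjoin_of_finite C.finite_toSet hint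
  have hBD : ∀ b ∈ B, b ∈ D := fun b hb => D.algebraMap_mem ⟨b, hb⟩
  have hCD : ∀ r ∈ Algebra.adjoin k (C : Set K), r ∈ D := by
    intro r hr
    induction hr using Algebra.adjoin_induction with
    | mem z hz => exact Algebra.subset_adjoin hz
    | algebraMap a => exact hBD _ (hk a)
    | add z w _ _ hz hw => exact add_mem hz hw
    | mul z w _ _ hz hw => exact mul_mem hz hw
  -- the intersection is in `D`
  have hyD : ∀ y : K, (∀ W : ValuationSubring K, Place k W → (∀ b ∈ B, b ∈ W) → y ∈ W) →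
      y ∈ D := by
    intro y hy
    let I : Ideal D.toSubring :=
      { carrier := {s | (s : K) * y ∈ D}
        add_mem' := by
          intro a b ha hb
          change ((a : K) + b) * y ∈ D
          rw [add_mul]
          exact add_mem ha hb
        zero_mem' := by
          change (0 : K) * y ∈ D
          rw [zero_mul]
          exact zero_mem _
        smul_mem' := by
          intro a b hb
          change ((a : K) * b) * y ∈ D
          rw [mul_assoc]
          exact mul_mem a.2 hb }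
    have hI : ∀ s : D.toSubring, s ∈ I ↔ (s : K) * y ∈ D := fun s => Iff.rfl
    have htop : I = ⊤ := by
      by_contra hne
      obtain ⟨U, hDU, hIU⟩ := Ideal.image_subset_nonunits_valuationSubring I hne
      have hBU : ∀ b ∈ B, b ∈ U := fun b hb => hDU (hBD b hb)
      have hUk : Over k U := fun a => hBU _ (hk a)
      have hnon : ∀ s : D.toSubring, s ∈ I → U.valuation (s : K) < 1 := fun s hs =>
        (ValuationSubring.mem_nonunits_iff U).1 (hIU ⟨s, hs, rfl⟩)
      have hUne : U ≠ ⊤ := by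
        intro hU
        obtain ⟨a, b, hb, hab⟩ := hfr y
        have h1 : (⟨(b : K), hBD b b.2⟩ : D.toSubring) ∈ I := by
          rw [hI]
          change (b : K) * y ∈ D
          rw [hab, mul_div_cancel₀ _ hb]
          exact hBD a a.2
        have h2 := hnon _ h1
        have h3 : U.valuation ((b : K)⁻¹) ≤ 1 := by
          rw [ValuationSubring.valuation_le_one_iff, hU]
          exact ValuationSubring.mem_top _
        rw [map_inv₀] at h3
        have h4 : 0 < U.valuation (b : K) := by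
          rw [Valuation.pos_iff]
          exact hb
        exact absurd h2 (not_lt.2 ((inv_le_one₀ h4).1 h3))
      have hP : Place k U := ⟨C1_dvr hK U hUk hUne, hUk⟩
      obtain ⟨r, hr, s, hs, hs1, hyrs⟩ := (hC U hUk (htS U ⟨hP, hBU⟩)).2 y (hy U hP hBU)
      have hs0 : s ≠ 0 := cur3_ne_zero hs1
      have h5 : (⟨s, hCD s hs⟩ : D.toSubring) ∈ I := by
        rw [hI]
        change s * y ∈ D
        rw [hyrs, mul_div_cancel₀ _ hs0]
        exact hCD r hr
      exact (hnon _ h5).ne hs1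
    have h1 : (1 : D.toSubring) ∈ I := by
      rw [htop]
      trivial
    have h2 := (hI _).1 h1
    rwa [show ((1 : D.toSubring) : K) = 1 from rfl, one_mul] at h2
  obtain ⟨T, hT⟩ := hDfg
  obtain ⟨c, hc0, -, hc⟩ := LO_den B hfr T
  have key : ∀ y ∈ Submodule.span B (T : Set K), c * y ∈ B := by
    intro y hy
    induction hy using Submodule.span_induction with
    | mem z hz => exact hc z hz
    | zero =>
      rw [mul_zero]
      exact B.zero_mem
    | add z w _ _ hz hw =>
      rw [mul_add]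
      exact B.add_mem hz hw
    | smul a z _ hz =>
      have e : c * (a • z) = a * (c * z) := by
        change c * ((a : K) * z) = a * (c * z)
        ring
      rw [e]
      exact B.mul_mem a.2 hz
  refine ⟨c, hc0, fun y hy => key y ?_⟩
  rw [hT]
  exact hyD y hy

/-- **Lengths and orders on a curve**: `B` is the local ring of a point. -/
theorem LO_curve [IsAlgClosed k] (hK : FunF k K 1) (B : Subring K)
    (hk : ∀ c : k, algebraMap k K c ∈ B)
    (hfr : ∀ u : K, ∃ a b : B, (b : K) ≠ 0 ∧ u = a / b)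
    (hfin : {W : ValuationSubring K | Place k W ∧ ∀ b ∈ B, b ∈ W}.Finite) {u : K} (hu : u ≠ 0) :
    len B u = ∑ᶠ (W : ValuationSubring K) (_ : Place k W ∧ ∀ b ∈ B, b ∈ W), ord W u := by
  classical
  obtain ⟨c, hc0, hc⟩ := LO_conductor hK B hk hfr hfin
  have hmem : ∀ W, W ∈ hfin.toFinset ↔ Place k W ∧ ∀ b ∈ B, b ∈ W := fun W => by
    rw [Set.Finite.mem_toFinset]
    rfl
  have h1 : len B u = ∑ W ∈ hfin.toFinset, ord W u := by
    refine LO_main (fun W hW => ((hmem W).1 hW).1.1) (fun W hW => ((hmem W).1 hW).2)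
      (fun W hW y hy => ?_) ⟨c, hc0, fun y hy => hc y fun W h h' => hy W ((hmem W).2 ⟨h, h'⟩)⟩
      hfr hu
    obtain ⟨a, ha⟩ := cur3_const hK ((hmem W).1 hW).1 hy
    exact ⟨_, hk a, ha⟩
  rw [h1]
  exact (finsum_mem_eq_finite_toFinset_sum (fun W => ord W u) hfin).symm

end LO_curves

end Pool.Agent.Lib.MP_b197b4_ntA
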