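import Pool.Agent.Lib.MP_b197b4_ntA.XApp
import Pool.Agent.Lib.MP_b197b4_ntA.Defs
import Pool.Agent.Lib.MP_b197b4_ntKD.Cor2

/-!
# MP_b197b4_nt (K1-ALL): zeros and poles, finiteness
-/

set_option autoImplicit false

namespace Pool.Agent.Lib.MP_b197b4_ntA

open IsLocalRing Pool.Agent.Lib.MP_b197b4_ntK Pool.Agent.Lib.MP_b197b4_ntKD Polynomial

section Zero

variable {L E : Type} [Field L] [Field E] [Algebra L E]

theorem xfin_val_const {V : ValuationSubring E} (hV : ∀ c : L, algebraMap L E c ∈ V) {c : L}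
    (hc : c ≠ 0) : V.valuation (algebraMap L E c) = 1 := by
  refine le_antisymm ((V.valuation_le_one_iff _).mpr (hV c)) ?_
  have h1 := (V.valuation_le_one_iff _).mpr (hV c⁻¹)
  rw [map_inv₀, map_inv₀] at h1
  have h2 : 0 < V.valuation (algebraMap L E c) := by
    rw [zero_lt_iff, ne_eq, map_eq_zero, map_eq_zero]
    exact hc
  exact (inv_le_one₀ h2).mp h1

theorem xfin_val_poly (f : E) (p : L[X]) (hp : p ≠ 0) : ∃ a : ℕ, ∀ V : ValuationSubring E,
    (∀ c : L, algebraMap L E c ∈ V) → V.valuation f < 1 →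
      V.valuation (aeval f p) = V.valuation f ^ a := by
  obtain ⟨q, hq, hq0⟩ := exists_eq_pow_rootMultiplicity_mul_and_not_dvd p hp 0
  rw [C_0, sub_zero] at hq hq0
  rw [X_dvd_iff] at hq0
  refine ⟨rootMultiplicity 0 p, fun V hV hf => ?_⟩
  have h1 : V.valuation (aeval f q) = 1 := by
    have h2 : q = C (q.coeff 0) + X * q.divX := by
      rw [mul_comm, add_comm, divX_mul_X_add]
    have hfV : f ∈ V := (V.valuation_le_one_iff _).mp hf.le
    have h3 : aeval f q.divX ∈ V := by
      rw [aeval_eq_sum_range]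
      refine V.toSubring.sum_mem fun i _ => ?_
      rw [Algebra.smul_def]
      exact V.mul_mem _ _ (hV _) (V.toSubring.pow_mem hfV _)
    have h4 : V.valuation (f * aeval f q.divX) < 1 := by
      rw [map_mul]
      exact lt_of_le_of_lt (mul_le_of_le_one_right' ((V.valuation_le_one_iff _).mpr h3)) hf
    have h5 : aeval f q = algebraMap L E (q.coeff 0) + f * aeval f q.divX := by
      conv_lhs => rw [h2]
      rw [map_add, map_mul, aeval_C, aeval_X]
    rw [h5, Valuation.map_add_eq_of_lt_left]
    · exact xfin_val_const hV hq0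
    · rw [xfin_val_const hV hq0]
      exact h4
  conv_lhs => rw [hq]
  rw [map_mul, map_pow, aeval_X, map_mul, map_pow, h1, mul_one]

/-- **An element has finitely many zeros.** -/
theorem fin_zero {f : E} (hf : Transcendental L f)
    [FiniteDimensional (IntermediateField.adjoin L {f}) E] :
    {V : ValuationSubring E | IsDiscreteValuationRing V ∧ (∀ c : L, algebraMap L E c ∈ V) ∧
      V.valuation f < 1}.Finite := by
  by_contra hinf
  obtain ⟨V₁, hV₁⟩ := Set.Infinite.nonempty hinf
  apply hinf
  refine fin_over (K₀ := IntermediateField.adjoin L {f}) _ (fun V hV => hV.1)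
    (V₁.comap (algebraMap (IntermediateField.adjoin L {f}) E)) ?_
  rintro V hV
  ext y
  rw [ValuationSubring.mem_comap, ValuationSubring.mem_comap]
  have hf0 : f ≠ 0 := by
    rintro rfl
    exact hf (isAlgebraic_zero)
  obtain ⟨p, q, hpq⟩ := (IntermediateField.mem_adjoin_simple_iff L (y : E)).mp y.2
  have hy : algebraMap (IntermediateField.adjoin L {f}) E y = aeval f p / aeval f q := hpq
  rw [hy]
  by_cases hp : p = 0
  · rw [hp, map_zero, zero_div]
    exact ⟨fun _ => V₁.zero_mem, fun _ => V.zero_mem⟩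
  by_cases hq : q = 0
  · rw [hq, map_zero, div_zero]
    exact ⟨fun _ => V₁.zero_mem, fun _ => V.zero_mem⟩
  obtain ⟨a, ha⟩ := xfin_val_poly (L := L) f p hp
  obtain ⟨b, hb⟩ := xfin_val_poly (L := L) f q hq
  have key : ∀ W : ValuationSubring E, (∀ c : L, algebraMap L E c ∈ W) → W.valuation f < 1 →
      (aeval f p / aeval f q ∈ W ↔ b ≤ a) := by
    intro W hW hWf
    have hpos : 0 < W.valuation f := by
      rw [zero_lt_iff, ne_eq, map_eq_zero]
      exact hf0
    rw [← W.valuation_le_one_iff, map_div₀, ha W hW hWf, hb W hW hWf,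
      div_le_one₀ (pow_pos hpos _)]
    exact pow_le_pow_iff_right_of_lt_one₀ hpos hWf
  rw [key V hV.2.1 hV.2.2, key V₁ hV₁.2.1 hV₁.2.2]

/-- **An element has finitely many zeros and poles.** -/
theorem fin_ord (hfin : ∀ f : E, Transcendental L f →
    FiniteDimensional (IntermediateField.adjoin L {f}) E) {f : E} (hf0 : f ≠ 0) :
    {V : ValuationSubring E | IsDiscreteValuationRing V ∧ (∀ c : L, algebraMap L E c ∈ V) ∧
      ord V f ≠ 0}.Finite := by
  by_cases hf : Transcendental L f
  · have hf' : Transcendental L f⁻¹ := by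
      intro h
      apply hf
      have := h.inv
      rwa [inv_inv] at this
    have h1 := hfin f hf
    have h2 := hfin f⁻¹ hf'
    refine ((fin_zero hf).union (fin_zero hf')).subset ?_
    rintro V ⟨hV, hVL, hVf⟩
    rcases lt_or_gt_of_ne hVf with h3 | h3
    · right
      refine ⟨hV, hVL, ?_⟩
      rw [← xapp_ord_pos (inv_ne_zero hf0), ord_inv hf0]
      omega
    · left
      refine ⟨hV, hVL, ?_⟩
      rw [← xapp_ord_pos hf0]
      exact h3
  · refine (Set.finite_empty).subset ?_
    rintro V ⟨hV, hVL, hVf⟩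
    exfalso
    apply hVf
    have h3 : IsAlgebraic L f := not_not.mp hf
    have h4 : ∀ g : E, IsAlgebraic L g → V.valuation g ≤ 1 := fun g hg =>
      (V.valuation_le_one_iff _).mpr (mem_of_integral V hVL hg.isIntegral)
    rw [ord_eq_zero_iff hf0]
    refine le_antisymm (h4 f h3) ?_
    have h5 := h4 f⁻¹ h3.inv
    rw [map_inv₀] at h5
    have h6 : 0 < V.valuation f := by
      rw [zero_lt_iff, ne_eq, map_eq_zero]
      exact hf0
    exact (inv_le_one₀ h6).mp h5

theorem xfin_dim (hfg : (⊤ : IntermediateField L E).FG) (htr : Algebra.trdeg L E ≤ 1) (f : E)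
    (hf : Transcendental L f) : FiniteDimensional (IntermediateField.adjoin L {f}) E := by
  have h1 : Algebra.trdeg L (IntermediateField.adjoin L {f}) ≠ 0 := by
    rw [trdeg_ne_zero_iff]
    refine ⟨⟨IntermediateField.AdjoinSimple.gen L f, ?_⟩⟩
    intro h
    apply hf
    exact h.algebraMap (A := E)
  have h2 := trdeg_add_eq L (IntermediateField.adjoin L {f}) (A := E)
  have h3 : Algebra.trdeg (IntermediateField.adjoin L {f}) E = 0 := by
    by_contra hcon
    have a1 := Cardinal.one_le_iff_ne_zero.mpr h1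
    have a2 := Cardinal.one_le_iff_ne_zero.mpr hcon
    have a3 := add_le_add a1 a2
    rw [h2] at a3
    have a4 := a3.trans htr
    norm_num at a4
  rw [trdeg_eq_zero_iff] at h3
  obtain ⟨S, hS⟩ := hfg
  have h4 : IntermediateField.adjoin (IntermediateField.adjoin L {f}) (S : Set E) = ⊤ := by
    rw [eq_top_iff]
    intro x _
    have h5 : x ∈ IntermediateField.adjoin L (S : Set E) := by
      rw [hS]
      exact IntermediateField.mem_top
    have h6 : IntermediateField.adjoin L (S : Set E) ≤
        (IntermediateField.adjoin (IntermediateField.adjoin L {f})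
          (S : Set E)).restrictScalars L := by
      rw [IntermediateField.adjoin_le_iff]
      exact IntermediateField.subset_adjoin (IntermediateField.adjoin L {f}) (S : Set E)
    exact h6 h5
  have h5 : FiniteDimensional (IntermediateField.adjoin L {f})
      (IntermediateField.adjoin (IntermediateField.adjoin L {f}) (S : Set E)) :=
    IntermediateField.finiteDimensional_adjoin fun x _ =>
      (Algebra.IsAlgebraic.isAlgebraic x).isIntegral
  rw [h4] at h5
  exact LinearEquiv.finiteDimensional IntermediateField.topEquiv.toLinearEquiv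

theorem xfin_fg {k : Type} [Field k] [Algebra k E] (h : (⊤ : IntermediateField k E).FG)
    (L : IntermediateField k E) : (⊤ : IntermediateField L E).FG := by
  obtain ⟨S, hS⟩ := h
  refine ⟨S, ?_⟩
  rw [eq_top_iff]
  intro x _
  have h5 : x ∈ IntermediateField.adjoin k (S : Set E) := by
    rw [hS]
    exact IntermediateField.mem_top
  have h6 : IntermediateField.adjoin k (S : Set E) ≤
      (IntermediateField.adjoin L (S : Set E)).restrictScalars k := by
    rw [IntermediateField.adjoin_le_iff]
    exact IntermediateField.subset_adjoin L (S : Set E)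
  exact h6 h5

/-- **C2** for function fields of one variable over any field. -/
theorem fin_ordK (hfg : (⊤ : IntermediateField L E).FG) (htr : Algebra.trdeg L E ≤ 1) {f : E}
    (hf : f ≠ 0) : {V : ValuationSubring E | IsDiscreteValuationRing V ∧
      (∀ c : L, algebraMap L E c ∈ V) ∧ ord V f ≠ 0}.Finite :=
  fin_ord (xfin_dim hfg htr) hf

end Zero

section Surf

variable {k E : Type} [Field k] [Field E] [Algebra k E]

theorem Const.mk' {V : ValuationSubring E} (c : k) : Const k V (algebraMap k E c) := ⟨c, rfl⟩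

theorem Const.add {V : ValuationSubring E} (hV : Over k V) {a b : E} (ha : a ∈ V) (hb : b ∈ V)
    (h : Const k V a) (h' : Const k V b) : Const k V (a + b) := by
  obtain ⟨c, hc⟩ := h
  obtain ⟨d, hd⟩ := h'
  exact ⟨c + d, by rw [map_add, res_add ha hb, res_add (hV c) (hV d), hc, hd]⟩

theorem Const.mul {V : ValuationSubring E} (hV : Over k V) {a b : E} (ha : a ∈ V) (hb : b ∈ V)
    (h : Const k V a) (h' : Const k V b) : Const k V (a * b) := by
  obtain ⟨c, hc⟩ := h
  obtain ⟨d, hd⟩ := h'
  exact ⟨c * d, by rw [map_mul, res_mul ha hb, res_mul (hV c) (hV d), hc, hd]⟩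

theorem const_adjoin {V : ValuationSubring E} (hV : Over k V) {S : Set E}
    (hS : ∀ s ∈ S, s ∈ V ∧ Const k V s) : ∀ b ∈ Algebra.adjoin k S, b ∈ V ∧ Const k V b := by
  intro b hb
  induction hb using Algebra.adjoin_induction with
  | mem y hy => exact hS y hy
  | algebraMap c => exact ⟨hV c, Const.mk' c⟩
  | add a b _ _ ha hb =>
    exact ⟨V.add_mem _ _ ha.1 hb.1, Const.add hV ha.1 hb.1 ha.2 hb.2⟩
  | mul a b _ _ ha hb =>
    exact ⟨V.mul_mem _ _ ha.1 hb.1, Const.mul hV ha.1 hb.1 ha.2 hb.2⟩

/-- Polynomials in a nonconstant residue are units. -/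
theorem xfin_val_one [IsAlgClosed k] {V : ValuationSubring E} (hV : Over k V) {s : E}
    (hs : s ∈ V) (hc : ¬ Const k V s) (p : k[X]) (hp : p ≠ 0) :
    V.valuation (aeval s p) = 1 := by
  have hlin : ∀ a : k, V.valuation (s - algebraMap k E a) = 1 := by
    intro a
    have h1 : s - algebraMap k E a ∈ V := by
      rw [sub_eq_add_neg]
      exact V.add_mem _ _ hs (V.neg_mem _ (hV a))
    refine (res_ne_zero_iff h1).mp fun h2 => hc ⟨a, ?_⟩
    have h3 := (res_eq_zero_iff h1).mp h2
    exact (res_eq_iff hs (hV a)).mpr h3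
  have h1 := (IsAlgClosed.splits p).eq_prod_roots
  rw [h1, map_mul, aeval_C, map_multiset_prod, map_mul, map_multiset_prod,
    xfin_val_const hV (leadingCoeff_ne_zero.mpr hp), one_mul]
  refine Multiset.prod_eq_one fun y hy => ?_
  rw [Multiset.mem_map] at hy
  obtain ⟨z, hz, rfl⟩ := hy
  rw [Multiset.mem_map] at hz
  obtain ⟨q, hq, rfl⟩ := hz
  obtain ⟨a, -, rfl⟩ := Multiset.mem_map.mp hq
  rw [map_sub, aeval_X, aeval_C]
  exact hlin a

/-- **Zeros and poles on a surface**: only finitely many curves. -/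
theorem fin_surf [IsAlgClosed k] (hE : FunF k E 2) (B : Subalgebra k E) (hB : B.FG) {f : E}
    (hf : f ≠ 0) : {V : ValuationSubring E | IsDiscreteValuationRing V ∧ (∀ b ∈ B, b ∈ V) ∧
      (∃ b ∈ B, ¬ Const k V b) ∧ ord V f ≠ 0}.Finite := by
  obtain ⟨S, rfl⟩ := hB
  have hsub : {V : ValuationSubring E | IsDiscreteValuationRing V ∧
      (∀ b ∈ Algebra.adjoin k (S : Set E), b ∈ V) ∧
      (∃ b ∈ Algebra.adjoin k (S : Set E), ¬ Const k V b) ∧ ord V f ≠ 0} ⊆
      ⋃ s ∈ (S : Set E), {V : ValuationSubring E | IsDiscreteValuationRing V ∧ Over k V ∧ s ∈ V ∧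
        ¬ Const k V s ∧ ord V f ≠ 0} := by
    rintro V ⟨h1, h2, ⟨b, hb, hbc⟩, h3⟩
    have hk : Over k V := fun c => h2 _ (Subalgebra.algebraMap_mem _ c)
    by_contra hcon
    apply hbc
    refine (const_adjoin hk (fun s hs => ⟨h2 s (Algebra.subset_adjoin hs), ?_⟩) b hb).2
    by_contra hs'
    exact hcon (Set.mem_biUnion hs ⟨h1, hk, h2 s (Algebra.subset_adjoin hs), hs', h3⟩)
  refine (S.finite_toSet.biUnion fun s _ => ?_).subset hsub
  by_cases hs : Transcendental k s
  · obtain ⟨hfg, htr⟩ := hE
    have h1 : Algebra.trdeg k (IntermediateField.adjoin k {s}) ≠ 0 := by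
      rw [trdeg_ne_zero_iff]
      refine ⟨⟨IntermediateField.AdjoinSimple.gen k s, ?_⟩⟩
      intro h
      apply hs
      exact h.algebraMap (A := E)
    have h2 := trdeg_add_eq k (IntermediateField.adjoin k {s}) (A := E)
    have h3 : Algebra.trdeg (IntermediateField.adjoin k {s}) E ≤ 1 := by
      have a1 := Cardinal.one_le_iff_ne_zero.mpr h1
      rw [htr] at h2
      have a2 : (1 : Cardinal) + Algebra.trdeg (IntermediateField.adjoin k {s}) E ≤ 1 + 1 := by
        calc (1 : Cardinal) + Algebra.trdeg (IntermediateField.adjoin k {s}) E ≤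
            Algebra.trdeg k (IntermediateField.adjoin k {s}) +
              Algebra.trdeg (IntermediateField.adjoin k {s}) E := add_le_add a1 le_rfl
          _ = 1 + 1 := by
            rw [h2]
            norm_num
      rw [add_comm (1 : Cardinal) (Algebra.trdeg _ _)] at a2
      exact (Cardinal.add_le_add_iff_of_lt_aleph0 Cardinal.one_lt_aleph0).mp a2
    refine (fin_ord (L := IntermediateField.adjoin k {s})
      (xfin_dim (xfin_fg hfg _) h3) hf).subset ?_
    rintro V ⟨a1, a2, a3, a4, a5⟩
    refine ⟨a1, fun c => ?_, a5⟩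
    obtain ⟨p, q, hpq⟩ := (IntermediateField.mem_adjoin_simple_iff k (c : E)).mp c.2
    have hc : algebraMap (IntermediateField.adjoin k {s}) E c = aeval s p / aeval s q := hpq
    rw [hc]
    by_cases hp : p = 0
    · rw [hp, map_zero, zero_div]
      exact V.zero_mem
    by_cases hq : q = 0
    · rw [hq, map_zero, div_zero]
      exact V.zero_mem
    refine mem_of_val ?_
    rw [map_div₀, xfin_val_one a2 a3 a4 p hp, xfin_val_one a2 a3 a4 q hq, div_one]
  · refine (Set.finite_empty).subset ?_
    rintro V ⟨-, -, -, a4, -⟩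
    apply a4
    have h1 : IsIntegral k s := (not_not.mp hs).isIntegral
    obtain ⟨c, hc⟩ := minpoly.mem_range_of_degree_eq_one k s
      (IsAlgClosed.degree_eq_one_of_irreducible k (minpoly.irreducible h1))
    exact ⟨c, by rw [hc]⟩

end Surf

end Pool.Agent.Lib.MP_b197b4_ntA
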