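import Pool.Agent.Lib.MP_b197b4_ntA.XDefs2
import Pool.Agent.Lib.MP_b197b4_ntA.XFin

/-!
# MP_b197b4_nt (K1-ALL): centres
-/

set_option autoImplicit false

namespace Pool.Agent.Lib.MP_b197b4_ntA

open IsLocalRing Pool.Agent.Lib.MP_b197b4_ntK Pool.Agent.Lib.MP_b197b4_ntKD

section Loc

variable {F : Type} [Field F] (A : Subring F) (P : Ideal A) [P.IsPrime]

theorem xcen_ne {s : A} (hs : s ∉ P) : (s : F) ≠ 0 := by
  intro h0
  apply hs
  have : s = 0 := Subtype.ext h0
  rw [this]
  exact P.zero_mem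

theorem xcen_unit (a : A) :
    IsUnit (⟨(a : F), LocalSubring.le_ofPrime A P a.2⟩ : (LocalSubring.ofPrime A P).toSubring) ↔
      a ∉ P := by
  have := IsLocalization.AtPrime.isUnit_to_map_iff (LocalSubring.ofPrime A P).toSubring P a
  exact this

theorem xcen_mem (x : F) : x ∈ (LocalSubring.ofPrime A P).toSubring ↔
    ∃ a s : A, s ∉ P ∧ x = (a : F) / (s : F) := by
  constructor
  · intro hx
    obtain ⟨⟨a, s⟩, h⟩ := IsLocalization.surj P.primeCompl
      (⟨x, hx⟩ : (LocalSubring.ofPrime A P).toSubring)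
    refine ⟨a, s, s.2, ?_⟩
    have h1 : x * ((s : A) : F) = (a : F) :=
      congrArg (Subtype.val : (LocalSubring.ofPrime A P).toSubring → F) h
    rw [← h1, mul_div_cancel_right₀ _ (xcen_ne A P s.2)]
  · rintro ⟨a, s, hs, rfl⟩
    have h1 := (xcen_unit A P s).mpr hs
    obtain ⟨y, hy⟩ := h1.exists_right_inv
    have hy' : (s : F) * (y : F) = 1 :=
      congrArg (Subtype.val : (LocalSubring.ofPrime A P).toSubring → F) hy
    have h2 : (a : F) / (s : F) = (a : F) * (y : F) := by
      rw [div_eq_mul_inv, eq_inv_of_mul_eq_one_right hy']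
    rw [h2]
    exact (LocalSubring.ofPrime A P).toSubring.mul_mem (LocalSubring.le_ofPrime A P a.2) y.2

end Loc

section Cen

variable {k : Type} {F : Type} [Field k] [Field F] [Algebra k F] {n : ℕ}

theorem xcen_coord {x : Fin (n + 1) → F} (i j : Fin (n + 1)) : x j / x i ∈ cht k x i :=
  Algebra.subset_adjoin ⟨j, rfl⟩

/-- Inverse of a unit. -/
theorem xcen_inv_mem (P : LocalSubring F) {y : F} (hy : y ∈ P.toSubring)
    (hu : IsUnit (⟨y, hy⟩ : P.toSubring)) : y⁻¹ ∈ P.toSubring := by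
  obtain ⟨z, hz⟩ := hu.exists_right_inv
  have hz' : y * (z : F) = 1 := congrArg (Subtype.val : P.toSubring → F) hz
  rw [← eq_inv_of_mul_eq_one_right hz']
  exact z.2

/-- If two points have the same centre then one is contained in the other. -/
theorem xcen_le {x : Fin (n + 1) → F} (hx : ∀ i, x i ≠ 0) {i j : Fin (n + 1)}
    (P₀ : Ideal (cht k x i).toSubring) [P₀.IsPrime] (Q₀ : Ideal (cht k x j).toSubring)
    [Q₀.IsPrime] (S : LocalSubring F) (V : ValuationSubring (Kap S))
    (h : Cen (LocalSubring.ofPrime _ P₀) S V) (h' : Cen (LocalSubring.ofPrime _ Q₀) S V) :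
    (LocalSubring.ofPrime _ P₀).toSubring ≤ (LocalSubring.ofPrime _ Q₀).toSubring := by
  have hxi := hx i
  have hxj := hx j
  -- `t = x i / x j` is a unit at `Q`
  have ht : x i / x j ∈ (LocalSubring.ofPrime _ Q₀).toSubring :=
    LocalSubring.le_ofPrime _ Q₀ (xcen_coord j i)
  have ht' : x j / x i ∈ (LocalSubring.ofPrime _ P₀).toSubring :=
    LocalSubring.le_ofPrime _ P₀ (xcen_coord i j)
  have hS := h'.1 ht
  have hS' := h.1 ht'
  have h1 := (h'.2 _ ht hS)
  have h2 := (h.2 _ ht' hS')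
  have hprod : residue S.toSubring ⟨_, hS⟩ * residue S.toSubring ⟨_, hS'⟩ = 1 := by
    rw [← map_mul, ← map_one (residue S.toSubring)]
    congr 1
    apply Subtype.ext
    change x i / x j * (x j / x i) = 1
    field_simp
  have hval : V.valuation (residue S.toSubring ⟨_, hS⟩) = 1 := by
    have h3 := (V.valuation_le_one_iff _).mpr h1.1
    have h4 := (V.valuation_le_one_iff _).mpr h2.1
    have h5 := congrArg V.valuation hprod
    rw [map_mul, map_one] at h5
    refine le_antisymm h3 ?_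
    calc (1 : V.ValueGroup) = V.valuation (residue S.toSubring ⟨_, hS⟩) *
          V.valuation (residue S.toSubring ⟨_, hS'⟩) := h5.symm
      _ ≤ V.valuation (residue S.toSubring ⟨_, hS⟩) := mul_le_of_le_one_right' h4
  have hu := h1.2.mpr hval
  have htinv : x j / x i ∈ (LocalSubring.ofPrime _ Q₀).toSubring := by
    have := xcen_inv_mem _ ht hu
    rwa [inv_div] at this
  -- the chart
  have hA : ∀ a ∈ cht k x i, a ∈ (LocalSubring.ofPrime _ Q₀).toSubring := by
    intro a ha
    unfold cht at ha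
    induction ha using Algebra.adjoin_induction with
    | mem y hy =>
      obtain ⟨m, rfl⟩ := hy
      have e : x m / x i = x m / x j * (x j / x i) := by field_simp
      change x m / x i ∈ _
      rw [e]
      exact mul_mem (LocalSubring.le_ofPrime _ Q₀ (xcen_coord j m)) htinv
    | algebraMap c => exact LocalSubring.le_ofPrime _ Q₀ (Subalgebra.algebraMap_mem _ c)
    | add a b _ _ ha hb => exact add_mem ha hb
    | mul a b _ _ ha hb => exact mul_mem ha hb
  intro y hy
  obtain ⟨a, s, hs, rfl⟩ := (xcen_mem _ P₀ y).mp hy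
  have hsP : (s : F) ∈ (LocalSubring.ofPrime _ P₀).toSubring := LocalSubring.le_ofPrime _ P₀ s.2
  have hsu := (xcen_unit _ P₀ s).mpr hs
  have hsS := h.1 hsP
  have h3 := (h.2 _ hsP hsS).2.mp hsu
  have h4 := (h'.2 _ (hA s s.2) hsS).2.mpr h3
  rw [div_eq_mul_inv]
  exact mul_mem (hA a a.2) (xcen_inv_mem _ _ h4)

theorem xcen_unique {x : Fin (n + 1) → F} (hx : ∀ i, x i ≠ 0) {e e' : ℕ} {P Q : LocalSubring F}
    (hP : P ∈ Pts k x e) (hQ : Q ∈ Pts k x e') (S : LocalSubring F)
    (V : ValuationSubring (Kap S)) (h : Cen P S V) (h' : Cen Q S V) : P = Q := by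
  obtain ⟨i, P₀, hP₀, -, rfl⟩ := hP
  obtain ⟨j, Q₀, hQ₀, -, rfl⟩ := hQ
  exact LocalSubring.toSubring_injective
    (le_antisymm (xcen_le hx P₀ Q₀ S V h h') (xcen_le hx Q₀ P₀ S V h' h))

end Cen

end Pool.Agent.Lib.MP_b197b4_ntA
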