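import Mathlib
import Pool.Agent.Lib.MP_b197b4_ntA.XPts
import Pool.Agent.Lib.MP_b197b4_ntA.XCen

/-!
# MP_b197b4_nt, project K1-ALL: curves on a projective variety, points and places
-/

set_option autoImplicit false

namespace Pool.Agent.Lib.MP_b197b4_ntA

open IsLocalRing Pool.Agent.Lib.MP_b197b4_ntK

variable {k : Type} {F : Type} [Field k] [Field F] [Algebra k F] {n : ℕ} {x : Fin (n + 1) → F}

/-- `ψ` is the restriction to the chart `i` of the residue map of `P`. -/
structure XGD (x : Fin (n + 1) → F) (P : LocalSubring F) [Algebra k (Kap P)] (i : Fin (n + 1))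
    (ψ : cht k x i →ₐ[k] Kap P) : Prop where
  sub : (cht k x i).toSubring ≤ P.toSubring
  map : ∀ (a : cht k x i) (ha : (a : F) ∈ P.toSubring), ψ a = residue P.toSubring ⟨a, ha⟩

theorem xg_exists {P : LocalSubring F} [Algebra k (Kap P)]
    (hcom : ∀ (c : k) (h : algebraMap k F c ∈ P.toSubring),
      algebraMap k (Kap P) c = residue P.toSubring ⟨algebraMap k F c, h⟩) {i : Fin (n + 1)}
    (hi : (cht k x i).toSubring ≤ P.toSubring) : ∃ ψ : cht k x i →ₐ[k] Kap P, XGD x P i ψ :=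
  ⟨{ toRingHom := (residue P.toSubring).comp (Subring.inclusion hi)
     commutes' := fun c => (hcom c _).symm }, hi, fun a ha => rfl⟩

section

variable {P : LocalSubring F} [Algebra k (Kap P)] {i : Fin (n + 1)} {ψ : cht k x i →ₐ[k] Kap P}

theorem XGD.ne_iff (h : XGD x P i ψ) (a : cht k x i) :
    ψ a ≠ 0 ↔ IsUnit (⟨a, h.sub a.2⟩ : P.toSubring) := by
  rw [h.map a (h.sub a.2), residue_ne_zero_iff_isUnit]

theorem XGD.gen (hne : ∀ i, x i ≠ 0) {e : ℕ} (hP : P ∈ Pts k x e) (h : XGD x P i ψ) :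
    ∀ z : Kap P, ∃ a b : cht k x i, ψ b ≠ 0 ∧ z = ψ a / ψ b := by
  intro z
  obtain ⟨⟨y, hy⟩, rfl⟩ := residue_surjective z
  obtain ⟨a, b, ha, hb, hu, rfl⟩ := XP_frac hne hP h.sub hy
  refine ⟨⟨a, ha⟩, ⟨b, hb⟩, (h.ne_iff _).2 hu, ?_⟩
  rw [h.map ⟨a, ha⟩ (h.sub ha), h.map ⟨b, hb⟩ (h.sub hb)]
  exact XP_residue_div (h.sub ha) (h.sub hb) hu hy

theorem xg_ofPrime (hne : ∀ i, x i ≠ 0) {e : ℕ} {O : LocalSubring F} (hO : O ∈ Pts k x e)
    (hi : (cht k x i).toSubring ≤ O.toSubring) :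
    LocalSubring.ofPrime (cht k x i).toSubring (XP_ker hi) = O := by
  refine LocalSubring.toSubring_injective ?_
  ext y
  rw [xcen_mem]
  constructor
  · rintro ⟨a, s, hs, rfl⟩
    rw [XP_mem_ker, not_not] at hs
    rw [div_eq_mul_inv]
    exact mul_mem (hi a.2) (xcen_inv_mem _ _ hs)
  · intro hy
    obtain ⟨a, b, ha, hb, hu, rfl⟩ := XP_frac hne hO hi hy
    refine ⟨⟨a, ha⟩, ⟨b, hb⟩, ?_, rfl⟩
    rw [XP_mem_ker, not_not]
    exact hu

theorem XGD.ker (h : XGD x P i ψ) : (RingHom.ker ψ : Ideal (cht k x i)) = XP_ker h.sub := by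
  ext a
  rw [RingHom.mem_ker, ← not_iff_not]
  exact (h.ne_iff a).trans (by rw [XP_mem_ker, not_not])

theorem xg_l_congr (l : ∀ P : LocalSubring F, Kap P → ℚ) {O P : LocalSubring F} (h : O = P) {a : F}
    (ha : a ∈ O.toSubring) (ha' : a ∈ P.toSubring) :
    l O (residue O.toSubring ⟨a, ha⟩) = l P (residue P.toSubring ⟨a, ha'⟩) := by
  subst h
  rfl

theorem XGD.l_ker (hne : ∀ i, x i ≠ 0) {e : ℕ} (hP : P ∈ Pts k x e) (h : XGD x P i ψ)
    (l : ∀ P : LocalSubring F, Kap P → ℚ) (a : cht k x i) :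
    lch k x l i (RingHom.ker ψ) a = l P (ψ a) := by
  have hprime : (RingHom.ker ψ).IsPrime := RingHom.ker_isPrime _
  unfold lch
  rw [dif_pos hprime, h.map a (h.sub a.2)]
  refine xg_l_congr l ?_ _ _
  have h1 := xg_ofPrime hne hP h.sub
  have h2 : ∀ (I J : Ideal (cht k x i).toSubring) (hI : I.IsPrime) (hJ : J.IsPrime), I = J →
      @LocalSubring.ofPrime F _ (cht k x i).toSubring I hI =
        @LocalSubring.ofPrime F _ (cht k x i).toSubring J hJ := by
    intro I J hI hJ hIJ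
    subst hIJ
    rfl
  exact (h2 _ _ _ _ h.ker).trans h1

theorem xg_fg (hgen : ∀ z : Kap P, ∃ a b : cht k x i, ψ b ≠ 0 ∧ z = ψ a / ψ b) :
    (⊤ : IntermediateField k (Kap P)).FG := by
  classical
  have hfin : (Set.range fun j => ψ ⟨x j / x i, xcen_coord i j⟩).Finite := Set.finite_range _
  have h1 : IntermediateField.adjoin k (Set.range fun j => ψ ⟨x j / x i, xcen_coord i j⟩) = ⊤ := by
    rw [eq_top_iff]
    intro z _
    have h2 : ∀ (a : F) (ha : a ∈ cht k x i), ψ ⟨a, ha⟩ ∈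
        IntermediateField.adjoin k (Set.range fun j => ψ ⟨x j / x i, xcen_coord i j⟩) := by
      intro a ha
      have ha' := ha
      unfold cht at ha'
      induction ha' using Algebra.adjoin_induction with
      | mem y hy =>
        obtain ⟨j, rfl⟩ := hy
        exact IntermediateField.subset_adjoin _ _ ⟨j, rfl⟩
      | algebraMap c =>
        have h3 : ψ ⟨algebraMap k F c, ha⟩ = algebraMap k (Kap P) c := ψ.commutes c
        rw [h3]
        exact IntermediateField.algebraMap_mem _ c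
      | add a b ha₁ hb₁ iha ihb =>
        have ha₂ : a ∈ cht k x i := ha₁
        have hb₂ : b ∈ cht k x i := hb₁
        have h3 : ψ ⟨a + b, ha⟩ = ψ ⟨a, ha₂⟩ + ψ ⟨b, hb₂⟩ := by
          rw [← map_add]
          rfl
        rw [h3]
        exact add_mem (iha ha₂) (ihb hb₂)
      | mul a b ha₁ hb₁ iha ihb =>
        have ha₂ : a ∈ cht k x i := ha₁
        have hb₂ : b ∈ cht k x i := hb₁
        have h3 : ψ ⟨a * b, ha⟩ = ψ ⟨a, ha₂⟩ * ψ ⟨b, hb₂⟩ := by
          rw [← map_mul]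
          rfl
        rw [h3]
        exact mul_mem (iha ha₂) (ihb hb₂)
    obtain ⟨a, b, _, rfl⟩ := hgen z
    exact div_mem (h2 a a.2) (h2 b b.2)
  rw [← h1]
  exact IntermediateField.fg_adjoin_of_finite hfin

theorem XGD.fun1 (hne : ∀ i, x i ≠ 0) {e : ℕ} (hP : P ∈ Pts k x e) (h : XGD x P i ψ) :
    FunF k (Kap P) e := by
  have hgen := h.gen hne hP
  refine ⟨xg_fg hgen, ?_⟩
  have : Algebra.FiniteType k (cht k x i) := (Subalgebra.fg_iff_finiteType _).1 (XP_fg i)
  obtain ⟨s, h1, h2⟩ := XP_dim_ker ψ fun z => by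
    obtain ⟨a, b, _, hz⟩ := hgen z
    exact ⟨a, b, hz⟩
  have h3 := XP_chart_dim hne hP h.sub
  have h4 : ringKrullDim ((cht k x i) ⧸ RingHom.ker ψ) = (e : ℕ) := by
    rw [h.ker]
    exact h3
  rw [h2] at h4
  have h5 : s = e := by exact_mod_cast h4
  rw [h1, h5]

theorem XGD.curveK (hne : ∀ i, x i ≠ 0) (hP : P ∈ Pts k x 1) (h : XGD x P i ψ)
    {l : ∀ P : LocalSubring F, Kap P → ℚ} (hl : FormsX k x l)
    {hK : ValuationSubring (Kap P) → ℚ} (hg : GivenK k (l P) hK) :
    CurveK k (cht k x i) (lch k x l i) ψ (l P) hK where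
  fun1 := h.fun1 hne hP
  gen := h.gen hne hP
  compat := fun a b ha hb => by
    rw [h.l_ker hne hP, h.l_ker hne hP, eq_sub_iff_add_eq, ← hl.mul P hP _ _ (div_ne_zero ha hb) hb,
      div_mul_cancel₀ _ hb]
  given := hg

/-- From centres in the sense of `Cen` to centres in the sense of `CenterK`. -/
theorem XGD.center (h : XGD x P i ψ) {O : LocalSubring F} (hi : (cht k x i).toSubring ≤ O.toSubring)
    {W : ValuationSubring (Kap P)} (hc : Cen O P W) : CenterK ψ W (XP_ker hi) := by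
  intro a
  have h1 := hc.2 a (hi a.2) (h.sub a.2)
  rw [← h.map a] at h1
  refine ⟨h1.1, ?_⟩
  rw [XP_mem_ker]
  have h2 := (W.valuation_le_one_iff _).2 h1.1
  constructor
  · intro h3
    exact lt_of_le_of_ne h2 fun h4 => h3 (h1.2.2 h4)
  · intro h3 h4
    exact h3.ne (h1.2.1 h4)

/-- The converse. -/
theorem XGD.cen (h : XGD x P i ψ) {m : Ideal (cht k x i)} (hm : m.IsPrime)
    {W : ValuationSubring (Kap P)} (hc : CenterK ψ W m) :
    Cen (@LocalSubring.ofPrime F _ (cht k x i).toSubring m hm) P W := by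
  have hone : ∀ s : cht k x i, s ∉ m → W.valuation (ψ s) = 1 := by
    intro s hs
    have h1 := (W.valuation_le_one_iff _).2 (hc s).1
    refine le_antisymm h1 (not_lt.1 fun h2 => hs ((hc s).2.2 h2))
  have hne : ∀ s : cht k x i, s ∉ m → ψ s ≠ 0 := by
    intro s hs h0
    have h1 := hone s hs
    rw [h0, map_zero] at h1
    exact zero_ne_one h1
  have hle : (@LocalSubring.ofPrime F _ (cht k x i).toSubring m hm).toSubring ≤ P.toSubring := by
    intro y hy
    obtain ⟨a, s, hs, rfl⟩ := (@xcen_mem F _ (cht k x i).toSubring m hm y).1 hy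
    rw [div_eq_mul_inv]
    exact mul_mem (h.sub a.2) (xcen_inv_mem _ _ ((h.ne_iff s).1 (hne s hs)))
  refine ⟨hle, ?_⟩
  intro y hy hy'
  obtain ⟨a, s, hs, rfl⟩ := (@xcen_mem F _ (cht k x i).toSubring m hm y).1 hy
  have hres : residue P.toSubring ⟨(a : F) / (s : F), hy'⟩ = ψ a / ψ s := by
    rw [h.map a (h.sub a.2), h.map s (h.sub s.2)]
    exact XP_residue_div (h.sub a.2) (h.sub s.2) ((h.ne_iff s).1 (hne s hs)) hy'
  have hval : W.valuation (residue P.toSubring ⟨(a : F) / (s : F), hy'⟩) = W.valuation (ψ a) := by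
    rw [hres, map_div₀, hone s hs, div_one]
  refine ⟨?_, ?_⟩
  · rw [← ValuationSubring.valuation_le_one_iff, hval, ValuationSubring.valuation_le_one_iff]
    exact (hc a).1
  · rw [hval]
    have h1 : IsUnit (⟨(a : F) / (s : F), hy⟩ :
        (@LocalSubring.ofPrime F _ (cht k x i).toSubring m hm).toSubring) ↔ a ∉ m := by
      rw [← @xcen_unit F _ (cht k x i).toSubring m hm a]
      have h2 := (@xcen_unit F _ (cht k x i).toSubring m hm s).2 hs
      have h3 : (⟨(a : F), @LocalSubring.le_ofPrime F _ (cht k x i).toSubring m hm a a.2⟩ :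
          (@LocalSubring.ofPrime F _ (cht k x i).toSubring m hm).toSubring) =
          ⟨(a : F) / (s : F), hy⟩ *
            ⟨(s : F), @LocalSubring.le_ofPrime F _ (cht k x i).toSubring m hm s s.2⟩ := by
        apply Subtype.ext
        change (a : F) = (a : F) / (s : F) * (s : F)
        rw [div_mul_cancel₀ _ (@xcen_ne F _ (cht k x i).toSubring m hm s hs)]
      rw [h3]
      exact ⟨fun h4 => h4.mul h2, fun h4 => isUnit_of_mul_isUnit_left h4⟩
    rw [h1]
    exact ⟨hone a, fun h2 h3 => ((hc a).2.1 h3).ne h2⟩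

end

end Pool.Agent.Lib.MP_b197b4_ntA
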