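import Mathlib
import Pool.Agent.Lib.MP_b197b4_ntA.XG1
import Pool.Agent.Lib.MP_b197b4_ntA.Cur1
import Pool.Agent.Lib.MP_b197b4_ntA.Cur2
import Pool.Agent.Lib.MP_b197b4_ntA.Cur3

/-!
# MP_b197b4_nt, project K1-ALL: points of a curve on a projective variety and places
-/

set_option autoImplicit false

namespace Pool.Agent.Lib.MP_b197b4_ntA

open IsLocalRing Pool.Agent.Lib.MP_b197b4_ntK

variable {k : Type} {F : Type} [Field k] [Field F] [Algebra k F] {n : ℕ} {x : Fin (n + 1) → F}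

/-- Maximal ideals of the charts are closed points. -/
theorem xg_pt_of_max {i : Fin (n + 1)} {m : Ideal (cht k x i)} (hm : m.IsMaximal) :
    @LocalSubring.ofPrime F _ (cht k x i).toSubring m hm.isPrime ∈ Pts k x 0 := by
  refine ⟨i, m, hm.isPrime, ?_, rfl⟩
  exact ringKrullDim_eq_zero_of_isField ((Ideal.Quotient.maximal_ideal_iff_isField_quotient m).1 hm)

theorem xg_max_of_pt (hne : ∀ i, x i ≠ 0) {O : LocalSubring F} (hO : O ∈ Pts k x 0)
    {i : Fin (n + 1)} (hi : (cht k x i).toSubring ≤ O.toSubring) : (XP_ker hi).IsMaximal := by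
  have h0 := XP_chart_dim hne hO hi
  obtain ⟨M, hM, hle⟩ := Ideal.exists_le_maximal (XP_ker hi) (inferInstance : (XP_ker hi).IsPrime).ne_top
  by_cases h1 : XP_ker hi = M
  · rw [h1]
    exact hM
  · exfalso
    have h2 := XP_dim_lt (lt_of_le_of_ne hle h1)
    rw [h0, ringKrullDim_eq_zero_of_isField
      ((Ideal.Quotient.maximal_ideal_iff_isField_quotient M).1 hM)] at h2
    have h3 : (1 : WithBot ℕ∞) ≤ 0 := by simpa using h2
    exact absurd h3 (by decide)

section

variable {P : LocalSubring F} [Algebra k (Kap P)]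

/-- Another chart. -/
theorem xg_sub (O : LocalSubring F) {i j : Fin (n + 1)} (hne : ∀ i, x i ≠ 0)
    (hi : (cht k x i).toSubring ≤ O.toSubring) (hj : x i / x j ∈ O.toSubring) :
    (cht k x j).toSubring ≤ O.toSubring := by
  intro y hy
  change y ∈ cht k x j at hy
  unfold cht at hy
  induction hy using Algebra.adjoin_induction with
  | mem y hy =>
    obtain ⟨m, rfl⟩ := hy
    have e : x m / x j = x m / x i * (x i / x j) := by
      rw [div_mul_div_cancel₀ (hne i)]
    change x m / x j ∈ _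
    rw [e]
    exact mul_mem (hi (xcen_coord i m)) hj
  | algebraMap c => exact hi (Subalgebra.algebraMap_mem _ c)
  | add a b ha hb iha ihb => exact add_mem iha ihb
  | mul a b ha hb iha ihb => exact mul_mem iha ihb

/-- The image of a chart is contained in `W` if the images of the coordinates are. -/
theorem XGD.mem {i : Fin (n + 1)} {ψ : cht k x i →ₐ[k] Kap P} {W : ValuationSubring (Kap P)}
    (hW : Over k W) (h1 : ∀ j, ψ ⟨x j / x i, xcen_coord i j⟩ ∈ W) (a : cht k x i) : ψ a ∈ W := by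
  obtain ⟨a, ha⟩ := a
  have ha' := ha
  unfold cht at ha'
  induction ha' using Algebra.adjoin_induction with
  | mem y hy =>
    obtain ⟨j, rfl⟩ := hy
    exact h1 j
  | algebraMap c =>
    have h3 : ψ ⟨algebraMap k F c, ha⟩ = algebraMap k (Kap P) c := ψ.commutes c
    rw [h3]
    exact hW c
  | add a b ha₁ hb₁ iha ihb =>
    have ha₂ : a ∈ cht k x i := ha₁
    have hb₂ : b ∈ cht k x i := hb₁
    have h3 : ψ ⟨a + b, ha⟩ = ψ ⟨a, ha₂⟩ + ψ ⟨b, hb₂⟩ := by
      rw [← map_add]
      rfl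
    rw [h3]
    exact add_mem (iha ha₂) (ihb hb₂)
  | mul a b ha₁ hb₁ iha ihb =>
    have ha₂ : a ∈ cht k x i := ha₁
    have hb₂ : b ∈ cht k x i := hb₁
    have h3 : ψ ⟨a * b, ha⟩ = ψ ⟨a, ha₂⟩ * ψ ⟨b, hb₂⟩ := by
      rw [← map_mul]
      rfl
    rw [h3]
    exact mul_mem (iha ha₂) (ihb hb₂)

/-- A place which contains the image of a chart has a centre on it. -/
theorem XGD.exists_cen [IsAlgClosed k] (hne : ∀ i, x i ≠ 0) (hP : P ∈ Pts k x 1) {i : Fin (n + 1)}
    {ψ : cht k x i →ₐ[k] Kap P} (h : XGD x P i ψ) {W : ValuationSubring (Kap P)}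
    (hW : Place k W) (h1 : ∀ a, ψ a ∈ W) :
    ∃ O ∈ Pts k x 0, Cen O P W ∧ (cht k x i).toSubring ≤ O.toSubring := by
  obtain ⟨m, hm, hc⟩ := exists_center (XP_fg i) (h.fun1 hne hP) ψ (h.gen hne hP) W hW h1
  exact ⟨_, xg_pt_of_max hm, h.cen hm.isPrime hc,
    @LocalSubring.le_ofPrime F _ (cht k x i).toSubring m hm.isPrime⟩

/-- Every place has a centre. -/
theorem xg_cen_exists [IsAlgClosed k] (hne : ∀ i, x i ≠ 0)
    (hcom : ∀ (c : k) (h : algebraMap k F c ∈ P.toSubring),
      algebraMap k (Kap P) c = residue P.toSubring ⟨algebraMap k F c, h⟩)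
    (hP : P ∈ Pts k x 1) {W : ValuationSubring (Kap P)} (hW : Place k W) :
    ∃ O ∈ Pts k x 0, Cen O P W := by
  have hP' := hP
  obtain ⟨i₀, P₀, hP₀, hd, hPe⟩ := hP'
  have hi₀ : (cht k x i₀).toSubring ≤ P.toSubring := by
    rw [hPe]
    exact LocalSubring.le_ofPrime _ P₀
  obtain ⟨ψ₀, h₀⟩ := xg_exists hcom hi₀
  obtain ⟨i, hi⟩ := Finite.exists_max fun j => W.valuation (ψ₀ ⟨x j / x i₀, xcen_coord i₀ j⟩)
  have hone : ψ₀ ⟨x i₀ / x i₀, xcen_coord i₀ i₀⟩ = 1 := by
    rw [← map_one ψ₀]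
    congr 1
    exact Subtype.ext (div_self (hne i₀))
  have hyi : ψ₀ ⟨x i / x i₀, xcen_coord i₀ i⟩ ≠ 0 := by
    intro h
    have h1 := hi i₀
    rw [hone, h, map_one, map_zero] at h1
    exact absurd h1 (not_le.2 zero_lt_one)
  have hinv : x i₀ / x i ∈ P.toSubring := by
    have h1 := xcen_inv_mem P _ ((h₀.ne_iff _).1 hyi)
    rwa [inv_div] at h1
  have hsub : (cht k x i).toSubring ≤ P.toSubring := xg_sub P hne hi₀ hinv
  obtain ⟨ψ, h⟩ := xg_exists hcom hsub
  have hmem : ∀ j, ψ ⟨x j / x i, xcen_coord i j⟩ ∈ W := by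
    intro j
    have h1 : ψ ⟨x j / x i, xcen_coord i j⟩ * ψ₀ ⟨x i / x i₀, xcen_coord i₀ i⟩ =
        ψ₀ ⟨x j / x i₀, xcen_coord i₀ j⟩ := by
      rw [h.map _ (hsub (xcen_coord i j)), h₀.map _ (hi₀ (xcen_coord i₀ i)),
        h₀.map _ (hi₀ (xcen_coord i₀ j)), ← map_mul]
      congr 1
      apply Subtype.ext
      change x j / x i * (x i / x i₀) = x j / x i₀
      rw [div_mul_div_cancel₀ (hne i)]
    have h2 := hi j
    rw [← h1, map_mul] at h2
    have h3 : 0 < W.valuation (ψ₀ ⟨x i / x i₀, xcen_coord i₀ i⟩) := by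
      rw [Valuation.pos_iff]
      exact hyi
    rw [← ValuationSubring.valuation_le_one_iff]
    exact (mul_le_iff_le_one_left h3).1 h2
  obtain ⟨O, hO, hc, _⟩ := h.exists_cen hne hP hW (XGD.mem hW.2 hmem)
  exact ⟨O, hO, hc⟩

/-- Places over a closed point of the curve. -/
theorem xg_place_exists [IsAlgClosed k] (hne : ∀ i, x i ≠ 0)
    (hcom : ∀ (c : k) (h : algebraMap k F c ∈ P.toSubring),
      algebraMap k (Kap P) c = residue P.toSubring ⟨algebraMap k F c, h⟩)
    (hP : P ∈ Pts k x 1) {O : LocalSubring F} (hO : O ∈ Pts k x 0)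
    (hOP : O.toSubring ≤ P.toSubring) : ∃ W : ValuationSubring (Kap P), Place k W ∧ Cen O P W := by
  have hO' := hO
  obtain ⟨i, m, hm, hd, hOe⟩ := hO'
  have hi : (cht k x i).toSubring ≤ O.toSubring := by
    rw [hOe]
    exact LocalSubring.le_ofPrime _ m
  obtain ⟨ψ, h⟩ := xg_exists hcom (hi.trans hOP)
  let ρ : O.toSubring →+* Kap P := (residue P.toSubring).comp (Subring.inclusion hOP)
  let I : Ideal ρ.range := (maximalIdeal O.toSubring).map ρ.rangeRestrict
  have hI : ∀ b : ρ.range, b ∈ I → ∃ y ∈ maximalIdeal O.toSubring, ρ y = b := by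
    intro b hb
    obtain ⟨y, hy, hyb⟩ := (Ideal.mem_map_iff_of_surjective _ ρ.rangeRestrict_surjective).1 hb
    exact ⟨y, hy, congrArg Subtype.val hyb⟩
  have hItop : I ≠ ⊤ := by
    rw [Ideal.ne_top_iff_one]
    intro h1
    obtain ⟨y, hy, hy1⟩ := hI 1 h1
    have hy2 : residue P.toSubring ⟨y, hOP y.2⟩ = 1 := hy1
    have hu : IsUnit (1 - y) := by
      by_contra hcon
      have h2 : (1 - y) + y ∈ maximalIdeal O.toSubring := add_mem ((mem_maximalIdeal _).2 hcon) hy
      rw [sub_add_cancel] at h2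
      exact (Ideal.ne_top_iff_one _).1 (maximalIdeal.isMaximal _).ne_top h2
    have hu' : IsUnit (Subring.inclusion hOP (1 - y)) := hu.map _
    have h3 := (residue_ne_zero_iff_isUnit _).2 hu'
    apply h3
    rw [map_sub, map_one, map_sub, map_one]
    change 1 - residue P.toSubring ⟨y, hOP y.2⟩ = 0
    rw [hy2, sub_self]
  obtain ⟨W, hW1, hW2⟩ := Ideal.image_subset_nonunits_valuationSubring I hItop
  have hmemW : ∀ y : O.toSubring, ρ y ∈ W := fun y => hW1 ⟨y, rfl⟩
  have hmaxW : ∀ y ∈ maximalIdeal O.toSubring, W.valuation (ρ y) < 1 := by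
    intro y hy
    have h1 : ρ y ∈ W.nonunits := hW2 ⟨ρ.rangeRestrict y, Ideal.mem_map_of_mem _ hy, rfl⟩
    exact (ValuationSubring.mem_nonunits_iff W).1 h1
  have hunW : ∀ y : O.toSubring, IsUnit y → W.valuation (ρ y) = 1 := by
    intro y hy
    obtain ⟨z, hz⟩ := hy.exists_right_inv
    have h1 := (W.valuation_le_one_iff _).2 (hmemW y)
    have h2 := (W.valuation_le_one_iff _).2 (hmemW z)
    have h3 : W.valuation (ρ y) * W.valuation (ρ z) = 1 := by
      rw [← map_mul, ← map_mul, hz, map_one, map_one]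
    refine le_antisymm h1 ?_
    calc (1 : W.ValueGroup) = W.valuation (ρ y) * W.valuation (ρ z) := h3.symm
      _ ≤ W.valuation (ρ y) := mul_le_of_le_one_right' h2
  have hcen : Cen O P W := by
    refine ⟨hOP, fun y hy hy' => ⟨hmemW ⟨y, hy⟩, ?_⟩⟩
    constructor
    · exact hunW ⟨y, hy⟩
    · intro h1
      by_contra hcon
      exact (hmaxW ⟨y, hy⟩ ((mem_maximalIdeal _).2 hcon)).ne h1
  have hover : Over k W := by
    intro c
    have hcO : algebraMap k F c ∈ O.toSubring := hi ((cht k x i).algebraMap_mem c)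
    rw [hcom c (hOP hcO)]
    exact hmemW ⟨_, hcO⟩
  have hWtop : W ≠ ⊤ := by
    intro htop
    -- an element of the maximal ideal which is not zero on the curve
    have hmax := xg_max_of_pt hne hO hi
    have hle : ¬ XP_ker hi ≤ (XP_ker (hi.trans hOP) : Ideal (cht k x i).toSubring) := by
      intro hle
      have h1 : XP_ker hi = XP_ker (hi.trans hOP) :=
        hmax.eq_of_le (inferInstance : (XP_ker (hi.trans hOP)).IsPrime).ne_top hle
      have h2 := XP_chart_dim hne hO hi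
      have h3 := XP_chart_dim hne hP (hi.trans hOP)
      rw [h1, h3] at h2
      have h4 : (1 : ℕ) = 0 := by exact_mod_cast h2
      exact one_ne_zero h4
    obtain ⟨f, hf, hf'⟩ := SetLike.not_le_iff_exists.1 hle
    rw [XP_mem_ker] at hf
    rw [XP_mem_ker, not_not] at hf'
    have h1 := hmaxW ⟨f, hi f.2⟩ ((mem_maximalIdeal _).2 hf)
    have h2 : ρ ⟨f, hi f.2⟩ ≠ 0 := (residue_ne_zero_iff_isUnit _).2 hf'
    have h3 : (ρ ⟨f, hi f.2⟩)⁻¹ ∈ W := by
      rw [htop]
      exact ValuationSubring.mem_top _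
    rw [← ValuationSubring.valuation_le_one_iff, map_inv₀] at h3
    have h4 : 0 < W.valuation (ρ ⟨f, hi f.2⟩) := by
      rw [Valuation.pos_iff]
      exact h2
    exact absurd h1 (not_lt.2 ((inv_le_one₀ h4).1 h3))
  exact ⟨W, ⟨C1_dvr (h.fun1 hne hP) W hover hWtop, hover⟩, hcen⟩

/-- The valuation rings which contain the local ring of the curve. -/
theorem xg_locSub_iff [IsAlgClosed k] (hne : ∀ i, x i ≠ 0)
    (hcom : ∀ (c : k) (h : algebraMap k F c ∈ P.toSubring),
      algebraMap k (Kap P) c = residue P.toSubring ⟨algebraMap k F c, h⟩)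
    (hP : P ∈ Pts k x 1) {O : LocalSubring F} (hO : O ∈ Pts k x 0)
    (hOP : O.toSubring ≤ P.toSubring) {W : ValuationSubring (Kap P)} (hW : Place k W) :
    (∀ b ∈ locSub O P, b ∈ W) ↔ Cen O P W := by
  have hmem : ∀ b : Kap P, b ∈ locSub O P ↔ ∃ (y : F) (hy : y ∈ O.toSubring),
      residue P.toSubring ⟨y, hOP hy⟩ = b := by
    intro b
    constructor
    · rintro ⟨⟨y, hy⟩, hy', rfl⟩
      exact ⟨y, hy', rfl⟩
    · rintro ⟨y, hy, rfl⟩
      exact ⟨⟨y, hOP hy⟩, hy, rfl⟩
  constructor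
  · intro hB
    have hO' := hO
    obtain ⟨i, m, hm, hd, hOe⟩ := hO'
    have hi : (cht k x i).toSubring ≤ O.toSubring := by
      rw [hOe]
      exact LocalSubring.le_ofPrime _ m
    obtain ⟨ψ, h⟩ := xg_exists hcom (hi.trans hOP)
    have h1 : ∀ a, ψ a ∈ W := fun a => hB _ ((hmem _).2 ⟨a, hi a.2, (h.map a _).symm⟩)
    obtain ⟨m', hm', hc⟩ := exists_center (XP_fg i) (h.fun1 hne hP) ψ (h.gen hne hP) W hW h1
    have hle : m' ≤ (XP_ker hi : Ideal (cht k x i).toSubring) := by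
      intro s hs
      rw [XP_mem_ker]
      intro hu
      have h2 := xcen_inv_mem O (hi s.2) hu
      have h3 := hB _ ((hmem _).2 ⟨_, h2, rfl⟩)
      have h4 : ψ s * residue P.toSubring ⟨(s : F)⁻¹, hOP h2⟩ = 1 := by
        rw [h.map s (hOP (hi s.2)), ← map_mul, ← map_one (residue P.toSubring)]
        congr 1
        apply Subtype.ext
        change (s : F) * (s : F)⁻¹ = 1
        refine mul_inv_cancel₀ fun h0 => ?_
        have h5 : (⟨s, hi s.2⟩ : O.toSubring) = 0 := Subtype.ext h0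
        rw [h5] at hu
        exact not_isUnit_zero hu
      have h5 := ((hc s).2).1 hs
      have h6 := (W.valuation_le_one_iff _).2 h3
      have h7 : W.valuation (ψ s) * W.valuation (residue P.toSubring ⟨(s : F)⁻¹, hOP h2⟩) = 1 := by
        rw [← map_mul, h4, map_one]
      have h8 : W.valuation (ψ s) * W.valuation (residue P.toSubring ⟨(s : F)⁻¹, hOP h2⟩) < 1 :=
        mul_lt_one_of_lt_of_le h5 h6
      exact h8.ne h7
    have heq : m' = XP_ker hi := hm'.eq_of_le (inferInstance : (XP_ker hi).IsPrime).ne_top hle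
    have h2 := h.cen hm'.isPrime hc
    subst heq
    have h3 := xg_ofPrime hne hO hi
    rw [h3] at h2
    exact h2
  · intro hc b hb
    obtain ⟨y, hy, rfl⟩ := (hmem b).1 hb
    exact (hc.2 y hy (hOP hy)).1

end

end Pool.Agent.Lib.MP_b197b4_ntA
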