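import Mathlib
import Pool.Agent.Lib.MP_b197b4_ntA.XG2
import Pool.Agent.Lib.MP_b197b4_ntA.Deg
import Pool.Agent.Lib.MP_b197b4_ntA.LenOrd
import Pool.Agent.Lib.MP_b197b4_ntA.Base

/-!
# MP_b197b4_nt, project K1-ALL: from the places of the curves to the closed points
-/

set_option autoImplicit false

namespace Pool.Agent.Lib.MP_b197b4_ntA

open IsLocalRing Pool.Agent.Lib.MP_b197b4_ntK

variable {k : Type} {F : Type} [Field k] [Field F] [Algebra k F] {n : ℕ} {x : Fin (n + 1) → F}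

section

variable {P : LocalSubring F} [Algebra k (Kap P)]

theorem xg_mem_locSub {O : LocalSubring F} (hOP : O.toSubring ≤ P.toSubring) (b : Kap P) :
    b ∈ locSub O P ↔ ∃ (y : F) (hy : y ∈ O.toSubring), residue P.toSubring ⟨y, hOP hy⟩ = b := by
  constructor
  · rintro ⟨⟨y, hy⟩, hy', rfl⟩
    exact ⟨y, hy', rfl⟩
  · rintro ⟨y, hy, rfl⟩
    exact ⟨⟨y, hOP hy⟩, hy, rfl⟩

/-- The length is the sum of the orders at the places over the point. -/
theorem xg_len [IsAlgClosed k] (hne : ∀ i, x i ≠ 0)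
    (hcom : ∀ (c : k) (h : algebraMap k F c ∈ P.toSubring),
      algebraMap k (Kap P) c = residue P.toSubring ⟨algebraMap k F c, h⟩)
    (hP : P ∈ Pts k x 1) {O : LocalSubring F} (hO : O ∈ Pts k x 0)
    (hOP : O.toSubring ≤ P.toSubring) {u : Kap P} (hu : u ≠ 0) :
    len (locSub O P) u = ∑ᶠ (W : ValuationSubring (Kap P)) (_ : Place k W ∧ Cen O P W),
      ord W u := by
  have hO' := hO
  obtain ⟨i, m, hm, hd, hOe⟩ := hO'
  have hi : (cht k x i).toSubring ≤ O.toSubring := by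
    rw [hOe]
    exact LocalSubring.le_ofPrime _ m
  obtain ⟨ψ, h⟩ := xg_exists hcom (hi.trans hOP)
  have hψB : ∀ a, ψ a ∈ locSub O P := fun a =>
    (xg_mem_locSub hOP _).2 ⟨a, hi a.2, (h.map a _).symm⟩
  have hset : ∀ W : ValuationSubring (Kap P), (Place k W ∧ ∀ b ∈ locSub O P, b ∈ W) ↔
      (Place k W ∧ Cen O P W) := fun W =>
    and_congr_right fun hW => xg_locSub_iff hne hcom hP hO hOP hW
  have hfin : {W : ValuationSubring (Kap P) | Place k W ∧ ∀ b ∈ locSub O P, b ∈ W}.Finite := by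
    have hmax := xg_max_of_pt hne hO hi
    have hle : ¬ XP_ker hi ≤ (XP_ker (hi.trans hOP) : Ideal (cht k x i).toSubring) := by
      intro hle
      have h1 : XP_ker hi = XP_ker (hi.trans hOP) :=
        hmax.eq_of_le (inferInstance : (XP_ker (hi.trans hOP)).IsPrime).ne_top hle
      have h2 := XP_chart_dim hne hO hi
      have h3 := XP_chart_dim hne hP (hi.trans hOP)
      rw [h1, h3] at h2
      have h4 : (1 : ℕ) = 0 := by exact_mod_cast h2
      exact one_ne_zero h4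
    obtain ⟨f, hf, hf'⟩ := SetLike.not_le_iff_exists.1 hle
    have hf0 : ψ f ≠ 0 := by
      rw [XP_mem_ker, not_not] at hf'
      exact (h.ne_iff f).2 hf'
    refine (ord_finite (h.fun1 hne hP) (ψ f) hf0).subset ?_
    rintro W ⟨hW, hW'⟩
    refine ⟨hW, ?_⟩
    have hc := ((hset W).1 ⟨hW, hW'⟩).2
    have h1 := (h.center hi hc f).2.1 hf
    have h2 := (ord_pos_iff hW.1 hf0).2 h1
    exact h2.ne'
  rw [LO_curve (h.fun1 hne hP) (locSub O P) (fun c => ?_) (fun z => ?_) hfin hu]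
  · refine finsum_congr fun W => ?_
    exact finsum_congr_Prop (propext (hset W)) fun _ => rfl
  · have h1 : algebraMap k (Kap P) c = ψ (algebraMap k _ c) := (ψ.commutes c).symm
    rw [h1]
    exact hψB _
  · obtain ⟨a, b, hb, rfl⟩ := h.gen hne hP z
    exact ⟨⟨ψ a, hψB a⟩, ⟨ψ b, hψB b⟩, hb, rfl⟩

open Classical in
/-- The sum over the places is a sum over the points. -/
theorem xg_sum [IsAlgClosed k] (hP1 : Pic k) (hne : ∀ i, x i ≠ 0)
    (hcom : ∀ (c : k) (h : algebraMap k F c ∈ P.toSubring),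
      algebraMap k (Kap P) c = residue P.toSubring ⟨algebraMap k F c, h⟩)
    (hP : P ∈ Pts k x 1) (hF : FunF k (Kap P) 1) {lP : Kap P → ℚ}
    {hK : ValuationSubring (Kap P) → ℚ} (hg : GivenK k lP hK) {h : LocalSubring F → ℚ} {c : ℚ}
    (hh : ∀ W, Place k W → ∀ O ∈ Pts k x 0, Cen O P W → hK W = h O + c) {u : Kap P}
    (hu : u ≠ 0) :
    {O | O ∈ Pts k x 0 ∧ O.toSubring ≤ P.toSubring ∧ len (locSub O P) u ≠ 0}.Finite ∧
      lP u = ∑ᶠ (O : LocalSubring F) (_ : O ∈ Pts k x 0 ∧ O.toSubring ≤ P.toSubring),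
        h O * len (locSub O P) u := by
  have hfin := ord_finite hF u hu
  have hT : ∀ W, W ∈ hfin.toFinset ↔ Place k W ∧ ord W u ≠ 0 := fun W => by
    rw [Set.Finite.mem_toFinset]
    rfl
  have hex : ∀ W : ValuationSubring (Kap P), ∃ O : LocalSubring F, Place k W → O ∈ Pts k x 0 ∧
      Cen O P W := by
    intro W
    by_cases hW : Place k W
    · obtain ⟨O, h1, h2⟩ := xg_cen_exists hne hcom hP hW
      exact ⟨O, fun _ => ⟨h1, h2⟩⟩
    · exact ⟨P, fun h => absurd h hW⟩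
  choose cen hcen using hex
  have hlen : ∀ O, O ∈ Pts k x 0 → O.toSubring ≤ P.toSubring →
      len (locSub O P) u = ∑ W ∈ hfin.toFinset with cen W = O, ord W u := by
    intro O hO hOP
    rw [xg_len hne hcom hP hO hOP hu]
    refine finsum_mem_eq_sum_of_inter_support_eq (fun W => ord W u)
      (s := {W | Place k W ∧ Cen O P W}) ?_
    ext W
    simp only [Set.mem_inter_iff, Set.mem_ofPred_eq, Function.mem_support, Finset.coe_filter, hT]
    constructor
    · rintro ⟨⟨h1, h2⟩, h3⟩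
      exact ⟨⟨⟨h1, h3⟩, xcen_unique hne (hcen W h1).1 hO P W (hcen W h1).2 h2⟩, h3⟩
    · rintro ⟨⟨⟨h1, h2⟩, h3⟩, h4⟩
      refine ⟨⟨h1, ?_⟩, h4⟩
      rw [← h3]
      exact (hcen W h1).2
  have hsub : ∀ O, O ∈ Pts k x 0 → O.toSubring ≤ P.toSubring → len (locSub O P) u ≠ 0 →
      O ∈ hfin.toFinset.image cen := by
    intro O hO hOP h1
    rw [hlen O hO hOP] at h1
    obtain ⟨W, hW, _⟩ := Finset.exists_ne_zero_of_sum_ne_zero h1
    rw [Finset.mem_filter] at hW
    exact Finset.mem_image.2 ⟨W, hW.1, hW.2⟩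
  have himg : ∀ O ∈ hfin.toFinset.image cen, O ∈ Pts k x 0 ∧ O.toSubring ≤ P.toSubring := by
    intro O hO
    obtain ⟨W, hW, rfl⟩ := Finset.mem_image.1 hO
    have h1 := hcen W ((hT W).1 hW).1
    exact ⟨h1.1, h1.2.1⟩
  refine ⟨(hfin.toFinset.image cen).finite_toSet.subset fun O hO => ?_, ?_⟩
  · exact hsub O hO.1 hO.2.1 hO.2.2
  have e1 : lP u = ∑ W ∈ hfin.toFinset, hK W * ord W u := by
    rw [hg u hu]
    refine finsum_mem_eq_sum_of_inter_support_eq (fun W => hK W * (ord W u : ℚ))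
      (s := {W | Place k W}) ?_
    ext W
    simp only [Set.mem_inter_iff, Set.mem_ofPred_eq, Function.mem_support, Finset.mem_coe, hT]
    constructor
    · rintro ⟨h1, h2⟩
      refine ⟨⟨h1, fun h3 => h2 ?_⟩, h2⟩
      rw [h3, Int.cast_zero, mul_zero]
    · rintro ⟨⟨h1, _⟩, h3⟩
      exact ⟨h1, h3⟩
  have e2 : (0 : ℚ) = ∑ W ∈ hfin.toFinset, c * ord W u := by
    rw [← deg_formula_rat hP1 hF u hu c]
    refine finsum_mem_eq_sum_of_inter_support_eq (fun W => c * (ord W u : ℚ))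
      (s := {W | Place k W}) ?_
    ext W
    simp only [Set.mem_inter_iff, Set.mem_ofPred_eq, Function.mem_support, Finset.mem_coe, hT]
    constructor
    · rintro ⟨h1, h2⟩
      refine ⟨⟨h1, fun h3 => h2 ?_⟩, h2⟩
      rw [h3, Int.cast_zero, mul_zero]
    · rintro ⟨⟨h1, _⟩, h3⟩
      exact ⟨h1, h3⟩
  have e3 : ∑ᶠ (O : LocalSubring F) (_ : O ∈ Pts k x 0 ∧ O.toSubring ≤ P.toSubring),
        h O * (len (locSub O P) u : ℚ) =
      ∑ O ∈ hfin.toFinset.image cen, h O * (len (locSub O P) u : ℚ) := by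
    refine finsum_mem_eq_sum_of_inter_support_eq (fun O => h O * (len (locSub O P) u : ℚ))
      (s := {O | O ∈ Pts k x 0 ∧ O.toSubring ≤ P.toSubring}) ?_
    ext O
    simp only [Set.mem_inter_iff, Set.mem_ofPred_eq, Function.mem_support, Finset.mem_coe]
    constructor
    · rintro ⟨h1, h2⟩
      refine ⟨hsub O h1.1 h1.2 fun h3 => h2 ?_, h2⟩
      rw [h3, Int.cast_zero, mul_zero]
    · rintro ⟨h1, h2⟩
      exact ⟨himg O h1, h2⟩
  rw [e3]
  have e4 : lP u = ∑ W ∈ hfin.toFinset, h (cen W) * ord W u := by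
    have h1 : ∑ W ∈ hfin.toFinset, hK W * (ord W u : ℚ) =
        ∑ W ∈ hfin.toFinset, h (cen W) * (ord W u : ℚ) + ∑ W ∈ hfin.toFinset, c * (ord W u : ℚ) := by
      rw [← Finset.sum_add_distrib]
      refine Finset.sum_congr rfl fun W hW => ?_
      have h2 := ((hT W).1 hW).1
      rw [hh W h2 (cen W) (hcen W h2).1 (hcen W h2).2, add_mul]
    rw [e1, h1, ← e2, add_zero]
  rw [e4, ← Finset.sum_fiberwise_of_maps_to (g := cen) (t := hfin.toFinset.image cen)
    fun W hW => Finset.mem_image_of_mem cen hW]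
  refine Finset.sum_congr rfl fun O hO => ?_
  rw [hlen O (himg O hO).1 (himg O hO).2, Int.cast_sum, Finset.mul_sum]
  refine Finset.sum_congr rfl fun W hW => ?_
  rw [(Finset.mem_filter.1 hW).2]

end

/-- XB from the gluing. -/
theorem xg_exists_hX [IsAlgClosed k]
    (halg : ∃ p : ℕ, p.Prime ∧ ∀ a : k, ∃ m : ℕ, 0 < m ∧ a ^ p ^ m = a) (hne : ∀ i, x i ≠ 0)
    {l : ∀ P : LocalSubring F, Kap P → ℚ} (hl : FormsX k x l) {h : LocalSubring F → ℚ}
    (hglue : ∀ P ∈ Pts k x 1, ∀ hc : ∀ c : k, algebraMap k F c ∈ P.toSubring,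
      ∀ hK : ValuationSubring (Kap P) → ℚ, @GivenK k (Kap P) _ _ (XP_alg hc) (l P) hK →
        ∃ c : ℚ, ∀ W, @Place k (Kap P) _ _ (XP_alg hc) W → ∀ O ∈ Pts k x 0, Cen O P W →
          hK W = h O + c) :
    ∀ P ∈ Pts k x 1, ∀ u : Kap P, u ≠ 0 →
      {O | O ∈ Pts k x 0 ∧ O.toSubring ≤ P.toSubring ∧ len (locSub O P) u ≠ 0}.Finite ∧
      l P u = ∑ᶠ (O : LocalSubring F) (_ : O ∈ Pts k x 0 ∧ O.toSubring ≤ P.toSubring),
        h O * len (locSub O P) u := by
  intro P hP u hu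
  have hP' := hP
  obtain ⟨i, P₀, hP₀, hd, hPe⟩ := hP'
  have hi : (cht k x i).toSubring ≤ P.toSubring := by
    rw [hPe]
    exact LocalSubring.le_ofPrime _ P₀
  have hc : ∀ c : k, algebraMap k F c ∈ P.toSubring := XP_const hi
  let _ : Algebra k (Kap P) := XP_alg hc
  have hcom : ∀ (c : k) (h : algebraMap k F c ∈ P.toSubring),
      algebraMap k (Kap P) c = residue P.toSubring ⟨algebraMap k F c, h⟩ := fun c h => rfl
  obtain ⟨ψ, hψ⟩ := xg_exists hcom hi
  have hF := hψ.fun1 hne hP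
  obtain ⟨hK, hg⟩ := exists_given halg hF (l P) (hl.mul P hP)
  obtain ⟨c, hh⟩ := hglue P hP hc hK hg
  exact xg_sum (pic halg) hne hcom hP hF hg hh hu

end Pool.Agent.Lib.MP_b197b4_ntA
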