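import Pool.Agent.Lib.MP_b197b4_ntA.XCen
import Pool.Agent.Lib.MP_b197b4_ntD.Dim
import Pool.Agent.Lib.MP_b197b4_ntK.Curve

/-!
# MP_b197b4_nt (K1-ALL): the point of a surface
-/

set_option autoImplicit false

namespace Pool.Agent.Lib.MP_b197b4_ntA

open IsLocalRing Pool.Agent.Lib.MP_b197b4_ntK Pool.Agent.Lib.MP_b197b4_ntKD

/-- The residue field of the generic point of a subvariety. -/
theorem xiso_exists {F E : Type} [Field F] [Field E] (A : Subring F) (φ : A →+* E)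
    (hφ : ∀ e : E, ∃ a b : A, φ b ≠ 0 ∧ e = φ a / φ b) :
    ∃ (P₀ : Ideal A) (_ : P₀.IsPrime) (ε : Kap (LocalSubring.ofPrime A P₀) ≃+* E),
      (∀ a : A, a ∈ P₀ ↔ φ a = 0) ∧ ∀ a : A,
        ε (residue (LocalSubring.ofPrime A P₀).toSubring
          ⟨a, LocalSubring.le_ofPrime A P₀ a.2⟩) = φ a := by
  have hP : (RingHom.ker φ).IsPrime := RingHom.ker_isPrime φ
  refine ⟨RingHom.ker φ, hP, ?_⟩
  have hunit : ∀ y : (RingHom.ker φ).primeCompl, IsUnit (φ y) := by
    intro y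
    rw [isUnit_iff_ne_zero]
    intro h0
    exact y.2 h0
  obtain ⟨Φ, hΦ⟩ : ∃ Φ : (LocalSubring.ofPrime A (RingHom.ker φ)).toSubring →+* E,
      ∀ a : A, Φ ⟨a, LocalSubring.le_ofPrime A (RingHom.ker φ) a.2⟩ = φ a :=
    ⟨IsLocalization.lift (M := (RingHom.ker φ).primeCompl) hunit, fun a =>
      IsLocalization.lift_eq hunit a⟩
  -- every element is a fraction
  have hfrac : ∀ z : (LocalSubring.ofPrime A (RingHom.ker φ)).toSubring, ∃ a s : A,
      s ∉ RingHom.ker φ ∧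
        z * ⟨s, LocalSubring.le_ofPrime A (RingHom.ker φ) s.2⟩ =
          ⟨a, LocalSubring.le_ofPrime A (RingHom.ker φ) a.2⟩ := by
    intro z
    obtain ⟨a, s, hs, hz⟩ := (xcen_mem A (RingHom.ker φ) z).mp z.2
    refine ⟨a, s, hs, Subtype.ext ?_⟩
    change (z : F) * (s : F) = (a : F)
    rw [hz, div_mul_cancel₀ _ (xcen_ne A _ hs)]
  have hloc : IsLocalHom Φ := by
    constructor
    intro z hz
    obtain ⟨a, s, hs, hzs⟩ := hfrac z
    have h1 : Φ z * φ s = φ a := by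
      rw [← hΦ s, ← hΦ a, ← hzs, map_mul]
    have h2 : φ a ≠ 0 := by
      rw [← h1]
      exact mul_ne_zero hz.ne_zero hs
    have h3 := (xcen_unit A (RingHom.ker φ) a).mpr h2
    rw [← hzs] at h3
    exact isUnit_of_mul_isUnit_left h3
  have hbij : Function.Bijective (ResidueField.lift Φ) := by
    refine ⟨(ResidueField.lift Φ).injective, fun e => ?_⟩
    obtain ⟨a, b, hb, rfl⟩ := hφ e
    refine ⟨residue _ ⟨a, LocalSubring.le_ofPrime A (RingHom.ker φ) a.2⟩ /
      residue _ ⟨b, LocalSubring.le_ofPrime A (RingHom.ker φ) b.2⟩, ?_⟩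
    rw [map_div₀, ResidueField.lift_residue_apply, ResidueField.lift_residue_apply, hΦ, hΦ]
  refine ⟨RingEquiv.ofBijective (ResidueField.lift Φ) hbij, fun a => Iff.rfl, fun a => ?_⟩
  rw [RingEquiv.ofBijective_apply, ResidueField.lift_residue_apply, hΦ]

section Dim

variable {k : Type} {F : Type} [Field k] [Field F] [Algebra k F] {A : Subalgebra k F} {E : Type}
  [Field E] [Algebra k E] (φ : A →ₐ[k] E)

theorem xiso_frac (hφ : ∀ e : E, ∃ a b : A, φ b ≠ 0 ∧ e = φ a / φ b) :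
    IsFractionRing φ.range E := by
  refine IsFractionRing.of_field φ.range E fun e => ?_
  obtain ⟨a, b, hb, rfl⟩ := hφ e
  exact ⟨⟨φ a, ⟨a, rfl⟩⟩, ⟨φ b, ⟨b, rfl⟩⟩, rfl⟩

theorem xiso_fg (hA : A.FG) : φ.range.FG := by
  have h1 : Algebra.FiniteType k A := (Subalgebra.fg_iff_finiteType A).mp hA
  rw [Subalgebra.fg_iff_finiteType]
  exact Algebra.FiniteType.of_surjective φ.rangeRestrict φ.rangeRestrict_surjective

theorem xiso_hasDim (hA : A.FG) (hE : FunF k E 2)
    (hφ : ∀ e : E, ∃ a b : A, φ b ≠ 0 ∧ e = φ a / φ b) :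
    Pool.Agent.Lib.MP_b197b4_ntD.HasDim k φ.range 2 := by
  have h1 : Algebra.FiniteType k φ.range :=
    (Subalgebra.fg_iff_finiteType _).mp (xiso_fg φ hA)
  have hfr := xiso_frac φ hφ
  obtain ⟨s, hs⟩ := Pool.Agent.Lib.MP_b197b4_ntD.exists_hasDim k φ.range
  have h2 := hs.trdeg_frac E
  rw [hE.2] at h2
  have h3 : (2 : ℕ) = s := by exact_mod_cast h2
  rw [h3]
  exact hs

theorem xiso_dim_two (hA : A.FG) (hE : FunF k E 2)
    (hφ : ∀ e : E, ∃ a b : A, φ b ≠ 0 ∧ e = φ a / φ b) (P : Ideal A) (hP : ∀ a, a ∈ P ↔ φ a = 0) :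
    ringKrullDim (A ⧸ P) = (2 : ℕ) := by
  have h1 : Algebra.FiniteType k φ.range :=
    (Subalgebra.fg_iff_finiteType _).mp (xiso_fg φ hA)
  have hno : IsNoetherianRing φ.range := Algebra.FiniteType.isNoetherianRing k _
  have h2 := (xiso_hasDim φ hA hE hφ).ringKrullDim
  have h3 : P = RingHom.ker (φ.rangeRestrict : A →+* φ.range) := by
    ext a
    rw [hP, RingHom.mem_ker]
    exact ⟨fun h => Subtype.ext h, fun h => congrArg Subtype.val h⟩
  rw [h3, ← h2]
  exact ringKrullDim_eq_of_ringEquiv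
    (RingHom.quotientKerEquivOfSurjective φ.rangeRestrict_surjective)

theorem xiso_dim_one (hA : A.FG) (hE : FunF k E 2)
    (hφ : ∀ e : E, ∃ a b : A, φ b ≠ 0 ∧ e = φ a / φ b) {V : ValuationSubring E}
    (hV : IsCurve φ.range V) (P : Ideal A) (hP : ∀ a, a ∈ P ↔ res V (φ a) = 0) :
    P.IsPrime ∧ ringKrullDim (A ⧸ P) = (1 : ℕ) := by
  have h1 : Algebra.FiniteType k φ.range :=
    (Subalgebra.fg_iff_finiteType _).mp (xiso_fg φ hA)
  have hno : IsNoetherianRing φ.range := Algebra.FiniteType.isNoetherianRing k _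
  have hfr := xiso_frac φ hφ
  obtain ⟨P', hP', hPV⟩ := exists_primeOf hV.2.1
  have hht := hV.height hPV
  obtain ⟨h, t, e1, e2, e3⟩ := (xiso_hasDim φ hA hE hφ).quotient P'
  have e4 : t = 1 := by
    rw [hht] at e1
    have : (1 : ℕ) = h := by exact_mod_cast e1
    omega
  have e5 := e2.ringKrullDim
  rw [e4] at e5
  have hker : P = RingHom.ker ((Ideal.Quotient.mk P').comp (φ.rangeRestrict : A →+* φ.range)) := by
    ext a
    rw [hP, RingHom.mem_ker, RingHom.comp_apply, Ideal.Quotient.eq_zero_iff_mem]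
    rw [hPV]
    exact Pool.Agent.Lib.MP_b197b4_ntKD.res_eq_zero_iff (hV.2.1 _ ⟨a, rfl⟩)
  constructor
  · rw [hker]
    exact RingHom.ker_isPrime _
  · rw [hker, ← e5]
    exact ringKrullDim_eq_of_ringEquiv (RingHom.quotientKerEquivOfSurjective
      (Ideal.Quotient.mk_surjective.comp φ.rangeRestrict_surjective))

end Dim

end Pool.Agent.Lib.MP_b197b4_ntA
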