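import Pool.Agent.Lib.MP_b197b4_ntA.XSrf

/-!
# MP_b197b4_nt (K1-ALL): the forms of the charts
-/

set_option autoImplicit false

namespace Pool.Agent.Lib.MP_b197b4_ntA

open IsLocalRing Pool.Agent.Lib.MP_b197b4_ntK

section Eqv

variable {L E : Type} [Field L] [Field E] (ε : L ≃+* E)

theorem xlam_comap_symm (V : ValuationSubring E) :
    (V.comap (ε : L →+* E)).comap (ε.symm : E →+* L) = V := by
  ext y
  rw [ValuationSubring.mem_comap, ValuationSubring.mem_comap]
  change ε (ε.symm y) ∈ V ↔ y ∈ V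
  rw [ε.apply_symm_apply]

theorem xlam_symm_comap (V : ValuationSubring L) :
    (V.comap (ε.symm : E →+* L)).comap (ε : L →+* E) = V := by
  ext y
  rw [ValuationSubring.mem_comap, ValuationSubring.mem_comap]
  change ε.symm (ε y) ∈ V ↔ y ∈ V
  rw [ε.symm_apply_apply]

/-- Isomorphisms preserve discrete valuation rings and orders. -/
theorem xlam_dvr {V : ValuationSubring E} (hV : IsDiscreteValuationRing V) :
    IsDiscreteValuationRing (V.comap (ε : L →+* E)) ∧
      ∀ y : L, y ≠ 0 → ord V ((ε : L →+* E) y) = ord (V.comap (ε : L →+* E)) y := by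
  obtain ⟨π, hπ⟩ := IsDiscreteValuationRing.exists_irreducible V
  refine MP_b197b4_ntKD.dvr_between (ε : L →+* E) V hV (π := ε.symm (π : E)) ?_
  have h1 : (ε : L →+* E) (ε.symm (π : E)) = (π : E) := ε.apply_symm_apply _
  rw [h1, MP_b197b4_ntKD.ord_irr hπ]

theorem xlam_dvr' {V : ValuationSubring E}
    (hV : IsDiscreteValuationRing (V.comap (ε : L →+* E))) : IsDiscreteValuationRing V := by
  have h1 := (xlam_dvr ε.symm hV).1
  rwa [xlam_comap_symm] at h1

theorem xlam_rmap_surj (V : ValuationSubring E) :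
    Function.Surjective (MP_b197b4_ntKD.rmap (ε : L →+* E) V) := by
  intro c
  obtain ⟨y, hy, rfl⟩ := MP_b197b4_ntKD.res_surj c
  refine ⟨res _ (ε.symm y), ?_⟩
  rw [MP_b197b4_ntKD.rmap_res]
  congr 1
  exact ε.apply_symm_apply y

/-- The inverse of the isomorphism of the residue fields. -/
noncomputable def rinv (V : ValuationSubring E) (c : ResidueField V) :
    ResidueField (V.comap (ε : L →+* E)) := (xlam_rmap_surj ε V c).choose

theorem rmap_rinv (V : ValuationSubring E) (c : ResidueField V) :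
    MP_b197b4_ntKD.rmap (ε : L →+* E) V (rinv ε V c) = c := (xlam_rmap_surj ε V c).choose_spec

theorem rinv_rmap (V : ValuationSubring E) (c : ResidueField (V.comap (ε : L →+* E))) :
    rinv ε V (MP_b197b4_ntKD.rmap (ε : L →+* E) V c) = c :=
  (MP_b197b4_ntKD.rmap (ε : L →+* E) V).injective (rmap_rinv ε V _)

theorem rinv_mul (V : ValuationSubring E) (c d : ResidueField V) :
    rinv ε V (c * d) = rinv ε V c * rinv ε V d := by
  apply (MP_b197b4_ntKD.rmap (ε : L →+* E) V).injective
  rw [map_mul, rmap_rinv, rmap_rinv, rmap_rinv]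

theorem rinv_ne (V : ValuationSubring E) {c : ResidueField V} (hc : c ≠ 0) : rinv ε V c ≠ 0 := by
  intro h0
  apply hc
  rw [← rmap_rinv ε V c, h0, map_zero]

end Eqv

section Form

variable {k : Type} {F : Type} [Field k] [Field F] [Algebra k F] {n : ℕ} {E : Type} [Field E]

open Classical in
/-- The forms on the surface. -/
noncomputable def lsurf (k : Type) {F : Type} [Field k] [Field F] [Algebra k F] {n : ℕ}
    {E : Type} [Field E] (x : Fin (n + 1) → F) (l : ∀ P : LocalSubring F, Kap P → ℚ)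
    (O : LocalSubring F) (ε : Kap O ≃+* E) (V : ValuationSubring E) (c : ResidueField V) : ℚ :=
  if h : ∃ P ∈ Pts k x 1, Cen P O (V.comap (ε : Kap O →+* E)) then
    l h.choose (nrm h.choose O (V.comap (ε : Kap O →+* E)) (rinv ε V c)) else 0

variable {x : Fin (n + 1) → F} {l : ∀ P : LocalSubring F, Kap P → ℚ} {O : LocalSubring F}
  {ε : Kap O ≃+* E}

theorem lsurf_eq (hx : ∀ j, x j ≠ 0) {V : ValuationSubring E} {P : LocalSubring F}
    (hP : P ∈ Pts k x 1) (hc : Cen P O (V.comap (ε : Kap O →+* E))) (c : ResidueField V) :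
    lsurf k x l O ε V c = l P (nrm P O (V.comap (ε : Kap O →+* E)) (rinv ε V c)) := by
  unfold lsurf
  have h : ∃ P ∈ Pts k x 1, Cen P O (V.comap (ε : Kap O →+* E)) := ⟨P, hP, hc⟩
  rw [dif_pos h]
  obtain ⟨h1, h2⟩ := h.choose_spec
  have h3 : h.choose = P := xcen_unique hx h1 hP O _ h2 hc
  rw [h3]

theorem lsurf_eq_zero {V : ValuationSubring E}
    (h : ¬ ∃ P ∈ Pts k x 1, Cen P O (V.comap (ε : Kap O →+* E))) (c : ResidueField V) :
    lsurf k x l O ε V c = 0 := by
  unfold lsurf
  rw [dif_neg h]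

theorem FormsX.one (hl : FormsX k x l) {P : LocalSubring F} (hP : P ∈ Pts k x 1) : l P 1 = 0 := by
  have := hl.mul P hP 1 1 one_ne_zero one_ne_zero
  rw [mul_one] at this
  linarith

theorem FormsX.prod (hl : FormsX k x l) {P : LocalSubring F} (hP : P ∈ Pts k x 1) {ι : Type}
    (s : Finset ι) (f : ι → Kap P) (hf : ∀ i ∈ s, f i ≠ 0) :
    l P (∏ i ∈ s, f i) = ∑ i ∈ s, l P (f i) := by
  classical
  induction s using Finset.induction_on with
  | empty => simpa using hl.one hP
  | insert a s ha ih =>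
    rw [Finset.prod_insert ha, Finset.sum_insert ha, hl.mul P hP _ _
      (hf a (Finset.mem_insert_self _ _))
      (Finset.prod_ne_zero_iff.mpr fun i hi => hf i (Finset.mem_insert_of_mem hi)),
      ih fun i hi => hf i (Finset.mem_insert_of_mem hi)]

theorem lsurf_mul (hx : ∀ j, x j ≠ 0) (hl : FormsX k x l) (V : ValuationSubring E)
    (a b : ResidueField V) (ha : a ≠ 0) (hb : b ≠ 0) :
    lsurf k x l O ε V (a * b) = lsurf k x l O ε V a + lsurf k x l O ε V b := by
  by_cases h : ∃ P ∈ Pts k x 1, Cen P O (V.comap (ε : Kap O →+* E))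
  · obtain ⟨P, hP, hc⟩ := h
    rw [lsurf_eq hx hP hc, lsurf_eq hx hP hc, lsurf_eq hx hP hc, rinv_mul, nrm_mul,
      hl.mul P hP _ _ (nrm_ne _ _ _ (rinv_ne ε V ha)) (nrm_ne _ _ _ (rinv_ne ε V hb))]
  · rw [lsurf_eq_zero h, lsurf_eq_zero h, lsurf_eq_zero h, add_zero]

variable [Algebra k E] {i : Fin (n + 1)} {φ : cht k x i →ₐ[k] E}

/-- `V` is a divisorial valuation ring if its centre is a curve. -/
theorem Dat.isDiv (h : Dat x i φ O ε) {V : ValuationSubring E} (hV : IsDiscreteValuationRing V)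
    {P : LocalSubring F} (hP : P ∈ Pts k x 1) (hc : Cen P O (V.comap (ε : Kap O →+* E))) :
    IsDiv k V := by
  refine ⟨hV, h.over hP hc, ?_⟩
  by_contra hcon
  push Not at hcon
  obtain ⟨j, P₀, hP₀, hd, rfl⟩ := hP
  refine h.nonconst P₀ hd hc fun a ha => hcon _ ?_
  rw [cen_iff] at hc
  exact (hc.2 a (LocalSubring.le_ofPrime _ P₀ ha) _).1

/-- The reciprocity law on the surface. -/
theorem Dat.recip [IsAlgClosed k] (h : Dat x i φ O ε) (hE : FunF k E 2) (hO : O ∈ Pts k x 2)
    (hl : FormsX k x l) {f g : E} (hf : f ≠ 0) (hg : g ≠ 0) :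
    ∑ᶠ (V) (_ : IsDiv k V), lsurf k x l O ε V (tame V f g) = 0 := by
  classical
  have hf' : ε.symm f ≠ 0 := (map_ne_zero _).mpr hf
  have hg' : ε.symm g ≠ 0 := (map_ne_zero _).mpr hg
  have key := hl.recip ⟨O, (ε.symm f, ε.symm g)⟩ hO hf' hg'
  -- the curves at which `f` or `g` is not a unit
  obtain ⟨X, hX⟩ : ∃ X : Set (ValuationSubring E), X = {V : ValuationSubring E | IsDiscreteValuationRing V ∧
      (∃ P ∈ Pts k x 1, Cen P O (V.comap (ε : Kap O →+* E))) ∧ (ord V f ≠ 0 ∨ ord V g ≠ 0)} :=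
    ⟨_, rfl⟩
  have hXf : X.Finite := by
    refine ((h.finite hE hf).union (h.finite hE hg)).subset ?_
    rw [hX]
    rintro V ⟨h1, h2, h3 | h3⟩
    · exact Or.inl ⟨h1, h2, h3⟩
    · exact Or.inr ⟨h1, h2, h3⟩
  have htame : ∀ V : ValuationSubring E, IsDiscreteValuationRing V →
      MP_b197b4_ntKD.rmap (ε : Kap O →+* E) V
        (tame (V.comap (ε : Kap O →+* E)) (ε.symm f) (ε.symm g)) = tame V f g := by
    intro V hV
    rw [MP_b197b4_ntKD.rmap_tame _ V (xlam_dvr ε hV).2 hf' hg']
    congr 1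
    · exact ε.apply_symm_apply f
    · exact ε.apply_symm_apply g
  have htame' : ∀ V : ValuationSubring E, IsDiscreteValuationRing V →
      rinv ε V (tame V f g) = tame (V.comap (ε : Kap O →+* E)) (ε.symm f) (ε.symm g) := by
    intro V hV
    rw [← htame V hV, rinv_rmap]
  have hone : ∀ V : ValuationSubring E, ord V f = 0 → ord V g = 0 → tame V f g = 1 := by
    intro V h1 h2
    unfold tame
    rw [h1, h2]
    simp only [mul_zero, zpow_zero, mul_one, div_one]
    exact MP_b197b4_ntKD.res_one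
  -- the centres
  have hcen : ∀ V ∈ X, ∃ P, P ∈ Pts k x 1 ∧ Cen P O (V.comap (ε : Kap O →+* E)) := by
    intro V hV
    rw [hX] at hV
    obtain ⟨P, hP, hc⟩ := hV.2.1
    exact ⟨P, hP, hc⟩
  have : Nonempty (LocalSubring F) := ⟨O⟩
  choose! c hc1 hc2 using hcen
  -- the value of the form on the boundary
  have hbd : ∀ P ∈ Pts k x 1, l P (bd ⟨O, (ε.symm f, ε.symm g)⟩ P) =
      ∑ V ∈ hXf.toFinset with c V = P, lsurf k x l O ε V (tame V f g) := by
    intro P hP
    have e1 : bd ⟨O, (ε.symm f, ε.symm g)⟩ P = ∏ V ∈ hXf.toFinset with c V = P,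
        nrm P O (V.comap (ε : Kap O →+* E))
          (tame (V.comap (ε : Kap O →+* E)) (ε.symm f) (ε.symm g)) := by
      unfold bd
      have e2 : ∏ᶠ (V' : ValuationSubring (Kap O)) (_ : IsDiscreteValuationRing V' ∧ Cen P O V'),
          nrm P O V' (tame V' (ε.symm f) (ε.symm g)) =
          ∏ V' ∈ ((hXf.toFinset.filter fun V => c V = P).image
            fun V => V.comap (ε : Kap O →+* E)), nrm P O V' (tame V' (ε.symm f) (ε.symm g)) := by
        apply finprod_cond_eq_prod_of_cond_iff
        intro V' hne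
        rw [Finset.mem_image]
        constructor
        · rintro ⟨hd, hc⟩
          refine ⟨V'.comap (ε.symm : E →+* Kap O), ?_, xlam_symm_comap ε V'⟩
          have hd' : IsDiscreteValuationRing (V'.comap (ε.symm : E →+* Kap O)) :=
            (xlam_dvr ε.symm hd).1
          have hc' : Cen P O ((V'.comap (ε.symm : E →+* Kap O)).comap (ε : Kap O →+* E)) := by
            rw [xlam_symm_comap]
            exact hc
          have hmem : V'.comap (ε.symm : E →+* Kap O) ∈ X := by
            rw [hX]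
            refine ⟨hd', ⟨P, hP, hc'⟩, ?_⟩
            by_contra hcon
            push Not at hcon
            apply hne
            have h3 := htame' _ hd'
            rw [hone _ hcon.1 hcon.2] at h3
            have h4 : rinv ε (V'.comap (ε.symm : E →+* Kap O)) 1 = 1 := by
              apply (MP_b197b4_ntKD.rmap (ε : Kap O →+* E) _).injective
              rw [rmap_rinv, map_one]
            rw [h4] at h3
            rw [xlam_symm_comap] at h3
            rw [← h3, nrm_one]
          rw [Finset.mem_filter, Set.Finite.mem_toFinset]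
          exact ⟨hmem, xcen_unique h.ne (hc1 _ hmem) hP O _ (hc2 _ hmem) hc'⟩
        · rintro ⟨V, hV, rfl⟩
          rw [Finset.mem_filter, Set.Finite.mem_toFinset] at hV
          have h1 := hc2 V hV.1
          rw [hV.2] at h1
          have h2 := hV.1
          rw [hX] at h2
          exact ⟨(xlam_dvr ε h2.1).1, h1⟩
      rw [e2, Finset.prod_image]
      intro V _ W _ hVW
      have h1 := congrArg (fun U => U.comap (ε.symm : E →+* Kap O)) hVW
      simp only [xlam_comap_symm] at h1
      exact h1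
    rw [e1, hl.prod hP]
    · refine Finset.sum_congr rfl fun V hV => ?_
      rw [Finset.mem_filter, Set.Finite.mem_toFinset] at hV
      have h1 := hc2 V hV.1
      rw [hV.2] at h1
      have h2 := hV.1
      rw [hX] at h2
      rw [lsurf_eq h.ne hP h1, htame' V h2.1]
    · intro V hV
      rw [Finset.mem_filter, Set.Finite.mem_toFinset] at hV
      have h2 := hV.1
      rw [hX] at h2
      have := (xlam_dvr ε h2.1).1
      exact nrm_ne _ _ _ (MP_b197b4_ntKD.tame_ne hf' hg')
  -- the sum over the curves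
  have e1 : ∑ᶠ (P : LocalSubring F) (_ : P ∈ Pts k x 1),
      l P (bd ⟨O, (ε.symm f, ε.symm g)⟩ P) =
      ∑ P ∈ hXf.toFinset.image c, l P (bd ⟨O, (ε.symm f, ε.symm g)⟩ P) := by
    apply finsum_cond_eq_sum_of_cond_iff
    intro P hne
    rw [Finset.mem_image]
    constructor
    · intro hP
      rw [hbd P hP] at hne
      obtain ⟨V, hV, -⟩ := Finset.exists_ne_zero_of_sum_ne_zero hne
      rw [Finset.mem_filter] at hV
      exact ⟨V, hV.1, hV.2⟩
    · rintro ⟨V, hV, rfl⟩
      exact hc1 V (hXf.mem_toFinset.mp hV)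
  have e2 : ∑ᶠ (V) (_ : IsDiv k V), lsurf k x l O ε V (tame V f g) =
      ∑ V ∈ hXf.toFinset, lsurf k x l O ε V (tame V f g) := by
    apply finsum_cond_eq_sum_of_cond_iff
    intro V hne
    rw [Set.Finite.mem_toFinset, hX]
    constructor
    · intro hV
      have h1 : ∃ P ∈ Pts k x 1, Cen P O (V.comap (ε : Kap O →+* E)) := by
        by_contra hcon
        exact hne (lsurf_eq_zero hcon _)
      refine ⟨hV.1, h1, ?_⟩
      by_contra hcon
      push Not at hcon
      apply hne
      obtain ⟨P, hP, hc⟩ := h1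
      rw [hone V hcon.1 hcon.2, lsurf_eq h.ne hP hc]
      have h4 : rinv ε V 1 = 1 := by
        apply (MP_b197b4_ntKD.rmap (ε : Kap O →+* E) _).injective
        rw [rmap_rinv, map_one]
      rw [h4, nrm_one, hl.one hP]
    · rintro ⟨h1, ⟨P, hP, hc⟩, -⟩
      exact h.isDiv h1 hP hc
  rw [e2, ← key, e1]
  rw [← Finset.sum_fiberwise_of_maps_to (g := c) (t := hXf.toFinset.image c)
    (fun V hV => Finset.mem_image_of_mem c hV)]
  refine Finset.sum_congr rfl fun P hP => ?_
  obtain ⟨V, hV, rfl⟩ := Finset.mem_image.mp hP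
  rw [hbd _ (hc1 V (hXf.mem_toFinset.mp hV))]

end Form

end Pool.Agent.Lib.MP_b197b4_ntA
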