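import Mathlib
import Pool.Agent.Lib.MP_b197b4_ntA.XG1
import Pool.Agent.Lib.MP_b197b4_ntA.XRec
import Pool.Agent.Lib.MP_b197b4_ntA.XIso
import Pool.Agent.Lib.MP_b197b4_ntA.Cmp
import Pool.Agent.Lib.MP_b197b4_ntA.Cur2
import Pool.Agent.Lib.MP_b197b4_ntA.R2aux

/-!
# MP_b197b4_nt, project K1-ALL: the functions of the charts are glued
-/

set_option autoImplicit false
set_option linter.style.haveILetI false

namespace Pool.Agent.Lib.MP_b197b4_ntA

open IsLocalRing Pool.Agent.Lib.MP_b197b4_ntK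

section

variable {k : Type} {F : Type} [Field k] [Field F] [Algebra k F] {n : ℕ} {d : ℕ}
  {x : Fin (n + 1) → F}

theorem xga_reg (hx : Var k d x) (i : Fin (n + 1)) (m : Ideal (cht k x i)) (hm : m.IsMaximal) :
    RegMax m :=
  ⟨hm, fun _ => (hx.regular i).isRegularLocalRing_localization m⟩

theorem xga_dchart (hx : Var k d x) (i : Fin (n + 1)) : DChart d (cht k x i) where
  fg := Subalgebra.fg_def.2 ⟨_, Set.finite_range _, rfl⟩
  frac := hx.frac i
  height := hx.height i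

/-- Closed points are given by maximal ideals of the charts. -/
theorem xga_max (hne : ∀ i, x i ≠ 0) {O : LocalSubring F} (hO : O ∈ Pts k x 0) {i : Fin (n + 1)}
    (hi : (cht k x i).toSubring ≤ O.toSubring) :
    (XP_ker hi : Ideal (cht k x i).toSubring).IsMaximal := by
  have h1 : ringKrullDim ((cht k x i).toSubring ⧸ XP_ker hi) = (0 : ℕ) := XP_chart_dim hne hO hi
  have h2 : Ring.KrullDimLE 0 ((cht k x i).toSubring ⧸ XP_ker hi) := Ring.krullDimLE_iff.2 h1.le
  have h3 : IsField ((cht k x i).toSubring ⧸ XP_ker hi) := Ring.KrullDimLE.isField_of_isDomain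
  exact Ideal.Quotient.maximal_of_isField _ h3

/-- A maximal ideal of a chart gives a closed point. -/
theorem xga_pts {i : Fin (n + 1)} (m : Ideal (cht k x i).toSubring) (hm : m.IsMaximal)
    (hp : m.IsPrime) : @LocalSubring.ofPrime F _ (cht k x i).toSubring m hp ∈ Pts k x 0 := by
  refine ⟨i, m, hp, ?_, rfl⟩
  have h1 := ringKrullDim_eq_zero_of_isField ((Ideal.Quotient.maximal_ideal_iff_isField_quotient m).1 hm)
  rw [h1]
  rfl

/-- The values at the closed points of a curve, in one chart. -/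
theorem xga_diff (hx : Var k d x) {l : ∀ P : LocalSubring F, Kap P → ℚ} (hl : FormsX k x l)
    {i : Fin (n + 1)} {h : Ideal (cht k x i) → ℚ} (hh : GAll k (cht k x i) (lch k x l i) h)
    {P : LocalSubring F} (hP : P ∈ Pts k x 1) [Algebra k (Kap P)]
    (hcom : ∀ (c : k) (h : algebraMap k F c ∈ P.toSubring),
      algebraMap k (Kap P) c = residue P.toSubring ⟨algebraMap k F c, h⟩)
    {hK : ValuationSubring (Kap P) → ℚ} (hg : GivenK k (l P) hK) {O O' : LocalSubring F}
    (hO : O ∈ Pts k x 0) (hO' : O' ∈ Pts k x 0) (hi : (cht k x i).toSubring ≤ O.toSubring)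
    (hi' : (cht k x i).toSubring ≤ O'.toSubring) {W W' : ValuationSubring (Kap P)}
    (hW : Place k W) (hW' : Place k W') (hc : Cen O P W) (hc' : Cen O' P W') :
    hK W - hK W' = h (XP_ker hi) - h (XP_ker hi') := by
  obtain ⟨ψ, hψ⟩ := xg_exists hcom (hi.trans hc.1)
  exact hh (Kap P) ψ (l P) hK (hψ.curveK hx.ne hP hl hg) W W' _ _ hW hW'
    (xga_reg hx i _ (xga_max hx.ne hO hi)) (xga_reg hx i _ (xga_max hx.ne hO' hi'))
    (hψ.center hi hc) (hψ.center hi' hc')

/-- A curve through two closed points of a chart. -/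
theorem xga_through [IsAlgClosed k] (hd : 2 ≤ d) (hx : Var k d x) {i : Fin (n + 1)}
    {O O' : LocalSubring F} (hO : O ∈ Pts k x 0) (hO' : O' ∈ Pts k x 0)
    (hi : (cht k x i).toSubring ≤ O.toSubring) (hi' : (cht k x i).toSubring ≤ O'.toSubring)
    (hne : O ≠ O') : ∃ P ∈ Pts k x 1, ∃ hc : ∀ c : k, algebraMap k F c ∈ P.toSubring,
      ∃ W W' : ValuationSubring (Kap P), @Place k (Kap P) _ _ (XP_alg hc) W ∧
        @Place k (Kap P) _ _ (XP_alg hc) W' ∧ Cen O P W ∧ Cen O' P W' := by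
  classical
  have hmax : (XP_ker hi : Ideal (cht k x i)).IsMaximal := xga_max hx.ne hO hi
  have hmax' : (XP_ker hi' : Ideal (cht k x i)).IsMaximal := xga_max hx.ne hO' hi'
  have e1 := xg_ofPrime hx.ne hO hi
  have e2 := xg_ofPrime hx.ne hO' hi'
  have hmm : (XP_ker hi' : Ideal (cht k x i)) ≠ XP_ker hi := by
    intro h0
    apply hne
    rw [← e1, ← e2]
    congr 1
    exact h0.symm
  obtain ⟨z, hz, hz2⟩ := cmp_unif' hd (xga_dchart hx i) _ hmax
  obtain ⟨z', hz', hz2'⟩ := cmp_unif' hd (xga_dchart hx i) _ hmax'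
  obtain ⟨K, _, _, ψ, hK, hψ, hM, -⟩ := exists_curveK hd (xga_dchart hx i)
    {(XP_ker hi : Ideal (cht k x i)), XP_ker hi'} ∅
    (fun I => if I = XP_ker hi then z else z') (by
      intro I hI
      rw [Finset.mem_insert, Finset.mem_singleton] at hI
      rcases hI with rfl | rfl
      · rw [if_pos rfl]
        exact ⟨xga_reg hx i _ hmax, hz, hz2⟩
      · rw [if_neg hmm]
        exact ⟨xga_reg hx i _ hmax', hz', hz2'⟩) (by simp) (by simp)
  obtain ⟨W, hW, hc, -, -⟩ := hM (XP_ker hi) (by simp)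
  obtain ⟨W', hW', hc', -, -⟩ := hM (XP_ker hi') (by simp)
  obtain ⟨P₀, hP₀, ε, h1, h2⟩ := xiso_exists (cht k x i).toSubring (ψ : cht k x i →+* K) hψ
  have hker : (P₀ : Ideal (cht k x i)) = RingHom.ker ψ := by
    ext a
    rw [RingHom.mem_ker]
    exact h1 a
  have hdim : ringKrullDim ((cht k x i).toSubring ⧸ P₀) = (1 : ℕ) := by
    have h3 := cmp_dim (xga_dchart hx i).fg hK ψ hψ
    rw [← hker] at h3
    exact_mod_cast h3
  refine ⟨LocalSubring.ofPrime (cht k x i).toSubring P₀, ⟨i, P₀, hP₀, hdim, rfl⟩,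
    XP_const (k := k) (x := x) (i := i) (LocalSubring.le_ofPrime _ _), ?_⟩
  letI : Algebra k (Kap (LocalSubring.ofPrime (cht k x i).toSubring P₀)) :=
    XP_alg (XP_const (k := k) (x := x) (i := i) (LocalSubring.le_ofPrime _ P₀))
  obtain ⟨φ, hφ⟩ := xg_exists (k := k) (x := x) (i := i)
    (P := LocalSubring.ofPrime (cht k x i).toSubring P₀) (fun c h => rfl)
    (LocalSubring.le_ofPrime _ P₀)
  have key : ∀ a : cht k x i, ε (φ a) = ψ a := by
    intro a
    rw [hφ.map a (hφ.sub a.2)]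
    exact h2 a
  have hpl : ∀ V : ValuationSubring K, Place k V →
      Place k (V.comap (ε : Kap (LocalSubring.ofPrime (cht k x i).toSubring P₀) →+* K)) := by
    intro V hV
    refine ⟨(xlam_dvr ε hV.1).1, fun c => ?_⟩
    rw [ValuationSubring.mem_comap]
    have h3 : algebraMap k (Kap (LocalSubring.ofPrime (cht k x i).toSubring P₀)) c =
        φ (algebraMap k _ c) := (φ.commutes c).symm
    rw [h3]
    change ε (φ (algebraMap k _ c)) ∈ V
    rw [key, ψ.commutes]
    exact hV.2 c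
  have hce : ∀ (V : ValuationSubring K) (I : Ideal (cht k x i)), CenterK ψ V I → CenterK φ
      (V.comap (ε : Kap (LocalSubring.ofPrime (cht k x i).toSubring P₀) →+* K)) I := by
    intro V I hVI a
    have h3 := hVI a
    rw [← key a] at h3
    refine ⟨ValuationSubring.mem_comap.2 h3.1, ?_⟩
    rw [MP_b197b4_ntKD.comap_lt_one]
    exact h3.2
  refine ⟨_, _, hpl W hW, hpl W' hW', ?_, ?_⟩
  · have h3 := hφ.cen hmax.isPrime (hce W _ hc)
    have e3 : @LocalSubring.ofPrime F _ (cht k x i).toSubring (XP_ker hi) hmax.isPrime = O := e1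
    rw [e3] at h3
    exact h3
  · have h3 := hφ.cen hmax'.isPrime (hce W' _ hc')
    have e3 : @LocalSubring.ofPrime F _ (cht k x i).toSubring (XP_ker hi') hmax'.isPrime = O' := e2
    rw [e3] at h3
    exact h3

/-- The functions of two charts differ by a constant. -/
theorem xga_const [IsAlgClosed k] (halg : ∃ p : ℕ, p.Prime ∧ ∀ a : k, ∃ m : ℕ, 0 < m ∧ a ^ p ^ m = a)
    (hd : 2 ≤ d) (hx : Var k d x) {l : ∀ P : LocalSubring F, Kap P → ℚ} (hl : FormsX k x l)
    {i j : Fin (n + 1)} {h : Ideal (cht k x i) → ℚ} (hh : GAll k (cht k x i) (lch k x l i) h)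
    {h' : Ideal (cht k x j) → ℚ} (hh' : GAll k (cht k x j) (lch k x l j) h')
    {O O' : LocalSubring F} (hO : O ∈ Pts k x 0) (hO' : O' ∈ Pts k x 0)
    (hi : (cht k x i).toSubring ≤ O.toSubring) (hi' : (cht k x i).toSubring ≤ O'.toSubring)
    (hj : (cht k x j).toSubring ≤ O.toSubring) (hj' : (cht k x j).toSubring ≤ O'.toSubring) :
    h (XP_ker hi) - h (XP_ker hi') = h' (XP_ker hj) - h' (XP_ker hj') := by
  by_cases e : O = O'
  · subst e
    rw [sub_self, sub_self]
  · obtain ⟨P, hP, hc, W, W', hW, hW', hcW, hcW'⟩ := xga_through hd hx hO hO' hi hi' e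
    letI := XP_alg hc
    obtain ⟨ψ, hψ⟩ := xg_exists (P := P) (fun c h => rfl) (hi.trans hcW.1)
    obtain ⟨hK, hg⟩ := exists_given halg (hψ.fun1 hx.ne hP) (l P) (hl.mul P hP)
    rw [← xga_diff hx hl hh hP (fun c h => rfl) hg hO hO' hi hi' hW hW' hcW hcW',
      ← xga_diff hx hl hh' hP (fun c h => rfl) hg hO hO' hj hj' hW hW' hcW hcW']

/-- A point with `x i / x j` in its local ring. -/
theorem xga_sub (hne : ∀ i, x i ≠ 0) {O : LocalSubring F} {i j : Fin (n + 1)}
    (hi : (cht k x i).toSubring ≤ O.toSubring) (hij : x i / x j ∈ O.toSubring) :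
    (cht k x j).toSubring ≤ O.toSubring := by
  intro y hy
  have hy' : y ∈ cht k x j := hy
  unfold cht at hy'
  induction hy' using Algebra.adjoin_induction with
  | mem y h =>
    obtain ⟨l, rfl⟩ := h
    have h1 : x l / x j = x l / x i * (x i / x j) := by
      rw [div_mul_div_cancel₀ (hne i)]
    change x l / x j ∈ O.toSubring
    rw [h1]
    exact mul_mem (hi (XP_gen i l)) hij
  | algebraMap c => exact XP_const hi c
  | add a b ha hb iha ihb => exact add_mem (iha ha) (ihb hb)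
  | mul a b ha hb iha ihb => exact mul_mem (iha ha) (ihb hb)

theorem xga_sub' (hne : ∀ i, x i ≠ 0) {i j : Fin (n + 1)} (m : Ideal (cht k x i).toSubring)
    (hm : m.IsPrime) (hj : (⟨x j / x i, XP_gen i j⟩ : (cht k x i).toSubring) ∉ m) :
    (cht k x j).toSubring ≤ (@LocalSubring.ofPrime F _ (cht k x i).toSubring m hm).toSubring := by
  refine xga_sub hne (@LocalSubring.le_ofPrime F _ (cht k x i).toSubring m hm) ?_
  have h1 := (@xcen_unit F _ (cht k x i).toSubring m hm _).2 hj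
  have h2 := xcen_inv_mem _ _ h1
  rwa [inv_div] at h2

/-- A closed point in all charts. -/
theorem xga_base (hx : Var k d x) :
    ∃ O ∈ Pts k x 0, ∀ i, (cht k x i).toSubring ≤ O.toSubring := by
  have hft : Algebra.FiniteType k (cht k x 0) := (Subalgebra.fg_iff_finiteType _).1 (XP_fg 0)
  have hjac : IsJacobsonRing (cht k x 0) := isJacobsonRing_of_finiteType (A := k)
  let f : cht k x 0 := ∏ j, ⟨x j / x 0, XP_gen 0 j⟩
  have hf : f ≠ 0 := by
    refine Finset.prod_ne_zero_iff.2 fun j _ h0 => ?_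
    have h1 : x j / x 0 = 0 := congrArg Subtype.val h0
    exact div_ne_zero (hx.ne j) (hx.ne 0) h1
  obtain ⟨m, hm, hfm⟩ : ∃ m : Ideal (cht k x 0), m.IsMaximal ∧ f ∉ m := by
    by_contra hcon
    push Not at hcon
    have h1 : (⊥ : Ideal (cht k x 0)).jacobson = ⊥ := by
      have h2 : (⊥ : Ideal (cht k x 0)).IsRadical := Ideal.isPrime_bot.isRadical
      exact IsJacobsonRing.out inferInstance h2
    have h3 : f ∈ (⊥ : Ideal (cht k x 0)).jacobson := by
      unfold Ideal.jacobson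
      rw [Submodule.mem_sInf]
      rintro m ⟨-, hm⟩
      exact hcon m hm
    rw [h1] at h3
    exact hf h3
  refine ⟨@LocalSubring.ofPrime F _ (cht k x 0).toSubring m hm.isPrime,
    xga_pts m hm hm.isPrime, fun j => xga_sub' hx.ne m hm.isPrime fun h0 => hfm ?_⟩
  exact Ideal.mem_of_dvd _ (Finset.dvd_prod_of_mem _ (Finset.mem_univ j)) h0

/-- A place with its centre in two charts. -/
theorem xga_mid [IsAlgClosed k] (hx : Var k d x) {P : LocalSubring F} (hP : P ∈ Pts k x 1)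
    [Algebra k (Kap P)] (hcom : ∀ (c : k) (h : algebraMap k F c ∈ P.toSubring),
      algebraMap k (Kap P) c = residue P.toSubring ⟨algebraMap k F c, h⟩) {i j : Fin (n + 1)}
    (hi : (cht k x i).toSubring ≤ P.toSubring) (hj : (cht k x j).toSubring ≤ P.toSubring) :
    ∃ W : ValuationSubring (Kap P), Place k W ∧ ∃ O ∈ Pts k x 0, Cen O P W ∧
      (cht k x i).toSubring ≤ O.toSubring ∧ (cht k x j).toSubring ≤ O.toSubring := by
  obtain ⟨ψ, hψ⟩ := xg_exists hcom hi
  obtain ⟨φ, hφ⟩ := xg_exists hcom hj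
  have hK := hψ.fun1 hx.ne hP
  have h1 := finite_infinity (XP_fg i) ψ (ord_finite hK)
  have h2 := finite_infinity (XP_fg j) φ (ord_finite hK)
  obtain ⟨W, hW, hW'⟩ := (places_infinite hK).exists_notMem_finite (h1.union h2)
  have hWψ : ∀ a, ψ a ∈ W := by
    by_contra h0
    exact hW' (Or.inl ⟨hW, h0⟩)
  have hWφ : ∀ a, φ a ∈ W := by
    by_contra h0
    exact hW' (Or.inr ⟨hW, h0⟩)
  obtain ⟨m, hm, hc⟩ := exists_center (XP_fg i) hK ψ (hψ.gen hx.ne hP) W hW hWψ
  refine ⟨W, hW, @LocalSubring.ofPrime F _ (cht k x i).toSubring m hm.isPrime,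
    xga_pts m hm hm.isPrime, hψ.cen hm.isPrime hc,
    @LocalSubring.le_ofPrime F _ (cht k x i).toSubring m hm.isPrime,
    xga_sub' hx.ne m hm.isPrime fun h0 => ?_⟩
  have h3 : W.valuation (ψ ⟨x j / x i, XP_gen i j⟩) < 1 := (hc _).2.1 h0
  have h4 : ψ ⟨x j / x i, XP_gen i j⟩ * φ ⟨x i / x j, XP_gen j i⟩ = 1 := by
    rw [hψ.map _ (hi (XP_gen i j)), hφ.map _ (hj (XP_gen j i)), ← map_mul,
      ← map_one (residue P.toSubring)]
    congr 1
    apply Subtype.ext
    change x j / x i * (x i / x j) = 1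
    rw [div_mul_div_cancel₀ (hx.ne i), div_self (hx.ne j)]
  have h5 := (W.valuation_le_one_iff _).2 (hWφ ⟨x i / x j, XP_gen j i⟩)
  have h6 := congrArg W.valuation h4
  rw [map_mul, map_one] at h6
  exact (mul_lt_one_of_lt_of_le h3 h5).ne h6

/-- **XGlA**: the functions of the charts are glued. -/
theorem xga_glue [IsAlgClosed k] (halg : ∃ p : ℕ, p.Prime ∧ ∀ a : k, ∃ m : ℕ, 0 < m ∧ a ^ p ^ m = a)
    (hd : 2 ≤ d) (hx : Var k d x) {l : ∀ P : LocalSubring F, Kap P → ℚ} (hl : FormsX k x l)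
    (hG : ∀ i, ∃ h, GAll k (cht k x i) (lch k x l i) h) :
    ∃ h : LocalSubring F → ℚ, ∀ P ∈ Pts k x 1, ∀ (_ : Algebra k (Kap P))
      (_ : ∀ (c : k) (h : algebraMap k F c ∈ P.toSubring),
        algebraMap k (Kap P) c = residue P.toSubring ⟨algebraMap k F c, h⟩)
      (hK : ValuationSubring (Kap P) → ℚ), GivenK k (l P) hK →
      ∃ c : ℚ, ∀ W : ValuationSubring (Kap P), Place k W → ∀ O ∈ Pts k x 0, Cen O P W →
        hK W = h O + c := by
  classical
  choose h hh using hG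
  obtain ⟨O₀, hO₀, hall⟩ := xga_base hx
  let H : LocalSubring F → ℚ := fun O =>
    if e : ∃ i, (cht k x i).toSubring ≤ O.toSubring then
      h e.choose (XP_ker e.choose_spec) - h e.choose (XP_ker (hall e.choose)) else 0
  have hH : ∀ O ∈ Pts k x 0, ∀ i (hi : (cht k x i).toSubring ≤ O.toSubring),
      H O = h i (XP_ker hi) - h i (XP_ker (hall i)) := by
    intro O hO i hi
    have e : ∃ i, (cht k x i).toSubring ≤ O.toSubring := ⟨i, hi⟩
    have h1 : H O = h e.choose (XP_ker e.choose_spec) - h e.choose (XP_ker (hall e.choose)) :=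
      dif_pos e
    rw [h1]
    exact xga_const halg hd hx hl (hh e.choose) (hh i) hO hO₀ e.choose_spec (hall e.choose) hi
      (hall i)
  refine ⟨H, fun P hP _ hcom hK hg => ?_⟩
  by_cases hex : ∃ W : ValuationSubring (Kap P), Place k W ∧ ∃ O ∈ Pts k x 0, Cen O P W
  · obtain ⟨W₁, hW₁, O₁, hO₁, hc₁⟩ := hex
    refine ⟨hK W₁ - H O₁, fun W hW O hO hc => ?_⟩
    obtain ⟨i, I, hI, _, rfl⟩ := id hO
    obtain ⟨j, J, hJ, _, rfl⟩ := id hO₁
    have hi : (cht k x i).toSubring ≤ (LocalSubring.ofPrime _ I).toSubring :=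
      LocalSubring.le_ofPrime _ _
    have hj : (cht k x j).toSubring ≤ (LocalSubring.ofPrime _ J).toSubring :=
      LocalSubring.le_ofPrime _ _
    obtain ⟨W₂, hW₂, O₂, hO₂, hc₂, hi₂, hj₂⟩ := xga_mid hx hP hcom (hi.trans hc.1) (hj.trans hc₁.1)
    have h1 := xga_diff hx hl (hh i) hP hcom hg hO hO₂ hi hi₂ hW hW₂ hc hc₂
    have h2 := xga_diff hx hl (hh j) hP hcom hg hO₁ hO₂ hj hj₂ hW₁ hW₂ hc₁ hc₂
    rw [hH _ hO i hi, hH _ hO₁ j hj]
    have h3 := hH _ hO₂ i hi₂
    have h4 := hH _ hO₂ j hj₂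
    linarith
  · refine ⟨0, fun W hW O hO hc => absurd ⟨W, hW, O, hO, hc⟩ hex⟩

end

end Pool.Agent.Lib.MP_b197b4_ntA
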