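import Mathlib
import Pool.Agent.Lib.MP_b197b4_ntA.XGlA
import Pool.Agent.Lib.MP_b197b4_ntA.XG3

/-!
# MP_b197b4_nt, project K1-ALL: the functions of the charts are glued, and the forms of the curves
are given by a function on the closed points
-/

set_option autoImplicit false

namespace Pool.Agent.Lib.MP_b197b4_ntA

open IsLocalRing Pool.Agent.Lib.MP_b197b4_ntK

section

variable {k : Type} {F : Type} [Field k] [IsAlgClosed k] [Field F] [Algebra k F] {n : ℕ} {d : ℕ}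

/-- XB: gluing. -/
theorem exists_hX (halg : ∃ p : ℕ, p.Prime ∧ ∀ a : k, ∃ m : ℕ, 0 < m ∧ a ^ p ^ m = a)
    (hd : 2 ≤ d) {x : Fin (n + 1) → F} (hx : Var k d x)
    {l : ∀ P : LocalSubring F, Kap P → ℚ} (hl : FormsX k x l)
    (hG : ∀ i, ∃ h, GAll k (cht k x i) (lch k x l i) h) :
    ∃ h : LocalSubring F → ℚ, ∀ P ∈ Pts k x 1, ∀ u : Kap P, u ≠ 0 →
      {O | O ∈ Pts k x 0 ∧ O.toSubring ≤ P.toSubring ∧ len (locSub O P) u ≠ 0}.Finite ∧
      l P u = ∑ᶠ (O : LocalSubring F) (_ : O ∈ Pts k x 0 ∧ O.toSubring ≤ P.toSubring),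
        h O * len (locSub O P) u := by
  obtain ⟨h, hglue⟩ := xga_glue halg hd hx hl hG
  exact ⟨h, xg_exists_hX halg hx.ne hl fun P hP hc hK hg =>
    hglue P hP (XP_alg hc) (fun c hc' => rfl) hK hg⟩

end

end Pool.Agent.Lib.MP_b197b4_ntA
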