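import Pool.Agent.Lib.MP_b197b4_ntA.XRec

/-!
# MP_b197b4_nt (K1-ALL): the forms of the charts
-/

set_option autoImplicit false

namespace Pool.Agent.Lib.MP_b197b4_ntA

open IsLocalRing Pool.Agent.Lib.MP_b197b4_ntK

variable {k : Type} {F : Type} [Field k] [Field F] [Algebra k F] {n : ℕ} {d : ℕ}
  {x : Fin (n + 1) → F} {i : Fin (n + 1)}

theorem xlam_fg : (cht k x i).FG := Subalgebra.fg_def.mpr ⟨_, Set.finite_range _, rfl⟩

theorem lch_eq (l : ∀ P : LocalSubring F, Kap P → ℚ) (P : Ideal (cht k x i)) (hP : P.IsPrime)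
    (a : cht k x i) : lch k x l i P a =
      l (@LocalSubring.ofPrime F _ (cht k x i).toSubring P hP)
        (residue _ ⟨a, @LocalSubring.le_ofPrime F _ (cht k x i).toSubring P hP a.1 a.2⟩) := by
  unfold lch
  rw [dif_pos hP]

theorem xlam_res_ne (P : Ideal (cht k x i)) (hP : P.IsPrime) {a : cht k x i} (ha : a ∉ P) :
    residue (@LocalSubring.ofPrime F _ (cht k x i).toSubring P hP).toSubring
      ⟨a, @LocalSubring.le_ofPrime F _ (cht k x i).toSubring P hP a.1 a.2⟩ ≠ 0 := by
  rw [residue_ne_zero_iff_isUnit]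
  exact (@xcen_unit F _ (cht k x i).toSubring P hP a).mpr ha

theorem xlam_mul {l : ∀ P : LocalSubring F, Kap P → ℚ} (hl : FormsX k x l) (P : Ideal (cht k x i))
    (hP : P.IsPrime) (hd : ringKrullDim (cht k x i ⧸ P) = 1) (a b : cht k x i) (ha : a ∉ P)
    (hb : b ∉ P) : lch k x l i P (a * b) = lch k x l i P a + lch k x l i P b := by
  rw [lch_eq l P hP, lch_eq l P hP, lch_eq l P hP]
  have h1 := hl.mul (@LocalSubring.ofPrime F _ (cht k x i).toSubring P hP)
    ⟨i, P, hP, by exact_mod_cast hd, rfl⟩ _ _ (xlam_res_ne P hP ha) (xlam_res_ne P hP hb)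
  rw [← h1]
  congr 1

theorem xlam_cong {l : ∀ P : LocalSubring F, Kap P → ℚ} (P : Ideal (cht k x i)) (hP : P.IsPrime)
    (a b : cht k x i) (hab : a - b ∈ P) : lch k x l i P a = lch k x l i P b := by
  rw [lch_eq l P hP, lch_eq l P hP]
  congr 1
  rw [← sub_eq_zero, ← map_sub]
  by_contra hcon
  have h1 := (residue_ne_zero_iff_isUnit _).mp hcon
  exact (@xcen_unit F _ (cht k x i).toSubring P hP (a - b)).mp h1 hab

/-- XA: the forms of the charts. -/
theorem lam_chart [IsAlgClosed k] {x : Fin (n + 1) → F} (hx : Var k d x)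
    {l : ∀ P : LocalSubring F, Kap P → ℚ} (hl : FormsX k x l) (i : Fin (n + 1)) :
    Lam k (cht k x i) (lch k x l i) := by
  refine ⟨fun P hP hd a b ha hb => xlam_mul hl P hP hd a b ha hb,
    fun P hP _ a b _ hab => xlam_cong P hP a b hab, ?_⟩
  intro E _ _ φ hE hφ
  obtain ⟨P₀, hP₀, ε, h1, h2⟩ := xiso_exists (cht k x i).toSubring (φ : cht k x i →+* E) hφ
  have hDat : Dat x i φ (LocalSubring.ofPrime (cht k x i).toSubring P₀) ε := by
    refine ⟨hx.ne, fun a ha => LocalSubring.le_ofPrime _ P₀ ha, fun a ha => ?_⟩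
    exact h2 a
  have hO : LocalSubring.ofPrime (cht k x i).toSubring P₀ ∈ Pts k x 2 :=
    ⟨i, P₀, hP₀, xiso_dim_two φ xlam_fg hE hφ P₀ h1, rfl⟩
  have hxi := hx.ne i
  have hii : φ ⟨x i / x i, xcen_coord i i⟩ = 1 := by
    have h3 : (⟨x i / x i, xcen_coord i i⟩ : cht k x i) = 1 := Subtype.ext (div_self hxi)
    rw [h3, map_one]
  have hne : φ ⟨x i / x i, xcen_coord i i⟩ ≠ 0 := by
    rw [hii]
    exact one_ne_zero
  -- the image of the chart
  have hadj : ∀ a : cht k x i, φ a ∈ Algebra.adjoin k (Set.range fun j =>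
      φ ⟨x j / x i, xcen_coord i j⟩ / φ ⟨x i / x i, xcen_coord i i⟩) := by
    rintro ⟨a, ha⟩
    have ha' := ha
    unfold cht at ha'
    induction ha' using Algebra.adjoin_induction with
    | mem y hy =>
      obtain ⟨j, rfl⟩ := hy
      refine Algebra.subset_adjoin ⟨j, ?_⟩
      change φ ⟨x j / x i, xcen_coord i j⟩ / φ ⟨x i / x i, xcen_coord i i⟩ = _
      rw [hii, div_one]
    | algebraMap c =>
      have h3 : (⟨algebraMap k F c, ha⟩ : cht k x i) = algebraMap k (cht k x i) c := rfl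
      rw [h3, AlgHom.commutes]
      exact Subalgebra.algebraMap_mem _ _
    | add b c hb hc ihb ihc =>
      have h3 : (⟨b + c, ha⟩ : cht k x i) = ⟨b, hb⟩ + ⟨c, hc⟩ := rfl
      rw [h3, map_add]
      exact Subalgebra.add_mem _ (ihb hb) (ihc hc)
    | mul b c hb hc ihb ihc =>
      have h3 : (⟨b * c, ha⟩ : cht k x i) = ⟨b, hb⟩ * ⟨c, hc⟩ := rfl
      rw [h3, map_mul]
      exact Subalgebra.mul_mem _ (ihb hb) (ihc hc)
  refine ⟨n, fun j => φ ⟨x j / x i, xcen_coord i j⟩,
    lsurf k x l (LocalSubring.ofPrime (cht k x i).toSubring P₀) ε, ⟨hE, ?_, ?_, ?_, ?_⟩, ?_, ?_⟩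
  · refine ⟨i, hne, fun e => ?_⟩
    obtain ⟨a, b, hb, he⟩ := hφ e
    exact ⟨φ a, hadj a, φ b, hadj b, hb, he⟩
  · intro V _ a b ha hb
    exact lsurf_mul hx.ne hl V a b ha hb
  · intro V _ hpt a _
    exact lsurf_eq_zero (fun ⟨P, hP, hc⟩ => hDat.cenPt hP hc hpt) a
  · intro f g hf hg
    exact hDat.recip hE hO hl hf hg
  · refine ⟨i, hne, fun j => ⟨⟨x j / x i, xcen_coord i j⟩, ?_⟩⟩
    change φ ⟨x j / x i, xcen_coord i j⟩ / φ ⟨x i / x i, xcen_coord i i⟩ = _
    rw [hii, div_one]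
  · intro V hV P hPV a b ha hb
    obtain ⟨hP, hd⟩ := xiso_dim_one φ xlam_fg hE hφ hV P hPV
    -- the centre
    have hval : ∀ s : cht k x i, s ∉ P → V.valuation (φ s) = 1 := by
      intro s hs
      have h3 : res V (φ s) ≠ 0 := fun h0 => hs ((hPV s).mpr h0)
      exact (MP_b197b4_ntKD.res_ne_zero_iff (hV.2.1 _ ⟨s, rfl⟩)).mp h3
    have hval' : ∀ s : cht k x i, s ∉ P ↔ V.valuation (φ s) = 1 := by
      intro s
      refine ⟨hval s, fun h3 h4 => ?_⟩
      have h5 := (MP_b197b4_ntKD.res_ne_zero_iff (hV.2.1 _ ⟨s, rfl⟩)).mpr h3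
      exact h5 ((hPV s).mp h4)
    have hPO : ∀ s : cht k x i, s ∉ P → s ∉ P₀ := by
      intro s hs h3
      have h4 : φ s = 0 := (h1 s).mp h3
      have h5 := hval s hs
      rw [h4, map_zero] at h5
      exact zero_ne_one h5
    have hle : (@LocalSubring.ofPrime F _ (cht k x i).toSubring P hP).toSubring ≤
        (LocalSubring.ofPrime (cht k x i).toSubring P₀).toSubring := by
      intro y hy
      obtain ⟨a, s, hs, rfl⟩ := (@xcen_mem F _ (cht k x i).toSubring P hP y).mp hy
      exact (xcen_mem _ P₀ _).mpr ⟨a, s, hPO s hs, rfl⟩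
    have hrr : ∀ (a s : cht k x i) (_ : s ∉ P) (y : F) (_ : y = (a : F) / (s : F))
        (hy : y ∈ (LocalSubring.ofPrime (cht k x i).toSubring P₀).toSubring),
        rr _ ε y hy = φ a / φ s := by
      intro a s hs y hya hy
      have hsO : (s : F) ∈ (LocalSubring.ofPrime (cht k x i).toSubring P₀).toSubring :=
        LocalSubring.le_ofPrime _ P₀ s.2
      have haO : (a : F) ∈ (LocalSubring.ofPrime (cht k x i).toSubring P₀).toSubring :=
        LocalSubring.le_ofPrime _ P₀ a.2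
      have hs0 : φ s ≠ 0 := fun h0 => hPO s hs ((h1 s).mpr h0)
      have hsF : (s : F) ≠ 0 := @xcen_ne F _ (cht k x i).toSubring P hP s hs
      refine eq_div_of_mul_eq hs0 ?_
      have e1 : rr _ ε (s : F) hsO = φ s := h2 s
      have e2 : rr _ ε (a : F) haO = φ a := h2 a
      rw [← e1, ← e2, ← rr_mul hy hsO]
      unfold rr
      congr 3
      rw [hya, div_mul_cancel₀ _ hsF]
    have hcen : Cen (@LocalSubring.ofPrime F _ (cht k x i).toSubring P hP)
        (LocalSubring.ofPrime (cht k x i).toSubring P₀)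
        (V.comap (ε : Kap (LocalSubring.ofPrime (cht k x i).toSubring P₀) →+* E)) := by
      rw [cen_iff]
      refine ⟨hle, fun y hyP hyO => ?_⟩
      obtain ⟨a, s, hs, hya⟩ := (@xcen_mem F _ (cht k x i).toSubring P hP y).mp hyP
      rw [hrr a s hs y hya hyO]
      have hvs := hval s hs
      constructor
      · rw [div_eq_mul_inv]
        exact V.mul_mem _ _ (hV.2.1 _ ⟨a, rfl⟩)
          (MP_b197b4_ntKD.mem_of_val (MP_b197b4_ntKD.val_inv hvs))
      · rw [map_div₀, hvs, div_one, ← hval' a, ← @xcen_unit F _ (cht k x i).toSubring P hP a]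
        have hsu := (@xcen_unit F _ (cht k x i).toSubring P hP s).mpr hs
        have hsF : (s : F) ≠ 0 := @xcen_ne F _ (cht k x i).toSubring P hP s hs
        have e3 : (⟨(a : F), @LocalSubring.le_ofPrime F _ (cht k x i).toSubring P hP a.1 a.2⟩ :
            (@LocalSubring.ofPrime F _ (cht k x i).toSubring P hP).toSubring) =
            ⟨y, hyP⟩ * ⟨(s : F), @LocalSubring.le_ofPrime F _ (cht k x i).toSubring P hP s.1 s.2⟩ := by
          apply Subtype.ext
          change (a : F) = y * (s : F)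
          rw [hya, div_mul_cancel₀ _ hsF]
        rw [e3]
        constructor
        · intro h3
          exact h3.mul hsu
        · intro h3
          exact isUnit_of_mul_isUnit_left h3
    have hPts : @LocalSubring.ofPrime F _ (cht k x i).toSubring P hP ∈ Pts k x 1 :=
      ⟨i, P, hP, hd, rfl⟩
    rw [lsurf_eq hx.ne hPts hcen, lch_eq l P hP, lch_eq l P hP]
    have hdvr := xlam_dvr ε hV.1
    -- the residue fields are equal
    have hsurj : ∀ c : ResidueField (V.comap
        (ε : Kap (LocalSubring.ofPrime (cht k x i).toSubring P₀) →+* E)), ∃ (y : F)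
        (_ : y ∈ (@LocalSubring.ofPrime F _ (cht k x i).toSubring P hP).toSubring)
        (hS : y ∈ (LocalSubring.ofPrime (cht k x i).toSubring P₀).toSubring),
        c = res _ (residue _ ⟨y, hS⟩) := by
      intro c
      obtain ⟨z, hz, hzc⟩ := MP_b197b4_ntKD.res_surj
        (MP_b197b4_ntKD.rmap (ε : Kap (LocalSubring.ofPrime (cht k x i).toSubring P₀) →+* E) V c)
      obtain ⟨_, _, ⟨a, rfl⟩, ⟨s, rfl⟩, hs1, rfl⟩ := hV.2.2 z hz
      have hsP : s ∉ P := (hval' s).mpr hs1
      have hyP : (a : F) / (s : F) ∈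
          (@LocalSubring.ofPrime F _ (cht k x i).toSubring P hP).toSubring :=
        (@xcen_mem F _ (cht k x i).toSubring P hP _).mpr ⟨a, s, hsP, rfl⟩
      refine ⟨(a : F) / (s : F), hyP, hle hyP, ?_⟩
      apply (MP_b197b4_ntKD.rmap
        (ε : Kap (LocalSubring.ofPrime (cht k x i).toSubring P₀) →+* E) V).injective
      rw [MP_b197b4_ntKD.rmap_res, ← hzc]
      congr 1
      exact (hrr a s hsP _ rfl (hle hyP)).symm
    have hrin : ∀ a : cht k x i, rinv ε V (res V (φ a)) =
        res _ (residue _ ⟨(a : F), LocalSubring.le_ofPrime _ P₀ a.2⟩) := by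
      intro a
      apply (MP_b197b4_ntKD.rmap
        (ε : Kap (LocalSubring.ofPrime (cht k x i).toSubring P₀) →+* E) V).injective
      rw [rmap_rinv, MP_b197b4_ntKD.rmap_res]
      congr 1
      exact (h2 a).symm
    have hnrm : ∀ a : cht k x i, nrm (@LocalSubring.ofPrime F _ (cht k x i).toSubring P hP)
        (LocalSubring.ofPrime (cht k x i).toSubring P₀)
        (V.comap (ε : Kap (LocalSubring.ofPrime (cht k x i).toSubring P₀) →+* E))
        (rinv ε V (res V (φ a))) =
        residue _ ⟨a, @LocalSubring.le_ofPrime F _ (cht k x i).toSubring P hP a.1 a.2⟩ := by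
      intro a
      rw [hrin]
      exact nrm_eq _ _ _ hcen hsurj _ _
    have hbne : res V (φ b) ≠ 0 := fun h0 => hb ((hPV b).mpr h0)
    have hane : res V (φ a) ≠ 0 := fun h0 => ha ((hPV a).mpr h0)
    have e4 := congrArg (rinv ε V) (div_mul_cancel₀ (res V (φ a)) hbne)
    rw [rinv_mul] at e4
    have e5 := congrArg (nrm (@LocalSubring.ofPrime F _ (cht k x i).toSubring P hP)
        (LocalSubring.ofPrime (cht k x i).toSubring P₀)
        (V.comap (ε : Kap (LocalSubring.ofPrime (cht k x i).toSubring P₀) →+* E))) e4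
    rw [nrm_mul, hnrm a, hnrm b] at e5
    have e6 := congrArg (l (@LocalSubring.ofPrime F _ (cht k x i).toSubring P hP)) e5
    rw [hl.mul _ hPts _ _ (nrm_ne _ _ _ (rinv_ne ε V (div_ne_zero hane hbne)))
      (xlam_res_ne P hP hb)] at e6
    linarith

end Pool.Agent.Lib.MP_b197b4_ntA
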