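import Mathlib
import Pool.Agent.Lib.MP_b197b4_ntA.XLam
import Pool.Agent.Lib.MP_b197b4_ntA.GAll
import Pool.Agent.Lib.MP_b197b4_ntA.XGlue
import Pool.Agent.Lib.MP_b197b4_ntA.XDual

/-!
# MP_b197b4_nt, project K1-ALL: the end of the proof
-/

set_option autoImplicit false
set_option linter.unusedSectionVars false

namespace Pool.Agent.Lib.MP_b197b4_ntA

open IsLocalRing Pool.Agent.Lib.MP_b197b4_ntK

theorem xEnd_hasLen_one {L : Type} [Field L] (B : Subring L) {n : ℤ} (h : HasLen B 1 n) :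
    n = 0 := by
  obtain ⟨a, b, r, s, ha, hb, hu, hr, hs, hn⟩ := h
  have hab : a = b := by
    apply Subtype.ext
    have := hu.symm
    rwa [div_eq_one_iff_eq hb] at this
  subst hab
  rw [hr] at hs
  have : (r : ℕ∞) = (s : ℕ∞) := hs
  have hrs : r = s := by exact_mod_cast this
  rw [hn, hrs, sub_self]

theorem xEnd_len_one {L : Type} [Field L] (B : Subring L) : len B 1 = 0 := by
  unfold len
  split_ifs with h
  · exact xEnd_hasLen_one B h.choose_spec
  · rfl

section

variable {k : Type} {F : Type} [Field k] [Field F] [Algebra k F] {n : ℕ} {d : ℕ}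

/-- The charts. -/
theorem xEnd_dchart {x : Fin (n + 1) → F} (hx : Var k d x) (i : Fin (n + 1)) :
    DChart d (cht k x i) where
  fg := Subalgebra.fg_def.2 ⟨_, Set.finite_range _, rfl⟩
  frac := hx.frac i
  height := hx.height i

theorem xEnd_reg {x : Fin (n + 1) → F} (hx : Var k d x) (i : Fin (n + 1))
    (m : Ideal (cht k x i)) (hm : m.IsMaximal) : RegMax m :=
  ⟨hm, fun _ => (hx.regular i).isRegularLocalRing_localization m⟩

/-- A form given by a function on the closed points kills the cycles. -/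
theorem xEnd_sum {x : Fin (n + 1) → F} {a : ∀ P : LocalSubring F, Kap P} (ha : CycX k x a)
    {l : ∀ P : LocalSubring F, Kap P → ℚ} (hl : FormsX k x l) {h : LocalSubring F → ℚ}
    (hG : ∀ P ∈ Pts k x 1, ∀ u : Kap P, u ≠ 0 →
      {O | O ∈ Pts k x 0 ∧ O.toSubring ≤ P.toSubring ∧ len (locSub O P) u ≠ 0}.Finite ∧
      l P u = ∑ᶠ (O : LocalSubring F) (_ : O ∈ Pts k x 0 ∧ O.toSubring ≤ P.toSubring),
        h O * len (locSub O P) u) :
    ∑ᶠ (P : LocalSubring F) (_ : P ∈ Pts k x 1), l P (a P) = 0 := by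
  classical
  let S : Finset (LocalSubring F) := ha.finite.toFinset
  have hS : ∀ P, P ∈ S ↔ P ∈ Pts k x 1 ∧ a P ≠ 1 := fun P => by
    simp only [S, Set.Finite.mem_toFinset]
    rfl
  have hl1 : ∀ P ∈ Pts k x 1, l P 1 = 0 := by
    intro P hP
    have := hl.mul P hP 1 1 one_ne_zero one_ne_zero
    rw [mul_one] at this
    linarith
  -- the finite set of closed points
  let T : Finset (LocalSubring F) := S.attach.biUnion fun P =>
    (hG P.1 ((hS _).1 P.2).1 (a P.1) (ha.ne _ ((hS _).1 P.2).1)).1.toFinset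
  have hT : ∀ P ∈ S, ∀ O : LocalSubring F, O ∈ Pts k x 0 → O.toSubring ≤ P.toSubring →
      len (locSub O P) (a P) ≠ 0 → O ∈ T := by
    intro P hP O hO hOP hne
    refine Finset.mem_biUnion.2 ⟨⟨P, hP⟩, Finset.mem_attach _ _, ?_⟩
    rw [Set.Finite.mem_toFinset]
    exact ⟨hO, hOP, hne⟩
  have hTP : ∀ O ∈ T, O ∈ Pts k x 0 := by
    intro O hO
    obtain ⟨P, _, h2⟩ := Finset.mem_biUnion.1 hO
    rw [Set.Finite.mem_toFinset] at h2
    exact h2.1
  have e1 : ∑ᶠ (P : LocalSubring F) (_ : P ∈ Pts k x 1), l P (a P) = ∑ P ∈ S, l P (a P) := by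
    apply finsum_mem_eq_sum_of_inter_support_eq
    ext P
    simp only [Set.mem_inter_iff, Function.mem_support, Finset.mem_coe, hS]
    constructor
    · rintro ⟨hP, hne⟩
      refine ⟨⟨hP, ?_⟩, hne⟩
      intro h1
      rw [h1] at hne
      exact hne (hl1 P hP)
    · rintro ⟨⟨hP, _⟩, hne⟩
      exact ⟨hP, hne⟩
  have e2 : ∀ P ∈ S, l P (a P) =
      ∑ O ∈ T, if O.toSubring ≤ P.toSubring then h O * len (locSub O P) (a P) else 0 := by
    intro P hP
    have hP' := (hS P).1 hP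
    rw [(hG P hP'.1 (a P) (ha.ne P hP'.1)).2, ← Finset.sum_filter]
    apply finsum_cond_eq_sum_of_cond_iff
    intro O hne
    rw [Finset.mem_filter]
    constructor
    · rintro ⟨hO, hOP⟩
      refine ⟨hT P hP O hO hOP ?_, hOP⟩
      intro h0
      rw [h0] at hne
      exact hne (by push_cast; ring)
    · rintro ⟨hO, hOP⟩
      exact ⟨hTP O hO, hOP⟩
  rw [e1, Finset.sum_congr rfl e2, Finset.sum_comm]
  apply Finset.sum_eq_zero
  intro O hO
  have e3 : ∑ᶠ (P : LocalSubring F) (_ : P ∈ Pts k x 1 ∧ O.toSubring ≤ P.toSubring),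
      len (locSub O P) (a P) =
      ∑ P ∈ S, if O.toSubring ≤ P.toSubring then len (locSub O P) (a P) else 0 := by
    rw [← Finset.sum_filter]
    apply finsum_cond_eq_sum_of_cond_iff
    intro P hne
    rw [Finset.mem_filter, hS]
    constructor
    · rintro ⟨hP, hOP⟩
      refine ⟨⟨hP, ?_⟩, hOP⟩
      intro h1
      rw [h1] at hne
      exact hne (xEnd_len_one _)
    · rintro ⟨⟨hP, _⟩, hOP⟩
      exact ⟨hP, hOP⟩
  have e4 := ha.div O (hTP O hO)
  rw [e3] at e4
  have e5 : ∀ P ∈ S, (if O.toSubring ≤ P.toSubring then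
      h O * (len (locSub O P) (a P) : ℚ) else 0) =
      h O * (((if O.toSubring ≤ P.toSubring then len (locSub O P) (a P) else 0) : ℤ) : ℚ) := by
    intro P _
    split_ifs
    · rfl
    · push_cast
      ring
  rw [Finset.sum_congr rfl e5, ← Finset.mul_sum, ← Int.cast_sum, e4, Int.cast_zero, mul_zero]

end

/-- XF: the end. -/
theorem k1All (k : Type) [Field k] [IsAlgClosed k]
    (halg : ∃ p : ℕ, p.Prime ∧ ∀ a : k, ∃ m : ℕ, 0 < m ∧ a ^ p ^ m = a) (hP : Pic k) (hL : LTP k) :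
    K1All k := by
  intro F _ _ n x d hd hx a ha
  refine dualX hx a ha fun l hl => ?_
  obtain ⟨h, hh⟩ := exists_hX halg hd hx hl fun i =>
    gAll_exists halg hP hL hd (xEnd_dchart hx i) (xEnd_reg hx i) (lch k x l i) (lam_chart hx hl i)
  exact xEnd_sum ha hl hh

end Pool.Agent.Lib.MP_b197b4_ntA
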