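import Mathlib
import Pool.Agent.Lib.MP_b197b4_ntF.LTn
import Pool.Agent.Lib.MP_b197b4_ntC.CF
import Pool.Agent.Lib.MP_b197b4_ntP.BertOne
import Pool.Agent.Lib.MP_b197b4_ntQ.PenE
import Pool.Agent.Lib.MP_b197b4_ntA.Sur
import Pool.Agent.Lib.MP_b197b4_ntA.XEnd

/-!
# MP_b197b4_nt, project K1-ALL: the theorem over the algebraic closure of a finite field
-/

set_option autoImplicit false

namespace Pool.Agent.Lib.MP_b197b4_ntA

open IsLocalRing Pool.Agent.Lib.MP_b197b4_ntK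

/-- **K1-ALL** over algebraically closed fields which are algebraic over a finite field. -/
theorem k1All_closed (p : ℕ) [Fact p.Prime] (k : Type) [Field k] [CharP k p] [IsAlgClosed k]
    (halg : ∀ a : k, ∃ m : ℕ, 0 < m ∧ a ^ p ^ m = a) : K1All k := by
  have hL : LTnorm k := ltnorm_closed p k halg (MPb197b4P.core p k halg)
    fun F _ _ n x hx => pencil (MPb197b4P.bert_one k) hx
  have ha : ∃ p : ℕ, p.Prime ∧ ∀ a : k, ∃ m : ℕ, 0 < m ∧ a ^ p ^ m = a := ⟨p, Fact.out, halg⟩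
  exact k1All k ha (pic ha) (ltp_of_ltnorm ha (pic ha) hL)

end Pool.Agent.Lib.MP_b197b4_ntA
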