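import Pool.Agent.Lib.MP_b197b4_ntA.XDefs
import Pool.Agent.Lib.MP_b197b4_ntKD.Rm

/-!
# MP_b197b4_nt (K1-ALL): the norm from the residue field of a valuation ring to its centre
-/

set_option autoImplicit false

namespace Pool.Agent.Lib.MP_b197b4_ntA

open IsLocalRing Pool.Agent.Lib.MP_b197b4_ntK Pool.Agent.Lib.MP_b197b4_ntKD

variable {F : Type} [Field F] (P S : LocalSubring F) (V : ValuationSubring (Kap S))

theorem nrm_one : nrm P S V 1 = 1 := by
  unfold nrm
  split_ifs with h
  · exact @map_one _ _ _ _ _ _ _ (@Algebra.norm (Kap P) (ResidueField V) _ _ h.choose.toAlgebra)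
  · rfl

theorem nrm_mul (c d : ResidueField V) : nrm P S V (c * d) = nrm P S V c * nrm P S V d := by
  unfold nrm
  split_ifs with h
  · exact @map_mul _ _ _ _ _ _ _
      (@Algebra.norm (Kap P) (ResidueField V) _ _ h.choose.toAlgebra) c d
  · rw [mul_one]

theorem nrm_ne {c : ResidueField V} (hc : c ≠ 0) : nrm P S V c ≠ 0 := by
  have h := nrm_mul P S V c c⁻¹
  rw [mul_inv_cancel₀ hc, nrm_one] at h
  exact left_ne_zero_of_mul_eq_one h.symm

theorem nrm_prod {ι : Type} (s : Finset ι) (f : ι → ResidueField V) :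
    nrm P S V (∏ i ∈ s, f i) = ∏ i ∈ s, nrm P S V (f i) := by
  classical
  induction s using Finset.induction_on with
  | empty => simp [nrm_one]
  | insert a s ha ih => rw [Finset.prod_insert ha, Finset.prod_insert ha, nrm_mul, ih]

/-- The homomorphism of the residue fields. -/
theorem exists_kap (h : Cen P S V) : ∃ φ : Kap P →+* ResidueField V, ∀ (y : F)
    (hP : y ∈ P.toSubring) (hS : y ∈ S.toSubring),
      φ (residue _ ⟨y, hP⟩) = res V (residue _ ⟨y, hS⟩) := by
  obtain ⟨g, hg⟩ : ∃ g : P.toSubring →+* V, ∀ (y : P.toSubring),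
      (g y : Kap S) = residue _ (⟨(y : F), h.1 y.2⟩ : S.toSubring) :=
    ⟨((residue S.toSubring).comp (Subring.inclusion h.1)).codRestrict V.toSubring
      (fun y => (h.2 y y.2 (h.1 y.2)).1), fun y => rfl⟩
  have hloc : IsLocalHom g := by
    constructor
    intro y hy
    rw [ValuationSubring.valuation_eq_one_iff, hg] at hy
    exact (h.2 y y.2 (h.1 y.2)).2.mpr hy
  refine ⟨ResidueField.map g, fun y hP hS => ?_⟩
  rw [ResidueField.map_residue]
  have h1 := hg ⟨y, hP⟩
  have h2 : (residue S.toSubring ⟨y, hS⟩) ∈ V := (h.2 y hP hS).1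
  unfold res
  rw [dif_pos h2]
  congr 1
  exact Subtype.ext h1

/-- The norm if the residue fields are equal. -/
theorem nrm_eq (h : Cen P S V) (hs : ∀ c : ResidueField V, ∃ (y : F) (_ : y ∈ P.toSubring)
    (hS : y ∈ S.toSubring), c = res V (residue _ ⟨y, hS⟩)) {y : F} (hP : y ∈ P.toSubring)
    (hS : y ∈ S.toSubring) : nrm P S V (res V (residue _ ⟨y, hS⟩)) = residue _ ⟨y, hP⟩ := by
  have h1 := exists_kap P S V h
  unfold nrm
  rw [dif_pos h1]
  let _ : Algebra (Kap P) (ResidueField V) := h1.choose.toAlgebra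
  have hspec := h1.choose_spec
  have halg : ∀ z, algebraMap (Kap P) (ResidueField V) z = h1.choose z := fun _ => rfl
  have hsurj : Function.Surjective (algebraMap (Kap P) (ResidueField V)) := by
    intro c
    obtain ⟨y, hyP, hyS, rfl⟩ := hs c
    exact ⟨residue _ ⟨y, hyP⟩, by rw [halg, hspec y hyP hyS]⟩
  have hfin : Module.finrank (Kap P) (ResidueField V) = 1 := by
    rw [← Module.finrank_self (Kap P)]
    exact (LinearEquiv.ofBijective (Algebra.linearMap (Kap P) (ResidueField V))
      ⟨(algebraMap (Kap P) (ResidueField V)).injective, hsurj⟩).finrank_eq.symm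
  have h2 : res V (residue _ ⟨y, hS⟩) = algebraMap (Kap P) (ResidueField V) (residue _ ⟨y, hP⟩) := by
    rw [halg, hspec y hP hS]
  rw [h2]
  have h3 := Algebra.norm_algebraMap (S := ResidueField V) (residue P.toSubring ⟨y, hP⟩)
  rw [hfin, pow_one] at h3
  exact h3

end Pool.Agent.Lib.MP_b197b4_ntA
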