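import Pool.Agent.Lib.MP_b197b4_ntA.XIso
import Pool.Agent.Lib.MP_b197b4_ntA.XNrm

/-!
# MP_b197b4_nt (K1-ALL): valuation rings of a surface on a projective variety, and their centres
-/

set_option autoImplicit false

namespace Pool.Agent.Lib.MP_b197b4_ntA

open IsLocalRing Pool.Agent.Lib.MP_b197b4_ntK

variable {k : Type} {F : Type} [Field k] [Field F] [Algebra k F] {n : ℕ} {E : Type} [Field E]
  [Algebra k E]

/-- The data of a surface `O` with function field `E`, given on the chart `i` by `φ`. -/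
structure Dat (x : Fin (n + 1) → F) (i : Fin (n + 1)) (φ : cht k x i →ₐ[k] E)
    (O : LocalSubring F) (ε : Kap O ≃+* E) : Prop where
  ne : ∀ j, x j ≠ 0
  sub : ∀ a ∈ cht k x i, a ∈ O.toSubring
  map : ∀ (a : cht k x i) (ha : (a : F) ∈ O.toSubring), ε (residue _ ⟨a, ha⟩) = φ a

variable {x : Fin (n + 1) → F} {i : Fin (n + 1)} {φ : cht k x i →ₐ[k] E} {O : LocalSubring F}
  {ε : Kap O ≃+* E}

/-- The class of an element of the local ring of the surface. -/
noncomputable def rr (O : LocalSubring F) (ε : Kap O ≃+* E) (y : F) (hy : y ∈ O.toSubring) : E :=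
  ε (residue _ ⟨y, hy⟩)

theorem rr_mul {y z : F} (hy : y ∈ O.toSubring) (hz : z ∈ O.toSubring) :
    rr O ε (y * z) (mul_mem hy hz) = rr O ε y hy * rr O ε z hz := by
  unfold rr
  rw [← map_mul, ← map_mul]
  rfl

theorem rr_add {y z : F} (hy : y ∈ O.toSubring) (hz : z ∈ O.toSubring) :
    rr O ε (y + z) (add_mem hy hz) = rr O ε y hy + rr O ε z hz := by
  unfold rr
  rw [← map_add, ← map_add]
  rfl

theorem rr_sub {y z : F} (hy : y ∈ O.toSubring) (hz : z ∈ O.toSubring) :
    rr O ε (y - z) (sub_mem hy hz) = rr O ε y hy - rr O ε z hz := by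
  unfold rr
  rw [← map_sub, ← map_sub]
  rfl

theorem rr_one : rr O ε 1 (one_mem _) = 1 := by
  unfold rr
  rw [← map_one ε, ← map_one (residue O.toSubring)]
  rfl

theorem Dat.const (h : Dat x i φ O ε) (c : k) (hc : algebraMap k F c ∈ O.toSubring) :
    rr O ε (algebraMap k F c) hc = algebraMap k E c := by
  have h1 := h.map (algebraMap k (cht k x i) c) hc
  rw [AlgHom.commutes] at h1
  exact h1

/-- `V.comap ε` has the centre `P`. -/
theorem cen_iff (P : LocalSubring F) (V : ValuationSubring E) :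
    Cen P O (V.comap (ε : Kap O →+* E)) ↔ P.toSubring ≤ O.toSubring ∧ ∀ (y : F)
      (hP : y ∈ P.toSubring) (hS : y ∈ O.toSubring), rr O ε y hS ∈ V ∧
        (IsUnit (⟨y, hP⟩ : P.toSubring) ↔ V.valuation (rr O ε y hS) = 1) := by
  unfold Cen
  refine and_congr Iff.rfl (forall_congr' fun y => forall_congr' fun hP => forall_congr' fun hS => ?_)
  rw [ValuationSubring.mem_comap, MP_b197b4_ntKD.comap_eq_one]
  rfl

theorem Dat.over (h : Dat x i φ O ε) {P : LocalSubring F} {e : ℕ} (hP : P ∈ Pts k x e)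
    {V : ValuationSubring E} (hc : Cen P O (V.comap (ε : Kap O →+* E))) : Over k V := by
  intro c
  obtain ⟨j, P₀, hP₀, -, rfl⟩ := hP
  rw [cen_iff] at hc
  have h1 : algebraMap k F c ∈ (LocalSubring.ofPrime _ P₀).toSubring :=
    LocalSubring.le_ofPrime _ P₀ (Subalgebra.algebraMap_mem _ c)
  rw [← h.const c (hc.1 h1)]
  exact (hc.2 _ h1 (hc.1 h1)).1

/-- the homomorphism on another chart -/
theorem Dat.exists_rho (h : Dat x i φ O ε) (j : Fin (n + 1))
    (hj : ∀ a ∈ cht k x j, a ∈ O.toSubring) : ∃ ρ : cht k x j →ₐ[k] E,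
      ∀ a : cht k x j, ρ a = rr O ε a (hj a a.2) := by
  refine ⟨{ toFun := fun a => rr O ε a (hj a a.2)
            map_one' := rr_one
            map_mul' := fun a b => rr_mul _ _
            map_zero' := ?_
            map_add' := fun a b => rr_add _ _
            commutes' := fun c => h.const c _ }, fun a => rfl⟩
  have h1 : rr O ε ((0 : F) + 0) (add_mem (zero_mem _) (zero_mem _)) =
    rr O ε 0 (zero_mem _) + rr O ε 0 (zero_mem _) := rr_add _ _
  have h2 : rr O ε ((0 : F) + 0) (add_mem (zero_mem _) (zero_mem _)) =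
    rr O ε 0 (zero_mem _) := by
    congr 1
    rw [add_zero]
  rw [h2] at h1
  exact left_eq_add.mp h1

/-- The centre is a curve: not all the functions are constant. -/
theorem Dat.nonconst (h : Dat x i φ O ε) {j : Fin (n + 1)}
    (P₀ : Ideal (cht k x j).toSubring) [P₀.IsPrime]
    (hd : ringKrullDim ((cht k x j).toSubring ⧸ P₀) = (1 : ℕ)) {V : ValuationSubring E}
    (hc : Cen (LocalSubring.ofPrime _ P₀) O (V.comap (ε : Kap O →+* E)))
    (hall : ∀ (a : F) (ha : a ∈ cht k x j),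
      Const k V (rr O ε a (hc.1 (LocalSubring.le_ofPrime _ P₀ ha)))) : False := by
  have hV : Over k V := h.over ⟨j, P₀, inferInstance, hd, rfl⟩ hc
  have hc' := hc
  rw [cen_iff] at hc'
  have hmax : P₀.IsMaximal := by
    rw [Ideal.isMaximal_iff]
    refine ⟨(Ideal.ne_top_iff_one _).mp ‹P₀.IsPrime›.ne_top, ?_⟩
    intro I a hI ha haI
    obtain ⟨c, hca⟩ := hall a a.2
    have haO : (a : F) ∈ O.toSubring := hc.1 (LocalSubring.le_ofPrime _ P₀ a.2)
    have hcA : algebraMap k F c ∈ (cht k x j).toSubring := Subalgebra.algebraMap_mem _ c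
    have hcO : algebraMap k F c ∈ O.toSubring := hc.1 (LocalSubring.le_ofPrime _ P₀ hcA)
    have hcP := LocalSubring.le_ofPrime _ P₀ hcA
    have haP := LocalSubring.le_ofPrime _ P₀ a.2
    have h1 := (hc'.2 _ haP haO).1
    -- `a - c ∈ P₀`
    have h2 : a - ⟨algebraMap k F c, hcA⟩ ∈ P₀ := by
      by_contra hcon
      have h3 := (xcen_unit _ P₀ _).mpr hcon
      have h4 := (hc'.2 _ _ (sub_mem haO hcO)).2.mp h3
      have h5 : rr O ε ((a : F) - algebraMap k F c) (sub_mem haO hcO) =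
          rr O ε (a : F) haO - algebraMap k E c := by
        rw [rr_sub haO hcO, h.const c hcO]
      have h6 : V.valuation (rr O ε (a : F) haO - algebraMap k E c) < 1 :=
        (MP_b197b4_ntKD.res_eq_iff h1 (hV c)).mp hca
      rw [← h5] at h6
      exact absurd h4 h6.ne
    have h3 : (⟨algebraMap k F c, hcA⟩ : (cht k x j).toSubring) ∈ I := by
      have : (⟨algebraMap k F c, hcA⟩ : (cht k x j).toSubring) =
        a - (a - ⟨algebraMap k F c, hcA⟩) := by ring
      rw [this]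
      exact I.sub_mem haI (hI h2)
    have hc0 : c ≠ 0 := by
      rintro rfl
      apply ha
      have : a = a - ⟨algebraMap k F 0, hcA⟩ := by
        apply Subtype.ext
        push_cast
        rw [sub_zero]
      rw [this]
      exact h2
    have hcA' : algebraMap k F c⁻¹ ∈ (cht k x j).toSubring := Subalgebra.algebraMap_mem _ c⁻¹
    have h4 : (1 : (cht k x j).toSubring) =
        ⟨algebraMap k F c⁻¹, hcA'⟩ * ⟨algebraMap k F c, hcA⟩ := by
      apply Subtype.ext
      change (1 : F) = algebraMap k F c⁻¹ * algebraMap k F c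
      rw [← map_mul, inv_mul_cancel₀ hc0, map_one]
    rw [h4]
    exact I.mul_mem_left _ h3
  have h1 := (Ideal.Quotient.maximal_ideal_iff_isField_quotient P₀).mp hmax
  rw [ringKrullDim_eq_zero_of_isField h1] at hd
  have : (0 : ℕ) = 1 := by exact_mod_cast hd
  exact zero_ne_one this

theorem Const.div {V : ValuationSubring E} (hV : Over k V) {a b : E} (ha : a ∈ V) (hb : b ∈ V)
    (hb' : V.valuation b = 1) (h : Const k V a) (h' : Const k V b) : Const k V (a / b) := by
  obtain ⟨c, hc⟩ := h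
  obtain ⟨d, hd⟩ := h'
  have hd1 : V.valuation (algebraMap k E d) = 1 := by
    rw [← MP_b197b4_ntKD.res_ne_zero_iff (hV d), ← hd]
    exact (MP_b197b4_ntKD.res_ne_zero_iff hb).mpr hb'
  have hd0 : d ≠ 0 := by
    rintro rfl
    rw [map_zero, map_zero] at hd1
    exact zero_ne_one hd1
  have hinv : V.valuation b⁻¹ = 1 := MP_b197b4_ntKD.val_inv hb'
  have hinv' : V.valuation (algebraMap k E d)⁻¹ = 1 := MP_b197b4_ntKD.val_inv hd1
  refine ⟨c / d, ?_⟩
  rw [map_div₀, div_eq_mul_inv, div_eq_mul_inv, MP_b197b4_ntKD.res_mul ha (MP_b197b4_ntKD.mem_of_val hinv),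
    MP_b197b4_ntKD.res_mul (hV c) (MP_b197b4_ntKD.mem_of_val hinv'), MP_b197b4_ntKD.res_inv hb',
    MP_b197b4_ntKD.res_inv hd1, hc, hd]

/-- The coordinates of the surface. -/
theorem Dat.coord (h : Dat x i φ O ε) {j : Fin (n + 1)}
    (hj : ∀ a ∈ cht k x j, a ∈ O.toSubring) :
    φ ⟨x j / x i, xcen_coord i j⟩ ≠ 0 ∧ ∀ m, rr O ε (x m / x j) (hj _ (xcen_coord j m)) =
      φ ⟨x m / x i, xcen_coord i m⟩ / φ ⟨x j / x i, xcen_coord i j⟩ := by
  have hxi := h.ne i
  have hxj := h.ne j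
  have key : ∀ m, rr O ε (x m / x j) (hj _ (xcen_coord j m)) * φ ⟨x j / x i, xcen_coord i j⟩ =
      φ ⟨x m / x i, xcen_coord i m⟩ := by
    intro m
    rw [← h.map ⟨x j / x i, xcen_coord i j⟩ (h.sub _ (xcen_coord i j)),
      ← h.map ⟨x m / x i, xcen_coord i m⟩ (h.sub _ (xcen_coord i m))]
    change rr O ε (x m / x j) _ * rr O ε (x j / x i) _ = rr O ε (x m / x i) _
    rw [← rr_mul]
    unfold rr
    congr 3
    field_simp
  have hne : φ ⟨x j / x i, xcen_coord i j⟩ ≠ 0 := by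
    intro h0
    have h1 := key i
    rw [h0, mul_zero] at h1
    have h2 : (⟨x i / x i, xcen_coord i i⟩ : cht k x i) = 1 := Subtype.ext (div_self hxi)
    rw [h2, map_one] at h1
    exact zero_ne_one h1
  exact ⟨hne, fun m => eq_div_of_mul_eq hne (key m)⟩

/-- A valuation ring whose centre on the projective model is a closed point is not centred at a
curve. -/
theorem Dat.cenPt (h : Dat x i φ O ε) {P : LocalSubring F} (hP : P ∈ Pts k x 1)
    {V : ValuationSubring E} (hc : Cen P O (V.comap (ε : Kap O →+* E)))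
    (hpt : CenPt k (fun m => φ ⟨x m / x i, xcen_coord i m⟩) V) : False := by
  have hV := h.over hP hc
  obtain ⟨j, P₀, hP₀, hd, rfl⟩ := hP
  refine h.nonconst P₀ hd hc ?_
  have hj : ∀ a ∈ cht k x j, a ∈ O.toSubring := fun a ha =>
    hc.1 (LocalSubring.le_ofPrime _ P₀ ha)
  obtain ⟨ρ, hρ⟩ := h.exists_rho j hj
  obtain ⟨hne, hco⟩ := h.coord hj
  obtain ⟨s, hs, hsV⟩ := hpt
  have hc' := hc
  rw [cen_iff] at hc'
  have hVρ : ∀ a ∈ cht k x j, ∀ ha : a ∈ O.toSubring, rr O ε a ha ∈ V := fun a ha haO =>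
    (hc'.2 a (LocalSubring.le_ofPrime _ P₀ ha) haO).1
  -- `x j / x s` is a unit
  have hjs : V.valuation (φ ⟨x j / x i, xcen_coord i j⟩ / φ ⟨x s / x i, xcen_coord i s⟩) = 1 := by
    have h1 := (V.valuation_le_one_iff _).mpr (hsV j).1
    have h2 := (V.valuation_le_one_iff _).mpr (hVρ _ (xcen_coord j s) (hj _ (xcen_coord j s)))
    rw [hco s] at h2
    refine le_antisymm h1 ?_
    rw [← inv_div, map_inv₀] at h2
    have h3 : 0 < V.valuation (φ ⟨x j / x i, xcen_coord i j⟩ / φ ⟨x s / x i, xcen_coord i s⟩) := by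
      rw [zero_lt_iff, ne_eq, map_eq_zero]
      exact div_ne_zero hne hs
    exact (inv_le_one₀ h3).mp h2
  have hgen : ∀ m, rr O ε (x m / x j) (hj _ (xcen_coord j m)) ∈ V ∧
      Const k V (rr O ε (x m / x j) (hj _ (xcen_coord j m))) := by
    intro m
    refine ⟨hVρ _ (xcen_coord j m) _, ?_⟩
    have e : rr O ε (x m / x j) (hj _ (xcen_coord j m)) =
        (φ ⟨x m / x i, xcen_coord i m⟩ / φ ⟨x s / x i, xcen_coord i s⟩) /
          (φ ⟨x j / x i, xcen_coord i j⟩ / φ ⟨x s / x i, xcen_coord i s⟩) := by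
      rw [hco m]
      field_simp
    rw [e]
    exact Const.div hV (hsV m).1 (hsV j).1 hjs (hsV m).2 (hsV j).2
  intro a ha
  have key : ∀ b ∈ cht k x j, ∀ hb : b ∈ O.toSubring, rr O ε b hb ∈ V ∧ Const k V (rr O ε b hb) := by
    intro b hb
    unfold cht at hb
    induction hb using Algebra.adjoin_induction with
    | mem y hy =>
      obtain ⟨m, rfl⟩ := hy
      intro _
      exact hgen m
    | algebraMap c =>
      intro hb
      rw [h.const c hb]
      exact ⟨hV c, Const.mk' c⟩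
    | add a b ha hb iha ihb =>
      intro hab
      have h1 := iha (hj a ha)
      have h2 := ihb (hj b hb)
      have h3 : rr O ε (a + b) hab = rr O ε a (hj a ha) + rr O ε b (hj b hb) := rr_add _ _
      rw [h3]
      exact ⟨V.add_mem _ _ h1.1 h2.1, Const.add hV h1.1 h2.1 h1.2 h2.2⟩
    | mul a b ha hb iha ihb =>
      intro hab
      have h1 := iha (hj a ha)
      have h2 := ihb (hj b hb)
      have h3 : rr O ε (a * b) hab = rr O ε a (hj a ha) * rr O ε b (hj b hb) := rr_mul _ _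
      rw [h3]
      exact ⟨V.mul_mem _ _ h1.1 h2.1, Const.mul hV h1.1 h2.1 h1.2 h2.2⟩
  exact (key a ha _).2

/-- Finitely many curves on which `f` has a zero or a pole. -/
theorem Dat.finite [IsAlgClosed k] (h : Dat x i φ O ε) (hE : FunF k E 2) {f : E} (hf : f ≠ 0) :
    {V : ValuationSubring E | IsDiscreteValuationRing V ∧
      (∃ P ∈ Pts k x 1, Cen P O (V.comap (ε : Kap O →+* E))) ∧ ord V f ≠ 0}.Finite := by
  classical
  have hsub : {V : ValuationSubring E | IsDiscreteValuationRing V ∧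
      (∃ P ∈ Pts k x 1, Cen P O (V.comap (ε : Kap O →+* E))) ∧ ord V f ≠ 0} ⊆
      ⋃ j : Fin (n + 1), {V : ValuationSubring E | (∀ a ∈ cht k x j, a ∈ O.toSubring) ∧
        IsDiscreteValuationRing V ∧ (∀ (a : F) (ha : a ∈ cht k x j) (ha' : a ∈ O.toSubring),
          rr O ε a ha' ∈ V) ∧ (∃ (a : F) (ha : a ∈ cht k x j) (ha' : a ∈ O.toSubring),
            ¬ Const k V (rr O ε a ha')) ∧ ord V f ≠ 0} := by
    rintro V ⟨hV, ⟨P, ⟨j, P₀, hP₀, hd, rfl⟩, hc⟩, hVf⟩
    rw [Set.mem_iUnion]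
    refine ⟨j, fun a ha => hc.1 (LocalSubring.le_ofPrime _ P₀ ha), hV, ?_, ?_, hVf⟩
    · intro a ha ha'
      rw [cen_iff] at hc
      exact (hc.2 a (LocalSubring.le_ofPrime _ P₀ ha) ha').1
    · by_contra hcon
      push Not at hcon
      exact h.nonconst P₀ hd hc fun a ha => hcon a ha _
  refine (Set.finite_iUnion fun j => ?_).subset hsub
  by_cases hj : ∀ a ∈ cht k x j, a ∈ O.toSubring
  · obtain ⟨ρ, hρ⟩ := h.exists_rho j hj
    have hfg : (cht k x j).FG := Subalgebra.fg_def.mpr ⟨_, Set.finite_range _, rfl⟩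
    refine (fin_surf hE ρ.range (xiso_fg ρ hfg) hf).subset ?_
    rintro V ⟨-, hV, h1, ⟨a, ha, ha', h2⟩, h3⟩
    refine ⟨hV, ?_, ⟨ρ ⟨a, ha⟩, ⟨⟨a, ha⟩, rfl⟩, ?_⟩, h3⟩
    · rintro _ ⟨b, rfl⟩
      have h4 := h1 b b.2 (hj b b.2)
      rw [← hρ] at h4
      exact h4
    · rw [hρ]
      exact h2
  · refine (Set.finite_empty).subset ?_
    rintro V ⟨h1, -⟩
    exact hj h1

end Pool.Agent.Lib.MP_b197b4_ntA
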