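import Mathlib
import Pool.Agent.Lib.MP_b197b4_ntA.FinA
import Pool.Agent.Lib.MP_b197b4_ntF.Alg
import Pool.Agent.Lib.MP_b197b4_ntKE.End

/-!
# MP_b197b4_nt, project K1-ALL: the theorem over fields algebraic over a finite field
-/

set_option autoImplicit false

namespace Pool.Agent.Lib.MP_b197b4_ntA

open IsLocalRing Pool.Agent.Lib.MP_b197b4_ntK

/-- **K1-ALL** over fields which are algebraic over a finite field. -/
theorem k1All_main (p : ℕ) [Fact p.Prime] (k : Type) [Field k] [CharP k p]
    (halg : ∀ a : k, ∃ m : ℕ, 0 < m ∧ a ^ p ^ m = a) : K1All k := by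
  have _ := perfect_of_pow p k halg
  have _ : CharP (AlgebraicClosure k) p := charP_of_injective_algebraMap
    (algebraMap k (AlgebraicClosure k)).injective p
  have h := pow_eq_of_tower p k (AlgebraicClosure k) halg
  exact MP_b197b4_ntKE.k1All_descent k (AlgebraicClosure k) (k1All_closed p (AlgebraicClosure k) h)

end Pool.Agent.Lib.MP_b197b4_ntA
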