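import Pool.Agent.Lib.MP_b197b4_ntA.A5
import Pool.Agent.Lib.MP_b197b4_ntA.Apr
import Pool.Agent.Lib.MP_b197b4_ntA.APt
import Pool.Agent.Lib.MP_b197b4_ntA.KDefs

/-!
# MP_b197b4_nt, project K1, part A: functions which are units at the bad points
-/

set_option autoImplicit false

namespace Pool.Agent.Lib.MP_b197b4_ntK

open IsLocalRing

variable {k : Type} {F : Type} [Field k] [Field F] [Algebra k F] {n : ℕ}
  {x : Fin (n + 1) → F}

section Local

variable {O : Subring F} {V : ValuationSubring F}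

/-- A function of `O` whose restriction to a curve is a unit is a unit. -/
theorem ku_unit [IsLocalRing O] (hOV : (O : Set F) ⊆ V) {G : F} (hG : G ∈ O)
    (h : UnitAt O V (res V G)) : G ≠ 0 ∧ G⁻¹ ∈ O := by
  obtain ⟨c, hc, hcG⟩ := h
  have h1 : IsUnit (⟨G, hG⟩ : O) := by
    by_contra h2
    have h3 : (⟨G, hG⟩ : O) ∈ maximalIdeal O := (mem_maximalIdeal _).2 h2
    have h4 : c - ⟨G, hG⟩ ∈ maximalIdeal O := by
      rw [mem_maximalIdeal, mem_nonunits_iff]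
      intro h5
      have h6 := (isUnit_iff_inv _).1 h5
      have h7 : res V ((c - ⟨G, hG⟩ : O) : F) = 0 := by
        have e1 : ((c - ⟨G, hG⟩ : O) : F) = (c : F) - G := rfl
        rw [e1, res_sub (hOV c.2) (hOV hG), hcG, sub_self]
      rw [res_eq_zero_iff (hOV (c - ⟨G, hG⟩ : O).2)] at h7
      have h8 := (V.valuation_le_one_iff _).2 (hOV h6.2)
      have h9 : (1 : V.ValueGroup) = V.valuation ((c - ⟨G, hG⟩ : O) : F) *
          V.valuation ((c - ⟨G, hG⟩ : O) : F)⁻¹ := by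
        rw [← map_mul, mul_inv_cancel₀ h6.1, map_one]
      have h10 := mul_lt_one_of_lt_of_le h7 h8
      rw [← h9] at h10
      exact lt_irrefl _ h10
    have h5 : c ∈ maximalIdeal O := by
      have h6 := add_mem h4 h3
      rwa [sub_add_cancel] at h6
    exact (mem_maximalIdeal _).1 h5 hc
  exact (isUnit_iff_inv _).1 h1

theorem ku_unitAt {G : F} (hG : G ∈ O) (h : G ≠ 0 ∧ G⁻¹ ∈ O) : UnitAt O V (res V G) :=
  ⟨⟨G, hG⟩, (isUnit_iff_inv _).2 h, rfl⟩

end Local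

/-- At the good points of the curve at which `s` generates the ideal of the curve, the order of `s` is one
and no other component passes. -/
theorem ku_gen (hS : SurfN k x) {V : ValuationSubring F} (hV : V ∈ Curves (charts k x)) {m : ℕ}
    {s : F} (hs0 : s ≠ 0) (hpos : 0 < vh x V m s) {O : Subring F} (hO : O ∈ Points (charts k x))
    (hOV : (O : Set F) ⊆ V) (hg : GoodAt O V) {w : F} (hw : Gen k x O w)
    (h : GenAt O {V} (s / w ^ m)) :
    vh x V m s = 1 ∧ ∀ V' ∈ Curves (charts k x), (O : Set F) ⊆ V' → vh x V' m s ≠ 0 →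
      V' = V := by
  have hVO := (hS.curvesAt hO).1 ⟨hV, hOV⟩
  obtain ⟨p, hp, hpV⟩ := CurvesAt.exists_prime hg.1 hVO
  obtain ⟨c, hc, hpc⟩ := h.gen p p.2 (by
    intro V' hV' _
    rw [Set.mem_singleton_iff.1 hV']
    exact hpV)
  have hd := SurfN.dvr hV
  have hsw : s / w ^ m ≠ 0 := div_ne_zero hs0 (pow_ne_zero _ hw.ne)
  have hp0 : (p : F) ≠ 0 := fun h0 => hp.ne_zero (Subtype.ext h0)
  have hc0 : c ≠ 0 := by
    rintro rfl
    rw [zero_mul] at hpc
    exact hp0 hpc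
  constructor
  · have h1 := ord_prime hp hVO hpV
    rw [hpc, ord_mul hd hc0 hsw, ord_div_genA hS hV (Gen.curve hOV hw) m hs0] at h1
    have h2 := (ord_nonneg_iff hd hc0).2 (hOV hc)
    omega
  · intro V' hV' hOV' hne
    have hVO' := (hS.curvesAt hO).1 ⟨hV', hOV'⟩
    have hd' := SurfN.dvr hV'
    refine CurvesAt.unique hVO' hVO hp ?_ hpV
    rw [← ord_pos_iff hd' hp0, hpc, ord_mul hd' hc0 hsw,
      ord_div_genA hS hV' (Gen.curve hOV' hw) m hs0]
    have h2 := (ord_nonneg_iff hd' hc0).2 (hOV' hc)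
    have h3 := (ord_nonneg_iff hd' hsw).2 (hOV' h.mem)
    rw [ord_div_genA hS hV' (Gen.curve hOV' hw) m hs0] at h3
    omega

/-- A power of `a` is lifted to a function which is `1` on the other curves. -/
theorem ku_lift (p : ℕ) [Fact p.Prime] [CharP k p] [IsAlgClosed k]
    (htor : ∀ a : k, a ≠ 0 → ∃ N : ℕ, 0 < N ∧ a ^ N = 1) (hS : SurfN k x)
    {V : ValuationSubring F} (hV : V ∈ Curves (charts k x)) {C : Set (ValuationSubring F)}
    (hC : C.Finite) (hCC : ∀ V' ∈ C, V' ∈ Curves (charts k x)) (hVC : V ∉ C) {w : F}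
    (hwV : Gen k x V.toSubring w) (hwC : ∀ V' ∈ C, Gen k x V'.toSubring w)
    (a : chartOf k x w)
    (ha : ∀ O ∈ Points (charts k x), Gen k x O w → (O : Set F) ⊆ V →
      (∃ V' ∈ C, (O : Set F) ⊆ V') → (a : F)⁻¹ ∈ O ∧ (a : F) ≠ 0) :
    ∃ N : ℕ, 0 < N ∧ ∃ G ∈ chartOf k x w, res V G = res V (a : F) ^ N ∧
      ∀ V' ∈ C, res V' G = 1 := by
  classical
  have hw := hwV.mem
  have hw0 := hwV.ne
  have hA := hS.chartOf hw hw0
  have hcV : IsCurve (chartOf k x w) V := (hS.curve_iff hw hw0).2 ⟨hV, hwV⟩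
  have hcC : ∀ V' ∈ C, IsCurve (chartOf k x w) V' := fun V' h =>
    (hS.curve_iff hw hw0).2 ⟨hCC V' h, hwC V' h⟩
  obtain ⟨P, hPp, hP⟩ := exists_primeOf hcV.2.1
  have hQ : ∀ V' : ValuationSubring F, ∃ Q : Ideal (chartOf k x w), V' ∈ C →
      Q.IsPrime ∧ PrimeOf (chartOf k x w) V' Q := by
    intro V'
    by_cases h : V' ∈ C
    · obtain ⟨Q, h1, h2⟩ := exists_primeOf (hcC V' h).2.1
      exact ⟨Q, fun _ => ⟨h1, h2⟩⟩
    · exact ⟨⊥, fun h' => absurd h' h⟩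
  choose Q hQ using hQ
  have hne : ∀ V' ∈ C, Q V' ≠ P := by
    intro V' h hPQ
    refine hVC ?_
    have h1 : V' = V := by
      have h2 := (hQ V' h).2
      rw [hPQ] at h2
      refine ValuationSubring.ext _ _ fun y => ?_
      constructor
      · intro hy
        obtain ⟨b, c, hb, hc, hv, rfl⟩ := (hcC V' h).2.2 y hy
        have h3 : (⟨c, hc⟩ : chartOf k x w) ∉ P := (h2.val_one (hcC V' h).2.1 ⟨c, hc⟩).2 hv
        have h4 := (hP.val_one hcV.2.1 ⟨c, hc⟩).1 h3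
        refine (V.valuation_le_one_iff _).1 ?_
        rw [map_div₀]
        have h5 := (V.valuation_le_one_iff _).2 (hcV.2.1 b hb)
        change V.valuation b / V.valuation c ≤ 1
        change V.valuation c = 1 at h4
        rw [h4, div_one]
        exact h5
      · intro hy
        obtain ⟨b, c, hb, hc, hv, rfl⟩ := hcV.2.2 y hy
        have h3 : (⟨c, hc⟩ : chartOf k x w) ∉ P := (hP.val_one hcV.2.1 ⟨c, hc⟩).2 hv
        have h4 := (h2.val_one (hcC V' h).2.1 ⟨c, hc⟩).1 h3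
        refine (V'.valuation_le_one_iff _).1 ?_
        rw [map_div₀]
        have h5 := (V'.valuation_le_one_iff _).2 ((hcC V' h).2.1 b hb)
        change V'.valuation c = 1 at h4
        rw [h4, div_one]
        exact h5
    rw [← h1]
    exact h
  obtain ⟨N, hN, G, hG1, hG2⟩ := exists_lift p htor hA hPp (hcV.height hP) (C := Q '' C)
    (hC.image Q) (by
      rintro _ ⟨V', hV', rfl⟩
      exact ⟨(hQ V' hV').1, (hcC V' hV').height (hQ V' hV').2, hne V' hV'⟩) (a := a) (by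
      rintro m hm hPm ⟨_, ⟨V', hV', rfl⟩, hQm⟩ ham
      obtain ⟨O, hO, hOw, hOm⟩ := hS.exists_point hw hw0 hm
      have hsub : ∀ W : ValuationSubring F, IsCurve (chartOf k x w) W →
          ∀ R : Ideal (chartOf k x w), PrimeOf (chartOf k x w) W R → R ≤ m →
          (O : Set F) ⊆ W := by
        intro W hW R hR hRm y hy
        obtain ⟨b, c, hc, rfl⟩ := (hOm y).1 hy
        have h3 : c ∉ R := fun h => hc (hRm h)
        have h4 := (hR.val_one hW.2.1 c).1 h3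
        refine (W.valuation_le_one_iff _).1 ?_
        rw [map_div₀, h4, div_one]
        exact (W.valuation_le_one_iff _).2 (hW.2.1 b b.2)
      obtain ⟨h5, h6⟩ := ha O hO hOw (hsub V hcV P hP hPm)
        ⟨V', hV', hsub V' (hcC V' hV') _ (hQ V' hV').2 hQm⟩
      have := hm.isPrime
      have h7 : IsUnit (⟨(a : F), mem_of_isLoc hm.ne_top hOm a.2⟩ : O) :=
        (isUnit_iff_inv _).2 ⟨h6, h5⟩
      exact (hOm.isUnit_iff a).1 h7 ham)
  refine ⟨N, hN, G, G.2, ?_, fun V' hV' => ?_⟩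
  · have h1 := (hP (G - a ^ N)).1 hG1
    have e1 : ((G - a ^ N : chartOf k x w) : F) = (G : F) - (a : F) ^ N := rfl
    rw [e1, ← res_eq_zero_iff (sub_mem (hcV.2.1 _ G.2) (pow_mem (hcV.2.1 _ a.2) _)),
      res_sub (hcV.2.1 _ G.2) (pow_mem (hcV.2.1 _ a.2) _), res_pow (hcV.2.1 _ a.2),
      sub_eq_zero] at h1
    exact h1
  · have h1 := ((hQ V' hV').2 (G - 1)).1 (hG2 _ ⟨V', hV', rfl⟩)
    have e1 : ((G - 1 : chartOf k x w) : F) = (G : F) - 1 := rfl
    have hc' := hcC V' hV'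
    rw [e1, ← res_eq_zero_iff (sub_mem (hc'.2.1 _ G.2) (one_mem _)),
      res_sub (hc'.2.1 _ G.2) (one_mem _), res_one, sub_eq_zero] at h1
    exact h1

theorem ku_unique {A : Subalgebra k F} {m m' : Ideal A} (hm : m.IsMaximal) (hm' : m'.IsMaximal)
    {O : Subring F} (h : IsLoc A m O) (h' : IsLoc A m' O) : m = m' := by
  have := hm.isPrime
  have := hm'.isPrime
  ext a
  rw [← not_iff_not, ← h.isUnit_iff a, ← h'.isUnit_iff a]

/-- The first half of `kill_units`. -/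
theorem exists_data (p : ℕ) [Fact p.Prime] [CharP k p] [IsAlgClosed k]
    (htor : ∀ a : k, a ≠ 0 → ∃ N : ℕ, 0 < N ∧ a ^ N = 1) (hS : SurfN k x)
    {V : ValuationSubring F} (hV : V ∈ Curves (charts k x)) {u : ResidueField V} (hu : u ≠ 0)
    (hub : ∀ O ∈ Points (charts k x), (O : Set F) ⊆ V → ¬ GoodAt O V → UnitAt O V u) :
    ∃ m s w N G₁ G₂, KData k x V u m s w N G₁ G₂ := by
  classical
  -- the points
  obtain ⟨O', hO', hOV', hg', -, -⟩ := A5.exists_pt hS hV (E := ∅) Set.finite_empty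
    (fun V' h => absurd h (Set.notMem_empty V')) (Set.notMem_empty V) (T := ∅) Set.finite_empty
  let T : Set (Subring F) :=
    {O | O ∈ Points (charts k x) ∧ (O : Set F) ⊆ V ∧ ¬ UnitAt O V u} ∪ {O'}
  have hTf : T.Finite := (hS.finite_not_unit hV hu).union (Set.finite_singleton _)
  have hTP : ∀ O ∈ T, O ∈ Points (charts k x) ∧ (O : Set F) ⊆ V ∧ GoodAt O V := by
    rintro O (⟨h1, h2, h3⟩ | h)
    · refine ⟨h1, h2, ?_⟩
      by_contra h4
      exact h3 (hub O h1 h2 h4)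
    · rw [Set.mem_singleton_iff.1 h]
      exact ⟨hO', hOV', hg'⟩
  -- the form
  obtain ⟨m, s, hs, hs0, hsC, hsT⟩ := exists_gen_form hS (C := {V}) (Set.finite_singleton V)
    (by
      intro V' h
      rw [Set.mem_singleton_iff.1 h]
      exact hV) hTf (fun O h => (hTP O h).1) (fun O h => (hTP O h).2.2.1) ⟨O', Or.inr rfl⟩
  have hsV := hsC V rfl
  have hcomp : ∀ O ∈ T, ∀ V' ∈ Curves (charts k x), (O : Set F) ⊆ V' → vh x V' m s ≠ 0 →
      V' = V := by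
    intro O hO
    obtain ⟨i, hi⟩ := gen_of_point hS.ne (hTP O hO).1
    exact (ku_gen hS hV hs0 hsV (hTP O hO).1 (hTP O hO).2.1 (hTP O hO).2.2 hi
      (hsT O hO _ hi)).2
  let C : Set (ValuationSubring F) := {V' | V' ∈ Curves (charts k x) ∧ 0 < vh x V' m s}
  have hCf : C.Finite := (vh_finite (fun f hf => hS.curves_finite f hf) hS.ne m hs0).subset
    fun V' h => ⟨h.1, h.2.ne'⟩
  have hCC : ∀ V' ∈ C, V' ∈ Curves (charts k x) := fun V' h => h.1
  have hVC : V ∈ C := ⟨hV, hsV⟩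
  -- the points at which the union of the curves is not smooth
  let N₀ : Set (Subring F) := {O | O ∈ Points (charts k x) ∧ (∃ V' ∈ C, (O : Set F) ⊆ V') ∧
    ¬ SmoothAt O C}
  have hNf : N₀.Finite := finite_not_smooth hS hCf hCC
  obtain ⟨w, hw, hw0, hwC, hwN⟩ := hS.gen hCf hCC hNf (fun O h => h.1)
  have huN : ∀ O ∈ N₀, (O : Set F) ⊆ V → UnitAt O V u := by
    intro O hO hOV
    by_contra h
    have hOT : O ∈ T := Or.inl ⟨hO.1, hOV, h⟩
    exact hO.2.2 ⟨V, hVC, hOV, fun V' hV' hOV' => hcomp O hOT V' hV'.1 hOV' hV'.2.ne',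
      (hTP O hOT).2.2⟩
  -- the fraction
  have hA := hS.chartOf hw hw0
  have hcV : IsCurve (chartOf k x w) V := (hS.curve_iff hw hw0).2 ⟨hV, hwC V hVC⟩
  let TT : Set (Ideal (chartOf k x w)) := {m' | m'.IsMaximal ∧ ∃ O ∈ N₀, (O : Set F) ⊆ V ∧
    IsLoc (chartOf k x w) m' O}
  have hTT : TT.Finite := by
    refine (hNf.biUnion (t := fun O => {m' : Ideal (chartOf k x w) | m'.IsMaximal ∧
      IsLoc (chartOf k x w) m' O}) fun O _ => ?_).subset ?_
    · refine Set.Subsingleton.finite ?_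
      rintro m₁ ⟨h1, h2⟩ m₂ ⟨h3, h4⟩
      exact ku_unique h1 h3 h2 h4
    · rintro m' ⟨h1, O, hO, -, h2⟩
      exact Set.mem_biUnion hO ⟨h1, h2⟩
  obtain ⟨a, b, ha1, hb1, huab, hab⟩ := exists_frac hA hcV hTT (fun m' h => h.1) hu (by
    rintro m' ⟨hm', O, hO, hOV, hOm⟩ O₂ hO₂
    have h1 : O₂ = O := SetLike.ext fun y => (hO₂ y).trans (hOm y).symm
    rw [h1]
    exact ⟨hOV, huN O hO hOV⟩)
  have hunit : ∀ O ∈ N₀, (O : Set F) ⊆ V →
      ((a : F)⁻¹ ∈ O ∧ (a : F) ≠ 0) ∧ ((b : F)⁻¹ ∈ O ∧ (b : F) ≠ 0) := by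
    intro O hO hOV
    obtain ⟨m', hm', hOm⟩ := hS.exists_isLoc hO.1 (hwN O hO)
    have := hm'.isPrime
    have h1 := hab m' ⟨hm', O, hO, hOV, hOm⟩
    have h2 := (isUnit_iff_inv _).1 ((hOm.isUnit_iff a).2 h1.1)
    have h3 := (isUnit_iff_inv _).1 ((hOm.isUnit_iff b).2 h1.2)
    exact ⟨⟨h2.2, h2.1⟩, h3.2, h3.1⟩
  -- the lifts
  have hcross : ∀ O ∈ Points (charts k x), Gen k x O w → (O : Set F) ⊆ V →
      (∃ V' ∈ C \ {V}, (O : Set F) ⊆ V') → O ∈ N₀ := by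
    rintro O hO - hOV ⟨V', ⟨hV', hne⟩, hOV'⟩
    refine ⟨hO, ⟨V, hVC, hOV⟩, ?_⟩
    rintro ⟨W, -, -, hu', -⟩
    exact hne ((hu' V' hV' hOV').trans (hu' V hVC hOV).symm)
  have hC'f : (C \ {V}).Finite := hCf.subset Set.sdiff_subset
  obtain ⟨Na, hNa, Ga, hGa, hGaV, hGaC⟩ := ku_lift p htor hS hV hC'f (fun V' h => h.1.1)
    (fun h => h.2 rfl) (hwC V hVC) (fun V' h => hwC V' h.1) a
    (fun O hO hOw hOV h => (hunit O (hcross O hO hOw hOV h) hOV).1)
  obtain ⟨Nb, hNb, Gb, hGb, hGbV, hGbC⟩ := ku_lift p htor hS hV hC'f (fun V' h => h.1.1)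
    (fun h => h.2 rfl) (hwC V hVC) (fun V' h => hwC V' h.1) b
    (fun O hO hOw hOV h => (hunit O (hcross O hO hOw hOV h) hOV).2)
  have hmem : ∀ V' ∈ C, ∀ y ∈ chartOf k x w, y ∈ V' := fun V' h =>
    ((hS.curve_iff hw hw0).2 ⟨h.1, hwC V' h⟩).2.1
  have hra : res V (a : F) ≠ 0 := (res_ne_zero_iff (hmem V hVC _ a.2)).2 ha1
  have hrb : res V (b : F) ≠ 0 := (res_ne_zero_iff (hmem V hVC _ b.2)).2 hb1
  have r1 : res V (Ga ^ Nb) = res V (a : F) ^ (Na * Nb) := by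
    rw [res_pow (hmem V hVC _ hGa), hGaV, ← pow_mul]
  have r2 : res V (Gb ^ Na) = res V (b : F) ^ (Na * Nb) := by
    rw [res_pow (hmem V hVC _ hGb), hGbV, ← pow_mul, mul_comm]
  have o1 : ∀ V' ∈ C, V' ≠ V → res V' (Ga ^ Nb) = 1 := fun V' h hne => by
    rw [res_pow (hmem V' h _ hGa), hGaC V' ⟨h, hne⟩, one_pow]
  have o2 : ∀ V' ∈ C, V' ≠ V → res V' (Gb ^ Na) = 1 := fun V' h hne => by
    rw [res_pow (hmem V' h _ hGb), hGbC V' ⟨h, hne⟩, one_pow]
  have hG1 : Ga ^ Nb ∈ chartOf k x w := pow_mem hGa _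
  have hG2 : Gb ^ Na ∈ chartOf k x w := pow_mem hGb _
  refine ⟨m, s, w, Na * Nb, Ga ^ Nb, Gb ^ Na, hs, hs0, hsV, hw, hw0,
    fun V' h1 h2 => hwC V' ⟨h1, h2⟩, Nat.mul_pos hNa hNb, hG1, hG2, ?_, ?_, ?_, ?_, ?_⟩
  · intro V' h1 h2
    rw [← res_ne_zero_iff (hmem V' ⟨h1, h2⟩ _ hG1)]
    by_cases h : V' = V
    · subst h
      rw [r1]
      exact pow_ne_zero _ hra
    · rw [o1 V' ⟨h1, h2⟩ h]
      exact one_ne_zero
  · intro V' h1 h2
    rw [← res_ne_zero_iff (hmem V' ⟨h1, h2⟩ _ hG2)]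
    by_cases h : V' = V
    · subst h
      rw [r2]
      exact pow_ne_zero _ hrb
    · rw [o2 V' ⟨h1, h2⟩ h]
      exact one_ne_zero
  · rw [r1, r2, huab, div_pow, div_mul_cancel₀ _ (pow_ne_zero _ hrb)]
  · intro V' h1 h2 h
    rw [o1 V' ⟨h1, h2⟩ h, o2 V' ⟨h1, h2⟩ h]
  · rintro O hO ⟨V', hV', hpos, hOW⟩ hns
    have hON : O ∈ N₀ := ⟨hO, ⟨V', ⟨hV', hpos⟩, hOW⟩, hns⟩
    have hgen := hwN O hON
    have hloc := hS.local hO
    obtain ⟨m', hm', hOm⟩ := hS.exists_isLoc hO hgen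
    have m1 := mem_of_isLoc hm'.ne_top hOm hG1
    have m2 := mem_of_isLoc hm'.ne_top hOm hG2
    refine ⟨hgen, ?_⟩
    by_cases h : V' = V
    · subst h
      obtain ⟨⟨a1, a2⟩, ⟨b1, b2⟩⟩ := hunit O hON hOW
      have ma := mem_of_isLoc hm'.ne_top hOm a.2
      have mb := mem_of_isLoc hm'.ne_top hOm b.2
      constructor
      · refine (ku_unit hOW m1 ?_).2
        rw [r1, ← res_pow (hOW ma)]
        refine ku_unitAt (pow_mem ma _) ⟨pow_ne_zero _ a2, ?_⟩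
        rw [← inv_pow]
        exact pow_mem a1 _
      · refine (ku_unit hOW m2 ?_).2
        rw [r2, ← res_pow (hOW mb)]
        refine ku_unitAt (pow_mem mb _) ⟨pow_ne_zero _ b2, ?_⟩
        rw [← inv_pow]
        exact pow_mem b1 _
    · constructor
      · refine (ku_unit hOW m1 ?_).2
        rw [o1 V' ⟨hV', hpos⟩ h]
        exact unitAt_one O V'
      · refine (ku_unit hOW m2 ?_).2
        rw [o2 V' ⟨hV', hpos⟩ h]
        exact unitAt_one O V'

end Pool.Agent.Lib.MP_b197b4_ntK
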