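import Mathlib

/-!
# MP_b197b4_nt, K1-ALL, Pic: dimensions of quotients of Dedekind domains
-/

set_option autoImplicit false

namespace Pool.Agent.Lib.MP_b197b4_ntA

open Module

/-- A larger ideal has a smaller quotient. -/
theorem picA_lt {k R : Type*} [Field k] [CommRing R] [Algebra k R] {I J : Ideal R} (h : I < J)
    (hfin : FiniteDimensional k (R ⧸ I)) :
    FiniteDimensional k (R ⧸ J) ∧ finrank k (R ⧸ J) + 1 ≤ finrank k (R ⧸ I) := by
  set f : (R ⧸ I) →ₐ[k] (R ⧸ J) := Ideal.Quotient.factorₐ k h.le with hf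
  have hsurj : Function.Surjective f.toLinearMap := by
    intro x
    obtain ⟨a, rfl⟩ := Ideal.Quotient.mk_surjective x
    exact ⟨Ideal.Quotient.mk I a, rfl⟩
  have hfd : FiniteDimensional k (R ⧸ J) := FiniteDimensional.of_surjective _ hsurj
  refine ⟨hfd, ?_⟩
  have h1 := LinearMap.finrank_range_add_finrank_ker f.toLinearMap
  rw [LinearMap.range_eq_top.2 hsurj, finrank_top] at h1
  have h2 : 0 < finrank k (LinearMap.ker f.toLinearMap) := by
    rw [Module.finrank_pos_iff, Submodule.nontrivial_iff_ne_bot]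
    obtain ⟨a, haJ, haI⟩ := Set.exists_of_ssubset h
    intro hbot
    have h3 : Ideal.Quotient.mk I a ∈ LinearMap.ker f.toLinearMap := by
      rw [LinearMap.mem_ker]
      change Ideal.Quotient.mk J a = 0
      exact Ideal.Quotient.eq_zero_iff_mem.2 haJ
    rw [hbot, Submodule.mem_bot, Ideal.Quotient.eq_zero_iff_mem] at h3
    exact haI h3
  omega

/-- Lengths of the quotients by powers. -/
theorem picA_chain {k R : Type*} [Field k] [CommRing R] [IsDedekindDomain R] [Algebra k R]
    {b P : Ideal R} (hb : b ≠ ⊥) (hP : P ≠ ⊥) (hP' : P ≠ ⊤) (m : ℕ)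
    (hfin : FiniteDimensional k (R ⧸ (b * P ^ m))) :
    FiniteDimensional k (R ⧸ b) ∧ finrank k (R ⧸ b) + m ≤ finrank k (R ⧸ (b * P ^ m)) := by
  induction m with
  | zero =>
    rw [pow_zero, mul_one] at hfin ⊢
    exact ⟨hfin, le_rfl⟩
  | succ m ih =>
    have hne : b * P ^ m ≠ 0 := mul_ne_zero hb (pow_ne_zero _ hP)
    have hlt : b * P ^ (m + 1) < b * P ^ m := by
      refine lt_of_le_of_ne ?_ ?_
      · rw [pow_succ, ← mul_assoc]
        exact Ideal.mul_le_left
      · intro h
        apply hP'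
        rw [pow_succ, ← mul_assoc] at h
        have h2 : b * P ^ m * P = b * P ^ m * 1 := by rw [h, mul_one]
        have h3 : P = 1 := mul_left_cancel₀ hne h2
        rw [h3, Ideal.one_eq_top]
    obtain ⟨h1, h2⟩ := picA_lt hlt hfin
    obtain ⟨h3, h4⟩ := ih h1
    exact ⟨h3, by omega⟩

end Pool.Agent.Lib.MP_b197b4_ntA
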