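import Pool.Agent.Lib.MP_b197b4_ntA.PicA1

/-!
# MP_b197b4_nt, K1-ALL, Pic: functions with one pole, the counting argument
-/

set_option autoImplicit false

namespace Pool.Agent.Lib.MP_b197b4_ntA

open Module Polynomial

/-- Valuation rings are integrally closed. -/
theorem picA_integral {K : Type} [Field K] (V : ValuationSubring K) (A : Type) [CommRing A]
    [Algebra A K] (hA : ∀ a : A, algebraMap A K a ∈ V) {z : K} (hz : IsIntegral A z) : z ∈ V := by
  have h1 : IsIntegral V z := by
    obtain ⟨p, hp, h0⟩ := hz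
    let φ : A →+* V := (algebraMap A K).codRestrict V.toSubring hA
    refine ⟨p.map φ, hp.map _, ?_⟩
    rw [eval₂_map]
    exact h0
  obtain ⟨y, hy⟩ := IsIntegrallyClosed.isIntegral_iff.1 h1
  rw [← hy]
  exact y.2

/-- The localization of a Dedekind domain at a maximal ideal is a valuation ring. -/
theorem picA_local {K R : Type} [Field K] [CommRing R] [IsDedekindDomain R] [Algebra R K]
    [IsFractionRing R K] {P : Ideal R} (hP : P ≠ ⊥) [hp : P.IsPrime] (y : K) :
    ∃ r d : R, d ∉ P ∧ (y * algebraMap R K d = algebraMap R K r ∨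
      y * algebraMap R K r = algebraMap R K d) := by
  by_cases hy : y = 0
  · exact ⟨0, 1, fun h => hp.ne_top (Ideal.eq_top_of_isUnit_mem _ h isUnit_one), Or.inl (by simp [hy])⟩
  let Rp := Localization.subalgebra.ofField K P.primeCompl P.primeCompl_le_nonZeroDivisors
  have hloc : IsLocalization.AtPrime Rp P := Localization.subalgebra.isLocalization_ofField K _ _
  have hdvr : IsDiscreteValuationRing Rp :=
    IsLocalization.AtPrime.isDiscreteValuationRing_of_dedekind_domain R hP Rp
  have key : ∀ z : K, IsLocalization.IsInteger Rp z → ∃ r d : R, d ∉ P ∧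
      z * algebraMap R K d = algebraMap R K r := by
    rintro z ⟨c, hc⟩
    obtain ⟨⟨r, d⟩, h⟩ := IsLocalization.surj P.primeCompl c
    refine ⟨r, d, d.2, ?_⟩
    have h1 := congrArg (algebraMap Rp K) h
    rw [map_mul, hc] at h1
    exact h1
  rcases ValuationRing.isInteger_or_isInteger Rp y with h | h
  · obtain ⟨r, d, hd, h1⟩ := key y h
    exact ⟨r, d, hd, Or.inl h1⟩
  · obtain ⟨r, d, hd, h1⟩ := key _ h
    refine ⟨r, d, hd, Or.inr ?_⟩
    rw [← h1, mul_inv_cancel_left₀ hy]

/-- Different places containing `R` have incomparable centres. -/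
theorem picA_centre {K R : Type} [Field K] [CommRing R] [IsDedekindDomain R] [Algebra R K]
    [IsFractionRing R K] (V W : ValuationSubring K) (hV : ∀ r : R, algebraMap R K r ∈ V)
    (hW : ∀ r : R, algebraMap R K r ∈ W) (hVW : ¬ V ≤ W) {s : R} (hs0 : s ≠ 0)
    (hs : W.valuation (algebraMap R K s) < 1) :
    ∃ x : R, W.valuation (algebraMap R K x) < 1 ∧ V.valuation (algebraMap R K x) = 1 := by
  by_contra hcon
  push Not at hcon
  apply hVW
  have hunit : ∀ (U : ValuationSubring K) (z : K), z ∈ U → ¬ U.valuation z < 1 → U.valuation z = 1 :=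
    fun U z h1 h2 => le_antisymm ((U.valuation_le_one_iff z).2 h1) (not_lt.1 h2)
  let cen : ∀ (U : ValuationSubring K), (∀ r : R, algebraMap R K r ∈ U) → Ideal R := fun U hU =>
    (IsLocalRing.maximalIdeal U).comap ((algebraMap R K).codRestrict U.toSubring hU)
  have hcen : ∀ (U : ValuationSubring K) (hU : ∀ r : R, algebraMap R K r ∈ U) (r : R),
      r ∈ cen U hU ↔ U.valuation (algebraMap R K r) < 1 := fun U hU r =>
    ValuationSubring.valuation_lt_one_iff U _
  have hprime : ∀ (U : ValuationSubring K) (hU : ∀ r : R, algebraMap R K r ∈ U), (cen U hU).IsPrime :=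
    fun U hU => Ideal.IsPrime.comap _
  have hWp := hprime W hW
  have hVp := hprime V hV
  have hsW : s ∈ cen W hW := (hcen W hW s).2 hs
  have hbot : cen W hW ≠ ⊥ := fun h => hs0 (by rw [h] at hsW; exact hsW)
  have hle : cen W hW ≤ cen V hV := by
    intro x hx
    rw [hcen] at hx ⊢
    by_contra hx2
    exact hcon x hx (hunit V _ (hV x) hx2)
  have hmax : (cen W hW).IsMaximal := hWp.isMaximal hbot
  have heq : cen W hW = cen V hV := hmax.eq_of_le hVp.ne_top hle
  intro y hy
  obtain ⟨r, d, hd, h | h⟩ := picA_local (K := K) hbot y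
  · have hdW : W.valuation (algebraMap R K d) = 1 := hunit W _ (hW d) fun h1 => hd ((hcen W hW d).2 h1)
    rw [← ValuationSubring.valuation_le_one_iff]
    have h1 := congrArg W.valuation h
    rw [map_mul, hdW, mul_one] at h1
    rw [h1]
    exact (W.valuation_le_one_iff _).2 (hW r)
  · have hdV : V.valuation (algebraMap R K d) = 1 := hunit V _ (hV d) fun h1 => hd (by
      rw [heq]; exact (hcen V hV d).2 h1)
    have hdW : W.valuation (algebraMap R K d) = 1 := hunit W _ (hW d) fun h1 => hd ((hcen W hW d).2 h1)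
    have h1 := congrArg V.valuation h
    rw [map_mul, hdV] at h1
    have hyV := (V.valuation_le_one_iff _).2 hy
    have hrV := (V.valuation_le_one_iff _).2 (hV r)
    have hrV1 : V.valuation (algebraMap R K r) = 1 := by
      refine le_antisymm hrV ?_
      rw [← h1]
      exact mul_le_of_le_one_left' hyV
    have hrW : W.valuation (algebraMap R K r) = 1 := hunit W _ (hW r) fun h2 => by
      have h3 : r ∈ cen V hV := by
        rw [← heq]; exact (hcen W hW r).2 h2
      rw [hcen, hrV1] at h3
      exact lt_irrefl _ h3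
    have h2 := congrArg W.valuation h
    rw [map_mul, hdW, hrW, mul_one] at h2
    rw [← ValuationSubring.valuation_le_one_iff, h2]

end Pool.Agent.Lib.MP_b197b4_ntA
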