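import Pool.Agent.Lib.MP_b197b4_ntA.PicA2

/-!
# MP_b197b4_nt, K1-ALL, Pic: the counting argument
-/

set_option autoImplicit false

namespace Pool.Agent.Lib.MP_b197b4_ntA

open Module Polynomial

/-- The counting argument: `R` is a Dedekind domain, free over `k[X]`, with field of fractions `K`,
`s` is the image of `X`, `W` is a place with `s` in its maximal ideal. -/
theorem picA_count {k K : Type} [Field k] [Field K] [Algebra k K] [Algebra k[X] K]
    {R : Type} [CommRing R] [IsDedekindDomain R] [Algebra k R]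
    [Algebra k[X] R] [IsScalarTower k k[X] R] [Algebra R K] [IsScalarTower k[X] R K]
    [IsScalarTower k R K] [IsFractionRing R K] {ι : Type} [Fintype ι] (w : Basis ι k[X] R)
    (s : K) (hs : s = algebraMap k[X] K X) (hs0 : s ≠ 0)
    (W : ValuationSubring K) (hRW : ∀ r : R, algebraMap R K r ∈ W) (hsW : W.valuation s < 1)
    (a : k[X]) (ha : a ≠ 0) (δ : ℕ) :
    ∃ (m : ℕ) (f : K), (∀ c : k, f ≠ algebraMap k K c) ∧ δ ≤ m ∧
      (∃ q : ι → k[X], (∀ i, (q i).natDegree ≤ m - δ) ∧
        f = (∑ i, algebraMap k[X] K (q i * a) * algebraMap R K (w i)) / s ^ m) ∧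
      ∀ V : ValuationSubring K, (∀ r : R, algebraMap R K r ∈ V) → V.valuation s < 1 → ¬ V ≤ W → f ∈ V := by
  classical
  have hinj : Function.Injective (algebraMap R K) := IsFractionRing.injective R K
  set sR : R := algebraMap k[X] R X with hsR
  have hsRs : algebraMap R K sR = s := by
    rw [hs, hsR, ← IsScalarTower.algebraMap_apply]
  have hsR0 : sR ≠ 0 := by
    intro h
    rw [h, map_zero] at hsRs
    exact hs0 hsRs.symm
  -- the centre of `W`
  set P : Ideal R := (IsLocalRing.maximalIdeal W).comap ((algebraMap R K).codRestrict W.toSubring hRW)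
    with hPdef
  have hPmem : ∀ r : R, r ∈ P ↔ W.valuation (algebraMap R K r) < 1 := fun r =>
    ValuationSubring.valuation_lt_one_iff W _
  have hPp : P.IsPrime := Ideal.IsPrime.comap _
  have hsP : sR ∈ P := (hPmem sR).2 (by rw [hsRs]; exact hsW)
  have hPbot : P ≠ ⊥ := fun h => hsR0 (by rw [h] at hsP; exact hsP)
  obtain ⟨b, hb⟩ : P ∣ Ideal.span {sR} := Ideal.dvd_span_singleton.2 hsP
  have hbbot : b ≠ ⊥ := by
    rintro rfl
    rw [Ideal.mul_bot, Ideal.span_singleton_eq_bot] at hb
    exact hsR0 hb
  set N := Fintype.card ι with hN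
  set m := N * δ + δ + 2 with hm
  have hne : Nonempty ι := by
    by_contra hempty
    rw [not_nonempty_iff] at hempty
    have : (1 : R) = 0 := by
      have h1 := w.sum_repr (1 : R)
      rw [Finset.univ_eq_empty, Finset.sum_empty] at h1
      exact h1.symm
    exact one_ne_zero this
  have hN1 : 1 ≤ N := Fintype.card_pos
  have hspan : Ideal.span {sR ^ m} = b ^ m * P ^ m := by
    rw [← Ideal.span_singleton_pow, hb, mul_pow, mul_comm]
  have hdim : finrank k (R ⧸ (b ^ m * P ^ m)) = m * N := by
    rw [← hspan, finrank_quotient_span_eq_natDegree_norm w (pow_ne_zero m hsR0), hsR, ← map_pow,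
      Algebra.norm_algebraMap_of_basis w, ← pow_mul, natDegree_X_pow]
  have hfin : FiniteDimensional k (R ⧸ (b ^ m * P ^ m)) := by
    refine Module.finite_of_finrank_pos ?_
    rw [hdim]
    positivity
  obtain ⟨hfin2, hle⟩ := picA_chain (k := k) (pow_ne_zero m hbbot) hPbot hPp.ne_top m hfin
  rw [hdim] at hle
  -- the family
  let Q := ι → degreeLT k (m - δ + 1)
  have hQ : finrank k Q = N * (m - δ + 1) := by
    rw [Module.finrank_pi_fintype]
    simp only [(degreeLTEquiv k (m - δ + 1)).finrank_eq, Module.finrank_fintype_fun_eq_card, Fintype.card_fin,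
      Finset.sum_const, Finset.card_univ, smul_eq_mul, hN]
  let Φ : Q →ₗ[k] R :=
    { toFun := fun q => ∑ i, ((q i : k[X]) * a) • w i
      map_add' := fun q q' => by
        rw [← Finset.sum_add_distrib]
        refine Finset.sum_congr rfl fun i _ => ?_
        rw [← add_smul, ← add_mul]
        rfl
      map_smul' := fun c q => by
        rw [RingHom.id_apply, Finset.smul_sum]
        refine Finset.sum_congr rfl fun i _ => ?_
        rw [← smul_assoc, ← smul_mul_assoc]
        rfl }
  have hΦinj : Function.Injective Φ := by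
    rw [← LinearMap.ker_eq_bot, LinearMap.ker_eq_bot']
    intro q hq
    have h1 : ∑ i, ((q i : k[X]) * a) • w i = 0 := hq
    have h2 := (Fintype.linearIndependent_iff.1 w.linearIndependent) _ h1
    funext i
    have h3 := h2 i
    rcases mul_eq_zero.1 h3 with h | h
    · exact Subtype.ext h
    · exact absurd h ha
  let Ψ : Q →ₗ[k] (R ⧸ b ^ m) := (Ideal.Quotient.mkₐ k (b ^ m)).toLinearMap.comp Φ
  have hQfin : FiniteDimensional k Q := by
    refine Module.finite_of_finrank_pos ?_
    rw [hQ]
    positivity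
  have hker : 2 ≤ finrank k (LinearMap.ker Ψ) := by
    have h1 := LinearMap.finrank_range_add_finrank_ker Ψ
    have h2 : finrank k (LinearMap.range Ψ) ≤ finrank k (R ⧸ b ^ m) := Submodule.finrank_le _
    rw [hQ] at h1
    have h3 : m - δ = N * δ + 2 := by omega
    have h6 : N * (m - δ + 1) = N * (N * δ + 2 + 1) := by rw [h3]
    rw [h6] at h1
    have h4 : m * N = N * (N * δ + 2 + 1) + N * δ - N := by
      rw [hm]
      have : N * (N * δ + 2 + 1) + N * δ = (N * δ + δ + 2) * N + N := by ring
      rw [this]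
      omega
    have h5 : N * (N * δ + 2 + 1) + N * δ ≥ N := by nlinarith
    omega
  let Θ : Q →ₗ[k] K :=
    { toFun := fun q => algebraMap R K (Φ q) / s ^ m
      map_add' := fun q q' => by rw [map_add, map_add, add_div]
      map_smul' := fun c q => by
        rw [map_smul, RingHom.id_apply, Algebra.smul_def, map_mul, ← IsScalarTower.algebraMap_apply, mul_div_assoc,
          Algebra.smul_def] }
  have hΘinj : Function.Injective Θ := by
    intro q q' h
    have h1 : algebraMap R K (Φ q) / s ^ m = algebraMap R K (Φ q') / s ^ m := h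
    rw [div_left_inj' (pow_ne_zero _ hs0)] at h1
    exact hΦinj (hinj h1)
  obtain ⟨q, hq, hconst⟩ : ∃ q ∈ LinearMap.ker Ψ, ∀ c : k, Θ q ≠ algebraMap k K c := by
    by_contra hcon
    push Not at hcon
    have h1 : (LinearMap.ker Ψ).map Θ ≤ Submodule.span k {(1 : K)} := by
      rintro _ ⟨q, hq, rfl⟩
      obtain ⟨c, hc⟩ := hcon q hq
      rw [hc, Submodule.mem_span_singleton]
      exact ⟨c, by rw [Algebra.smul_def, mul_one]⟩
    have h2 : finrank k ((LinearMap.ker Ψ).map Θ) = finrank k (LinearMap.ker Ψ) :=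
      (Submodule.equivMapOfInjective Θ hΘinj _).finrank_eq.symm
    have h3 : finrank k ((LinearMap.ker Ψ).map Θ) ≤ finrank k (Submodule.span k {(1 : K)}) :=
      Submodule.finrank_mono h1
    have h4 : finrank k (Submodule.span k {(1 : K)}) ≤ 1 := by
      have := finrank_span_le_card (R := k) ({(1 : K)} : Set K)
      simpa using this
    omega
  refine ⟨m, Θ q, hconst, by omega, ⟨fun i => (q i : k[X]), ?_, ?_⟩, ?_⟩
  · intro i
    have h1 := (q i).2
    rw [mem_degreeLT] at h1
    by_cases h0 : (q i : k[X]) = 0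
    · simp [h0]
    · have h2 := (natDegree_lt_iff_degree_lt h0).2 h1
      change (q i : k[X]).natDegree ≤ m - δ
      omega
  · change algebraMap R K (∑ i, ((q i : k[X]) * a) • w i) / s ^ m = _
    congr 1
    rw [map_sum]
    refine Finset.sum_congr rfl fun i _ => ?_
    rw [Algebra.smul_def, map_mul, ← IsScalarTower.algebraMap_apply]
  · intro V hV hsV hVW
    obtain ⟨x, hx1, hx2⟩ := picA_centre V W hV hRW hVW hsR0 (by rw [hsRs]; exact hsW)
    have h1 : Φ q ∈ b ^ m := Ideal.Quotient.eq_zero_iff_mem.1 (LinearMap.mem_ker.1 hq)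
    have h2 : x ^ m ∈ P ^ m := Ideal.pow_mem_pow ((hPmem x).2 hx1) m
    have h3 : Φ q * x ^ m ∈ Ideal.span {sR ^ m} := by
      rw [hspan]
      exact Ideal.mul_mem_mul h1 h2
    rw [Ideal.mem_span_singleton'] at h3
    obtain ⟨y, hy⟩ := h3
    have hx0 : algebraMap R K x ≠ 0 := by
      intro h
      rw [h, map_zero] at hx2
      exact zero_ne_one hx2
    have h4 : Θ q = algebraMap R K y / algebraMap R K x ^ m := by
      change algebraMap R K (Φ q) / s ^ m = _
      rw [div_eq_div_iff (pow_ne_zero _ hs0) (pow_ne_zero _ hx0), ← map_pow, ← map_mul, ← hy, map_mul, map_pow, hsRs]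
    rw [h4, ← ValuationSubring.valuation_le_one_iff, map_div₀, map_pow, hx2, one_pow, div_one]
    exact (V.valuation_le_one_iff _).2 (hV y)

end Pool.Agent.Lib.MP_b197b4_ntA
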