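import Pool.Agent.Lib.MP_b197b4_ntKD.Rm

/-!
# MP_b197b4_nt (K1-ALL): finitely many discrete valuation rings above a given one
-/

set_option autoImplicit false

namespace Pool.Agent.Lib.MP_b197b4_ntA

open IsLocalRing Pool.Agent.Lib.MP_b197b4_ntK Pool.Agent.Lib.MP_b197b4_ntKD

variable {E : Type} [Field E]

theorem xapp_ord_pos {V : ValuationSubring E} [IsDiscreteValuationRing V] {x : E} (hx : x ≠ 0) :
    0 < ord V x ↔ V.valuation x < 1 := by
  have h1 := ValuationSubring.valuation_le_one_iff V x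
  have h2 := mem_iff_ord (V := V) hx
  have h3 := ord_eq_zero_iff (V := V) hx
  constructor
  · intro h
    refine lt_of_le_of_ne (h1.mpr (h2.mpr h.le)) fun h4 => ?_
    exact h.ne' (h3.mpr h4)
  · intro h
    refine lt_of_le_of_ne (h2.mp (h1.mp h.le)) fun h4 => ?_
    exact h.ne (h3.mp h4.symm)

theorem xapp_ord_add {V : ValuationSubring E} [IsDiscreteValuationRing V] {x y : E} (hx : x ≠ 0)
    (hxy : x + y ≠ 0) (h : y = 0 ∨ ord V x < ord V y) : ord V (x + y) = ord V x := by
  rcases h with rfl | h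
  · rw [add_zero]
  by_cases hy : y = 0
  · rw [hy, add_zero]
  have h1 : x + y = x * (1 + y / x) := by field_simp
  have h2 : V.valuation (y / x) < 1 := by
    rw [← xapp_ord_pos (div_ne_zero hy hx), ord_div hy hx]
    omega
  have h3 : V.valuation (1 + y / x) = 1 := V.valuation.map_one_add_of_lt h2
  have h4 : 1 + y / x ≠ 0 := by
    intro h0
    rw [h0, map_zero] at h3
    exact zero_ne_one h3
  rw [h1, ord_mul hx h4, (ord_eq_zero_iff h4).mpr h3, add_zero]

theorem xapp_sep (V W : ValuationSubring E) [IsDiscreteValuationRing V]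
    [IsDiscreteValuationRing W] (h : V ≠ W) : ∃ z : E, z ≠ 0 ∧ ord V z < 0 ∧ 0 < ord W z := by
  have htop : ∀ U : ValuationSubring E, IsDiscreteValuationRing U → U ≠ ⊤ := by
    intro U hU h0
    obtain ⟨π, hπ⟩ := IsDiscreteValuationRing.exists_irreducible U
    have h1 := val_irr hπ
    have h3 : ∀ x : E, x ∈ U := fun x => h0 ▸ ValuationSubring.mem_top x
    have h2 : (π : E)⁻¹ ∈ U := h3 _
    rw [← U.valuation_le_one_iff, map_inv₀] at h2
    exact absurd ((inv_le_one₀ (val_pos hπ)).mp h2) (not_le.mpr h1)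
  have hne : ∀ U U' : ValuationSubring E, IsDiscreteValuationRing U → IsDiscreteValuationRing U' →
      U ≠ U' → ∃ u : E, u ∈ U ∧ u ∉ U' := by
    intro U U' hU hU' hne
    by_contra hcon
    push Not at hcon
    have hle : U ≤ U' := hcon
    exact hne (U.eq_of_le_of_ne_top hle (htop U' hU'))
  obtain ⟨u, hu, hu'⟩ := hne V W inferInstance inferInstance h
  obtain ⟨w, hw, hw'⟩ := hne W V inferInstance inferInstance (Ne.symm h)
  have hu0 : u ≠ 0 := by
    rintro rfl
    exact hu' W.zero_mem
  have hw0 : w ≠ 0 := by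
    rintro rfl
    exact hw' V.zero_mem
  have a1 := (mem_iff_ord (V := V) hu0).mp hu
  have a2 : ord W u < 0 := by
    by_contra hcon
    exact hu' ((mem_iff_ord hu0).mpr (not_lt.mp hcon))
  have a3 := (mem_iff_ord (V := W) hw0).mp hw
  have a4 : ord V w < 0 := by
    by_contra hcon
    exact hw' ((mem_iff_ord hw0).mpr (not_lt.mp hcon))
  refine ⟨w / u, div_ne_zero hw0 hu0, ?_, ?_⟩
  · rw [ord_div hw0 hu0]
    omega
  · rw [ord_div hw0 hu0]
    omega

/-- Weak approximation, first form. -/
theorem xapp_sepN (V : ValuationSubring E) (hV : IsDiscreteValuationRing V)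
    (T : Finset (ValuationSubring E)) (hT : ∀ W ∈ T, IsDiscreteValuationRing W) (hVT : V ∉ T) :
    ∃ z : E, z ≠ 0 ∧ ord V z < 0 ∧ ∀ W ∈ T, 0 < ord W z := by
  classical
  induction T using Finset.induction_on with
  | empty =>
    obtain ⟨π, hπ⟩ := IsDiscreteValuationRing.exists_irreducible V
    refine ⟨(π : E)⁻¹, inv_ne_zero (coe_ne hπ), ?_, by simp⟩
    rw [ord_inv (coe_ne hπ), ord_irr hπ]
    norm_num
  | insert U T hU ih =>
    obtain ⟨z, hz0, hz1, hz2⟩ := ih (fun W hW => hT W (Finset.mem_insert_of_mem hW))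
      (fun h => hVT (Finset.mem_insert_of_mem h))
    have hUd := hT U (Finset.mem_insert_self _ _)
    obtain ⟨y, hy0, hy1, hy2⟩ := xapp_sep V U (fun h => hVT (h ▸ Finset.mem_insert_self _ _))
    -- a large exponent
    obtain ⟨n, hn0, hn⟩ : ∃ n : ℕ, 0 < n ∧ ∀ W ∈ T, 0 < n * ord W z + ord W y := by
      obtain ⟨r, hr⟩ : ∃ r : ℕ, r = ∑ W ∈ T, (ord W y).natAbs := ⟨_, rfl⟩
      refine ⟨r + 1, Nat.succ_pos _, fun W hW => ?_⟩
      have h1 := hz2 W hW
      have h2 : (ord W y).natAbs ≤ r := by
        rw [hr]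
        exact Finset.single_le_sum (f := fun W => (ord W y).natAbs) (fun _ _ => Nat.zero_le _) hW
      have h3 : -(r : ℤ) ≤ ord W y := by omega
      have h4 : ((r + 1 : ℕ) : ℤ) * 1 ≤ ((r + 1 : ℕ) : ℤ) * ord W z :=
        mul_le_mul_of_nonneg_left (by omega) (by omega)
      push_cast at h4 ⊢
      linarith
    have hzn : z ^ n ≠ 0 := pow_ne_zero _ hz0
    have hordn : ∀ W : ValuationSubring E, IsDiscreteValuationRing W →
        ord W (z ^ n) = n * ord W z := by
      intro W hW
      rw [← zpow_natCast, ord_zpow hz0]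
    rcases le_or_gt 0 (ord U z) with hU0 | hU0
    · refine ⟨z ^ n * y, mul_ne_zero hzn hy0, ?_, ?_⟩
      · rw [ord_mul hzn hy0, hordn V hV]
        have : (0 : ℤ) < n := by exact_mod_cast hn0
        nlinarith
      · intro W hW
        have hWd := hT W hW
        rw [ord_mul hzn hy0, hordn W hWd]
        rcases Finset.mem_insert.mp hW with rfl | hW
        · have : (0 : ℤ) ≤ n * ord W z := mul_nonneg (by positivity) hU0
          omega
        · exact hn W hW
    · -- `z ^ n / (1 + z ^ n)`
      have hn' : (0 : ℤ) < n := by exact_mod_cast hn0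
      have hneg : ∀ W : ValuationSubring E, IsDiscreteValuationRing W → ord W z < 0 →
          z ^ n + 1 ≠ 0 ∧ ord W (z ^ n + 1) = ord W (z ^ n) := by
        intro W hW hlt
        have h1 : ord W (z ^ n) < 0 := by
          rw [hordn W hW]
          nlinarith
        have h2 : z ^ n + 1 ≠ 0 := by
          intro h0
          have h3 : z ^ n = -1 := eq_neg_of_add_eq_zero_left h0
          rw [h3, ord_neg one_ne_zero, ord_one] at h1
          exact lt_irrefl _ h1
        refine ⟨h2, xapp_ord_add hzn h2 (Or.inr ?_)⟩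
        rw [ord_one]
        exact h1
      have hne := (hneg V hV hz1).1
      refine ⟨z ^ n * y / (z ^ n + 1), div_ne_zero (mul_ne_zero hzn hy0) hne, ?_, ?_⟩
      · rw [ord_div (mul_ne_zero hzn hy0) hne, ord_mul hzn hy0, (hneg V hV hz1).2]
        omega
      · intro W hW
        have hWd := hT W hW
        rw [ord_div (mul_ne_zero hzn hy0) hne, ord_mul hzn hy0]
        rcases Finset.mem_insert.mp hW with rfl | hW
        · rw [(hneg W hWd hU0).2]
          omega
        · have h1 : 0 < ord W (z ^ n) := by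
            rw [hordn W hWd]
            exact mul_pos hn' (hz2 W hW)
          have h2 : ord W (z ^ n + 1) = 0 := by
            rw [ord_eq_zero_iff hne, add_comm]
            exact W.valuation.map_one_add_of_lt ((xapp_ord_pos hzn).mp h1)
          rw [h2, hordn W hWd]
          have := hn W hW
          omega

/-- Weak approximation. -/
theorem xapp_idem (V : ValuationSubring E) (hV : IsDiscreteValuationRing V)
    (T : Finset (ValuationSubring E)) (hT : ∀ W ∈ T, IsDiscreteValuationRing W) (hVT : V ∉ T) :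
    ∃ e : E, V.valuation e = 1 ∧ ∀ W ∈ T, W.valuation e < 1 := by
  obtain ⟨z, hz0, hz1, hz2⟩ := xapp_sepN V hV T hT hVT
  have h2 : z + 1 ≠ 0 := by
    intro h0
    have h3 : z = -1 := eq_neg_of_add_eq_zero_left h0
    rw [h3, ord_neg one_ne_zero, ord_one] at hz1
    exact lt_irrefl _ hz1
  have h3 : ord V (z + 1) = ord V z := xapp_ord_add hz0 h2 (Or.inr (by rw [ord_one]; exact hz1))
  refine ⟨z / (z + 1), ?_, ?_⟩
  · rw [← ord_eq_zero_iff (div_ne_zero hz0 h2), ord_div hz0 h2, h3, sub_self]
  · intro W hW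
    have hWd := hT W hW
    have h4 : ord W (z + 1) = 0 := by
      rw [ord_eq_zero_iff h2, add_comm]
      exact W.valuation.map_one_add_of_lt ((xapp_ord_pos hz0).mp (hz2 W hW))
    rw [← xapp_ord_pos (div_ne_zero hz0 h2), ord_div hz0 h2, h4, sub_zero]
    exact hz2 W hW

/-- **At most `[E : K₀]` discrete valuation rings lie above a given valuation ring of `K₀`.** -/
theorem fin_over {K₀ : Type} [Field K₀] [Algebra K₀ E] [FiniteDimensional K₀ E]
    (S : Set (ValuationSubring E)) (hS : ∀ V ∈ S, IsDiscreteValuationRing V)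
    (V₀ : ValuationSubring K₀) (h0 : ∀ V ∈ S, V.comap (algebraMap K₀ E) = V₀) : S.Finite := by
  classical
  by_contra hinf
  obtain ⟨T, hTS, hTc⟩ := Set.Infinite.exists_subset_card_eq hinf (Module.finrank K₀ E + 1)
  have hTd : ∀ V ∈ T, IsDiscreteValuationRing V := fun V hV => hS V (hTS hV)
  have hex : ∀ V : T, ∃ e : E, (V : ValuationSubring E).valuation e = 1 ∧
      ∀ W ∈ T.erase V, W.valuation e < 1 := by
    intro V
    exact xapp_idem V.1 (hTd V.1 V.2) (T.erase V.1)
      (fun W hW => hTd W (Finset.mem_of_mem_erase hW)) (Finset.notMem_erase _ _)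
  choose e he1 he2 using hex
  have hli : LinearIndependent K₀ e := by
    rw [Fintype.linearIndependent_iff]
    intro c hc
    by_contra hcon
    push Not at hcon
    obtain ⟨V₂, hV₂⟩ := hcon
    obtain ⟨V₁, -, hmax⟩ := Finset.exists_max_image (Finset.univ : Finset T)
      (fun V => V₀.valuation (c V)) ⟨V₂, Finset.mem_univ _⟩
    have hc1 : c V₁ ≠ 0 := by
      intro h1
      have h2 := hmax V₂ (Finset.mem_univ _)
      rw [h1, map_zero] at h2
      exact hV₂ ((map_eq_zero _).mp (le_zero_iff.mp h2))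
    have hV₁ : (V₁ : ValuationSubring E).comap (algebraMap K₀ E) = V₀ := h0 _ (hTS V₁.2)
    have hle : ∀ V, (V₁ : ValuationSubring E).valuation (algebraMap K₀ E (c V / c V₁)) ≤ 1 := by
      intro V
      have h2 := hmax V (Finset.mem_univ _)
      have h3 : V₀.valuation (c V / c V₁) ≤ 1 := by
        rw [map_div₀]
        exact div_le_one_of_le₀ h2 zero_le
      rw [ValuationSubring.valuation_le_one_iff] at h3 ⊢
      rw [← hV₁] at h3
      exact h3
    have hsum : e V₁ = - ∑ V ∈ Finset.univ.erase V₁, (c V / c V₁) • e V := by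
      rw [← Finset.add_sum_erase _ _ (Finset.mem_univ V₁)] at hc
      have h4 : (c V₁)⁻¹ • (c V₁ • e V₁ + ∑ V ∈ Finset.univ.erase V₁, c V • e V) = 0 := by
        rw [hc, smul_zero]
      rw [smul_add, smul_smul, inv_mul_cancel₀ hc1, one_smul, Finset.smul_sum] at h4
      rw [eq_neg_iff_add_eq_zero, ← h4]
      congr 1
      refine Finset.sum_congr rfl fun V _ => ?_
      rw [smul_smul, div_eq_inv_mul]
    have hlt : (V₁ : ValuationSubring E).valuation (e V₁) < 1 := by
      rw [hsum, Valuation.map_neg]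
      refine Valuation.map_sum_lt _ one_ne_zero fun V hV => ?_
      rw [Algebra.smul_def, map_mul]
      have h5 : (V₁ : ValuationSubring E).valuation (e V) < 1 := by
        refine he2 V _ (Finset.mem_erase.mpr ⟨fun h6 => ?_, V₁.2⟩)
        exact (Finset.mem_erase.mp hV).1 (Subtype.ext h6).symm
      exact lt_of_le_of_lt (mul_le_of_le_one_left' (hle V)) h5
    exact absurd (he1 V₁) hlt.ne
  have h1 := hli.fintype_card_le_finrank
  rw [Fintype.card_coe, hTc] at h1
  omega

end Pool.Agent.Lib.MP_b197b4_ntA
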